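import Pool.Agent.Lib.TRD.Basic

/-! # TRD.Antichain (MP_2e3d39_co)

Vertices with subtrees of the same size δ are pairwise incomparable.

c(x) := card ((dl x).filter (fun e => sz e.2 + 1 = δ)). Claim δ * c(x) + 1 ≤ size x. RT.ind: x = node m, dl_node; c (node m) = ∑ over y ∈ m of ([size y = δ] + c(y)) (sz (ch y) + 1 = size y). For each y: δ * ([size y = δ] + c y) ≤ size y: if size y = δ then c y = 0, because entries e ∈ dl y have sz e.2 + 1 < size y (`dl_size`, `size_pos`);
otherwise use the induction hypothesis. Sum over m (Multiset.sum_map_le_sum_map or induction on the multiset). `antichain_K`: e.1 = K implies sz e.2 + 1 = size x - size K (`dl_size`).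
-/

open Multiset

namespace TRD

noncomputable section

theorem antichain (x : RT) (δ : ℕ) :
    δ * card ((dl x).filter (fun e => sz e.2 + 1 = δ)) + 1 ≤ size x := by
  revert x
  apply RT.ind
  intro m ih
  rw [dl_node, Multiset.filter_bind, Multiset.card_bind, size_node]
  have key : ∀ y ∈ m, δ * card (((node (m.erase y), ch y) ::ₘ
      (dl y).map (fun e => (node (e.1 ::ₘ m.erase y), e.2))).filter
        (fun e => sz e.2 + 1 = δ)) ≤ size y := by
    intro y hy
    have h1 : card (((dl y).map (fun e => (node (e.1 ::ₘ m.erase y), e.2))).filter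
        (fun e => sz e.2 + 1 = δ)) = card ((dl y).filter (fun e => sz e.2 + 1 = δ)) := by
      rw [Multiset.filter_map, Multiset.card_map]
      rfl
    have h2 := size_eq y
    by_cases hδ : sz (ch y) + 1 = δ
    · have h0 : (fun e : RT × Multiset RT => sz e.2 + 1 = δ) (node (m.erase y), ch y) := hδ
      rw [Multiset.filter_cons_of_pos (p := fun e : RT × Multiset RT => sz e.2 + 1 = δ) _ h0,
        card_cons, h1]
      have h3 : (dl y).filter (fun e => sz e.2 + 1 = δ) = 0 := by
        rw [Multiset.filter_eq_nil]
        intro e he h4
        have h5 := dl_size he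
        have h6 := size_pos e.1
        omega
      rw [h3, card_zero]
      omega
    · have h0 : ¬ (fun e : RT × Multiset RT => sz e.2 + 1 = δ) (node (m.erase y), ch y) := hδ
      rw [Multiset.filter_cons_of_neg (p := fun e : RT × Multiset RT => sz e.2 + 1 = δ) _ h0, h1]
      have := ih y hy
      omega
  have h2 : δ * (m.map (card ∘ fun y => ((node (m.erase y), ch y) ::ₘ
      (dl y).map (fun e => (node (e.1 ::ₘ m.erase y), e.2))).filter
        (fun e => sz e.2 + 1 = δ))).sum ≤ (m.map size).sum := by
    rw [← Multiset.sum_map_mul_left]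
    exact Multiset.sum_map_le_sum_map _ _ key
  unfold sz at *
  omega

theorem antichain_K (x K : RT) :
    (size x - size K) * card ((dl x).filter (fun e => e.1 = K)) + 1 ≤ size x := by
  by_cases hK : ∃ e ∈ dl x, e.1 = K
  · have h1 := antichain x (size x - size K)
    have h2 : card ((dl x).filter (fun e => e.1 = K))
        ≤ card ((dl x).filter (fun e => sz e.2 + 1 = size x - size K)) := by
      refine Multiset.card_le_card (Multiset.le_filter.mpr ⟨Multiset.filter_le _ _, ?_⟩)
      intro e he
      obtain ⟨he1, he2⟩ := Multiset.mem_filter.mp he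
      have h5 := dl_size he1
      rw [he2] at h5
      omega
    have h3 := Nat.mul_le_mul_left (size x - size K) h2
    omega
  · have h3 : (dl x).filter (fun e => e.1 = K) = 0 := by
      rw [Multiset.filter_eq_nil]
      intro e he h4
      exact hK ⟨e, he, h4⟩
    rw [h3, card_zero]
    have := size_pos x
    omega

end

end TRD
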