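import Pool.Agent.Lib.TRD.Defs

/-! # Basic facts on codes (package TRD, MP_2e3d39_co) -/

open Multiset

namespace TRD

noncomputable section

theorem sz_zero : sz 0 = 0 := rfl

theorem sz_cons (y : RT) (m : Multiset RT) : sz (y ::ₘ m) = size y + sz m := by
  simp [sz]

theorem sz_add (m m' : Multiset RT) : sz (m + m') = sz m + sz m' := by
  simp [sz]

theorem sz_singleton (y : RT) : sz {y} = size y := by
  simp [sz]

theorem size_eq (x : RT) : size x = 1 + sz (ch x) := by
  conv_lhs => rw [← node_ch x, size_node]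

theorem size_pos (x : RT) : 0 < size x := by
  rw [size_eq]; omega

theorem ht_eq (x : RT) : ht x = hb (ch x) := by
  conv_lhs => rw [← node_ch x, ht_node]

theorem hb_zero : hb 0 = 0 := rfl

theorem hb_cons (y : RT) (m : Multiset RT) : hb (y ::ₘ m) = max (ht y + 1) (hb m) := by
  simp [hb]

theorem hb_add (m m' : Multiset RT) : hb (m + m') = max (hb m) (hb m') := by
  simp [hb]

theorem hb_singleton (y : RT) : hb {y} = ht y + 1 := by
  simp [hb]

theorem size_le_sz {y : RT} {m : Multiset RT} (h : y ∈ m) : size y ≤ sz m := by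
  obtain ⟨t, rfl⟩ := Multiset.exists_cons_of_mem h
  rw [sz_cons]; omega

theorem ht_lt_hb {y : RT} {m : Multiset RT} (h : y ∈ m) : ht y + 1 ≤ hb m := by
  obtain ⟨t, rfl⟩ := Multiset.exists_cons_of_mem h
  rw [hb_cons]; omega

/-- the height is attained -/
theorem hb_attained {m : Multiset RT} (h : m ≠ 0) : ∃ y ∈ m, ht y + 1 = hb m := by
  induction m using Multiset.induction_on with
  | empty => exact absurd rfl h
  | cons a m ih =>
    rw [hb_cons]
    by_cases hm : m = 0
    · subst hm
      exact ⟨a, by simp, by rw [hb_zero]; omega⟩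
    · obtain ⟨y, hy, hy2⟩ := ih hm
      rcases le_total (ht a + 1) (hb m) with h1 | h1
      · exact ⟨y, Multiset.mem_cons_of_mem hy, by rw [max_eq_right h1]; exact hy2⟩
      · exact ⟨a, Multiset.mem_cons_self a m, by rw [max_eq_left h1]⟩

theorem card_le_sz (m : Multiset RT) : card m ≤ sz m := by
  induction m using Multiset.induction_on with
  | empty => simp [sz_zero]
  | cons a m ih => rw [sz_cons, card_cons]; have := size_pos a; omega

theorem ht_lt_size (x : RT) : ht x + 1 ≤ size x := by
  revert x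
  apply RT.ind
  intro m ih
  rw [ht_node, size_node]
  have : hb m ≤ sz m := by
    by_cases hm : m = 0
    · subst hm; simp [hb_zero]
    · obtain ⟨y, hy, hy2⟩ := hb_attained hm
      have h1 := ih y hy
      have h2 := size_le_sz hy
      omega
  omega

theorem hb_le_sz (m : Multiset RT) : hb m ≤ sz m := by
  have h := ht_lt_size (node m)
  rw [ht_node, size_node] at h
  omega

theorem card_dl (x : RT) : card (dl x) + 1 = size x := by
  revert x
  apply RT.ind
  intro m ih
  rw [dl_node, size_node, Multiset.card_bind]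
  have h1 : (m.map (card ∘ fun y => (node (m.erase y), ch y) ::ₘ
      (dl y).map (fun e => (node (e.1 ::ₘ m.erase y), e.2)))).sum = (m.map size).sum := by
    congr 1
    apply Multiset.map_congr rfl
    intro y hy
    simp only [Function.comp, card_cons, card_map]
    exact ih y hy
  rw [h1]
  unfold sz
  omega

theorem card_dlo (y : RT) : card (dlo y) = size y := by
  unfold dlo
  rw [card_cons, card_map, card_dl]

theorem dl_size {x : RT} : ∀ {e : RT × Multiset RT}, e ∈ dl x →
    size e.1 + sz e.2 + 1 = size x := by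
  revert x
  apply RT.ind
  intro m ih e he
  rw [dl_node, Multiset.mem_bind] at he
  obtain ⟨y, hy, he⟩ := he
  have hm : y ::ₘ m.erase y = m := Multiset.cons_erase hy
  have hs : sz m = size y + sz (m.erase y) := by rw [← sz_cons, hm]
  rw [Multiset.mem_cons, Multiset.mem_map] at he
  rw [size_node, hs]
  rcases he with rfl | ⟨f, hf, rfl⟩
  · simp only [size_node]
    have := size_eq y
    omega
  · simp only [size_node, sz_cons]
    have := ih y hy hf
    omega

theorem mem_dlo {y : RT} {o : Multiset RT × Multiset RT} :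
    o ∈ dlo y ↔ o = (0, ch y) ∨ ∃ e ∈ dl y, o = ({e.1}, e.2) := by
  unfold dlo
  rw [Multiset.mem_cons, Multiset.mem_map]
  constructor
  · rintro (h | ⟨e, he, rfl⟩)
    · exact Or.inl h
    · exact Or.inr ⟨e, he, rfl⟩
  · rintro (h | ⟨e, he, rfl⟩)
    · exact Or.inl h
    · exact Or.inr ⟨e, he, rfl⟩

theorem dlo_size {y : RT} {o : Multiset RT × Multiset RT} (h : o ∈ dlo y) :
    sz o.1 + sz o.2 + 1 = size y := by
  rcases mem_dlo.1 h with rfl | ⟨e, he, rfl⟩
  · have := size_eq y
    simp only [sz_zero]
    omega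
  · have := dl_size he
    simp only [sz_singleton]
    omega

theorem dlo_card {y : RT} {o : Multiset RT × Multiset RT} (h : o ∈ dlo y) : card o.1 ≤ 1 := by
  rcases mem_dlo.1 h with rfl | ⟨e, he, rfl⟩
  · simp
  · simp

theorem dl_ht {x : RT} : ∀ {e : RT × Multiset RT}, e ∈ dl x →
    ht e.1 ≤ ht x ∧ ∀ y ∈ e.2, ht y + 2 ≤ ht x := by
  revert x
  apply RT.ind
  intro m ih e he
  rw [dl_node, Multiset.mem_bind] at he
  obtain ⟨y, hy, he⟩ := he
  have hm : y ::ₘ m.erase y = m := Multiset.cons_erase hy
  have hs : hb m = max (ht y + 1) (hb (m.erase y)) := by rw [← hb_cons, hm]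
  rw [Multiset.mem_cons, Multiset.mem_map] at he
  rw [ht_node, hs]
  rcases he with rfl | ⟨f, hf, rfl⟩
  · simp only [ht_node]
    refine ⟨by omega, ?_⟩
    intro w hw
    have := ht_lt_hb hw
    rw [← ht_eq] at this
    omega
  · simp only [ht_node, hb_cons]
    obtain ⟨h1, h2⟩ := ih y hy hf
    refine ⟨by omega, ?_⟩
    intro w hw
    have := h2 w hw
    omega

theorem dlo_hb {y : RT} {o : Multiset RT × Multiset RT} (h : o ∈ dlo y) :
    hb o.1 ≤ ht y + 1 ∧ hb o.2 ≤ ht y := by
  rcases mem_dlo.1 h with rfl | ⟨e, he, rfl⟩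
  · simp only [hb_zero]
    rw [ht_eq]
    omega
  · obtain ⟨h1, h2⟩ := dl_ht he
    simp only [hb_singleton]
    refine ⟨by omega, ?_⟩
    by_cases h0 : e.2 = 0
    · rw [h0, hb_zero]; omega
    · obtain ⟨w, hw, hw2⟩ := hb_attained h0
      have := h2 w hw
      omega

theorem mem_ldl {m : Multiset RT} {t : RT × Multiset RT × Multiset RT} :
    t ∈ ldl m ↔ t.1 ∈ m ∧ t.2 ∈ dlo t.1 := by
  unfold ldl
  rw [Multiset.mem_bind]
  constructor
  · rintro ⟨y, hy, h⟩
    rw [Multiset.mem_map] at h
    obtain ⟨o, ho, rfl⟩ := h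
    exact ⟨hy, ho⟩
  · rintro ⟨h1, h2⟩
    exact ⟨t.1, h1, Multiset.mem_map.2 ⟨t.2, h2, rfl⟩⟩

theorem dl_eq_ldl (m : Multiset RT) : dl (node m) =
    (ldl m).map (fun t => (node (t.2.1 + m.erase t.1), t.2.2)) := by
  rw [dl_node']
  unfold ldl
  rw [Multiset.map_bind]
  apply Multiset.bind_congr
  intro y _
  rw [Multiset.map_map]
  rfl

theorem ldl_cons (y : RT) (m : Multiset RT) :
    ldl (y ::ₘ m) = (dlo y).map (fun o => (y, o)) + ldl m := by
  unfold ldl
  rw [Multiset.cons_bind]

theorem ldl_add (m m' : Multiset RT) : ldl (m + m') = ldl m + ldl m' := by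
  unfold ldl
  rw [Multiset.add_bind]

theorem card_ldl (m : Multiset RT) : card (ldl m) = sz m := by
  induction m using Multiset.induction_on with
  | empty => simp [ldl, sz_zero]
  | cons a m ih => rw [ldl_cons, card_add, card_map, card_dlo, ih, sz_cons]

/-- size of an unrooted tree -/
def csize : Cls → ℕ := Quot.lift size (by
  rintro _ _ ⟨A, B, rfl, rfl⟩
  simp only [size_node, sz_cons]
  omega)

theorem csize_cls (x : RT) : csize (cls x) = size x := rfl

theorem sz_of_cls {m m' : Multiset RT} (h : m.map cls = m'.map cls) : sz m = sz m' := by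
  have h1 : (m.map cls).map csize = (m'.map cls).map csize := by rw [h]
  rw [Multiset.map_map, Multiset.map_map] at h1
  unfold sz
  exact congrArg Multiset.sum h1

theorem card_of_cls {m m' : Multiset RT} (h : m.map cls = m'.map cls) : card m = card m' := by
  have := congrArg card h
  simpa using this

end

end TRD
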