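import Pool.Agent.Lib.TRD.Basic

/-! # Dart codes (package TRD, MP_2e3d39_co): definitions and equations -/

open Multiset

namespace TRD

noncomputable section

/-- proper subtrees of `x`: codes of all darts pointing away from the root -/
def Dn : RT → Multiset RT := para (fun s => s.bind (fun p => p.1 ::ₘ p.2))

theorem Dn_node (m : Multiset RT) : Dn (node m) = m.bind (fun y => y ::ₘ Dn y) := by
  unfold Dn
  rw [para_node, Multiset.bind_map]

/-- codes of all darts inside `y` pointing to the root of `y`, if the tree `A` is attached above
the root of `y` -/
def Upp : RT → RT → Multiset RT := para (β := RT → Multiset RT) (fun s => fun A =>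
  s.bind (fun p => node (A ::ₘ (s.map Prod.fst).erase p.1) ::ₘ
    p.2 (node (A ::ₘ (s.map Prod.fst).erase p.1))))

theorem Upp_node (m : Multiset RT) (A : RT) : Upp (node m) A = m.bind (fun z =>
    node (A ::ₘ m.erase z) ::ₘ Upp z (node (A ::ₘ m.erase z))) := by
  unfold Upp
  rw [para_node]
  simp only [Multiset.bind_map, Multiset.map_map, Function.comp, Multiset.map_id']

/-- codes of all darts of the tree: for every edge the two sides, rooted at the end of the edge -/
def Br (x : RT) : Multiset RT := Dn x + (ch x).bind (fun y =>
  node ((ch x).erase y) ::ₘ Upp y (node ((ch x).erase y)))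

end

end TRD
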