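import Pool.Agent.Lib.TRD.BrDefs

/-! # TRD.BrFlip (MP_2e3d39_co)

The multiset of dart codes is an invariant of the unrooted tree.

Proof. Let P = node A, Q = node B, x = node (Q ::ₘ A). Show
  Br x = Dn P + Dn Q + {P} + {Q} + Upp Q P + Upp P Q            (*)
which is symmetric. `Dn_node`: Dn x = Q ::ₘ Dn Q + A.bind (y ::ₘ Dn y) = Q ::ₘ Dn Q + Dn P. The second part of Br x (ch x = Q ::ₘ A by
`ch_node`) is a bind over Q ::ₘ A: the term of Q is P ::ₘ Upp Q P because (Q ::ₘ A).erase Q = A; for y ∈ A,
(Q ::ₘ A).erase y = Q ::ₘ A.erase y (also if y = Q, `Multiset.erase_cons_tail_of_mem` or by cases), so the rest of the bind is Upp P Q by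
`Upp_node`. For the other side exchange the roles of P and Q. `br_cls` follows from `cls x = cls y` by
`Quot.lift`: define the lift of Br to Cls (`Quot.lift Br ...`) and apply congrArg.
-/

open Multiset

namespace TRD

noncomputable section

theorem br_eq_aux (A B : Multiset RT) :
    Br (node (node B ::ₘ A)) = Dn (node A) + Dn (node B) + {node A} + {node B} +
      Upp (node B) (node A) + Upp (node A) (node B) := by
  unfold Br
  rw [ch_node, Multiset.cons_bind, Multiset.erase_cons_head, Dn_node, Multiset.cons_bind]
  have h1 : A.bind (fun y => node ((node B ::ₘ A).erase y) ::ₘ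
      Upp y (node ((node B ::ₘ A).erase y))) = Upp (node A) (node B) := by
    rw [Upp_node]
    apply Multiset.bind_congr
    intro y hy
    have h2 : (node B ::ₘ A).erase y = node B ::ₘ A.erase y := by
      by_cases hyB : y = node B
      · subst hyB
        rw [Multiset.erase_cons_head, Multiset.cons_erase hy]
      · rw [Multiset.erase_cons_tail]
        exact fun h => hyB h.symm
    rw [h2]
  rw [h1, ← Dn_node A]
  rw [← Multiset.singleton_add (node B) (Dn (node B)),
    ← Multiset.singleton_add (node A) (Upp (node B) (node A))]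
  abel

theorem br_flip (A B : Multiset RT) :
    Br (node (node B ::ₘ A)) = Br (node (node A ::ₘ B)) := by
  rw [br_eq_aux A B, br_eq_aux B A]
  abel

theorem br_cls {x y : RT} (h : cls x = cls y) : Br x = Br y := by
  let F : Cls → Multiset RT := Quot.lift Br (by
    rintro _ _ ⟨A, B, rfl, rfl⟩
    exact br_flip A B)
  have h1 : F (cls x) = F (cls y) := congrArg F h
  exact h1

end

end TRD
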