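import Pool.Agent.Lib.TRD.Basic

/-! # TRD.WordA (MP_2e3d39_co)

Elementary facts on words: sizes.

* `Vm_of_lt`: i - h = (i - (h+1)) + 1, unfold Vk once. `Vm_of_le`: i - h = 0.
* `sz_Lm`: induction on h (size_node, sz_add, `Finset.sum_range_succ`).
* `sz_Vm`: downward induction on h (or induction on k = i - h for Vk).
* `Lm_congr`, `Vm_congr`: induction.
* `Vm_single`, `Lm_single`: these multisets have exactly one element.
* `Vm_eq_iff`-type facts by sizes: `Vm_inj`.
-/

open Multiset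

namespace TRD

noncomputable section

theorem Vm_of_lt (μ : ℕ → Multiset RT) {i h : ℕ} (hh : h < i) :
    Vm μ i h = {node (μ h + Vm μ i (h + 1))} := by
  unfold Vm
  have e : i - h = (i - (h + 1)) + 1 := by omega
  rw [e]
  rfl

theorem Vm_of_le (μ : ℕ → Multiset RT) {i h : ℕ} (hh : i ≤ h) : Vm μ i h = 0 := by
  unfold Vm
  have e : i - h = 0 := by omega
  rw [e]
  rfl

theorem Lm_single (μ : ℕ → Multiset RT) {h : ℕ} (hh : 1 ≤ h) :
    Lm μ h = {node (μ (h - 1) + Lm μ (h - 1))} := by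
  obtain ⟨k, rfl⟩ : ∃ k, h = k + 1 := ⟨h - 1, by omega⟩
  rfl

theorem card_Lm_le (μ : ℕ → Multiset RT) (h : ℕ) : card (Lm μ h) ≤ 1 := by
  cases h with
  | zero => simp [Lm]
  | succ k => simp [Lm]

theorem card_Vm_le (μ : ℕ → Multiset RT) (i h : ℕ) : card (Vm μ i h) ≤ 1 := by
  unfold Vm
  cases i - h with
  | zero => simp [Vk]
  | succ k => simp [Vk]

private theorem Sz_succ' (μ : ℕ → Multiset RT) (i : ℕ) : Sz μ (i + 1) = Sz μ i + 1 + sz (μ i) := by
  unfold Sz
  rw [Finset.sum_range_succ]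
  omega

theorem sz_Lm (μ : ℕ → Multiset RT) (h : ℕ) : sz (Lm μ h) = Sz μ h := by
  induction h with
  | zero => simp [Lm, sz_zero, Sz]
  | succ k ih =>
    rw [Sz_succ']
    unfold Lm
    rw [sz_singleton, size_node, sz_add, ih]
    omega

private theorem sz_Vk (μ : ℕ → Multiset RT) (k : ℕ) : ∀ h, sz (Vk μ k h) + Sz μ h = Sz μ (h + k) := by
  induction k with
  | zero => intro h; simp [Vk, sz_zero]
  | succ k ih =>
    intro h
    have h1 := ih (h + 1)
    have h2 := Sz_succ' μ h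
    unfold Vk
    rw [sz_singleton, size_node, sz_add]
    have h3 : h + 1 + k = h + (k + 1) := by omega
    rw [h3] at h1
    omega

theorem sz_Vm (μ : ℕ → Multiset RT) {i h : ℕ} (hh : h ≤ i) :
    sz (Vm μ i h) + Sz μ h = Sz μ i := by
  have h1 := sz_Vk μ (i - h) h
  have h2 : h + (i - h) = i := by omega
  rw [h2] at h1
  exact h1

theorem Sz_succ (μ : ℕ → Multiset RT) (i : ℕ) : Sz μ (i + 1) = Sz μ i + 1 + sz (μ i) :=
  Sz_succ' μ i

theorem Sz_mono (μ : ℕ → Multiset RT) {i j : ℕ} (h : i ≤ j) : Sz μ i + (j - i) ≤ Sz μ j := by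
  induction j, h using Nat.le_induction with
  | base => omega
  | succ j hij ih =>
    have := Sz_succ μ j
    omega

theorem Sz_inj (μ : ℕ → Multiset RT) {i j : ℕ} (h : Sz μ i = Sz μ j) : i = j := by
  rcases Nat.le_total i j with hle | hle
  · have := Sz_mono μ hle
    omega
  · have := Sz_mono μ hle
    omega

theorem le_Sz (μ : ℕ → Multiset RT) (i : ℕ) : i ≤ Sz μ i := by
  have := Sz_mono μ (Nat.zero_le i)
  omega

theorem Lm_congr {μ ν : ℕ → Multiset RT} {h : ℕ} (hh : ∀ m < h, μ m = ν m) : Lm μ h = Lm ν h := by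
  induction h with
  | zero => rfl
  | succ k ih =>
    unfold Lm
    rw [ih fun m hm => hh m (Nat.lt_succ_of_lt hm), hh k (Nat.lt_succ_self k)]

private theorem Vk_congr {μ ν : ℕ → Multiset RT} (k : ℕ) :
    ∀ h, (∀ m, h ≤ m → m < h + k → μ m = ν m) → Vk μ k h = Vk ν k h := by
  induction k with
  | zero => intro h _; rfl
  | succ k ih =>
    intro h hh
    unfold Vk
    rw [ih (h + 1) fun m h1 h2 => hh m (by omega) (by omega), hh h le_rfl (by omega)]

theorem Vm_congr {μ ν : ℕ → Multiset RT} {i h : ℕ} (hh : ∀ m, h ≤ m → m < i → μ m = ν m) :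
    Vm μ i h = Vm ν i h := by
  unfold Vm
  apply Vk_congr
  intro m h1 h2
  exact hh m h1 (by omega)

/-- equality of right parts of different lengths is impossible -/
theorem Vm_inj (μ : ℕ → Multiset RT) {i i' h : ℕ} (hi : h ≤ i) (hi' : h ≤ i')
    (he : Vm μ i h = Vm μ i' h) : i = i' := by
  have h1 := sz_Vm μ hi
  have h2 := sz_Vm μ hi'
  rw [he] at h1
  exact Sz_inj μ (h1.symm.trans h2)

end

end TRD
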