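import Pool.Agent.Lib.TRD.BrFlip
import Pool.Agent.Lib.TRD.WordA

/-! # TRD.BrWord (MP_2e3d39_co)

Dart codes of a word. The darts along the path, the darts pointing away from the path, and the rest; the rest are darts pointing to the
path from inside a bush y ∈ σ m, they have at least n - size y vertices.

Proof. Put v q := the element of Vm σ (k+1) q (1 ≤ q ≤ k), A q := the element of Lm σ q. Claim, for q = k, k-1, ..., 1 (downward induction on q):
there is R_q with
   Dn (v q) + Upp (v q) (A q) = ∑ p ∈ Icc (q+1) k, (Lm σ p + Vm σ (k+1) p)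
        + ∑ m ∈ Icc q k, (σ m).bind (fun y => y ::ₘ Dn y) + R_q
and every c ∈ R_q satisfies n ≤ size c + size y for some m ≤ k, y ∈ σ m (n = Sz σ (k+1)). Indeed v q = node (σ q + Vm σ (k+1) (q+1)); expand Dn_node and Upp_node over the
sum σ q + {v (q+1)} (for q = k the second part is empty): the term of v (q+1) in Upp is node (A q ::ₘ σ q) = A (q+1) (an element of Lm σ (q+1)) followed by
Upp (v (q+1)) (A (q+1)). [ (σ q + {v}).erase v = σ q. ] The terms of y ∈ σ q are node (A q ::ₘ rest) ::ₘ Upp y (...), where the code C := node (A q ::ₘ (σ q + Vm..).erase y) has size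
n - size y exactly (sizes: size (A q) = Sz σ q, sz_Vm), and every element of Upp y C has size ≥ size C (`upp_size`: by RT.ind on y, every c ∈ Upp y C has
size c > size C, because it is node (C ::ₘ ...) or lies in Upp z C' with size C' > size C). These terms form the new part of R_q.
Finally Br (node (σ 0 + Vm σ (k+1) 1)) is expanded in the same way at position 0 (no A): the term of v 1 is node (σ 0) = element of Lm σ 1 followed by Upp (v 1) (A 1).
If k = 0 the sum over Icc 1 0 is empty.
-/

open Multiset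

namespace TRD

noncomputable section

theorem upp_size {y C c : RT} (hc : c ∈ Upp y C) : size C < size c := by
  revert C c
  revert y
  apply RT.ind
  intro m ih C c hc
  rw [Upp_node, Multiset.mem_bind] at hc
  obtain ⟨z, hz, hc⟩ := hc
  have h1 : size C < size (node (C ::ₘ m.erase z)) := by
    rw [size_node, sz_cons]
    omega
  rw [Multiset.mem_cons] at hc
  rcases hc with rfl | hc
  · exact h1
  · exact h1.trans (ih z hz hc)

private theorem sum_Icc_left {M : Type} [AddCommMonoid M] (f : ℕ → M) {a b : ℕ} (h : a ≤ b) :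
    ∑ p ∈ Finset.Icc a b, f p = f a + ∑ p ∈ Finset.Icc (a + 1) b, f p := by
  rw [← Finset.insert_Icc_add_one_left_eq_Icc h, Finset.sum_insert]
  simp

/-- darts inside the trees of `m` pointing to the root, `A` is attached at the root -/
private def W (m A : Multiset RT) : Multiset RT :=
  m.bind (fun z => node (A + m.erase z) ::ₘ Upp z (node (A + m.erase z)))

private theorem Upp_W (m : Multiset RT) (a : RT) : Upp (node m) a = W m {a} := by
  rw [Upp_node]
  unfold W
  simp only [Multiset.singleton_add]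

/-- the part which goes into the remainder -/
private def Rq (σ : ℕ → Multiset RT) (k q : ℕ) : Multiset RT :=
  (σ q).bind (fun z => node (Lm σ q + (σ q + Vm σ (k + 1) (q + 1)).erase z) ::ₘ
    Upp z (node (Lm σ q + (σ q + Vm σ (k + 1) (q + 1)).erase z)))

private theorem Rq_size (σ : ℕ → Multiset RT) {k q : ℕ} (hq : q ≤ k) {c : RT} (hc : c ∈ Rq σ k q) :
    ∃ y ∈ σ q, Sz σ (k + 1) ≤ size c + size y := by
  unfold Rq at hc
  rw [Multiset.mem_bind] at hc
  obtain ⟨z, hz, hc⟩ := hc
  refine ⟨z, hz, ?_⟩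
  have h1 : Sz σ (k + 1) ≤
      size (node (Lm σ q + (σ q + Vm σ (k + 1) (q + 1)).erase z)) + size z := by
    have hm : z ::ₘ (σ q + Vm σ (k + 1) (q + 1)).erase z = σ q + Vm σ (k + 1) (q + 1) :=
      Multiset.cons_erase (Multiset.mem_add.2 (Or.inl hz))
    have hs := congrArg sz hm
    rw [sz_cons, sz_add] at hs
    have h2 := sz_Vm σ (i := k + 1) (h := q + 1) (by omega)
    have h3 := Sz_succ σ q
    rw [size_node, sz_add, sz_Lm]
    omega
  rw [Multiset.mem_cons] at hc
  rcases hc with rfl | hc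
  · exact h1
  · have := upp_size hc
    omega

private theorem main (σ : ℕ → Multiset RT) (k : ℕ) : ∀ j q : ℕ, q + j = k →
    ∃ R : Multiset RT,
      (σ q + Vm σ (k + 1) (q + 1)).bind (fun y => y ::ₘ Dn y) +
        W (σ q + Vm σ (k + 1) (q + 1)) (Lm σ q) =
      (∑ p ∈ Finset.Icc (q + 1) k, (Lm σ p + Vm σ (k + 1) p)) +
      (∑ m ∈ Finset.Icc q k, (σ m).bind (fun y => y ::ₘ Dn y)) + R ∧
    ∀ c ∈ R, ∃ m ≤ k, ∃ y ∈ σ m, Sz σ (k + 1) ≤ size c + size y := by
  intro j
  induction j with
  | zero =>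
    intro q hq
    have hq' : q = k := by omega
    subst hq'
    have hV : Vm σ (q + 1) (q + 1) = 0 := Vm_of_le σ le_rfl
    refine ⟨Rq σ q q, ?_, ?_⟩
    · unfold Rq W
      rw [hV, add_zero]
      simp
    · intro c hc
      obtain ⟨y, hy, h⟩ := Rq_size σ le_rfl hc
      exact ⟨q, le_rfl, y, hy, h⟩
  | succ j ih =>
    intro q hq
    obtain ⟨R, hR, hR2⟩ := ih (q + 1) (by omega)
    have hV : Vm σ (k + 1) (q + 1) = {node (σ (q + 1) + Vm σ (k + 1) (q + 1 + 1))} :=
      Vm_of_lt σ (by omega)
    have hL : Lm σ (q + 1) = {node (σ q + Lm σ q)} := rfl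
    refine ⟨Rq σ k q + R, ?_, ?_⟩
    · have e1 : W (σ q + Vm σ (k + 1) (q + 1)) (Lm σ q) =
          Rq σ k q + (Lm σ (q + 1) +
            W (σ (q + 1) + Vm σ (k + 1) (q + 1 + 1)) (Lm σ (q + 1))) := by
        unfold Rq
        rw [hV]
        conv_lhs => unfold W
        rw [Multiset.add_bind, Multiset.singleton_bind]
        congr 1
        have e2 : (σ q + {node (σ (q + 1) + Vm σ (k + 1) (q + 1 + 1))}).erase
            (node (σ (q + 1) + Vm σ (k + 1) (q + 1 + 1))) = σ q := by
          rw [add_comm, Multiset.singleton_add, Multiset.erase_cons_head]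
        rw [e2, add_comm (Lm σ q) (σ q), Upp_W, hL, Multiset.singleton_add]
      have e3 : (σ q + Vm σ (k + 1) (q + 1)).bind (fun y => y ::ₘ Dn y) =
          (σ q).bind (fun y => y ::ₘ Dn y) + (Vm σ (k + 1) (q + 1) +
            (σ (q + 1) + Vm σ (k + 1) (q + 1 + 1)).bind (fun y => y ::ₘ Dn y)) := by
        rw [Multiset.add_bind]
        congr 1
        rw [hV, Multiset.singleton_bind, Dn_node, Multiset.singleton_add]
      rw [e1, e3, sum_Icc_left _ (show q + 1 ≤ k by omega), sum_Icc_left _ (show q ≤ k by omega)]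
      calc _ = (Lm σ (q + 1) + Vm σ (k + 1) (q + 1)) + (σ q).bind (fun y => y ::ₘ Dn y) +
            Rq σ k q +
            ((σ (q + 1) + Vm σ (k + 1) (q + 1 + 1)).bind (fun y => y ::ₘ Dn y) +
              W (σ (q + 1) + Vm σ (k + 1) (q + 1 + 1)) (Lm σ (q + 1))) := by abel
        _ = _ := by
          rw [hR]
          abel
    · intro c hc
      rw [Multiset.mem_add] at hc
      rcases hc with hc | hc
      · obtain ⟨y, hy, h⟩ := Rq_size σ (by omega) hc
        exact ⟨q, by omega, y, hy, h⟩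
      · exact hR2 c hc

theorem br_word (σ : ℕ → Multiset RT) (k : ℕ) : ∃ R : Multiset RT,
    Br (node (σ 0 + Vm σ (k + 1) 1)) = (∑ q ∈ Finset.Icc 1 k, (Lm σ q + Vm σ (k + 1) q)) +
      (∑ m ∈ Finset.range (k + 1), (σ m).bind (fun y => y ::ₘ Dn y)) + R ∧
    ∀ c ∈ R, ∃ m ≤ k, ∃ y ∈ σ m, Sz σ (k + 1) ≤ size c + size y := by
  obtain ⟨R, hR, hR2⟩ := main σ k k 0 (by omega)
  refine ⟨R, ?_, hR2⟩
  have h1 : Finset.range (k + 1) = Finset.Icc 0 k := by
    ext x
    simp only [Finset.mem_range, Finset.mem_Icc]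
    omega
  have h2 : Br (node (σ 0 + Vm σ (k + 1) 1)) =
      (σ 0 + Vm σ (k + 1) (0 + 1)).bind (fun y => y ::ₘ Dn y) +
        W (σ 0 + Vm σ (k + 1) (0 + 1)) (Lm σ 0) := by
    unfold Br W
    rw [Dn_node, ch_node]
    have : Lm σ 0 = 0 := rfl
    rw [this]
    simp only [zero_add]
  rw [h2, hR, h1]

end

end TRD
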