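import Pool.Agent.Lib.TRD.WordA

/-! # TRD.WordC (MP_2e3d39_co)

Reversed words.

* `GW_rv`: hb (μ (D-m)) ≤ D - m and (D - m) + hb (μ (D-m)) ≤ D.
* `Sz_rv`: reindex the sum (`Finset.sum_range_reflect`). `rv_rv`: D - (D - m) = m.
* `Vm_eq_Lm_rv`: downward induction on h ≤ D+1: for h = D+1 both sides are 0 (Lm _ 0). For h ≤ D: Vm μ (D+1) h = {node (μ h + Vm μ (D+1) (h+1))}
  and Lm (rv μ D) (D+1-h) = {node (rv μ D (D-h) + Lm (rv μ D) (D-h))}, rv μ D (D-h) = μ h.
* `Lm_eq_Vm_rv`: apply the first to the reversed word and `Lm_congr` with `rv_rv`.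
* `rt_rv`: for D = 2H both sides are node of Lm μ H + μ H + Vm μ (D+1) (H+1) up to order; for D = 2H+1: Lm μ (H+1) + Vm μ (D+1) (H+1).
-/

open Multiset

namespace TRD

noncomputable section

theorem GW_rv {μ : ℕ → Multiset RT} {D : ℕ} (hμ : GW μ D) : GW (rv μ D) D := by
  intro m hm
  have h := hμ (D - m) (by omega)
  unfold rv
  omega

theorem rv_rv (μ : ℕ → Multiset RT) {D m : ℕ} (hm : m ≤ D) : rv (rv μ D) D m = μ m := by
  unfold rv
  congr 1
  omega

theorem Sz_rv (μ : ℕ → Multiset RT) (D : ℕ) : Sz (rv μ D) (D + 1) = Sz μ (D + 1) := by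
  unfold Sz rv
  have h := Finset.sum_range_reflect (fun m => 1 + sz (μ m)) (D + 1)
  simpa using h

theorem Vm_eq_Lm_rv (μ : ℕ → Multiset RT) {D h : ℕ} (hh : h ≤ D + 1) :
    Vm μ (D + 1) h = Lm (rv μ D) (D + 1 - h) := by
  have key : ∀ k : ℕ, k ≤ D + 1 → Vm μ (D + 1) (D + 1 - k) = Lm (rv μ D) k := by
    intro k
    induction k with
    | zero =>
      intro _
      rw [Vm_of_le μ (by omega)]
      rfl
    | succ k ih =>
      intro hk
      rw [Vm_of_lt μ (by omega)]
      have h1 : D + 1 - (k + 1) + 1 = D + 1 - k := by omega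
      rw [h1, ih (by omega)]
      have h2 : μ (D + 1 - (k + 1)) = rv μ D k := by
        unfold rv
        congr 1
        omega
      rw [h2]
      rfl
  have h3 := key (D + 1 - h) (by omega)
  have h4 : D + 1 - (D + 1 - h) = h := by omega
  rw [h4] at h3
  exact h3

theorem Lm_eq_Vm_rv (μ : ℕ → Multiset RT) {D h : ℕ} (hh : h ≤ D + 1) :
    Lm μ h = Vm (rv μ D) (D + 1) (D + 1 - h) := by
  rw [Vm_eq_Lm_rv (rv μ D) (D := D) (h := D + 1 - h) (by omega)]
  have h4 : D + 1 - (D + 1 - h) = h := by omega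
  rw [h4]
  apply Lm_congr
  intro m hm
  rw [rv_rv μ (by omega)]

theorem rt_rv (μ : ℕ → Multiset RT) (D : ℕ) : rt (rv μ D) (D + 1) D = rt μ (D + 1) D := by
  obtain ⟨H, hH | hH⟩ : ∃ H, D = 2 * H ∨ D = 2 * H + 1 := ⟨D / 2, by omega⟩
  · unfold rt
    have e1 : (D + 1) / 2 = H := by omega
    have e2 : D % 2 = 0 := by omega
    have e3 : D / 2 = H := by omega
    rw [e1, if_pos e2, if_pos e2, e3]
    have h1 : Lm (rv μ D) H = Vm μ (D + 1) (H + 1) := by
      rw [Vm_eq_Lm_rv μ (D := D) (h := H + 1) (by omega)]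
      congr 1
      omega
    have h2 : rv μ D H = μ H := by
      unfold rv
      congr 1
      omega
    have h3 : Vm (rv μ D) (D + 1) (H + 1) = Lm μ H := by
      rw [Lm_eq_Vm_rv μ (D := D) (h := H) (by omega)]
      congr 1
      omega
    rw [h1, h2, h3]
    congr 1
    rw [add_comm (Vm μ (D + 1) (H + 1)) (μ H), add_comm (μ H + Vm μ (D + 1) (H + 1)) (Lm μ H),
      add_assoc]
  · unfold rt
    have e1 : (D + 1) / 2 = H + 1 := by omega
    have e2 : ¬ D % 2 = 0 := by omega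
    have e3 : D / 2 = H := by omega
    rw [e1, if_neg e2, if_neg e2, e3]
    have h1 : Lm (rv μ D) (H + 1) = Vm μ (D + 1) (H + 1) := by
      rw [Vm_eq_Lm_rv μ (D := D) (h := H + 1) (by omega)]
      congr 1
      omega
    have h3 : Vm (rv μ D) (D + 1) (H + 1) = Lm μ (H + 1) := by
      rw [Lm_eq_Vm_rv μ (D := D) (h := H + 1) (by omega)]
      congr 1
      omega
    rw [h1, h3]
    congr 1
    rw [add_zero, add_zero, add_comm]

end

end TRD
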