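import Pool.Agent.Lib.TRD.WordA
import Pool.Agent.Lib.TRD.WordC

/-! # TRD.CwEq (MP_2e3d39_co)

Re-rooting along a word does not change the unrooted tree.

* `cw_eq`: induction on h. h = 0: Lm μ 0 = 0, definition of cw. Step h → h+1 (h+1 < i): with Vm μ i (h+1) = {node (μ (h+1) + Vm μ i (h+2))} (`Vm_of_lt`)
  the code at h is node (node B ::ₘ A) with A = Lm μ h + μ h, B = μ (h+1) + Vm μ i (h+2) (rearrange the multiset sums), and
  node (node A ::ₘ B) is the code at h+1 because Lm μ (h+1) = {node (μ h + Lm μ h)}. Use `cls_flip`.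
* `cls_Lm`: case h = i-1 of `cw_eq` (Vm μ i i = 0). `csize_cw`: csize_cls, size_node, sz_Vm with h = 1.
* `cls_Vm`: `Vm_eq_Lm_rv` and `cls_Lm`.
* `cw_rt`: the code rt μ i (2h) is the code of `cw_eq` at position h.
-/

open Multiset

namespace TRD

noncomputable section

theorem cw_eq (μ : ℕ → Multiset RT) {h i : ℕ} (hh : h < i) :
    cls (node (Lm μ h + μ h + Vm μ i (h + 1))) = cw μ i := by
  induction h with
  | zero =>
    unfold cw
    rw [show Lm μ 0 = 0 from rfl, zero_add]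
  | succ h ih =>
    have h1 := ih (by omega)
    rw [Vm_of_lt μ hh] at h1
    rw [← h1]
    rw [show Lm μ (h + 1) = {node (μ h + Lm μ h)} from rfl, add_comm (μ h) (Lm μ h),
      add_assoc, Multiset.singleton_add, add_comm (Lm μ h + μ h) {node _},
      Multiset.singleton_add]
    exact (cls_flip (Lm μ h + μ h) (μ (h + 1) + Vm μ i (h + 1 + 1))).symm

theorem cls_Lm (μ : ℕ → Multiset RT) {i : ℕ} (hi : 1 ≤ i) {x : RT} (hx : x ∈ Lm μ i) :
    cls x = cw μ i := by
  rw [Lm_single μ hi, Multiset.mem_singleton] at hx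
  subst hx
  have h1 := cw_eq μ (h := i - 1) (i := i) (by omega)
  rw [Vm_of_le μ (by omega : i ≤ i - 1 + 1), add_zero, add_comm] at h1
  exact h1

theorem csize_cw (μ : ℕ → Multiset RT) {i : ℕ} (hi : 1 ≤ i) : csize (cw μ i) = Sz μ i := by
  unfold cw
  rw [csize_cls, size_node, sz_add]
  have h1 := sz_Vm μ hi
  have h2 := Sz_succ μ 0
  have h3 : Sz μ 0 = 0 := by simp [Sz]
  rw [zero_add] at h2
  omega

theorem cls_Vm (μ : ℕ → Multiset RT) {D h : ℕ} (hh : h ≤ D) {x : RT} (hx : x ∈ Vm μ (D + 1) h) :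
    cls x = cw (rv μ D) (D + 1 - h) := by
  rw [Vm_eq_Lm_rv μ (by omega : h ≤ D + 1)] at hx
  exact cls_Lm (rv μ D) (by omega) hx

theorem cw_rt (μ : ℕ → Multiset RT) {i h : ℕ} (hh : h < i) : cls (rt μ i (2 * h)) = cw μ i := by
  unfold rt
  have e1 : (2 * h + 1) / 2 = h := by omega
  have e2 : 2 * h % 2 = 0 := by omega
  have e3 : 2 * h / 2 = h := by omega
  rw [e1, if_pos e2, e3]
  exact cw_eq μ hh

theorem cw_rv (μ : ℕ → Multiset RT) (D : ℕ) : cw (rv μ D) (D + 1) = cw μ (D + 1) := by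
  have h1 := cw_eq μ (h := D) (i := D + 1) (by omega)
  rw [← h1, Vm_of_le μ (le_refl (D + 1)), add_zero]
  unfold cw
  have h2 : Vm (rv μ D) (D + 1) 1 = Lm μ D := by
    rw [Lm_eq_Vm_rv μ (D := D) (h := D) (by omega)]
    congr 1
    omega
  have h3 : rv μ D 0 = μ D := rfl
  rw [h2, h3, add_comm]

end

end TRD
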