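import Pool.Agent.Lib.TRD.WordA

/-! # TRD.WordB (MP_2e3d39_co)

Elementary facts on words: heights and diameters.

* `hb_Lm`: induction on h: Lm μ (h+1) = {node (μ h + Lm μ h)}, height max (hb (μ h)) h = h because hb (μ h) ≤ h.
* `le_dm`: `Finset.le_sup`. `dm_attained`: `Finset.exists_mem_eq_sup` (range i nonempty).
* `dm_GW`: all terms ≤ D. `le_dm_self`: the position i-1 contributes i-1 (+ hb).
* `hb_Vm_ge`, `hb_Vm_att`: Vm μ i h has one element of height max over h ≤ m < i of (m - h + hb (μ m)); downward induction on h with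
  `Vm_of_lt`, `ht_node`, `hb_add`, `hb_singleton`.
* `hb_Vm_le`: from `hb_Vm_att` and `le_dm`.
-/

open Multiset

namespace TRD

noncomputable section

theorem hb_Lm (μ : ℕ → Multiset RT) {h : ℕ} (hh : ∀ m < h, hb (μ m) ≤ m) : hb (Lm μ h) = h := by
  induction h with
  | zero => exact hb_zero
  | succ h ih =>
    have h1 := ih (fun m hm => hh m (by omega))
    have h2 := hh h (by omega)
    show hb {node (μ h + Lm μ h)} = h + 1
    rw [hb_singleton, ht_node, hb_add, h1]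
    omega

theorem le_dm (μ : ℕ → Multiset RT) {i m : ℕ} (hm : m < i) : m + hb (μ m) ≤ dm μ i := by
  unfold dm
  exact Finset.le_sup (f := fun m => m + hb (μ m)) (Finset.mem_range.2 hm)

theorem dm_le_of (μ : ℕ → Multiset RT) {i D : ℕ} (h : ∀ m < i, m + hb (μ m) ≤ D) :
    dm μ i ≤ D := by
  unfold dm
  apply Finset.sup_le
  intro m hm
  exact h m (Finset.mem_range.1 hm)

theorem dm_mono (μ : ℕ → Multiset RT) {i j : ℕ} (h : i ≤ j) : dm μ i ≤ dm μ j :=
  dm_le_of μ (fun _ hm => le_dm μ (lt_of_lt_of_le hm h))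

theorem le_dm_self (μ : ℕ → Multiset RT) {i : ℕ} (hi : 1 ≤ i) : i ≤ dm μ i + 1 := by
  have := le_dm μ (i := i) (m := i - 1) (by omega)
  omega

theorem dm_attained (μ : ℕ → Multiset RT) {i : ℕ} (hi : 1 ≤ i) :
    ∃ m < i, m + hb (μ m) = dm μ i := by
  have hne : (Finset.range i).Nonempty := ⟨0, Finset.mem_range.2 (by omega)⟩
  obtain ⟨m, hm, hm2⟩ := Finset.exists_mem_eq_sup (Finset.range i) hne (fun m => m + hb (μ m))
  exact ⟨m, Finset.mem_range.1 hm, hm2.symm⟩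

theorem dm_GW {μ : ℕ → Multiset RT} {D i : ℕ} (hμ : GW μ D) (hi : i ≤ D + 1) : dm μ i ≤ D :=
  dm_le_of μ (fun m hm => (hμ m (by omega)).2)

theorem dm_full {μ : ℕ → Multiset RT} {D : ℕ} (hμ : GW μ D) : dm μ (D + 1) = D := by
  have h1 := dm_GW hμ (le_refl (D + 1))
  have h2 := le_dm μ (i := D + 1) (m := D) (by omega)
  omega

/-- if all bushes satisfy `hb (μ m) ≤ m` then the diameter of a short word is small -/
theorem dm_le_two {μ : ℕ → Multiset RT} {i : ℕ} (hμ : ∀ m < i, hb (μ m) ≤ m) (hi : 1 ≤ i) :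
    dm μ i + 2 ≤ 2 * i := by
  obtain ⟨m, hm, hm2⟩ := dm_attained μ hi
  have := hμ m hm
  omega

theorem hb_Vm_step (μ : ℕ → Multiset RT) {i h : ℕ} (hh : h < i) :
    hb (Vm μ i h) = max (hb (μ h)) (hb (Vm μ i (h + 1))) + 1 := by
  rw [Vm_of_lt μ hh, hb_singleton, ht_node, hb_add]

theorem hb_Vm_ge_aux (μ : ℕ → Multiset RT) (i m : ℕ) (h2 : m < i) : ∀ (d h : ℕ), h + d = m →
    m + hb (μ m) + 1 ≤ h + hb (Vm μ i h) := by
  intro d
  induction d with
  | zero =>
    intro h hd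
    have hmh : m = h := by omega
    subst hmh
    rw [hb_Vm_step μ h2]
    omega
  | succ d ih =>
    intro h hd
    have h3 := ih (h + 1) (by omega)
    rw [hb_Vm_step μ (by omega : h < i)]
    omega

theorem hb_Vm_ge (μ : ℕ → Multiset RT) {i h m : ℕ} (h1 : h ≤ m) (h2 : m < i) :
    m + hb (μ m) + 1 ≤ h + hb (Vm μ i h) :=
  hb_Vm_ge_aux μ i m h2 (m - h) h (by omega)

theorem hb_Vm_att_aux (μ : ℕ → Multiset RT) (i : ℕ) : ∀ (d h : ℕ), h + d + 1 = i →
    ∃ m, h ≤ m ∧ m < i ∧ m + hb (μ m) + 1 = h + hb (Vm μ i h) := by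
  intro d
  induction d with
  | zero =>
    intro h hd
    refine ⟨h, le_refl h, by omega, ?_⟩
    rw [hb_Vm_step μ (by omega : h < i), Vm_of_le μ (by omega : i ≤ h + 1), hb_zero]
    omega
  | succ d ih =>
    intro h hd
    obtain ⟨m, hm1, hm2, hm3⟩ := ih (h + 1) (by omega)
    rw [hb_Vm_step μ (by omega : h < i)]
    rcases le_total (hb (Vm μ i (h + 1))) (hb (μ h)) with h4 | h4
    · refine ⟨h, le_refl h, by omega, ?_⟩
      rw [max_eq_left h4]
      omega
    · refine ⟨m, by omega, hm2, ?_⟩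
      rw [max_eq_right h4]
      omega

theorem hb_Vm_att (μ : ℕ → Multiset RT) {i h : ℕ} (hh : h < i) :
    ∃ m, h ≤ m ∧ m < i ∧ m + hb (μ m) + 1 = h + hb (Vm μ i h) :=
  hb_Vm_att_aux μ i (i - h - 1) h (by omega)

theorem hb_Vm_le (μ : ℕ → Multiset RT) {i h : ℕ} (hh : h ≤ i) (h1 : 1 ≤ i) :
    h + hb (Vm μ i h) ≤ dm μ i + 1 := by
  rcases lt_or_eq_of_le hh with h2 | h2
  · obtain ⟨m, _, hm2, hm3⟩ := hb_Vm_att μ h2
    have := le_dm μ hm2
    omega
  · subst h2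
    rw [Vm_of_le μ (le_refl h), hb_zero]
    exact le_dm_self μ h1

/-- the diameter is seen from every position up to half of it -/
theorem hb_Vm_half (μ : ℕ → Multiset RT) {i h : ℕ} (hμ : ∀ m < i, hb (μ m) ≤ m) (hi : 1 ≤ i)
    (hh : h < i) (h2 : 2 * h ≤ dm μ i + 1) : h + hb (Vm μ i h) = dm μ i + 1 := by
  apply le_antisymm (hb_Vm_le μ hh.le hi)
  obtain ⟨m, hm, hm2⟩ := dm_attained μ hi
  have h3 := hμ m hm
  have h4 : h ≤ m := by omega
  have h5 := hb_Vm_ge μ h4 hm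
  omega

end

end TRD
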