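import Pool.Agent.Lib.TRD.CcEx
import Pool.Agent.Lib.TRD.WordB
import Pool.Agent.Lib.TRD.CwEq

/-! # TRD.CcWord (MP_2e3d39_co)

The centre of a word whose bushes satisfy hb (μ m) ≤ m: the centre form is the word rooted at half of the diameter.

Proof. d = dm μ i, h = d / 2; `dm_le_two`: d + 2 ≤ 2 i, so h + 1 ≤ i. `cw_eq` at position h: cw μ i = cls (node (Lm μ h + μ h + Vm μ i (h+1))). `hb_Lm`: hb (Lm μ h) = h; hb (μ h) ≤ h; `hb_Vm_le` (h+1 ≤ i): hb (Vm μ i (h+1)) + h ≤ d.
d = 0: `le_dm_self` gives i = 1, h = 0, hb (μ 0) = 0 so μ 0 = 0 (a nonempty multiset has hb ≥ 1), Vm μ 1 1 = 0: cc_zero; rt μ 1 0 = node 0.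
d = 2h, h ≥ 1: `hb_Vm_half`: h + hb (Vm μ i h) = d + 1, Vm μ i h = {node (μ h + Vm μ i (h+1))}, so hb (μ h + Vm μ i (h+1)) = h: there is y₂ in it with ht y₂ + 1 = h (`hb_attained`), and y₁ the element of Lm μ h has ht y₁ + 1 = h
 (hb_singleton); all other elements have ht + 1 ≤ h. `cc_bal` with m = the rest. rt μ i (2h) = node (Lm μ h + μ h + Vm μ i (h+1)).
d = 2h+1: h + hb (Vm μ i h) = 2h+2, so max (hb (μ h)) (hb (Vm μ i (h+1))) = h+1 and hb (μ h) ≤ h, so Vm μ i (h+1) = {y} with ht y = h; A = Lm μ h + μ h has hb A = h. `cc_edge`; rt μ i (2h+1) = node (Lm μ (h+1) + 0 + Vm μ i (h+1)), Lm μ (h+1) = {node (μ h + Lm μ h)}.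
`cw_dest` follows: apply cc to cw μ i = cw ν j.
-/

open Multiset

namespace TRD

noncomputable section

theorem ccw_hb_zero {m : Multiset RT} (h : hb m = 0) : m = 0 := by
  by_contra h0
  obtain ⟨y, _, hy⟩ := hb_attained h0
  omega

theorem cc_word (μ : ℕ → Multiset RT) {i : ℕ} (hi : 1 ≤ i) (hμ : ∀ m < i, hb (μ m) ≤ m) :
    cc (cw μ i) = (rt μ i (dm μ i), dm μ i) := by
  have hd2 : dm μ i + 2 ≤ 2 * i := dm_le_two hμ hi
  have hds : i ≤ dm μ i + 1 := le_dm_self μ hi
  generalize hd : dm μ i = d at hd2 hds ⊢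
  obtain ⟨h, hh⟩ : ∃ h, h = d / 2 := ⟨_, rfl⟩
  have hhi : h < i := by omega
  have hcw : cls (node (Lm μ h + μ h + Vm μ i (h + 1))) = cw μ i := cw_eq μ hhi
  have hL : hb (Lm μ h) = h := hb_Lm μ (fun m hm => hμ m (by omega))
  have hM : hb (μ h) ≤ h := hμ h hhi
  have hH : h + hb (Vm μ i h) = dm μ i + 1 := hb_Vm_half μ hμ hi hhi (by omega)
  have hS := hb_Vm_step μ hhi
  rw [hd] at hH
  rcases Nat.even_or_odd' d with ⟨c, hc | hc⟩
  · have hch : c = h := by omega
    subst hch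
    rcases Nat.eq_zero_or_pos c with h0 | h0
    · subst h0
      have hi1 : i = 1 := by omega
      subst hi1
      have hd0 : d = 0 := by omega
      subst hd0
      have hm0 : μ 0 = 0 := ccw_hb_zero (by omega)
      have hV0 : Vm μ 1 1 = 0 := Vm_of_le μ (le_refl 1)
      have e1 : cw μ 1 = cls (node 0) := by
        unfold cw
        rw [hm0, hV0, zero_add]
      have e2 : rt μ 1 0 = node 0 := by
        have : rt μ 1 0 = node (Lm μ 0 + μ 0 + Vm μ 1 1) := rfl
        rw [this, hm0, hV0]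
        rfl
      rw [e1, e2, cc_zero]
    · have hmax : hb (μ c + Vm μ i (c + 1)) = c := by
        rw [hb_add]; omega
      have hL1 := Lm_single μ h0
      have hy1 : ht (node (μ (c - 1) + Lm μ (c - 1))) + 1 = c := by
        rw [hL1, hb_singleton] at hL
        exact hL
      have hne : μ c + Vm μ i (c + 1) ≠ 0 := by
        intro h2
        rw [h2, hb_zero] at hmax
        omega
      obtain ⟨y₂, hy₂, hy₂'⟩ := hb_attained hne
      rw [hmax] at hy₂'
      obtain ⟨t, ht'⟩ := Multiset.exists_cons_of_mem hy₂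
      have e1 : Lm μ c + μ c + Vm μ i (c + 1) =
          node (μ (c - 1) + Lm μ (c - 1)) ::ₘ y₂ ::ₘ t := by
        rw [add_assoc, ht', hL1, Multiset.singleton_add]
      have e2 : rt μ i d = node (Lm μ c + μ c + Vm μ i (c + 1)) := by
        unfold rt
        have h1 : (d + 1) / 2 = c := by omega
        have h2 : d % 2 = 0 := by omega
        have h3 : d / 2 = c := by omega
        rw [h1, if_pos h2, h3]
      rw [← hcw, e2, e1, cc_bal _ y₂ t (by omega)]
      · rw [hy1, hc]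
      · intro w hw
        have h3 : ht w + 1 ≤ hb (μ c + Vm μ i (c + 1)) := by
          apply ht_lt_hb
          rw [ht']
          exact Multiset.mem_cons_of_mem hw
        omega
  · have hch : c = h := by omega
    subst hch
    have hV : hb (Vm μ i (c + 1)) = c + 1 := by omega
    have hci : c + 1 < i := by
      by_contra h2
      rw [Vm_of_le μ (by omega : i ≤ c + 1), hb_zero] at hV
      omega
    have hV1 := Vm_of_lt μ hci
    have hy : ht (node (μ (c + 1) + Vm μ i (c + 1 + 1))) = c := by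
      rw [hV1, hb_singleton] at hV
      omega
    have hA : hb (Lm μ c + μ c) = c := by
      rw [hb_add]; omega
    have e1 : Lm μ c + μ c + Vm μ i (c + 1) =
        node (μ (c + 1) + Vm μ i (c + 1 + 1)) ::ₘ (Lm μ c + μ c) := by
      rw [hV1, add_comm, Multiset.singleton_add]
    have e2 : rt μ i d = node {node (μ (c + 1) + Vm μ i (c + 1 + 1)), node (Lm μ c + μ c)} := by
      unfold rt
      have h1 : (d + 1) / 2 = c + 1 := by omega
      have h2 : ¬ (d % 2 = 0) := by omega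
      have h3 : d / 2 + 1 = c + 1 := by omega
      have h4 : Lm μ (c + 1) = {node (Lm μ c + μ c)} := by
        rw [add_comm (Lm μ c) (μ c)]
        rfl
      rw [h1, if_neg h2, h3, h4, hV1, add_zero, add_comm]
      rfl
    rw [← hcw, e2, e1, cc_edge _ _ (by rw [hy, hA]), hy, hc]

theorem cw_dest {μ ν : ℕ → Multiset RT} {i j : ℕ} (hi : 1 ≤ i) (hj : 1 ≤ j)
    (hμ : ∀ m < i, hb (μ m) ≤ m) (hν : ∀ m < j, hb (ν m) ≤ m) (h : cw μ i = cw ν j) :
    dm ν j = dm μ i ∧ rt μ i (dm μ i) = rt ν j (dm μ i) := by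
  have h1 := cc_word μ hi hμ
  have h2 := cc_word ν hj hν
  rw [h, h2, Prod.mk.injEq] at h1
  obtain ⟨h3, h4⟩ := h1
  exact ⟨h4, by rw [← h3, h4]⟩

end

end TRD
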