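import Pool.Agent.Lib.TRD.PDefs
import Pool.Agent.Lib.TRD.CcWord
import Pool.Agent.Lib.TRD.WordB

/-! # TRD.CType (MP_2e3d39_co)

C-type pairs: type R, or Lm μ (d/2) is a bush of ν (d/2).

d = dm μ i. i ≥ 2 so d ≥ 1 (`le_dm_self`). `cw_dest`: rt μ i d = rt ν j d. V = Vm μ i (d/2+1), V' = Vm ν j (d/2+1).
d = 2h, h ≥ 1: Lm μ h + μ h + V = Lm ν h + ν h + V' and V = Lm ν h, so Lm μ h + μ h = ν h + V'. Lm μ h = {x} (`Lm_single`). x ∈ ν h: second alternative. x ∈ V' (card ≤ 1): V' = {x} = Lm μ h, cancel: μ h = ν h. Lm μ h ≠ Lm ν h because V ≠ V'.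
d = 2h+1: Lm μ (h+1) + V = Lm ν (h+1) + V', V = Lm ν (h+1): V' = Lm μ (h+1); ≠ because V ≠ V'.
-/

open Multiset

namespace TRD

noncomputable section

theorem c_type {μ ν : ℕ → Multiset RT} {D E i j : ℕ} (hμ : GW μ D) (hν : GW ν E)
    (hi : 2 ≤ i) (hiD : i ≤ D) (hj : 1 ≤ j) (hjE : j ≤ E) (hc : cw μ i = cw ν j)
    (hV : Vm μ i (dm μ i / 2 + 1) = Lm ν ((dm μ i + 1) / 2))
    (hV' : Vm μ i (dm μ i / 2 + 1) ≠ Vm ν j (dm μ i / 2 + 1)) :
    (Vm ν j (dm μ i / 2 + 1) = Lm μ ((dm μ i + 1) / 2) ∧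
      (dm μ i % 2 = 0 → μ (dm μ i / 2) = ν (dm μ i / 2)) ∧
      Lm μ ((dm μ i + 1) / 2) ≠ Lm ν ((dm μ i + 1) / 2)) ∨
    (dm μ i % 2 = 0 ∧ ∃ x ∈ ν (dm μ i / 2), Lm μ (dm μ i / 2) = {x}) := by
  have h1 : ∀ m < i, hb (μ m) ≤ m := fun m hm => (hμ m (by omega)).1
  have h2 : ∀ m < j, hb (ν m) ≤ m := fun m hm => (hν m (by omega)).1
  obtain ⟨-, hrt⟩ := cw_dest (by omega : 1 ≤ i) hj h1 h2 hc
  have hds := le_dm_self μ (by omega : 1 ≤ i)
  generalize hd : dm μ i = d at *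
  unfold rt at hrt
  have he := node_inj hrt
  rw [hV] at he
  rcases Nat.even_or_odd' d with ⟨c, hc' | hc'⟩
  · have e1 : (d + 1) / 2 = c := by omega
    have e2 : d % 2 = 0 := by omega
    have e3 : d / 2 = c := by omega
    rw [e1, if_pos e2, if_pos e2, e3] at he
    rw [e1, e3] at hV
    rw [e3] at hV'
    rw [e1, e3]
    have he2 : Lm μ c + μ c = ν c + Vm ν j (c + 1) := by
      have h3 : Lm ν c + (Lm μ c + μ c) = Lm ν c + (ν c + Vm ν j (c + 1)) := by
        rw [← add_assoc (Lm ν c) (ν c), ← he, add_comm]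
      exact add_left_cancel h3
    have hL := Lm_single μ (by omega : 1 ≤ c)
    set x := node (μ (c - 1) + Lm μ (c - 1)) with hx
    have hmem : x ∈ ν c + Vm ν j (c + 1) := by
      rw [← he2, hL]
      exact Multiset.mem_add.2 (Or.inl (Multiset.mem_singleton_self x))
    rcases Multiset.mem_add.1 hmem with hm | hm
    · exact Or.inr ⟨e2, x, hm, hL⟩
    · left
      have hV3 : Vm ν j (c + 1) = {x} := by
        obtain ⟨t, ht⟩ := Multiset.exists_cons_of_mem hm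
        have h4 := card_Vm_le ν j (c + 1)
        rw [ht, Multiset.card_cons] at h4
        have h5 : t = 0 := Multiset.card_eq_zero.1 (by omega)
        rw [ht, h5]
        rfl
      have hV4 : Vm ν j (c + 1) = Lm μ c := by rw [hV3, hL]
      refine ⟨hV4, fun _ => ?_, ?_⟩
      · rw [hV4, add_comm (ν c)] at he2
        exact add_left_cancel he2
      · intro h6
        exact hV' (by rw [hV, hV4, h6])
  · have e1 : (d + 1) / 2 = c + 1 := by omega
    have e2 : ¬ (d % 2 = 0) := by omega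
    have e3 : d / 2 = c := by omega
    rw [e1, if_neg e2, if_neg e2, e3, add_zero, add_zero] at he
    rw [e1, e3] at hV
    rw [e3] at hV'
    rw [e1, e3]
    left
    have hV4 : Vm ν j (c + 1) = Lm μ (c + 1) := by
      rw [add_comm (Lm μ (c + 1))] at he
      exact (add_left_cancel he).symm
    refine ⟨hV4, fun h => absurd h e2, ?_⟩
    intro h6
    exact hV' (by rw [hV, hV4, h6])

end

end TRD
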