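import Pool.Agent.Lib.TRD.CwEq

/-! # TRD.CardcRt (MP_2e3d39_co)

The card of an entry whose upper part is a word rooted at the centre D/2 of the whole tree.

`vt_pair`: vt {A, B} = {cls (node (A ::ₘ ch B))}: the chosen pair A', B' satisfies {A', B'} = {A, B}, so it is (A, B) or (B, A); cls (node (A ::ₘ ch B)) = cls (node (B ::ₘ ch A)) by `cls_flip` (A = node (ch A), B = node (ch B)).
`vt_single`: {A} is not a pair (card). `cardc_rt`: D = 2h: rt μ i D = node (Lm μ h + μ h + Vm μ i (h+1)), `cw_eq` (h < i).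
D = 2h+1: rt μ i D = node (Lm μ (h+1) + 0 + Vm μ i (h+1)), Lm μ (h+1) = {P}, P = node (μ h + Lm μ h). If i = h+1: Vm = 0, vt {P} = {cls P} = {cw μ (h+1)} by `cw_eq` at h (Vm μ (h+1) (h+1) = 0). If i > h+1: Vm μ i (h+1) = {Q}, Q = node (μ (h+1) + Vm μ i (h+2)),
vt {P, Q} = {cls (node (P ::ₘ ch Q))}, `cw_eq` at h+1.
-/

open Multiset

namespace TRD

noncomputable section

private theorem flip_AB (A B : RT) : cls (node (A ::ₘ ch B)) = cls (node (B ::ₘ ch A)) := by
  have h := cls_flip (ch A) (ch B)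
  rw [node_ch, node_ch] at h
  first
  | exact h
  | exact h.symm

theorem vt_pair (A B : RT) : vt {A, B} = {cls (node (A ::ₘ ch B))} := by
  have h : ∃ A' B' : RT, ({A, B} : Multiset RT) = {A', B'} := ⟨A, B, rfl⟩
  unfold vt
  rw [dif_pos h]
  have h1 := h.choose_spec.choose_spec
  generalize h.choose_spec.choose = B' at h1 ⊢
  generalize h.choose = A' at h1 ⊢
  have h2 : (A = A' ∧ B = B') ∨ (A = B' ∧ B = A') := by
    have h3 : A ::ₘ ({B} : Multiset RT) = A' ::ₘ {B'} := h1
    rw [Multiset.cons_eq_cons] at h3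
    rcases h3 with ⟨h4, h5⟩ | ⟨h4, cs, h5, h6⟩
    · left
      exact ⟨h4, Multiset.singleton_inj.1 h5⟩
    · right
      have h7 : card cs = 0 := by
        have := congrArg card h5
        simp at this
        rw [this, Multiset.card_zero]
      rw [Multiset.card_eq_zero] at h7
      subst h7
      constructor
      · have : ({B'} : Multiset RT) = {A} := h6
        exact (Multiset.singleton_inj.1 this).symm
      · have : ({B} : Multiset RT) = {A'} := h5
        exact Multiset.singleton_inj.1 this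
  rcases h2 with ⟨rfl, rfl⟩ | ⟨rfl, rfl⟩
  · rfl
  · rw [flip_AB]

theorem vt_single (A : RT) : vt {A} = {cls A} := by
  unfold vt
  rw [dif_neg]
  · simp
  · rintro ⟨A', B', h⟩
    have := congrArg card h
    simp at this

theorem cardc_rt (μ : ℕ → Multiset RT) {D i : ℕ} (hi : D / 2 + 1 ≤ i) (F : Multiset RT) :
    cardc D (rt μ i D, F) = cw μ i ::ₘ F.map cls := by
  unfold cardc
  by_cases hD : D % 2 = 0
  · rw [if_pos hD]
    have e1 : (D + 1) / 2 = D / 2 := by omega
    have h1 := cw_eq μ (h := D / 2) (i := i) (by omega)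
    unfold rt
    rw [e1, if_pos hD]
    show cls (node _) ::ₘ _ = _
    rw [h1]
  · rw [if_neg hD]
    have e1 : (D + 1) / 2 = D / 2 + 1 := by omega
    unfold rt
    rw [e1, if_neg hD]
    show vt (ch (node _)) + _ = _
    rw [ch_node, add_zero, show Lm μ (D / 2 + 1) = {node (μ (D / 2) + Lm μ (D / 2))} from rfl]
    rcases Nat.lt_or_ge (D / 2 + 1) i with h | h
    · rw [Vm_of_lt μ h]
      have h2 := cw_eq μ (h := D / 2 + 1) (i := i) h
      have h3 : ({node (μ (D / 2) + Lm μ (D / 2))} : Multiset RT) +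
          {node (μ (D / 2 + 1) + Vm μ i (D / 2 + 1 + 1))} =
          {node (μ (D / 2) + Lm μ (D / 2)), node (μ (D / 2 + 1) + Vm μ i (D / 2 + 1 + 1))} := rfl
      rw [h3, vt_pair, ch_node]
      have h4 : node (μ (D / 2) + Lm μ (D / 2)) ::ₘ (μ (D / 2 + 1) + Vm μ i (D / 2 + 1 + 1)) =
          Lm μ (D / 2 + 1) + μ (D / 2 + 1) + Vm μ i (D / 2 + 1 + 1) := by
        rw [show Lm μ (D / 2 + 1) = {node (μ (D / 2) + Lm μ (D / 2))} from rfl,
          Multiset.singleton_add, Multiset.cons_add]
      rw [h4, h2, Multiset.singleton_add]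
    · have h5 : i = D / 2 + 1 := by omega
      have h6 : Vm μ i (D / 2 + 1) = 0 := Vm_of_le μ (by omega)
      rw [h6, add_zero, vt_single]
      have h7 := cw_eq μ (h := D / 2) (i := i) (by omega)
      rw [h6, add_zero, add_comm (Lm μ _)] at h7
      rw [h7, Multiset.singleton_add]

end

end TRD
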