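import Pool.Agent.Lib.TRD.LL

/-! # TRD.LLctx (MP_2e3d39_co)

The limb lemma for contexts, and the bound for root levels.

`Ctx l W`: chain of nodes with side multisets l = [s₁, ..., s_k] and the tree W at the bottom.
* `ctx_flip`: for a nonempty list l there is X (the context, rooted at its bottom node) with cls (Ctx l W) = cls (node (X ::ₘ ch W)) for all W. Proof: more general, for every multiset A of codes and list l:
   ∀ A s l, ∃ X, ∀ W, cls (node (A + {Ctx l W} + s)) = cls (node (X ::ₘ ch W)): induction on l. l = []: node (W ::ₘ (A + s)), W = node (ch W): cls_flip gives node (node (A+s) ::ₘ ch W): X = node (A+s). l = s' :: l': Ctx l W = node (Ctx l' W ::ₘ s');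
   flip: cls (node (node (Ctx l' W ::ₘ s') ::ₘ (A+s))) = cls (node (node (A+s) ::ₘ (Ctx l' W ::ₘ s'))) and apply the induction hypothesis with A := {node (A+s)}, s := s'.
* `ll_ctx`: from `ctx_flip` and `ll`.
* `rl_le_two`: Call (U,U') a root level below (x,y) if x = Ctx l U, y = Ctx l U', l ≠ [], (ch U).map cls = (ch U').map cls. Prove by induction on RL: RL (r+1) x y → ∃ l U U', l ≠ [] ∧ x = Ctx l U ∧ y = Ctx l U' ∧ (ch U).map cls = (ch U').map cls ∧ RL r U U'.
  If 3 ≤ r: then (take r ≥ 3, use the lemma three times, with r-1, r-2, r-3 remaining) x = Ctx l₁ U₁, U₁ = Ctx l₂ U₂, U₂ = Ctx l₃ U₃ and the same for y with U'. Write l₂ = s :: l₂': ch U₁ = {V₁} + s, ch U₁' = {V₁'} + s with V₁ = Ctx l₂' U₂, V₁' = Ctx l₂' U₂'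
  so cls V₁ = cls V₁' (cancel s.map cls). Write l₃ = t :: l₃': ch U₂ = {V₂} + t, ch U₂' = {V₂'} + t, so cls V₂ = cls V₂', and U₂ = Ctx [t] V₂. So V₁ = Ctx (l₂' ++ [t]) V₂, V₁' = Ctx (l₂' ++ [t]) V₂' (`Ctx_append`). `ll_ctx` gives V₂ = V₂', hence x = y. Contradiction.
-/

open Multiset

namespace TRD

noncomputable section

/-- a chain of nodes with side multisets `l` and `W` at the bottom -/
def Ctx : List (Multiset RT) → RT → RT
  | [], W => W
  | s :: l, W => node (Ctx l W ::ₘ s)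

theorem Ctx_append (l l' : List (Multiset RT)) (W : RT) : Ctx (l ++ l') W = Ctx l (Ctx l' W) := by
  induction l with
  | nil => rfl
  | cons s l ih => simp only [List.cons_append, Ctx, ih]

private theorem ctx_flip_aux (l : List (Multiset RT)) : ∀ B : Multiset RT, ∃ X : RT, ∀ W : RT,
    cls (node (Ctx l W ::ₘ B)) = cls (node (X ::ₘ ch W)) := by
  induction l with
  | nil =>
    intro B
    refine ⟨node B, fun W => ?_⟩
    have h := cls_flip B (ch W)
    rw [node_ch] at h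
    exact h
  | cons s l ih =>
    intro B
    obtain ⟨X, hX⟩ := ih (node B ::ₘ s)
    refine ⟨X, fun W => ?_⟩
    rw [← hX W]
    have h := cls_flip B (Ctx l W ::ₘ s)
    rw [Multiset.cons_swap] at h
    exact h

theorem ctx_flip (l : List (Multiset RT)) (hl : l ≠ []) : ∃ X : RT, ∀ W : RT,
    cls (Ctx l W) = cls (node (X ::ₘ ch W)) := by
  cases l with
  | nil => exact absurd rfl hl
  | cons s l => exact ctx_flip_aux l s

theorem ll_ctx {l : List (Multiset RT)} (hl : l ≠ []) {W W' : RT} (h1 : cls W = cls W')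
    (h2 : cls (Ctx l W) = cls (Ctx l W')) : W = W' := by
  obtain ⟨X, hX⟩ := ctx_flip l hl
  rw [hX, hX] at h2
  exact ll h1 h2

private theorem rl_dec {n : ℕ} {x y : RT} (h : RL n x y) : ∀ r : ℕ, n = r + 1 →
    ∃ (l : List (Multiset RT)) (U U' : RT), l ≠ [] ∧ x = Ctx l U ∧ y = Ctx l U' ∧
      (ch U).map cls = (ch U').map cls ∧ RL r U U' := by
  induction h with
  | zero x y => intro r hr; omega
  | step n U U' s _ ih =>
    intro r hr
    obtain ⟨l, V, V', _, h1, h2, h3, h4⟩ := ih r hr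
    exact ⟨s :: l, V, V', List.cons_ne_nil _ _, by rw [h1]; rfl, by rw [h2]; rfl, h3, h4⟩
  | root n U U' s hU hc _ =>
    intro r hr
    obtain rfl : n = r := by omega
    exact ⟨[s], U, U', List.cons_ne_nil _ _, rfl, rfl, hc, hU⟩

private theorem cls_cancel {s : Multiset RT} {A B : RT}
    (h : (ch (node (A ::ₘ s))).map cls = (ch (node (B ::ₘ s))).map cls) : cls A = cls B := by
  rw [ch_node, ch_node, Multiset.map_cons, Multiset.map_cons] at h
  exact (Multiset.cons_inj_left _).1 h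

theorem rl_le_two {r : ℕ} {x y : RT} (hne : x ≠ y) (h : RL r x y) : r ≤ 2 := by
  by_contra hr
  obtain ⟨k, rfl⟩ : ∃ k, r = k + 1 + 1 + 1 := ⟨r - 3, by omega⟩
  obtain ⟨l₁, U₁, U₁', _, hx, hy, hc₁, h₁⟩ := rl_dec h _ rfl
  obtain ⟨l₂, U₂, U₂', hl₂, hx₂, hy₂, hc₂, h₂⟩ := rl_dec h₁ _ rfl
  obtain ⟨l₃, U₃, U₃', hl₃, hx₃, hy₃, hc₃, h₃⟩ := rl_dec h₂ _ rfl
  cases l₂ with
  | nil => exact hl₂ rfl
  | cons s l₂ =>
    cases l₃ with
    | nil => exact hl₃ rfl
    | cons t l₃ =>
      have e1 : U₂ = Ctx [t] (Ctx l₃ U₃) := hx₃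
      have e2 : U₂' = Ctx [t] (Ctx l₃ U₃') := hy₃
      have c2 : cls (Ctx l₃ U₃) = cls (Ctx l₃ U₃') := by
        rw [hx₃, hy₃] at hc₂
        exact cls_cancel hc₂
      have c1 : cls (Ctx l₂ U₂) = cls (Ctx l₂ U₂') := by
        rw [hx₂, hy₂] at hc₁
        exact cls_cancel hc₁
      rw [e1, e2, ← Ctx_append l₂ [t] (Ctx l₃ U₃), ← Ctx_append l₂ [t] (Ctx l₃ U₃')] at c1
      have hl : l₂ ++ [t] ≠ [] := by simp
      have e3 := ll_ctx hl c2 c1
      apply hne
      rw [hx, hy, hx₂, hy₂, e1, e2, e3]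

end

end TRD
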