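import Pool.Agent.Lib.TRD.Basic

/-! # TRD.MatchB (MP_2e3d39_co)

Matchings: finite index sets and multiples.

* `mt_finset`: M.map fst ≤ I.val has no duplicates, so M has no duplicates and the first components are distinct; same for
  the second components. Q = ⟨M, nodup⟩.
* `mt_card_filter`: if all pairs of M' ≤ M have first component satisfying p, then M'.map fst ≤ A.filter p
  (`Multiset.filter_le_filter` and `Multiset.filter_eq_self`), so card M' ≤ card (A.filter p). Same on the right.
* `mt_double`: for a relation given by keys, Mt M (n • A) (n • B): (n•A).map kα ⊇ M.map (kα ∘ fst) = M.map (kβ ∘ snd) ⊆ (n•B).map kβ, so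
  card M ≤ card (n • (A.map kα) ∩ n • (B.map kβ)) = n * card (A.map kα ∩ B.map kβ) (count: min (n a) (n b) = n min a b; use classical
  decidability on κ). A common sub-multiset C = A.map kα ∩ B.map kβ of the two maps lifts to A' ≤ A with A'.map kα = C and
  B' ≤ B with B'.map kβ = C (`Multiset.le_map_iff` style: C ≤ A.map k → ∃ A' ≤ A, A'.map k = C, induction), and A', B' can be zipped:
  lemma: A'.map kα = B'.map kβ → ∃ M', M'.map fst = A', M'.map snd = B', ∀ e ∈ M', kα e.1 = kβ e.2 (induction on A').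
-/

open Multiset

namespace TRD

noncomputable section

namespace MatchBAux

theorem lift_le {α κ : Type} (k : α → κ) (A : Multiset α) :
    ∀ C : Multiset κ, C ≤ A.map k → ∃ A' ≤ A, A'.map k = C := by
  classical
  induction A using Multiset.induction_on with
  | empty =>
    intro C hC
    rw [Multiset.map_zero] at hC
    exact ⟨0, le_rfl, by rw [Multiset.map_zero, Multiset.le_zero.mp hC]⟩
  | cons a A ih =>
    intro C hC
    rw [Multiset.map_cons] at hC
    by_cases ha : k a ∈ C
    · obtain ⟨C', rfl⟩ := Multiset.exists_cons_of_mem ha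
      obtain ⟨A', hA', hA'C⟩ := ih C' ((Multiset.cons_le_cons_iff _).mp hC)
      exact ⟨a ::ₘ A', Multiset.cons_le_cons _ hA', by rw [Multiset.map_cons, hA'C]⟩
    · obtain ⟨A', hA', hA'C⟩ := ih C ((Multiset.le_cons_of_notMem ha).mp hC)
      exact ⟨A', hA'.trans (Multiset.le_cons_self _ _), hA'C⟩

theorem zip {α β κ : Type} (kα : α → κ) (kβ : β → κ) (A : Multiset α) :
    ∀ B : Multiset β, A.map kα = B.map kβ → ∃ M : Multiset (α × β), M.map Prod.fst = A ∧
      M.map Prod.snd = B ∧ ∀ e ∈ M, kα e.1 = kβ e.2 := by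
  induction A using Multiset.induction_on with
  | empty =>
    intro B hB
    rw [Multiset.map_zero] at hB
    have : B = 0 := Multiset.map_eq_zero.mp hB.symm
    subst this
    exact ⟨0, by simp, by simp, by simp⟩
  | cons a A ih =>
    intro B hB
    rw [Multiset.map_cons] at hB
    have ha : kα a ∈ B.map kβ := by rw [← hB]; exact Multiset.mem_cons_self _ _
    obtain ⟨b, hb, hba⟩ := Multiset.mem_map.mp ha
    obtain ⟨B', rfl⟩ := Multiset.exists_cons_of_mem hb
    rw [Multiset.map_cons, hba] at hB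
    obtain ⟨M, m1, m2, m3⟩ := ih B' ((Multiset.cons_inj_right _).mp hB)
    refine ⟨(a, b) ::ₘ M, by rw [Multiset.map_cons, m1], by rw [Multiset.map_cons, m2], ?_⟩
    intro e he
    rcases Multiset.mem_cons.mp he with rfl | he
    · exact hba.symm
    · exact m3 e he

end MatchBAux

theorem mt_finset {I J : Finset ℕ} {r : ℕ → ℕ → Prop} {M : Multiset (ℕ × ℕ)}
    (hM : Mt M I.val J.val r) : ∃ Q : Finset (ℕ × ℕ), Q.val = M ∧
      (∀ e ∈ Q, e.1 ∈ I ∧ e.2 ∈ J ∧ r e.1 e.2) ∧
      (∀ e ∈ Q, ∀ f ∈ Q, e.1 = f.1 → e = f) ∧ (∀ e ∈ Q, ∀ f ∈ Q, e.2 = f.2 → e = f) := by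
  obtain ⟨h1, h2, h3⟩ := hM
  have n1 : (M.map Prod.fst).Nodup := Multiset.nodup_of_le h1 I.nodup
  have n2 : (M.map Prod.snd).Nodup := Multiset.nodup_of_le h2 J.nodup
  have n : M.Nodup := Multiset.Nodup.of_map _ n1
  refine ⟨⟨M, n⟩, rfl, ?_, ?_, ?_⟩
  · intro e he
    have he' : e ∈ M := he
    exact ⟨Multiset.mem_of_le h1 (Multiset.mem_map_of_mem _ he'),
      Multiset.mem_of_le h2 (Multiset.mem_map_of_mem _ he'), h3 e he'⟩
  · intro e he f hf hef
    exact Multiset.inj_on_of_nodup_map n1 e he f hf hef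
  · intro e he f hf hef
    exact Multiset.inj_on_of_nodup_map n2 e he f hf hef

/-- only the left side is indexed by a finite set -/
theorem mt_finset_left {β : Type} {I : Finset ℕ} {B : Multiset β} {r : ℕ → β → Prop}
    {M : Multiset (ℕ × β)} (hM : Mt M I.val B r) : ∃ Q : Finset ℕ, Q ⊆ I ∧ Q.card = card M ∧
      ∀ i ∈ Q, ∃ b ∈ B, (i, b) ∈ M ∧ r i b := by
  obtain ⟨h1, h2, h3⟩ := hM
  have n1 : (M.map Prod.fst).Nodup := Multiset.nodup_of_le h1 I.nodup
  refine ⟨⟨M.map Prod.fst, n1⟩, ?_, ?_, ?_⟩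
  · intro i hi
    have hi' : i ∈ M.map Prod.fst := hi
    exact Multiset.mem_of_le h1 hi'
  · show card (M.map Prod.fst) = card M
    exact Multiset.card_map _ _
  · intro i hi
    have hi' : i ∈ M.map Prod.fst := hi
    obtain ⟨e, he, rfl⟩ := Multiset.mem_map.mp hi'
    exact ⟨e.2, Multiset.mem_of_le h2 (Multiset.mem_map_of_mem _ he), he, h3 e he⟩

theorem mt_card_left {α β : Type} {M M' : Multiset (α × β)} {A : Multiset α} {B : Multiset β}
    {r : α → β → Prop} (hM : Mt M A B r) (h : M' ≤ M) (p : α → Prop) [DecidablePred p]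
    (hp : ∀ e ∈ M', p e.1) : card M' ≤ card (A.filter p) := by
  rw [← Multiset.card_map Prod.fst M']
  refine Multiset.card_le_card (Multiset.le_filter.mpr ⟨(Multiset.map_le_map h).trans hM.1, ?_⟩)
  intro a ha
  obtain ⟨e, he, rfl⟩ := Multiset.mem_map.mp ha
  exact hp e he

theorem mt_card_right {α β : Type} {M M' : Multiset (α × β)} {A : Multiset α} {B : Multiset β}
    {r : α → β → Prop} (hM : Mt M A B r) (h : M' ≤ M) (p : β → Prop) [DecidablePred p]
    (hp : ∀ e ∈ M', p e.2) : card M' ≤ card (B.filter p) := by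
  rw [← Multiset.card_map Prod.snd M']
  refine Multiset.card_le_card (Multiset.le_filter.mpr ⟨(Multiset.map_le_map h).trans hM.2.1, ?_⟩)
  intro a ha
  obtain ⟨e, he, rfl⟩ := Multiset.mem_map.mp ha
  exact hp e he

theorem mt_double {α β κ : Type} (n : ℕ) (kα : α → κ) (kβ : β → κ) {M : Multiset (α × β)}
    {A : Multiset α} {B : Multiset β} (hM : Mt M (n • A) (n • B) (fun a b => kα a = kβ b)) :
    ∃ M', Mt M' A B (fun a b => kα a = kβ b) ∧ card M ≤ n * card M' := by
  classical
  obtain ⟨h1, h2, h3⟩ := hM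
  set C : Multiset κ := A.map kα ∩ B.map kβ with hC
  obtain ⟨A', hA', hAC⟩ := MatchBAux.lift_le kα A C (Multiset.inter_le_left)
  obtain ⟨B', hB', hBC⟩ := MatchBAux.lift_le kβ B C (Multiset.inter_le_right)
  obtain ⟨M', m1, m2, m3⟩ := MatchBAux.zip kα kβ A' B' (hAC.trans hBC.symm)
  refine ⟨M', ⟨by rw [m1]; exact hA', by rw [m2]; exact hB', m3⟩, ?_⟩
  have hcard : card M' = card C := by
    rw [← hAC, Multiset.card_map, ← m1, Multiset.card_map]
  rw [hcard]
  have e1 : M.map (fun e => kα e.1) ≤ n • (A.map kα) := by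
    rw [← Multiset.map_nsmul]
    have := Multiset.map_le_map (f := kα) h1
    rwa [Multiset.map_map] at this
  have e2 : M.map (fun e => kα e.1) ≤ n • (B.map kβ) := by
    rw [Multiset.map_congr rfl (fun e he => h3 e he), ← Multiset.map_nsmul]
    have := Multiset.map_le_map (f := kβ) h2
    rwa [Multiset.map_map] at this
  have e3 : M.map (fun e => kα e.1) ≤ n • C := by
    rw [Multiset.le_iff_count]
    intro a
    have c1 := Multiset.le_iff_count.mp e1 a
    have c2 := Multiset.le_iff_count.mp e2 a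
    rw [Multiset.count_nsmul] at c1 c2 ⊢
    rw [hC, Multiset.count_inter]
    rcases le_total (count a (map kα A)) (count a (map kβ B)) with h | h
    · rw [min_eq_left h]; exact c1
    · rw [min_eq_right h]; exact c2
  have e4 := Multiset.card_le_card e3
  rw [Multiset.card_map, Multiset.card_nsmul] at e4
  simpa using e4

end

end TRD
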