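import Pool.Agent.Lib.TRD.Classify
import Pool.Agent.Lib.TRD.MatchB

/-! # TRD.OneAlpha (MP_2e3d39_co)

The pairs with labels U and U'. a = count U s + 1 copies of U in U ::ₘ s, b = count U' s + 1 copies of U' in U' ::ₘ s.

The elements of ldl (U ::ₘ s) with label U are a • ((dlo U).map (fun o => (U, o))) (induction on s / `ldl_cons`), so M.map fst ≤ a • (...), card ≤ a * size U (`card_dlo`). Same on the right.
If a = b = n: forget the labels: M'' (apply Prod.map snd snd) is a matching between n • dlo U and n • dlo U' for the relation given by the key o ↦ (o.1, o.2.map cls): the relation Rl gives e.1.2.2.map cls = e.2.2.2.map cls, and e.1.2.1 = e.2.2.1. `mt_double` gives M₂ between dlo U and dlo U' with card M ≤ n * card M₂.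
Split M₂ by o.1 = 0: in dlo U there is exactly one entry with o.1 = 0, namely (0, ch U) (the others are singletons {e.1}); the matched entry in dlo U' also has o'.1 = 0, so it is (0, ch U') and (ch U).map cls = (ch U').map cls; at most one such pair: ε ∈ {0,1}. The other pairs are ({e.1}, e.2), ({e'.1}, e'.2) with
{e.1} = {e'.1}: they form a matching M₁ with GM M₁ U U' (lift through the injective map e ↦ ({e.1}, e.2), `mt_lift`).
-/

open Multiset

namespace TRD

noncomputable section

namespace OneAlphaAux

theorem filter_ldl (y : RT) (m : Multiset RT) : (ldl m).filter (fun t => t.1 = y) =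
    (count y m) • (dlo y).map (fun o => (y, o)) := by
  induction m using Multiset.induction_on with
  | empty => simp [ldl]
  | cons a m ih =>
    rw [ldl_cons, Multiset.filter_add, ih]
    by_cases h : y = a
    · subst h
      rw [Multiset.count_cons_self, Multiset.filter_eq_self.2, add_smul, one_smul, add_comm]
      intro t ht
      obtain ⟨o, _, rfl⟩ := Multiset.mem_map.1 ht
      rfl
    · rw [Multiset.count_cons_of_ne h, Multiset.filter_eq_nil.2, zero_add]
      intro t ht
      obtain ⟨o, _, rfl⟩ := Multiset.mem_map.1 ht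
      exact fun h' => h h'.symm

theorem card_filter_ldl (y : RT) (s : Multiset RT) :
    card ((ldl (y ::ₘ s)).filter (fun t => t.1 = y)) = (count y s + 1) * size y := by
  rw [filter_ldl, Multiset.count_cons_self, Multiset.card_nsmul, Multiset.card_map, card_dlo]

end OneAlphaAux

open OneAlphaAux in
theorem one_alpha {U U' : RT} {s : Multiset RT}
    {M : Multiset ((RT × Multiset RT × Multiset RT) × (RT × Multiset RT × Multiset RT))}
    (hM : Mt M (ldl (U ::ₘ s)) (ldl (U' ::ₘ s)) (Rl (U ::ₘ s) (U' ::ₘ s)))
    (h : ∀ e ∈ M, e.1.1 = U ∧ e.2.1 = U' ∧ e.1.2.1 = e.2.2.1) :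
    card M ≤ (count U s + 1) * size U ∧ card M ≤ (count U' s + 1) * size U' ∧
    (count U s = count U' s → ∃ (M₁ : Multiset ((RT × Multiset RT) × (RT × Multiset RT))) (ε : ℕ),
      GM M₁ U U' ∧ (ε = 0 ∨ (ε = 1 ∧ (ch U).map cls = (ch U').map cls)) ∧
      card M ≤ (count U s + 1) * (card M₁ + ε)) := by
  have hfl : M.map Prod.fst ≤ (ldl (U ::ₘ s)).filter (fun t => t.1 = U) := by
    refine Multiset.le_filter.2 ⟨hM.1, ?_⟩
    intro t ht
    obtain ⟨e, he, rfl⟩ := Multiset.mem_map.1 ht
    exact (h e he).1
  have hfr : M.map Prod.snd ≤ (ldl (U' ::ₘ s)).filter (fun t => t.1 = U') := by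
    refine Multiset.le_filter.2 ⟨hM.2.1, ?_⟩
    intro t ht
    obtain ⟨e, he, rfl⟩ := Multiset.mem_map.1 ht
    exact (h e he).2.1
  refine ⟨?_, ?_, ?_⟩
  · rw [← card_filter_ldl, ← Multiset.card_map Prod.fst M]
    exact Multiset.card_le_card hfl
  · rw [← card_filter_ldl, ← Multiset.card_map Prod.snd M]
    exact Multiset.card_le_card hfr
  · intro hcount
    set n : ℕ := count U s + 1 with hn
    set k : Multiset RT × Multiset RT → Multiset RT × Multiset Cls :=
      fun o => (o.1, o.2.map cls) with hk
    set N : Multiset ((Multiset RT × Multiset RT) × (Multiset RT × Multiset RT)) :=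
      M.map (Prod.map Prod.snd Prod.snd) with hN
    have hNmt : Mt N (n • dlo U) (n • dlo U') (fun a b => k a = k b) := by
      refine ⟨?_, ?_, ?_⟩
      · have e1 : N.map Prod.fst = (M.map Prod.fst).map Prod.snd := by
          rw [hN, Multiset.map_map, Multiset.map_map]
          rfl
        rw [e1]
        refine (Multiset.map_le_map hfl).trans (le_of_eq ?_)
        rw [filter_ldl, Multiset.count_cons_self, Multiset.map_nsmul, Multiset.map_map]
        congr 1
        exact Multiset.map_id' (dlo U)
      · have e1 : N.map Prod.snd = (M.map Prod.snd).map Prod.snd := by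
          rw [hN, Multiset.map_map, Multiset.map_map]
          rfl
        rw [e1]
        refine (Multiset.map_le_map hfr).trans (le_of_eq ?_)
        rw [filter_ldl, Multiset.count_cons_self, Multiset.map_nsmul, Multiset.map_map, ← hcount]
        congr 1
        exact Multiset.map_id' (dlo U')
      · intro e he
        rw [hN] at he
        obtain ⟨f, hf, rfl⟩ := Multiset.mem_map.1 he
        have h1 := (h f hf).2.2
        have h2 := (hM.2.2 f hf).2
        show (f.1.2.1, f.1.2.2.map cls) = (f.2.2.1, f.2.2.2.map cls)
        rw [h1, h2]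
    obtain ⟨N', hN', hcard⟩ := mt_double n k k hNmt
    have hdU : dlo U = {((0 : Multiset RT), ch U)} +
        (dl U).map (fun e => (({e.1} : Multiset RT), e.2)) := by
      unfold dlo
      rw [Multiset.singleton_add]
    have hdU' : dlo U' = {((0 : Multiset RT), ch U')} +
        (dl U').map (fun e => (({e.1} : Multiset RT), e.2)) := by
      unfold dlo
      rw [Multiset.singleton_add]
    rw [hdU] at hN'
    obtain ⟨A1, A2, hA, hA1, hA2⟩ := mt_split_left hN'
    rw [hdU'] at hA2
    obtain ⟨B1, B2, hB, hB1, hB2⟩ := mt_split_right hA2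
    have hB1z : B1 = 0 := by
      by_contra hne
      obtain ⟨e, he⟩ := Multiset.exists_mem_of_ne_zero hne
      have h1 : e.1 ∈ (dl U).map (fun e => (({e.1} : Multiset RT), e.2)) :=
        Multiset.mem_of_le hB1.1 (Multiset.mem_map_of_mem _ he)
      have h2 : e.2 ∈ ({((0 : Multiset RT), ch U')} : Multiset (Multiset RT × Multiset RT)) :=
        Multiset.mem_of_le hB1.2.1 (Multiset.mem_map_of_mem _ he)
      have h3 := hB1.2.2 e he
      obtain ⟨f, _, hf⟩ := Multiset.mem_map.1 h1
      rw [Multiset.mem_singleton] at h2
      rw [hk] at h3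
      have h4 := congrArg Prod.fst h3
      simp only at h4
      rw [← hf, h2] at h4
      exact Multiset.singleton_ne_zero _ h4
    obtain ⟨M₁, hM₁, hM₁B⟩ := mt_lift hB2
    have hcM₁ : card M₁ = card B2 := by rw [← hM₁B, Multiset.card_map]
    have hGM : GM M₁ U U' := by
      refine ⟨hM₁.1, hM₁.2.1, ?_⟩
      intro e he
      have h3 := hM₁.2.2 e he
      rw [hk] at h3
      have h4 := congrArg Prod.fst h3
      have h5 := congrArg Prod.snd h3
      simp only at h4 h5
      exact ⟨Multiset.singleton_inj.1 h4, h5⟩
    have hcA1 : card A1 ≤ 1 := by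
      have := Multiset.card_le_card hA1.1
      rw [Multiset.card_map, Multiset.card_singleton] at this
      exact this
    have hcN : card M = card N := by rw [hN, Multiset.card_map]
    have hcN' : card N' = card A1 + card M₁ := by
      rw [hA, hB, hB1z, zero_add, Multiset.card_add, hcM₁]
    refine ⟨M₁, card A1, hGM, ?_, ?_⟩
    · rcases Nat.eq_zero_or_pos (card A1) with h0 | h0
      · exact Or.inl h0
      · right
        refine ⟨by omega, ?_⟩
        obtain ⟨e, he⟩ := Multiset.card_pos_iff_exists_mem.1 h0
        have h1 : e.1 ∈ ({((0 : Multiset RT), ch U)} : Multiset (Multiset RT × Multiset RT)) :=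
          Multiset.mem_of_le hA1.1 (Multiset.mem_map_of_mem _ he)
        have h2 : e.2 ∈ dlo U' := Multiset.mem_of_le hA1.2.1 (Multiset.mem_map_of_mem _ he)
        have h3 := hA1.2.2 e he
        rw [hk] at h3
        have h4 := congrArg Prod.fst h3
        have h5 := congrArg Prod.snd h3
        simp only at h4 h5
        rw [Multiset.mem_singleton] at h1
        rcases mem_dlo.1 h2 with h6 | ⟨f, _, h6⟩
        · rw [h1, h6] at h5
          exact h5
        · rw [h1, h6] at h4
          exact absurd h4.symm (Multiset.singleton_ne_zero _)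
    · rw [hcN, add_comm (card M₁), ← hcN']
      exact hcard

end

end TRD
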