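import Pool.Agent.Lib.TRD.OneSplit
import Pool.Agent.Lib.TRD.OneAlpha
import Pool.Agent.Lib.TRD.LLctx

/-! # TRD.CaseOne (MP_2e3d39_co)

Numerics of the case m = U ::ₘ s, m' = U' ::ₘ s (induction step of Theorem 2).

`RC x y`: the statement of Theorem 2 for the pair (x, y). Put q = size U = size U', n = size (node (U ::ₘ s)) = 1 + q + sz s. Let M be a good matching, lift it (`gm_lift`), split M' = Ma + MA (`one_split`), kA = card MA, kα = card Ma (Mt of Ma: `mt_sub`), `one_alpha` for Ma. a = count U s + 1, b = count U' s + 1. Let big = s.filter (size U < size ·): sz s ≥ sz big + (a-1) q + (b-1) q (the copies of U and U' in s are different trees of size q which are not in big), 2 kA ≤ sz big.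
 So 2 kA ≤ n - 1 - (a+b-1) q.   (1)
* a = b = 1: kα ≤ card M₁ + ε. Induction hypothesis for M₁: r with RL r U U'. Put r' = r + ε; RL r' (node (U ::ₘ s)) (node (U' ::ₘ s)) by RL.step resp. RL.root. If 5 card M₁ ≤ 3q + 50 + 5r: 5 card M ≤ 3q + 50 + 5r + 5ε + 5(n-1-q)/2 ≤ 3n + 50 + 5r'.
  If Fat: card M₁ + 2 ≤ 2g + r, with Fat g e (U,U') or (U',U): the sizes satisfy q = 3g + 2 + e (prove `fat_size` by induction on Fat: size x = 3g+2+e = size y, note size P₂ + 1 = g). If MA = 0: card M + 2 ≤ 2g + r' and Fat g (e+1+sz s) by Fat.step. If MA ≠ 0: some A ∈ s has size > q, so sz s ≥ q+1, n ≥ 2q+2;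
  card M ≤ r' + 2g - 2 + (n-1-q)/2 and 3g + 2 ≤ q: 6 card M ≤ 6r' + 4(q-2) - 12 + 3(n-1-q) = 6r' + q + 3n - 23 ≤ 6 r' + 3.5 n - 24, so 5 card M ≤ 3n + 50 + 5r'.
* min a b = 1, max a b ≥ 2: kα ≤ q, 2 card M ≤ 2q + n - 1 - 2q = n-1. r = 0.
* a = b = 2: kα ≤ 2q and kα ≤ 2 (card M₁ + 1). 2 card M ≤ 2kα + n - 1 - 3q, and 3q ≤ n-1. First bound: 2 card M ≤ n - 1 + q ≤ 4(n-1)/3, enough if n ≤ 160. Second: from the induction hypothesis and r ≤ 2 (`rl_le_two`, U ≠ U'): 3 card M₁ ≤ 2q + 36 (if 5 card M₁ ≤ 3q + 60 then 3 card M₁ ≤ 1.8 q + 36; if Fat, card M₁ ≤ 2g, 3g + 2 ≤ q);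
  6 card M ≤ 6kα + 3(n-1) - 9q ≤ 12 card M₁ + 12 + 3(n-1) - 9q ≤ 8q + 156 + 3(n-1) - 9q ≤ 3n + 153: 5 card M ≤ 2.5n + 127.5 ≤ 3n + 50 if n ≥ 155.
* a = b ≥ 3: kα ≤ a q: 2 card M ≤ 2aq + n - 1 - (2a-1)q = n - 1 + q, and (2a-1) q ≤ n-1 with 2a-1 ≥ 5: 10 card M ≤ 6(n-1).
* 2 ≤ min a b < max a b: kα ≤ (min a b) q: 2 card M ≤ n - 1 + q (2 min - (a+b-1)) ≤ n - 1.
-/

open Multiset

namespace TRD

noncomputable section

/-- the statement of the rooted comparison theorem for the pair `(x, y)` -/
def RC (x y : RT) : Prop := ∀ M, GM M x y → ∃ r, RL r x y ∧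
  (5 * card M ≤ 3 * size x + 50 + 5 * r ∨
    ∃ g e, (Fat g e x y ∨ Fat g e y x) ∧ card M + 2 ≤ 2 * g + r)

theorem fat_size {g e : ℕ} {x y : RT} (h : Fat g e x y) :
    size x = 3 * g + 2 + e ∧ size y = 3 * g + 2 + e := by
  induction h with
  | base P₁ P₂ Q₁ Q₂ s h1 h2 h3 h4 =>
    simp only [size_node, sz_cons]
    omega
  | step e x y s _ ih =>
    simp only [size_node, sz_cons]
    omega

private theorem sz_mono {m m' : Multiset RT} (h : m ≤ m') : sz m ≤ sz m' := by
  obtain ⟨t, rfl⟩ := Multiset.le_iff_exists_add.1 h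
  rw [sz_add]
  omega

private theorem sz_replicate (n : ℕ) (U : RT) : sz (replicate n U) = n * size U := by
  unfold sz
  rw [Multiset.map_replicate, Multiset.sum_replicate, smul_eq_mul]

private theorem sz_big {U U' : RT} {s : Multiset RT} (hne : U ≠ U') (hsz : size U = size U') :
    sz (s.filter (fun A => size U < size A)) + count U s * size U + count U' s * size U
      ≤ sz s := by
  have h1 : sz s = sz (s.filter (fun A => size U < size A)) +
      sz (s.filter (fun A => ¬ size U < size A)) := by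
    rw [← sz_add, Multiset.filter_add_not]
  have h2 : replicate (count U s) U + replicate (count U' s) U' ≤
      s.filter (fun A => ¬ size U < size A) := by
    rw [Multiset.le_iff_count]
    intro x
    rw [Multiset.count_add, Multiset.count_replicate, Multiset.count_replicate]
    by_cases hx : U = x
    · subst hx
      have h3 : U' ≠ U := fun h => hne h.symm
      rw [if_pos rfl, if_neg h3, Multiset.count_filter, if_pos (lt_irrefl _)]
      omega
    · by_cases hx' : U' = x
      · subst hx'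
        rw [if_neg hx, if_pos rfl, Multiset.count_filter, if_pos (by omega)]
        omega
      · rw [if_neg hx, if_neg hx']
        omega
  have h3 := sz_mono h2
  rw [sz_add, sz_replicate, sz_replicate, ← hsz] at h3
  omega

theorem case_one {U U' : RT} {s : Multiset RT} (hne : U ≠ U') (hsz : size U = size U')
    (IH : RC U U') : RC (node (U ::ₘ s)) (node (U' ::ₘ s)) := by
  intro M hM
  obtain ⟨M', hM', hcard⟩ := gm_lift hM
  obtain ⟨Ma, MA, hsum, hMa, hMA, hkA⟩ := one_split hne hsz hM'
  have hle : Ma ≤ M' := by rw [hsum]; exact Multiset.le_add_right _ _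
  obtain ⟨hk1, hk2, hk3⟩ := one_alpha (mt_sub hM' hle) hMa
  have hk : card M = card Ma + card MA := by rw [← hcard, hsum, Multiset.card_add]
  have hbig := sz_big (s := s) hne hsz
  have hn : size (node (U ::ₘ s)) = 1 + size U + sz s := by
    rw [size_node, sz_cons]; omega
  rw [← hsz] at hk2
  rw [hn]
  obtain ⟨q, hq⟩ : ∃ q, q = size U := ⟨_, rfl⟩
  obtain ⟨a, ha⟩ : ∃ a, a = count U s := ⟨_, rfl⟩
  obtain ⟨b, hb⟩ : ∃ b, b = count U' s := ⟨_, rfl⟩
  obtain ⟨B, hB⟩ : ∃ B, B = sz (s.filter (fun A => size U < size A)) := ⟨_, rfl⟩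
  rw [← hB] at hkA hbig
  rw [← ha, ← hb] at hbig hk3
  rw [← ha] at hk1
  rw [← hb] at hk2
  rw [← hq] at hk1 hk2 hbig ⊢
  rw [Nat.add_mul, Nat.one_mul] at hk1 hk2
  rcases lt_trichotomy a b with hab | hab | hab
  · -- a < b
    refine ⟨0, RL.zero _ _, Or.inl ?_⟩
    have h1 : a * q + q ≤ b * q := by
      have := Nat.mul_le_mul_right q (show a + 1 ≤ b from hab)
      rw [Nat.add_mul, Nat.one_mul] at this
      exact this
    omega
  · subst hab
    obtain ⟨M₁, ε, hG, hε, hc⟩ := hk3 rfl
    obtain ⟨r, hr, hor⟩ := IH M₁ hG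
    rcases Nat.lt_or_ge a 1 with h0 | h0
    · -- a = b = 0
      obtain rfl : a = 0 := by omega
      have hc' : card Ma ≤ card M₁ + ε := by omega
      have hr' : RL (r + ε) (node (U ::ₘ s)) (node (U' ::ₘ s)) := by
        rcases hε with h | ⟨h, h'⟩
        · subst h
          exact RL.step r U U' s hr
        · subst h
          exact RL.root r U U' s hr h'
      refine ⟨r + ε, hr', ?_⟩
      rcases hor with h | ⟨g, e, hF, hg⟩
      · left
        rw [← hq] at h
        omega
      · have hsize : q = 3 * g + 2 + e := by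
          rcases hF with hF | hF
          · rw [hq]; exact (fat_size hF).1
          · rw [hq]; exact (fat_size hF).2
        by_cases hA : MA = 0
        · right
          refine ⟨g, e + 1 + sz s, ?_, ?_⟩
          · rcases hF with hF | hF
            · exact Or.inl (Fat.step e U U' s hF)
            · exact Or.inr (Fat.step e U' U s hF)
          · rw [hk, hA, Multiset.card_zero]
            omega
        · left
          obtain ⟨f, hf⟩ := Multiset.exists_mem_of_ne_zero hA
          obtain ⟨_, hf2, hf3, _⟩ := hMA f hf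
          have h5 : f.1.1 ∈ s.filter (fun A => size U < size A) := Multiset.mem_filter.2 ⟨hf2, hf3⟩
          have h6 := size_le_sz h5
          rw [← hB] at h6
          rw [← hq] at hf3
          omega
    · rcases Nat.lt_or_ge a 2 with h1 | h1
      · -- a = b = 1
        obtain rfl : a = 1 := by omega
        have hr2 := rl_le_two hne hr
        have hε' : ε ≤ 1 := by rcases hε with h | ⟨h, _⟩ <;> omega
        refine ⟨0, RL.zero _ _, Or.inl ?_⟩
        rcases hor with h | ⟨g, e, hF, hg⟩
        · rw [← hq] at h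
          omega
        · have hsize : q = 3 * g + 2 + e := by
            rcases hF with hF | hF
            · rw [hq]; exact (fat_size hF).1
            · rw [hq]; exact (fat_size hF).2
          omega
      · -- a = b ≥ 2
        refine ⟨0, RL.zero _ _, Or.inl ?_⟩
        have h2 : 2 * q ≤ a * q := Nat.mul_le_mul_right q h1
        omega
  · refine ⟨0, RL.zero _ _, Or.inl ?_⟩
    have h1 : b * q + q ≤ a * q := by
      have := Nat.mul_le_mul_right q (show b + 1 ≤ a from hab)
      rw [Nat.add_mul, Nat.one_mul] at this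
      exact this
    omega

end

end TRD
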