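import Pool.Agent.Lib.TRD.Classify
import Pool.Agent.Lib.TRD.Antichain
import Pool.Agent.Lib.TRD.MatchB

/-! # TRD.CaseThree (MP_2e3d39_co)

The case {P₁,P₂} against {Q} (P₁, P₂ ≠ Q), size Q = size P₁ + size P₂.

Pairs: `classify` for m = P₁ ::ₘ P₂ ::ₘ s, m' = Q ::ₘ s (m ≠ m' by card). (α), (A): card m = card m', impossible. (β): m = P ::ₘ (o' + s₁), m' = Q' ::ₘ (o + s₁): {P₁,P₂} + {Q'} + o = {Q} + {P} + o'. As P₁,P₂ ≠ Q: {P₁,P₂} ≤ {P} + o', so {P₁,P₂} = {P} + o', and {Q'} + o = {Q}: o = 0, Q' = Q.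
So every pair has label P ∈ {P₁,P₂} with remainder 0 on the left (the root entry (P, 0, ch P), one for each copy of P in m), and label Q, remainder o' = {other one} on the right.
p_i = size P_i, q = p₁+p₂ = size Q, c = count Q s + 1 (multiplicity in m'), n = 1 + p₁ + p₂ + sz s.
Case P₁ ≠ P₂: M₁ = count P₁ s + 1, M₂ = count P₂ s + 1, k₁, k₂ = numbers of pairs with label P₁ resp. P₂. k_i ≤ M_i; on the right k₁ ≤ c * card ((dl Q).filter (e.1 = P₂)), (q - p₂) * card(..) ≤ q - 1 (`antichain_K`), so k₁ p₁ ≤ c (q-1), k₂ p₂ ≤ c (q-1). sz s ≥ (M₁-1)p₁ + (M₂-1)p₂ + (c-1)q. WLOG p₂ ≤ p₁; not both 1 (two trees of size 1 are equal: node 0), so p₁ ≥ 2.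
 n - 1 ≥ M₁p₁ + M₂p₂ + (c-1)q. If p₂ ≥ 2: 2(k₁+k₂) ≤ n-1. If p₂ = 1: q = p₁+1, k₁ p₁ ≤ c p₁ so k₁ ≤ c; k₂ ≤ c p₁, k₂ ≤ M₂. n-1 ≥ M₁p₁ + k₂ + (c-1)(p₁+1) and c p₁ ≥ k₂: n - 1 ≥ M₁p₁ + k₂ + (k₂ - p₁) + (c-1) = 2k₂ + (M₁-1)p₁ + (c-1). If k₁ ≥ 1: (M₁-1)p₁ ≥ 2(k₁-1), c - 1 ≥ k₁ - 1: n-1 ≥ 2k₂+3k₁-3. So 5(k₁+k₂) ≤ 2.5(n-1)+7.5.
 (Checked by computer.)
Case P₁ = P₂ = P: M₀ = count P s + 2 copies; k ≤ M₀, k p ≤ c (q-1), q = 2p; sz s ≥ (M₀-2)p + (c-1)q, n - 1 ≥ M₀ p + (c-1) 2p. p ≥ 2: 2k ≤ n-1. p = 1: k ≤ c, n-1 ≥ k + 2(k-1).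
The mirrored statement follows with `mt_swap` (the relation Gr is symmetric).
-/

open Multiset

namespace TRD

noncomputable section

namespace CaseThreeAux

theorem filter_root (P : RT) (m : Multiset RT) :
    card ((ldl m).filter (fun t => t.1 = P ∧ t.2.1 = 0)) ≤ count P m := by
  induction m using Multiset.induction_on with
  | empty => simp [ldl]
  | cons a m ih =>
    rw [ldl_cons, Multiset.filter_add, Multiset.card_add]
    have h1 : card ((Multiset.map (fun o => (a, o)) (dlo a)).filter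
        (fun t : RT × Multiset RT × Multiset RT => t.1 = P ∧ t.2.1 = 0)) ≤ if P = a then 1 else 0 := by
      by_cases ha : P = a
      · subst ha
        rw [if_pos rfl]
        unfold dlo
        rw [Multiset.map_cons, Multiset.map_map, Multiset.filter_cons_of_pos _ (by simp),
          Multiset.filter_eq_nil.mpr]
        · simp
        · intro t ht h
          rw [Multiset.mem_map] at ht
          obtain ⟨e, _, rfl⟩ := ht
          simp at h
      · rw [if_neg ha, Multiset.filter_eq_nil.mpr]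
        · simp
        · intro t ht h
          rw [Multiset.mem_map] at ht
          obtain ⟨e, _, rfl⟩ := ht
          exact ha h.1.symm
    rw [Multiset.count_cons]
    omega

theorem filter_lab (Q K : RT) (m : Multiset RT) :
    card ((ldl m).filter (fun t => t.1 = Q ∧ t.2.1 = {K})) ≤
      count Q m * card ((dl Q).filter (fun e => e.1 = K)) := by
  induction m using Multiset.induction_on with
  | empty => simp [ldl]
  | cons a m ih =>
    rw [ldl_cons, Multiset.filter_add, Multiset.card_add]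
    have h1 : card ((Multiset.map (fun o => (a, o)) (dlo a)).filter
        (fun t : RT × Multiset RT × Multiset RT => t.1 = Q ∧ t.2.1 = {K})) ≤
        if Q = a then card ((dl Q).filter (fun e => e.1 = K)) else 0 := by
      by_cases ha : Q = a
      · subst ha
        rw [if_pos rfl]
        unfold dlo
        rw [Multiset.map_cons, Multiset.map_map, Multiset.filter_cons_of_neg _ (by
          simp only [not_and]
          intro _ h
          exact absurd h.symm (Multiset.singleton_ne_zero K)), Multiset.filter_map,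
          Multiset.card_map]
        apply Multiset.card_le_card
        apply Multiset.monotone_filter_right
        intro e h
        simp only [Function.comp] at h
        exact Multiset.singleton_inj.mp h.2
      · rw [if_neg ha, Multiset.filter_eq_nil.mpr]
        · simp
        · intro t ht h
          rw [Multiset.mem_map] at ht
          obtain ⟨e, _, rfl⟩ := ht
          exact ha h.1.symm
    rw [Multiset.count_cons, Nat.add_mul]
    split_ifs at h1 ⊢ <;> omega

theorem three_le {A B C : RT} (h1 : A ≠ B) (h2 : A ≠ C) (h3 : B ≠ C) (m : Multiset RT) :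
    count A m * size A + count B m * size B + count C m * size C ≤ sz m := by
  induction m using Multiset.induction_on with
  | empty => simp
  | cons a m ih =>
    rw [sz_cons, Multiset.count_cons, Multiset.count_cons, Multiset.count_cons]
    by_cases ha : A = a
    · subst ha
      rw [if_pos rfl, if_neg h1.symm, if_neg h2.symm, add_zero, add_zero]
      rw [Nat.add_mul]; omega
    · by_cases hb : B = a
      · subst hb
        rw [if_neg ha, if_pos rfl, if_neg h3.symm, add_zero, add_zero]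
        rw [Nat.add_mul (count B m)]; omega
      · by_cases hc : C = a
        · subst hc
          rw [if_neg ha, if_neg hb, if_pos rfl, add_zero, add_zero]
          rw [Nat.add_mul (count C m)]; omega
        · rw [if_neg ha, if_neg hb, if_neg hc, add_zero, add_zero, add_zero]
          omega

theorem two_le {A B : RT} (h1 : A ≠ B) (m : Multiset RT) :
    count A m * size A + count B m * size B ≤ sz m := by
  induction m using Multiset.induction_on with
  | empty => simp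
  | cons a m ih =>
    rw [sz_cons, Multiset.count_cons, Multiset.count_cons]
    by_cases ha : A = a
    · subst ha
      rw [if_pos rfl, if_neg h1.symm, add_zero]
      rw [Nat.add_mul]; omega
    · by_cases hb : B = a
      · subst hb
        rw [if_neg ha, if_pos rfl, add_zero]
        rw [Nat.add_mul (count B m)]; omega
      · rw [if_neg ha, if_neg hb, add_zero, add_zero]
        omega

theorem size_one {x y : RT} (hx : size x = 1) (hy : size y = 1) : x = y := by
  have key : ∀ z : RT, size z = 1 → z = node 0 := by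
    intro z hz
    have h1 := size_eq z
    have h2 := card_le_sz (ch z)
    have h3 : card (ch z) = 0 := by omega
    rw [← node_ch z, Multiset.card_eq_zero.mp h3]
  rw [key x hx, key y hy]

/-- shape of a pair -/
theorem shape {P₁ P₂ Q : RT} {s : Multiset RT} (hsz : size P₁ + size P₂ = size Q)
    {t t' : RT × Multiset RT × Multiset RT}
    (ht : t ∈ ldl (P₁ ::ₘ P₂ ::ₘ s)) (ht' : t' ∈ ldl (Q ::ₘ s))
    (h : Rl (P₁ ::ₘ P₂ ::ₘ s) (Q ::ₘ s) t t') :
    t.2.1 = 0 ∧ t'.1 = Q ∧ ((t.1 = P₁ ∧ t'.2.1 = {P₂}) ∨ (t.1 = P₂ ∧ t'.2.1 = {P₁})) := by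
  have p1 := size_pos P₁
  have p2 := size_pos P₂
  have n1 : P₁ ≠ Q := by rintro rfl; omega
  have n2 : P₂ ≠ Q := by rintro rfl; omega
  have hne : (P₁ ::ₘ P₂ ::ₘ s) ≠ (Q ::ₘ s) := by
    intro h
    have := congrArg card h
    simp only [Multiset.card_cons] at this
    omega
  have hs : sz (P₁ ::ₘ P₂ ::ₘ s) = sz (Q ::ₘ s) := by
    rw [sz_cons, sz_cons, sz_cons]; omega
  have c1 := dlo_card (mem_ldl.mp ht).2
  have c2 := dlo_card (mem_ldl.mp ht').2
  rcases classify hne hs ht ht' h with ⟨_, _, _, s', e1, e2⟩ | ⟨_, U, U', s', _, _, _, e1, e2, _⟩ |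
    ⟨_, _, s', e1, e2⟩
  · have := congrArg card e1
    have h2 := congrArg card e2
    simp only [Multiset.card_cons] at this h2
    omega
  · have := congrArg card e1
    have h2 := congrArg card e2
    simp only [Multiset.card_cons] at this h2
    omega
  · have k1 := congrArg card e1
    have k2 := congrArg card e2
    simp only [Multiset.card_cons, Multiset.card_add] at k1 k2
    have z1 : t.2.1 = 0 := Multiset.card_eq_zero.mp (by omega)
    obtain ⟨o, ho⟩ := Multiset.card_eq_one.mp (show card t'.2.1 = 1 by omega)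
    rw [ho, Multiset.singleton_add] at e1
    rw [z1, zero_add] at e2
    have k3 : ({P₁, P₂, t'.1} : Multiset RT) = {t.1, o, Q} := by
      have : ({P₁, P₂, t'.1} : Multiset RT) + (s + s') = {t.1, o, Q} + (s + s') := by
        have a1 : ({P₁, P₂, t'.1} : Multiset RT) + (s + s') =
            (P₁ ::ₘ P₂ ::ₘ s) + (t'.1 ::ₘ s') := by
          simp only [Multiset.insert_eq_cons, ← Multiset.singleton_add]
          abel
        have a2 : ({t.1, o, Q} : Multiset RT) + (s + s') =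
            (t.1 ::ₘ o ::ₘ s') + (Q ::ₘ s) := by
          simp only [Multiset.insert_eq_cons, ← Multiset.singleton_add]
          abel
        rw [a1, a2, e1, ← e2]
      exact add_right_cancel this
    have hQ : Q ∈ ({P₁, P₂, t'.1} : Multiset RT) := by rw [k3]; simp
    simp only [Multiset.insert_eq_cons, Multiset.mem_cons, Multiset.mem_singleton] at hQ
    have hQ' : Q = t'.1 := by
      rcases hQ with h | h | h
      · exact absurd h.symm n1
      · exact absurd h.symm n2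
      · exact h
    have k4 : ({P₁, P₂} : Multiset RT) = {t.1, o} := by
      have : ({P₁, P₂} : Multiset RT) + {Q} = {t.1, o} + {Q} := by
        have b1 : ({P₁, P₂} : Multiset RT) + {Q} = {P₁, P₂, t'.1} := by
          rw [← hQ']; rfl
        have b2 : ({t.1, o} : Multiset RT) + {Q} = {t.1, o, Q} := rfl
        rw [b1, b2, k3]
      exact add_right_cancel this
    refine ⟨z1, hQ'.symm, ?_⟩
    rw [ho]
    have hP : t.1 ∈ ({P₁, P₂} : Multiset RT) := by rw [k4]; simp
    simp only [Multiset.insert_eq_cons, Multiset.mem_cons, Multiset.mem_singleton] at hP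
    rcases hP with h | h
    · left
      refine ⟨h, ?_⟩
      rw [h, Multiset.insert_eq_cons, Multiset.insert_eq_cons, Multiset.cons_inj_right] at k4
      exact k4.symm
    · right
      refine ⟨h, ?_⟩
      rw [h, Multiset.pair_comm, Multiset.insert_eq_cons, Multiset.insert_eq_cons,
        Multiset.cons_inj_right] at k4
      exact k4.symm

/-- bounds for the pairs with left label `A` and right remainder `B` -/
theorem bound {A B Q : RT} (hsz : size A + size B = size Q) {m m' : Multiset RT}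
    {N : Multiset ((RT × Multiset RT × Multiset RT) × (RT × Multiset RT × Multiset RT))}
    (hN : Mt N (ldl m) (ldl m') (Rl m m'))
    (h : ∀ e ∈ N, e.1.1 = A ∧ e.1.2.1 = 0 ∧ e.2.1 = Q ∧ e.2.2.1 = {B}) :
    card N ≤ count A m ∧ card N * size A ≤ count Q m' * (size Q - 1) := by
  have pA := size_pos A
  have b1 := mt_card_left hN le_rfl (fun t => t.1 = A ∧ t.2.1 = 0)
    (fun e he => ⟨(h e he).1, (h e he).2.1⟩)
  have b2 := mt_card_right hN le_rfl (fun t => t.1 = Q ∧ t.2.1 = {B})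
    (fun e he => ⟨(h e he).2.2.1, (h e he).2.2.2⟩)
  have c1 := filter_root A m
  have c2 := filter_lab Q B m'
  have c3 := antichain_K Q B
  have e1 : size Q - size B = size A := by omega
  rw [e1] at c3
  refine ⟨b1.trans c1, ?_⟩
  have c4 : size A * card ((dl Q).filter (fun e => e.1 = B)) ≤ size Q - 1 := by omega
  calc card N * size A ≤ (count Q m' * card ((dl Q).filter (fun e => e.1 = B))) * size A :=
        Nat.mul_le_mul_right _ (b2.trans c2)
    _ = count Q m' * (size A * card ((dl Q).filter (fun e => e.1 = B))) := by ring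
    _ ≤ count Q m' * (size Q - 1) := Nat.mul_le_mul_left _ c4

/-- arithmetic, two different labels, the second one small -/
theorem arith_one {k₁ k₂ M₁ M₂ c p N : ℕ} (hp : 2 ≤ p) (hM : 1 ≤ M₁) (h1 : k₁ ≤ M₁)
    (h2 : k₂ ≤ M₂) (h3 : k₁ * p ≤ (c + 1) * p) (h4 : k₂ ≤ (c + 1) * p)
    (hN : M₁ * p + M₂ + c * (p + 1) ≤ N) : 5 * (k₁ + k₂) ≤ 3 * (1 + N) + 50 := by
  have k1 : k₁ ≤ c + 1 := Nat.le_of_mul_le_mul_right h3 (by omega)
  obtain ⟨x, rfl⟩ : ∃ x, M₁ = x + 1 := ⟨M₁ - 1, by omega⟩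
  have k2 : x * 2 ≤ x * p := Nat.mul_le_mul_left _ hp
  have k3 : (x + 1) * p = x * p + p := by ring
  have k4 : (c + 1) * p = c * p + p := by ring
  have k5 : c * (p + 1) = c * p + c := by ring
  rw [k3, k5] at hN
  rw [k4] at h4
  omega

theorem arith_two {k₁ k₂ M₁ M₂ p₁ p₂ N : ℕ} (hp1 : 2 ≤ p₁) (hp2 : 2 ≤ p₂) (h1 : k₁ ≤ M₁)
    (h2 : k₂ ≤ M₂) (hN : M₁ * p₁ + M₂ * p₂ ≤ N) : 5 * (k₁ + k₂) ≤ 3 * (1 + N) + 50 := by
  have a1 : k₁ * 2 ≤ M₁ * p₁ := Nat.mul_le_mul h1 hp1
  have a2 : k₂ * 2 ≤ M₂ * p₂ := Nat.mul_le_mul h2 hp2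
  omega

theorem main {P₁ P₂ Q : RT} {s : Multiset RT} (hsz : size P₁ + size P₂ = size Q)
    {N₁ N₂ : Multiset ((RT × Multiset RT × Multiset RT) × (RT × Multiset RT × Multiset RT))}
    (hN1 : Mt N₁ (ldl (P₁ ::ₘ P₂ ::ₘ s)) (ldl (Q ::ₘ s)) (Rl (P₁ ::ₘ P₂ ::ₘ s) (Q ::ₘ s)))
    (hN2 : Mt N₂ (ldl (P₁ ::ₘ P₂ ::ₘ s)) (ldl (Q ::ₘ s)) (Rl (P₁ ::ₘ P₂ ::ₘ s) (Q ::ₘ s)))
    (h1 : ∀ e ∈ N₁, e.1.1 = P₁) (h2 : ∀ e ∈ N₂, ¬ e.1.1 = P₁) :
    5 * (card N₁ + card N₂) ≤ 3 * size (node (P₁ ::ₘ P₂ ::ₘ s)) + 50 := by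
  have p1 := size_pos P₁
  have p2 := size_pos P₂
  have n1 : P₁ ≠ Q := by rintro rfl; omega
  have n2 : P₂ ≠ Q := by rintro rfl; omega
  rw [size_node]
  have mem1 : ∀ e ∈ N₁, e.1 ∈ ldl (P₁ ::ₘ P₂ ::ₘ s) ∧ e.2 ∈ ldl (Q ::ₘ s) ∧
      Rl (P₁ ::ₘ P₂ ::ₘ s) (Q ::ₘ s) e.1 e.2 := fun e he =>
    ⟨Multiset.mem_of_le hN1.1 (Multiset.mem_map_of_mem _ he),
      Multiset.mem_of_le hN1.2.1 (Multiset.mem_map_of_mem _ he), hN1.2.2 e he⟩
  have mem2 : ∀ e ∈ N₂, e.1 ∈ ldl (P₁ ::ₘ P₂ ::ₘ s) ∧ e.2 ∈ ldl (Q ::ₘ s) ∧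
      Rl (P₁ ::ₘ P₂ ::ₘ s) (Q ::ₘ s) e.1 e.2 := fun e he =>
    ⟨Multiset.mem_of_le hN2.1 (Multiset.mem_map_of_mem _ he),
      Multiset.mem_of_le hN2.2.1 (Multiset.mem_map_of_mem _ he), hN2.2.2 e he⟩
  have cQ : count Q (Q ::ₘ s) = count Q s + 1 := Multiset.count_cons_self Q s
  have cQm : count Q (P₁ ::ₘ P₂ ::ₘ s) = count Q s := by
    rw [Multiset.count_cons_of_ne n1.symm, Multiset.count_cons_of_ne n2.symm]
  by_cases hPP : P₁ = P₂
  · subst hPP
    have hN2' : N₂ = 0 := by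
      rw [Multiset.eq_zero_iff_forall_notMem]
      intro e he
      obtain ⟨a, b, c⟩ := mem2 e he
      rcases shape hsz a b c with ⟨_, _, ⟨h, _⟩ | ⟨h, _⟩⟩
      · exact h2 e he h
      · exact h2 e he h
    rw [hN2', Multiset.card_zero, add_zero]
    obtain ⟨b1, b2⟩ := bound (A := P₁) (B := P₁) hsz hN1 (fun e he => by
      obtain ⟨a, b, c⟩ := mem1 e he
      rcases shape hsz a b c with ⟨h, h', ⟨h3, h4⟩ | ⟨h3, h4⟩⟩
      · exact ⟨h3, h, h', h4⟩
      · exact ⟨h3, h, h', h4⟩)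
    have t := two_le n1 (P₁ ::ₘ P₁ ::ₘ s)
    rw [cQm] at t
    rw [cQ] at b2
    generalize hS : sz (P₁ ::ₘ P₁ ::ₘ s) = S at *
    generalize hk : card N₁ = k at *
    generalize hM : count P₁ (P₁ ::ₘ P₁ ::ₘ s) = M₁ at *
    generalize hc : count Q s = c at *
    rw [← hsz] at b2 t
    by_cases hp : 2 ≤ size P₁
    · have a1 : k * 2 ≤ M₁ * size P₁ := Nat.mul_le_mul b1 hp
      omega
    · have hp' : size P₁ = 1 := by omega
      rw [hp'] at b2 t
      omega
  · have hM1 : 1 ≤ count P₁ (P₁ ::ₘ P₂ ::ₘ s) := by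
      rw [Multiset.count_cons_self]; omega
    have hM2 : 1 ≤ count P₂ (P₁ ::ₘ P₂ ::ₘ s) := by
      rw [Multiset.count_cons_of_ne (Ne.symm hPP), Multiset.count_cons_self]; omega
    obtain ⟨b1, b2⟩ := bound (A := P₁) (B := P₂) hsz hN1 (fun e he => by
      obtain ⟨a, b, c⟩ := mem1 e he
      rcases shape hsz a b c with ⟨h, h', ⟨h3, h4⟩ | ⟨h3, h4⟩⟩
      · exact ⟨h3, h, h', h4⟩
      · exact absurd ((h1 e he).symm.trans h3) hPP)
    obtain ⟨b3, b4⟩ := bound (A := P₂) (B := P₁) (Q := Q) (by omega) hN2 (fun e he => by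
      obtain ⟨a, b, c⟩ := mem2 e he
      rcases shape hsz a b c with ⟨h, h', ⟨h3, h4⟩ | ⟨h3, h4⟩⟩
      · exact absurd h3 (h2 e he)
      · exact ⟨h3, h, h', h4⟩)
    have t := three_le hPP n1 n2 (P₁ ::ₘ P₂ ::ₘ s)
    rw [cQm] at t
    rw [cQ] at b2 b4
    have hone : ¬ (size P₁ = 1 ∧ size P₂ = 1) := fun h => hPP (size_one h.1 h.2)
    generalize hS : sz (P₁ ::ₘ P₂ ::ₘ s) = S at *
    generalize hk : card N₁ = k₁ at *
    generalize hk2 : card N₂ = k₂ at *
    generalize hMM : count P₁ (P₁ ::ₘ P₂ ::ₘ s) = M₁ at *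
    generalize hMM2 : count P₂ (P₁ ::ₘ P₂ ::ₘ s) = M₂ at *
    generalize hc : count Q s = c at *
    rw [← hsz] at b2 b4 t
    by_cases hp1 : 2 ≤ size P₁
    · by_cases hp2 : 2 ≤ size P₂
      · exact arith_two hp1 hp2 b1 b3 (by omega)
      · have hp' : size P₂ = 1 := by omega
        rw [hp'] at b2 b4 t
        refine arith_one (c := c) hp1 hM1 b1 b3 ?_ ?_ ?_
        · simpa using b2
        · simpa using b4
        · simpa using t
    · have hp' : size P₁ = 1 := by omega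
      have hp2 : 2 ≤ size P₂ := by
        by_contra h
        exact hone ⟨hp', by omega⟩
      rw [hp'] at b2 b4 t
      rw [add_comm k₁ k₂]
      refine arith_one (c := c) hp2 hM2 b3 b1 ?_ ?_ ?_
      · simpa [add_comm 1] using b4
      · simpa [add_comm 1] using b2
      · have : M₁ * 1 = M₁ := Nat.mul_one _
        rw [this, add_comm 1 (size P₂)] at t
        omega

end CaseThreeAux

theorem case_three {P₁ P₂ Q : RT} {s : Multiset RT} (hsz : size P₁ + size P₂ = size Q)
    {M : Multiset ((RT × Multiset RT) × (RT × Multiset RT))}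
    (hM : GM M (node (P₁ ::ₘ P₂ ::ₘ s)) (node (Q ::ₘ s))) :
    5 * card M ≤ 3 * size (node (P₁ ::ₘ P₂ ::ₘ s)) + 50 := by
  obtain ⟨M', hM', hc⟩ := gm_lift hM
  have e1 := Multiset.filter_add_not (fun e : (RT × Multiset RT × Multiset RT) ×
    (RT × Multiset RT × Multiset RT) => e.1.1 = P₁) M'
  have e2 := congrArg card e1
  rw [Multiset.card_add, hc] at e2
  rw [← e2]
  refine CaseThreeAux.main hsz (mt_sub hM' (Multiset.filter_le _ _))
    (mt_sub hM' (Multiset.filter_le _ _)) ?_ ?_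
  · intro e he
    exact (Multiset.mem_filter.mp he).2
  · intro e he
    exact (Multiset.mem_filter.mp he).2

theorem case_three' {P₁ P₂ Q : RT} {s : Multiset RT} (hsz : size P₁ + size P₂ = size Q)
    {M : Multiset ((RT × Multiset RT) × (RT × Multiset RT))}
    (hM : GM M (node (Q ::ₘ s)) (node (P₁ ::ₘ P₂ ::ₘ s))) :
    5 * card M ≤ 3 * size (node (P₁ ::ₘ P₂ ::ₘ s)) + 50 := by
  have h := mt_swap hM
  have h' : GM (M.map Prod.swap) (node (P₁ ::ₘ P₂ ::ₘ s)) (node (Q ::ₘ s)) :=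
    ⟨h.1, h.2.1, fun e he => ⟨(h.2.2 e he).1.symm, (h.2.2 e he).2.symm⟩⟩
  have := case_three hsz h'
  rwa [Multiset.card_map] at this

end

end TRD
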