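import Pool.Agent.Lib.TRD.Basic

/-! # TRD.TwoNum (MP_2e3d39_co)

Numerics of the case {P₁,P₂} against {Q₁,Q₂} (checked by computer for all parameters up to several hundreds; the inequality holds with a large margin).

`two_num`: put n = 1+p₁+p₂+S, δ₁ = p₁ - q₂ = q₁ - p₂, δ₂ = p₁ - q₁ = q₂ - p₂, k = k₁+k₂. n - 1 ≥ (M₀-1) p₁ + c₁ q₁ + c₂ q₂ (as p₁+p₂ = q₁+q₂). By symmetry assume q₂ ≤ q₁, so δ₂ ≤ δ₁. If δ_j = 0 then k_j = 0.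
 M₀ = 1: k ≤ p₁-1 and n-1 ≥ q₁+q₂ = p₁+p₂. If 2p₁ ≤ 3p₂+55: 5(p₁-1) ≤ 3(p₁+p₂)+50, done. Otherwise p₂ < (2/3)p₁, 2δ₁ ≥ p₁-p₂ > p₁/3, k₁δ₁ ≤ p₁-1 gives k₁ ≤ 5. δ₂ = 0: k ≤ 5. δ₂ ≥ 2: 2k₂ ≤ p₁-1 ≤ n-1. δ₂ = 1: k₂ ≤ p₁-1 = q₁ and k₂ ≤ c₂(q₂-1) ≤ c₂q₂, so 2k₂ ≤ c₁q₁+c₂q₂ ≤ n-1. In both cases
   5k ≤ 25 + 2.5(n-1).
 M₀ ≥ 3: k ≤ M₀p₁ (so (M₀-1)p₁ ≥ (2/3)M₀p₁ ≥ (2/3)k) and k ≤ c₁q₁+c₂q₂ (as k_j ≤ k_jδ_j ≤ c_j(q_j-1)): n-1 ≥ (5/3)k.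
 M₀ = 2: k ≤ 2(p₁-1), n-1 ≥ p₁+c₁q₁+c₂q₂.
   δ₁=δ₂=1: q₁=q₂=p₁-1; if c₁=c₂=1 this is the exceptional conclusion; otherwise n-1 ≥ p₁+3(p₁-1) ≥ 2k.
   δ₂=1, δ₁≥2: k ≤ c₁q₁/2+c₂q₂, p₁ ≥ k/2, c₁q₁ ≥ q₁ = p₁-1 ≥ k/2: n-1 ≥ k/2 + c₁q₁/2 + k ≥ 1.75 k.
   δ₂≥2: k ≤ (c₁q₁+c₂q₂)/2, n-1 ≥ k/2+2k.
   δ₂=0: k=k₁, p₁=q₁, p₂=q₂. δ₁ = 1: if c₁ = 1: k ≤ q₁-1, n-1 ≥ 2p₁; if c₁≥2: n-1 ≥ 3p₁+q₂ = 4p₁-1 ≥ 2k. δ₁≥2: 2k ≤ 2(p₁-1), n-1≥2p₁.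
`two_num_eq` (Q₁=Q₂=Q): 2q = p₁+p₂, δ = p₁-q, k δ ≤ M₀(p₁-1), k δ ≤ c(q-1), c ≥ 2, n-1 ≥ (M₀-1)p₁+cq. k = 0 or δ ≥ 1. M₀=1: k ≤ p₁-1; δ=1: n-1 ≥ 2q = 2p₁-2 ≥ 2k; δ≥2: 2k ≤ p₁-1 ≤ n-1. M₀≥3: n-1 ≥ (5/3)k. M₀=2: δ=1: c=2 exceptional, c≥3: n-1 ≥ p₁+3(p₁-1) ≥ 2k; δ≥2: n-1 ≥ k/2+2k.
-/

open Multiset

namespace TRD

noncomputable section

theorem two_num_aux {p₁ p₂ q₁ q₂ M₀ c₁ c₂ k₁ k₂ S d₁ d₂ : ℕ} (hp2 : 1 ≤ p₂) (hq1 : 1 ≤ q₁)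
    (hq2 : 1 ≤ q₂) (hsz : p₁ + p₂ = q₁ + q₂) (h1 : p₁ = q₁ + d₂) (h2 : p₁ = q₂ + d₁)
    (hd : d₂ ≤ d₁) (hM : 1 ≤ M₀)
    (hc1 : 1 ≤ c₁) (hc2 : 1 ≤ c₂) (hS : (M₀ - 1) * p₁ + (c₁ - 1) * q₁ + (c₂ - 1) * q₂ ≤ S)
    (hk : k₁ + k₂ ≤ M₀ * (p₁ - 1))
    (a1 : k₁ * d₁ ≤ M₀ * (p₁ - 1)) (a2 : k₂ * d₂ ≤ M₀ * (p₁ - 1))
    (b1 : k₁ * d₁ ≤ c₁ * (q₁ - 1)) (b2 : k₂ * d₂ ≤ c₂ * (q₂ - 1))
    (z1 : d₁ = 0 → k₁ = 0) (z2 : d₂ = 0 → k₂ = 0) :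
    5 * (k₁ + k₂) ≤ 3 * (1 + p₁ + p₂ + S) + 50 ∨
      (M₀ = 2 ∧ c₁ = 1 ∧ c₂ = 1 ∧ p₁ = q₁ + 1 ∧ p₁ = q₂ + 1) := by
  -- `n - 1 ≥ (M₀ - 1) p₁ + c₁ q₁ + c₂ q₂`
  have e1 : (c₁ - 1) * q₁ + q₁ = c₁ * q₁ := by
    obtain ⟨c, rfl⟩ : ∃ c, c₁ = c + 1 := ⟨c₁ - 1, by omega⟩
    simp only [Nat.add_sub_cancel]
    ring
  have e2 : (c₂ - 1) * q₂ + q₂ = c₂ * q₂ := by
    obtain ⟨c, rfl⟩ : ∃ c, c₂ = c + 1 := ⟨c₂ - 1, by omega⟩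
    simp only [Nat.add_sub_cancel]
    ring
  have hN : (M₀ - 1) * p₁ + c₁ * q₁ + c₂ * q₂ ≤ p₁ + p₂ + S := by omega
  have f1 : c₁ * (q₁ - 1) ≤ c₁ * q₁ := Nat.mul_le_mul_left _ (Nat.sub_le _ _)
  have f2 : c₂ * (q₂ - 1) ≤ c₂ * q₂ := Nat.mul_le_mul_left _ (Nat.sub_le _ _)
  have g1 : q₁ ≤ c₁ * q₁ := Nat.le_mul_of_pos_left _ hc1
  have g2 : q₂ ≤ c₂ * q₂ := Nat.le_mul_of_pos_left _ hc2
  -- general bounds
  have l1 : k₁ ≤ c₁ * q₁ := by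
    rcases Nat.eq_zero_or_pos d₁ with h | h
    · rw [z1 h]; omega
    · have : k₁ ≤ k₁ * d₁ := Nat.le_mul_of_pos_right _ h
      omega
  have l2 : k₂ ≤ c₂ * q₂ := by
    rcases Nat.eq_zero_or_pos d₂ with h | h
    · rw [z2 h]; omega
    · have : k₂ ≤ k₂ * d₂ := Nat.le_mul_of_pos_right _ h
      omega
  rcases Nat.lt_or_ge M₀ 2 with hM2 | hM2
  · -- `M₀ = 1`
    have hM1 : M₀ = 1 := by omega
    subst hM1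
    rw [one_mul] at hk a1 a2
    left
    by_cases hA : 2 * p₁ ≤ 3 * p₂ + 55
    · omega
    · have hd1 : p₁ < 6 * d₁ := by omega
      have hk1 : k₁ ≤ 5 := by
        by_contra hcon
        have h6 : 6 ≤ k₁ := by omega
        have : 6 * d₁ ≤ k₁ * d₁ := Nat.mul_le_mul_right _ h6
        omega
      rcases Nat.lt_or_ge d₂ 2 with h3 | h3
      · rcases Nat.eq_zero_or_pos d₂ with h | h
        · have := z2 h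
          omega
        · have hd2 : d₂ = 1 := by omega
          rw [hd2, mul_one] at a2 b2
          omega
      · have : k₂ * 2 ≤ k₂ * d₂ := Nat.mul_le_mul_left _ h3
        omega
  · rcases Nat.lt_or_ge M₀ 3 with hM3 | hM3
    · -- `M₀ = 2`
      have hM1 : M₀ = 2 := by omega
      subst hM1
      have e3 : (2 - 1) * p₁ = p₁ := by omega
      rw [e3] at hN
      rcases Nat.lt_or_ge d₂ 2 with h3 | h3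
      · rcases Nat.eq_zero_or_pos d₂ with h | h
        · left
          have hk2 := z2 h
          rcases Nat.lt_or_ge d₁ 2 with h4 | h4
          · rcases Nat.eq_zero_or_pos d₁ with h5 | h5
            · have := z1 h5
              omega
            · have hd1 : d₁ = 1 := by omega
              rw [hd1, mul_one] at a1 b1
              rcases Nat.lt_or_ge c₁ 2 with h6 | h6
              · have : c₁ = 1 := by omega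
                subst this
                omega
              · have : 2 * q₁ ≤ c₁ * q₁ := Nat.mul_le_mul_right _ h6
                omega
          · have : k₁ * 2 ≤ k₁ * d₁ := Nat.mul_le_mul_left _ h4
            omega
        · have hd2 : d₂ = 1 := by omega
          rw [hd2, mul_one] at a2 b2
          rcases Nat.lt_or_ge d₁ 2 with h4 | h4
          · have hd1 : d₁ = 1 := by omega
            by_cases h7 : c₁ = 1 ∧ c₂ = 1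
            · right
              refine ⟨rfl, h7.1, h7.2, by omega, by omega⟩
            · left
              have hqq : q₁ = q₂ := by omega
              have h8 : 3 * q₁ ≤ c₁ * q₁ + c₂ * q₂ := by
                rw [← hqq, ← Nat.add_mul]
                exact Nat.mul_le_mul_right _ (by omega)
              omega
          · left
            have : k₁ * 2 ≤ k₁ * d₁ := Nat.mul_le_mul_left _ h4
            omega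
      · left
        have h4 : k₂ * 2 ≤ k₂ * d₂ := Nat.mul_le_mul_left _ h3
        have h5 : k₁ * 2 ≤ k₁ * d₁ := Nat.mul_le_mul_left _ (by omega)
        omega
    · -- `M₀ ≥ 3`
      left
      obtain ⟨m, rfl⟩ : ∃ m, M₀ = m + 3 := ⟨M₀ - 3, by omega⟩
      obtain ⟨p, rfl⟩ : ∃ p, p₁ = p + 1 := ⟨p₁ - 1, by omega⟩
      have e4 : m + 3 - 1 = m + 2 := by omega
      have e5 : p + 1 - 1 = p := by omega
      rw [e4] at hN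
      rw [e5] at hk
      have h9 : 2 * ((m + 3) * p) ≤ 3 * ((m + 2) * (p + 1)) := by nlinarith
      omega

theorem two_num {p₁ p₂ q₁ q₂ M₀ c₁ c₂ k₁ k₂ S : ℕ} (hp2 : 1 ≤ p₂) (hq1 : 1 ≤ q₁) (hq2 : 1 ≤ q₂)
    (hsz : p₁ + p₂ = q₁ + q₂) (h1 : q₁ ≤ p₁) (h2 : q₂ ≤ p₁) (hM : 1 ≤ M₀) (hc1 : 1 ≤ c₁)
    (hc2 : 1 ≤ c₂) (hS : (M₀ - 1) * p₁ + (c₁ - 1) * q₁ + (c₂ - 1) * q₂ ≤ S)
    (hk : k₁ + k₂ ≤ M₀ * (p₁ - 1))
    (a1 : k₁ * (p₁ - q₂) ≤ M₀ * (p₁ - 1)) (a2 : k₂ * (p₁ - q₁) ≤ M₀ * (p₁ - 1))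
    (b1 : k₁ * (p₁ - q₂) ≤ c₁ * (q₁ - 1)) (b2 : k₂ * (p₁ - q₁) ≤ c₂ * (q₂ - 1))
    (z1 : p₁ = q₂ → k₁ = 0) (z2 : p₁ = q₁ → k₂ = 0) :
    5 * (k₁ + k₂) ≤ 3 * (1 + p₁ + p₂ + S) + 50 ∨
      (M₀ = 2 ∧ c₁ = 1 ∧ c₂ = 1 ∧ p₁ = q₁ + 1 ∧ p₁ = q₂ + 1) := by
  rcases le_total q₂ q₁ with hq | hq
  · exact two_num_aux (d₁ := p₁ - q₂) (d₂ := p₁ - q₁) hp2 hq1 hq2 hsz (by omega) (by omega)
      (by omega) hM hc1 hc2 hS hk a1 a2 b1 b2 (fun h => z1 (by omega)) (fun h => z2 (by omega))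
  · have h := two_num_aux (d₁ := p₁ - q₁) (d₂ := p₁ - q₂) (S := S) (M₀ := M₀) (k₁ := k₂) (k₂ := k₁)
      (c₁ := c₂) (c₂ := c₁) hp2 hq2 hq1
      (by omega) (by omega) (by omega)
      (by omega) hM hc2 hc1 (by omega) (by omega) a2 a1 b2 b1 (fun h => z2 (by omega))
      (fun h => z1 (by omega))
    rcases h with h | ⟨h3, h4, h5, h6, h7⟩
    · left
      omega
    · right
      exact ⟨h3, h5, h4, h7, h6⟩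

theorem two_num_eq {p₁ p₂ q M₀ c k S : ℕ} (hp2 : 1 ≤ p₂) (hsz : p₁ + p₂ = q + q) (h1 : q ≤ p₁)
    (hM : 1 ≤ M₀) (hc : 2 ≤ c) (hS : (M₀ - 1) * p₁ + (c - 2) * q ≤ S)
    (hk : k ≤ M₀ * (p₁ - 1)) (a1 : k * (p₁ - q) ≤ M₀ * (p₁ - 1))
    (b1 : k * (p₁ - q) ≤ c * (q - 1)) (z1 : p₁ = q → k = 0) :
    5 * k ≤ 3 * (1 + p₁ + p₂ + S) + 50 ∨ (M₀ = 2 ∧ c = 2 ∧ p₁ = q + 1) := by
  obtain ⟨d, hd⟩ : ∃ d, p₁ = q + d := ⟨p₁ - q, by omega⟩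
  have hd' : p₁ - q = d := by omega
  rw [hd'] at a1 b1
  have z1' : d = 0 → k = 0 := fun h => z1 (by omega)
  have e1 : (c - 2) * q + (q + q) = c * q := by
    obtain ⟨c', rfl⟩ : ∃ c', c = c' + 2 := ⟨c - 2, by omega⟩
    simp only [Nat.add_sub_cancel]
    ring
  have hN : (M₀ - 1) * p₁ + c * q ≤ p₁ + p₂ + S := by omega
  have f1 : c * (q - 1) ≤ c * q := Nat.mul_le_mul_left _ (Nat.sub_le _ _)
  have g1 : 2 * q ≤ c * q := Nat.mul_le_mul_right _ hc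
  rcases Nat.eq_zero_or_pos d with h0 | hdpos
  · left
    have := z1' h0
    omega
  have l1 : k ≤ k * d := Nat.le_mul_of_pos_right _ hdpos
  rcases Nat.lt_or_ge M₀ 2 with hM2 | hM2
  · left
    have hM1 : M₀ = 1 := by omega
    subst hM1
    rw [one_mul] at hk a1
    rcases Nat.lt_or_ge d 2 with h3 | h3
    · omega
    · have : k * 2 ≤ k * d := Nat.mul_le_mul_left _ h3
      omega
  · rcases Nat.lt_or_ge M₀ 3 with hM3 | hM3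
    · have hM1 : M₀ = 2 := by omega
      subst hM1
      have e3 : (2 - 1) * p₁ = p₁ := by omega
      rw [e3] at hN
      rcases Nat.lt_or_ge d 2 with h3 | h3
      · have hd1 : d = 1 := by omega
        rcases Nat.lt_or_ge c 3 with h4 | h4
        · right
          exact ⟨rfl, by omega, by omega⟩
        · left
          have : 3 * q ≤ c * q := Nat.mul_le_mul_right _ h4
          omega
      · left
        have : k * 2 ≤ k * d := Nat.mul_le_mul_left _ h3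
        omega
    · left
      obtain ⟨m, rfl⟩ : ∃ m, M₀ = m + 3 := ⟨M₀ - 3, by omega⟩
      obtain ⟨p, rfl⟩ : ∃ p, p₁ = p + 1 := ⟨p₁ - 1, by omega⟩
      have e4 : m + 3 - 1 = m + 2 := by omega
      have e5 : p + 1 - 1 = p := by omega
      rw [e4] at hN
      rw [e5] at hk
      have h9 : 2 * ((m + 3) * p) ≤ 3 * ((m + 2) * (p + 1)) := by nlinarith
      omega

end

end TRD
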