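import Pool.Agent.Lib.TRD.TwoPairs
import Pool.Agent.Lib.TRD.TwoNum
import Pool.Agent.Lib.TRD.Antichain
import Pool.Agent.Lib.TRD.MatchB

/-! # TRD.CaseTwo (MP_2e3d39_co)

The case {P₁,P₂} against {Q₁,Q₂}, P₁ of maximal size.

Let M be a good matching, M' its lift (`gm_lift`). If M' = 0 done. `two_pairs` for all pairs of M'. p_i = size P_i, q_j = size Q_j, M₀ = count P₁ s + 1. P₁ ≠ P₂ if M' ≠ 0.
Label bounds: the entries of ldl (P₁ ::ₘ P₂ ::ₘ s) with label P₁ and remainder {K} are M₀ copies of those of dlo P₁ with o.1 = {K}, i.e. M₀ * card ((dl P₁).filter (fun e => e.1 = K)) (P₂ ≠ P₁), and the total number of entries with label P₁ and nonempty remainder is M₀ * card (dl P₁) = M₀ (p₁ - 1) (`card_dl`).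
 `antichain_K`: (p₁ - size K) * card (filter) ≤ p₁ - 1.
Case Q₁ ≠ Q₂. M' = M₁ + M₂ (filter by t'.1 = Q₁; since Q₁ ≠ Q₂ the others have t'.1 = Q₂), k_j = card M_j. c_j = count Q_j s + 1 is the multiplicity of Q_j in Q₁ ::ₘ Q₂ ::ₘ s. Left side (`mt_card_left`): k₁ ≤ number of entries label P₁, remainder {Q₂}: k₁ (p₁ - q₂) ≤ M₀ (p₁ - 1); k₂ (p₁ - q₁) ≤ M₀ (p₁-1); k₁ + k₂ ≤ M₀ (p₁-1).
 Right side: k₁ ≤ number of entries with label Q₁ and remainder {P₂}: k₁ (q₁ - p₂) ≤ c₁ (q₁-1) and q₁ - p₂ = p₁ - q₂; k₂ (q₂ - p₂) ≤ c₂ (q₂ - 1), q₂ - p₂ = p₁ - q₁. If p₁ = q₂ then k₁ = 0 (an entry of P₁ with remainder {Q₂} has size Q₂ < size P₁, `dlo_size`), same for k₂. sz s ≥ (M₀-1)p₁ + (c₁-1)q₁ + (c₂-1)q₂ because P₁, Q₁, Q₂ are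
 different trees (replicate (count ..) .. ≤ s, sum of the three ≤ s). `two_num` with S = sz s. In the exceptional case count P₁ s = 1, so s = P₁ ::ₘ s'; g = q₁ = q₂, p₁ = g+1, p₂ = g-1: Fat.base gives Fat g (sz s') (after reordering), and k₁ ≤ q₁ - 1, k₂ ≤ q₂ - 1 (right side: c_j = 1, number of entries with nonempty remainder of Q_j is q_j - 1), so card M + 2 ≤ 2g.
Case Q₁ = Q₂ = Q: all pairs have t'.1 = Q, t.2.1 = {Q}; c = count Q s + 2; `two_num_eq`; exceptional: count P₁ s = 1, c = 2, card M ≤ 2 (q-1).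
-/

open Multiset

namespace TRD

noncomputable section

namespace CaseTwoAux

theorem card_filter_label (m : Multiset RT) (P K : RT) :
    card ((ldl m).filter (fun t => t.1 = P ∧ t.2.1 = {K})) =
      count P m * card ((dl P).filter (fun e => e.1 = K)) := by
  induction m using Multiset.induction_on with
  | empty => simp [ldl]
  | cons y m ih =>
    rw [ldl_cons, Multiset.filter_add, card_add, ih, Multiset.count_cons, Nat.add_mul, Nat.add_comm]
    congr 1
    by_cases h : P = y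
    · subst h
      rw [if_pos rfl, one_mul]
      unfold dlo
      rw [Multiset.map_cons, Multiset.filter_cons_of_neg, Multiset.map_map, Multiset.filter_map,
        card_map]
      · congr 1
        apply Multiset.filter_congr
        intro e _
        simp only [Function.comp, true_and, Multiset.singleton_inj]
      · rintro ⟨_, h2⟩
        have := congrArg card h2
        simp at this
    · rw [if_neg h, zero_mul]
      rw [Multiset.card_eq_zero, Multiset.filter_eq_nil]
      intro t ht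
      rw [Multiset.mem_map] at ht
      obtain ⟨o, _, rfl⟩ := ht
      rintro ⟨h1, _⟩
      exact h h1.symm

theorem card_filter_le (m : Multiset RT) (P : RT) :
    card ((ldl m).filter (fun t => t.1 = P ∧ t.2.1 ≠ 0)) ≤ count P m * card (dl P) := by
  induction m using Multiset.induction_on with
  | empty => simp [ldl]
  | cons y m ih =>
    rw [ldl_cons, Multiset.filter_add, card_add, Multiset.count_cons, Nat.add_mul]
    have h2 : card (filter (fun t : RT × Multiset RT × Multiset RT => t.1 = P ∧ t.2.1 ≠ 0)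
        (map (fun o => (y, o)) (dlo y))) ≤ (if P = y then 1 else 0) * card (dl P) := by
      by_cases h : P = y
      · subst h
        rw [if_pos rfl, one_mul]
        unfold dlo
        rw [Multiset.map_cons, Multiset.filter_cons_of_neg]
        · refine (Multiset.card_le_card (Multiset.filter_le _ _)).trans ?_
          rw [card_map, card_map]
        · rintro ⟨_, h2⟩
          exact h2 rfl
      · rw [if_neg h, zero_mul, Nat.le_zero, Multiset.card_eq_zero, Multiset.filter_eq_nil]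
        intro t ht
        rw [Multiset.mem_map] at ht
        obtain ⟨o, _, rfl⟩ := ht
        rintro ⟨h1, _⟩
        exact h h1.symm
    omega

theorem sz_two_le (s : Multiset RT) (A B : RT) (h : A ≠ B) :
    count A s * size A + count B s * size B ≤ sz s := by
  induction s using Multiset.induction_on with
  | empty => simp [sz_zero]
  | cons y s ih =>
    rw [sz_cons, Multiset.count_cons, Multiset.count_cons, Nat.add_mul, Nat.add_mul]
    by_cases h1 : A = y
    · have h2 : ¬ B = y := fun h2 => h (h1.trans h2.symm)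
      rw [if_pos h1, if_neg h2, ← h1]
      omega
    · by_cases h2 : B = y
      · rw [if_neg h1, if_pos h2, ← h2]
        omega
      · rw [if_neg h1, if_neg h2]
        omega

theorem sz_three_le (s : Multiset RT) (A B C : RT) (h : A ≠ B) (h' : A ≠ C) (h'' : B ≠ C) :
    count A s * size A + count B s * size B + count C s * size C ≤ sz s := by
  induction s using Multiset.induction_on with
  | empty => simp [sz_zero]
  | cons y s ih =>
    rw [sz_cons, Multiset.count_cons, Multiset.count_cons, Multiset.count_cons, Nat.add_mul,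
      Nat.add_mul, Nat.add_mul]
    by_cases h1 : A = y
    · have h2 : ¬ B = y := fun h2 => h (h1.trans h2.symm)
      have h3 : ¬ C = y := fun h3 => h' (h1.trans h3.symm)
      rw [if_pos h1, if_neg h2, if_neg h3, ← h1]
      omega
    · by_cases h2 : B = y
      · have h3 : ¬ C = y := fun h3 => h'' (h2.trans h3.symm)
        rw [if_neg h1, if_pos h2, if_neg h3, ← h2]
        omega
      · by_cases h3 : C = y
        · rw [if_neg h1, if_neg h2, if_pos h3, ← h3]
          omega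
        · rw [if_neg h1, if_neg h2, if_neg h3]
          omega

/-- bound from labels and remainders -/
theorem lab_bound {k c a p d : ℕ} (h1 : k ≤ c * a) (h2 : d * a + 1 ≤ p) :
    k * d ≤ c * (p - 1) := by
  have h3 : d * a ≤ p - 1 := by omega
  calc k * d ≤ c * a * d := Nat.mul_le_mul_right d h1
    _ = c * (d * a) := by ring
    _ ≤ c * (p - 1) := Nat.mul_le_mul_left c h3

variable {m m' : Multiset RT}
  {N N' : Multiset ((RT × Multiset RT × Multiset RT) × (RT × Multiset RT × Multiset RT))}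

theorem bd_left {r} (hN : Mt N (ldl m) (ldl m') r) (hle : N' ≤ N) {P K : RT}
    (h : ∀ e ∈ N', e.1.1 = P ∧ e.1.2.1 = {K}) :
    card N' * (size P - size K) ≤ count P m * (size P - 1) := by
  have h1 := mt_card_left hN hle (fun t => t.1 = P ∧ t.2.1 = {K}) h
  rw [card_filter_label] at h1
  exact lab_bound h1 (antichain_K P K)

theorem bd_right {r} (hN : Mt N (ldl m) (ldl m') r) (hle : N' ≤ N) {P K : RT}
    (h : ∀ e ∈ N', e.2.1 = P ∧ e.2.2.1 = {K}) :
    card N' * (size P - size K) ≤ count P m' * (size P - 1) := by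
  have h1 := mt_card_right hN hle (fun t => t.1 = P ∧ t.2.1 = {K}) h
  rw [card_filter_label] at h1
  exact lab_bound h1 (antichain_K P K)

theorem bd_all {r} (hN : Mt N (ldl m) (ldl m') r) {P : RT}
    (h : ∀ e ∈ N, e.1.1 = P ∧ e.1.2.1 ≠ 0) :
    card N ≤ count P m * (size P - 1) := by
  have h1 := mt_card_left hN le_rfl (fun t => t.1 = P ∧ t.2.1 ≠ 0) h
  have h2 := card_filter_le m P
  have h3 := card_dl P
  have h4 : card (dl P) = size P - 1 := by omega
  rw [h4] at h2
  exact h1.trans h2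

theorem bd_zero {r} (hN : Mt N (ldl m) (ldl m') r) (hle : N' ≤ N) {P K : RT}
    (h : ∀ e ∈ N', e.1.1 = P ∧ e.1.2.1 = {K}) (hs : size P = size K) : card N' = 0 := by
  rw [Multiset.card_eq_zero]
  by_contra h0
  obtain ⟨e, he⟩ := Multiset.exists_mem_of_ne_zero h0
  obtain ⟨h1, h2⟩ := h e he
  have h3 : e.1 ∈ ldl m := Multiset.mem_of_le hN.1
    (Multiset.mem_map_of_mem _ (Multiset.mem_of_le hle he))
  have h4 := dlo_size (mem_ldl.1 h3).2
  rw [h1, h2, sz_singleton] at h4
  omega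

end CaseTwoAux

open CaseTwoAux

theorem case_two {P₁ P₂ Q₁ Q₂ : RT} {s : Multiset RT}
    (hsz : size P₁ + size P₂ = size Q₁ + size Q₂) (h1 : size Q₁ ≤ size P₁)
    (h2 : size Q₂ ≤ size P₁) (d11 : P₁ ≠ Q₁) (d12 : P₁ ≠ Q₂) (d21 : P₂ ≠ Q₁) (d22 : P₂ ≠ Q₂)
    {M : Multiset ((RT × Multiset RT) × (RT × Multiset RT))}
    (hM : GM M (node (P₁ ::ₘ P₂ ::ₘ s)) (node (Q₁ ::ₘ Q₂ ::ₘ s))) :
    5 * card M ≤ 3 * size (node (P₁ ::ₘ P₂ ::ₘ s)) + 50 ∨
    ∃ g e, Fat g e (node (P₁ ::ₘ P₂ ::ₘ s)) (node (Q₁ ::ₘ Q₂ ::ₘ s)) ∧ card M + 2 ≤ 2 * g := by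
  obtain ⟨N, hN, hc⟩ := gm_lift hM
  rw [← hc]
  have hp1 := size_pos P₁
  have hp2 := size_pos P₂
  have hq1 := size_pos Q₁
  have hq2 := size_pos Q₂
  by_cases hN0 : N = 0
  · left
    rw [hN0, card_zero]
    omega
  have hall : ∀ e ∈ N, P₁ ≠ P₂ ∧ e.1.1 = P₁ ∧ e.2.2.1 = {P₂} ∧
      ((e.2.1 = Q₁ ∧ e.1.2.1 = {Q₂}) ∨ (e.2.1 = Q₂ ∧ e.1.2.1 = {Q₁})) := by
    intro e he
    exact two_pairs hsz h1 h2 d11 d12 d21 d22
      (Multiset.mem_of_le hN.1 (Multiset.mem_map_of_mem _ he))
      (Multiset.mem_of_le hN.2.1 (Multiset.mem_map_of_mem _ he)) (hN.2.2 e he)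
  obtain ⟨e0, he0⟩ := Multiset.exists_mem_of_ne_zero hN0
  have hP : P₁ ≠ P₂ := (hall e0 he0).1
  have hsize : size (node (P₁ ::ₘ P₂ ::ₘ s)) = 1 + size P₁ + size P₂ + sz s := by
    rw [size_node, sz_cons, sz_cons]
    omega
  have hcP : count P₁ (P₁ ::ₘ P₂ ::ₘ s) = count P₁ s + 1 := by
    rw [Multiset.count_cons_self, Multiset.count_cons_of_ne hP]
  have hk : card N ≤ (count P₁ s + 1) * (size P₁ - 1) := by
    rw [← hcP]
    apply bd_all hN
    intro e he
    obtain ⟨_, h3, _, h4⟩ := hall e he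
    refine ⟨h3, ?_⟩
    rcases h4 with ⟨_, h4⟩ | ⟨_, h4⟩ <;> rw [h4] <;> exact Multiset.singleton_ne_zero _
  rw [hsize]
  by_cases hQ : Q₁ = Q₂
  · subst hQ
    have hcQ : count Q₁ (Q₁ ::ₘ Q₁ ::ₘ s) = count Q₁ s + 2 := by
      rw [Multiset.count_cons_self, Multiset.count_cons_self]
    have hall' : ∀ e ∈ N, e.1.1 = P₁ ∧ e.1.2.1 = {Q₁} ∧ e.2.1 = Q₁ ∧ e.2.2.1 = {P₂} := by
      intro e he
      obtain ⟨_, h3, h5, h4⟩ := hall e he
      rcases h4 with ⟨h6, h4⟩ | ⟨h6, h4⟩
      · exact ⟨h3, h4, h6, h5⟩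
      · exact ⟨h3, h4, h6, h5⟩
    have a1 := bd_left hN le_rfl (P := P₁) (K := Q₁) fun e he => ⟨(hall' e he).1, (hall' e he).2.1⟩
    have b1 := bd_right hN le_rfl (P := Q₁) (K := P₂)
      fun e he => ⟨(hall' e he).2.2.1, (hall' e he).2.2.2⟩
    have z1 : size P₁ = size Q₁ → card N = 0 := bd_zero hN le_rfl (P := P₁) (K := Q₁)
      fun e he => ⟨(hall' e he).1, (hall' e he).2.1⟩
    have hS := sz_two_le s P₁ Q₁ d11
    rw [hcP] at a1
    have hd : size Q₁ - size P₂ = size P₁ - size Q₁ := by omega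
    rw [hcQ, hd] at b1
    have key := two_num_eq (p₁ := size P₁) (p₂ := size P₂) (q := size Q₁) (M₀ := count P₁ s + 1)
      (c := count Q₁ s + 2) (k := card N) (S := sz s) hp2 hsz h1 (by omega) (by omega)
      (by simpa using hS) hk a1 b1 z1
    rcases key with key | ⟨k1, k2, k3⟩
    · exact Or.inl key
    · right
      have hmem : P₁ ∈ s := by
        rw [← Multiset.count_pos]
        omega
      obtain ⟨s', rfl⟩ := Multiset.exists_cons_of_mem hmem
      refine ⟨size Q₁, sz s', ?_, ?_⟩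
      · rw [Multiset.cons_swap P₂ P₁ s', Multiset.cons_swap Q₁ P₁ s',
          Multiset.cons_swap Q₁ P₁ (Q₁ ::ₘ s')]
        exact Fat.base P₁ P₂ Q₁ Q₁ s' k3 (by omega) rfl rfl
      · rw [k2] at b1
        have h3 : size P₁ - size Q₁ = 1 := by omega
        rw [h3] at b1
        omega
  · have hcQ1 : count Q₁ (Q₁ ::ₘ Q₂ ::ₘ s) = count Q₁ s + 1 := by
      rw [Multiset.count_cons_self, Multiset.count_cons_of_ne hQ]
    have hcQ2 : count Q₂ (Q₁ ::ₘ Q₂ ::ₘ s) = count Q₂ s + 1 := by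
      rw [Multiset.count_cons_of_ne (Ne.symm hQ), Multiset.count_cons_self]
    have hN1 : N.filter (fun e => e.2.1 = Q₁) ≤ N := Multiset.filter_le _ _
    have hN2 : N.filter (fun e => ¬ e.2.1 = Q₁) ≤ N := Multiset.filter_le _ _
    have hsum : card (N.filter (fun e => e.2.1 = Q₁)) + card (N.filter (fun e => ¬ e.2.1 = Q₁))
        = card N := by
      rw [← card_add, Multiset.filter_add_not]
    have all1 : ∀ e ∈ N.filter (fun e => e.2.1 = Q₁),
        e.1.1 = P₁ ∧ e.1.2.1 = {Q₂} ∧ e.2.1 = Q₁ ∧ e.2.2.1 = {P₂} := by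
      intro e he
      rw [Multiset.mem_filter] at he
      obtain ⟨_, h3, h5, h4⟩ := hall e he.1
      rcases h4 with ⟨h6, h4⟩ | ⟨h6, h4⟩
      · exact ⟨h3, h4, h6, h5⟩
      · exact absurd (he.2.symm.trans h6) hQ
    have all2 : ∀ e ∈ N.filter (fun e => ¬ e.2.1 = Q₁),
        e.1.1 = P₁ ∧ e.1.2.1 = {Q₁} ∧ e.2.1 = Q₂ ∧ e.2.2.1 = {P₂} := by
      intro e he
      rw [Multiset.mem_filter] at he
      obtain ⟨_, h3, h5, h4⟩ := hall e he.1
      rcases h4 with ⟨h6, h4⟩ | ⟨h6, h4⟩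
      · exact absurd h6 he.2
      · exact ⟨h3, h4, h6, h5⟩
    have a1 := bd_left hN hN1 (P := P₁) (K := Q₂) fun e he => ⟨(all1 e he).1, (all1 e he).2.1⟩
    have b1 := bd_right hN hN1 (P := Q₁) (K := P₂)
      fun e he => ⟨(all1 e he).2.2.1, (all1 e he).2.2.2⟩
    have z1 : size P₁ = size Q₂ → card (N.filter (fun e => e.2.1 = Q₁)) = 0 :=
      bd_zero hN hN1 (P := P₁) (K := Q₂) fun e he => ⟨(all1 e he).1, (all1 e he).2.1⟩
    have a2 := bd_left hN hN2 (P := P₁) (K := Q₁) fun e he => ⟨(all2 e he).1, (all2 e he).2.1⟩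
    have b2 := bd_right hN hN2 (P := Q₂) (K := P₂)
      fun e he => ⟨(all2 e he).2.2.1, (all2 e he).2.2.2⟩
    have z2 : size P₁ = size Q₁ → card (N.filter (fun e => ¬ e.2.1 = Q₁)) = 0 :=
      bd_zero hN hN2 (P := P₁) (K := Q₁) fun e he => ⟨(all2 e he).1, (all2 e he).2.1⟩
    have hS := sz_three_le s P₁ Q₁ Q₂ d11 d12 hQ
    rw [hcP] at a1 a2
    have hd1 : size Q₁ - size P₂ = size P₁ - size Q₂ := by omega
    have hd2 : size Q₂ - size P₂ = size P₁ - size Q₁ := by omega
    rw [hcQ1, hd1] at b1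
    rw [hcQ2, hd2] at b2
    rw [← hsum] at hk
    have key := two_num (p₁ := size P₁) (p₂ := size P₂) (q₁ := size Q₁) (q₂ := size Q₂)
      (M₀ := count P₁ s + 1) (c₁ := count Q₁ s + 1) (c₂ := count Q₂ s + 1)
      (k₁ := card (N.filter (fun e => e.2.1 = Q₁)))
      (k₂ := card (N.filter (fun e => ¬ e.2.1 = Q₁))) (S := sz s) hp2 hq1 hq2 hsz h1 h2
      (by omega) (by omega) (by omega) (by simpa using hS) hk a1 a2 b1 b2 z1 z2
    rw [hsum] at key
    rcases key with key | ⟨k1, k2, k3, k4, k5⟩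
    · exact Or.inl key
    · right
      have hmem : P₁ ∈ s := by
        rw [← Multiset.count_pos]
        omega
      obtain ⟨s', rfl⟩ := Multiset.exists_cons_of_mem hmem
      refine ⟨size Q₁, sz s', ?_, ?_⟩
      · rw [Multiset.cons_swap P₂ P₁ s', Multiset.cons_swap Q₂ P₁ s',
          Multiset.cons_swap Q₁ P₁ (Q₂ ::ₘ s')]
        exact Fat.base P₁ P₂ Q₁ Q₂ s' k4 (by omega) rfl (by omega)
      · rw [k2] at b1
        rw [k3] at b2
        have h3 : size P₁ - size Q₂ = 1 := by omega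
        have h4 : size P₁ - size Q₁ = 1 := by omega
        rw [h3] at b1
        rw [h4] at b2
        rw [← hsum]
        omega

end

end TRD
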