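import Pool.Agent.Lib.TRD.Basic

/-! # TRD.CcEx (MP_2e3d39_co)

The centre of a tree: a complete invariant of the unrooted tree (rooted form at the centre, diameter).

Construction. c : RT → RT × ℕ by recursion on the height (well-founded on ht, or fuel = ht). If ch x = 0: c x = (x, 0). Otherwise choose y ∈ ch x with ht y + 1 = hb (ch x)
(`hb_attained`), A = (ch x).erase y. If hb A = ht y + 1: c x = (x, 2 (ht y + 1)). If hb A = ht y: c x = (node {y, node A}, 2 ht y + 1). If hb A < ht y: c x = c (node (node A ::ₘ ch y)); its height is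
max (hb A + 1) (ht y) ≤ ht y < ht x. If hb A ≤ ht y then y is the unique highest child, so the choice does not matter: c x is given by these formulas for EVERY decomposition ch x = y ::ₘ A with
hb A ≤ ht y (all elements w of A have ht w + 1 ≤ hb A ≤ ht y, so the chosen highest child is y, and A the rest).
Invariance under flips: x = node (node B ::ₘ A), x' = node (node A ::ₘ B). ht (node B) = hb B. If hb B > hb A: decomposition ch x = node B ::ₘ A with hb A < ht (node B), so c x = c (node (node A ::ₘ ch (node B))) = c x'.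
If hb B < hb A: symmetric. If hb B = hb A: both are (node {node B, node A}, 2 hb B + 1) (`Multiset.pair_comm`). So c lifts to Cls = Quot Flip.
Property 2: y₁, y₂ of the same maximal height: for the chosen y (height = ht y₁) the rest still contains an element of that height, so hb A = ht y + 1. Property 3 is the formula. Property 4: induction on ht x.
-/

open Multiset

namespace TRD

noncomputable section

theorem ccx_hb_erase {y : RT} {m : Multiset RT} (h : y ∈ m) :
    hb m = max (ht y + 1) (hb (m.erase y)) := by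
  rw [← hb_cons, Multiset.cons_erase h]

/-- centre form and diameter, on rooted trees -/
def ccx (x : RT) : RT × ℕ :=
  if h : ch x = 0 then (x, 0) else
    if h1 : hb ((ch x).erase (hb_attained h).choose) = ht (hb_attained h).choose + 1 then
      (x, 2 * (ht (hb_attained h).choose + 1))
    else if h2 : hb ((ch x).erase (hb_attained h).choose) = ht (hb_attained h).choose then
      (node {(hb_attained h).choose, node ((ch x).erase (hb_attained h).choose)},
        2 * ht (hb_attained h).choose + 1)
    else ccx (node (node ((ch x).erase (hb_attained h).choose) ::ₘ ch (hb_attained h).choose))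
termination_by ht x
decreasing_by
  have hs := (hb_attained h).choose_spec
  have h3 := ccx_hb_erase hs.1
  rw [ht_node, hb_cons, ht_node, ht_eq x, ← ht_eq (hb_attained h).choose]
  omega

theorem ccx_zero : ccx (node 0) = (node 0, 0) := by
  rw [ccx]
  rw [dif_pos (ch_node 0)]

theorem ccx_form (x y : RT) (A : Multiset RT) (hx : ch x = y ::ₘ A) (hA : hb A ≤ ht y) :
    ccx x = if hb A = ht y then (node {y, node A}, 2 * ht y + 1)
      else ccx (node (node A ::ₘ ch y)) := by
  have h : ch x ≠ 0 := by rw [hx]; exact Multiset.cons_ne_zero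
  have hs := (hb_attained h).choose_spec
  have hy : (hb_attained h).choose = y := by
    obtain ⟨h1, h2⟩ := hs
    have h3 : hb (ch x) = max (ht y + 1) (hb A) := by rw [hx, hb_cons]
    generalize (hb_attained h).choose = y' at h1 h2
    rw [hx, Multiset.mem_cons] at h1
    rcases h1 with h1 | h1
    · exact h1
    · have := ht_lt_hb h1
      omega
  have hE : (ch x).erase (hb_attained h).choose = A := by
    rw [hy, hx, Multiset.erase_cons_head]
  rw [ccx, dif_neg h, hE, hy, dif_neg (by omega)]
  by_cases h2 : hb A = ht y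
  · rw [dif_pos h2, if_pos h2]
  · rw [dif_neg h2, if_neg h2]

theorem ccx_bal (y₁ y₂ : RT) (m : Multiset RT) (h12 : ht y₁ = ht y₂)
    (hm : ∀ w ∈ m, ht w ≤ ht y₁) :
    ccx (node (y₁ ::ₘ y₂ ::ₘ m)) = (node (y₁ ::ₘ y₂ ::ₘ m), 2 * (ht y₁ + 1)) := by
  have hx : ch (node (y₁ ::ₘ y₂ ::ₘ m)) = y₁ ::ₘ y₂ ::ₘ m := ch_node _
  have h : ch (node (y₁ ::ₘ y₂ ::ₘ m)) ≠ 0 := by rw [hx]; exact Multiset.cons_ne_zero
  have hs := (hb_attained h).choose_spec
  have hmb : hb m ≤ ht y₁ + 1 := by
    by_cases h0 : m = 0
    · rw [h0, hb_zero]; omega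
    · obtain ⟨w, hw, hw2⟩ := hb_attained h0
      have := hm w hw
      omega
  have hB : hb (ch (node (y₁ ::ₘ y₂ ::ₘ m))) = ht y₁ + 1 := by
    rw [hx, hb_cons, hb_cons]
    omega
  have hyc : ht (hb_attained h).choose = ht y₁ := by
    have := hs.2
    omega
  have hE : hb ((ch (node (y₁ ::ₘ y₂ ::ₘ m))).erase (hb_attained h).choose) = ht y₁ + 1 := by
    have h3 := ccx_hb_erase hs.1
    have h4 : ht y₁ + 1 ≤ hb ((ch (node (y₁ ::ₘ y₂ ::ₘ m))).erase (hb_attained h).choose) := by
      by_cases h5 : (hb_attained h).choose = y₁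
      · rw [h5, hx, Multiset.erase_cons_head, hb_cons]
        omega
      · apply ht_lt_hb
        rw [Multiset.mem_erase_of_ne (Ne.symm h5), hx]
        exact Multiset.mem_cons_self _ _
    omega
  rw [ccx, dif_neg h, dif_pos (by rw [hE, hyc]), hyc]

theorem ccx_flip_aux (A B : Multiset RT) (h : hb A ≤ hb B) :
    ccx (node (node B ::ₘ A)) = ccx (node (node A ::ₘ B)) := by
  have h1 := ccx_form (node (node B ::ₘ A)) (node B) A (ch_node _) (by rw [ht_node]; exact h)
  rcases Nat.lt_or_ge (hb A) (hb B) with h2 | h2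
  · rw [h1, if_neg (by rw [ht_node]; omega), ch_node]
  · have h3 : hb A = hb B := le_antisymm h h2
    have h4 := ccx_form (node (node A ::ₘ B)) (node A) B (ch_node _) (by rw [ht_node]; omega)
    rw [h1, h4, if_pos (by rw [ht_node]; omega), if_pos (by rw [ht_node]; omega), ht_node, ht_node,
      h3, Multiset.pair_comm]

theorem ccx_flip (A B : Multiset RT) : ccx (node (node B ::ₘ A)) = ccx (node (node A ::ₘ B)) := by
  rcases le_total (hb A) (hb B) with h | h
  · exact ccx_flip_aux A B h
  · exact (ccx_flip_aux B A h).symm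

theorem ccx_le : ∀ n : ℕ, ∀ x : RT, ht x = n → (ccx x).2 ≤ 2 * ht x := by
  intro n
  induction n using Nat.strong_induction_on with
  | _ n ih =>
    intro x hx
    rw [ccx]
    by_cases h : ch x = 0
    · rw [dif_pos h]
      exact Nat.zero_le _
    · rw [dif_neg h]
      have hs := (hb_attained h).choose_spec
      have h3 := ccx_hb_erase hs.1
      have h4 := hs.2
      have h5 := ht_eq x
      generalize hy : (hb_attained h).choose = y at *
      split_ifs with h1 h2
      · show 2 * (ht y + 1) ≤ 2 * ht x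
        omega
      · show 2 * ht y + 1 ≤ 2 * ht x
        omega
      · have h6 : ht (node (node ((ch x).erase y) ::ₘ ch y)) ≤ ht y := by
          rw [ht_node, hb_cons, ht_node, ← ht_eq y]
          omega
        have h7 := ih (ht (node (node ((ch x).erase y) ::ₘ ch y))) (by omega) _ rfl
        omega

theorem cc_exists : ∃ cc : Cls → RT × ℕ,
    cc (cls (node 0)) = (node 0, 0) ∧
    (∀ (y₁ y₂ : RT) (m : Multiset RT), ht y₁ = ht y₂ → (∀ w ∈ m, ht w ≤ ht y₁) →
      cc (cls (node (y₁ ::ₘ y₂ ::ₘ m))) = (node (y₁ ::ₘ y₂ ::ₘ m), 2 * (ht y₁ + 1))) ∧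
    (∀ (y : RT) (A : Multiset RT), ht y = hb A →
      cc (cls (node (y ::ₘ A))) = (node {y, node A}, 2 * ht y + 1)) ∧
    (∀ x, (cc (cls x)).2 ≤ 2 * ht x) := by
  refine ⟨Quot.lift ccx (by
    rintro _ _ ⟨A, B, rfl, rfl⟩
    exact ccx_flip A B), ccx_zero, ?_, ?_, ?_⟩
  · intro y₁ y₂ m h hm
    exact ccx_bal y₁ y₂ m h hm
  · intro y A h
    show ccx (node (y ::ₘ A)) = _
    rw [ccx_form (node (y ::ₘ A)) y A (ch_node _) (by omega), if_pos h.symm]
  · intro x
    exact ccx_le _ x rfl

/-- centre form and diameter of an unrooted tree -/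
def cc : Cls → RT × ℕ := cc_exists.choose

theorem cc_zero : cc (cls (node 0)) = (node 0, 0) := cc_exists.choose_spec.1

theorem cc_bal (y₁ y₂ : RT) (m : Multiset RT) (h : ht y₁ = ht y₂) (hm : ∀ w ∈ m, ht w ≤ ht y₁) :
    cc (cls (node (y₁ ::ₘ y₂ ::ₘ m))) = (node (y₁ ::ₘ y₂ ::ₘ m), 2 * (ht y₁ + 1)) :=
  cc_exists.choose_spec.2.1 y₁ y₂ m h hm

theorem cc_edge (y : RT) (A : Multiset RT) (h : ht y = hb A) :
    cc (cls (node (y ::ₘ A))) = (node {y, node A}, 2 * ht y + 1) :=
  cc_exists.choose_spec.2.2.1 y A h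

theorem cc_le (x : RT) : (cc (cls x)).2 ≤ 2 * ht x := cc_exists.choose_spec.2.2.2 x

end

end TRD
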