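import Pool.Agent.Lib.TRD.WordA
import Pool.Agent.Lib.TRD.Basic

/-! # TRD.Chain3 (MP_2e3d39_co)

Three deletions with path results: y has one distinguished branch B.

For each k ∈ {1,2,3}: e_k ∈ dl y = (ch y).bind .. (`dl_node'` for y = node (ch y)): B_k ∈ ch y, o_k ∈ dlo B_k, e_k = (node (o_k.1 + (ch y).erase B_k), o_k.2). V_k := Vm μ i_k h. node_inj: s + V_k = o_k.1 + (ch y).erase B_k, so s + V_k + {B_k} = o_k.1 + ch y. For k ≠ l: V_k + {B_k} + o_l.1 = V_l + {B_l} + o_k.1 (add and cancel s + ch y).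
 card V_k, card o_k.1 ≤ 1; sz V_k are distinct (`Vm_inj`: V_k ≠ V_l), sz o_k.1 < size B_k (`dlo_size`).
 If B_k = B_l: V_k + o_l.1 = V_l + o_k.1 with V_k ≠ V_l, all of card ≤ 1: V_k = o_k.1 and V_l = o_l.1 (case distinction on empty / singleton).
 If B_k ≠ B_l: B_k is in V_l + {B_l} + o_k.1, not = B_l, not in o_k.1 (size): V_l = {B_k}; symmetric: V_k = {B_l}.
 All B's are equal: suppose B_k ≠ B_l, third index m. If B_m ≠ B_k: V_m = {B_k} = V_l, contradiction; so B_m = B_k ≠ B_l: V_m = {B_l} = V_k, contradiction.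
 So B_k = B, V_k = o_k.1, s = (ch y).erase B, ch y = s + {B}. o_k ∈ dlo B with o_k.1 = V_k: `mem_dlo`: V_k = 0 (then i_k ≤ h) and o_k.2 = ch B, or V_k = {f.1}, o_k.2 = f.2, f ∈ dl B. For i_k > h V_k is nonempty.
-/

open Multiset

namespace TRD

noncomputable section

namespace Chain3Aux

theorem step {y : RT} {e : RT × Multiset RT} {s V : Multiset RT} (he : e ∈ dl y)
    (hk : e.1 = node (s + V)) : ∃ (B : RT) (o : Multiset RT × Multiset RT), B ∈ ch y ∧
      o ∈ dlo B ∧ e.2 = o.2 ∧ s + V + {B} = o.1 + ch y := by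
  rw [← node_ch y, dl_node', Multiset.mem_bind] at he
  obtain ⟨B, hB, he⟩ := he
  rw [Multiset.mem_map] at he
  obtain ⟨o, ho, rfl⟩ := he
  refine ⟨B, o, hB, ho, rfl, ?_⟩
  have h1 : o.1 + (ch y).erase B = s + V := node_inj hk
  rw [← h1, add_assoc]
  congr 1
  rw [add_comm, Multiset.singleton_add, Multiset.cons_erase hB]

theorem card_cases {V : Multiset RT} (h : card V ≤ 1) : V = 0 ∨ ∃ a, V = {a} := by
  rcases Nat.eq_zero_or_pos (card V) with h0 | h0
  · exact Or.inl (Multiset.card_eq_zero.1 h0)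
  · exact Or.inr (Multiset.card_eq_one.1 (by omega))

theorem same {V V' o o' : Multiset RT} (hV : card V ≤ 1) (hV' : card V' ≤ 1) (ho : card o ≤ 1)
    (ho' : card o' ≤ 1) (hne : V ≠ V') (h : V + o' = V' + o) : V = o ∧ V' = o' := by
  have hc := congrArg card h
  rw [card_add, card_add] at hc
  rcases card_cases hV with rfl | ⟨a, rfl⟩
  · rcases card_cases hV' with rfl | ⟨b, rfl⟩
    · exact absurd rfl hne
    · rw [card_zero, card_singleton] at hc
      have h0 : o = 0 := Multiset.card_eq_zero.1 (by omega)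
      subst h0
      rw [zero_add, add_zero] at h
      exact ⟨rfl, h.symm⟩
  · rcases card_cases hV' with rfl | ⟨b, rfl⟩
    · rw [card_zero, card_singleton] at hc
      have h0 : o' = 0 := Multiset.card_eq_zero.1 (by omega)
      subst h0
      rw [zero_add, add_zero] at h
      exact ⟨h, rfl⟩
    · have hab : a ≠ b := fun h' => hne (by rw [h'])
      have h1 : a ∈ ({b} : Multiset RT) + o := by
        rw [← h]
        exact Multiset.mem_add.2 (Or.inl (Multiset.mem_singleton_self a))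
      rcases Multiset.mem_add.1 h1 with h2 | h2
      · exact absurd (Multiset.mem_singleton.1 h2) hab
      · rcases card_cases ho with rfl | ⟨c, rfl⟩
        · simp at h2
        · have h3 := Multiset.mem_singleton.1 h2
          subst h3
          refine ⟨rfl, ?_⟩
          rw [add_comm] at h
          exact (add_right_cancel h).symm

theorem notMem {B : RT} {o : Multiset RT × Multiset RT} (ho : o ∈ dlo B) : B ∉ o.1 := by
  intro h
  have h1 := size_le_sz h
  have h2 := dlo_size ho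
  omega

theorem diff {V V' : Multiset RT} {B B' : RT} {o o' : Multiset RT × Multiset RT}
    (hV' : card V' ≤ 1) (ho : o ∈ dlo B) (hne : B ≠ B')
    (h : V + {B} + o'.1 = V' + {B'} + o.1) : V' = {B} := by
  have h1 : B ∈ V' + {B'} + o.1 := by
    rw [← h]
    exact Multiset.mem_add.2 (Or.inl (Multiset.mem_add.2 (Or.inr (Multiset.mem_singleton_self B))))
  rcases Multiset.mem_add.1 h1 with h2 | h2
  · rcases Multiset.mem_add.1 h2 with h3 | h3
    · rcases card_cases hV' with rfl | ⟨c, rfl⟩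
      · simp at h3
      · rw [Multiset.mem_singleton.1 h3]
    · exact absurd (Multiset.mem_singleton.1 h3) hne
  · exact absurd h2 (notMem ho)

theorem rel {s m V V' o o' : Multiset RT} {B B' : RT} (h : s + V + {B} = o + m)
    (h' : s + V' + {B'} = o' + m) : V + {B} + o' = V' + {B'} + o := by
  have h1 : s + m + (V + {B} + o') = s + m + (V' + {B'} + o) := by
    calc s + m + (V + {B} + o') = (s + V + {B}) + (o' + m) := by abel
      _ = (o + m) + (s + V' + {B'}) := by rw [h, h']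
      _ = s + m + (V' + {B'} + o) := by abel
  exact add_left_cancel h1

end Chain3Aux

open Chain3Aux in
theorem chain3 {μ : ℕ → Multiset RT} {h i₁ i₂ i₃ : ℕ} {s : Multiset RT} {y : RT}
    {e₁ e₂ e₃ : RT × Multiset RT} (h1 : h ≤ i₁) (h12 : i₁ < i₂) (h23 : i₂ < i₃)
    (he1 : e₁ ∈ dl y) (he2 : e₂ ∈ dl y) (he3 : e₃ ∈ dl y)
    (hk1 : e₁.1 = node (s + Vm μ i₁ h)) (hk2 : e₂.1 = node (s + Vm μ i₂ h))
    (hk3 : e₃.1 = node (s + Vm μ i₃ h)) :
    ∃ B : RT, ch y = s + {B} ∧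
      ((i₁ = h ∧ e₁.2 = ch B) ∨ (h < i₁ ∧ ∃ f ∈ dl B, Vm μ i₁ h = {f.1} ∧ e₁.2 = f.2)) ∧
      (∃ f ∈ dl B, Vm μ i₂ h = {f.1} ∧ e₂.2 = f.2) ∧
      (∃ f ∈ dl B, Vm μ i₃ h = {f.1} ∧ e₃.2 = f.2) := by
  obtain ⟨B1, o1, hB1, ho1, r1, q1⟩ := step he1 hk1
  obtain ⟨B2, o2, hB2, ho2, r2, q2⟩ := step he2 hk2
  obtain ⟨B3, o3, hB3, ho3, r3, q3⟩ := step he3 hk3
  have c1 := card_Vm_le μ i₁ h
  have c2 := card_Vm_le μ i₂ h
  have c3 := card_Vm_le μ i₃ h
  have n12 : Vm μ i₁ h ≠ Vm μ i₂ h := fun h' => by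
    have := Vm_inj μ h1 (by omega) h'
    omega
  have n13 : Vm μ i₁ h ≠ Vm μ i₃ h := fun h' => by
    have := Vm_inj μ h1 (by omega) h'
    omega
  have n23 : Vm μ i₂ h ≠ Vm μ i₃ h := fun h' => by
    have := Vm_inj μ (by omega : h ≤ i₂) (by omega) h'
    omega
  have e12 := rel q1 q2
  have e13 := rel q1 q3
  have e23 := rel q2 q3
  have d12 : B1 = B2 := by
    by_contra hne
    have a1 : Vm μ i₂ h = {B1} := diff (o' := o2) c2 ho1 hne e12
    have a2 : Vm μ i₁ h = {B2} := diff (o' := o1) c1 ho2 (Ne.symm hne) e12.symm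
    by_cases h3 : B3 = B1
    · have a3 : Vm μ i₃ h = {B2} :=
        diff (o' := o3) c3 ho2 (fun h' => hne (h3.symm.trans h'.symm ▸ rfl)) e23
      exact n13 (a2.trans a3.symm)
    · have a3 : Vm μ i₃ h = {B1} := diff (o' := o3) c3 ho1 (Ne.symm h3) e13
      exact n23 (a1.trans a3.symm)
  have d13 : B1 = B3 := by
    by_contra hne
    have a1 : Vm μ i₃ h = {B1} := diff (o' := o3) c3 ho1 hne e13
    have a2 : Vm μ i₁ h = {B3} := diff (o' := o1) c1 ho3 (Ne.symm hne) e13.symm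
    by_cases h3 : B2 = B1
    · have a3 : Vm μ i₂ h = {B3} :=
        diff (o' := o2) c2 ho3 (fun h' => hne (h'.trans h3).symm) e23.symm
      exact n12 (a2.trans a3.symm)
    · have a3 : Vm μ i₂ h = {B1} := diff (o' := o2) c2 ho1 (Ne.symm h3) e12
      exact n23 (a3.trans a1.symm)
  subst d12
  subst d13
  have f12 : Vm μ i₁ h + o2.1 = Vm μ i₂ h + o1.1 := by
    have h' : ({B1} : Multiset RT) + (Vm μ i₁ h + o2.1) = {B1} + (Vm μ i₂ h + o1.1) := by
      calc ({B1} : Multiset RT) + (Vm μ i₁ h + o2.1) = Vm μ i₁ h + {B1} + o2.1 := by abel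
        _ = Vm μ i₂ h + {B1} + o1.1 := e12
        _ = {B1} + (Vm μ i₂ h + o1.1) := by abel
    exact add_left_cancel h'
  have f13 : Vm μ i₁ h + o3.1 = Vm μ i₃ h + o1.1 := by
    have h' : ({B1} : Multiset RT) + (Vm μ i₁ h + o3.1) = {B1} + (Vm μ i₃ h + o1.1) := by
      calc ({B1} : Multiset RT) + (Vm μ i₁ h + o3.1) = Vm μ i₁ h + {B1} + o3.1 := by abel
        _ = Vm μ i₃ h + {B1} + o1.1 := e13
        _ = {B1} + (Vm μ i₃ h + o1.1) := by abel
    exact add_left_cancel h'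
  obtain ⟨g1, g2⟩ := same c1 c2 (dlo_card ho1) (dlo_card ho2) n12 f12
  obtain ⟨-, g3⟩ := same c1 c3 (dlo_card ho1) (dlo_card ho3) n13 f13
  have hs : ch y = s + {B1} := by
    have h' : o1.1 + ch y = o1.1 + (s + {B1}) := by
      rw [← q1, g1]
      abel
    exact add_left_cancel h'
  have hne0 : ∀ i, h < i → Vm μ i h ≠ 0 := by
    intro i hi h'
    rw [Vm_of_lt μ hi] at h'
    exact Multiset.singleton_ne_zero _ h'
  have key : ∀ (e : RT × Multiset RT) (o : Multiset RT × Multiset RT) (i : ℕ), h < i →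
      o ∈ dlo B1 → e.2 = o.2 → Vm μ i h = o.1 →
      ∃ f ∈ dl B1, Vm μ i h = {f.1} ∧ e.2 = f.2 := by
    intro e o i hi ho hr hg
    rcases mem_dlo.1 ho with rfl | ⟨f, hf, rfl⟩
    · exact absurd hg (hne0 i hi)
    · exact ⟨f, hf, hg, hr⟩
  refine ⟨B1, hs, ?_, key e₂ o2 i₂ (by omega) ho2 r2 g2, key e₃ o3 i₃ (by omega) ho3 r3 g3⟩
  rcases Nat.eq_or_lt_of_le h1 with h0 | h0
  · left
    refine ⟨h0.symm, ?_⟩
    rcases mem_dlo.1 ho1 with rfl | ⟨f, hf, rfl⟩
    · exact r1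
    · rw [Vm_of_le μ (le_of_eq h0.symm)] at g1
      exact absurd g1.symm (Multiset.singleton_ne_zero _)
  · right
    exact ⟨h0, key e₁ o1 i₁ h0 ho1 r1 g1⟩

end

end TRD
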