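import Pool.Agent.Lib.TRD.Chain3
import Pool.Agent.Lib.TRD.LLctx

/-! # TRD.ChainB (MP_2e3d39_co)

At most 4 path vertices can be matched well against a different rooted tree.

Lists: l h k := (List.range' h k).map μ = [μ h, ..., μ (h+k-1)]. `Vm_ctx`: for h + k < n with Vm μ n (h+k) = {v}: Vm μ n h = {Ctx (l h k) v} (induction on k, `Vm_of_lt`, Ctx (s :: l) W = node (Ctx l W ::ₘ s), node (μ h + {..}) = node ({..} + μ h)).
`chain_iter`: induction on i₁ - h. i₁ = h: Y = B. h < i₁: Vm μ i_k h = {node (μ h + Vm μ i_k (h+1))} = {f_k.1}; apply `chain3` with y := B, s := μ h, h := h+1 and f_k: ch B = μ h + {B'} and the entries for B' at h+1: induction gives B' = Ctx (l (h+1) (i₁-h-1)) Y, so B = node (ch B) = Ctx (l h (i₁-h)) Y.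
`chain_bound`: suppose Q has 5 elements i₁ < i₂ < i₃ < i₄ < i₅ (e.g. `Finset.exists_subset_card_eq` and `Finset.orderEmbOfFin`). `chain3` for (i₁,i₄,i₅) with s = s₀: ch y = s₀ + {B}; the same B for the triples (i₂,i₄,i₅), (i₃,i₄,i₅) (cancel s₀). `chain_iter` for the three triples: B = Ctx (l h (i_a - h)) Y_a, F_a = ch Y_a (a = 1,2,3), where F_a.map cls = (μ i_a + Vm μ n (i_a+1)).map cls.
 Since l h (i₂-h) = l h (i₁-h) ++ l i₁ (i₂-i₁) and Ctx is injective in the tree (`Ctx_inj`: Ctx l W = Ctx l W' → W = W', induction with node_inj and cancellation), Y₁ = Ctx (l i₁ (i₂-i₁)) Y₂ = node (Z₁ ::ₘ μ i₁) with Z₁ = Ctx (l (i₁+1) (i₂-i₁-1)) Y₂; so (ch Y₁).map cls = cls Z₁ ::ₘ (μ i₁).map cls and, with Vm μ n (i₁+1) = {V₁} (i₁+1 < n), cls Z₁ = cls V₁.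
 In the same way Y₂ = node (Z₂ ::ₘ μ i₂) (from Y₃), cls Z₂ = cls V₂, {V₂} = Vm μ n (i₂+1). Now Y₂ = Ctx [μ i₂] Z₂, so Z₁ = Ctx (l (i₁+1) (i₂-i₁)) Z₂ and V₁ = Ctx (l (i₁+1) (i₂-i₁)) V₂ (`Vm_ctx`); the list is nonempty, `ll_ctx` gives V₂ = Z₂. Hence Y₂ = element of Vm μ n i₂, B = element of Vm μ n h (`Vm_ctx`), y = node (ch y) = node (s₀ + Vm μ n h). Contradiction.
-/

open Multiset

namespace TRD

noncomputable section

private theorem add_sing (s : Multiset RT) (x : RT) : s + {x} = x ::ₘ s := by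
  rw [add_comm s {x}, Multiset.singleton_add]

theorem Ctx_inj (l : List (Multiset RT)) {W W' : RT} (h : Ctx l W = Ctx l W') : W = W' := by
  induction l with
  | nil => exact h
  | cons s l ih =>
    have h1 : Ctx l W ::ₘ s = Ctx l W' ::ₘ s := node_inj h
    exact ih ((Multiset.cons_inj_left s).1 h1)

theorem Vm_ctx (μ : ℕ → Multiset RT) {n h k : ℕ} {v : RT} (hv : Vm μ n (h + k) = {v}) :
    Vm μ n h = {Ctx ((List.range' h k).map μ) v} := by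
  induction k generalizing h with
  | zero => simpa [Ctx] using hv
  | succ k ih =>
    have h1 : Vm μ n (h + 1 + k) = {v} := by
      rw [show h + 1 + k = h + (k + 1) by omega]
      exact hv
    have h2 := ih h1
    have h3 : h < n := by
      by_contra hc
      rw [Vm_of_le μ (by omega : n ≤ h + 1)] at h2
      exact absurd h2.symm (Multiset.singleton_ne_zero _)
    rw [Vm_of_lt μ h3, h2, List.range'_succ, List.map_cons, Ctx, add_sing]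

theorem chain_iter {μ : ℕ → Multiset RT} {h i₁ i₂ i₃ : ℕ} {B : RT} {F₁ : Multiset RT}
    (h1 : h ≤ i₁) (h12 : i₁ < i₂) (h23 : i₂ < i₃)
    (hF : (i₁ = h ∧ F₁ = ch B) ∨ (h < i₁ ∧ ∃ f ∈ dl B, Vm μ i₁ h = {f.1} ∧ F₁ = f.2))
    (h2 : ∃ f ∈ dl B, Vm μ i₂ h = {f.1}) (h3 : ∃ f ∈ dl B, Vm μ i₃ h = {f.1}) :
    ∃ Y, B = Ctx ((List.range' h (i₁ - h)).map μ) Y ∧ F₁ = ch Y := by
  obtain ⟨k, hk⟩ : ∃ k, i₁ = h + k := ⟨i₁ - h, by omega⟩
  induction k generalizing h B F₁ with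
  | zero =>
    have he : i₁ = h := by omega
    subst he
    rcases hF with ⟨_, hF⟩ | ⟨hF, _⟩
    · exact ⟨B, by simp [Ctx], hF⟩
    · exact absurd hF (lt_irrefl _)
  | succ k ih =>
    have hlt : h < i₁ := by omega
    rcases hF with ⟨hF, _⟩ | ⟨_, f₁, hf₁, hV₁, hF₁⟩
    · omega
    obtain ⟨f₂, hf₂, hV₂⟩ := h2
    obtain ⟨f₃, hf₃, hV₃⟩ := h3
    rw [Vm_of_lt μ hlt] at hV₁
    rw [Vm_of_lt μ (by omega : h < i₂)] at hV₂
    rw [Vm_of_lt μ (by omega : h < i₃)] at hV₃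
    obtain ⟨B', hB', hc1, ⟨g₂, hg₂, hg₂', _⟩, ⟨g₃, hg₃, hg₃', _⟩⟩ :=
      chain3 (s := μ h) (h := h + 1) (y := B) (by omega) h12 h23 hf₁ hf₂ hf₃
        (Multiset.singleton_inj.1 hV₁).symm (Multiset.singleton_inj.1 hV₂).symm
        (Multiset.singleton_inj.1 hV₃).symm
    obtain ⟨Y, hY, hY'⟩ := ih (h := h + 1) (B := B') (F₁ := f₁.2) (by omega) hc1
      ⟨g₂, hg₂, hg₂'⟩ ⟨g₃, hg₃, hg₃'⟩ (by omega)
    refine ⟨Y, ?_, by rw [hF₁, hY']⟩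
    have e : i₁ - h = (i₁ - (h + 1)) + 1 := by omega
    rw [e, List.range'_succ, List.map_cons, Ctx, ← hY, ← node_ch B, hB', add_sing]

private theorem range_split (μ : ℕ → Multiset RT) {h i j : ℕ} (h1 : h ≤ i) (h2 : i ≤ j) :
    (List.range' h (j - h)).map μ
      = (List.range' h (i - h)).map μ ++ (List.range' i (j - i)).map μ := by
  rw [← List.map_append]
  congr 1
  have e : i = h + (i - h) := by omega
  have e2 : j - h = (i - h) + (j - i) := by omega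
  rw [e2]
  conv_rhs => rw [show List.range' i (j - i) = List.range' (h + (i - h)) (j - i) by rw [← e]]
  rw [List.range'_append_1]

theorem chain_bound {μ : ℕ → Multiset RT} {n h : ℕ} {s₀ : Multiset RT} {y : RT}
    (hne : node (s₀ + Vm μ n h) ≠ y) (Q : Finset ℕ)
    (hQ : ∀ i ∈ Q, h ≤ i ∧ i < n ∧ ∃ e ∈ dl y, e.1 = node (s₀ + Vm μ i h) ∧
      e.2.map cls = (μ i + Vm μ n (i + 1)).map cls) : Q.card ≤ 4 := by
  by_contra hcard
  have h5 : 5 ≤ Q.card := by omega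
  let o := Q.orderEmbOfFin rfl
  have hmem : ∀ k, o k ∈ Q := fun k => Finset.orderEmbOfFin_mem Q rfl k
  have hlt : ∀ a b : Fin Q.card, a < b → o a < o b := fun a b hab => o.lt_iff_lt.2 hab
  generalize hi1 : o ⟨0, by omega⟩ = i₁
  generalize hi2 : o ⟨1, by omega⟩ = i₂
  generalize hi3 : o ⟨2, by omega⟩ = i₃
  generalize hi4 : o ⟨3, by omega⟩ = i₄
  generalize hi5 : o ⟨4, by omega⟩ = i₅
  have m1 : i₁ ∈ Q := hi1 ▸ hmem _
  have m2 : i₂ ∈ Q := hi2 ▸ hmem _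
  have m3 : i₃ ∈ Q := hi3 ▸ hmem _
  have m4 : i₄ ∈ Q := hi4 ▸ hmem _
  have m5 : i₅ ∈ Q := hi5 ▸ hmem _
  have l12 : i₁ < i₂ := by rw [← hi1, ← hi2]; exact hlt _ _ (by simp [Fin.lt_def])
  have l23 : i₂ < i₃ := by rw [← hi2, ← hi3]; exact hlt _ _ (by simp [Fin.lt_def])
  have l34 : i₃ < i₄ := by rw [← hi3, ← hi4]; exact hlt _ _ (by simp [Fin.lt_def])
  have l45 : i₄ < i₅ := by rw [← hi4, ← hi5]; exact hlt _ _ (by simp [Fin.lt_def])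
  obtain ⟨_, _, e₄, he₄, hk₄, _⟩ := hQ i₄ m4
  obtain ⟨_, _, e₅, he₅, hk₅, _⟩ := hQ i₅ m5
  have key : ∀ i ∈ Q, i < i₄ → ∃ B Y : RT, ch y = s₀ + {B} ∧
      B = Ctx ((List.range' h (i - h)).map μ) Y ∧
      (ch Y).map cls = (μ i + Vm μ n (i + 1)).map cls := by
    intro i hi hi4'
    obtain ⟨hhi, _, e, he, hk, hm⟩ := hQ i hi
    obtain ⟨B, hB, hc, ⟨f₄, hf₄, hf₄', _⟩, ⟨f₅, hf₅, hf₅', _⟩⟩ :=
      chain3 hhi hi4' l45 he he₄ he₅ hk hk₄ hk₅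
    obtain ⟨Y, hY, hY'⟩ := chain_iter hhi hi4' l45 hc ⟨f₄, hf₄, hf₄'⟩ ⟨f₅, hf₅, hf₅'⟩
    exact ⟨B, Y, hB, hY, by rw [← hY', hm]⟩
  obtain ⟨B, Y₁, hB, hY₁, hc₁⟩ := key i₁ m1 (by omega)
  obtain ⟨B₂, Y₂, hB₂, hY₂, hc₂⟩ := key i₂ m2 (by omega)
  obtain ⟨B₃, Y₃, hB₃, hY₃, hc₃⟩ := key i₃ m3 (by omega)
  have eB₂ : B₂ = B := by
    rw [hB] at hB₂
    exact (Multiset.singleton_inj.1 (add_left_cancel hB₂)).symm
  have eB₃ : B₃ = B := by
    rw [hB] at hB₃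
    exact (Multiset.singleton_inj.1 (add_left_cancel hB₃)).symm
  rw [eB₂] at hY₂
  rw [eB₃] at hY₃
  obtain ⟨hh1, hn1, _⟩ := hQ i₁ m1
  obtain ⟨hh2, hn2, _⟩ := hQ i₂ m2
  obtain ⟨hh3, hn3, _⟩ := hQ i₃ m3
  have y1 : Y₁ = Ctx ((List.range' i₁ (i₂ - i₁)).map μ) Y₂ := by
    apply Ctx_inj ((List.range' h (i₁ - h)).map μ)
    rw [← Ctx_append, ← range_split μ hh1 l12.le, ← hY₂, ← hY₁]
  have y2 : Y₂ = Ctx ((List.range' i₂ (i₃ - i₂)).map μ) Y₃ := by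
    apply Ctx_inj ((List.range' h (i₂ - h)).map μ)
    rw [← Ctx_append, ← range_split μ hh2 l23.le, ← hY₃, ← hY₂]
  obtain ⟨k₁, hk₁⟩ : ∃ k, i₂ = i₁ + 1 + k := ⟨i₂ - (i₁ + 1), by omega⟩
  obtain ⟨k₂, hk₂⟩ : ∃ k, i₃ = i₂ + 1 + k := ⟨i₃ - (i₂ + 1), by omega⟩
  have one : ∀ (Y Y' : RT) (i k : ℕ), Y = Ctx ((List.range' i (k + 1)).map μ) Y' → i + 1 < n →
      (ch Y).map cls = (μ i + Vm μ n (i + 1)).map cls →
      ∃ V : RT, Vm μ n (i + 1) = {V} ∧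
        Y = node (Ctx ((List.range' (i + 1) k).map μ) Y' ::ₘ μ i) ∧
        cls (Ctx ((List.range' (i + 1) k).map μ) Y') = cls V := by
    intro Y Y' i k hY hin hc
    rw [List.range'_succ, List.map_cons, Ctx] at hY
    refine ⟨_, Vm_of_lt μ hin, hY, ?_⟩
    rw [hY, ch_node, Vm_of_lt μ hin, add_sing, Multiset.map_cons, Multiset.map_cons] at hc
    exact (Multiset.cons_inj_left _).1 hc
  obtain ⟨V₁, hV₁, _, hcls₁⟩ := one Y₁ Y₂ i₁ k₁
    (by rw [y1, show i₂ - i₁ = k₁ + 1 by omega]) (by omega) hc₁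
  obtain ⟨V₂, hV₂, hy2, hcls₂⟩ := one Y₂ Y₃ i₂ k₂
    (by rw [y2, show i₃ - i₂ = k₂ + 1 by omega]) (by omega) hc₂
  have hL : (List.range' (i₁ + 1) k₁).map μ ++ [μ i₂] = (List.range' (i₁ + 1) (k₁ + 1)).map μ := by
    rw [List.range'_concat, List.map_append, hk₁]
    simp
  have hZ : Ctx ((List.range' (i₁ + 1) k₁).map μ) Y₂
      = Ctx ((List.range' (i₁ + 1) (k₁ + 1)).map μ) (Ctx ((List.range' (i₂ + 1) k₂).map μ) Y₃) := by
    rw [← hL, Ctx_append]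
    conv_lhs => rw [hy2]
    rfl
  have hV : V₁ = Ctx ((List.range' (i₁ + 1) (k₁ + 1)).map μ) V₂ := by
    have h6 : Vm μ n (i₁ + 1 + (k₁ + 1)) = {V₂} := by
      rw [show i₁ + 1 + (k₁ + 1) = i₂ + 1 by omega]
      exact hV₂
    have h7 := Vm_ctx μ h6
    rw [hV₁] at h7
    exact Multiset.singleton_inj.1 h7
  have hfin : Ctx ((List.range' (i₂ + 1) k₂).map μ) Y₃ = V₂ := by
    refine ll_ctx (l := (List.range' (i₁ + 1) (k₁ + 1)).map μ) ?_ hcls₂ ?_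
    · rw [← hL]
      simp
    · rw [← hZ, ← hV]
      exact hcls₁
  have hVm2 : Vm μ n (h + (i₂ - h)) = {Y₂} := by
    rw [show h + (i₂ - h) = i₂ by omega, Vm_of_lt μ hn2, hV₂, hy2, hfin, add_sing]
  have h8 := Vm_ctx μ hVm2
  rw [← hY₂] at h8
  apply hne
  rw [h8, ← hB, node_ch]

end

end TRD
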