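import Pool.Agent.Lib.TRD.Basic

/-! # TRD.MatchA (MP_2e3d39_co)

Matchings between multisets: intersection, lifting through maps, splitting. General facts.

* `mt_inter`: M = (A ∩ B).map (fun x => (x, x)).
* `mt_lift`: `M.map Prod.fst ≤ A.map g` and `M.map Prod.snd ≤ B.map h`. Induction on M: for M = (a', b') ::ₘ M₁:
  a' ::ₘ M₁.map fst ≤ A.map g, so a' = g a with a ∈ A, A = a ::ₘ A₁, and M₁.map fst ≤ A₁.map g
  (map_cons and cancellation `Multiset.cons_le_cons_iff`); same for b'. Apply the induction hypothesis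
  to A₁, B₁.
* `mt_split_left`: M.map fst ≤ A₁ + A₂. Induction on M (A₁, A₂, B general): the first component a of the first pair is in
  A₁ or in A₂. Remove it there. (Or: choose M₁ ≤ M with M₁.map fst = (M.map fst) ∩ A₁ by
  `Multiset.le_map_iff`-like lemmas.) `mt_split_right` is the mirror image (`mt_swap`).
-/

open Multiset

namespace TRD

noncomputable section

theorem mt_swap {α β : Type} {M : Multiset (α × β)} {A : Multiset α} {B : Multiset β}
    {r : α → β → Prop} (hM : Mt M A B r) : Mt (M.map Prod.swap) B A (fun b a => r a b) := by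
  obtain ⟨h1, h2, h3⟩ := hM
  refine ⟨?_, ?_, ?_⟩
  · rw [Multiset.map_map]
    exact h2
  · rw [Multiset.map_map]
    exact h1
  · intro e he
    rw [Multiset.mem_map] at he
    obtain ⟨f, hf, rfl⟩ := he
    exact h3 f hf

theorem mt_sub {α β : Type} {M M' : Multiset (α × β)} {A : Multiset α} {B : Multiset β}
    {r : α → β → Prop} (hM : Mt M A B r) (h : M' ≤ M) : Mt M' A B r := by
  obtain ⟨h1, h2, h3⟩ := hM
  exact ⟨(Multiset.map_le_map h).trans h1, (Multiset.map_le_map h).trans h2,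
    fun e he => h3 e (Multiset.mem_of_le h he)⟩

theorem mt_inter {γ : Type} [DecidableEq γ] (A B : Multiset γ) :
    ∃ M, Mt M A B (fun a b => a = b) ∧ card M = card (A ∩ B) := by
  refine ⟨(A ∩ B).map (fun x => (x, x)), ⟨?_, ?_, ?_⟩, by rw [card_map]⟩
  · rw [Multiset.map_map]
    have : (Prod.fst ∘ fun x : γ => (x, x)) = id := rfl
    rw [this, Multiset.map_id]
    exact Multiset.inter_le_left
  · rw [Multiset.map_map]
    have : (Prod.snd ∘ fun x : γ => (x, x)) = id := rfl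
    rw [this, Multiset.map_id]
    exact Multiset.inter_le_right
  · intro e he
    rw [Multiset.mem_map] at he
    obtain ⟨x, _, rfl⟩ := he
    rfl

theorem mt_lift_aux {α β α' β' : Type} {g : α → α'} {h : β → β'} (M : Multiset (α' × β')) :
    ∀ (A : Multiset α) (B : Multiset β), M.map Prod.fst ≤ A.map g → M.map Prod.snd ≤ B.map h →
    ∃ M' : Multiset (α × β), M'.map Prod.fst ≤ A ∧ M'.map Prod.snd ≤ B ∧
      M'.map (Prod.map g h) = M := by
  induction M using Multiset.induction_on with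
  | empty =>
    intro A B _ _
    exact ⟨0, by simp, by simp, by simp⟩
  | cons e M ih =>
    intro A B hA hB
    rw [Multiset.map_cons] at hA hB
    have ha : e.1 ∈ A.map g := Multiset.mem_of_le hA (Multiset.mem_cons_self _ _)
    have hb : e.2 ∈ B.map h := Multiset.mem_of_le hB (Multiset.mem_cons_self _ _)
    obtain ⟨a, haA, hae⟩ := Multiset.mem_map.1 ha
    obtain ⟨b, hbB, hbe⟩ := Multiset.mem_map.1 hb
    obtain ⟨A₁, rfl⟩ := Multiset.exists_cons_of_mem haA
    obtain ⟨B₁, rfl⟩ := Multiset.exists_cons_of_mem hbB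
    rw [Multiset.map_cons, hae, Multiset.cons_le_cons_iff] at hA
    rw [Multiset.map_cons, hbe, Multiset.cons_le_cons_iff] at hB
    obtain ⟨M', h1, h2, h3⟩ := ih A₁ B₁ hA hB
    refine ⟨(a, b) ::ₘ M', ?_, ?_, ?_⟩
    · rw [Multiset.map_cons, Multiset.cons_le_cons_iff]
      exact h1
    · rw [Multiset.map_cons, Multiset.cons_le_cons_iff]
      exact h2
    · rw [Multiset.map_cons, h3]
      congr 1
      exact Prod.ext hae hbe

theorem mt_lift {α β α' β' : Type} {g : α → α'} {h : β → β'} {M : Multiset (α' × β')}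
    {A : Multiset α} {B : Multiset β} {r : α' → β' → Prop} (hM : Mt M (A.map g) (B.map h) r) :
    ∃ M' : Multiset (α × β), Mt M' A B (fun a b => r (g a) (h b)) ∧ M'.map (Prod.map g h) = M := by
  obtain ⟨h1, h2, h3⟩ := hM
  obtain ⟨M', k1, k2, k3⟩ := mt_lift_aux M A B h1 h2
  refine ⟨M', ⟨k1, k2, ?_⟩, k3⟩
  intro e he
  have : Prod.map g h e ∈ M := by
    rw [← k3]
    exact Multiset.mem_map_of_mem _ he
  exact h3 _ this

theorem mt_split_aux {α β : Type} (M : Multiset (α × β)) : ∀ (A₁ A₂ : Multiset α),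
    M.map Prod.fst ≤ A₁ + A₂ →
    ∃ M₁ M₂, M = M₁ + M₂ ∧ M₁.map Prod.fst ≤ A₁ ∧ M₂.map Prod.fst ≤ A₂ := by
  induction M using Multiset.induction_on with
  | empty =>
    intro A₁ A₂ _
    exact ⟨0, 0, by simp, by simp, by simp⟩
  | cons e M ih =>
    intro A₁ A₂ hA
    rw [Multiset.map_cons] at hA
    have ha : e.1 ∈ A₁ + A₂ := Multiset.mem_of_le hA (Multiset.mem_cons_self _ _)
    rcases Multiset.mem_add.1 ha with ha | ha
    · obtain ⟨A', rfl⟩ := Multiset.exists_cons_of_mem ha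
      rw [Multiset.cons_add, Multiset.cons_le_cons_iff] at hA
      obtain ⟨M₁, M₂, h1, h2, h3⟩ := ih A' A₂ hA
      refine ⟨e ::ₘ M₁, M₂, ?_, ?_, h3⟩
      · rw [h1, Multiset.cons_add]
      · rw [Multiset.map_cons, Multiset.cons_le_cons_iff]
        exact h2
    · obtain ⟨A', rfl⟩ := Multiset.exists_cons_of_mem ha
      rw [Multiset.add_cons, Multiset.cons_le_cons_iff] at hA
      obtain ⟨M₁, M₂, h1, h2, h3⟩ := ih A₁ A' hA
      refine ⟨M₁, e ::ₘ M₂, ?_, h2, ?_⟩
      · rw [h1, Multiset.add_cons]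
      · rw [Multiset.map_cons, Multiset.cons_le_cons_iff]
        exact h3

theorem mt_split_left {α β : Type} {M : Multiset (α × β)} {A₁ A₂ : Multiset α} {B : Multiset β}
    {r : α → β → Prop} (hM : Mt M (A₁ + A₂) B r) :
    ∃ M₁ M₂, M = M₁ + M₂ ∧ Mt M₁ A₁ B r ∧ Mt M₂ A₂ B r := by
  obtain ⟨M₁, M₂, h1, h2, h3⟩ := mt_split_aux M A₁ A₂ hM.1
  have k1 : M₁ ≤ M := by rw [h1]; exact Multiset.le_add_right _ _
  have k2 : M₂ ≤ M := by rw [h1]; exact Multiset.le_add_left _ _
  exact ⟨M₁, M₂, h1, ⟨h2, (mt_sub hM k1).2⟩, ⟨h3, (mt_sub hM k2).2⟩⟩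

theorem mt_split_right {α β : Type} {M : Multiset (α × β)} {A : Multiset α} {B₁ B₂ : Multiset β}
    {r : α → β → Prop} (hM : Mt M A (B₁ + B₂) r) :
    ∃ M₁ M₂, M = M₁ + M₂ ∧ Mt M₁ A B₁ r ∧ Mt M₂ A B₂ r := by
  obtain ⟨M₁, M₂, h1, h2, h3⟩ := mt_split_left (mt_swap hM)
  have hs : ∀ N : Multiset (α × β), (N.map Prod.swap).map Prod.swap = N := by
    intro N
    rw [Multiset.map_map]
    simp
  refine ⟨M₁.map Prod.swap, M₂.map Prod.swap, ?_, mt_swap h2, mt_swap h3⟩
  rw [← Multiset.map_add, ← h1, hs]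

end

end TRD
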