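import Pool.Agent.Lib.TRD.Basic
import Pool.Agent.Lib.TRD.MatchA

/-! # TRD.Classify (MP_2e3d39_co)

Classification of a pair of deletions with equal results. m = P ::ₘ m₁, m' = Q ::ₘ m₁' (erase), o.1 + m₁ = o'.1 + m₁', card o.1 ≤ 1, card o'.1 ≤ 1 (`dlo_card`).

If o.1 = o'.1: m₁ = m₁' =: s, P ≠ Q because m ≠ m', and size P = size Q from sz m = sz m'.
If o.1 ≠ o'.1: there is s with m₁ = o'.1 + s, m₁' = o.1 + s (if o.1 = {c}: c ∉ o'.1 since o'.1 is empty or {d} with d ≠ c, so c ∈ m₁', m₁' = c ::ₘ s and cancel c; if o.1 = 0 take s = m₁'). If P ≠ Q this is the third case. If P = Q: sz m = sz m' gives sz o.1 = sz o'.1; they are different, so both are singletons {U'}, {U}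
(if one is empty then sz = 0 and the other one is empty as well, `size_pos`); m = P ::ₘ (U ::ₘ s), m' = P ::ₘ (U' ::ₘ s): second case with s := P ::ₘ s. size U' < size P by `dlo_size`, size U = size U'.
`gm_lift`: `dl_eq_ldl`, `mt_lift`, `node_inj`.
-/

open Multiset

namespace TRD

noncomputable section

/-- the relation between labelled entries of `m` and `m'` -/
def Rl (m m' : Multiset RT) (t t' : RT × Multiset RT × Multiset RT) : Prop :=
  t.2.1 + m.erase t.1 = t'.2.1 + m'.erase t'.1 ∧ t.2.2.map cls = t'.2.2.map cls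

theorem gm_lift {m m' : Multiset RT} {M : Multiset ((RT × Multiset RT) × (RT × Multiset RT))}
    (hM : GM M (node m) (node m')) : ∃ M', Mt M' (ldl m) (ldl m') (Rl m m') ∧
      card M' = card M := by
  unfold GM at hM
  rw [dl_eq_ldl, dl_eq_ldl] at hM
  obtain ⟨M', h1, h2⟩ := mt_lift hM
  refine ⟨M', ⟨h1.1, h1.2.1, ?_⟩, ?_⟩
  · intro e he
    obtain ⟨k1, k2⟩ := h1.2.2 e he
    exact ⟨node_inj k1, k2⟩
  · rw [← h2, card_map]

private theorem cl_card {o : Multiset RT} (h : card o ≤ 1) : o = 0 ∨ ∃ c, o = {c} := by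
  rcases Nat.eq_zero_or_pos (card o) with h0 | h0
  · exact Or.inl (Multiset.card_eq_zero.1 h0)
  · exact Or.inr (Multiset.card_eq_one.1 (by omega))

theorem classify {m m' : Multiset RT} (hne : m ≠ m') (hsz : sz m = sz m')
    {t t' : RT × Multiset RT × Multiset RT} (ht : t ∈ ldl m) (ht' : t' ∈ ldl m')
    (h : Rl m m' t t') :
    (t.2.1 = t'.2.1 ∧ t.1 ≠ t'.1 ∧ size t.1 = size t'.1 ∧
      ∃ s, m = t.1 ::ₘ s ∧ m' = t'.1 ::ₘ s) ∨
    (t.1 = t'.1 ∧ ∃ U U' s, U ≠ U' ∧ size U = size U' ∧ size U < size t.1 ∧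
      m = U ::ₘ s ∧ m' = U' ::ₘ s ∧ t.1 ∈ s ∧ t.2.1 = {U'} ∧ t'.2.1 = {U}) ∨
    (t.1 ≠ t'.1 ∧ t.2.1 ≠ t'.2.1 ∧
      ∃ s, m = t.1 ::ₘ (t'.2.1 + s) ∧ m' = t'.1 ::ₘ (t.2.1 + s)) := by
  obtain ⟨P, o⟩ := t
  obtain ⟨Q, o'⟩ := t'
  obtain ⟨hP, ho⟩ := mem_ldl.1 ht
  obtain ⟨hQ, ho'⟩ := mem_ldl.1 ht'
  obtain ⟨h1, -⟩ := h
  simp only at hP ho hQ ho' h1 ⊢
  have c1 := dlo_card ho
  have c2 := dlo_card ho'
  have s1 := dlo_size ho
  have s2 := dlo_size ho'
  have em : P ::ₘ m.erase P = m := Multiset.cons_erase hP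
  have em' : Q ::ₘ m'.erase Q = m' := Multiset.cons_erase hQ
  generalize m.erase P = m₁ at *
  generalize m'.erase Q = m₁' at *
  have z1 : sz m = size P + sz m₁ := by rw [← em, sz_cons]
  have z2 : sz m' = size Q + sz m₁' := by rw [← em', sz_cons]
  by_cases hoo : o.1 = o'.1
  · left
    rw [hoo] at h1
    have h3 : m₁ = m₁' := add_left_cancel h1
    subst h3
    refine ⟨hoo, ?_, by omega, m₁, em.symm, em'.symm⟩
    rintro rfl
    exact hne (em.symm.trans em')
  · right
    have key : ∃ s, m₁ = o'.1 + s ∧ m₁' = o.1 + s := by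
      rcases cl_card c1 with e1 | ⟨c, e1⟩
      · refine ⟨m₁', ?_, ?_⟩
        · rw [← h1, e1, zero_add]
        · rw [e1, zero_add]
      · rcases cl_card c2 with e2 | ⟨d, e2⟩
        · refine ⟨m₁, ?_, ?_⟩
          · rw [e2, zero_add]
          · rw [h1, e2, zero_add]
        · rw [e1, e2, Multiset.singleton_add, Multiset.singleton_add] at h1
          rcases Multiset.cons_eq_cons.1 h1 with ⟨hcd, -⟩ | ⟨-, cs, k1, k2⟩
          · exact absurd (by rw [e1, e2, hcd]) hoo
          · refine ⟨cs, ?_, ?_⟩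
            · rw [e2, Multiset.singleton_add]; exact k1
            · rw [e1, Multiset.singleton_add]; exact k2
    obtain ⟨s, k1, k2⟩ := key
    by_cases hPQ : P = Q
    · left
      subst hPQ
      refine ⟨rfl, ?_⟩
      rw [k1, sz_add] at z1
      rw [k2, sz_add] at z2
      rcases cl_card c1 with e1 | ⟨c, e1⟩
      · rcases cl_card c2 with e2 | ⟨d, e2⟩
        · exact absurd (e1.trans e2.symm) hoo
        · exfalso
          have := size_pos d
          rw [e2, sz_singleton] at z1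
          rw [e1, sz_zero] at z2
          omega
      · rcases cl_card c2 with e2 | ⟨d, e2⟩
        · exfalso
          have := size_pos c
          rw [e1, sz_singleton] at z2
          rw [e2, sz_zero] at z1
          omega
        · have hcd : d ≠ c := by
            rintro rfl
            exact hoo (e1.trans e2.symm)
          rw [e2, sz_singleton] at z1
          rw [e1, sz_singleton] at z2
          rw [e1, sz_singleton] at s1
          refine ⟨d, c, P ::ₘ s, hcd, by omega, by omega, ?_, ?_, Multiset.mem_cons_self _ _,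
            e1, e2⟩
          · rw [← em, k1, e2, Multiset.singleton_add, Multiset.cons_swap]
          · rw [← em', k2, e1, Multiset.singleton_add, Multiset.cons_swap]
    · right
      refine ⟨hPQ, hoo, s, ?_, ?_⟩
      · rw [← em, k1]
      · rw [← em', k2]

end

end TRD
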