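import Pool.Agent.Lib.TRD.CwEq

/-! # TRD.ClsWord (MP_2e3d39_co)

Two rootings of the same tree are the two ends of a word.

Proof. `cls x = cls y` is `Quot.mk Flip x = Quot.mk Flip y`, so (`Quot.eqvGen_exact` / `Relation.EqvGen`) x and y are related by a chain of flips; Flip is symmetric
(exchange A and B), so it suffices to treat: the set of y related to x, induction over the chain x → ... → y → z with Flip y z. Start: k = 0, σ 0 = ch x. Step: we have σ, k with x = node (σ 0 + Vm σ (k+1) 1), y = node (σ k + Lm σ k),
and y = node (node B ::ₘ A), z = node (node A ::ₘ B) (or the symmetric case). So node B ∈ σ k + Lm σ k.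
 Case 1: node B ∈ σ k: put σ' = σ on positions < k, σ' k = (σ k).erase (node B), σ' (k+1) = B, k' = k+1. Then A = (σ k).erase (node B) + Lm σ k, Lm σ' (k+1) = {node (σ' k + Lm σ k)} = {node A}, z = node (B + Lm σ' (k+1)). And
   σ' 0 + Vm σ' (k+2) 1 gives x: for all positions h ≤ k, σ' h + Vm σ' (k+2) (h+1) = σ h + Vm σ (k+1) (h+1): downward induction; at h = k: Vm σ' (k+2) (k+1) = {node B}, so σ' k + {node B} = σ k = σ k + Vm σ (k+1) (k+1).
 Case 2: node B ∈ Lm σ k: so k ≥ 1, Lm σ k = {node B}, B = σ (k-1) + Lm σ (k-1), A = σ k. Put k' = k-1, σ' = σ on positions < k-1, σ' (k-1) = {node (σ k)} + σ (k-1). Then z = node (node A ::ₘ B) = node (σ' (k-1) + Lm σ (k-1)) and x is unchanged: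
   Vm σ (k+1) (k-1) and Vm σ' k (k-1) coincide as Vm σ (k+1) k = {node (σ k)}.
-/

open Multiset

namespace TRD

noncomputable section

namespace ClsWordAux

theorem down {σ σ' : ℕ → Multiset RT} {k n n' : ℕ} (hn : k < n) (hn' : k < n')
    (hlt : ∀ m < k, σ' m = σ m)
    (hk : σ' k + Vm σ' n' (k + 1) = σ k + Vm σ n (k + 1)) :
    ∀ d h, h + d = k → σ' h + Vm σ' n' (h + 1) = σ h + Vm σ n (h + 1) := by
  intro d
  induction d with
  | zero =>
    intro h hh
    have : h = k := by omega
    subst this
    exact hk
  | succ d ih =>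
    intro h hh
    have h1 := ih (h + 1) (by omega)
    rw [Vm_of_lt σ' (show h + 1 < n' by omega), Vm_of_lt σ (show h + 1 < n by omega), h1,
      hlt h (by omega)]

theorem flip_symm {x y : RT} (h : Flip x y) : Flip y x := by
  obtain ⟨A, B, hx, hy⟩ := h
  exact ⟨B, A, hy, hx⟩

theorem gen {x y : RT} (h : Relation.EqvGen Flip x y) : Relation.ReflTransGen Flip x y := by
  induction h with
  | rel a b hab => exact Relation.ReflTransGen.single hab
  | refl a => exact Relation.ReflTransGen.refl
  | symm a b _ ih =>
    clear * - ih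
    induction ih with
    | refl => exact Relation.ReflTransGen.refl
    | tail _ hbc ih2 => exact Relation.ReflTransGen.head (flip_symm hbc) ih2
  | trans a b c _ _ ih1 ih2 => exact ih1.trans ih2

/-- `y` is the last rooting of a word with first rooting `x` -/
def W (x y : RT) : Prop := ∃ (k : ℕ) (σ : ℕ → Multiset RT),
    x = node (σ 0 + Vm σ (k + 1) 1) ∧ y = node (σ k + Lm σ k)

theorem W_refl (x : RT) : W x x := by
  refine ⟨0, fun _ => ch x, ?_, ?_⟩
  · rw [Vm_of_le _ (le_refl 1), add_zero, node_ch]
  · show x = node (ch x + 0)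
    rw [add_zero, node_ch]

theorem W_step {x y z : RT} (h : W x y) (hf : Flip y z) : W x z := by
  obtain ⟨k, σ, hx, hy⟩ := h
  obtain ⟨A, B, hyA, hz⟩ := hf
  have he : σ k + Lm σ k = node B ::ₘ A := node_inj (by rw [← hy, hyA])
  have hmem : node B ∈ σ k + Lm σ k := by
    rw [he]
    exact Multiset.mem_cons_self _ _
  rw [Multiset.mem_add] at hmem
  rcases hmem with hm | hm
  · obtain ⟨E, hE⟩ := Multiset.exists_cons_of_mem hm
    have hA : E + Lm σ k = A := by
      rw [hE, Multiset.cons_add] at he
      exact (Multiset.cons_inj_right _).1 he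
    set σ' : ℕ → Multiset RT := fun m => if m < k then σ m else if m = k then E else B with hσ'
    have hlt : ∀ m < k, σ' m = σ m := fun m hm => by rw [hσ']; simp only; rw [if_pos hm]
    have hk' : σ' k = E := by
      show (if k < k then σ k else if k = k then E else B) = E
      rw [if_neg (lt_irrefl k), if_pos rfl]
    have hk1 : σ' (k + 1) = B := by
      rw [hσ']; simp only; rw [if_neg (by omega), if_neg (by omega)]
    refine ⟨k + 1, σ', ?_, ?_⟩
    · rw [hx]
      congr 1
      refine (down (σ := σ) (σ' := σ') (k := k) (n := k + 1) (n' := k + 1 + 1) (by omega)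
        (by omega) hlt ?_ k 0 (by omega)).symm
      rw [Vm_of_lt σ' (show k + 1 < k + 1 + 1 by omega), Vm_of_le σ' (le_refl (k + 1 + 1)),
        Vm_of_le σ (le_refl (k + 1)), hk', hk1, hE, add_zero, add_zero, add_comm,
        Multiset.singleton_add]
    · rw [hz]
      have e1 : Lm σ' (k + 1) = {node (σ' k + Lm σ' k)} := rfl
      rw [e1, Lm_congr (ν := σ) hlt, hk', hk1, hA, add_comm, Multiset.singleton_add]
  · cases k with
    | zero =>
      exact absurd hm (by show node B ∉ (0 : Multiset RT); exact Multiset.notMem_zero _)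
    | succ j =>
      have e1 : Lm σ (j + 1) = {node (σ j + Lm σ j)} := rfl
      rw [e1, Multiset.mem_singleton] at hm
      have hB : B = σ j + Lm σ j := node_inj hm
      have hA : σ (j + 1) = A := by
        rw [e1, ← hB, add_comm, Multiset.singleton_add] at he
        exact (Multiset.cons_inj_right _).1 he
      set σ' : ℕ → Multiset RT := fun m => if m < j then σ m else
        if m = j then node (σ (j + 1)) ::ₘ σ j else 0 with hσ'
      have hlt : ∀ m < j, σ' m = σ m := fun m hm => by rw [hσ']; simp only; rw [if_pos hm]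
      have hk' : σ' j = node (σ (j + 1)) ::ₘ σ j := by
        show (if j < j then σ j else if j = j then node (σ (j + 1)) ::ₘ σ j else 0) = _
        rw [if_neg (lt_irrefl j), if_pos rfl]
      refine ⟨j, σ', ?_, ?_⟩
      · rw [hx]
        congr 1
        refine (down (σ := σ) (σ' := σ') (k := j) (n := j + 1 + 1) (n' := j + 1) (by omega)
          (by omega) hlt ?_ j 0 (by omega)).symm
        rw [Vm_of_lt σ (show j + 1 < j + 1 + 1 by omega), Vm_of_le σ (le_refl (j + 1 + 1)),
          Vm_of_le σ' (le_refl (j + 1)), hk', add_zero, add_zero]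
        rw [add_comm (σ j), Multiset.singleton_add]
      · rw [hz, Lm_congr (ν := σ) hlt, hk', Multiset.cons_add, ← hB, hA]

end ClsWordAux

open ClsWordAux in
theorem cls_word {x y : RT} (h : cls x = cls y) : ∃ (k : ℕ) (σ : ℕ → Multiset RT),
    x = node (σ 0 + Vm σ (k + 1) 1) ∧ y = node (σ k + Lm σ k) := by
  have h1 : Relation.EqvGen Flip x y := Quot.eqvGen_exact h
  have h2 := gen h1
  change W x y
  induction h2 with
  | refl => exact W_refl x
  | tail hab hbc ih => exact W_step (ih (Quot.eqvGen_sound (by
      clear * - hab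
      induction hab with
      | refl => exact Relation.EqvGen.refl _
      | tail _ hbc ih => exact Relation.EqvGen.trans _ _ _ ih (Relation.EqvGen.rel _ _ hbc)))
      (by
      clear * - hab
      induction hab with
      | refl => exact Relation.EqvGen.refl _
      | tail _ hbc ih => exact Relation.EqvGen.trans _ _ _ ih (Relation.EqvGen.rel _ _ hbc))) hbc

end

end TRD
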