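import Mathlib

/-! # Codes of finite rooted unordered trees (package TRD, MP_2e3d39_co)

`RT` is the type of (isomorphism classes of) finite rooted trees. It is ℕ with a coding of
multisets: `node m` is the tree whose root has the child subtrees `m`, and `ch` is its inverse.
Use only `node_ch`, `ch_node`, `RT.ind`, `para`, `para_node`, never the definition.
-/

open Multiset

namespace TRD

/-- finite rooted unordered trees, coded by natural numbers -/
structure RT where
  /-- the code -/
  code : ℕ
deriving DecidableEq

noncomputable section

/-- the rooted tree whose root has the multiset `m` of child subtrees -/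
def node (m : Multiset RT) : RT :=
  ⟨(m.map (fun x => Nat.nth Nat.Prime x.code)).prod - 1⟩

/-- the multiset of child subtrees of the root -/
def ch (x : RT) : Multiset RT :=
  ((Nat.primeFactorsList (x.code + 1) : List ℕ) : Multiset ℕ).map (fun q => ⟨Nat.count Nat.Prime q⟩)

theorem prodPos (m : Multiset RT) : 0 < (m.map (fun x => Nat.nth Nat.Prime x.code)).prod := by
  rw [Nat.pos_iff_ne_zero]
  intro h
  rw [Multiset.prod_eq_zero_iff, Multiset.mem_map] at h
  obtain ⟨x, _, hx⟩ := h
  exact (Nat.prime_nth_prime x.code).ne_zero hx

theorem ch_node (m : Multiset RT) : ch (node m) = m := by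
  unfold ch node
  have h1 : ((m.map (fun x => Nat.nth Nat.Prime x.code)).prod - 1 : ℕ) + 1
      = (m.map (fun x => Nat.nth Nat.Prime x.code)).prod := by
    have := prodPos m
    omega
  have h2 : ((Nat.primeFactorsList ((m.map
      (fun x => Nat.nth Nat.Prime x.code)).prod) : List ℕ) : Multiset ℕ)
      = m.map (fun x => Nat.nth Nat.Prime x.code) := by
    clear h1
    induction m using Quot.inductionOn with
    | h l =>
      simp only [Multiset.quot_mk_to_coe'', Multiset.map_coe, Multiset.prod_coe]
      rw [Multiset.coe_eq_coe]
      symm
      apply Nat.primeFactorsList_unique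
      · rfl
      · intro q hq
        rw [List.mem_map] at hq
        obtain ⟨x, _, rfl⟩ := hq
        exact Nat.prime_nth_prime x.code
  show ((Nat.primeFactorsList (((m.map
      (fun x => Nat.nth Nat.Prime x.code)).prod - 1 : ℕ) + 1) : List ℕ) : Multiset ℕ).map
      (fun q => (⟨Nat.count Nat.Prime q⟩ : RT)) = m
  rw [h1, h2, Multiset.map_map]
  have h3 : ((fun q => (⟨Nat.count Nat.Prime q⟩ : RT)) ∘ fun x : RT => Nat.nth Nat.Prime x.code)
      = id := by
    funext x
    simp only [Function.comp, id]
    rw [Nat.count_nth_of_infinite Nat.infinite_setOfPred_prime x.code]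
  rw [h3, Multiset.map_id]

theorem node_ch (x : RT) : node (ch x) = x := by
  unfold ch node
  rw [Multiset.map_map]
  have h1 : Multiset.map ((fun x : RT => Nat.nth Nat.Prime x.code) ∘
      (fun q => (⟨Nat.count Nat.Prime q⟩ : RT)))
      ((Nat.primeFactorsList (x.code + 1) : List ℕ) : Multiset ℕ)
      = ((Nat.primeFactorsList (x.code + 1) : List ℕ) : Multiset ℕ) := by
    conv_rhs => rw [← Multiset.map_id ((Nat.primeFactorsList (x.code + 1) : List ℕ) : Multiset ℕ)]
    apply Multiset.map_congr rfl
    intro q hq
    rw [Multiset.mem_coe] at hq
    simp only [Function.comp, id]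
    exact Nat.nth_count (Nat.prime_of_mem_primeFactorsList hq)
  rw [h1, Multiset.prod_coe, Nat.prod_primeFactorsList (by omega)]
  rfl

theorem node_inj {m m' : Multiset RT} (h : node m = node m') : m = m' := by
  rw [← ch_node m, h, ch_node]

theorem mem_ch_lt {x y : RT} (h : y ∈ ch x) : y.code < x.code := by
  unfold ch at h
  rw [Multiset.mem_map] at h
  obtain ⟨q, hq, rfl⟩ := h
  rw [Multiset.mem_coe] at hq
  have hp := Nat.prime_of_mem_primeFactorsList hq
  have hle := Nat.le_of_dvd (Nat.succ_pos _) (Nat.dvd_of_mem_primeFactorsList hq)
  have h2 : q = Nat.nth Nat.Prime (Nat.count Nat.Prime q) := (Nat.nth_count hp).symm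
  have h3 := Nat.add_two_le_nth_prime (Nat.count Nat.Prime q)
  show Nat.count Nat.Prime q < x.code
  have h4 : q ≤ x.code + 1 := hle
  omega

/-- induction on rooted trees -/
theorem RT.ind {P : RT → Prop} (h : ∀ m : Multiset RT, (∀ y ∈ m, P y) → P (node m)) :
    ∀ x : RT, P x := by
  have key : ∀ n : ℕ, ∀ x : RT, x.code = n → P x := by
    intro n
    induction n using Nat.strong_induction_on with
    | _ n ih =>
      intro x hx
      rw [← node_ch x]
      apply h
      intro y hy
      have := mem_ch_lt hy
      exact ih _ (hx ▸ this) y rfl
  intro x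
  exact key _ x rfl

/-- recursion on rooted trees with access to the child subtrees -/
def para {β : Type} (f : Multiset (RT × β) → β) : RT → β :=
  WellFounded.fix (measure RT.code).wf
    (fun x F => f ((ch x).attach.map (fun y => (y.1, F y.1 (mem_ch_lt y.2)))))

theorem para_node {β : Type} (f : Multiset (RT × β) → β) (m : Multiset RT) :
    para f (node m) = f (m.map (fun y => (y, para f y))) := by
  have h0 : ∀ x : RT, para f x = f ((ch x).attach.map (fun y => (y.1, para f y.1))) := by
    intro x
    unfold para
    rw [WellFounded.fix_eq]
  rw [h0, Multiset.attach_map_val' (ch (node m)) (fun y => (y, para f y)), ch_node]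

/-- number of vertices -/
def size : RT → ℕ := para (fun s => 1 + (s.map Prod.snd).sum)

/-- total number of vertices of a multiset of trees -/
def sz (m : Multiset RT) : ℕ := (m.map size).sum

theorem size_node (m : Multiset RT) : size (node m) = 1 + sz m := by
  unfold size sz
  rw [para_node, Multiset.map_map]
  rfl

/-- height: number of edges of a longest path down from the root -/
def ht : RT → ℕ := para (fun s => (s.map (fun p => p.2 + 1)).sup)

/-- `hb m` is the height of `node m` -/
def hb (m : Multiset RT) : ℕ := (m.map (fun y => ht y + 1)).sup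

theorem ht_node (m : Multiset RT) : ht (node m) = hb m := by
  unfold ht hb
  rw [para_node, Multiset.map_map]
  rfl

/-- Entries of proper deletions. For every vertex `v` of `x` other than the root, the multiset
`dl x` contains the pair (rooted tree `x - (subtree at v)`, multiset of the child subtrees of `v`). -/
def dl : RT → Multiset (RT × Multiset RT) :=
  para (fun s => s.bind (fun p => (node ((s.map Prod.fst).erase p.1), ch p.1) ::ₘ
    p.2.map (fun e => (node (e.1 ::ₘ (s.map Prod.fst).erase p.1), e.2))))

theorem dl_node (m : Multiset RT) : dl (node m) = m.bind (fun y => (node (m.erase y), ch y) ::ₘ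
    (dl y).map (fun e => (node (e.1 ::ₘ m.erase y), e.2))) := by
  unfold dl
  rw [para_node]
  simp only [Multiset.bind_map, Multiset.map_map, Function.comp]
  simp only [Multiset.map_id']

/-- Entries with an optional remaining tree: deletion of any vertex of `y`, the root included.
The first component is the multiset (with at most one element) of what remains above. -/
def dlo (y : RT) : Multiset (Multiset RT × Multiset RT) :=
  (0, ch y) ::ₘ (dl y).map (fun e => ({e.1}, e.2))

theorem dl_node' (m : Multiset RT) : dl (node m) = m.bind (fun y => (dlo y).map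
    (fun e => (node (e.1 + m.erase y), e.2))) := by
  rw [dl_node]
  apply Multiset.bind_congr
  intro y _
  unfold dlo
  rw [Multiset.map_cons, Multiset.map_map]
  simp only [zero_add, Function.comp, Multiset.singleton_add]

/-- one step of re-rooting: move the root along one edge -/
def Flip (x y : RT) : Prop :=
  ∃ A B : Multiset RT, x = node (node B ::ₘ A) ∧ y = node (node A ::ₘ B)

/-- isomorphism classes of (unrooted) trees -/
def Cls : Type := Quot Flip

/-- the unrooted tree of a rooted tree -/
def cls (x : RT) : Cls := Quot.mk Flip x

theorem cls_flip (A B : Multiset RT) : cls (node (node B ::ₘ A)) = cls (node (node A ::ₘ B)) :=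
  Quot.sound ⟨A, B, rfl, rfl⟩

/-- the card of an entry: unrooted classes of the components -/
def card0 (e : RT × Multiset RT) : Multiset Cls := cls e.1 ::ₘ e.2.map cls

/-- the deck of the tree `x` -/
def deck (x : RT) : Multiset (Multiset Cls) := (ch x).map cls ::ₘ (dl x).map card0

end

end TRD
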