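import Pool.Agent.Lib.TRD.MainCode

/-! # TRD.CodeUpper (MP_2e3d39_co): the upper bound on codes, in the form used by the graph side -/

open Multiset

namespace TRD

theorem code_upper (p : ℕ) (hp : 10 ^ 10 ≤ p) (x y : RT) (hx : size x = p) (hy : size y = p)
    (h : cls x ≠ cls y) (D : Multiset (Multiset Cls)) (hD : D ≤ deck x) (hD' : D ≤ deck y) :
    D.card ≤ 2 * ((p - 5) / 3) := by
  have key := main_code (x := x) (y := y) (M₀ := D.map (fun a => (a, a))) h
    (hx.trans hy.symm) (by rw [hx]; exact hp) ?_
  · rw [Multiset.card_map, hx] at key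
    exact key
  · refine ⟨?_, ?_, ?_⟩
    · rw [Multiset.map_map]
      have : (Prod.fst ∘ fun a : Multiset Cls => (a, a)) = id := rfl
      rw [this, Multiset.map_id]
      exact hD
    · rw [Multiset.map_map]
      have : (Prod.snd ∘ fun a : Multiset Cls => (a, a)) = id := rfl
      rw [this, Multiset.map_id]
      exact hD'
    · intro e he
      rw [Multiset.mem_map] at he
      obtain ⟨a, _, rfl⟩ := he
      rfl

end TRD
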