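import Pool.Agent.Lib.TRD.PDefs
import Pool.Agent.Lib.TRD.WordB
import Pool.Agent.Lib.TRD.CwEq

/-! # TRD.CountB (MP_2e3d39_co)

Three counting lemmas. Common principle `sum_distinct`: if Q is a finite set of positive integers then card Q * (card Q + 1) ≤ 2 * ∑ i ∈ Q, i (e.g. induction removing the maximum, which is ≥ card Q). If the elements are ≥ a+1, apply it to Q shifted by a.

* `b_count`: for i ∈ Q choose m = m(i) and x = x(i) ∈ ν (m-1) with Vm μ i m = {x}; size x = Sz μ i - Sz μ m ≥ i - m ≥ i - (E/2+1) ≥ 1 (`sz_Vm`, `Sz_mono`; m ≤ E/2+1 < i). For i ≠ i' with m(i) = m(i') the trees x(i), x(i') are different (`Vm_inj`), so for each position l = m-1 the x(i) with m(i) = l+1 are distinct elements of ν l and the sum of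
  their sizes is ≤ sz (ν l). So ∑ i ∈ Q, (i - (E/2+1)) ≤ ∑ l ∈ range (E/2+1), sz (ν l) ≤ Sz ν (E+1).
* `bush_count`: for e = (i,j) ∈ Q there is y ∈ ν j with cls y = cw μ i, so size y = Sz μ i ≥ i (`csize_cw`, `le_Sz`); the j are distinct: ∑ i ≤ ∑ sz (ν j) ≤ Sz ν (E+1); the i are distinct and ≥ 1.
* `c_four_count`: for i ∈ Q put d = dm μ i, h = d/2. Different i ∈ Q have different d: if d is the same then Vm μ i (h+1) = Vm μ i' (h+1) (both equal Lm ν ((d+1)/2)), h + 1 ≤ i (h ≤ E/2), so i = i' by `Vm_inj`. d is even, so the h are distinct; h ≥ 1: Lm μ h is nonempty so h ≥ 1. x ∈ ν h with Lm μ h = {x} has size Sz μ h ≥ h. h ≤ E/2. So ∑ h ≤ ∑ sz (ν h) ≤ Sz ν (E+1).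
-/

open Multiset

namespace TRD

noncomputable section

theorem sum_distinct (Q : Finset ℕ) (a : ℕ) (h : ∀ i ∈ Q, a + 1 ≤ i) :
    Q.card * (Q.card + 1) ≤ 2 * ∑ i ∈ Q, (i - a) := by
  induction Q using Finset.induction_on_max with
  | empty => simp
  | insert m Q hm ih =>
    have hnot : m ∉ Q := fun hmem => lt_irrefl _ (hm m hmem)
    have ih' := ih fun i hi => h i (Finset.mem_insert_of_mem hi)
    rw [Finset.card_insert_of_notMem hnot, Finset.sum_insert hnot]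
    have hsub : Q ⊆ Finset.Ico (a + 1) m := by
      intro i hi
      rw [Finset.mem_Ico]
      exact ⟨h i (Finset.mem_insert_of_mem hi), hm i hi⟩
    have hc := Finset.card_le_card hsub
    rw [Nat.card_Ico] at hc
    have hma := h m (Finset.mem_insert_self _ _)
    have h1 : Q.card + 1 ≤ m - a := by omega
    have h2 : (Q.card + 1) * (Q.card + 1 + 1) = Q.card * (Q.card + 1) + 2 * (Q.card + 1) := by ring
    rw [h2]
    omega

namespace CountBAux

theorem le_sz_sub {A B : Multiset RT} (h : A ≤ B) : sz A ≤ sz B := by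
  obtain ⟨C, rfl⟩ := Multiset.le_iff_exists_add.1 h
  rw [sz_add]
  omega

theorem dist_sum {ι : Type} (S : Finset ι) (l : ι → ℕ) (x : ι → RT) (ν : ℕ → Multiset RT)
    (n : ℕ) (hl : ∀ i ∈ S, l i < n) (hx : ∀ i ∈ S, x i ∈ ν (l i))
    (inj : ∀ i ∈ S, ∀ j ∈ S, l i = l j → x i = x j → i = j) :
    ∑ i ∈ S, size (x i) ≤ Sz ν n := by
  classical
  have h1 : ∑ m ∈ Finset.range n, ∑ i ∈ S.filter (fun i => l i = m), size (x i)
      = ∑ i ∈ S, size (x i) :=
    Finset.sum_fiberwise_of_maps_to (fun i hi => Finset.mem_range.2 (hl i hi)) _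
  rw [← h1]
  unfold Sz
  apply Finset.sum_le_sum
  intro m _
  have h2 : ∑ i ∈ S.filter (fun i => l i = m), size (x i)
      = ∑ y ∈ (S.filter (fun i => l i = m)).image x, size y := by
    rw [Finset.sum_image]
    intro i hi j hj hij
    have hi' := Finset.mem_filter.1 (Finset.mem_coe.1 hi)
    have hj' := Finset.mem_filter.1 (Finset.mem_coe.1 hj)
    exact inj i hi'.1 j hj'.1 (hi'.2.trans hj'.2.symm) hij
  rw [h2]
  have h3 : ((S.filter (fun i => l i = m)).image x).val ≤ ν m := by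
    rw [Multiset.le_iff_subset ((S.filter (fun i => l i = m)).image x).nodup]
    intro y hy
    rw [Finset.mem_val, Finset.mem_image] at hy
    obtain ⟨i, hi, rfl⟩ := hy
    have hi' := Finset.mem_filter.1 hi
    rw [← hi'.2]
    exact hx i hi'.1
  have h4 := le_sz_sub h3
  have h5 : sz ((S.filter (fun i => l i = m)).image x).val
      = ∑ y ∈ (S.filter (fun i => l i = m)).image x, size y := rfl
  rw [h5] at h4
  omega

end CountBAux

open CountBAux

theorem b_count {μ ν : ℕ → Multiset RT} {E : ℕ} (Q : Finset ℕ)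
    (hQ : ∀ i ∈ Q, E / 2 + 2 ≤ i ∧ ∃ m, 1 ≤ m ∧ m ≤ E / 2 + 1 ∧ ∃ x ∈ ν (m - 1), Vm μ i m = {x}) :
    Q.card * (Q.card + 1) ≤ 2 * Sz ν (E + 1) := by
  classical
  have hex : ∀ i : ℕ, ∃ p : ℕ × RT, i ∈ Q → 1 ≤ p.1 ∧ p.1 ≤ E / 2 + 1 ∧ p.2 ∈ ν (p.1 - 1) ∧
      Vm μ i p.1 = {p.2} := by
    intro i
    by_cases hi : i ∈ Q
    · obtain ⟨_, m, h1, h2, x, hx, h3⟩ := hQ i hi
      exact ⟨(m, x), fun _ => ⟨h1, h2, hx, h3⟩⟩
    · exact ⟨(0, node 0), fun h => absurd h hi⟩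
  choose p hp using hex
  have h1 := sum_distinct Q (E / 2 + 1) fun i hi => (hQ i hi).1
  have h2 : ∑ i ∈ Q, (i - (E / 2 + 1)) ≤ ∑ i ∈ Q, size (p i).2 := by
    apply Finset.sum_le_sum
    intro i hi
    obtain ⟨a1, a2, _, a4⟩ := hp i hi
    have a5 := (hQ i hi).1
    have a6 := sz_Vm μ (by omega : (p i).1 ≤ i)
    rw [a4, sz_singleton] at a6
    have a7 := Sz_mono μ (by omega : (p i).1 ≤ i)
    omega
  have h3 := dist_sum Q (fun i => (p i).1 - 1) (fun i => (p i).2) ν (E + 1)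
    (fun i hi => by have := (hp i hi).2.1; show (p i).1 - 1 < E + 1; omega)
    (fun i hi => (hp i hi).2.2.1) (by
      intro i hi j hj hij hx
      obtain ⟨a1, a2, _, a4⟩ := hp i hi
      obtain ⟨b1, b2, _, b4⟩ := hp j hj
      have a5 := (hQ i hi).1
      have b5 := (hQ j hj).1
      have e1 : (p i).1 = (p j).1 := by
        have : (p i).1 - 1 = (p j).1 - 1 := hij
        omega
      have e2 : (p i).2 = (p j).2 := hx
      apply Vm_inj μ (h := (p i).1) (by omega) (by omega)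
      rw [a4, e1, b4, e2])
  omega

theorem bush_count {μ ν : ℕ → Multiset RT} {E : ℕ} (Q : Finset (ℕ × ℕ))
    (h1 : ∀ e ∈ Q, ∀ f ∈ Q, e.1 = f.1 → e = f) (h2 : ∀ e ∈ Q, ∀ f ∈ Q, e.2 = f.2 → e = f)
    (hQ : ∀ e ∈ Q, 1 ≤ e.1 ∧ e.2 ≤ E ∧ cw μ e.1 ∈ (ν e.2).map cls) :
    Q.card * (Q.card + 1) ≤ 2 * Sz ν (E + 1) := by
  classical
  have hex : ∀ e : ℕ × ℕ, ∃ x : RT, e ∈ Q → x ∈ ν e.2 ∧ cls x = cw μ e.1 := by
    intro e
    by_cases he : e ∈ Q
    · obtain ⟨x, hx, h3⟩ := Multiset.mem_map.1 (hQ e he).2.2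
      exact ⟨x, fun _ => ⟨hx, h3⟩⟩
    · exact ⟨node 0, fun h => absurd h he⟩
  choose x hx using hex
  have inj : Set.InjOn Prod.fst (Q : Set (ℕ × ℕ)) := fun e he f hf hef =>
    h1 e (Finset.mem_coe.1 he) f (Finset.mem_coe.1 hf) hef
  have k1 := sum_distinct (Q.image Prod.fst) 0 (by
    intro i hi
    obtain ⟨e, he, rfl⟩ := Finset.mem_image.1 hi
    have := (hQ e he).1
    omega)
  rw [Finset.card_image_of_injOn inj, Finset.sum_image inj] at k1
  have k2 : ∑ e ∈ Q, (e.1 - 0) ≤ ∑ e ∈ Q, size (x e) := by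
    apply Finset.sum_le_sum
    intro e he
    have a1 := (hx e he).2
    have a2 := csize_cw μ (hQ e he).1
    rw [← a1, csize_cls] at a2
    have a3 := le_Sz μ e.1
    omega
  have k3 := dist_sum Q (fun e => e.2) x ν (E + 1)
    (fun e he => by have := (hQ e he).2.1; show e.2 < E + 1; omega)
    (fun e he => (hx e he).1) (fun e he f hf hef _ => h2 e he f hf hef)
  omega

theorem c_four_count {μ ν : ℕ → Multiset RT} {E : ℕ} (Q : Finset ℕ)
    (hQ : ∀ i ∈ Q, E / 2 + 2 ≤ i ∧ dm μ i ≤ E ∧ dm μ i % 2 = 0 ∧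
      Vm μ i (dm μ i / 2 + 1) = Lm ν ((dm μ i + 1) / 2) ∧
      ∃ x ∈ ν (dm μ i / 2), Lm μ (dm μ i / 2) = {x}) :
    Q.card * (Q.card + 1) ≤ 2 * Sz ν (E + 1) := by
  classical
  have hex : ∀ i : ℕ, ∃ x : RT, i ∈ Q → x ∈ ν (dm μ i / 2) ∧ Lm μ (dm μ i / 2) = {x} := by
    intro i
    by_cases hi : i ∈ Q
    · obtain ⟨_, _, _, _, x, hx, h3⟩ := hQ i hi
      exact ⟨x, fun _ => ⟨hx, h3⟩⟩
    · exact ⟨node 0, fun h => absurd h hi⟩
  choose x hx using hex
  have inj0 : ∀ i ∈ Q, ∀ j ∈ Q, dm μ i / 2 = dm μ j / 2 → i = j := by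
    intro i hi j hj hij
    obtain ⟨a1, a2, a3, a4, _⟩ := hQ i hi
    obtain ⟨b1, b2, b3, b4, _⟩ := hQ j hj
    have e : dm μ i = dm μ j := by omega
    apply Vm_inj μ (h := dm μ i / 2 + 1) (by omega) (by omega)
    rw [a4, e, b4]
  have inj : Set.InjOn (fun i => dm μ i / 2) (Q : Set ℕ) := fun i hi j hj hij =>
    inj0 i (Finset.mem_coe.1 hi) j (Finset.mem_coe.1 hj) hij
  have k1 := sum_distinct (Q.image (fun i => dm μ i / 2)) 0 (by
    intro h hh
    obtain ⟨i, hi, rfl⟩ := Finset.mem_image.1 hh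
    have a1 := (hx i hi).2
    by_contra h0
    have h1 : dm μ i / 2 = 0 := by omega
    rw [h1] at a1
    have a2 := congrArg card a1
    simp [Lm] at a2)
  rw [Finset.card_image_of_injOn inj, Finset.sum_image inj] at k1
  have k2 : ∑ i ∈ Q, (dm μ i / 2 - 0) ≤ ∑ i ∈ Q, size (x i) := by
    apply Finset.sum_le_sum
    intro i hi
    have a1 := sz_Lm μ (dm μ i / 2)
    rw [(hx i hi).2, sz_singleton] at a1
    have a3 := le_Sz μ (dm μ i / 2)
    omega
  have k3 := dist_sum Q (fun i => dm μ i / 2) x ν (E + 1)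
    (fun i hi => by have := (hQ i hi).2.1; show dm μ i / 2 < E + 1; omega)
    (fun i hi => (hx i hi).1) (fun i hi j hj hij _ => inj0 i hi j hj hij)
  omega

end

end TRD
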