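import Pool.Agent.Lib.TRD.PDefs
import Pool.Agent.Lib.TRD.CcWord
import Pool.Agent.Lib.TRD.WordB
import Pool.Agent.Lib.TRD.CountB

/-! # TRD.CountC (MP_2e3d39_co)

Crossing pairs of C-type.

Let e = (i,j) ∈ Q, d = dm μ i = dm ν j (`cw_dest`), d ≤ E. Different i ∈ Q have different d (same argument as in `c_four_count`: Vm μ i (d/2+1) = Lm ν ((d+1)/2) determines i by `Vm_inj`, d/2+1 ≤ E/2+1 ≤ i). The second coordinate is determined by the first (Sz ν j = Sz μ i, `csize_cw`, `Sz_inj`), and is increasing in i (`Sz_mono`).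
For e ∈ Q choose m(e) < j with m + hb (ν m) = d (`dm_attained`). If i < i' then d < d' (`dm_mono` and d ≠ d'), j < j', and m(e') ≥ j > m(e), because m(e') < j would give d' ≤ dm ν j = d (`le_dm`). So the positions m(e) are distinct. hb (ν (m e)) = d - m(e) ≥ (i - 1) - (j - 1) ≥ i - E/2 (`le_dm_self`: i ≤ d+1; m(e) ≤ j-1, j ≤ E/2) and
hb ≤ sz (`hb_le_sz`). So ∑ over e of (e.1 - E/2) ≤ ∑ sz (ν (m e)) ≤ Sz ν (E+1); the i are distinct and ≥ E/2+2: `sum_distinct` for the image of Q under fst.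
-/

open Multiset

namespace TRD

noncomputable section

theorem c_cross {μ ν : ℕ → Multiset RT} {D E : ℕ} (hμ : GW μ D) (hν : GW ν E)
    (Q : Finset (ℕ × ℕ))
    (hQ : ∀ e ∈ Q, E / 2 + 2 ≤ e.1 ∧ e.1 ≤ D ∧ 1 ≤ e.2 ∧ e.2 ≤ E / 2 ∧ cw μ e.1 = cw ν e.2 ∧
      Vm μ e.1 (dm μ e.1 / 2 + 1) = Lm ν ((dm μ e.1 + 1) / 2)) :
    Q.card * (Q.card + 1) ≤ 2 * Sz ν (E + 1) := by
  classical
  have hdm : ∀ e ∈ Q, dm ν e.2 = dm μ e.1 := by
    intro e he
    obtain ⟨h1, h2, h3, h4, h5, _⟩ := hQ e he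
    exact (cw_dest (by omega) h3 (fun m hm => (hμ m (by omega)).1)
      (fun m hm => (hν m (by omega)).1) h5).1
  have hS : ∀ e ∈ Q, Sz μ e.1 = Sz ν e.2 := by
    intro e he
    obtain ⟨h1, h2, h3, h4, h5, _⟩ := hQ e he
    rw [← csize_cw μ (by omega : 1 ≤ e.1), ← csize_cw ν h3, h5]
  have hfst : ∀ e ∈ Q, ∀ f ∈ Q, e.1 = f.1 → e = f := by
    intro e he f hf hef
    have h1 := hS e he
    have h2 := hS f hf
    rw [hef, h2] at h1
    exact Prod.ext hef (Sz_inj ν h1.symm)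
  have hd : ∀ e ∈ Q, ∀ f ∈ Q, dm μ e.1 = dm μ f.1 → e = f := by
    intro e he f hf hef
    apply hfst e he f hf
    obtain ⟨h1, h2, h3, h4, h5, h6⟩ := hQ e he
    obtain ⟨k1, k2, k3, k4, k5, k6⟩ := hQ f hf
    have h7 : dm μ e.1 ≤ E := by
      rw [← hdm e he]
      exact dm_GW hν (by omega)
    rw [← hef, ← h6] at k6
    exact Vm_inj μ (by omega) (by omega) k6.symm
  have hm : ∀ e : ℕ × ℕ, ∃ m : ℕ, e ∈ Q → m < e.2 ∧ m + hb (ν m) = dm ν e.2 := by
    intro e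
    by_cases he : e ∈ Q
    · obtain ⟨m, h1, h2⟩ := dm_attained ν (hQ e he).2.2.1
      exact ⟨m, fun _ => ⟨h1, h2⟩⟩
    · exact ⟨0, fun h => absurd h he⟩
  choose m hm using hm
  have hinj : Set.InjOn m (Q : Set (ℕ × ℕ)) := by
    intro e he f hf hef
    have he' : e ∈ Q := he
    have hf' : f ∈ Q := hf
    have h1 := (hm e he').2
    have h2 := (hm f hf').2
    apply hd e he' f hf'
    rw [← hdm e he', ← hdm f hf', ← h1, ← h2, hef]
  have h1 : ∀ e ∈ Q, e.1 - E / 2 ≤ sz (ν (m e)) := by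
    intro e he
    obtain ⟨h1, h2, h3, h4, h5, h6⟩ := hQ e he
    obtain ⟨k1, k2⟩ := hm e he
    have k3 := hdm e he
    have k4 : e.1 ≤ dm μ e.1 + 1 := le_dm_self μ (by omega)
    have k5 := hb_le_sz (ν (m e))
    omega
  have h2 : ∑ e ∈ Q, (e.1 - E / 2) ≤ Sz ν (E + 1) := by
    calc ∑ e ∈ Q, (e.1 - E / 2) ≤ ∑ e ∈ Q, sz (ν (m e)) := Finset.sum_le_sum h1
      _ ≤ ∑ e ∈ Q, (1 + sz (ν (m e))) := Finset.sum_le_sum (fun e _ => by omega)
      _ = ∑ l ∈ Q.image m, (1 + sz (ν l)) := by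
          rw [Finset.sum_image hinj]
      _ ≤ ∑ l ∈ Finset.range (E + 1), (1 + sz (ν l)) := by
          apply Finset.sum_le_sum_of_subset
          intro l hl
          rw [Finset.mem_image] at hl
          obtain ⟨e, he, rfl⟩ := hl
          rw [Finset.mem_range]
          have := (hm e he).1
          have := (hQ e he).2.2.2.1
          omega
      _ = Sz ν (E + 1) := rfl
  have hfi : Set.InjOn Prod.fst (Q : Set (ℕ × ℕ)) := fun e he f hf hef => hfst e he f hf hef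
  have h3 := sum_distinct (Q.image Prod.fst) (E / 2) (by
    intro i hi
    rw [Finset.mem_image] at hi
    obtain ⟨e, he, rfl⟩ := hi
    have := (hQ e he).1
    omega)
  rw [Finset.card_image_of_injOn hfi, Finset.sum_image hfi] at h3
  omega

end

end TRD
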