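import Pool.Agent.Lib.TRD.Basic

/-! # TRD.DeckFlip (MP_2e3d39_co)

The deck is an invariant of the unrooted tree, and a symmetric formula for two rooted trees joined by an edge.

`deck_join`: P = node A, Q = node B (A = ch P, B = ch Q), x = node (P ::ₘ ch Q)... Write dl (node (P ::ₘ B)) with `dl_node` (bind over P ::ₘ B): the term of P: (node B, ch P) ::ₘ (dl P).map (fun e => (node (e.1 ::ₘ B), e.2)) [erase_cons_head]; node B = Q. The cards of these: cls Q ::ₘ (ch P).map cls, and
cls (node (e.1 ::ₘ ch Q)) ::ₘ e.2.map cls, where cls (node (e.1 ::ₘ ch Q)) = cls (node (Q ::ₘ ch e.1)) by `cls_flip`. The terms of y ∈ B: ((P ::ₘ B).erase y = P ::ₘ B.erase y): (node (P ::ₘ B.erase y), ch y) and (node (e.1 ::ₘ P ::ₘ B.erase y), e.2) for e ∈ dl y; since dl Q = dl (node B) = B.bind (...(node (B.erase y), ch y) ...(node (e.1 ::ₘ B.erase y), e.2)),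
this part is (dl Q).map (fun f => (node (P ::ₘ ch f.1), f.2)), whose cards are cls (node (P ::ₘ ch f.1)) ::ₘ f.2.map cls. The root card is (P ::ₘ ch Q).map cls. And cls Q ::ₘ (ch P).map cls = (Q ::ₘ ch P).map cls. So the formula holds; it is symmetric in P, Q, hence
deck (node (P ::ₘ ch Q)) = deck (node (Q ::ₘ ch P)): invariance under flips. Lift through Quot for `deck_cls`.
-/

open Multiset

namespace TRD

noncomputable section

namespace DeckFlipAux

theorem erase_cons_mem (P y : RT) (B : Multiset RT) (hy : y ∈ B) :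
    (P ::ₘ B).erase y = P ::ₘ B.erase y := by
  by_cases h : y = P
  · subst h
    rw [Multiset.erase_cons_head, Multiset.cons_erase hy]
  · exact Multiset.erase_cons_tail B (fun h' => h h'.symm)

theorem dl_join (P : RT) (B : Multiset RT) : dl (node (P ::ₘ B)) =
    ((node B, ch P) ::ₘ (dl P).map (fun e => (node (e.1 ::ₘ B), e.2))) +
      (dl (node B)).map (fun f => (node (P ::ₘ ch f.1), f.2)) := by
  rw [dl_node, Multiset.cons_bind]
  congr 1
  · rw [Multiset.erase_cons_head]
  · rw [dl_node, Multiset.map_bind]
    apply Multiset.bind_congr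
    intro y hy
    rw [Multiset.map_cons, Multiset.map_map, erase_cons_mem P y B hy]
    simp only [ch_node]
    congr 1
    apply Multiset.map_congr rfl
    intro e _
    simp only [Function.comp, ch_node]
    rw [Multiset.cons_swap]

end DeckFlipAux

open DeckFlipAux in
theorem deck_join (P Q : RT) : deck (node (P ::ₘ ch Q)) =
    (P ::ₘ ch Q).map cls ::ₘ (Q ::ₘ ch P).map cls ::ₘ
      ((dl Q).map (fun e => cls (node (P ::ₘ ch e.1)) ::ₘ e.2.map cls) +
       (dl P).map (fun e => cls (node (Q ::ₘ ch e.1)) ::ₘ e.2.map cls)) := by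
  unfold deck
  rw [ch_node, dl_join, Multiset.map_add, node_ch, Multiset.map_cons card0, Multiset.map_map,
    Multiset.map_map, Multiset.cons_add, add_comm (Multiset.map (card0 ∘ _) (dl P))]
  congr 1
  have e1 : card0 (Q, ch P) = Multiset.map cls (Q ::ₘ ch P) := by
    rw [Multiset.map_cons]
    rfl
  rw [e1]
  congr 1
  · congr 1
    apply Multiset.map_congr rfl
    intro e _
    simp only [Function.comp, card0]
    congr 1
    have h := cls_flip (ch Q) (ch e.1)
    rw [node_ch, node_ch] at h
    exact h

theorem deck_cls {x y : RT} (h : cls x = cls y) : deck x = deck y := by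
  have hf : ∀ a b : RT, Flip a b → deck a = deck b := by
    rintro a b ⟨A, B, rfl, rfl⟩
    have h1 := deck_join (node B) (node A)
    have h2 := deck_join (node A) (node B)
    rw [ch_node] at h1 h2
    rw [ch_node] at h1 h2
    rw [h1, h2, Multiset.cons_swap, add_comm]
  have h1 := congrArg (Quot.lift deck hf) h
  exact h1

end

end TRD
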