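import Pool.Agent.Lib.TRD.DeckFlip
import Pool.Agent.Lib.TRD.CardcRt

/-! # TRD.DeckWord (MP_2e3d39_co)

The deck of a tree through its centre form (virtual root for odd diameter).

D even, D = 2H: cls (rt μ (D+1) D) = cw μ (D+1) (`cw_rt`), so deck x = deck (rt μ (D+1) D) by `deck_cls`; cardc D = card0 for even D.
D odd, D = 2H+1: Lm μ (H+1) = {P}, Vm μ (D+1) (H+1) = {Q} with Q = node (μ (H+1) + Vm μ (D+1) (H+2)), rt μ (D+1) D = node {P, Q}; by `cw_eq` at H+1, cls x = cls (node (P ::ₘ ch Q)), so deck x is given by `deck_join`. On the other side dl (node {P, Q}) = (node {Q}, ch P) ::ₘ (dl P).map (fun e => (node (e.1 ::ₘ {Q}), e.2)) +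
the same with P, Q exchanged (`dl_node`); cardc: vt {Q} + (ch P).map cls = cls Q ::ₘ (ch P).map cls (`vt_single`), vt {e.1, Q} = {cls (node (e.1 ::ₘ ch Q))} = {cls (node (Q ::ₘ ch e.1))} (`vt_pair`, `cls_flip`).
-/

open Multiset

namespace TRD

noncomputable section

private theorem cls_swap (A B : RT) : cls (node (A ::ₘ ch B)) = cls (node (B ::ₘ ch A)) := by
  have h := cls_flip (ch B) (ch A)
  rw [node_ch, node_ch] at h
  exact h

private theorem cardc_odd {D : ℕ} (hD : ¬ D % 2 = 0) (e : RT × Multiset RT) :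
    cardc D e = vt (ch e.1) + e.2.map cls := by
  unfold cardc
  rw [if_neg hD]

private theorem term_odd {D : ℕ} (hD : ¬ D % 2 = 0) (P Q : RT) :
    ((node {Q}, ch P) ::ₘ (dl P).map (fun e => (node (e.1 ::ₘ {Q}), e.2))).map (cardc D) =
      (Q ::ₘ ch P).map cls ::ₘ (dl P).map (fun e => cls (node (Q ::ₘ ch e.1)) ::ₘ e.2.map cls) := by
  rw [Multiset.map_cons, Multiset.map_map, cardc_odd hD, ch_node, vt_single, Multiset.map_cons,
    Multiset.singleton_add]
  congr 1
  apply Multiset.map_congr rfl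
  intro e _
  show cardc D (node (e.1 ::ₘ {Q}), e.2) = _
  rw [cardc_odd hD]
  show vt (ch (node (e.1 ::ₘ {Q}))) + e.2.map cls = _
  rw [ch_node, show (e.1 ::ₘ ({Q} : Multiset RT)) = {e.1, Q} from rfl, vt_pair,
    Multiset.singleton_add, cls_swap]

private theorem dl_pair {D : ℕ} (hD : ¬ D % 2 = 0) (P Q : RT) :
    (dl (node (P ::ₘ {Q}))).map (cardc D) = deck (node (P ::ₘ ch Q)) := by
  have e1 : (P ::ₘ ({Q} : Multiset RT)).erase P = {Q} := Multiset.erase_cons_head P {Q}
  have e0 : (P ::ₘ ({Q} : Multiset RT)) = Q ::ₘ {P} := Multiset.cons_swap P Q 0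
  have e2 : (P ::ₘ ({Q} : Multiset RT)).erase Q = {P} := by
    rw [e0]
    exact Multiset.erase_cons_head Q {P}
  rw [dl_node, Multiset.cons_bind, Multiset.singleton_bind, e1, e2, Multiset.map_add,
    term_odd hD P Q, term_odd hD Q P, deck_join]
  rw [Multiset.cons_add, Multiset.add_cons, Multiset.cons_swap]
  congr 2
  exact add_comm _ _

theorem deck_word {μ : ℕ → Multiset RT} {D : ℕ} (hD : 1 ≤ D) {x : RT}
    (hx : cls x = cw μ (D + 1)) :
    deck x = (if D % 2 = 0 then {(ch (rt μ (D + 1) D)).map cls} else 0) +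
      (dl (rt μ (D + 1) D)).map (cardc D) := by
  by_cases h : D % 2 = 0
  · rw [if_pos h]
    have h1 : cls x = cls (rt μ (D + 1) D) := by
      have h2 := cw_rt μ (i := D + 1) (h := D / 2) (by omega)
      rw [show 2 * (D / 2) = D by omega] at h2
      rw [hx, h2]
    rw [deck_cls h1, Multiset.singleton_add]
    unfold deck
    congr 1
    apply Multiset.map_congr rfl
    intro e _
    unfold cardc card0
    rw [if_pos h]
  · rw [if_neg h, zero_add]
    obtain ⟨H, rfl⟩ : ∃ H, D = 2 * H + 1 := ⟨D / 2, by omega⟩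
    have h1 : cls x = cls (node (node (μ H + Lm μ H) ::ₘ
        ch (node (μ (H + 1) + Vm μ (2 * H + 1 + 1) (H + 2))))) := by
      rw [hx, ← cw_eq μ (h := H + 1) (i := 2 * H + 1 + 1) (by omega), ch_node,
        show Lm μ (H + 1) = {node (μ H + Lm μ H)} from rfl, add_assoc, Multiset.singleton_add]
    have h2 : rt μ (2 * H + 1 + 1) (2 * H + 1) = node (node (μ H + Lm μ H) ::ₘ
        {node (μ (H + 1) + Vm μ (2 * H + 1 + 1) (H + 2))}) := by
      unfold rt
      rw [if_neg h, show (2 * H + 1 + 1) / 2 = H + 1 by omega,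
        show (2 * H + 1) / 2 = H by omega, add_zero,
        show Lm μ (H + 1) = {node (μ H + Lm μ H)} from rfl,
        Vm_of_lt μ (by omega : H + 1 < 2 * H + 1 + 1), Multiset.singleton_add]
    rw [deck_cls h1, h2, dl_pair h]

end

end TRD
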