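import Pool.Agent.Lib.TRD.Code

/-! # Words, matchings, good pairs (package TRD, MP_2e3d39_co): definitions -/

open Multiset

namespace TRD

noncomputable section

/-! ## matchings between multisets -/

/-- `M` is a matching between the multisets `A` and `B` for the relation `r` -/
def Mt {α β : Type} (M : Multiset (α × β)) (A : Multiset α) (B : Multiset β)
    (r : α → β → Prop) : Prop :=
  M.map Prod.fst ≤ A ∧ M.map Prod.snd ≤ B ∧ ∀ e ∈ M, r e.1 e.2

/-- relation of good pairs of entries: same rooted rest, same unrooted components below -/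
def Gr (e e' : RT × Multiset RT) : Prop := e.1 = e'.1 ∧ e.2.map cls = e'.2.map cls

/-- a matching of good pairs between the entries of `x` and `y` -/
def GM (M : Multiset ((RT × Multiset RT) × (RT × Multiset RT))) (x y : RT) : Prop :=
  Mt M (dl x) (dl y) Gr

/-- labelled entries: (child subtree `y` containing the vertex, what remains of `y`, components
below the vertex) -/
def ldl (m : Multiset RT) : Multiset (RT × Multiset RT × Multiset RT) :=
  m.bind (fun y => (dlo y).map (fun o => (y, o)))

/-- number of vertices at depth `k` -/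
def lev : ℕ → RT → ℕ
  | 0, _ => 1
  | k + 1, x => ((ch x).map (lev k)).sum

/-- every node of `x` has at most `C` children -/
inductive Deg (C : ℕ) : RT → Prop
  | mk (m : Multiset RT) : card m ≤ C → (∀ y ∈ m, Deg C y) → Deg C (node m)

/-- root levels along the chain of single differences -/
inductive RL : ℕ → RT → RT → Prop
  | zero (x y : RT) : RL 0 x y
  | step (r : ℕ) (U U' : RT) (s : Multiset RT) : RL r U U' → RL r (node (U ::ₘ s)) (node (U' ::ₘ s))
  | root (r : ℕ) (U U' : RT) (s : Multiset RT) : RL r U U' → (ch U).map cls = (ch U').map cls →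
      RL (r + 1) (node (U ::ₘ s)) (node (U' ::ₘ s))

/-- the extremal family: `x*` with branches `g+1, g+1, g-1` against `g+1, g, g`, below a common
context; `e` is the number of other vertices -/
inductive Fat (g : ℕ) : ℕ → RT → RT → Prop
  | base (P₁ P₂ Q₁ Q₂ : RT) (s : Multiset RT) : size P₁ = g + 1 → size P₂ + 1 = g →
      size Q₁ = g → size Q₂ = g →
      Fat g (sz s) (node (P₁ ::ₘ P₁ ::ₘ P₂ ::ₘ s)) (node (P₁ ::ₘ Q₁ ::ₘ Q₂ ::ₘ s))
  | step (e : ℕ) (x y : RT) (s : Multiset RT) : Fat g e x y →
      Fat g (e + 1 + sz s) (node (x ::ₘ s)) (node (y ::ₘ s))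

/-! ## words: a word is a function `μ : ℕ → Multiset RT`; `μ m` is the multiset of bushes at the
vertex `m` of a path -/

/-- left limb: positions `0, ..., h-1`, rooted at `h-1` (empty for `h = 0`) -/
def Lm (μ : ℕ → Multiset RT) : ℕ → Multiset RT
  | 0 => 0
  | h + 1 => {node (μ h + Lm μ h)}

/-- word of `k` letters starting at position `h`, rooted at `h` -/
def Vk (μ : ℕ → Multiset RT) : ℕ → ℕ → Multiset RT
  | 0, _ => 0
  | k + 1, h => {node (μ h + Vk μ k (h + 1))}

/-- right part: positions `h, ..., i-1`, rooted at `h` (empty for `i ≤ h`) -/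
def Vm (μ : ℕ → Multiset RT) (i h : ℕ) : Multiset RT := Vk μ (i - h) h

/-- positions `0, ..., i-1` rooted at position `a/2` (for odd `a` the root is a virtual vertex in the
middle of an edge) -/
def rt (μ : ℕ → Multiset RT) (i a : ℕ) : RT :=
  node (Lm μ ((a + 1) / 2) + (if a % 2 = 0 then μ (a / 2) else 0) + Vm μ i (a / 2 + 1))

/-- number of vertices at positions `0, ..., i-1` -/
def Sz (μ : ℕ → Multiset RT) (i : ℕ) : ℕ := ∑ m ∈ Finset.range i, (1 + sz (μ m))

/-- diameter of the word `0, ..., i-1` (if `hb (μ m) ≤ m`) -/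
def dm (μ : ℕ → Multiset RT) (i : ℕ) : ℕ := (Finset.range i).sup (fun m => m + hb (μ m))

/-- the unrooted tree of the word on the positions `0, ..., i-1` (`1 ≤ i`) -/
def cw (μ : ℕ → Multiset RT) (i : ℕ) : Cls := cls (node (μ 0 + Vm μ i 1))

/-- good word: the path `0, ..., D` is a longest path -/
def GW (μ : ℕ → Multiset RT) (D : ℕ) : Prop := ∀ m ≤ D, hb (μ m) ≤ m ∧ m + hb (μ m) ≤ D

/-- reversed word -/
def rv (μ : ℕ → Multiset RT) (D : ℕ) : ℕ → Multiset RT := fun m => μ (D - m)

/-- entry of the path vertex `i` for the centre of a good word (`D/2 + 1 ≤ i ≤ D`) -/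
def pe (μ : ℕ → Multiset RT) (D i : ℕ) : RT × Multiset RT :=
  (rt μ i D, μ i + Vm μ (D + 1) (i + 1))

/-- indices of the path vertices to the right of the centre -/
def Ix (D : ℕ) : Finset ℕ := Finset.Icc (D / 2 + 1) D

open Classical in
/-- smoothing a virtual root: the class of `node {A, B}` with the root suppressed -/
def vt (m : Multiset RT) : Multiset Cls :=
  if h : ∃ A B : RT, m = {A, B} then
    {cls (node (h.choose ::ₘ ch h.choose_spec.choose))} else m.map cls

/-- card of an entry if the root is virtual for odd `D` -/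
def cardc (D : ℕ) (e : RT × Multiset RT) : Multiset Cls :=
  if D % 2 = 0 then cls e.1 ::ₘ e.2.map cls else vt (ch e.1) + e.2.map cls

end

end TRD
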