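import Pool.Agent.Lib.TRD.PDefs
import Pool.Agent.Lib.TRD.CcWord
import Pool.Agent.Lib.TRD.WordB

/-! # TRD.Dich (MP_2e3d39_co)

Comparison of two isomorphic components L_i = L'_j of path vertices.

Notation d = dm μ i, h = d/2, M = E/2 + 1. `cw_dest`: dm ν j = d, rt μ i d = rt ν j d (hb (μ m) ≤ m for m < i because GW μ D and i ≤ D; same for ν). d ≤ E (`dm_GW` for ν), h + 1 ≤ M ≤ i - 1, h + 1 ≤ j (`dm_le_two`: d + 2 ≤ 2j).
V m := Vm μ i m, V' m := Vm ν j m. For m ≤ M: m < i, so V m = {node (μ m + V (m+1))} is a singleton. If V m = V' m then V' m ≠ 0, so m < j.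
If d = E: rt μ i E = rt ν j E: first alternative. Let d < E.
(1) d = 2h: node_inj: Lm μ h + μ h + V (h+1) = Lm ν h + ν h + V' (h+1). The element x of V (h+1) is in Lm ν h [then h ≥ 1 and V (h+1) = Lm ν h = Lm ν ((d+1)/2)], or in ν h [second alternative with m = h+1 ≤ M], or in V' (h+1) [then V (h+1) = V' (h+1)]. If V (h+1) = V' (h+1): cancel: Lm μ h + μ h = Lm ν h + ν h, so
  Lm μ (h+1) = Lm ν (h+1). If V (h+1) ≠ V' (h+1) and not second alternative: third alternative.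
(2) d = 2h+1: Lm μ (h+1) + V (h+1) = Lm ν (h+1) + V' (h+1). Either V (h+1) = V' (h+1) and Lm μ (h+1) = Lm ν (h+1), or V (h+1) = Lm ν (h+1), V (h+1) ≠ V' (h+1): third alternative ((d+1)/2 = h+1).
(3) In the equal case: for m from h+1 to M: V m = V' m and Lm μ m = Lm ν m, or second alternative. Step m → m+1 (m < M): V m = V' m gives μ m + V (m+1) = ν m + V' (m+1), V (m+1) = {x}: x ∈ ν m: second alternative with m+1; x ∈ V' (m+1): equal, cancel: μ m = ν m, Lm μ (m+1) = Lm ν (m+1).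
(4) At M: V M = V' M, Lm μ M = Lm ν M. E = 2G, M = G+1: Lm μ (G+1) = Lm ν (G+1) gives Lm μ G + μ G = Lm ν G + ν G, so rt μ i E = rt ν j E. E = 2G+1: rt = node (Lm (G+1) + 0 + V (G+1)), M = G+1.
`dich_cross`: j ≤ E/2: d + 2 ≤ 2j ≤ E excludes d = E, and V' M = 0 (j ≤ M) excludes V M = V' M; so only the alternatives 2, 3 remain.
-/

open Multiset

namespace TRD

noncomputable section

namespace DichAux

theorem eq_of_mem {A : Multiset RT} {x : RT} (hA : card A ≤ 1) (hx : x ∈ A) : A = {x} := by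
  rcases Nat.le_one_iff_eq_zero_or_eq_one.1 hA with h0 | h1
  · rw [Multiset.card_eq_zero.1 h0] at hx
    exact absurd hx (Multiset.notMem_zero x)
  · obtain ⟨y, hy⟩ := Multiset.card_eq_one.1 h1
    rw [hy, Multiset.mem_singleton] at hx
    rw [hy, hx]

theorem core {μ ν : ℕ → Multiset RT} {D E i j : ℕ} (hμ : GW μ D) (hν : GW ν E)
    (hi : E / 2 + 2 ≤ i) (hiD : i ≤ D) (hj : 1 ≤ j) (hjE : j ≤ E) (hc : cw μ i = cw ν j) :
    (dm μ i = E ∧ rt μ i (dm μ i) = rt ν j (dm μ i) ∧ dm μ i + 2 ≤ 2 * j) ∨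
    (Vm μ i (E / 2 + 1) = Vm ν j (E / 2 + 1) ∧ Lm μ (E / 2 + 1) = Lm ν (E / 2 + 1)) ∨
    (∃ m, 1 ≤ m ∧ m ≤ E / 2 + 1 ∧ ∃ x ∈ ν (m - 1), Vm μ i m = {x}) ∨
    (Vm μ i (dm μ i / 2 + 1) = Lm ν ((dm μ i + 1) / 2) ∧
      Vm μ i (dm μ i / 2 + 1) ≠ Vm ν j (dm μ i / 2 + 1)) := by
  have hμ' : ∀ m < i, hb (μ m) ≤ m := fun m hm => (hμ m (by omega)).1
  have hν' : ∀ m < j, hb (ν m) ≤ m := fun m hm => (hν m (by omega)).1
  obtain ⟨hd', hrt⟩ := cw_dest (by omega) hj hμ' hν' hc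
  have hdE : dm ν j ≤ E := dm_GW hν (by omega)
  have h2j := dm_le_two hν' hj
  rw [hd'] at hdE h2j
  generalize hd : dm μ i = d at *
  rcases Nat.eq_or_lt_of_le hdE with hE | hlt
  · left
    exact ⟨hE, hrt, h2j⟩
  right
  obtain ⟨h, hh⟩ : ∃ h, h = d / 2 := ⟨_, rfl⟩
  rw [← hh]
  have hM : h + 1 ≤ E / 2 + 1 := by omega
  have hx : ∀ m, m ≤ E / 2 + 1 → Vm μ i m = {node (μ m + Vm μ i (m + 1))} := fun m hm =>
    Vm_of_lt μ (by omega)
  -- the start
  have start : (Vm μ i (h + 1) = Vm ν j (h + 1) ∧ Lm μ (h + 1) = Lm ν (h + 1)) ∨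
      (∃ m, 1 ≤ m ∧ m ≤ E / 2 + 1 ∧ ∃ x ∈ ν (m - 1), Vm μ i m = {x}) ∨
      (Vm μ i (h + 1) = Lm ν ((d + 1) / 2) ∧ Vm μ i (h + 1) ≠ Vm ν j (h + 1)) := by
    have hV := hx (h + 1) hM
    unfold rt at hrt
    have hrt2 := node_inj hrt
    rw [← hh] at hrt2
    by_cases hpar : d % 2 = 0
    · have h1 : (d + 1) / 2 = h := by omega
      rw [if_pos hpar, if_pos hpar, h1] at hrt2
      rw [h1]
      have heq : Vm μ i (h + 1) = Vm ν j (h + 1) →
          (Vm μ i (h + 1) = Vm ν j (h + 1) ∧ Lm μ (h + 1) = Lm ν (h + 1)) := by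
        intro he
        refine ⟨he, ?_⟩
        rw [he] at hrt2
        have h2 := add_right_cancel hrt2
        show ({node (μ h + Lm μ h)} : Multiset RT) = {node (ν h + Lm ν h)}
        rw [add_comm (μ h), h2, add_comm]
      have hmem : node (μ (h + 1) + Vm μ i (h + 1 + 1)) ∈ Lm ν h + ν h + Vm ν j (h + 1) := by
        rw [← hrt2, hV]
        simp
      rw [Multiset.mem_add, Multiset.mem_add] at hmem
      rcases hmem with (hm | hm) | hm
      · have h3 := eq_of_mem (card_Lm_le ν h) hm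
        by_cases he : Vm μ i (h + 1) = Vm ν j (h + 1)
        · exact Or.inl (heq he)
        · exact Or.inr (Or.inr ⟨by rw [h3, hV], he⟩)
      · exact Or.inr (Or.inl ⟨h + 1, by omega, hM, _, hm, hV⟩)
      · have h3 := eq_of_mem (card_Vm_le ν j (h + 1)) hm
        exact Or.inl (heq (by rw [h3, hV]))
    · have h1 : (d + 1) / 2 = h + 1 := by omega
      rw [if_neg hpar, if_neg hpar, h1, add_zero, add_zero] at hrt2
      rw [h1]
      have heq : Vm μ i (h + 1) = Vm ν j (h + 1) →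
          (Vm μ i (h + 1) = Vm ν j (h + 1) ∧ Lm μ (h + 1) = Lm ν (h + 1)) := by
        intro he
        refine ⟨he, ?_⟩
        rw [he] at hrt2
        exact add_right_cancel hrt2
      have hmem : node (μ (h + 1) + Vm μ i (h + 1 + 1)) ∈ Lm ν (h + 1) + Vm ν j (h + 1) := by
        rw [← hrt2, hV]
        simp
      rw [Multiset.mem_add] at hmem
      rcases hmem with hm | hm
      · have h3 := eq_of_mem (card_Lm_le ν (h + 1)) hm
        by_cases he : Vm μ i (h + 1) = Vm ν j (h + 1)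
        · exact Or.inl (heq he)
        · exact Or.inr (Or.inr ⟨by rw [h3, hV], he⟩)
      · have h3 := eq_of_mem (card_Vm_le ν j (h + 1)) hm
        exact Or.inl (heq (by rw [h3, hV]))
  rcases start with h0 | h0 | h0
  · -- induction
    have ind : ∀ k, h + 1 + k ≤ E / 2 + 1 →
        (Vm μ i (h + 1 + k) = Vm ν j (h + 1 + k) ∧ Lm μ (h + 1 + k) = Lm ν (h + 1 + k)) ∨
        (∃ m, 1 ≤ m ∧ m ≤ E / 2 + 1 ∧ ∃ x ∈ ν (m - 1), Vm μ i m = {x}) := by
      intro k
      induction k with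
      | zero =>
        intro _
        exact Or.inl h0
      | succ k ih =>
        intro hk
        rcases ih (by omega) with ⟨h1, h2⟩ | h1
        · obtain ⟨m, hm⟩ : ∃ m, m = h + 1 + k := ⟨_, rfl⟩
          have hm1 : h + 1 + (k + 1) = m + 1 := by omega
          rw [← hm] at h1 h2
          rw [hm1]
          have hV := hx m (by omega)
          have hV1 := hx (m + 1) (by omega)
          have hmj : m < j := by
            by_contra hcon
            rw [hV, Vm_of_le ν (by omega : j ≤ m)] at h1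
            exact absurd h1 (Multiset.singleton_ne_zero _)
          rw [hV, Vm_of_lt ν hmj] at h1
          have h3 := node_inj (Multiset.singleton_inj.1 h1)
          have hmem : node (μ (m + 1) + Vm μ i (m + 1 + 1)) ∈ ν m + Vm ν j (m + 1) := by
            rw [← h3, hV1]
            simp
          rw [Multiset.mem_add] at hmem
          rcases hmem with hm2 | hm2
          · exact Or.inr ⟨m + 1, by omega, by omega, _, hm2, hV1⟩
          · have h4 := eq_of_mem (card_Vm_le ν j (m + 1)) hm2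
            have h5 : Vm μ i (m + 1) = Vm ν j (m + 1) := by rw [h4, hV1]
            refine Or.inl ⟨h5, ?_⟩
            rw [h5] at h3
            have h6 := add_right_cancel h3
            show ({node (μ m + Lm μ m)} : Multiset RT) = {node (ν m + Lm ν m)}
            rw [h6, h2]
        · exact Or.inr h1
    have hk : h + 1 + (E / 2 + 1 - (h + 1)) = E / 2 + 1 := by omega
    have := ind (E / 2 + 1 - (h + 1)) (by omega)
    rw [hk] at this
    rcases this with h1 | h1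
    · exact Or.inl h1
    · exact Or.inr (Or.inl h1)
  · exact Or.inr (Or.inl h0)
  · exact Or.inr (Or.inr h0)

end DichAux

theorem dich {μ ν : ℕ → Multiset RT} {D E i j : ℕ} (hμ : GW μ D) (hν : GW ν E)
    (hi : E / 2 + 2 ≤ i) (hiD : i ≤ D) (hj : 1 ≤ j) (hjE : j ≤ E) (hc : cw μ i = cw ν j) :
    rt μ i E = rt ν j E ∨
    (∃ m, 1 ≤ m ∧ m ≤ E / 2 + 1 ∧ ∃ x ∈ ν (m - 1), Vm μ i m = {x}) ∨
    (Vm μ i (dm μ i / 2 + 1) = Lm ν ((dm μ i + 1) / 2) ∧
      Vm μ i (dm μ i / 2 + 1) ≠ Vm ν j (dm μ i / 2 + 1)) := by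
  rcases DichAux.core hμ hν hi hiD hj hjE hc with ⟨h1, h2, _⟩ | ⟨h1, h2⟩ | h | h
  · left
    rw [h1] at h2
    exact h2
  · left
    unfold rt
    by_cases hpar : E % 2 = 0
    · have h3 : (E + 1) / 2 = E / 2 := by omega
      rw [if_pos hpar, if_pos hpar, h3, h1]
      have h4 : ({node (μ (E / 2) + Lm μ (E / 2))} : Multiset RT) =
        {node (ν (E / 2) + Lm ν (E / 2))} := h2
      have h5 := node_inj (Multiset.singleton_inj.1 h4)
      rw [add_comm (Lm μ (E / 2)), h5, add_comm (ν (E / 2))]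
    · have h3 : (E + 1) / 2 = E / 2 + 1 := by omega
      rw [if_neg hpar, if_neg hpar, h3, h1, h2]
  · exact Or.inr (Or.inl h)
  · exact Or.inr (Or.inr h)

theorem dich_cross {μ ν : ℕ → Multiset RT} {D E i j : ℕ} (hμ : GW μ D) (hν : GW ν E)
    (hi : E / 2 + 2 ≤ i) (hiD : i ≤ D) (hj : 1 ≤ j) (hjE : j ≤ E / 2) (hc : cw μ i = cw ν j) :
    (∃ m, 1 ≤ m ∧ m ≤ E / 2 + 1 ∧ ∃ x ∈ ν (m - 1), Vm μ i m = {x}) ∨
    (Vm μ i (dm μ i / 2 + 1) = Lm ν ((dm μ i + 1) / 2) ∧
      Vm μ i (dm μ i / 2 + 1) ≠ Vm ν j (dm μ i / 2 + 1)) := by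
  rcases DichAux.core hμ hν hi hiD hj (by omega) hc with ⟨h1, _, h2⟩ | ⟨h1, h2⟩ | h | h
  · omega
  · rw [Vm_of_lt μ (by omega : E / 2 + 1 < i), Vm_of_le ν (by omega : j ≤ E / 2 + 1)] at h1
    exact absurd h1 (Multiset.singleton_ne_zero _)
  · exact Or.inl h
  · exact Or.inr h

end

end TRD
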