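import Pool.Agent.Lib.TRD.LimbDl
import Pool.Agent.Lib.TRD.WordC
import Pool.Agent.Lib.TRD.WordB

/-! # TRD.DlWord (MP_2e3d39_co)

Entries of the centre form of a good word: right path vertices, left path vertices, bush vertices; deleting inside a bush leaves a good word with the same D.

Proof. z = rt μ (D+1) D = node (Lm μ g + mid + Vm μ (D+1) (D/2+1)), g = (D+1)/2, mid = μ (D/2) or 0. By `dl_node'` dl z is a bind over the three parts (use bind_add; erase of an element y of one part from the sum leaves the other parts: for the singletons Lm μ g = {P}, Vm = {Q}: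
(Lm + mid + Vm).erase Q = Lm + mid; if equal codes occur elsewhere the multiset result is the same).
Right part: `limb_dl` with n = D+1, h = D/2+1: the entry i gives (node (Vm μ i (D/2+1) + Lm μ g + mid), μ i + Vm μ (D+1) (i+1)) = pe μ D i; Ico (D/2+1) (D+1) = Icc (D/2+1) D = Ix D. A bush entry gives rt μ^ (D+1) D with μ^ = update μ m (o1.1 + (μ m).erase y), m ≥ D/2+1
 (Lm μ^ g = Lm μ g as g ≤ D/2+1 ≤ m, and μ^ (D/2) = μ (D/2)). μ^ is a good word: hb (o1.1 + (μ m).erase y) ≤ hb (μ m) because hb o1.1 ≤ ht y + 1 ≤ hb (μ m) (`dlo_hb`, `ht_lt_hb`) and hb of the erased multiset is ≤ (hb is monotone; hb_cons with cons_erase).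
Left part: `rt_rv`: z = rt (rv μ D) (D+1) D, the left limb of μ is the right limb of rv μ D (`Lm_eq_Vm_rv`, D + 1 - g = D/2 + 1), same argument for rv μ D; the words obtained are good words μ' for rv μ D with e.1 = rt μ' (D+1) D.
Middle part (D even): y ∈ μ (D/2), o ∈ dlo y: node (o.1 + Lm + mid.erase y + Vm) = rt μ^ (D+1) D with μ^ = update μ (D/2) (o.1 + (μ (D/2)).erase y).
B = all bush entries.
-/

open Multiset

namespace TRD

noncomputable section

namespace DlWordAux

private theorem part1 (X R : Multiset RT) (hX : card X ≤ 1) :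
    X.bind (fun y => (dlo y).map (fun e => (node (e.1 + (X + R).erase y), e.2))) =
      (X.bind dlo).map (fun o => (node (o.1 + R), o.2)) := by
  rcases Nat.lt_or_ge (card X) 1 with h | h
  · have h0 : X = 0 := by
      rw [← Multiset.card_eq_zero]
      omega
    subst h0
    simp
  · have h1 : card X = 1 := le_antisymm hX h
    obtain ⟨Q, rfl⟩ := Multiset.card_eq_one.1 h1
    rw [Multiset.singleton_bind, Multiset.singleton_bind, Multiset.singleton_add,
      Multiset.erase_cons_head]

private theorem hb_erase {M : Multiset RT} {y : RT} (hy : y ∈ M) : hb (M.erase y) ≤ hb M := by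
  have h : hb (y ::ₘ M.erase y) = hb M := by rw [Multiset.cons_erase hy]
  rw [hb_cons] at h
  omega

private theorem hb_new {M : Multiset RT} {y : RT} (hy : y ∈ M) {o : Multiset RT × Multiset RT}
    (ho : o ∈ dlo y) : hb (o.1 + M.erase y) ≤ hb M := by
  have h1 := (dlo_hb ho).1
  have h2 := ht_lt_hb hy
  have h3 := hb_erase hy
  rw [hb_add]
  omega

private theorem GW_update {ν : ℕ → Multiset RT} {D : ℕ} (hν : GW ν D) (m : ℕ) {X : Multiset RT}
    (hX : hb X ≤ hb (ν m)) : GW (Function.update ν m X) D := by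
  intro j hj
  have h := hν j hj
  by_cases hm : j = m
  · subst hm
    rw [Function.update_self]
    omega
  · rw [Function.update_of_ne hm]
    exact h

/-- the letter at the centre -/
private def mid (ν : ℕ → Multiset RT) (D : ℕ) : Multiset RT := if D % 2 = 0 then ν (D / 2) else 0

private theorem rt_eq (ν : ℕ → Multiset RT) (i D : ℕ) :
    rt ν i D = node (Lm ν ((D + 1) / 2) + mid ν D + Vm ν i (D / 2 + 1)) := rfl

private theorem right {ν : ℕ → Multiset RT} {D : ℕ} (hν : GW ν D) :
    ∃ B : Multiset (RT × Multiset RT),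
      ((Vm ν (D + 1) (D / 2 + 1)).bind dlo).map
        (fun o => (node (o.1 + (Lm ν ((D + 1) / 2) + mid ν D)), o.2)) =
        (Ix D).val.map (pe ν D) + B ∧
      ∀ e ∈ B, ∃ μ' : ℕ → Multiset RT, GW μ' D ∧ e.1 = rt μ' (D + 1) D := by
  obtain ⟨B0, h0, hB0⟩ := limb_dl ν (n := D + 1) (h := D / 2 + 1) (by omega)
  refine ⟨B0.map (fun o => (node (o.1 + (Lm ν ((D + 1) / 2) + mid ν D)), o.2)), ?_, ?_⟩
  · rw [h0, Multiset.map_add, Multiset.map_map]
    congr 1
    have hI : Finset.Ico (D / 2 + 1) (D + 1) = Ix D := by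
      unfold Ix
      ext j
      rw [Finset.mem_Ico, Finset.mem_Icc]
      omega
    rw [hI]
    apply Multiset.map_congr rfl
    intro i _
    show (node (Vm ν i (D / 2 + 1) + (Lm ν ((D + 1) / 2) + mid ν D)), ν i + Vm ν (D + 1) (i + 1)) =
      (rt ν i D, ν i + Vm ν (D + 1) (i + 1))
    rw [rt_eq, add_comm (Vm ν i (D / 2 + 1))]
  · intro e he
    rw [Multiset.mem_map] at he
    obtain ⟨o, ho, rfl⟩ := he
    obtain ⟨m, hm1, hm2, y, hy, o1, ho1, rfl⟩ := hB0 o ho
    refine ⟨Function.update ν m (o1.1 + (ν m).erase y), GW_update hν m (hb_new hy ho1), ?_⟩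
    show node (Vm (Function.update ν m (o1.1 + (ν m).erase y)) (D + 1) (D / 2 + 1) +
      (Lm ν ((D + 1) / 2) + mid ν D)) = _
    rw [rt_eq]
    have e1 : Lm (Function.update ν m (o1.1 + (ν m).erase y)) ((D + 1) / 2) =
        Lm ν ((D + 1) / 2) := by
      apply Lm_congr
      intro j hj
      exact Function.update_of_ne (by omega) _ _
    have e2 : mid (Function.update ν m (o1.1 + (ν m).erase y)) D = mid ν D := by
      unfold mid
      rw [Function.update_of_ne (by omega)]
    rw [e1, e2, add_comm]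

private theorem middle {μ : ℕ → Multiset RT} {D : ℕ} (hμ : GW μ D) (e : RT × Multiset RT)
    (he : e ∈ (mid μ D).bind (fun y => (dlo y).map (fun e => (node (e.1 +
      (Lm μ ((D + 1) / 2) + mid μ D + Vm μ (D + 1) (D / 2 + 1)).erase y), e.2)))) :
    ∃ μ' : ℕ → Multiset RT, GW μ' D ∧ e.1 = rt μ' (D + 1) D := by
  rw [Multiset.mem_bind] at he
  obtain ⟨y, hy, he⟩ := he
  rw [Multiset.mem_map] at he
  obtain ⟨o, ho, rfl⟩ := he
  have hD : D % 2 = 0 := by
    by_contra h
    rw [mid, if_neg h] at hy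
    exact absurd hy (Multiset.notMem_zero y)
  have hmid : mid μ D = μ (D / 2) := if_pos hD
  rw [hmid] at hy
  refine ⟨Function.update μ (D / 2) (o.1 + (μ (D / 2)).erase y),
    GW_update hμ _ (hb_new hy ho), ?_⟩
  show node (o.1 + (Lm μ ((D + 1) / 2) + mid μ D + Vm μ (D + 1) (D / 2 + 1)).erase y) = _
  rw [rt_eq]
  have e1 : Lm (Function.update μ (D / 2) (o.1 + (μ (D / 2)).erase y)) ((D + 1) / 2) =
      Lm μ ((D + 1) / 2) := by
    apply Lm_congr
    intro j hj
    exact Function.update_of_ne (by omega) _ _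
  have e2 : mid (Function.update μ (D / 2) (o.1 + (μ (D / 2)).erase y)) D =
      o.1 + (μ (D / 2)).erase y := by
    unfold mid
    rw [if_pos hD, Function.update_self]
  have e3 : Vm (Function.update μ (D / 2) (o.1 + (μ (D / 2)).erase y)) (D + 1) (D / 2 + 1) =
      Vm μ (D + 1) (D / 2 + 1) := by
    apply Vm_congr
    intro j hj _
    exact Function.update_of_ne (by omega) _ _
  rw [e1, e2, e3, hmid, Multiset.erase_add_left_pos _ (Multiset.mem_add.2 (Or.inr hy)),
    Multiset.erase_add_right_pos _ hy]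
  congr 1
  rw [← add_assoc, ← add_assoc, ← add_assoc, add_comm o.1]

end DlWordAux

open DlWordAux in
theorem dl_word {μ : ℕ → Multiset RT} {D : ℕ} (hμ : GW μ D) (hD : 1 ≤ D) :
    ∃ B : Multiset (RT × Multiset RT),
      dl (rt μ (D + 1) D) = (Ix D).val.map (pe μ D) + (Ix D).val.map (pe (rv μ D) D) + B ∧
      ∀ e ∈ B, ∃ μ' : ℕ → Multiset RT, GW μ' D ∧ e.1 = rt μ' (D + 1) D := by
  have hz : dl (rt μ (D + 1) D) = (Lm μ ((D + 1) / 2) + mid μ D + Vm μ (D + 1) (D / 2 + 1)).bind
      (fun y => (dlo y).map (fun e => (node (e.1 +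
        (Lm μ ((D + 1) / 2) + mid μ D + Vm μ (D + 1) (D / 2 + 1)).erase y), e.2))) := by
    rw [rt_eq, dl_node']
  obtain ⟨B1, h1, hB1⟩ := right hμ
  obtain ⟨B2, h2, hB2⟩ := right (GW_rv hμ)
  have hV : (Vm μ (D + 1) (D / 2 + 1)).bind (fun y => (dlo y).map (fun e => (node (e.1 +
        (Lm μ ((D + 1) / 2) + mid μ D + Vm μ (D + 1) (D / 2 + 1)).erase y), e.2))) =
      (Ix D).val.map (pe μ D) + B1 := by
    rw [add_comm (Lm μ ((D + 1) / 2) + mid μ D), part1 _ _ (card_Vm_le μ _ _), h1]
  have hL : (Lm μ ((D + 1) / 2)).bind (fun y => (dlo y).map (fun e => (node (e.1 +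
        (Lm μ ((D + 1) / 2) + mid μ D + Vm μ (D + 1) (D / 2 + 1)).erase y), e.2))) =
      (Ix D).val.map (pe (rv μ D) D) + B2 := by
    have e1 : Lm μ ((D + 1) / 2) = Vm (rv μ D) (D + 1) (D / 2 + 1) := by
      rw [Lm_eq_Vm_rv μ (D := D) (h := (D + 1) / 2) (by omega)]
      congr 1
      omega
    have e2 : Vm μ (D + 1) (D / 2 + 1) = Lm (rv μ D) ((D + 1) / 2) := by
      rw [Vm_eq_Lm_rv μ (D := D) (h := D / 2 + 1) (by omega)]
      congr 1
      omega
    have e3 : mid μ D = mid (rv μ D) D := by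
      unfold mid
      by_cases hD2 : D % 2 = 0
      · rw [if_pos hD2, if_pos hD2]
        unfold rv
        congr 1
        omega
      · rw [if_neg hD2, if_neg hD2]
    rw [add_assoc, part1 _ _ (card_Lm_le μ _), ← h2, e1, e2, e3,
      add_comm (mid (rv μ D) D)]
  refine ⟨B1 + B2 + (mid μ D).bind (fun y => (dlo y).map (fun e => (node (e.1 +
    (Lm μ ((D + 1) / 2) + mid μ D + Vm μ (D + 1) (D / 2 + 1)).erase y), e.2))), ?_, ?_⟩
  · rw [hz, Multiset.add_bind, Multiset.add_bind, hV, hL]
    abel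
  · intro e he
    rw [Multiset.mem_add, Multiset.mem_add] at he
    rcases he with (he | he) | he
    · exact hB1 e he
    · exact hB2 e he
    · exact middle hμ e he

end

end TRD
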