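import Pool.Agent.Lib.TRD.ClsWord
import Pool.Agent.Lib.TRD.WordA
import Pool.Agent.Lib.TRD.Classify

/-! # TRD.FatExc (MP_2e3d39_co)

Extremal family: a pair of deletions with isomorphic but differently rooted main components is the exceptional one.

X = node (P₁ ::ₘ P₁ ::ₘ P₂ ::ₘ s), Y = node (P₁ ::ₘ Q₁ ::ₘ Q₂ ::ₘ s), sizes g+1, g+1, g-1 and g+1, g, g; all elements of s have size ≤ sz s ≤ g-2. K = e.1, K' = e'.1, cls K = cls K', K ≠ K'.
e comes from a label P ∈ ch X and o ∈ dlo P: K = node (o.1 + (ch X).erase P), sz o.1 + sz o.2 + 1 = size P; all children of K have size ≤ g+1. Same for e' (label Q', o').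
δ := size X - size K = sz e.2 + 1 ≤ size P ≤ g+1; size X = size Y = 3g+2+sz s (g ≥ 1: size P₂ + 1 = g), size K = size K' (csize), so δ' = δ.
`cls_word`: k, σ with K = node (σ 0 + Vm σ (k+1) 1), K' = node (σ k + Lm σ k); k ≥ 1 since K ≠ K'. Vm σ (k+1) 1 = {b}, b ∈ ch K, Lm σ k = {a}, a ∈ ch K'. size a = Sz σ k ≥ Sz σ 1 = size (node (σ 0)) = size K - size b ≥ size K - (g+1), size a ≤ g+1. So size K ≤ 2g+2, δ ≥ g + sz s. With δ ≤ g+1: sz s ≤ 1.
(1) sz s = 1, δ = g+1, s = {node 0}: size P ≥ g+1, so P = P₁ in size and o.1 = 0 (sz o.1 = size P - δ = 0): for Y: the label Q' has size ≥ g+1, so Q' = P₁ (Q₁,Q₂,node 0 are smaller), o'.1 = 0, K' = node (Q₁ ::ₘ Q₂ ::ₘ s): its children have size ≤ g, but size a ≥ size K - (g+1) = 2g+2-(g+1) = g+1: contradiction.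
(2) sz s = 0, s = 0, δ = g+1: P = P₁, o.1 = 0, K = node {P₁, P₂}; Q' = P₁, K' = node {Q₁, Q₂}; size K = 2g+1. a ∈ {Q₁,Q₂}, size a = g, so size b ≥ size K - size a = g+1: b = P₁ (P₂ is smaller), σ 0 = {P₂}, size (node (σ 0)) = g = Sz σ k, so k = 1 (`Sz_mono`/`Sz_inj`: Sz σ 1 = g = Sz σ k). a = node (σ 0) = node {P₂}, b = node (σ 1) = P₁ (Vm σ 2 1 = {node (σ 1)}), σ 1 + {a} = {Q₁,Q₂}: σ 1 = {Y₀},
    {Q₁, Q₂} = {Y₀, node {P₂}}, P₁ = node {Y₀}. This is the conclusion.
(3) sz s = 0, δ = g: size K = 2g+2. P has size ≥ g: P = P₁ and sz o.1 = 1, o.1 = {node 0} (P₂ has size g-1). K = node {node 0, P₁, P₂}. Q' = P₁: o'.1 = {node 0}, K' = node {node 0, Q₁, Q₂}, children ≤ g, but size a ≥ g+1: contradiction. Q' = Q_i: o'.1 = 0 and K' = node {P₁, Q_j}: a has size ≥ g+1 so a = P₁ (size g+1), size b ≥ g+1: b = P₁, σ 0 = {node 0, P₂} (g ≥ 2; sizes),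
    size (node (σ 0)) = g+1 = Sz σ k: k = 1, a = node {node 0, P₂} = P₁. But o.1 = {node 0} with o ∈ dlo P₁: node 0 = f.1, f ∈ dl P₁, f.1 = node (o₂.1 + (ch P₁).erase P') (`dl_node'`), so (ch P₁).erase P' = 0, card (ch P₁) = 1, contradiction to ch P₁ = {node 0, P₂}.
-/

open Multiset

namespace TRD

noncomputable section

namespace FatExcAux

theorem mem_dl {m : Multiset RT} {e : RT × Multiset RT} (he : e ∈ dl (node m)) :
    ∃ P ∈ m, ∃ o ∈ dlo P, e.1 = node (o.1 + m.erase P) := by
  rw [dl_eq_ldl, Multiset.mem_map] at he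
  obtain ⟨t, ht, rfl⟩ := he
  rw [mem_ldl] at ht
  exact ⟨t.1, ht.1, t.2, ht.2, rfl⟩

theorem sz_erase {m : Multiset RT} {P : RT} (h : P ∈ m) : size P + sz (m.erase P) = sz m := by
  rw [← sz_cons, Multiset.cons_erase h]

theorem sz_eq_zero {m : Multiset RT} (h : sz m = 0) : m = 0 := by
  have h1 := card_le_sz m
  exact Multiset.card_eq_zero.1 (by omega)

theorem size_le_o {P : RT} {o : Multiset RT × Multiset RT} (h : o ∈ dlo P) {x : RT}
    (hx : x ∈ o.1) : size x + 1 ≤ size P := by
  have h1 := dlo_size h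
  have h2 := size_le_sz hx
  omega

end FatExcAux

open FatExcAux in
theorem fat_exc {P₁ P₂ Q₁ Q₂ : RT} {s : Multiset RT} {g : ℕ} (hP1 : size P₁ = g + 1)
    (hP2 : size P₂ + 1 = g) (hQ1 : size Q₁ = g) (hQ2 : size Q₂ = g) (hs : sz s + 2 ≤ g)
    (hg : 4 ≤ g) {e e' : RT × Multiset RT} (he : e ∈ dl (node (P₁ ::ₘ P₁ ::ₘ P₂ ::ₘ s)))
    (he' : e' ∈ dl (node (P₁ ::ₘ Q₁ ::ₘ Q₂ ::ₘ s))) (hc : cls e.1 = cls e'.1)
    (hne : e.1 ≠ e'.1) :
    s = 0 ∧ (∃ Y₀ : RT, P₁ = node {Y₀} ∧ ({Q₁, Q₂} : Multiset RT) = {Y₀, node {P₂}}) ∧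
      e'.1 = node {Q₁, Q₂} := by
  obtain ⟨P, hP, o, ho, hK⟩ := mem_dl he
  obtain ⟨Q', hQ', o', ho', hK'⟩ := mem_dl he'
  set m : Multiset RT := P₁ ::ₘ P₁ ::ₘ P₂ ::ₘ s with hm
  set m' : Multiset RT := P₁ ::ₘ Q₁ ::ₘ Q₂ ::ₘ s with hm'
  have hsm : sz m = 3 * g + 1 + sz s := by
    rw [hm]
    simp only [sz_cons]
    omega
  have hsm' : sz m' = 3 * g + 1 + sz s := by
    rw [hm']
    simp only [sz_cons]
    omega
  -- large elements
  have hbig : ∀ x ∈ m, g ≤ size x → x = P₁ := by
    intro x hx hgx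
    rw [hm] at hx
    simp only [Multiset.mem_cons] at hx
    rcases hx with h | h | h | h
    · exact h
    · exact h
    · subst h
      omega
    · have := size_le_sz h
      omega
  have hbig' : ∀ x ∈ m', g ≤ size x → x = P₁ ∨ (size x = g ∧ (x = Q₁ ∨ x = Q₂)) := by
    intro x hx hgx
    rw [hm'] at hx
    simp only [Multiset.mem_cons] at hx
    rcases hx with h | h | h | h
    · exact Or.inl h
    · exact Or.inr ⟨by rw [h]; exact hQ1, Or.inl h⟩
    · exact Or.inr ⟨by rw [h]; exact hQ2, Or.inr h⟩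
    · have := size_le_sz h
      omega
  have hle : ∀ x ∈ m, size x ≤ g + 1 := by
    intro x hx
    by_contra hcon
    have := hbig x hx (by omega)
    subst this
    omega
  have hle' : ∀ x ∈ m', size x ≤ g + 1 := by
    intro x hx
    by_contra hcon
    rcases hbig' x hx (by omega) with h | h
    · subst h
      omega
    · omega
  have hlec : ∀ x ∈ o.1 + m.erase P, size x ≤ g + 1 := by
    intro x hx
    rcases Multiset.mem_add.1 hx with h | h
    · have h1 := size_le_o ho h
      have h2 := hle P hP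
      omega
    · exact hle x (Multiset.mem_of_mem_erase h)
  have hlec' : ∀ x ∈ o'.1 + m'.erase Q', size x ≤ g + 1 := by
    intro x hx
    rcases Multiset.mem_add.1 hx with h | h
    · have h1 := size_le_o ho' h
      have h2 := hle' Q' hQ'
      omega
    · exact hle' x (Multiset.mem_of_mem_erase h)
  -- the word
  obtain ⟨k, σ, hx, hy⟩ := cls_word hc
  have hk : 1 ≤ k := by
    by_contra hcon
    have hk0 : k = 0 := by omega
    subst hk0
    apply hne
    rw [hx, hy, Vm_of_le σ (by omega)]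
    rfl
  have hVb := Vm_of_lt σ (show 1 < k + 1 by omega)
  have hLa := Lm_single σ hk
  set b : RT := node (σ 1 + Vm σ (k + 1) (1 + 1)) with hb
  set a : RT := node (σ (k - 1) + Lm σ (k - 1)) with ha
  have hcK : σ 0 + {b} = o.1 + m.erase P := by
    rw [← hVb]
    exact node_inj (by rw [← hx, ← hK])
  have hcK' : σ k + {a} = o'.1 + m'.erase Q' := by
    rw [← hLa]
    exact node_inj (by rw [← hy, ← hK'])
  have hbmem : b ∈ o.1 + m.erase P := by
    rw [← hcK]
    simp
  have hamem : a ∈ o'.1 + m'.erase Q' := by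
    rw [← hcK']
    simp
  have hsa : size a = Sz σ k := by
    rw [← sz_Lm, hLa, sz_singleton]
  have hS1 : Sz σ 1 = 1 + sz (σ 0) := by
    rw [Sz_succ σ 0]
    have : Sz σ 0 = 0 := rfl
    omega
  have hmono := Sz_mono σ hk
  have hszK : sz (σ 0) + size b = sz o.1 + sz (m.erase P) := by
    have := congrArg sz hcK
    rw [sz_add, sz_add, sz_singleton] at this
    exact this
  have hsP := sz_erase hP
  have hsQ := sz_erase hQ'
  have hbs := hlec b hbmem
  have has := hlec' a hamem
  have hPle := hle P hP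
  have hQle := hle' Q' hQ'
  -- sizes of the two trees agree
  have hsize : sz o.1 + sz (m.erase P) = sz o'.1 + sz (m'.erase Q') := by
    have h1 : size e.1 = size e'.1 := by
      rw [← csize_cls, hc, csize_cls]
    rw [hK, hK', size_node, size_node, sz_add, sz_add] at h1
    omega
  have hdo := dlo_size ho
  have hdo' := dlo_size ho'
  have hPP : P = P₁ := hbig P hP (by omega)
  subst hPP
  have her : m.erase P = P ::ₘ P₂ ::ₘ s := by
    rw [hm, Multiset.erase_cons_head]
  have hos : sz o.1 + sz s ≤ 1 := by omega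
  rcases hbig' Q' hQ' (by omega) with hQP | ⟨hQg, -⟩
  · -- first case
    subst hQP
    have her' : m'.erase Q' = Q₁ ::ₘ Q₂ ::ₘ s := by
      rw [hm', Multiset.erase_cons_head]
    have hag : size a ≤ g := by
      rw [her'] at hamem
      rcases Multiset.mem_add.1 hamem with h | h
      · have := size_le_sz h
        omega
      · simp only [Multiset.mem_cons] at h
        rcases h with h | h | h
        · rw [h]
          omega
        · rw [h]
          omega
        · have := size_le_sz h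
          omega
    have ho0 : o.1 = 0 := sz_eq_zero (by omega)
    have hs0 : s = 0 := sz_eq_zero (by omega)
    have ho'0 : o'.1 = 0 := sz_eq_zero (by omega)
    have hk1 : k = 1 := by omega
    subst hk1
    have hbP : b = Q' := by
      refine hbig b ?_ (by omega)
      rw [ho0, zero_add] at hbmem
      exact Multiset.mem_of_mem_erase hbmem
    have hσ0 : σ 0 = {P₂} := by
      rw [her, ho0, zero_add, hs0, hbP, add_comm, Multiset.singleton_add] at hcK
      have := (Multiset.cons_inj_right _).1 hcK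
      rw [this]
      rfl
    have haP : a = node {P₂} := by
      rw [ha]
      show node (σ 0 + 0) = _
      rw [hσ0, add_zero]
    have hbσ : b = node (σ 1) := by
      rw [hb, Vm_of_le σ (by omega), add_zero]
    rw [her', ho'0, zero_add, hs0] at hcK'
    have hcard := congrArg Multiset.card hcK'
    simp only [Multiset.card_add, Multiset.card_singleton, Multiset.card_cons,
      Multiset.card_zero] at hcard
    obtain ⟨Y₀, hY⟩ := Multiset.card_eq_one.1 (show Multiset.card (σ 1) = 1 by omega)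
    refine ⟨hs0, ⟨Y₀, ?_, ?_⟩, ?_⟩
    · rw [← hbP, hbσ, hY]
    · have h1 : ({Q₁, Q₂} : Multiset RT) = Q₁ ::ₘ Q₂ ::ₘ 0 := rfl
      rw [h1, ← hcK', hY, haP]
      rfl
    · rw [hK', her', ho'0, zero_add, hs0]
      rfl
  · -- second case
    exfalso
    have hs0 : sz s = 0 := by omega
    have ho1 : sz o.1 = 1 := by omega
    have ho'0 : o'.1 = 0 := sz_eq_zero (by omega)
    have hk1 : k = 1 := by omega
    subst hk1
    have haP : a = P := by
      rw [ho'0, zero_add] at hamem
      rcases hbig' a (Multiset.mem_of_mem_erase hamem) (by omega) with h | h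
      · exact h
      · omega
    have hbP : b = P := by
      rcases Multiset.mem_add.1 hbmem with h | h
      · have := size_le_sz h
        omega
      · exact hbig b (Multiset.mem_of_mem_erase h) (by omega)
    have hσ0 : σ 0 = o.1 + {P₂} := by
      rw [her, sz_eq_zero hs0, hbP, add_comm, Multiset.singleton_add, Multiset.add_cons] at hcK
      have := (Multiset.cons_inj_right _).1 hcK
      rw [this]
      rfl
    have hch : ch P = o.1 + {P₂} := by
      have h1 : a = node (σ 0 + 0) := rfl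
      rw [← haP, h1, ch_node, add_zero, hσ0]
    have hc1 : 1 ≤ Multiset.card o.1 := by
      by_contra hcon
      have h0 : o.1 = 0 := Multiset.card_eq_zero.1 (by omega)
      rw [h0, sz_zero] at ho1
      omega
    rcases mem_dlo.1 ho with h | ⟨f, hf, h⟩
    · rw [h] at ho1
      rw [sz_zero] at ho1
      omega
    · rw [h] at ho1
      rw [sz_singleton] at ho1
      rw [← node_ch P] at hf
      obtain ⟨R, hR, q, hq, hfR⟩ := mem_dl hf
      rw [hfR, size_node, sz_add] at ho1
      have h2 : (ch P).erase R = 0 := sz_eq_zero (by omega)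
      have h3 := congrArg Multiset.card (Multiset.cons_erase hR)
      rw [h2, Multiset.card_cons, Multiset.card_zero] at h3
      rw [hch, Multiset.card_add, Multiset.card_singleton] at h3
      omega

end

end TRD
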