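import Pool.Agent.Lib.TRD.Classify

/-! # TRD.TwoPairs (MP_2e3d39_co)

Both multisets differ in two trees, {P₁,P₂} against {Q₁,Q₂} (disjoint), P₁ of maximal size. Every pair has label P₁ on the left, and the remainder on the right is {P₂}; label on the right Q₁ (remainder left {Q₂}) or Q₂ (remainder left {Q₁}).

Proof. m = P₁ ::ₘ P₂ ::ₘ s, m' = Q₁ ::ₘ Q₂ ::ₘ s, m ≠ m' (count P₁: count in m is count in s + (1 or 2), in m' is count in s). `classify`:
 (α) m = P ::ₘ s₁, m' = Q ::ₘ s₁: then {P₁,P₂} + {Q} + (s + s₁) = {P} + {Q₁,Q₂} + (s + s₁), so {P₁,P₂,Q} = {P,Q₁,Q₂}; P₁, P₂ are not in {Q₁,Q₂}, so both copies {P₁,P₂} ≤ {P}: contradiction to card. (A) same with U, U'.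
 (β) m = P ::ₘ (o' + s₁), m' = Q ::ₘ (o + s₁): {P₁,P₂} + ({Q} + o) = {Q₁,Q₂} + ({P} + o'). Since {P₁,P₂} is disjoint from {Q₁,Q₂}: {P₁,P₂} ≤ {P} + o'; card ({P} + o') ≤ 2, so {P₁,P₂} = {P} + o' and {Q₁,Q₂} = {Q} + o. If P = P₁ (as label) then o' = {P₂}. Otherwise P = P₂ ≠ P₁, o' = {P₁}: `dlo_size` for t' gives size P₁ < size Q, but Q ∈ {Q₁,Q₂} has
 size ≤ size P₁: contradiction. If P₁ = P₂: o' = {P₁} and the same contradiction; so P₁ ≠ P₂.
-/

open Multiset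

namespace TRD

noncomputable section

namespace TwoPairsAux

theorem dis_le {A B C D : Multiset RT} (h : A + B = C + D) (hd : ∀ a ∈ A, a ∉ C) : A ≤ D := by
  rw [Multiset.le_iff_count]
  intro a
  by_cases ha : a ∈ A
  · have h1 := congrArg (Multiset.count a) h
    rw [Multiset.count_add, Multiset.count_add, Multiset.count_eq_zero_of_notMem (hd a ha)] at h1
    omega
  · rw [Multiset.count_eq_zero_of_notMem ha]
    exact Nat.zero_le _

theorem no_one {P₁ P₂ Q₁ Q₂ P Q : RT} {s s₁ : Multiset RT}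
    (d11 : P₁ ≠ Q₁) (d12 : P₁ ≠ Q₂) (d21 : P₂ ≠ Q₁) (d22 : P₂ ≠ Q₂)
    (h1 : P₁ ::ₘ P₂ ::ₘ s = P ::ₘ s₁) (h2 : Q₁ ::ₘ Q₂ ::ₘ s = Q ::ₘ s₁) : False := by
  have h3 : (({P₁, P₂} : Multiset RT) + {Q}) + (s + s₁) = ({Q₁, Q₂} + {P}) + (s + s₁) := by
    have e1 : (({P₁, P₂} : Multiset RT) + {Q}) + (s + s₁) = (P₁ ::ₘ P₂ ::ₘ s) + (Q ::ₘ s₁) := by
      simp only [Multiset.insert_eq_cons, ← Multiset.singleton_add]
      abel
    have e2 : (({Q₁, Q₂} : Multiset RT) + {P}) + (s + s₁) = (P ::ₘ s₁) + (Q₁ ::ₘ Q₂ ::ₘ s) := by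
      simp only [Multiset.insert_eq_cons, ← Multiset.singleton_add]
      abel
    rw [e1, e2, h1, h2]
  have h4 := add_right_cancel h3
  have h5 : ({P₁, P₂} : Multiset RT) ≤ {P} := by
    apply dis_le h4
    intro a ha
    simp only [Multiset.insert_eq_cons, Multiset.mem_cons, Multiset.mem_singleton] at ha ⊢
    rcases ha with rfl | rfl
    · exact fun h => h.elim d11 d12
    · exact fun h => h.elim d21 d22
  have := Multiset.card_le_card h5
  simp at this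

theorem pair_eq {a b : RT} {c : RT} {o : Multiset RT} (h : ({a, b} : Multiset RT) = {c} + o) :
    (c = a ∧ o = {b}) ∨ (c = b ∧ o = {a}) := by
  have hc : c ∈ ({a, b} : Multiset RT) := by rw [h]; simp
  simp only [Multiset.insert_eq_cons, Multiset.mem_cons, Multiset.mem_singleton] at hc
  rcases hc with rfl | rfl
  · left
    refine ⟨rfl, ?_⟩
    have : c ::ₘ {b} = c ::ₘ o := by
      rw [← Multiset.singleton_add c o]
      exact h
    exact ((Multiset.cons_inj_right c).1 this).symm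
  · right
    refine ⟨rfl, ?_⟩
    have : c ::ₘ {a} = c ::ₘ o := by
      rw [← Multiset.singleton_add c o, ← h, Multiset.insert_eq_cons]
      exact Multiset.cons_swap c a 0
    exact ((Multiset.cons_inj_right c).1 this).symm

end TwoPairsAux

open TwoPairsAux

theorem two_pairs {P₁ P₂ Q₁ Q₂ : RT} {s : Multiset RT}
    (hsz : size P₁ + size P₂ = size Q₁ + size Q₂) (h1 : size Q₁ ≤ size P₁)
    (h2 : size Q₂ ≤ size P₁) (d11 : P₁ ≠ Q₁) (d12 : P₁ ≠ Q₂) (d21 : P₂ ≠ Q₁) (d22 : P₂ ≠ Q₂)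
    {t t' : RT × Multiset RT × Multiset RT} (ht : t ∈ ldl (P₁ ::ₘ P₂ ::ₘ s))
    (ht' : t' ∈ ldl (Q₁ ::ₘ Q₂ ::ₘ s)) (h : Rl (P₁ ::ₘ P₂ ::ₘ s) (Q₁ ::ₘ Q₂ ::ₘ s) t t') :
    P₁ ≠ P₂ ∧ t.1 = P₁ ∧ t'.2.1 = {P₂} ∧
      ((t'.1 = Q₁ ∧ t.2.1 = {Q₂}) ∨ (t'.1 = Q₂ ∧ t.2.1 = {Q₁})) := by
  have hne : P₁ ::ₘ P₂ ::ₘ s ≠ Q₁ ::ₘ Q₂ ::ₘ s := by
    intro he
    have h3 : ({P₁, P₂} : Multiset RT) + s = {Q₁, Q₂} + s := by
      simp only [Multiset.insert_eq_cons, Multiset.cons_add, Multiset.singleton_add]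
      exact he
    have h4 := add_right_cancel h3
    have h5 : P₁ ∈ ({Q₁, Q₂} : Multiset RT) := by rw [← h4]; simp
    simp only [Multiset.insert_eq_cons, Multiset.mem_cons, Multiset.mem_singleton] at h5
    exact h5.elim d11 d12
  have hsz' : sz (P₁ ::ₘ P₂ ::ₘ s) = sz (Q₁ ::ₘ Q₂ ::ₘ s) := by
    simp only [sz_cons]
    omega
  rcases classify hne hsz' ht ht' h with ⟨_, _, _, s₁, e1, e2⟩ | ⟨_, U, U', s₁, _, _, _, e1, e2, _⟩ |
    ⟨_, _, s₁, e1, e2⟩
  · exact (no_one d11 d12 d21 d22 e1 e2).elim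
  · exact (no_one d11 d12 d21 d22 e1 e2).elim
  · have hto := (mem_ldl.1 ht).2
    have hto' := (mem_ldl.1 ht').2
    have hc' := dlo_card hto'
    have h3 : (({P₁, P₂} : Multiset RT) + ({t'.1} + t.2.1)) + (s + s₁) =
        ({Q₁, Q₂} + ({t.1} + t'.2.1)) + (s + s₁) := by
      have e3 : (({P₁, P₂} : Multiset RT) + ({t'.1} + t.2.1)) + (s + s₁) =
          (P₁ ::ₘ P₂ ::ₘ s) + (t'.1 ::ₘ (t.2.1 + s₁)) := by
        simp only [Multiset.insert_eq_cons, ← Multiset.singleton_add]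
        abel
      have e4 : (({Q₁, Q₂} : Multiset RT) + ({t.1} + t'.2.1)) + (s + s₁) =
          (t.1 ::ₘ (t'.2.1 + s₁)) + (Q₁ ::ₘ Q₂ ::ₘ s) := by
        simp only [Multiset.insert_eq_cons, ← Multiset.singleton_add]
        abel
      rw [e3, e4, e1, e2]
    have h4 := add_right_cancel h3
    have h5 : ({P₁, P₂} : Multiset RT) ≤ {t.1} + t'.2.1 := by
      apply dis_le h4
      intro a ha
      simp only [Multiset.insert_eq_cons, Multiset.mem_cons, Multiset.mem_singleton] at ha ⊢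
      rcases ha with rfl | rfl
      · exact fun h => h.elim d11 d12
      · exact fun h => h.elim d21 d22
    have h6 : ({P₁, P₂} : Multiset RT) = {t.1} + t'.2.1 := by
      apply Multiset.eq_of_le_of_card_le h5
      simp only [Multiset.card_add, Multiset.card_singleton, Multiset.insert_eq_cons,
        Multiset.card_cons]
      omega
    have h7 : ({Q₁, Q₂} : Multiset RT) = {t'.1} + t.2.1 := by
      rw [← h6] at h4
      have h8 : ({P₁, P₂} : Multiset RT) + ({t'.1} + t.2.1) = {P₁, P₂} + {Q₁, Q₂} := by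
        rw [h4, add_comm]
      exact (add_left_cancel h8).symm
    have hq := pair_eq h7
    have hqs : size t'.1 ≤ size P₁ := by
      rcases hq with ⟨hq1, _⟩ | ⟨hq1, _⟩
      · rw [hq1]; exact h1
      · rw [hq1]; exact h2
    have hsz2 := dlo_size hto'
    have hq' : (t'.1 = Q₁ ∧ t.2.1 = {Q₂}) ∨ (t'.1 = Q₂ ∧ t.2.1 = {Q₁}) := hq
    rcases pair_eq h6 with ⟨hp1, hp2⟩ | ⟨hp1, hp2⟩
    · refine ⟨?_, hp1, hp2, hq'⟩
      rintro rfl
      rw [hp2, sz_singleton] at hsz2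
      omega
    · rw [hp2, sz_singleton] at hsz2
      omega

end

end TRD
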