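import Pool.Agent.Lib.TRD.FatRoot
import Pool.Agent.Lib.TRD.FatExc
import Pool.Agent.Lib.TRD.TwoPairs
import Pool.Agent.Lib.TRD.Antichain
import Pool.Agent.Lib.TRD.MatchB

/-! # TRD.FatFinal (MP_2e3d39_co)

Extremal family: at most 2(g-1) common cards.

`single_del`: RT.ind on A: dl (node {A}) = (node 0, ch A) ::ₘ (dl A).map (fun e => (node {e.1}, e.2)). A = node 0: dl A = 0, the number is 1. A ≠ node 0: the first entry does not count; an entry e ∈ dl A with node {e.1} = A exists only if A = node {A₁}, and then e.1 = A₁; the number is card ((dl (node {A₁})).filter (e.1 = A₁)) ≤ 1 (A₁ ∈ ch A).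
`fat_final`: `fat_root` gives M. Good part G = M.filter (e.1.1 = e.2.1): GM. Lift (`gm_lift`) for the multisets m = P₁ ::ₘ P₂ ::ₘ (P₁ ::ₘ s) and m' = Q₁ ::ₘ Q₂ ::ₘ (P₁ ::ₘ s) (reorder). `two_pairs` (sizes g+1 + (g-1) = g+g; P₁, P₂ ≠ Q₁, Q₂ by size): each pair has right label Q₁ or Q₂ and right remainder {P₂}. The entries of ldl m' with label Q₁ or Q₂ and nonempty remainder:
 count of Q_j in m': the elements P₁ and those of s have other sizes (g+1, ≤ g-2), so the labels Q₁, Q₂ occur exactly twice in total and the number of entries with nonempty remainder is 2 (g-1) (`card_dl`). So card G ≤ 2(g-1) (`mt_card_right`). If all pairs of M are good we are done.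
 Otherwise `fat_exc` for a bad pair: s = 0, P₁ = node {Y₀}, {Q₁,Q₂} = {Y₀, node {P₂}}. Bad pairs: all have e'.1 = node {Q₁,Q₂} of size 2g+1: their number is ≤ card ((dl Y).filter (e'.1 = node {Q₁,Q₂})) =: c (`mt_card_right`), `antichain_K`: (3g+2-(2g+1)) c + 1 ≤ 3g+2, so (g+1) c ≤ 3g+1, c ≤ 2.
 Good pairs: right remainder {P₂}: with label node {P₂}: number of entries ≤ (multiplicity) * 1 by `single_del` (A = P₂); with label Y₀ ≠ node {P₂}: ≤ g-1. If Y₀ = node {P₂} both labels are node {P₂}: ≤ 2. So card G ≤ max (2, (g-1)+1) = g. Total ≤ g + 2 ≤ 2(g-1) for g ≥ 4.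
-/

open Multiset

namespace TRD

noncomputable section

namespace FatFinalAux

theorem dl_single (A : RT) : dl (node {A}) =
    (node 0, ch A) ::ₘ (dl A).map (fun e => (node {e.1}, e.2)) := by
  rw [dl_node, Multiset.singleton_bind]
  have h : ({A} : Multiset RT).erase A = 0 := by
    have := Multiset.erase_cons_head A (0 : Multiset RT)
    exact this
  rw [h]
  rfl

theorem dlo_filter (Q P : RT) : card ((dlo Q).filter (fun o => o.1 = {P})) =
    card ((dl Q).filter (fun e => e.1 = P)) := by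
  unfold dlo
  rw [Multiset.filter_cons_of_neg, Multiset.filter_map, Multiset.card_map]
  · congr 1
    apply Multiset.filter_congr
    intro e _
    exact Multiset.singleton_inj
  · intro h
    have h' : (0 : Multiset RT) = {P} := h
    exact Multiset.singleton_ne_zero P h'.symm

theorem label_filter (Q Q₁ Q₂ P : RT) (h : Q = Q₁ ∨ Q = Q₂) :
    card (((dlo Q).map (fun o => (Q, o))).filter
      (fun t => (t.1 = Q₁ ∨ t.1 = Q₂) ∧ t.2.1 = {P})) =
    card ((dl Q).filter (fun e => e.1 = P)) := by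
  rw [Multiset.filter_map, Multiset.card_map, ← dlo_filter]
  congr 1
  apply Multiset.filter_congr
  intro o _
  show ((Q = Q₁ ∨ Q = Q₂) ∧ o.1 = {P}) ↔ o.1 = {P}
  exact ⟨fun h' => h'.2, fun h' => ⟨h, h'⟩⟩

theorem card_filter_dl (Q P : RT) : card ((dl Q).filter (fun e => e.1 = P)) + 1 ≤ size Q := by
  have h1 := Multiset.card_le_card (Multiset.filter_le (fun e => e.1 = P) (dl Q))
  have h2 := card_dl Q
  omega

theorem good_card {P₁ P₂ Q₁ Q₂ : RT} {s : Multiset RT} {g : ℕ} (hP1 : size P₁ = g + 1)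
    (hP2 : size P₂ + 1 = g) (hQ1 : size Q₁ = g) (hQ2 : size Q₂ = g) (hs : sz s + 2 ≤ g)
    {G : Multiset ((RT × Multiset RT) × (RT × Multiset RT))}
    (hG : GM G (node (P₁ ::ₘ P₁ ::ₘ P₂ ::ₘ s)) (node (P₁ ::ₘ Q₁ ::ₘ Q₂ ::ₘ s))) :
    card G ≤ card ((dl Q₁).filter (fun e => e.1 = P₂)) +
      card ((dl Q₂).filter (fun e => e.1 = P₂)) := by
  have e1 : P₁ ::ₘ P₁ ::ₘ P₂ ::ₘ s = P₁ ::ₘ P₂ ::ₘ (P₁ ::ₘ s) := by
    rw [Multiset.cons_swap P₁ P₂ s]
  have e2 : P₁ ::ₘ Q₁ ::ₘ Q₂ ::ₘ s = Q₁ ::ₘ Q₂ ::ₘ (P₁ ::ₘ s) := by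
    rw [Multiset.cons_swap P₁ Q₁, Multiset.cons_swap P₁ Q₂]
  rw [e1, e2] at hG
  obtain ⟨M', hM', hc⟩ := gm_lift hG
  have n11 : P₁ ≠ Q₁ := fun h => by rw [h, hQ1] at hP1; omega
  have n12 : P₁ ≠ Q₂ := fun h => by rw [h, hQ2] at hP1; omega
  have n21 : P₂ ≠ Q₁ := fun h => by rw [h, hQ1] at hP2; omega
  have n22 : P₂ ≠ Q₂ := fun h => by rw [h, hQ2] at hP2; omega
  have h1 := mt_card_right hM' (le_refl M')
    (fun t => (t.1 = Q₁ ∨ t.1 = Q₂) ∧ t.2.1 = {P₂}) (by
      intro e he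
      have t1 : e.1 ∈ ldl (P₁ ::ₘ P₂ ::ₘ (P₁ ::ₘ s)) :=
        Multiset.mem_of_le hM'.1 (Multiset.mem_map_of_mem _ he)
      have t2 : e.2 ∈ ldl (Q₁ ::ₘ Q₂ ::ₘ (P₁ ::ₘ s)) :=
        Multiset.mem_of_le hM'.2.1 (Multiset.mem_map_of_mem _ he)
      obtain ⟨_, _, h3, h4⟩ := two_pairs (by omega) (by omega) (by omega) n11 n12 n21 n22 t1 t2
        (hM'.2.2 e he)
      refine ⟨?_, h3⟩
      rcases h4 with h4 | h4
      · exact Or.inl h4.1
      · exact Or.inr h4.1)
  rw [ldl_cons, ldl_cons, Multiset.filter_add, Multiset.filter_add, card_add, card_add,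
    label_filter Q₁ Q₁ Q₂ P₂ (Or.inl rfl), label_filter Q₂ Q₁ Q₂ P₂ (Or.inr rfl)] at h1
  have h5 : (ldl (P₁ ::ₘ s)).filter (fun t => (t.1 = Q₁ ∨ t.1 = Q₂) ∧ t.2.1 = {P₂}) = 0 := by
    rw [Multiset.filter_eq_nil]
    rintro t ht ⟨hq, _⟩
    have hsz : size t.1 = g := by
      rcases hq with hq | hq
      · rw [hq, hQ1]
      · rw [hq, hQ2]
    have ht1 := (mem_ldl.1 ht).1
    rcases Multiset.mem_cons.1 ht1 with h6 | h6
    · rw [h6, hP1] at hsz
      omega
    · have := size_le_sz h6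
      omega
  rw [h5, card_zero, add_zero, hc] at h1
  omega

end FatFinalAux

open FatFinalAux

theorem single_del (A : RT) : card ((dl (node {A})).filter (fun e => e.1 = A)) ≤ 1 := by
  revert A
  apply RT.ind
  intro m ih
  rw [dl_single]
  by_cases h0 : m = 0
  · subst h0
    have h1 := card_dl (node 0)
    rw [size_node, sz_zero] at h1
    have h2 : dl (node 0) = 0 := Multiset.card_eq_zero.1 (by omega)
    rw [h2, Multiset.map_zero]
    refine le_trans (Multiset.card_le_card (Multiset.filter_le _ _)) ?_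
    rw [card_cons, card_zero]
  · rw [Multiset.filter_cons_of_neg, Multiset.filter_map, Multiset.card_map]
    · by_cases h1 : ∃ A₁, m = {A₁}
      · obtain ⟨A₁, rfl⟩ := h1
        have h2 := ih A₁ (Multiset.mem_singleton_self A₁)
        refine le_trans (le_of_eq ?_) h2
        congr 1
        apply Multiset.filter_congr
        intro e _
        show node {e.1} = node {A₁} ↔ e.1 = A₁
        constructor
        · intro h
          exact Multiset.singleton_inj.1 (node_inj h)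
        · intro h
          rw [h]
      · have h2 : (dl (node m)).filter ((fun e => e.1 = node m) ∘
            fun e : RT × Multiset RT => (node {e.1}, e.2)) = 0 := by
          rw [Multiset.filter_eq_nil]
          intro e _ h
          have h' : node {e.1} = node m := h
          exact h1 ⟨e.1, (node_inj h').symm⟩
        rw [h2, card_zero]
        exact Nat.zero_le _
    · intro h
      have h' : node 0 = node m := h
      exact h0 (node_inj h').symm

theorem fat_final {P₁ P₂ Q₁ Q₂ : RT} {s : Multiset RT} {g : ℕ} (hP1 : size P₁ = g + 1)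
    (hP2 : size P₂ + 1 = g) (hQ1 : size Q₁ = g) (hQ2 : size Q₂ = g) (hs : sz s + 2 ≤ g)
    (hg : 4 ≤ g) {M₀ : Multiset (Multiset Cls × Multiset Cls)}
    (hM : Mt M₀ (deck (node (P₁ ::ₘ P₁ ::ₘ P₂ ::ₘ s))) (deck (node (P₁ ::ₘ Q₁ ::ₘ Q₂ ::ₘ s)))
      (fun a b => a = b)) : card M₀ ≤ 2 * (g - 1) := by
  obtain ⟨M, hMt, hMc⟩ := fat_root hP1 hP2 hQ1 hQ2 hs hM
  rw [← hMc]
  have hsplit := congrArg card (Multiset.filter_add_not (fun e => e.1.1 = e.2.1) M)
  rw [card_add] at hsplit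
  have hGle : M.filter (fun e => e.1.1 = e.2.1) ≤ M := Multiset.filter_le _ _
  have hG : GM (M.filter (fun e => e.1.1 = e.2.1)) (node (P₁ ::ₘ P₁ ::ₘ P₂ ::ₘ s))
      (node (P₁ ::ₘ Q₁ ::ₘ Q₂ ::ₘ s)) := by
    have h1 := mt_sub hMt hGle
    refine ⟨h1.1, h1.2.1, fun e he => ?_⟩
    obtain ⟨h2, h3⟩ := Multiset.mem_filter.1 he
    exact ⟨h3, (hMt.2.2 e h2).2⟩
  have hg1 := good_card hP1 hP2 hQ1 hQ2 hs hG
  have f1 := card_filter_dl Q₁ P₂
  have f2 := card_filter_dl Q₂ P₂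
  by_cases hb : M.filter (fun e => ¬ e.1.1 = e.2.1) = 0
  · rw [hb, card_zero] at hsplit
    omega
  · obtain ⟨e₀, he₀⟩ := Multiset.exists_mem_of_ne_zero hb
    have key : ∀ e ∈ M.filter (fun e => ¬ e.1.1 = e.2.1),
        s = 0 ∧ (∃ Y₀ : RT, P₁ = node {Y₀} ∧ ({Q₁, Q₂} : Multiset RT) = {Y₀, node {P₂}}) ∧
        e.2.1 = node {Q₁, Q₂} := by
      intro e he
      obtain ⟨h2, h3⟩ := Multiset.mem_filter.1 he
      have t1 : e.1 ∈ dl (node (P₁ ::ₘ P₁ ::ₘ P₂ ::ₘ s)) :=
        Multiset.mem_of_le hMt.1 (Multiset.mem_map_of_mem _ h2)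
      have t2 : e.2 ∈ dl (node (P₁ ::ₘ Q₁ ::ₘ Q₂ ::ₘ s)) :=
        Multiset.mem_of_le hMt.2.1 (Multiset.mem_map_of_mem _ h2)
      exact fat_exc hP1 hP2 hQ1 hQ2 hs hg t1 t2 (hMt.2.2 e h2).1 h3
    obtain ⟨hs0, ⟨Y₀, hY1, hY2⟩, _⟩ := key e₀ he₀
    have hbad := mt_card_right hMt (Multiset.filter_le (fun e => ¬ e.1.1 = e.2.1) M)
      (fun e => e.1 = node {Q₁, Q₂}) (fun e he => (key e he).2.2)
    have hac := antichain_K (node (P₁ ::ₘ Q₁ ::ₘ Q₂ ::ₘ s)) (node {Q₁, Q₂})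
    have z1 : size (node (P₁ ::ₘ Q₁ ::ₘ Q₂ ::ₘ s)) = 3 * g + 2 := by
      rw [size_node, sz_cons, sz_cons, sz_cons, hs0, sz_zero, hP1, hQ1, hQ2]
      omega
    have z2 : size (node {Q₁, Q₂}) = 2 * g + 1 := by
      rw [size_node, Multiset.insert_eq_cons, sz_cons, sz_singleton, hQ1, hQ2]
      omega
    rw [z1, z2] at hac
    have z3 : 3 * g + 2 - (2 * g + 1) = g + 1 := by omega
    rw [z3] at hac
    have hb2 : card ((dl (node (P₁ ::ₘ Q₁ ::ₘ Q₂ ::ₘ s))).filter
        (fun e => e.1 = node {Q₁, Q₂})) ≤ 2 := by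
      by_contra hcon
      have h3 : (g + 1) * 3 ≤ (g + 1) * card ((dl (node (P₁ ::ₘ Q₁ ::ₘ Q₂ ::ₘ s))).filter
        (fun e => e.1 = node {Q₁, Q₂})) := Nat.mul_le_mul_left _ (by omega)
      omega
    have hone := single_del P₂
    have hor : Q₁ = node {P₂} ∨ Q₂ = node {P₂} := by
      have h4 : node {P₂} ∈ ({Q₁, Q₂} : Multiset RT) := by
        rw [hY2, Multiset.insert_eq_cons]
        exact Multiset.mem_cons_of_mem (Multiset.mem_singleton_self _)
      rw [Multiset.insert_eq_cons, Multiset.mem_cons, Multiset.mem_singleton] at h4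
      rcases h4 with h4 | h4
      · exact Or.inl h4.symm
      · exact Or.inr h4.symm
    rcases hor with h5 | h5
    · rw [← h5] at hone
      omega
    · rw [← h5] at hone
      omega

end

end TRD
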