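import Pool.Agent.Lib.TRD.CaseOne
import Pool.Agent.Lib.TRD.CwEq
import Pool.Agent.Lib.TRD.CardcRt

/-! # TRD.FatTree (MP_2e3d39_co)

Re-rooting of the extremal family at the vertex with the three big branches.

(1) For all A: Fat g e x y implies: there are P₁ P₂ Q₁ Q₂ s with the sizes, sz s = e + sz A, cls (node (A + ch x)) = cls (node (P₁ ::ₘ P₁ ::ₘ P₂ ::ₘ s)), cls (node (A + ch y)) = cls (node (P₁ ::ₘ Q₁ ::ₘ Q₂ ::ₘ s)). Induction on Fat (A general). base: s = s₀ + A. step: x = node (x₀ ::ₘ t): A + ch x = x₀ ::ₘ (A + t), x₀ = node (ch x₀):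
 `cls_flip`: cls (node (node (ch x₀) ::ₘ (A + t))) = cls (node (node (A + t) ::ₘ ch x₀)) = cls (node ({node (A+t)} + ch x₀)): induction hypothesis with A := {node (A + t)}, sz = 1 + sz A + sz t.
(2) D even: cw μ (D+1) = cls (rt μ (D+1) D) (`cw_rt`), apply (1) with A = 0. D odd, D = 2h+1: ch (rt μ (D+1) D) = {Pl, Ql}, Lm μ (h+1) = {Pl}, Vm μ (D+1) (h+1) = {Ql}, cw μ (D+1) = cls (node (Pl ::ₘ ch Ql)) (`cw_eq` at h+1); by `vt_pair` (or cls_flip) for every way to write ch (rt μ (D+1) D) = {x₀, t₀}: cw μ (D+1) = cls (node (t₀ ::ₘ ch x₀)).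
 Fat for the virtual root: base is impossible (P₁ ::ₘ P₁ ::ₘ P₂ ::ₘ s has at least 3 elements, node_inj); step: rt μ (D+1) D = node (x₀ ::ₘ t) with card t = 1, t = {t₀}, rt ν (D+1) D = node (y₀ ::ₘ {t₀}), e = e₀ + 1 + size t₀; (1) for (x₀, y₀) with A = {t₀}: sz s = e₀ + size t₀ ≤ e.
-/

open Multiset

namespace TRD

noncomputable section

theorem fat_reroot {g e : ℕ} {x y : RT} (h : Fat g e x y) (A : Multiset RT) :
    ∃ (P₁ P₂ Q₁ Q₂ : RT) (s : Multiset RT), size P₁ = g + 1 ∧ size P₂ + 1 = g ∧ size Q₁ = g ∧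
      size Q₂ = g ∧ sz s = e + sz A ∧ cls (node (A + ch x)) = cls (node (P₁ ::ₘ P₁ ::ₘ P₂ ::ₘ s)) ∧
      cls (node (A + ch y)) = cls (node (P₁ ::ₘ Q₁ ::ₘ Q₂ ::ₘ s)) := by
  induction h generalizing A with
  | base P₁ P₂ Q₁ Q₂ s h1 h2 h3 h4 =>
    refine ⟨P₁, P₂, Q₁, Q₂, s + A, h1, h2, h3, h4, sz_add s A, ?_, ?_⟩
    · rw [ch_node, add_comm, Multiset.cons_add, Multiset.cons_add, Multiset.cons_add]
    · rw [ch_node, add_comm, Multiset.cons_add, Multiset.cons_add, Multiset.cons_add]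
  | step e x y t _ ih =>
    obtain ⟨P₁, P₂, Q₁, Q₂, s, h1, h2, h3, h4, h5, h6, h7⟩ := ih {node (A + t)}
    have key : ∀ z : RT, cls (node (A + ch (node (z ::ₘ t)))) =
        cls (node ({node (A + t)} + ch z)) := by
      intro z
      have h8 := cls_flip (A + t) (ch z)
      rw [node_ch] at h8
      rw [ch_node, Multiset.add_cons, h8, Multiset.singleton_add]
    refine ⟨P₁, P₂, Q₁, Q₂, s, h1, h2, h3, h4, ?_, ?_, ?_⟩
    · rw [h5, sz_singleton, size_node, sz_add]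
      omega
    · rw [key, h6]
    · rw [key, h7]

private theorem odd_pair (μ : ℕ → Multiset RT) (h : ℕ) :
    ∃ P Q : RT, rt μ (2 * h + 1 + 1) (2 * h + 1) = node {P, Q} ∧
      cw μ (2 * h + 1 + 1) = cls (node (P ::ₘ ch Q)) := by
  have h1 := Lm_single μ (h := h + 1) (by omega)
  have h2 := Vm_of_lt μ (i := 2 * h + 1 + 1) (h := h + 1) (by omega)
  refine ⟨node (μ (h + 1 - 1) + Lm μ (h + 1 - 1)),
    node (μ (h + 1) + Vm μ (2 * h + 1 + 1) (h + 1 + 1)), ?_, ?_⟩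
  · unfold rt
    have e1 : (2 * h + 1 + 1) / 2 = h + 1 := by omega
    have e2 : ¬ ((2 * h + 1) % 2 = 0) := by omega
    have e3 : (2 * h + 1) / 2 + 1 = h + 1 := by omega
    rw [e1, if_neg e2, e3, h1, h2, add_zero, Multiset.singleton_add]
    rfl
  · rw [ch_node, ← cw_eq μ (h := h + 1) (i := 2 * h + 1 + 1) (by omega), h1, add_assoc,
      Multiset.singleton_add]

private theorem odd_card (μ : ℕ → Multiset RT) (h : ℕ) {m : Multiset RT}
    (hm : rt μ (2 * h + 1 + 1) (2 * h + 1) = node m) : card m = 2 := by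
  obtain ⟨P, Q, h1, _⟩ := odd_pair μ h
  rw [h1] at hm
  rw [← node_inj hm]
  rfl

private theorem odd_cw (μ : ℕ → Multiset RT) (h : ℕ) {x t : RT}
    (hm : rt μ (2 * h + 1 + 1) (2 * h + 1) = node (x ::ₘ {t})) :
    cw μ (2 * h + 1 + 1) = cls (node ({t} + ch x)) := by
  obtain ⟨P, Q, h1, h2⟩ := odd_pair μ h
  rw [h1] at hm
  have h3 : ({P, Q} : Multiset RT) = {t, x} := by
    rw [node_inj hm]
    exact Multiset.pair_comm x t
  have h4 := vt_pair P Q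
  rw [h3, vt_pair t x] at h4
  rw [h2, Multiset.singleton_add]
  exact (Multiset.singleton_inj.1 h4).symm

theorem fat_tree {μ ν : ℕ → Multiset RT} {D g e : ℕ} (hD : 1 ≤ D)
    (h : Fat g e (rt μ (D + 1) D) (rt ν (D + 1) D)) :
    ∃ (P₁ P₂ Q₁ Q₂ : RT) (s : Multiset RT), size P₁ = g + 1 ∧ size P₂ + 1 = g ∧ size Q₁ = g ∧
      size Q₂ = g ∧ sz s ≤ e ∧ cw μ (D + 1) = cls (node (P₁ ::ₘ P₁ ::ₘ P₂ ::ₘ s)) ∧
      cw ν (D + 1) = cls (node (P₁ ::ₘ Q₁ ::ₘ Q₂ ::ₘ s)) := by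
  rcases Nat.even_or_odd' D with ⟨k, hk | hk⟩
  · obtain ⟨P₁, P₂, Q₁, Q₂, s, h1, h2, h3, h4, h5, h6, h7⟩ := fat_reroot h 0
    refine ⟨P₁, P₂, Q₁, Q₂, s, h1, h2, h3, h4, ?_, ?_, ?_⟩
    · rw [h5, sz_zero]
      omega
    · rw [← h6, zero_add, node_ch, ← cw_rt μ (h := k) (i := D + 1) (by omega), hk]
    · rw [← h7, zero_add, node_ch, ← cw_rt ν (h := k) (i := D + 1) (by omega), hk]
  · subst hk
    generalize hx : rt μ (2 * k + 1 + 1) (2 * k + 1) = x at h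
    generalize hy : rt ν (2 * k + 1 + 1) (2 * k + 1) = y at h
    cases h with
    | base P₁ P₂ Q₁ Q₂ s h1 h2 h3 h4 =>
      exfalso
      have := odd_card μ k hx
      simp only [card_cons] at this
      omega
    | step e x y t h' =>
      have hc := odd_card μ k hx
      rw [card_cons] at hc
      obtain ⟨t₀, rfl⟩ := Multiset.card_eq_one.1 (by omega : card t = 1)
      obtain ⟨P₁, P₂, Q₁, Q₂, s, h1, h2, h3, h4, h5, h6, h7⟩ := fat_reroot h' {t₀}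
      refine ⟨P₁, P₂, Q₁, Q₂, s, h1, h2, h3, h4, ?_, ?_, ?_⟩
      · omega
      · rw [← h6, odd_cw μ k hx]
      · rw [← h7, odd_cw ν k hy]

end

end TRD
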