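import Pool.Agent.Lib.TRD.Dich
import Pool.Agent.Lib.TRD.CountB
import Pool.Agent.Lib.TRD.CountC
import Pool.Agent.Lib.TRD.CType

/-! # TRD.PathPairs (MP_2e3d39_co)

Bad matched pairs of path vertices are of type R, up to 5 sqrt(2p) + 1.

Let e = (i,j) ∈ Q; i ∈ Ix D so E/2+1 ≤ D/2+1 ≤ i ≤ D, E/2+1 ≤ j ≤ E. At most one e ∈ Q has i = E/2+1 (PP.h1). Let E/2+2 ≤ i. By PP.hc cw μ i is an element of cw ν j ::ₘ (ν j + Vm ν (E+1) (j+1)).map cls:
(a) cw μ i = cw ν j. `dich` (1 ≤ j): the first alternative is excluded by PP.hbad. B-type: set of first coordinates, `b_count`. C-type: `c_type` (2 ≤ i): first alternative: TyR μ ν D E i j (dm μ i): hd' by `cw_dest`; hdE: d ≤ E by `dm_GW` for ν, and d = E would give rt μ i E = rt ν j E (`cw_dest`), excluded;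
    hdeg: from PP.hc, comparing cards (`card_map`): card (μ i) + card (Vm μ (D+1) (i+1)) = card (ν j) + card (Vm ν (E+1) (j+1)), and for i < D, j < E both Vm's are singletons (`Vm_of_lt`). Second alternative: `c_four_count`.
(b) cw μ i ∈ (ν j).map cls: `bush_count`.
(c) cw μ i = cls x with x ∈ Vm ν (E+1) (j+1): so j + 1 ≤ E, `cls_Vm`: cw μ i = cw (rv ν E) (E - j), 1 ≤ E - j ≤ E/2 (j ≥ E/2+1). `dich_cross` for μ and rv ν E (`GW_rv`): B-type: `b_count` (Sz (rv ν E) (E+1) = p by `Sz_rv`), C-type: `c_cross` for the set of pairs (i, E - j).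
Each of the five sets has k elements with k (k+1) ≤ 2p, so k ≤ Nat.sqrt (2p) (`Nat.le_sqrt`: k*k ≤ 2p). Q₁ = the set of type R pairs in (a) (classical filter).
-/

open Multiset

namespace TRD

noncomputable section

namespace PathPairsAux

theorem le_sqrt_of {k p : ℕ} (h : k * (k + 1) ≤ 2 * p) : k ≤ Nat.sqrt (2 * p) := by
  rw [Nat.le_sqrt]
  nlinarith

/-- B-type -/
def PB (μ ν : ℕ → Multiset RT) (E : ℕ) (i : ℕ) : Prop :=
  E / 2 + 2 ≤ i ∧ ∃ m, 1 ≤ m ∧ m ≤ E / 2 + 1 ∧ ∃ x ∈ ν (m - 1), Vm μ i m = {x}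

def PF (μ ν : ℕ → Multiset RT) (E : ℕ) (i : ℕ) : Prop :=
  E / 2 + 2 ≤ i ∧ dm μ i ≤ E ∧ dm μ i % 2 = 0 ∧
      Vm μ i (dm μ i / 2 + 1) = Lm ν ((dm μ i + 1) / 2) ∧
      ∃ x ∈ ν (dm μ i / 2), Lm μ (dm μ i / 2) = {x}

def PU (μ ν : ℕ → Multiset RT) (E : ℕ) (e : ℕ × ℕ) : Prop :=
  1 ≤ e.1 ∧ e.2 ≤ E ∧ cw μ e.1 ∈ (ν e.2).map cls

def PC (μ ν : ℕ → Multiset RT) (D E : ℕ) (e : ℕ × ℕ) : Prop :=
  E / 2 + 2 ≤ e.1 ∧ e.1 ≤ D ∧ 1 ≤ e.2 ∧ e.2 ≤ E / 2 ∧ cw μ e.1 = cw ν e.2 ∧
      Vm μ e.1 (dm μ e.1 / 2 + 1) = Lm ν ((dm μ e.1 + 1) / 2)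

theorem key {μ ν : ℕ → Multiset RT} {D E : ℕ} (hμ : GW μ D) (hν : GW ν E) (hE : E ≤ D)
    {Q : Finset (ℕ × ℕ)} (hQ : PP μ ν D E Q) (e : ℕ × ℕ) (he : e ∈ Q) :
    e.1 = E / 2 + 1 ∨ PB μ ν E e.1 ∨ PB μ (rv ν E) E e.1 ∨ PF μ ν E e.1 ∨ PU μ ν E e ∨
      PC μ (rv ν E) D E (e.1, E - e.2) ∨ ∃ d, TyR μ ν D E e.1 e.2 d := by
  obtain ⟨i, j⟩ := e
  have hI := hQ.hI _ he
  simp only [Ix, Finset.mem_Icc] at hI
  obtain ⟨⟨hi1, hiD⟩, hj1, hjE⟩ := hI
  have hc := hQ.hc _ he
  have hbad := hQ.hbad _ he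
  simp only at hc hbad ⊢
  by_cases h0 : i = E / 2 + 1
  · exact Or.inl h0
  right
  have hi2 : E / 2 + 2 ≤ i := by omega
  have hmem : cw μ i ∈ cw ν j ::ₘ (ν j + Vm ν (E + 1) (j + 1)).map cls := by
    rw [← hc]
    exact Multiset.mem_cons_self _ _
  rcases Multiset.mem_cons.1 hmem with h | h
  · obtain ⟨hd', hrt⟩ := cw_dest (by omega) (by omega) (fun m hm => (hμ m (by omega)).1)
      (fun m hm => (hν m (by omega)).1) h
    have hdE : dm ν j ≤ E := dm_GW hν (by omega)
    rcases dich hμ hν hi2 hiD (by omega) hjE h with h1 | h1 | ⟨h1, h2⟩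
    · exact absurd h1 hbad
    · exact Or.inl ⟨hi2, h1⟩
    · rcases c_type hμ hν (by omega) hiD (by omega) hjE h h1 h2 with ⟨h3, h4, h5⟩ | ⟨h3, h4⟩
      · right; right; right; right; right
        refine ⟨dm μ i, ?_⟩
        exact
          { hi := by omega
            hiD := hiD
            hj := hj1
            hjE := hjE
            hd := rfl
            hd' := hd'
            hdE := by
              rcases Nat.lt_or_ge (dm μ i) E with h6 | h6
              · exact h6
              · have h7 : dm μ i = E := by omega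
                rw [h7] at hrt
                exact absurd hrt hbad
            hc := h
            hV := h1
            hV' := h3
            hm := h4
            hne := h5
            hdeg := by
              intro h6 h7
              have h8 := congrArg card hc
              rw [Multiset.card_cons, Multiset.card_cons, Multiset.card_map, Multiset.card_map,
                Multiset.card_add, Multiset.card_add,
                Vm_of_lt μ (by omega : i + 1 < D + 1), Vm_of_lt ν (by omega : j + 1 < E + 1),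
                Multiset.card_singleton, Multiset.card_singleton] at h8
              omega }
      · right; right; left
        exact ⟨hi2, by omega, h3, h1, h4⟩
  · obtain ⟨x, hx, hx2⟩ := Multiset.mem_map.1 h
    rcases Multiset.mem_add.1 hx with h1 | h1
    · right; right; right; left
      exact ⟨by show 1 ≤ i; omega, hjE, Multiset.mem_map.2 ⟨x, h1, hx2⟩⟩
    · have h2 : j + 1 ≤ E := by
        by_contra h3
        rw [Vm_of_le ν (by omega : E + 1 ≤ j + 1)] at h1
        exact absurd h1 (Multiset.notMem_zero x)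
      have h3 := cls_Vm ν h2 h1
      have h4 : E + 1 - (j + 1) = E - j := by omega
      rw [h4, hx2] at h3
      rcases dich_cross hμ (GW_rv hν) hi2 hiD (by omega) (by omega) h3 with h5 | ⟨h5, _⟩
      · right; left
        exact ⟨hi2, h5⟩
      · right; right; right; right; left
        exact ⟨hi2, hiD, by show 1 ≤ E - j; omega, by show E - j ≤ E / 2; omega, h3, h5⟩

end PathPairsAux

theorem path_pairs {μ ν : ℕ → Multiset RT} {D E p : ℕ} (hμ : GW μ D) (hν : GW ν E) (hE : E ≤ D)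
    (hp : Sz ν (E + 1) = p) {Q : Finset (ℕ × ℕ)} (hQ : PP μ ν D E Q) :
    ∃ Q₁ ⊆ Q, RQ μ ν D E Q₁ ∧ Q.card ≤ Q₁.card + 5 * Nat.sqrt (2 * p) + 1 := by
  classical
  have hinj : ∀ P : ℕ × ℕ → Prop, Set.InjOn (Prod.fst : ℕ × ℕ → ℕ)
      ((Q.filter P : Finset (ℕ × ℕ)) : Set (ℕ × ℕ)) := by
    intro P e he f hf h
    exact hQ.h1 e (Finset.mem_filter.1 he).1 f (Finset.mem_filter.1 hf).1 h
  have c1 : (Q.filter (fun e => PathPairsAux.PB μ ν E e.1)).card ≤ Nat.sqrt (2 * p) := by
    apply PathPairsAux.le_sqrt_of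
    have h := b_count (μ := μ) (ν := ν) (E := E)
      ((Q.filter (fun e => PathPairsAux.PB μ ν E e.1)).image Prod.fst) (by
        intro i hi
        obtain ⟨e, he, rfl⟩ := Finset.mem_image.1 hi
        exact (Finset.mem_filter.1 he).2)
    rwa [Finset.card_image_of_injOn (hinj _), hp] at h
  have c2 : (Q.filter (fun e => PathPairsAux.PB μ (rv ν E) E e.1)).card ≤ Nat.sqrt (2 * p) := by
    apply PathPairsAux.le_sqrt_of
    have h := b_count (μ := μ) (ν := rv ν E) (E := E)
      ((Q.filter (fun e => PathPairsAux.PB μ (rv ν E) E e.1)).image Prod.fst) (by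
        intro i hi
        obtain ⟨e, he, rfl⟩ := Finset.mem_image.1 hi
        exact (Finset.mem_filter.1 he).2)
    rwa [Finset.card_image_of_injOn (hinj _), Sz_rv, hp] at h
  have c3 : (Q.filter (fun e => PathPairsAux.PF μ ν E e.1)).card ≤ Nat.sqrt (2 * p) := by
    apply PathPairsAux.le_sqrt_of
    have h := c_four_count (μ := μ) (ν := ν) (E := E)
      ((Q.filter (fun e => PathPairsAux.PF μ ν E e.1)).image Prod.fst) (by
        intro i hi
        obtain ⟨e, he, rfl⟩ := Finset.mem_image.1 hi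
        exact (Finset.mem_filter.1 he).2)
    rwa [Finset.card_image_of_injOn (hinj _), hp] at h
  have c4 : (Q.filter (fun e => PathPairsAux.PU μ ν E e)).card ≤ Nat.sqrt (2 * p) := by
    apply PathPairsAux.le_sqrt_of
    have h := bush_count (μ := μ) (ν := ν) (E := E)
      (Q.filter (fun e => PathPairsAux.PU μ ν E e))
      (fun e he f hf => hQ.h1 e (Finset.mem_filter.1 he).1 f (Finset.mem_filter.1 hf).1)
      (fun e he f hf => hQ.h2 e (Finset.mem_filter.1 he).1 f (Finset.mem_filter.1 hf).1)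
      (fun e he => (Finset.mem_filter.1 he).2)
    rwa [hp] at h
  have c5 : (Q.filter (fun e => PathPairsAux.PC μ (rv ν E) D E (e.1, E - e.2))).card ≤
      Nat.sqrt (2 * p) := by
    apply PathPairsAux.le_sqrt_of
    have h := c_cross hμ (GW_rv hν)
      ((Q.filter (fun e => PathPairsAux.PC μ (rv ν E) D E (e.1, E - e.2))).image
        (fun e => (e.1, E - e.2))) (by
        intro i hi
        obtain ⟨e, he, rfl⟩ := Finset.mem_image.1 hi
        exact (Finset.mem_filter.1 he).2)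
    rw [Sz_rv, hp] at h
    rwa [Finset.card_image_of_injOn] at h
    intro e he f hf hef
    have hef1 : ((e.1, E - e.2) : ℕ × ℕ) = (f.1, E - f.2) := hef
    have hef2 : e.1 = f.1 := (Prod.mk.injEq _ _ _ _ ▸ hef1).1
    exact hinj _ he hf hef2
  have c0 : (Q.filter (fun e => e.1 = E / 2 + 1)).card ≤ 1 := by
    rw [Finset.card_le_one]
    intro e he f hf
    have h1 := (Finset.mem_filter.1 he).2
    have h2 := (Finset.mem_filter.1 hf).2
    exact hQ.h1 e (Finset.mem_filter.1 he).1 f (Finset.mem_filter.1 hf).1 (by rw [h1, h2])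
  refine ⟨Q.filter (fun e => ∃ d, TyR μ ν D E e.1 e.2 d), Finset.filter_subset _ _,
    fun e he => (Finset.mem_filter.1 he).2, ?_⟩
  have hsub : Q ⊆ Q.filter (fun e => e.1 = E / 2 + 1) ∪
      (Q.filter (fun e => PathPairsAux.PB μ ν E e.1) ∪
      (Q.filter (fun e => PathPairsAux.PB μ (rv ν E) E e.1) ∪
      (Q.filter (fun e => PathPairsAux.PF μ ν E e.1) ∪
      (Q.filter (fun e => PathPairsAux.PU μ ν E e) ∪
      (Q.filter (fun e => PathPairsAux.PC μ (rv ν E) D E (e.1, E - e.2)) ∪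
      Q.filter (fun e => ∃ d, TyR μ ν D E e.1 e.2 d)))))) := by
    intro e he
    have h := PathPairsAux.key hμ hν hE hQ e he
    simp only [Finset.mem_union, Finset.mem_filter, he, true_and]
    exact h
  have hcard := Finset.card_le_card hsub
  have u1 := Finset.card_union_le (Q.filter (fun e => e.1 = E / 2 + 1))
      (Q.filter (fun e => PathPairsAux.PB μ ν E e.1) ∪
      (Q.filter (fun e => PathPairsAux.PB μ (rv ν E) E e.1) ∪
      (Q.filter (fun e => PathPairsAux.PF μ ν E e.1) ∪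
      (Q.filter (fun e => PathPairsAux.PU μ ν E e) ∪
      (Q.filter (fun e => PathPairsAux.PC μ (rv ν E) D E (e.1, E - e.2)) ∪
      Q.filter (fun e => ∃ d, TyR μ ν D E e.1 e.2 d))))))
  have u2 := Finset.card_union_le (Q.filter (fun e => PathPairsAux.PB μ ν E e.1))
      (Q.filter (fun e => PathPairsAux.PB μ (rv ν E) E e.1) ∪
      (Q.filter (fun e => PathPairsAux.PF μ ν E e.1) ∪
      (Q.filter (fun e => PathPairsAux.PU μ ν E e) ∪
      (Q.filter (fun e => PathPairsAux.PC μ (rv ν E) D E (e.1, E - e.2)) ∪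
      Q.filter (fun e => ∃ d, TyR μ ν D E e.1 e.2 d)))))
  have u3 := Finset.card_union_le (Q.filter (fun e => PathPairsAux.PB μ (rv ν E) E e.1))
      (Q.filter (fun e => PathPairsAux.PF μ ν E e.1) ∪
      (Q.filter (fun e => PathPairsAux.PU μ ν E e) ∪
      (Q.filter (fun e => PathPairsAux.PC μ (rv ν E) D E (e.1, E - e.2)) ∪
      Q.filter (fun e => ∃ d, TyR μ ν D E e.1 e.2 d))))
  have u4 := Finset.card_union_le (Q.filter (fun e => PathPairsAux.PF μ ν E e.1))
      (Q.filter (fun e => PathPairsAux.PU μ ν E e) ∪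
      (Q.filter (fun e => PathPairsAux.PC μ (rv ν E) D E (e.1, E - e.2)) ∪
      Q.filter (fun e => ∃ d, TyR μ ν D E e.1 e.2 d)))
  have u5 := Finset.card_union_le (Q.filter (fun e => PathPairsAux.PU μ ν E e))
      (Q.filter (fun e => PathPairsAux.PC μ (rv ν E) D E (e.1, E - e.2)) ∪
      Q.filter (fun e => ∃ d, TyR μ ν D E e.1 e.2 d))
  have u6 := Finset.card_union_le
      (Q.filter (fun e => PathPairsAux.PC μ (rv ν E) D E (e.1, E - e.2)))
      (Q.filter (fun e => ∃ d, TyR μ ν D E e.1 e.2 d))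
  omega

end

end TRD
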