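import Pool.Agent.Lib.TRD.GapThree

/-! # TRD.RCount (MP_2e3d39_co)

Number of type R pairs.

`gap_count`: S a finite set of naturals in [a,b], x < y in S implies x+3 ≤ y, x < y < z in S implies x + 7 ≤ z. Then 7 card S ≤ 2 (b - a) + 14. Proof: strong induction on card S: if card S ≤ 2 trivial. Otherwise remove the two smallest elements x < y; all others are ≥ x+7, so they lie in [a+7, b]: 7 (card S - 2) ≤ 2 (b - a - 7) + 14 (a + 7 ≤ b).
`r_count`: S = Q.image (fun e => Sz μ e.1). card S = card Q: Sz μ e.1 = Sz μ f.1 gives e.1 = f.1 (`Sz_inj`) and then Sz ν e.2 = Sz μ e.1 = Sz ν f.2 (csize of hc, `csize_cw`), e.2 = f.2. S ⊆ [Sz μ (D/2+1), Sz μ (D+1)] (`Sz_mono`). Gaps by `gap_three`; for i < i' < i'': both gaps ≥ 3; if their sum is ≤ 6 both are 3, the first gives (j' = i'+2 or i' = j'+2) and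
the second (j' = i'+1 or i' = j'+1): contradiction. (The middle pair (i',j') is the same element of Q: e.2 is determined by e.1.)
-/

open Multiset

namespace TRD

noncomputable section

theorem gap_count (S : Finset ℕ) (a b : ℕ) (hS : ∀ x ∈ S, a ≤ x ∧ x ≤ b)
    (h3 : ∀ x ∈ S, ∀ y ∈ S, x < y → x + 3 ≤ y)
    (h7 : ∀ x ∈ S, ∀ y ∈ S, ∀ z ∈ S, x < y → y < z → x + 7 ≤ z) :
    7 * S.card ≤ 2 * (b - a) + 14 := by
  classical
  induction hn : S.card using Nat.strong_induction_on generalizing S a with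
  | _ n ih =>
    subst hn
    by_cases hc : S.card ≤ 2
    · omega
    · push Not at hc
      have hne : S.Nonempty := Finset.card_pos.mp (by omega)
      set x := S.min' hne with hx
      have hxS : x ∈ S := S.min'_mem hne
      have hne1 : (S.erase x).Nonempty := by
        apply Finset.card_pos.mp
        rw [Finset.card_erase_of_mem hxS]; omega
      set y := (S.erase x).min' hne1 with hy
      have hyS' : y ∈ S.erase x := (S.erase x).min'_mem hne1
      have hyS : y ∈ S := Finset.mem_of_mem_erase hyS'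
      have hxy : x < y := by
        have h1 : x ≤ y := S.min'_le y hyS
        have h2 : y ≠ x := Finset.ne_of_mem_erase hyS'
        omega
      set S' := (S.erase x).erase y with hS'
      have hcard : S'.card = S.card - 2 := by
        rw [hS', Finset.card_erase_of_mem hyS', Finset.card_erase_of_mem hxS]; omega
      have hsub : ∀ z ∈ S', z ∈ S := fun z hz =>
        Finset.mem_of_mem_erase (Finset.mem_of_mem_erase hz)
      have hz7 : ∀ z ∈ S', x + 7 ≤ z := by
        intro z hz
        have hz1 : z ∈ S.erase x := Finset.mem_of_mem_erase hz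
        have hz2 : z ≠ y := Finset.ne_of_mem_erase hz
        have hz3 : y ≤ z := (S.erase x).min'_le z hz1
        exact h7 x hxS y hyS z (hsub z hz) hxy (by omega)
      have hax := hS x hxS
      have hS'' : ∀ z ∈ S', a + 7 ≤ z ∧ z ≤ b := by
        intro z hz
        have h1 := hz7 z hz
        have h2 := hS z (hsub z hz)
        omega
      have hne2 : S'.Nonempty := Finset.card_pos.mp (by omega)
      obtain ⟨w, hw⟩ := hne2
      have hw' := hS'' w hw
      have := ih S'.card (by omega) S' (a + 7) hS''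
        (fun u hu v hv => h3 u (hsub u hu) v (hsub v hv))
        (fun u hu v hv t ht => h7 u (hsub u hu) v (hsub v hv) t (hsub t ht)) rfl
      omega

theorem r_count {μ ν : ℕ → Multiset RT} {D E : ℕ} (hμ : GW μ D) (hν : GW ν E) (hE : 10 ≤ E)
    {Q : Finset (ℕ × ℕ)} (hQ : RQ μ ν D E Q) (hI : ∀ e ∈ Q, D / 2 + 1 ≤ e.1) :
    7 * Q.card ≤ 2 * (Sz μ (D + 1) - Sz μ (D / 2 + 1)) + 14 := by
  classical
  have hsz : ∀ e ∈ Q, Sz μ e.1 = Sz ν e.2 := by
    intro e he
    obtain ⟨d, h⟩ := hQ e he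
    have h1 : 1 ≤ e.1 := by have := h.hi; omega
    have h2 : 1 ≤ e.2 := by have := h.hj; omega
    rw [← csize_cw μ h1, ← csize_cw ν h2, h.hc]
  have hinj : ∀ e ∈ Q, ∀ f ∈ Q, Sz μ e.1 = Sz μ f.1 → e = f := by
    intro e he f hf h
    have h1 := Sz_inj μ h
    have h2 : e.2 = f.2 := Sz_inj ν (by rw [← hsz e he, ← hsz f hf, h])
    exact Prod.ext h1 h2
  have hcard : (Q.image (fun e => Sz μ e.1)).card = Q.card :=
    Finset.card_image_of_injOn (fun e he f hf h => hinj e he f hf h)
  rw [← hcard]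
  have hlt : ∀ e : ℕ × ℕ, ∀ f : ℕ × ℕ, Sz μ e.1 < Sz μ f.1 → e.1 < f.1 := by
    intro e f h
    by_contra hle
    push Not at hle
    have := Sz_mono μ hle
    omega
  apply gap_count
  · intro x hx
    obtain ⟨e, he, rfl⟩ := Finset.mem_image.mp hx
    obtain ⟨d, h⟩ := hQ e he
    have h1 := Sz_mono μ (hI e he)
    have h2 := Sz_mono μ (show e.1 ≤ D + 1 by have := h.hiD; omega)
    omega
  · intro x hx y hy hxy
    obtain ⟨e, he, rfl⟩ := Finset.mem_image.mp hx
    obtain ⟨f, hf, rfl⟩ := Finset.mem_image.mp hy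
    obtain ⟨d, h⟩ := hQ e he
    obtain ⟨d', h'⟩ := hQ f hf
    exact (gap_three hμ hν hE h h' (hlt e f hxy)).1
  · intro x hx y hy z hz hxy hyz
    obtain ⟨e, he, rfl⟩ := Finset.mem_image.mp hx
    obtain ⟨f, hf, rfl⟩ := Finset.mem_image.mp hy
    obtain ⟨g, hg, rfl⟩ := Finset.mem_image.mp hz
    obtain ⟨d, h⟩ := hQ e he
    obtain ⟨d', h'⟩ := hQ f hf
    obtain ⟨d'', h''⟩ := hQ g hg
    obtain ⟨g1, g1'⟩ := gap_three hμ hν hE h h' (hlt e f hxy)
    obtain ⟨g2, g2'⟩ := gap_three hμ hν hE h' h'' (hlt f g hyz)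
    by_contra hcon
    have e1 : Sz μ f.1 = Sz μ e.1 + 3 := by omega
    have e2 : Sz μ g.1 = Sz μ f.1 + 3 := by omega
    have q1 := g1' e1
    have q2 := g2' e2
    omega

end

end TRD
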