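import Pool.Agent.Lib.TRD.CcWord
import Pool.Agent.Lib.TRD.CardcRt
import Pool.Agent.Lib.TRD.WordB
import Pool.Agent.Lib.TRD.DlWord

/-! # TRD.HtRt (MP_2e3d39_co)

Heights of centre forms, and: a matched entry with a full-length word is good.

* `ht_rt`: rt μ (D+1) D = node (Lm μ g + mid + Vm μ (D+1) (D/2+1)), g = (D+1)/2: hb (Lm μ g) = g (`hb_Lm`), hb (Vm μ (D+1) (D/2+1)) = D + 1 - (D/2+1) ≤ g (`hb_Vm_le` with dm μ (D+1) = D, `dm_full`), hb (μ (D/2)) ≤ D/2 ≤ g.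
* `kid_small`: `dl_ht`: ht y + 2 ≤ ht (rt μ (D+1) D) = (D+1)/2, so 2 ht y + 4 ≤ D + 1.
* `rt_cls`: `cardc_rt` with F = 0 on both sides.
* `no_bad`: e = (rt μ' (D+1) D, F), e' = (rt ν' j D, F'). `cardc_rt`: cw μ' (D+1) ::ₘ F.map cls = cw ν' j ::ₘ F'.map cls. cc (cw μ' (D+1)) = (rt μ' (D+1) D, D) (`cc_word`, `dm_full`). If cw μ' (D+1) = cls y with y ∈ F': D = (cc (cls y)).2 ≤ 2 ht y < D (`cc_le`, hk): contradiction. So cw μ' (D+1) = cw ν' j, `cw_dest` gives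
  dm ν' j = D and rt μ' (D+1) D = rt ν' j D.
* `gr_of_card`: e.1 = e'.1 and cardc D e = cardc D e' give e.2.map cls = e'.2.map cls (cancel; both parities).
-/

open Multiset

namespace TRD

noncomputable section

theorem ht_rt {μ : ℕ → Multiset RT} {D : ℕ} (hμ : GW μ D) (hD : 1 ≤ D) :
    ht (rt μ (D + 1) D) = (D + 1) / 2 := by
  have h1 : hb (Lm μ ((D + 1) / 2)) = (D + 1) / 2 := hb_Lm μ fun m hm => (hμ m (by omega)).1
  have h2 := hb_Vm_le μ (i := D + 1) (h := D / 2 + 1) (by omega) (by omega)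
  rw [dm_full hμ] at h2
  have h3 := (hμ (D / 2) (by omega)).1
  unfold rt
  rw [ht_node, hb_add, hb_add, h1]
  split_ifs with h4
  · omega
  · rw [hb_zero]
    omega

theorem kid_small {μ : ℕ → Multiset RT} {D : ℕ} (hμ : GW μ D) (hD : 1 ≤ D)
    {e : RT × Multiset RT} (he : e ∈ dl (rt μ (D + 1) D)) : ∀ y ∈ e.2, 2 * ht y < D := by
  intro y hy
  have h1 := (dl_ht he).2 y hy
  rw [ht_rt hμ hD] at h1
  omega

theorem rt_cls {μ ν : ℕ → Multiset RT} {D i j : ℕ} (hi : D / 2 + 1 ≤ i) (hj : D / 2 + 1 ≤ j)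
    (h : rt μ i D = rt ν j D) : cw μ i = cw ν j := by
  have h1 := cardc_rt μ hi 0
  rw [h, cardc_rt ν hj 0] at h1
  exact ((Multiset.cons_inj_left _).1 h1).symm

theorem gr_of_card {D : ℕ} {e e' : RT × Multiset RT} (h : cardc D e = cardc D e')
    (h1 : e.1 = e'.1) : e.2.map cls = e'.2.map cls := by
  unfold cardc at h
  rw [h1] at h
  split_ifs at h with h2
  · exact (Multiset.cons_inj_right _).1 h
  · exact add_left_cancel h

theorem no_bad {D : ℕ} {e e' : RT × Multiset RT} (h : cardc D e = cardc D e')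
    {μ' ν' : ℕ → Multiset RT} {j : ℕ} (hμ : GW μ' D) (h1 : e.1 = rt μ' (D + 1) D)
    (hν : GW ν' D) (hj : D / 2 + 1 ≤ j) (hj2 : j ≤ D + 1) (h2 : e'.1 = rt ν' j D)
    (hk : ∀ y ∈ e'.2, 2 * ht y < D) : e.1 = e'.1 := by
  have he : e = (rt μ' (D + 1) D, e.2) := Prod.ext h1 rfl
  have he' : e' = (rt ν' j D, e'.2) := Prod.ext h2 rfl
  rw [he, he', cardc_rt μ' (by omega) e.2, cardc_rt ν' hj e'.2] at h
  have hm : cw μ' (D + 1) ∈ cw ν' j ::ₘ e'.2.map cls := by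
    rw [← h]
    exact Multiset.mem_cons_self _ _
  have hb1 : ∀ m < D + 1, hb (μ' m) ≤ m := fun m hm => (hμ m (by omega)).1
  rcases Multiset.mem_cons.1 hm with h3 | h3
  · have h4 := (cw_dest (by omega) (by omega) hb1 (fun m hm => (hν m (by omega)).1) h3).2
    rw [dm_full hμ] at h4
    rw [h1, h2, h4]
  · obtain ⟨y, hy, hy2⟩ := Multiset.mem_map.1 h3
    have h5 := cc_word μ' (i := D + 1) (by omega) hb1
    have h6 := cc_le y
    have h7 := hk y hy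
    rw [hy2, h5, dm_full hμ] at h6
    exact absurd h6 (by show ¬ D ≤ 2 * ht y; omega)

end

end TRD
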