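import Pool.Agent.Lib.TRD.CaseOne
import Pool.Agent.Lib.TRD.CaseTwo
import Pool.Agent.Lib.TRD.CaseThree

/-! # TRD.RootedMain (MP_2e3d39_co)

Theorem 2: rooted comparison.

Strong induction on size x. x = node m, y = node m', m ≠ m', sz m = sz m'. Let M be a good matching. If M = 0: r = 0, RL.zero. Otherwise lift one pair (`gm_lift`: M' ≠ 0), take t, t' ∈ M' and `classify`:
 (α) m = P ::ₘ s, m' = Q ::ₘ s, P ≠ Q, size P = size Q: `case_one` with the induction hypothesis RC P Q (size P < size x), applied to M.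
 (A) m = U ::ₘ s, m' = U' ::ₘ s: `case_one` as well.
 (β) m = P ::ₘ (o' + s), m' = Q ::ₘ (o + s), P ≠ Q, o ≠ o', card o, card o' ≤ 1. sz m = sz m': size P + sz o' = size Q + sz o.
   o = {c}, o' = {d}: c ≠ d. size c < size P, size d < size Q (`dlo_size`). P ≠ c, d ≠ Q. If size Q ≤ size P: case_two with P₁ = P, P₂ = d, Q₁ = Q, Q₂ = c: size c ≤ size P; P ≠ Q, P ≠ c, d ≠ Q, d ≠ c. r = 0. If size P < size Q: case_two for the swapped matching (`mt_swap`) with P₁ = Q, P₂ = c, Q₁ = P, Q₂ = d: gives Fat g e y x; size y = size x.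
   o = 0, o' = {d}: m = P ::ₘ d ::ₘ s, m' = Q ::ₘ s, size P + size d = size Q: case_three. o = {c}, o' = 0: m = P ::ₘ s, m' = Q ::ₘ c ::ₘ s: case_three' with P₁ = Q, P₂ = c, Q = P. o = o' = 0 is excluded.
`rooted_crude`: RC with r ≤ 2 (`rl_le_two`): 5 card M ≤ 3n + 60 gives 3 card M ≤ 2n + 36; Fat: card M ≤ 2g, n = 3g+2+e (`fat_size`), 3 card M ≤ 6g ≤ 2n.
`rooted_fat`: if 5 card M > 3n + 60 then Fat with card M ≤ 2g.
-/

open Multiset

namespace TRD

noncomputable section

namespace RootedMainAux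

theorem gm_swap {M : Multiset ((RT × Multiset RT) × (RT × Multiset RT))} {x y : RT}
    (hM : GM M x y) : GM (M.map Prod.swap) y x := by
  obtain ⟨h1, h2, h3⟩ := mt_swap hM
  refine ⟨h1, h2, ?_⟩
  intro e he
  exact ⟨(h3 e he).1.symm, (h3 e he).2.symm⟩

theorem le_one {m : Multiset RT} (h : card m ≤ 1) : m = 0 ∨ ∃ c, m = {c} := by
  rcases Nat.eq_zero_or_pos (card m) with h0 | h0
  · exact Or.inl (Multiset.card_eq_zero.1 h0)
  · exact Or.inr (Multiset.card_eq_one.1 (by omega))

end RootedMainAux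

open RootedMainAux

theorem rooted_main {x y : RT} (hne : x ≠ y) (hsz : size x = size y) : RC x y := by
  induction hn : size x using Nat.strong_induction_on generalizing x y with
  | _ n ih =>
  intro M hM
  obtain ⟨m, rfl⟩ : ∃ m, node m = x := ⟨ch x, node_ch x⟩
  obtain ⟨m', rfl⟩ : ∃ m', node m' = y := ⟨ch y, node_ch y⟩
  have hmm : m ≠ m' := fun h => hne (by rw [h])
  have hs : sz m = sz m' := by
    rw [size_node, size_node] at hsz
    omega
  rw [size_node] at hn
  by_cases h0 : M = 0
  · refine ⟨0, RL.zero _ _, Or.inl ?_⟩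
    rw [h0]
    simp
  obtain ⟨M', hM', hc⟩ := gm_lift hM
  have hM'0 : M' ≠ 0 := by
    rintro rfl
    apply h0
    rw [← Multiset.card_eq_zero, ← hc]
    simp
  obtain ⟨p, hp⟩ := Multiset.exists_mem_of_ne_zero hM'0
  have ht : p.1 ∈ ldl m := Multiset.mem_of_le hM'.1 (Multiset.mem_map_of_mem _ hp)
  have ht' : p.2 ∈ ldl m' := Multiset.mem_of_le hM'.2.1 (Multiset.mem_map_of_mem _ hp)
  rcases classify hmm hs ht ht' (hM'.2.2 p hp) with ⟨_, hPQ, hsz2, s, e1, e2⟩ |
    ⟨_, U, U', s, hUU, hszU, hlt, e1, e2, _⟩ | ⟨hPQ, hoo, s, e1, e2⟩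
  · have hlt : size p.1.1 < n := by
      rw [e1, sz_cons] at hn
      omega
    rw [e1, e2] at hM ⊢
    exact case_one hPQ hsz2 (ih _ hlt hPQ hsz2 rfl) M hM
  · have hlt : size U < n := by
      rw [e1, sz_cons] at hn
      omega
    rw [e1, e2] at hM ⊢
    exact case_one hUU hszU (ih _ hlt hUU hszU rfl) M hM
  · have d1 := dlo_size (mem_ldl.1 ht).2
    have d2 := dlo_size (mem_ldl.1 ht').2
    have c1 := dlo_card (mem_ldl.1 ht).2
    have c2 := dlo_card (mem_ldl.1 ht').2
    generalize p.1.1 = P at *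
    generalize p.2.1 = Q at *
    generalize p.1.2.1 = o at *
    generalize p.2.2.1 = o' at *
    subst e1
    subst e2
    rcases le_one c1 with rfl | ⟨c, rfl⟩
    · rcases le_one c2 with rfl | ⟨d, rfl⟩
      · exact absurd rfl hoo
      · -- o = 0, o' = {d}
        rw [zero_add] at hM hs hsz ⊢
        rw [Multiset.singleton_add] at hM hs hn hsz ⊢
        simp only [sz_cons] at hs
        have h := case_three (P₁ := P) (P₂ := d) (Q := Q) (s := s) (by omega) hM
        exact ⟨0, RL.zero _ _, Or.inl (by omega)⟩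
    · rcases le_one c2 with rfl | ⟨d, rfl⟩
      · -- o = {c}, o' = 0
        rw [zero_add] at hM hs hn hsz ⊢
        rw [Multiset.singleton_add] at hM hs hsz ⊢
        simp only [sz_cons] at hs
        have h := case_three' (P₁ := Q) (P₂ := c) (Q := P) (s := s) (by omega) hM
        exact ⟨0, RL.zero _ _, Or.inl (by omega)⟩
      · rw [Multiset.singleton_add] at hM hs hn hsz ⊢
        rw [Multiset.singleton_add] at hM hs hsz ⊢
        simp only [sz_cons, sz_singleton] at hs d1 d2
        have hcd : c ≠ d := by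
          rintro rfl
          exact hoo rfl
        have hPc : P ≠ c := by
          rintro rfl
          omega
        have hdQ : d ≠ Q := by
          rintro rfl
          omega
        by_cases hle : size Q ≤ size P
        · rcases case_two (P₁ := P) (P₂ := d) (Q₁ := Q) (Q₂ := c) (s := s) (by omega) hle
            (by omega) hPQ hPc hdQ hcd.symm hM with h | ⟨g, e, hF, hg⟩
          · exact ⟨0, RL.zero _ _, Or.inl (by omega)⟩
          · exact ⟨0, RL.zero _ _, Or.inr ⟨g, e, Or.inl hF, by omega⟩⟩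
        · have hM2 := gm_swap hM
          rcases case_two (P₁ := Q) (P₂ := c) (Q₁ := P) (Q₂ := d) (s := s) (by omega) (by omega)
            (by omega) hPQ.symm hdQ.symm hPc.symm hcd hM2 with h | ⟨g, e, hF, hg⟩
          · rw [Multiset.card_map] at h
            exact ⟨0, RL.zero _ _, Or.inl (by omega)⟩
          · rw [Multiset.card_map] at hg
            exact ⟨0, RL.zero _ _, Or.inr ⟨g, e, Or.inr hF, by omega⟩⟩

theorem rooted_crude {x y : RT} (hne : x ≠ y) (hsz : size x = size y)
    {M : Multiset ((RT × Multiset RT) × (RT × Multiset RT))} (hM : GM M x y) :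
    3 * card M ≤ 2 * size x + 36 := by
  obtain ⟨r, hr, h⟩ := rooted_main hne hsz M hM
  have h2 := rl_le_two hne hr
  rcases h with h | ⟨g, e, hF, h⟩
  · omega
  · rcases hF with hF | hF
    · have := (fat_size hF).1
      omega
    · have := (fat_size hF).2
      omega

theorem rooted_fat {x y : RT} (hne : x ≠ y) (hsz : size x = size y)
    {M : Multiset ((RT × Multiset RT) × (RT × Multiset RT))} (hM : GM M x y)
    (hbig : 3 * size x + 60 < 5 * card M) :
    ∃ g e, (Fat g e x y ∨ Fat g e y x) ∧ card M ≤ 2 * g ∧ size x = 3 * g + 2 + e := by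
  obtain ⟨r, hr, h⟩ := rooted_main hne hsz M hM
  have h2 := rl_le_two hne hr
  rcases h with h | ⟨g, e, hF, h⟩
  · omega
  · refine ⟨g, e, hF, by omega, ?_⟩
    rcases hF with hF | hF
    · exact (fat_size hF).1
    · exact (fat_size hF).2

end

end TRD
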