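import Pool.Agent.Lib.TRD.ThinA
import Pool.Agent.Lib.TRD.MatchB
import Pool.Agent.Lib.TRD.Classify
import Pool.Agent.Lib.TRD.RootedMain

/-! # TRD.RestCount (MP_2e3d39_co)

Number of pairs outside the thin branches. m = La ::ₘ ρ ::ₘ B, m' = La' ::ₘ ρ' ::ₘ B'; La, ρ, La', ρ' have height g-1 (ht + 1 = g), everything in B, B' is lower.

Let (t,t') ∈ M, P = t.1 ≠ La, Q = t'.1 ≠ La', o = t.2.1, o' = t'.2.1. P ∈ {ρ} ∪ B, Q ∈ {ρ'} ∪ B'. Let top(X) = X.filter (ht · + 1 = g). hb o ≤ ht P + 1 (`dlo_hb`).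
(i) P ∈ B, Q ∈ B': o + La ::ₘ ρ ::ₘ B.erase P = o' + La' ::ₘ ρ' ::ₘ B'.erase Q (P ≠ La, ρ by heights). Apply top: {La, ρ} = {La', ρ'}; cancel: o + B.erase P = o' + B'.erase Q. So t ∈ ldl B, t' ∈ ldl B', Rl B B' t t'.
(ii) P = ρ (≠ La), Q ∈ B': o + La ::ₘ B = o' + La' ::ₘ ρ' ::ₘ B'.erase Q: top: top o + {La} = {La', ρ'}, La ≠ La': so o = {La'} (and ρ' = La).
(iii) P ∈ B, Q = ρ': o' = {La}. (iv) P = ρ, Q = ρ': top o + {La} = {La'} + top o', La ≠ La': o = {La'}.
So M = M₁ + M₂ + M₃: M₁: pairs of kind (i); M₂: pairs with P = ρ ≠ La, o = {La'}: number ≤ number of elements of ldl m with t.1 = ρ, t.2.1 = {La'}; ρ ≠ La, ρ ∉ B so count ρ m = 1 and the number is card ((dl ρ).filter (e.1 = La')) ≤ C + 1 (`thin_entries`, hC'); M₃: pairs with Q = ρ' ≠ La', o' = {La}: ≤ C + 1 (`thin_entries`, hC).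
M₁: if M₁ is nonempty: {La,ρ} = {La',ρ'}, so B ≠ B' (m ≠ m'), sz B = sz B'. M₁.map fst ≤ (ldl m).filter (t.1 ∈ B as label; the labels of B are different from La and ρ) = ldl B, same on the right. Mapping the labelled entries to entries of node B, node B' (`dl_eq_ldl`) gives a matching GM M₁' (node B) (node B') of the same card: `rooted_crude`:
3 card M₁ ≤ 2 (1 + sz B) + 36. If M₁ is empty the bound is trivial.
-/

open Multiset

namespace TRD

noncomputable section

namespace RestCountAux

theorem card_three {α : Type} (p q r : α → Prop) [DecidablePred p] [DecidablePred q]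
    [DecidablePred r] (M : Multiset α) : (∀ e ∈ M, p e ∨ q e ∨ r e) →
    card M ≤ card (M.filter p) + card (M.filter q) + card (M.filter r) := by
  induction M using Multiset.induction_on with
  | empty => intro _; simp
  | cons a M ih =>
    intro h
    have h1 := ih fun e he => h e (Multiset.mem_cons_of_mem he)
    have h2 := h a (Multiset.mem_cons_self a M)
    have e1 : card (filter p (a ::ₘ M)) = card (filter p M) + if p a then 1 else 0 := by
      by_cases hp : p a
      · rw [Multiset.filter_cons_of_pos _ hp, card_cons, if_pos hp]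
      · rw [Multiset.filter_cons_of_neg _ hp, if_neg hp, add_zero]
    have e2 : card (filter q (a ::ₘ M)) = card (filter q M) + if q a then 1 else 0 := by
      by_cases hp : q a
      · rw [Multiset.filter_cons_of_pos _ hp, card_cons, if_pos hp]
      · rw [Multiset.filter_cons_of_neg _ hp, if_neg hp, add_zero]
    have e3 : card (filter r (a ::ₘ M)) = card (filter r M) + if r a then 1 else 0 := by
      by_cases hp : r a
      · rw [Multiset.filter_cons_of_pos _ hp, card_cons, if_pos hp]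
      · rw [Multiset.filter_cons_of_neg _ hp, if_neg hp, add_zero]
    rw [e1, e2, e3, card_cons]
    rcases h2 with h2 | h2 | h2
    · rw [if_pos h2]; omega
    · rw [if_pos h2]; omega
    · rw [if_pos h2]; omega

/-- the trees of height `g - 1` -/
def top (g : ℕ) (X : Multiset RT) : Multiset RT := X.filter (fun y => ht y + 1 = g)

theorem top_add (g : ℕ) (X Y : Multiset RT) : top g (X + Y) = top g X + top g Y :=
  Multiset.filter_add _ _ _

theorem top_cons (g : ℕ) {y : RT} (h : ht y + 1 = g) (X : Multiset RT) :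
    top g (y ::ₘ X) = y ::ₘ top g X := Multiset.filter_cons_of_pos _ h

theorem top_low {g : ℕ} {X : Multiset RT} (h : hb X < g) : top g X = 0 := by
  unfold top
  rw [Multiset.filter_eq_nil]
  intro y hy
  have := ht_lt_hb hy
  omega

theorem erase_low {g : ℕ} {X : Multiset RT} (P : RT) (h : hb X < g) : hb (X.erase P) < g := by
  by_contra h0
  have h1 : X.erase P ≠ 0 := by
    intro h2
    rw [h2, hb_zero] at h0
    omega
  obtain ⟨y, hy, hy2⟩ := hb_attained h1
  have := ht_lt_hb (Multiset.mem_of_mem_erase hy)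
  omega

theorem mem_top {g : ℕ} {X : Multiset RT} {y : RT} (h : y ∈ top g X) : y ∈ X :=
  Multiset.mem_of_mem_filter h

theorem single_of {o : Multiset RT} {y : RT} (h : card o ≤ 1) (hy : y ∈ o) : o = {y} := by
  obtain ⟨t, rfl⟩ := Multiset.exists_cons_of_mem hy
  rw [card_cons] at h
  have h1 : t = 0 := Multiset.card_eq_zero.1 (by omega)
  rw [h1]
  rfl

/-- facts on one side: what is left of `m` -/
theorem side {La ρ : RT} {B : Multiset RT} {g : ℕ} (h1 : ht La + 1 = g) (h2 : ht ρ + 1 = g)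
    (hB : hb B < g) {t : RT × Multiset RT × Multiset RT} (ht : t ∈ ldl (La ::ₘ ρ ::ₘ B))
    (hne : t.1 ≠ La) :
    (t.1 ∈ B ∧ t ∈ ldl B ∧ (La ::ₘ ρ ::ₘ B).erase t.1 = La ::ₘ ρ ::ₘ B.erase t.1 ∧
      top g t.2.1 = 0) ∨
    (t.1 = ρ ∧ ρ ≠ La ∧ (La ::ₘ ρ ::ₘ B).erase t.1 = La ::ₘ B) := by
  obtain ⟨ht1, ht2⟩ := mem_ldl.1 ht
  rw [Multiset.mem_cons, Multiset.mem_cons] at ht1
  rcases ht1 with h | h | h
  · exact absurd h hne
  · right
    refine ⟨h, by rw [← h]; exact hne, ?_⟩
    rw [Multiset.erase_cons_tail _ (Ne.symm hne), h, Multiset.erase_cons_head]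
  · left
    have h3 := ht_lt_hb h
    have h4 : t.1 ≠ ρ := by
      intro h5
      rw [h5] at h3
      omega
    refine ⟨h, mem_ldl.2 ⟨h, ht2⟩, ?_, ?_⟩
    · rw [Multiset.erase_cons_tail _ (Ne.symm hne), Multiset.erase_cons_tail _ (Ne.symm h4)]
    · apply top_low
      have := (dlo_hb ht2).1
      omega

theorem ldl_filter {La ρ : RT} {B : Multiset RT} {g : ℕ} (h1 : ht La + 1 = g) (h2 : ht ρ + 1 = g)
    (hB : hb B < g) :
    (ldl (La ::ₘ ρ ::ₘ B)).filter (fun t => t.1 ∈ B) = ldl B := by
  have hn : ∀ y : RT, ht y + 1 = g → y ∉ B := by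
    intro y hy hyB
    have := ht_lt_hb hyB
    omega
  have hz : ∀ y : RT, ht y + 1 = g → ((dlo y).map (fun o => (y, o))).filter
      (fun t : RT × Multiset RT × Multiset RT => t.1 ∈ B) = 0 := by
    intro y hy
    rw [Multiset.filter_eq_nil]
    intro t ht
    rw [Multiset.mem_map] at ht
    obtain ⟨o, _, rfl⟩ := ht
    exact hn y hy
  rw [ldl_cons, ldl_cons, Multiset.filter_add, Multiset.filter_add, hz La h1, hz ρ h2, zero_add,
    zero_add, Multiset.filter_eq_self]
  intro t ht
  exact (mem_ldl.1 ht).1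

theorem count_low {La ρ : RT} {B : Multiset RT} {g : ℕ} (h2 : ht ρ + 1 = g)
    (hB : hb B < g) (hne : ρ ≠ La) : count ρ (La ::ₘ ρ ::ₘ B) = 1 := by
  have hn : ρ ∉ B := by
    intro hyB
    have := ht_lt_hb hyB
    omega
  rw [Multiset.count_cons_of_ne hne, Multiset.count_cons_self, Multiset.count_eq_zero_of_notMem hn]

end RestCountAux

open RestCountAux

theorem rest_count {La ρ La' ρ' : RT} {B B' : Multiset RT} {g C : ℕ}
    (h1 : ht La + 1 = g) (h2 : ht ρ + 1 = g) (h3 : ht La' + 1 = g) (h4 : ht ρ' + 1 = g)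
    (hB : hb B < g) (hB' : hb B' < g) (hne : La ≠ La')
    (hsz : sz (La ::ₘ ρ ::ₘ B) = sz (La' ::ₘ ρ' ::ₘ B'))
    (hC : ∀ k, lev k La ≤ C) (hC' : ∀ k, lev k La' ≤ C)
    (hm : La ::ₘ ρ ::ₘ B ≠ La' ::ₘ ρ' ::ₘ B')
    {M : Multiset ((RT × Multiset RT × Multiset RT) × (RT × Multiset RT × Multiset RT))}
    (hM : Mt M (ldl (La ::ₘ ρ ::ₘ B)) (ldl (La' ::ₘ ρ' ::ₘ B'))
      (Rl (La ::ₘ ρ ::ₘ B) (La' ::ₘ ρ' ::ₘ B')))
    (hl : ∀ e ∈ M, e.1.1 ≠ La ∧ e.2.1 ≠ La') :
    3 * card M ≤ 2 * sz B + 38 + 6 * (C + 1) := by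
  -- the kinds of pairs
  have kinds : ∀ e ∈ M, (e.1.1 ∈ B ∧ e.2.1 ∈ B') ∨ (e.1.1 = ρ ∧ e.1.2.1 = {La'}) ∨
      (e.2.1 = ρ' ∧ e.2.2.1 = {La}) := by
    intro e he
    have m1 : e.1 ∈ ldl (La ::ₘ ρ ::ₘ B) :=
      Multiset.mem_of_le hM.1 (Multiset.mem_map_of_mem _ he)
    have m2 : e.2 ∈ ldl (La' ::ₘ ρ' ::ₘ B') :=
      Multiset.mem_of_le hM.2.1 (Multiset.mem_map_of_mem _ he)
    obtain ⟨l1, l2⟩ := hl e he
    have hr := (hM.2.2 e he).1
    have c1 := dlo_card (mem_ldl.1 m1).2
    have c2 := dlo_card (mem_ldl.1 m2).2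
    rcases side h1 h2 hB m1 l1 with ⟨a1, a2, a3, a4⟩ | ⟨a1, a2, a3⟩
    · rcases side h3 h4 hB' m2 l2 with ⟨b1, b2, b3, b4⟩ | ⟨b1, b2, b3⟩
      · exact Or.inl ⟨a1, b1⟩
      · right; right
        refine ⟨b1, single_of c2 ?_⟩
        rw [a3, b3] at hr
        have hr2 := congrArg (top g) hr
        rw [top_add, top_add, top_cons g h1, top_cons g h3, a4, zero_add] at hr2
        have h5 : La ∈ top g e.2.2.1 + La' ::ₘ top g B' := by
          rw [← hr2]; exact Multiset.mem_cons_self _ _
        rw [top_low hB', Multiset.mem_add, Multiset.mem_cons] at h5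
        rcases h5 with h5 | h5 | h5
        · exact mem_top h5
        · exact absurd h5 hne
        · exact absurd h5 (Multiset.notMem_zero _)
    · right; left
      refine ⟨a1, single_of c1 ?_⟩
      rcases side h3 h4 hB' m2 l2 with ⟨b1, b2, b3, b4⟩ | ⟨b1, b2, b3⟩
      · rw [a3, b3] at hr
        have hr2 := congrArg (top g) hr
        rw [top_add, top_add, top_cons g h1, top_cons g h3, b4, zero_add, top_low hB] at hr2
        have h5 : La' ∈ top g e.1.2.1 + La ::ₘ 0 := by
          rw [hr2]; exact Multiset.mem_cons_self _ _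
        rw [Multiset.mem_add, Multiset.mem_cons] at h5
        rcases h5 with h5 | h5 | h5
        · exact mem_top h5
        · exact absurd h5.symm hne
        · exact absurd h5 (Multiset.notMem_zero _)
      · rw [a3, b3] at hr
        have hr2 := congrArg (top g) hr
        rw [top_add, top_add, top_cons g h1, top_cons g h3, top_low hB] at hr2
        have h5 : La' ∈ top g e.1.2.1 + La ::ₘ 0 := by
          rw [hr2, Multiset.mem_add]
          exact Or.inr (Multiset.mem_cons_self _ _)
        rw [Multiset.mem_add, Multiset.mem_cons] at h5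
        rcases h5 with h5 | h5 | h5
        · exact mem_top h5
        · exact absurd h5.symm hne
        · exact absurd h5 (Multiset.notMem_zero _)
  have hcard := card_three _ _ _ M kinds
  -- second kind
  have k2 : card (M.filter (fun e => e.1.1 = ρ ∧ e.1.2.1 = {La'})) ≤ C + 1 := by
    by_cases h0 : M.filter (fun e => e.1.1 = ρ ∧ e.1.2.1 = {La'}) = 0
    · rw [h0, card_zero]; omega
    · obtain ⟨e, he⟩ := Multiset.exists_mem_of_ne_zero h0
      obtain ⟨he1, he2⟩ := Multiset.mem_filter.1 he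
      have hρ : ρ ≠ La := by rw [← he2.1]; exact (hl e he1).1
      have a1 := mt_card_left hM (Multiset.filter_le (fun e => e.1.1 = ρ ∧ e.1.2.1 = {La'}) M)
        (fun t => t.1 = ρ ∧ t.2.1 = {La'}) (fun e he => (Multiset.mem_filter.1 he).2)
      rw [CaseTwoAux.card_filter_label, count_low h2 hB hρ, one_mul] at a1
      exact a1.trans (thin_entries hC')
  have k3 : card (M.filter (fun e => e.2.1 = ρ' ∧ e.2.2.1 = {La})) ≤ C + 1 := by
    by_cases h0 : M.filter (fun e => e.2.1 = ρ' ∧ e.2.2.1 = {La}) = 0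
    · rw [h0, card_zero]; omega
    · obtain ⟨e, he⟩ := Multiset.exists_mem_of_ne_zero h0
      obtain ⟨he1, he2⟩ := Multiset.mem_filter.1 he
      have hρ : ρ' ≠ La' := by rw [← he2.1]; exact (hl e he1).2
      have a1 := mt_card_right hM (Multiset.filter_le (fun e => e.2.1 = ρ' ∧ e.2.2.1 = {La}) M)
        (fun t => t.1 = ρ' ∧ t.2.1 = {La}) (fun e he => (Multiset.mem_filter.1 he).2)
      rw [CaseTwoAux.card_filter_label, count_low h4 hB' hρ, one_mul] at a1
      exact a1.trans (thin_entries hC)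
  have k1 : 3 * card (M.filter (fun e => e.1.1 ∈ B ∧ e.2.1 ∈ B')) ≤ 2 * sz B + 38 := by
    by_cases h0 : M.filter (fun e => e.1.1 ∈ B ∧ e.2.1 ∈ B') = 0
    · rw [h0, card_zero]; omega
    · -- all pairs of the first kind
      have all : ∀ e ∈ M.filter (fun e => e.1.1 ∈ B ∧ e.2.1 ∈ B'),
          (La ::ₘ ({ρ} : Multiset RT)) = La' ::ₘ {ρ'} ∧ Rl B B' e.1 e.2 := by
        intro e he
        obtain ⟨he1, he2⟩ := Multiset.mem_filter.1 he
        have m1 : e.1 ∈ ldl (La ::ₘ ρ ::ₘ B) :=
          Multiset.mem_of_le hM.1 (Multiset.mem_map_of_mem _ he1)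
        have m2 : e.2 ∈ ldl (La' ::ₘ ρ' ::ₘ B') :=
          Multiset.mem_of_le hM.2.1 (Multiset.mem_map_of_mem _ he1)
        obtain ⟨l1, l2⟩ := hl e he1
        obtain ⟨hr, hr'⟩ := hM.2.2 e he1
        have q1 : e.1.1 ≠ ρ := by
          intro h5
          have h6 := ht_lt_hb he2.1
          rw [h5] at h6
          omega
        have q2 : e.2.1 ≠ ρ' := by
          intro h5
          have h6 := ht_lt_hb he2.2
          rw [h5] at h6
          omega
        rcases side h1 h2 hB m1 l1 with ⟨a1, a2, a3, a4⟩ | ⟨a1, _, _⟩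
        swap
        · exact absurd a1 q1
        rcases side h3 h4 hB' m2 l2 with ⟨b1, b2, b3, b4⟩ | ⟨b1, _, _⟩
        swap
        · exact absurd b1 q2
        rw [a3, b3] at hr
        have hr2 := congrArg (top g) hr
        rw [top_add, top_add, top_cons g h1, top_cons g h3, top_cons g h2, top_cons g h4, a4, b4,
          zero_add, zero_add, top_low (erase_low _ hB), top_low (erase_low _ hB')] at hr2
        refine ⟨hr2, ?_, hr'⟩
        have e1 : e.1.2.1 + La ::ₘ ρ ::ₘ B.erase e.1.1 =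
            (La ::ₘ ({ρ} : Multiset RT)) + (e.1.2.1 + B.erase e.1.1) := by
          rw [← Multiset.singleton_add, ← Multiset.singleton_add ρ, ← Multiset.singleton_add La]
          abel
        have e2 : e.2.2.1 + La' ::ₘ ρ' ::ₘ B'.erase e.2.1 =
            (La' ::ₘ ({ρ'} : Multiset RT)) + (e.2.2.1 + B'.erase e.2.1) := by
          rw [← Multiset.singleton_add, ← Multiset.singleton_add ρ', ← Multiset.singleton_add La']
          abel
        rw [e1, e2] at hr
        have hr3 : La ::ₘ ({ρ} : Multiset RT) = La' ::ₘ {ρ'} := hr2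
        rw [hr3] at hr
        exact add_left_cancel hr
      obtain ⟨e0, he0⟩ := Multiset.exists_mem_of_ne_zero h0
      have hpair := (all e0 he0).1
      have hBB : B ≠ B' := by
        rintro rfl
        apply hm
        have e1 : La ::ₘ ρ ::ₘ B = (La ::ₘ ({ρ} : Multiset RT)) + B := by
          rw [Multiset.cons_add, Multiset.singleton_add]
        have e2 : La' ::ₘ ρ' ::ₘ B = (La' ::ₘ ({ρ'} : Multiset RT)) + B := by
          rw [Multiset.cons_add, Multiset.singleton_add]
        rw [e1, e2, hpair]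
      have hszB : sz B = sz B' := by
        have h5 := congrArg sz hpair
        rw [sz_cons, sz_cons, sz_singleton, sz_singleton] at h5
        simp only [sz_cons] at hsz
        omega
      have hfst : (M.filter (fun e => e.1.1 ∈ B ∧ e.2.1 ∈ B')).map Prod.fst ≤ ldl B := by
        rw [← ldl_filter h1 h2 hB, Multiset.le_filter]
        refine ⟨(Multiset.map_le_map (Multiset.filter_le _ _)).trans hM.1, ?_⟩
        intro t ht
        obtain ⟨e, he, rfl⟩ := Multiset.mem_map.1 ht
        exact (Multiset.mem_filter.1 he).2.1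
      have hsnd : (M.filter (fun e => e.1.1 ∈ B ∧ e.2.1 ∈ B')).map Prod.snd ≤ ldl B' := by
        rw [← ldl_filter h3 h4 hB', Multiset.le_filter]
        refine ⟨(Multiset.map_le_map (Multiset.filter_le _ _)).trans hM.2.1, ?_⟩
        intro t ht
        obtain ⟨e, he, rfl⟩ := Multiset.mem_map.1 ht
        exact (Multiset.mem_filter.1 he).2.2
      have hGM : GM ((M.filter (fun e => e.1.1 ∈ B ∧ e.2.1 ∈ B')).map (Prod.map
          (fun t : RT × Multiset RT × Multiset RT => (node (t.2.1 + B.erase t.1), t.2.2))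
          (fun t : RT × Multiset RT × Multiset RT => (node (t.2.1 + B'.erase t.1), t.2.2))))
          (node B) (node B') := by
        refine ⟨?_, ?_, ?_⟩
        · rw [dl_eq_ldl, Multiset.map_map]
          have := Multiset.map_le_map
            (f := fun t : RT × Multiset RT × Multiset RT => (node (t.2.1 + B.erase t.1), t.2.2)) hfst
          rw [Multiset.map_map] at this
          exact this
        · rw [dl_eq_ldl, Multiset.map_map]
          have := Multiset.map_le_map
            (f := fun t : RT × Multiset RT × Multiset RT => (node (t.2.1 + B'.erase t.1), t.2.2)) hsnd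
          rw [Multiset.map_map] at this
          exact this
        · intro f hf
          obtain ⟨e, he, rfl⟩ := Multiset.mem_map.1 hf
          obtain ⟨_, hr1, hr2⟩ := all e he
          refine ⟨?_, hr2⟩
          show node (e.1.2.1 + B.erase e.1.1) = node (e.2.2.1 + B'.erase e.2.1)
          rw [hr1]
      have h6 := rooted_crude (fun h => hBB (node_inj h)) (by rw [size_node, size_node, hszB]) hGM
      rw [card_map, size_node] at h6
      omega
  omega

end

end TRD
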