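import Pool.Agent.Lib.TRD.PDefs
import Pool.Agent.Lib.TRD.WordA

/-! # TRD.LevSum (MP_2e3d39_co)

Level counts of word limbs starting at different positions.

`lev_node`: lev (k+1) (node m) = levm k m. `lev_sum_le`: ∑ k ∈ range n, levm k m ≤ sz m for all n (RT.ind: ∑ k ∈ range (n+1), lev k x = 1 + ∑ k ∈ range n, levm k (ch x) ≤ 1 + sz (ch x) = size x).
Define b l 0 = 1, b l (r+1) = levm r (ν l): number of vertices at distance r from the path vertex l inside its bushes. ∑ r ∈ T, b l r ≤ 1 + sz (ν l) for every finite set T of naturals.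
Claim: levm k (Vm ν j m) ≤ ∑ l ∈ Ico m (m+k+1) ∩ [m, j), b l (k + m - l): induction on k (for all m): if j ≤ m it is 0. Otherwise Vm ν j m = {node (ν m + Vm ν j (m+1))}; k = 0: lev 0 = 1 = b m 0. k+1: lev (k+1) (node ..) = levm k (ν m) + levm k (Vm ν j (m+1)) and levm k (ν m) = b m (k+1), the second by induction (k + (m+1) - l = (k+1) + m - l).
Sum over S: ∑ e ∈ S, levm k (Vm ν e.2 e.1) ≤ ∑ e ∈ S, ∑ l ∈ range n, [e.1 ≤ l ≤ e.1 + k] b l (k + e.1 - l). Exchange the sums: for fixed l the numbers k + e.1 - l are distinct for distinct e.1. So ≤ ∑ l ∈ range n, (1 + sz (ν l)) = Sz ν n.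
-/

open Multiset

namespace TRD

noncomputable section

theorem lev_node (k : ℕ) (m : Multiset RT) : lev (k + 1) (node m) = levm k m := by
  simp only [lev, levm, ch_node]

namespace LevSumAux

theorem levm_cons (k : ℕ) (y : RT) (m : Multiset RT) :
    levm k (y ::ₘ m) = lev k y + levm k m := by
  simp [levm]

theorem levm_add (k : ℕ) (m m' : Multiset RT) : levm k (m + m') = levm k m + levm k m' := by
  simp [levm]

theorem sum_of (m : Multiset RT) (T : Finset ℕ) (h : ∀ y ∈ m, ∑ k ∈ T, lev k y ≤ size y) :
    ∑ k ∈ T, levm k m ≤ sz m := by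
  induction m using Multiset.induction_on with
  | empty => simp [levm]
  | cons a m ih =>
    simp only [levm_cons, Finset.sum_add_distrib, sz_cons]
    exact Nat.add_le_add (h a (Multiset.mem_cons_self a m))
      (ih (fun y hy => h y (Multiset.mem_cons_of_mem hy)))

theorem lev_range (x : RT) : ∀ n, ∑ k ∈ Finset.range n, lev k x ≤ size x := by
  revert x
  apply RT.ind
  intro m ih n
  cases n with
  | zero => simp
  | succ n =>
    rw [Finset.sum_range_succ']
    simp only [lev_node]
    rw [size_node]
    have h1 := sum_of m (Finset.range n) (fun y hy => ih y hy n)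
    have h0 : lev 0 (node m) = 1 := by simp [lev]
    omega

theorem lev_fin (x : RT) (T : Finset ℕ) : ∑ k ∈ T, lev k x ≤ size x := by
  have hT : T ⊆ Finset.range (T.sup id + 1) := by
    intro a ha
    rw [Finset.mem_range]
    have := Finset.le_sup (f := id) ha
    simp only [id] at this
    exact Nat.lt_succ_of_le this
  exact (Finset.sum_le_sum_of_subset hT).trans (lev_range x _)

theorem bound (ν : ℕ → Multiset RT) (j : ℕ) : ∀ k m, levm k (Vm ν j m) ≤
    ∑ l ∈ (Finset.range j).filter (fun l => m ≤ l ∧ l ≤ m + k), lev (k + m - l) (node (ν l)) := by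
  intro k
  induction k with
  | zero =>
    intro m
    by_cases h : m < j
    · rw [Vm_of_lt ν h]
      have h1 : levm 0 {node (ν m + Vm ν j (m + 1))} = 1 := by simp [levm, lev]
      rw [h1]
      have hm : m ∈ (Finset.range j).filter (fun l => m ≤ l ∧ l ≤ m + 0) := by
        simp [h]
      calc 1 = lev (0 + m - m) (node (ν m)) := by simp [lev]
        _ ≤ _ := Finset.single_le_sum (f := fun l => lev (0 + m - l) (node (ν l)))
            (fun _ _ => Nat.zero_le _) hm
    · rw [Vm_of_le ν (by omega)]
      simp [levm]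
  | succ k ih =>
    intro m
    by_cases h : m < j
    · rw [Vm_of_lt ν h]
      have h1 : levm (k + 1) {node (ν m + Vm ν j (m + 1))} =
          levm k (ν m) + levm k (Vm ν j (m + 1)) := by
        rw [← levm_add]
        have h0 : levm (k + 1) {node (ν m + Vm ν j (m + 1))} =
            lev (k + 1) (node (ν m + Vm ν j (m + 1))) := by
          unfold levm
          rw [Multiset.map_singleton, Multiset.sum_singleton]
        rw [h0, lev_node]
      rw [h1]
      have h2 := ih (m + 1)
      have h3 : (Finset.range j).filter (fun l => m ≤ l ∧ l ≤ m + (k + 1)) =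
          insert m ((Finset.range j).filter (fun l => m + 1 ≤ l ∧ l ≤ m + 1 + k)) := by
        ext l
        simp only [Finset.mem_filter, Finset.mem_range, Finset.mem_insert]
        omega
      rw [h3, Finset.sum_insert (by simp)]
      have h4 : lev (k + 1 + m - m) (node (ν m)) = levm k (ν m) := by
        rw [Nat.add_sub_cancel, lev_node]
      rw [h4]
      apply Nat.add_le_add_left
      refine h2.trans (le_of_eq (Finset.sum_congr rfl (fun l _ => ?_)))
      have h5 : k + (m + 1) - l = k + 1 + m - l := by omega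
      rw [h5]
    · rw [Vm_of_le ν (by omega)]
      simp [levm]

end LevSumAux

theorem lev_sum_le (m : Multiset RT) (T : Finset ℕ) : ∑ k ∈ T, levm k m ≤ sz m :=
  LevSumAux.sum_of m T (fun y _ => LevSumAux.lev_fin y T)

theorem lev_sum (ν : ℕ → Multiset RT) (n k : ℕ) (S : Finset (ℕ × ℕ))
    (h1 : ∀ e ∈ S, ∀ f ∈ S, e.1 = f.1 → e = f) (h2 : ∀ e ∈ S, e.2 ≤ n) :
    ∑ e ∈ S, levm k (Vm ν e.2 e.1) ≤ Sz ν n := by
  calc ∑ e ∈ S, levm k (Vm ν e.2 e.1)
      ≤ ∑ e ∈ S, ∑ l ∈ (Finset.range n).filter (fun l => e.1 ≤ l ∧ l ≤ e.1 + k),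
          lev (k + e.1 - l) (node (ν l)) := by
        apply Finset.sum_le_sum
        intro e he
        refine (LevSumAux.bound ν e.2 k e.1).trans (Finset.sum_le_sum_of_subset ?_)
        intro l hl
        have h3 := h2 e he
        simp only [Finset.mem_filter, Finset.mem_range] at hl ⊢
        omega
    _ = ∑ e ∈ S, ∑ l ∈ Finset.range n, if e.1 ≤ l ∧ l ≤ e.1 + k then
          lev (k + e.1 - l) (node (ν l)) else 0 := by
        simp only [Finset.sum_filter]
    _ = ∑ l ∈ Finset.range n, ∑ e ∈ S, if e.1 ≤ l ∧ l ≤ e.1 + k then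
          lev (k + e.1 - l) (node (ν l)) else 0 := Finset.sum_comm
    _ ≤ ∑ l ∈ Finset.range n, (1 + sz (ν l)) := by
        apply Finset.sum_le_sum
        intro l _
        rw [← Finset.sum_filter]
        have hinj : Set.InjOn (fun e : ℕ × ℕ => k + e.1 - l)
            (S.filter (fun e => e.1 ≤ l ∧ l ≤ e.1 + k) : Finset (ℕ × ℕ)) := by
          intro e he f hf hef
          simp only [Finset.coe_filter, Set.mem_ofPred_eq] at he hf hef
          exact h1 e he.1 f hf.1 (by omega)
        have h4 := Finset.sum_image (f := fun r => lev r (node (ν l))) hinj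
        rw [← h4]
        refine (LevSumAux.lev_fin _ _).trans ?_
        rw [size_node]

end

end TRD
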