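import Pool.Agent.Lib.TRD.Unroll
import Pool.Agent.Lib.TRD.LevSum
import Pool.Agent.Lib.TRD.CwEq

/-! # TRD.Thin (MP_2e3d39_co)

Many type R pairs (D = E) make the left limbs at the centre thin, and they are different.

`tyR_symm`: all fields are symmetric for D = E.
`thin`: g = (D+1)/2, x ∈ Lm μ g, so Lm μ g = {x}. If card Q ≤ 1 trivial. Let e₀ = (i₀,j₀) ∈ Q with minimal first coordinate, d₀. For every other e = (i',j') ∈ Q, d': i₀ < i' (if i₀ = i' then j₀ = j' by sizes: Sz ν j = Sz μ i). `two_r` for e₀, e. Claim Vm ν j' (d'+1-g) = Lm μ g. We show Vm ν j' m = Lm μ (d'+1-m) for m = d'/2+1, d'/2, ..., d'+1-g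
 (downward; (d'+1)/2 ≤ g because d' < D; if (d'+1)/2 = g then d'+1-g = d'/2+1). m = d'/2+1: hV' of e. From m+1 to m (d'+1-g ≤ m ≤ d'/2): m < j', Vm ν j' m = {node (ν m + Vm ν j' (m+1))}, Lm μ (d'+1-m) = {node (μ (d'-m) + Lm μ (d'-m))}; ν m = μ (d'-m) by the letter relation of `two_r` at l = d' - m: d' < l + j₀ because m ≤ d'/2 < j₀ (d' < D),
 l < i₀ because l ≤ g - 1 < D/2+1 ≤ i₀. So levm k (Vm ν j' (d'+1-g)) = lev k x. The numbers d' are distinct for distinct e (`two_r`: d < d' for i < i'), so the positions d'+1-g are distinct (d'+1 ≥ g: d' + 1 ≥ i' ≥ D/2+1 ≥ g). `lev_sum` with n = D+1 and the set of pairs (d'+1-g, j'): (card Q - 1) * lev k x ≤ Sz ν (D+1).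
`limb_ne`: suppose Lm μ g = Lm ν g. For t from g down to d/2+1 (≤ g since d < D): Lm μ t = Lm ν t. Step t+1 → t with d/2+1 ≤ t < g: μ t + Lm μ t = ν t + Lm ν t; Lm μ t = {x}, ht x + 1 = t (`hb_Lm`). If x ∈ Lm ν t then both are {x}. If x ∈ ν t then hb (ν t) ≥ t and t < g ≤ D/2+1 ≤ j, so 2t ≤ t + hb (ν t) ≤ dm ν j = d, contradiction to t ≥ d/2+1.
 At t = d/2+1: if d is odd then (d+1)/2 = d/2+1, contradiction to hne. If d is even: {node (μ (d/2) + Lm μ (d/2))} = {node (ν (d/2) + Lm ν (d/2))} and hm give Lm μ (d/2) = Lm ν (d/2), (d+1)/2 = d/2: contradiction.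
-/

open Multiset

namespace TRD

noncomputable section

namespace ThinAux

theorem eq_single {m : Multiset RT} (hc : card m ≤ 1) {x : RT} (hx : x ∈ m) : m = {x} := by
  obtain ⟨t, rfl⟩ := Multiset.exists_cons_of_mem hx
  rw [card_cons] at hc
  have h : t = 0 := Multiset.card_eq_zero.1 (by omega)
  rw [h]
  rfl

theorem sec_eq {μ ν : ℕ → Multiset RT} {D i j j' d d' : ℕ}
    (h : TyR μ ν D D i j d) (h' : TyR μ ν D D i j' d') : j = j' := by
  have h1 : cw ν j = cw ν j' := h.hc.symm.trans h'.hc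
  have e1 := csize_cw ν (i := j) (by have := h.hj; omega)
  have e2 := csize_cw ν (i := j') (by have := h'.hj; omega)
  rw [h1, e2] at e1
  exact (Sz_inj ν e1).symm

theorem claim {μ ν : ℕ → Multiset RT} {D i₀ j₀ d₀ i' j' d' : ℕ} (hμ : GW μ D) (hν : GW ν D)
    (h : TyR μ ν D D i₀ j₀ d₀) (h' : TyR μ ν D D i' j' d') (hii : i₀ < i') :
    ∀ s m, m + s = d' / 2 + 1 → d' + 1 ≤ m + (D + 1) / 2 →
      Vm ν j' m = Lm μ (d' + 1 - m) := by
  obtain ⟨_, _, _, _, hl, _, _⟩ := two_r hμ hν h h' hii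
  have q1 := h.hi
  have q2 := h.hj
  have q3 := h'.hdE
  have q4 := h'.hj
  intro s
  induction s with
  | zero =>
    intro m hm _
    have hm' : m = d' / 2 + 1 := by omega
    subst hm'
    rw [h'.hV']
    congr 1
    omega
  | succ s ih =>
    intro m hm hg
    have i1 := ih (m + 1) (by omega) (by omega)
    have e1 : Lm μ (d' + 1 - m) = {node (μ (d' - m) + Lm μ (d' - m))} := by
      rw [Lm_single μ (by omega)]
      have : d' + 1 - m - 1 = d' - m := by omega
      rw [this]
    have e2 : d' + 1 - (m + 1) = d' - m := by omega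
    rw [e2] at i1
    have e3 := hl (d' - m) (by omega) (by omega)
    have e4 : d' - (d' - m) = m := by omega
    rw [e4] at e3
    rw [Vm_of_lt ν (by omega), e1, i1, e3]

end ThinAux

open ThinAux

theorem tyR_symm {μ ν : ℕ → Multiset RT} {D i j d : ℕ} (h : TyR μ ν D D i j d) :
    TyR ν μ D D j i d := by
  exact ⟨h.hj, h.hjE, h.hi, h.hiD, h.hd', h.hd, h.hdE, h.hc.symm, h.hV', h.hV,
    fun he => (h.hm he).symm, h.hne.symm, fun a b => (h.hdeg b a).symm⟩

theorem thin {μ ν : ℕ → Multiset RT} {D : ℕ} (hμ : GW μ D) (hν : GW ν D)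
    {Q : Finset (ℕ × ℕ)} (hQ : RQ μ ν D D Q) (k : ℕ) {x : RT} (hx : x ∈ Lm μ ((D + 1) / 2)) :
    (Q.card - 1) * lev k x ≤ Sz ν (D + 1) := by
  classical
  rcases Nat.lt_or_ge 1 Q.card with hQ1 | hQ1
  swap
  · have : Q.card - 1 = 0 := by omega
    rw [this, Nat.zero_mul]
    exact Nat.zero_le _
  have hne : Q.Nonempty := Finset.card_pos.1 (by omega)
  obtain ⟨e₀, he₀, hmin⟩ := Finset.exists_min_image Q (fun e => e.1) hne
  obtain ⟨d₀, h₀⟩ := hQ e₀ he₀
  have hx1 : Lm μ ((D + 1) / 2) = {x} := eq_single (card_Lm_le μ _) hx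
  have hd : ∀ e ∈ Q, TyR μ ν D D e.1 e.2 (dm μ e.1) := by
    intro e he
    obtain ⟨d, h⟩ := hQ e he
    have := h.hd
    subst this
    exact h
  have hge : ∀ e ∈ Q, (D + 1) / 2 ≤ dm μ e.1 + 1 := by
    intro e he
    have h1 := (hd e he).hi
    have h2 := le_dm_self μ (i := e.1) (by omega)
    omega
  have hinj : ∀ e ∈ Q, ∀ f ∈ Q, dm μ e.1 = dm μ f.1 → e = f := by
    intro e he f hf hdd
    rcases lt_trichotomy e.1 f.1 with h1 | h1 | h1
    · have := (two_r hμ hν (hd e he) (hd f hf) h1).2.1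
      omega
    · have h2 := hd e he
      have h3 := hd f hf
      rw [← h1] at h3
      exact Prod.ext h1 (sec_eq h2 h3)
    · have := (two_r hμ hν (hd f hf) (hd e he) h1).2.1
      omega
  have hval : ∀ e ∈ Q.erase e₀,
      levm k (Vm ν e.2 (dm μ e.1 + 1 - (D + 1) / 2)) = lev k x := by
    intro e he
    obtain ⟨he1, he2⟩ := Finset.mem_erase.1 he
    have h1 : e₀.1 < e.1 := by
      rcases lt_or_eq_of_le (hmin e he2) with h2 | h2
      · exact h2
      · exfalso
        apply he1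
        have h3 := hd e he2
        have h4 := hd e₀ he₀
        have h2' : e₀.1 = e.1 := h2
        rw [← h2'] at h3
        exact (Prod.ext h2' (sec_eq h4 h3)).symm
    have h5 := hge e he2
    have h6 := (hd e he2).hdE
    have h7 := claim hμ hν h₀ (hd e he2) h1
      (dm μ e.1 / 2 + 1 - (dm μ e.1 + 1 - (D + 1) / 2)) (dm μ e.1 + 1 - (D + 1) / 2)
      (by omega) (by omega)
    have h8 : dm μ e.1 + 1 - (dm μ e.1 + 1 - (D + 1) / 2) = (D + 1) / 2 := by omega
    rw [h7, h8, hx1]
    unfold levm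
    rw [Multiset.map_singleton, Multiset.sum_singleton]
  have hS := lev_sum ν (D + 1) k
    ((Q.erase e₀).image (fun e => (dm μ e.1 + 1 - (D + 1) / 2, e.2))) (by
      intro a ha b hb hab
      obtain ⟨e, he, rfl⟩ := Finset.mem_image.1 ha
      obtain ⟨f, hf, rfl⟩ := Finset.mem_image.1 hb
      have he2 := (Finset.mem_erase.1 he).2
      have hf2 := (Finset.mem_erase.1 hf).2
      have g1 := hge e he2
      have g2 := hge f hf2
      have hab' : dm μ e.1 + 1 - (D + 1) / 2 = dm μ f.1 + 1 - (D + 1) / 2 := hab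
      have hef := hinj e he2 f hf2 (by omega)
      rw [hef]) (by
      intro a ha
      obtain ⟨e, he, rfl⟩ := Finset.mem_image.1 ha
      have h1 := (hd e (Finset.mem_erase.1 he).2).hjE
      show e.2 ≤ D + 1
      omega)
  rw [Finset.sum_image] at hS
  · rw [Finset.sum_congr rfl hval, Finset.sum_const, Finset.card_erase_of_mem he₀,
      smul_eq_mul] at hS
    exact hS
  · intro e he f hf hef
    have he2 := (Finset.mem_erase.1 (Finset.mem_coe.1 he)).2
    have hf2 := (Finset.mem_erase.1 (Finset.mem_coe.1 hf)).2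
    have g1 := hge e he2
    have g2 := hge f hf2
    have h1 : dm μ e.1 + 1 - (D + 1) / 2 = dm μ f.1 + 1 - (D + 1) / 2 := congrArg Prod.fst hef
    exact hinj e he2 f hf2 (by omega)

theorem limb_ne {μ ν : ℕ → Multiset RT} {D i j d : ℕ} (hμ : GW μ D) (hν : GW ν D)
    (h : TyR μ ν D D i j d) : Lm μ ((D + 1) / 2) ≠ Lm ν ((D + 1) / 2) := by
  intro hg
  have q1 := h.hdE
  have q2 := h.hj
  have key : ∀ s t, t + s = (D + 1) / 2 → d / 2 + 1 ≤ t → Lm μ t = Lm ν t := by
    intro s
    induction s with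
    | zero =>
      intro t ht _
      have : t = (D + 1) / 2 := by omega
      rw [this]
      exact hg
    | succ s ih =>
      intro t ht hdt
      have i1 := ih (t + 1) (by omega) (by omega)
      have i2 : μ t + Lm μ t = ν t + Lm ν t := by
        have i3 : ({node (μ t + Lm μ t)} : Multiset RT) = {node (ν t + Lm ν t)} := i1
        exact node_inj (Multiset.singleton_inj.1 i3)
      have hb1 : hb (Lm μ t) = t := hb_Lm μ (fun m hm => (hμ m (by omega)).1)
      have e1 := Lm_single μ (h := t) (by omega)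
      have e2 := Lm_single ν (h := t) (by omega)
      rw [e1, hb_singleton] at hb1
      have hx : node (μ (t - 1) + Lm μ (t - 1)) ∈ ν t + Lm ν t := by
        rw [← i2, e1]
        exact Multiset.mem_add.2 (Or.inr (Multiset.mem_singleton_self _))
      rcases Multiset.mem_add.1 hx with hx | hx
      · exfalso
        have h1 := ht_lt_hb hx
        have h2 := le_dm ν (i := j) (m := t) (by omega)
        have h3 := h.hd'
        omega
      · rw [e1]
        exact (eq_single (card_Lm_le ν t) hx).symm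
  have hk := key ((D + 1) / 2 - (d / 2 + 1)) (d / 2 + 1) (by omega) le_rfl
  rcases Nat.mod_two_eq_zero_or_one d with he | ho
  · apply h.hne
    have e1 : (d + 1) / 2 = d / 2 := by omega
    rw [e1]
    have i3 : ({node (μ (d / 2) + Lm μ (d / 2))} : Multiset RT) =
      {node (ν (d / 2) + Lm ν (d / 2))} := hk
    have i4 := node_inj (Multiset.singleton_inj.1 i3)
    rw [h.hm he] at i4
    exact add_left_cancel i4
  · apply h.hne
    have e1 : (d + 1) / 2 = d / 2 + 1 := by omega
    rw [e1]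
    exact hk

end

end TRD
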