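import Pool.Agent.Lib.TRD.Basic

/-! # Pairs of path vertices (package TRD, MP_2e3d39_co): definitions -/

open Multiset

namespace TRD

noncomputable section

/-- pair of path vertices of type R -/
structure TyR (μ ν : ℕ → Multiset RT) (D E i j d : ℕ) : Prop where
  hi : E / 2 + 1 ≤ i
  hiD : i ≤ D
  hj : E / 2 + 1 ≤ j
  hjE : j ≤ E
  hd : dm μ i = d
  hd' : dm ν j = d
  hdE : d < E
  hc : cw μ i = cw ν j
  hV : Vm μ i (d / 2 + 1) = Lm ν ((d + 1) / 2)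
  hV' : Vm ν j (d / 2 + 1) = Lm μ ((d + 1) / 2)
  hm : d % 2 = 0 → μ (d / 2) = ν (d / 2)
  hne : Lm μ ((d + 1) / 2) ≠ Lm ν ((d + 1) / 2)
  hdeg : i < D → j < E → card (μ i) = card (ν j)

/-- a finite set of type R pairs -/
def RQ (μ ν : ℕ → Multiset RT) (D E : ℕ) (Q : Finset (ℕ × ℕ)) : Prop :=
  ∀ e ∈ Q, ∃ d, TyR μ ν D E e.1 e.2 d

/-- a set of bad matched pairs of path vertices to the right of the centres -/
structure PP (μ ν : ℕ → Multiset RT) (D E : ℕ) (Q : Finset (ℕ × ℕ)) : Prop where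
  hI : ∀ e ∈ Q, e.1 ∈ Ix D ∧ e.2 ∈ Ix E
  h1 : ∀ e ∈ Q, ∀ f ∈ Q, e.1 = f.1 → e = f
  h2 : ∀ e ∈ Q, ∀ f ∈ Q, e.2 = f.2 → e = f
  hc : ∀ e ∈ Q, cw μ e.1 ::ₘ (μ e.1 + Vm μ (D + 1) (e.1 + 1)).map cls =
    cw ν e.2 ::ₘ (ν e.2 + Vm ν (E + 1) (e.2 + 1)).map cls
  hbad : ∀ e ∈ Q, rt μ e.1 E ≠ rt ν e.2 E

/-- number of vertices at depth `k` of a forest -/
def levm (k : ℕ) (m : Multiset RT) : ℕ := (m.map (lev k)).sum

end

end TRD
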