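import Pool.Agent.Lib.TRD.HtRt
import Pool.Agent.Lib.TRD.MatchA
import Pool.Agent.Lib.TRD.MatchB
import Pool.Agent.Lib.TRD.PDefs
import Pool.Agent.Lib.TRD.ChainB
import Pool.Agent.Lib.TRD.WordB

/-! # TRD.UnHalf (MP_2e3d39_co)

Different diameters E < D, one orientation of T: path vertices i ∈ Ix D of the word μ matched with entries of the centre form z' = rt ν (E+1) E of S.

For a pair (i, e') ∈ M: `cardc_rt` (D/2+1 ≤ i): cardc D (pe μ D i) = cw μ i ::ₘ (μ i + Vm μ (D+1) (i+1)).map cls, so cw μ i ∈ cardc E e'. `dl_word` for ν, E: dl z' = R' + L' + B'. In all cases e'.1 = rt ν' j E with GW ν' E, E/2+1 ≤ j ≤ E+1, so cardc E e' = cw ν' j ::ₘ e'.2.map cls; all elements of it have (cc ..).2 ≤ E (`cc_word`, `dm_GW`; `cc_le` and `kid_small`).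
 So dm μ i = (cc (cw μ i)).2 ≤ E, i ≤ E + 1 (`le_dm_self`). The first coordinates of M are distinct elements of Ix D (`mt_finset_left`), all in [D/2+1, E+1]: card M + D/2 ≤ E + 1 or M = 0.
Good pairs (rt μ i E = e'.1): `chain_bound` with n = D+1, h = E/2+1, s₀ = Lm μ ((E+1)/2) + (if E % 2 = 0 then μ (E/2) else 0), y = z' (rt μ i E = node (s₀ + Vm μ i h) by definition). hne: rt μ (D+1) E ≠ z' by heights: ht (rt μ (D+1) E) ≥ hb (Vm μ (D+1) (E/2+1)) ≥ D - E/2 (`hb_Vm_ge` with m = D) > (E+1)/2 = ht z' (`ht_rt`).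
 Kids: cardc E e' = cw μ i ::ₘ e'.2.map cls by `cardc_rt` for E (E/2+1 ≤ D/2+1 ≤ i), so e'.2.map cls = (μ i + Vm μ (D+1) (i+1)).map cls. So at most 4 good pairs.
Other pairs: split M by `mt_split_right` into R', L', B'. R' part: lift through pe ν E, `mt_finset`: Q with PP μ ν D E Q (hc by `cardc_rt`, hbad: rt μ i E ≠ rt ν j E). L' part: Q' with PP μ (rv ν E) D E Q'. B' part: e'.1 = rt ν' (E+1) E: if cw μ i = cw ν' (E+1) then `cw_dest` gives rt μ i E = e'.1, good. So cw μ i = cls y with y ∈ e'.2.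
 size y = Sz μ i ≥ i ≥ D/2+1, Sz μ i ≤ sz e'.2 = size z' - 1 - size e'.1 (`dl_size`), size z' = Sz ν (E+1) + E % 2 and size e'.1 = Sz ν' (E+1) + E % 2 ≥ E + 1 + E % 2 (size of rt: sz_Lm, sz_Vm): so Sz μ i + E + 2 ≤ Sz ν (E+1). The numbers Sz μ i are distinct elements of [D/2+1, p - E - 2]: W := number of these pairs, W = 0 or W + D/2 + E + 2 ≤ p.
-/

open Multiset

namespace TRD

noncomputable section

theorem size_rt (μ : ℕ → Multiset RT) (E : ℕ) : size (rt μ (E + 1) E) = Sz μ (E + 1) + E % 2 := by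
  unfold rt
  rw [size_node, sz_add, sz_add, sz_Lm]
  have h1 := sz_Vm μ (i := E + 1) (h := E / 2 + 1) (by omega)
  have h2 := Sz_succ μ (E / 2)
  by_cases hE : E % 2 = 0
  · rw [if_pos hE]
    have e1 : (E + 1) / 2 = E / 2 := by omega
    rw [e1]
    omega
  · rw [if_neg hE, sz_zero]
    have e1 : (E + 1) / 2 = E / 2 + 1 := by omega
    rw [e1]
    omega

namespace UnHalfAux

theorem form {ν : ℕ → Multiset RT} {D : ℕ} (hν : GW ν D) (hD : 1 ≤ D) {e : RT × Multiset RT}
    (he : e ∈ dl (rt ν (D + 1) D)) : ∃ ν' : ℕ → Multiset RT, GW ν' D ∧ ∃ j, D / 2 + 1 ≤ j ∧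
      j ≤ D + 1 ∧ e.1 = rt ν' j D := by
  obtain ⟨B, hB, hBf⟩ := dl_word hν hD
  rw [hB, Multiset.mem_add, Multiset.mem_add] at he
  rcases he with (he | he) | he
  · obtain ⟨j, hj, rfl⟩ := Multiset.mem_map.1 he
    have hj' : j ∈ Finset.Icc (D / 2 + 1) D := hj
    rw [Finset.mem_Icc] at hj'
    exact ⟨ν, hν, j, hj'.1, by omega, rfl⟩
  · obtain ⟨j, hj, rfl⟩ := Multiset.mem_map.1 he
    have hj' : j ∈ Finset.Icc (D / 2 + 1) D := hj
    rw [Finset.mem_Icc] at hj'
    exact ⟨rv ν D, GW_rv hν, j, hj'.1, by omega, rfl⟩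
  · obtain ⟨ν', h1, h2⟩ := hBf e he
    exact ⟨ν', h1, D + 1, by omega, le_refl _, h2⟩

theorem part {μ ν : ℕ → Multiset RT} {D E : ℕ}
    {r : ℕ → RT × Multiset RT → Prop}
    (hr : ∀ i e', r i e' → cardc D (pe μ D i) = cardc E e' ∧ rt μ i E ≠ e'.1)
    {N : Multiset (ℕ × (RT × Multiset RT))}
    (hN : Mt N (Ix D).val ((Ix E).val.map (pe ν E)) r) :
    ∃ Q : Finset (ℕ × ℕ), PP μ ν D E Q ∧ Q.card = card N := by
  have hN0 : Mt N ((Ix D).val.map id) ((Ix E).val.map (pe ν E)) r := by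
    rw [Multiset.map_id]
    exact hN
  obtain ⟨N', h1, h2⟩ := mt_lift hN0
  obtain ⟨Q, q1, q2, q3, q4⟩ := mt_finset h1
  refine ⟨Q, ⟨fun e he => ⟨(q2 e he).1, (q2 e he).2.1⟩, q3, q4, ?_, ?_⟩, ?_⟩
  · intro e he
    have h3 := (hr _ _ (q2 e he).2.2).1
    have hi : e.1 ∈ Finset.Icc (D / 2 + 1) D := (q2 e he).1
    have hj : e.2 ∈ Finset.Icc (E / 2 + 1) E := (q2 e he).2.1
    rw [Finset.mem_Icc] at hi hj
    have h4 := cardc_rt μ (D := D) (i := e.1) hi.1 (μ e.1 + Vm μ (D + 1) (e.1 + 1))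
    have h5 := cardc_rt ν (D := E) (i := e.2) hj.1 (ν e.2 + Vm ν (E + 1) (e.2 + 1))
    rw [← h4, ← h5]
    exact h3
  · intro e he
    exact (hr _ _ (q2 e he).2.2).2
  · have h3 : Q.card = card N' := by
      rw [← q1]
      rfl
    rw [h3, ← h2, Multiset.card_map]

end UnHalfAux

open UnHalfAux

theorem un_half {μ ν : ℕ → Multiset RT} {D E p : ℕ} (hμ : GW μ D) (hν : GW ν E) (hE : E < D)
    (hE1 : 1 ≤ E) (hp : Sz ν (E + 1) = p) {M : Multiset (ℕ × (RT × Multiset RT))}
    (hM : Mt M (Ix D).val (dl (rt ν (E + 1) E)) (fun i e' => cardc D (pe μ D i) = cardc E e')) :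
    (card M = 0 ∨ card M + D / 2 ≤ E + 1) ∧
    ∃ (Q Q' : Finset (ℕ × ℕ)) (W : ℕ), PP μ ν D E Q ∧ PP μ (rv ν E) D E Q' ∧
      (W = 0 ∨ W + D / 2 + E + 2 ≤ p) ∧ card M ≤ 4 + W + Q.card + Q'.card := by
  classical
  have key : ∀ i ∈ Ix D, ∀ e' ∈ dl (rt ν (E + 1) E), cardc D (pe μ D i) = cardc E e' →
      D / 2 + 1 ≤ i ∧ i ≤ D ∧ i ≤ E + 1 ∧
      cw μ i ::ₘ (μ i + Vm μ (D + 1) (i + 1)).map cls = cardc E e' := by
    intro i hi e' he' hc
    have hi' : i ∈ Finset.Icc (D / 2 + 1) D := hi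
    rw [Finset.mem_Icc] at hi'
    have h4 := cardc_rt μ (D := D) (i := i) hi'.1 (μ i + Vm μ (D + 1) (i + 1))
    have h5 : cw μ i ::ₘ (μ i + Vm μ (D + 1) (i + 1)).map cls = cardc E e' := by
      rw [← h4]
      exact hc
    refine ⟨hi'.1, hi'.2, ?_, h5⟩
    have hbμ : ∀ m < i, hb (μ m) ≤ m := fun m hm => (hμ m (by omega)).1
    have h6 := cc_word μ (i := i) (by omega) hbμ
    have h7 := le_dm_self μ (i := i) (by omega)
    have h8 : (cc (cw μ i)).2 = dm μ i := by rw [h6]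
    obtain ⟨ν', hν', j, hj, hj2, hje⟩ := form hν hE1 he'
    have hm : cw μ i ∈ cw ν' j ::ₘ e'.2.map cls := by
      rw [← cardc_rt ν' hj e'.2, ← hje, show (e'.1, e'.2) = e' from rfl, ← h5]
      exact Multiset.mem_cons_self _ _
    rcases Multiset.mem_cons.1 hm with h9 | h9
    · have h10 := cc_word ν' (i := j) (by omega) (fun m hm => (hν' m (by omega)).1)
      have h11 : (cc (cw μ i)).2 = dm ν' j := by rw [h9, h10]
      have h12 := dm_GW hν' (i := j) hj2
      omega
    · obtain ⟨y, hy, hy2⟩ := Multiset.mem_map.1 h9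
      have h10 := cc_le y
      have h11 := kid_small hν hE1 he' y hy
      rw [hy2] at h10
      omega
  have memM : ∀ e ∈ M, e.1 ∈ Ix D ∧ e.2 ∈ dl (rt ν (E + 1) E) := fun e he =>
    ⟨Multiset.mem_of_le hM.1 (Multiset.mem_map_of_mem _ he),
      Multiset.mem_of_le hM.2.1 (Multiset.mem_map_of_mem _ he)⟩
  constructor
  · obtain ⟨Q, q1, q2, q3⟩ := mt_finset_left hM
    have hsub : Q ⊆ Finset.Icc (D / 2 + 1) (E + 1) := by
      intro i hi
      obtain ⟨b, hb1, _, hb3⟩ := q3 i hi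
      have h1 := key i (q1 hi) b hb1 hb3
      rw [Finset.mem_Icc]
      exact ⟨h1.1, h1.2.2.1⟩
    have h2 := Finset.card_le_card hsub
    rw [Nat.card_Icc] at h2
    omega
  · have cN := congrArg card (Multiset.filter_add_not
      (fun e : ℕ × (RT × Multiset RT) => rt μ e.1 E = e.2.1) M)
    rw [Multiset.card_add] at cN
    -- good pairs
    have hgood : card (M.filter (fun e => rt μ e.1 E = e.2.1)) ≤ 4 := by
      have hG : Mt (M.filter (fun e => rt μ e.1 E = e.2.1)) (Ix D).val (dl (rt ν (E + 1) E))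
          (fun i e' => cardc D (pe μ D i) = cardc E e' ∧ rt μ i E = e'.1) := by
        refine ⟨(mt_sub hM (Multiset.filter_le _ _)).1,
          (mt_sub hM (Multiset.filter_le _ _)).2.1, ?_⟩
        intro e he
        rw [Multiset.mem_filter] at he
        exact ⟨hM.2.2 e he.1, he.2⟩
      obtain ⟨Q, q1, q2, q3⟩ := mt_finset_left hG
      rw [← q2]
      refine chain_bound (μ := μ) (n := D + 1) (h := E / 2 + 1)
        (s₀ := Lm μ ((E + 1) / 2) + (if E % 2 = 0 then μ (E / 2) else 0))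
        (y := rt ν (E + 1) E) ?_ Q ?_
      · intro h1
        have h2 := congrArg ht h1
        rw [ht_rt hν hE1, ht_node, hb_add] at h2
        have h3 := hb_Vm_ge μ (i := D + 1) (h := E / 2 + 1) (m := D) (by omega) (by omega)
        have h4 := le_max_right (hb (Lm μ ((E + 1) / 2) + if E % 2 = 0 then μ (E / 2) else 0))
          (hb (Vm μ (D + 1) (E / 2 + 1)))
        omega
      · intro i hi
        obtain ⟨b, hb1, _, hb3, hb4⟩ := q3 i hi
        have h1 := key i (q1 hi) b hb1 hb3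
        refine ⟨by omega, by omega, b, hb1, hb4.symm, ?_⟩
        have h2 := h1.2.2.2
        have h3 : cardc E b = cw μ i ::ₘ b.2.map cls := by
          rw [show b = (rt μ i E, b.2) from Prod.ext hb4.symm rfl]
          exact cardc_rt μ (by omega) b.2
        rw [h3] at h2
        exact ((Multiset.cons_inj_right _).1 h2).symm
    -- bad pairs
    set r : ℕ → RT × Multiset RT → Prop := fun i e' =>
      (cardc D (pe μ D i) = cardc E e' ∧ rt μ i E ≠ e'.1) ∧ e' ∈ dl (rt ν (E + 1) E) with hrdef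
    have hr : ∀ i e', r i e' → cardc D (pe μ D i) = cardc E e' ∧ rt μ i E ≠ e'.1 :=
      fun i e' h => h.1
    have hBad : Mt (M.filter (fun e => ¬ rt μ e.1 E = e.2.1)) (Ix D).val
        (dl (rt ν (E + 1) E)) r := by
      refine ⟨(mt_sub hM (Multiset.filter_le _ _)).1,
        (mt_sub hM (Multiset.filter_le _ _)).2.1, ?_⟩
      intro e he
      rw [Multiset.mem_filter] at he
      exact ⟨⟨hM.2.2 e he.1, he.2⟩, (memM e he.1).2⟩
    obtain ⟨B, hB, hBf⟩ := dl_word hν hE1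
    rw [hB] at hBad
    obtain ⟨N1, N2, e12, h1, h2⟩ := mt_split_right hBad
    obtain ⟨N3, N4, e34, h3, h4⟩ := mt_split_right h1
    obtain ⟨Q₁, p1, k1⟩ := part hr h3
    obtain ⟨Q₂, p2, k2⟩ := part hr h4
    refine ⟨Q₁, Q₂, card N2, p1, p2, ?_, ?_⟩
    · obtain ⟨Q, q1, q2, q3⟩ := mt_finset_left h2
      have hsz : ∀ i ∈ Q, D / 2 + 1 ≤ Sz μ i ∧ Sz μ i + E + 2 ≤ p := by
        intro i hi
        obtain ⟨b, hb1, _, ⟨hb3, hb4⟩, hb5⟩ := q3 i hi
        obtain ⟨f1, f2, f3, f4⟩ := key i (q1 hi) b hb5 hb3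
        have f5 := le_Sz μ i
        refine ⟨by omega, ?_⟩
        obtain ⟨ν', hν', hνe⟩ := hBf b hb1
        have hm : cw μ i ∈ cw ν' (E + 1) ::ₘ b.2.map cls := by
          rw [← cardc_rt ν' (D := E) (i := E + 1) (by omega) b.2, ← hνe,
            show (b.1, b.2) = b from rfl, ← f4]
          exact Multiset.mem_cons_self _ _
        rcases Multiset.mem_cons.1 hm with h9 | h9
        · exfalso
          have h10 := cw_dest (μ := μ) (ν := ν') (i := i) (j := E + 1) (by omega) (by omega)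
            (fun m hm => (hμ m (by omega)).1) (fun m hm => (hν' m (by omega)).1) h9
          rw [dm_full hν'] at h10
          obtain ⟨h11, h12⟩ := h10
          rw [← h11] at h12
          exact hb4 (h12.trans hνe.symm)
        · obtain ⟨y, hy, hy2⟩ := Multiset.mem_map.1 h9
          have g1 : size y = Sz μ i := by
            rw [← csize_cls, hy2, csize_cw μ (by omega)]
          have g2 := size_le_sz hy
          have g3 := dl_size hb5
          rw [size_rt, hνe, size_rt] at g3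
          have g4 := le_Sz ν' (E + 1)
          omega
      have himg : Q.image (Sz μ) ⊆ Finset.Icc (D / 2 + 1) (p - E - 2) := by
        intro x hx
        obtain ⟨i, hi, rfl⟩ := Finset.mem_image.1 hx
        have := hsz i hi
        rw [Finset.mem_Icc]
        omega
      have hcard := Finset.card_le_card himg
      rw [Finset.card_image_of_injective _ (fun a b h => Sz_inj μ h), Nat.card_Icc, q2] at hcard
      rcases Nat.eq_zero_or_pos (card N2) with h0 | h0
      · exact Or.inl h0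
      · right
        omega
    · have c1 := congrArg card e12
      have c2 := congrArg card e34
      rw [Multiset.card_add] at c1 c2
      omega

end

end TRD
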