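import Pool.Agent.Lib.TRD.LabelCount
import Pool.Agent.Lib.TRD.RestCount
import Pool.Agent.Lib.TRD.Thin
import Pool.Agent.Lib.TRD.HtRt
import Pool.Agent.Lib.TRD.UnHalf

/-! # TRD.Reg2 (MP_2e3d39_co)

Many type R pairs (D = E): few good pairs outside the middle.

g = (D+1)/2, Lm μ g = {La}, Vm μ (D+1) (D/2+1) = {ρ}, B = Bm μ D; Lm ν g = {La'}, Vm ν (D+1) (D/2+1) = {ρ'}, B' = Bm ν D. rt μ (D+1) D = node (La ::ₘ ρ ::ₘ B) (rearrange), same for ν.
Q is nonempty (p ≥ 10^6, p ≤ 81 card Q); take a TyR pair (i,j,d) in Q. Heights: ht La + 1 = g (`hb_Lm`), ht ρ + 1 = D + 1 - (D/2+1) = g: `hb_Vm_le` with `dm_full` (≤) and `hb_Vm_ge` with m = D (≥). hb B < g: D even: D/2 < i so D/2 + hb (μ (D/2)) ≤ dm μ i = d < D (`le_dm`), g = D/2; D odd: B = 0, g ≥ 1. Same for B' with j.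
La ≠ La': `limb_ne`. Sizes: sz = size - 1, `size_rt`, Sz μ (D+1) = Sz ν (D+1) = p.
Thin: C = 82: `thin`: (card Q - 1) * lev k La ≤ p; if lev k La ≥ 83 then 83 (card Q - 1) ≤ p ≤ 81 card Q, so 2 card Q ≤ 83, contradiction to 81 card Q ≥ p ≥ 10^6. For La': `thin` for (ν, μ) and the swapped set (Q.image Prod.swap; `tyR_symm`; the card is the same as swap is injective).
`gm_lift` to a labelled matching M'. Split by label (filter): M₁: left label La: `label_count` (count La m ≤ 2 since La ∉ B by height); M₂: left label ≠ La, right label La': `label_count'`; M₃: the rest: `rest_count`. m ≠ m' by hne.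
 card M ≤ 2 * (2 * 83 * (82 L + 10)) + card M₃, 3 card M₃ ≤ 2 sz B + 38 + 6·83, L = Nat.log 2 p (size La ≤ p: Sz μ g ≤ p; `Nat.log_mono_right`): 3 card M ≤ 2 sz B + 996 (82 L + 10) + 536 ≤ 2 sz B + 90000 (L + 1).
-/

open Multiset

namespace TRD

noncomputable section

/-- the bushes at the centre (nothing if the centre is an edge) -/
def Bm (μ : ℕ → Multiset RT) (D : ℕ) : Multiset RT := if D % 2 = 0 then μ (D / 2) else 0

namespace Reg2Aux

/-- shape of a centre form -/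
theorem shape {μ : ℕ → Multiset RT} {D : ℕ} (hμ : GW μ D) (hD : 1 ≤ D) {i : ℕ}
    (hi : D / 2 + 1 ≤ i) (hd : dm μ i < D) :
    ∃ La ρ : RT, Lm μ ((D + 1) / 2) = {La} ∧ rt μ (D + 1) D = node (La ::ₘ ρ ::ₘ Bm μ D) ∧
      ht La + 1 = (D + 1) / 2 ∧ ht ρ + 1 = (D + 1) / 2 ∧ hb (Bm μ D) < (D + 1) / 2 ∧
      size La ≤ Sz μ (D + 1) := by
  have hLm := Lm_single μ (h := (D + 1) / 2) (by omega)
  have hVm := Vm_of_lt μ (i := D + 1) (h := D / 2 + 1) (by omega)
  set La := node (μ ((D + 1) / 2 - 1) + Lm μ ((D + 1) / 2 - 1)) with hLa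
  set ρ := node (μ (D / 2 + 1) + Vm μ (D + 1) (D / 2 + 1 + 1)) with hρ
  refine ⟨La, ρ, hLm, ?_, ?_, ?_, ?_, ?_⟩
  · unfold rt Bm
    rw [hLm, hVm]
    congr 1
    rw [← Multiset.singleton_add La, ← Multiset.singleton_add ρ]
    abel
  · have h1 := hb_Lm μ (h := (D + 1) / 2) (fun m hm => (hμ m (by omega)).1)
    rw [hLm, hb_singleton] at h1
    exact h1
  · have h1 := hb_Vm_le μ (i := D + 1) (h := D / 2 + 1) (by omega) (by omega)
    have h2 := hb_Vm_ge μ (i := D + 1) (h := D / 2 + 1) (m := D) (by omega) (by omega)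
    rw [dm_full hμ] at h1
    rw [hVm, hb_singleton] at h1 h2
    omega
  · unfold Bm
    split_ifs with h
    · have h1 := le_dm μ (i := i) (m := D / 2) (by omega)
      omega
    · rw [hb_zero]; omega
  · have h1 := sz_Lm μ ((D + 1) / 2)
    rw [hLm, sz_singleton] at h1
    have h2 := Sz_mono μ (i := (D + 1) / 2) (j := D + 1) (by omega)
    omega

theorem thin82 {μ ν : ℕ → Multiset RT} {D p : ℕ} (hμ : GW μ D) (hν : GW ν D)
    (hp' : Sz ν (D + 1) = p) {Q : Finset (ℕ × ℕ)} (hQ : RQ μ ν D D Q)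
    (hbig : p ≤ 81 * Q.card) (hp6 : 10 ^ 6 ≤ p) {La : RT} (hLa : Lm μ ((D + 1) / 2) = {La})
    (k : ℕ) : lev k La ≤ 82 := by
  by_contra hcon
  push Not at hcon
  have h1 := thin hμ hν hQ k (x := La) (by rw [hLa]; exact Multiset.mem_singleton_self La)
  rw [hp'] at h1
  have h2 : (Q.card - 1) * 83 ≤ (Q.card - 1) * lev k La := Nat.mul_le_mul_left _ hcon
  omega

theorem count_two {La ρ : RT} {B : Multiset RT} {g : ℕ} (h1 : ht La + 1 = g) (hB : hb B < g) :
    count La (La ::ₘ ρ ::ₘ B) ≤ 2 := by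
  have hn : La ∉ B := by
    intro h
    have := ht_lt_hb h
    omega
  rw [Multiset.count_cons_self, Multiset.count_cons, Multiset.count_eq_zero_of_notMem hn]
  split_ifs <;> omega

theorem rq_swap {μ ν : ℕ → Multiset RT} {D : ℕ} {Q : Finset (ℕ × ℕ)} (hQ : RQ μ ν D D Q) :
    RQ ν μ D D (Q.image Prod.swap) := by
  intro e he
  obtain ⟨f, hf, rfl⟩ := Finset.mem_image.mp he
  obtain ⟨d, hd⟩ := hQ f hf
  exact ⟨d, tyR_symm hd⟩

end Reg2Aux

theorem reg2 {μ ν : ℕ → Multiset RT} {D p : ℕ} (hμ : GW μ D) (hν : GW ν D) (hD : 1 ≤ D)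
    (hp : Sz μ (D + 1) = p) (hp' : Sz ν (D + 1) = p)
    (hne : rt μ (D + 1) D ≠ rt ν (D + 1) D) {Q : Finset (ℕ × ℕ)} (hQ : RQ μ ν D D Q)
    (hbig : p ≤ 81 * Q.card) (hp6 : 10 ^ 6 ≤ p)
    {M : Multiset ((RT × Multiset RT) × (RT × Multiset RT))}
    (hM : GM M (rt μ (D + 1) D) (rt ν (D + 1) D)) :
    3 * card M ≤ 2 * sz (Bm μ D) + 90000 * (Nat.log 2 p + 1) := by
  classical
  have hQ1 : 0 < Q.card := by
    by_contra h
    have : Q.card = 0 := by omega
    rw [this] at hbig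
    omega
  obtain ⟨e, he⟩ := Finset.card_pos.mp hQ1
  obtain ⟨d, hT⟩ := hQ e he
  have hT' := tyR_symm hT
  obtain ⟨La, ρ, a1, a2, a3, a4, a5, a6⟩ := Reg2Aux.shape hμ hD hT.hi
    (by rw [hT.hd]; exact hT.hdE)
  obtain ⟨La', ρ', b1, b2, b3, b4, b5, b6⟩ := Reg2Aux.shape hν hD hT.hj
    (by rw [hT.hd']; exact hT.hdE)
  have hLL : La ≠ La' := by
    intro h
    apply limb_ne hμ hν hT
    rw [a1, b1, h]
  have hs1 := size_rt μ D
  have hs2 := size_rt ν D
  rw [hp] at hs1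
  rw [hp'] at hs2
  rw [a2, size_node] at hs1
  rw [b2, size_node] at hs2
  have hsz : sz (La ::ₘ ρ ::ₘ Bm μ D) = sz (La' ::ₘ ρ' ::ₘ Bm ν D) := by omega
  have hm : La ::ₘ ρ ::ₘ Bm μ D ≠ La' ::ₘ ρ' ::ₘ Bm ν D := by
    intro h
    apply hne
    rw [a2, b2, h]
  have hC : ∀ k, lev k La ≤ 82 := Reg2Aux.thin82 hμ hν hp' hQ hbig hp6 a1
  have hC' : ∀ k, lev k La' ≤ 82 := Reg2Aux.thin82 hν hμ hp (Reg2Aux.rq_swap hQ)
    (by rw [Finset.card_image_of_injective _ Prod.swap_injective]; exact hbig) hp6 b1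
  rw [a2, b2] at hM
  obtain ⟨M', hM', hc⟩ := gm_lift hM
  rw [← hc]
  have e1 := congrArg card (Multiset.filter_add_not (fun e : (RT × Multiset RT × Multiset RT) ×
    (RT × Multiset RT × Multiset RT) => e.1.1 = La) M')
  have e2 := congrArg card (Multiset.filter_add_not (fun e : (RT × Multiset RT × Multiset RT) ×
    (RT × Multiset RT × Multiset RT) => e.2.1 = La') (M'.filter (fun e => ¬ e.1.1 = La)))
  rw [Multiset.card_add] at e1 e2
  clear hQ
  set M₁ := M'.filter (fun e => e.1.1 = La) with hM1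
  set R := M'.filter (fun e => ¬ e.1.1 = La) with hR
  set M₂ := R.filter (fun e => e.2.1 = La') with hM2
  set M₃ := R.filter (fun e => ¬ e.2.1 = La') with hM3
  have hRle : R ≤ M' := Multiset.filter_le _ _
  have c1 : card M₁ ≤ 2 * (82 + 1) * (82 * Nat.log 2 (size La) + 10) := label_count hm hsz hC (Reg2Aux.count_two a3 a5)
    (mt_sub hM' (Multiset.filter_le _ _ : M₁ ≤ M')) (fun e he => (Multiset.mem_filter.mp he).2)
  have c2 : card M₂ ≤ 2 * (82 + 1) * (82 * Nat.log 2 (size La') + 10) := label_count' hm hsz hC' (Reg2Aux.count_two b3 b5)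
    (mt_sub hM' ((Multiset.filter_le _ _ : M₂ ≤ R).trans hRle))
    (fun e he => (Multiset.mem_filter.mp he).2)
  have c3 : 3 * card M₃ ≤ 2 * sz (Bm μ D) + 38 + 6 * (82 + 1) := rest_count a3 a4 b3 b4 a5 b5 hLL hsz hC hC' hm
    (mt_sub hM' ((Multiset.filter_le _ _ : M₃ ≤ R).trans hRle)) (by
      intro e he
      have h1 := Multiset.mem_filter.mp he
      have h2 := Multiset.mem_filter.mp h1.1
      exact ⟨h2.2, h1.2⟩)
  have l1 : Nat.log 2 (size La) ≤ Nat.log 2 p := Nat.log_mono_right (by omega)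
  have l2 : Nat.log 2 (size La') ≤ Nat.log 2 p := Nat.log_mono_right (by omega)
  generalize Nat.log 2 (size La) = L1 at *
  generalize Nat.log 2 (size La') = L2 at *
  generalize Nat.log 2 p = L at *
  omega

end

end TRD
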