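import Pool.Agent.Lib.TRD.EqSplit
import Pool.Agent.Lib.TRD.PathPairs
import Pool.Agent.Lib.TRD.RCount
import Pool.Agent.Lib.TRD.Reg2
import Pool.Agent.Lib.TRD.RootedMain
import Pool.Agent.Lib.TRD.FatTree
import Pool.Agent.Lib.TRD.FatFinal
import Pool.Agent.Lib.TRD.DeckFlip

/-! # TRD.EqFinal (MP_2e3d39_co)

Equal diameters: at most 2 floor((p-5)/3) common cards.

p = size x = size y = Sz μ (D+1) = Sz ν (D+1) (`csize_cw`, csize_cls), p ≥ 10^10. Suppose N = card M₀ ≥ 2((p-5)/3)+1, so 3N ≥ 2p - 11. `eq_split`: M, Q₁..Q₄. z = rt μ (D+1) D, z' = rt ν (D+1) D, z ≠ z' (`rt_cls`: otherwise cls x = cls y), size z = size z' = p + D % 2 (`size_rt`).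
(I) Suppose 5 card M > 3 size z + 60. `rooted_fat`: Fat g e z z' or Fat g e z' z, card M ≤ 2g, size z = 3g+2+e. 5·2g > 3p + 60 so g > 0.3 p + 6, e = size z - 3g - 2 < p + 1 - 0.9p - 20 < 0.1 p < g - 10. `fat_tree` (for (μ,ν) or (ν,μ)): X* = node (P₁ ::ₘ P₁ ::ₘ P₂ ::ₘ s), Y* = node (P₁ ::ₘ Q₁ ::ₘ Q₂ ::ₘ s) with cls x = cls X*, cls y = cls Y* (or exchanged), sz s ≤ e. `deck_cls`: deck x = deck X*, deck y = deck Y*.
    `fat_final` (in the exchanged case for the swapped matching, `mt_swap`): N ≤ 2(g-1). Size: p = size X* = 3g+2+sz s, so g-1 ≤ (p-5)/3: N ≤ 2((p-5)/3).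
(II) 5 card M ≤ 3 size z + 60 ≤ 3p + 63. s = Nat.sqrt (2p): s*s ≤ 2p, so 1000 s ≤ p (10^6·2p ≤ p²) — even 10^4 s ≤ p/7.. as p ≥ 10^10: (10^4 s)² ≤ 10^8·2p ≤ p²/50.
  If D < 20: each Q_k has at most card (Ix D) ≤ 11 elements (first coordinates distinct, in Ix D): N ≤ 2 + 0.6p + 13 + 44, contradiction. Let D ≥ 20 (so 10 ≤ D). `path_pairs` for the four pairs of words (GW_rv, Sz_rv): Q_k.card ≤ R_k.card + 5s + 1, RQ R_k. `r_count` (first coordinates in Ix D): 7 R_k.card ≤ 2 r + 14 for k = 1,2, with r = p - Sz μ (D/2+1), 7 R_k.card ≤ 2 l + 14 for k = 3,4, l = p - Sz (rv μ D) (D/2+1).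
  r + l + sz (Bm μ D) ≤ p: Sz (rv μ D) (D/2+1) = p - Sz μ (D - D/2) (`Vm_eq_Lm_rv`, sz_Vm, sz_Lm), so l = Sz μ (D - D/2); D even: Sz μ (D/2+1) = Sz μ (D/2) + 1 + sz (μ (D/2)), r + l + 1 + sz (μ (D/2)) = p; D odd: D - D/2 = D/2+1, r + l = p, Bm = 0.
  Case A: all 81 R_k.card < p. N ≤ 2 + card M + 4p/81 + 20 s + 4: 5N ≤ 30 + 3p + 63 + 20p/81 + 100 s; but 5N ≥ (10p - 55)/3: 3.333p ≤ 3.247 p + 100 s + 120: contradiction.
  Case B: some 81 R_k.card ≥ p: `reg2` for the corresponding words (rt_rv: same centre forms; Bm (rv μ D) D = Bm μ D: rv μ D (D/2) = μ (D - D/2) = μ (D/2) for D even): 3 card M ≤ 2 b + 90000 (L+1), b = sz (Bm μ D), L = Nat.log 2 p. N ≤ 2 + card M + 20 s + 4 + R₁+R₂+R₃+R₄, 7 (R₁+..+R₄) ≤ 4(r+l) + 56 ≤ 4(p - b) + 56.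
   21 N ≤ 126 + 14 b + 630000 (L+1) + 420 s + 12 (p-b) + 168 = 12p + 2b + 630000(L+1) + 420 s + 294. And p - b ≥ r + l ≥ (7 R_k - 14)/2 ≥ 7p/162 - 7. 21N ≥ 14p - 77: so 2(p-b) ≤ 630000(L+1) + 420 s + 371. LHS ≥ 7p/81 - 14. L+1 ≤ p/10^8: for p ≥ 10^10: Nat.log 2 p + 1 ≤ p / 10^8 (from 2^L ≤ p and L ≥ 33: 10^8 (L+1) ≤ 2^L for L ≥ 33: induction, at L = 33: 3.4·10^9 ≤ 8.59·10^9).
   So RHS ≤ 0.0063 p + 420 s + 371 and 420 s ≤ 0.01 p, LHS ≥ 0.086p - 14: contradiction.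
-/

open Multiset

namespace TRD

noncomputable section

namespace EqFinalAux

private theorem log_bound {p : ℕ} (hp : 10 ^ 10 ≤ p) : 10 ^ 8 * (Nat.log 2 p + 1) ≤ p := by
  have h1 : 33 ≤ Nat.log 2 p := by
    apply Nat.le_log_of_pow_le (by norm_num)
    refine le_trans ?_ hp
    norm_num
  have h2 : 2 ^ Nat.log 2 p ≤ p := Nat.pow_log_le_self 2 (by omega)
  have h3 : ∀ L : ℕ, 33 ≤ L → 10 ^ 8 * (L + 1) ≤ 2 ^ L := by
    intro L hL
    induction L, hL using Nat.le_induction with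
    | base => norm_num
    | succ L hL ih =>
      rw [pow_succ]
      omega
  exact le_trans (h3 _ h1) h2

private theorem sqrt_bound {p : ℕ} (hp : 10 ^ 10 ≤ p) : 10 ^ 4 * Nat.sqrt (2 * p) ≤ p := by
  have h1 : Nat.sqrt (2 * p) * Nat.sqrt (2 * p) ≤ 2 * p := Nat.sqrt_le (2 * p)
  generalize Nat.sqrt (2 * p) = q at h1
  by_contra h
  have h2 : 10 ^ 6 ≤ q := by omega
  have h3 : 10 ^ 6 * q ≤ q * q := Nat.mul_le_mul_right q h2
  omega

private theorem card_small {μ ν : ℕ → Multiset RT} {D E : ℕ} {Q : Finset (ℕ × ℕ)}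
    (h : PP μ ν D E Q) : Q.card ≤ D - D / 2 := by
  have h1 : Q.card ≤ (Ix D).card := by
    apply Finset.card_le_card_of_injOn Prod.fst
    · intro e he
      exact (h.hI e he).1
    · intro e he f hf hef
      exact h.h1 e he f hf hef
  refine le_trans h1 ?_
  unfold Ix
  rw [Nat.card_Icc]
  omega

private theorem index_low {μ ν : ℕ → Multiset RT} {D E : ℕ} {Q R : Finset (ℕ × ℕ)}
    (h : PP μ ν D E Q) (hR : R ⊆ Q) : ∀ e ∈ R, D / 2 + 1 ≤ e.1 := by
  intro e he
  have h1 := (h.hI e (hR he)).1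
  unfold Ix at h1
  rw [Finset.mem_Icc] at h1
  exact h1.1

private theorem Bm_rv (μ : ℕ → Multiset RT) (D : ℕ) : Bm (rv μ D) D = Bm μ D := by
  unfold Bm
  by_cases h : D % 2 = 0
  · rw [if_pos h, if_pos h]
    unfold rv
    congr 1
    omega
  · rw [if_neg h, if_neg h]

private theorem sides (μ : ℕ → Multiset RT) (D : ℕ) :
    (Sz μ (D + 1) - Sz μ (D / 2 + 1)) + (Sz μ (D + 1) - Sz (rv μ D) (D / 2 + 1)) +
      sz (Bm μ D) ≤ Sz μ (D + 1) := by
  have h1 : Vm μ (D + 1) (D - D / 2) = Lm (rv μ D) (D / 2 + 1) := by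
    rw [Vm_eq_Lm_rv μ (D := D) (h := D - D / 2) (by omega)]
    congr 1
    omega
  have h2 := sz_Vm μ (i := D + 1) (h := D - D / 2) (by omega)
  rw [h1, sz_Lm] at h2
  have h3 := Sz_mono μ (i := D / 2 + 1) (j := D + 1) (by omega)
  by_cases h : D % 2 = 0
  · have h4 : D - D / 2 = D / 2 := by omega
    rw [h4] at h2
    have h5 := Sz_succ μ (D / 2)
    unfold Bm
    rw [if_pos h]
    omega
  · have h4 : D - D / 2 = D / 2 + 1 := by omega
    rw [h4] at h2
    unfold Bm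
    rw [if_neg h, sz_zero]
    omega

/-- the exceptional family -/
private theorem fat_case {μ ν : ℕ → Multiset RT} {D g e : ℕ} (hD : 1 ≤ D) {x y : RT}
    (hx : cls x = cw μ (D + 1)) (hy : cls y = cw ν (D + 1))
    (h : Fat g e (rt μ (D + 1) D) (rt ν (D + 1) D)) (he : e + 2 ≤ g) (hg : 4 ≤ g)
    {M₀ : Multiset (Multiset Cls × Multiset Cls)}
    (hM : Mt M₀ (deck x) (deck y) (fun a b => a = b)) :
    card M₀ ≤ 2 * ((size x - 5) / 3) := by
  obtain ⟨P₁, P₂, Q₁, Q₂, s, h1, h2, h3, h4, h5, h6, h7⟩ := fat_tree hD h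
  have hx' : cls x = cls (node (P₁ ::ₘ P₁ ::ₘ P₂ ::ₘ s)) := hx.trans h6
  have hy' : cls y = cls (node (P₁ ::ₘ Q₁ ::ₘ Q₂ ::ₘ s)) := hy.trans h7
  rw [deck_cls hx', deck_cls hy'] at hM
  have h8 := fat_final h1 h2 h3 h4 (by omega) hg hM
  have h9 : size x = size (node (P₁ ::ₘ P₁ ::ₘ P₂ ::ₘ s)) := by
    have h10 := congrArg csize hx'
    rwa [csize_cls, csize_cls] at h10
  rw [size_node, sz_cons, sz_cons, sz_cons] at h9
  omega

end EqFinalAux

open EqFinalAux in
theorem eq_final {μ ν : ℕ → Multiset RT} {D : ℕ} (hμ : GW μ D) (hν : GW ν D) (hD : 1 ≤ D)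
    {x y : RT} (hx : cls x = cw μ (D + 1)) (hy : cls y = cw ν (D + 1)) (hne : cls x ≠ cls y)
    (hsz : size x = size y) (hp : 10 ^ 10 ≤ size x)
    {M₀ : Multiset (Multiset Cls × Multiset Cls)}
    (hM : Mt M₀ (deck x) (deck y) (fun a b => a = b)) :
    card M₀ ≤ 2 * ((size x - 5) / 3) := by
  have hpμ : Sz μ (D + 1) = size x := by
    rw [← csize_cw μ (by omega : 1 ≤ D + 1), ← hx, csize_cls]
  have hpν : Sz ν (D + 1) = size x := by
    rw [← csize_cw ν (by omega : 1 ≤ D + 1), ← hy, csize_cls, hsz]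
  have hz : rt μ (D + 1) D ≠ rt ν (D + 1) D := by
    intro h
    apply hne
    rw [hx, hy]
    exact rt_cls (by omega) (by omega) h
  have hs1 : size (rt μ (D + 1) D) = size x + D % 2 := by rw [size_rt, hpμ]
  have hs2 : size (rt ν (D + 1) D) = size x + D % 2 := by rw [size_rt, hpν]
  obtain ⟨M, Q₁, Q₂, Q₃, Q₄, hGM, hP1, hP2, hP3, hP4, hN⟩ := eq_split hμ hν hD hx hy hM
  by_contra hcon
  rcases Nat.lt_or_ge (3 * size (rt μ (D + 1) D) + 60) (5 * card M) with hbig | hsmall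
  · obtain ⟨g, e, hF, hc, hse⟩ := rooted_fat hz (by rw [hs1, hs2]) hGM hbig
    have he : e + 2 ≤ g := by omega
    have hg : 4 ≤ g := by omega
    rcases hF with hF | hF
    · exact hcon (fat_case hD hx hy hF he hg hM)
    · have hM' := mt_swap hM
      have h1 := fat_case (M₀ := M₀.map Prod.swap) hD hy hx hF he hg
        ⟨hM'.1, hM'.2.1, fun e he => (hM'.2.2 e he).symm⟩
      rw [Multiset.card_map, ← hsz] at h1
      exact hcon h1
  · rw [hs1] at hsmall
    have hmod : D % 2 ≤ 1 := by omega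
    rcases Nat.lt_or_ge D 20 with hD20 | hD20
    · have c1 := card_small hP1
      have c2 := card_small hP2
      have c3 := card_small hP3
      have c4 := card_small hP4
      omega
    · have hμr := GW_rv hμ
      have hνr := GW_rv hν
      have hpμr : Sz (rv μ D) (D + 1) = size x := by rw [Sz_rv, hpμ]
      have hpνr : Sz (rv ν D) (D + 1) = size x := by rw [Sz_rv, hpν]
      obtain ⟨R₁, hR1, hq1, hc1⟩ := path_pairs hμ hν le_rfl hpν hP1
      obtain ⟨R₂, hR2, hq2, hc2⟩ := path_pairs hμ hνr le_rfl hpνr hP2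
      obtain ⟨R₃, hR3, hq3, hc3⟩ := path_pairs hμr hν le_rfl hpν hP3
      obtain ⟨R₄, hR4, hq4, hc4⟩ := path_pairs hμr hνr le_rfl hpνr hP4
      have k1 := r_count hμ hν (by omega) hq1 (index_low hP1 hR1)
      have k2 := r_count hμ hνr (by omega) hq2 (index_low hP2 hR2)
      have k3 := r_count hμr hν (by omega) hq3 (index_low hP3 hR3)
      have k4 := r_count hμr hνr (by omega) hq4 (index_low hP4 hR4)
      have hsd := sides μ D
      rw [hpμ] at k1 k2 hsd
      rw [hpμr] at k3 k4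
      have hsq := sqrt_bound hp
      have hlg := log_bound hp
      generalize Nat.sqrt (2 * size x) = q at hsq hc1 hc2 hc3 hc4
      generalize hr : size x - Sz μ (D / 2 + 1) = r at k1 k2 hsd
      generalize hl : size x - Sz (rv μ D) (D / 2 + 1) = l at k3 k4 hsd
      have key : (81 * R₁.card < size x ∧ 81 * R₂.card < size x ∧ 81 * R₃.card < size x ∧
          81 * R₄.card < size x) ∨ (3 * card M ≤ 2 * sz (Bm μ D) +
            90000 * (Nat.log 2 (size x) + 1) ∧ size x ≤ 81 * max (max R₁.card R₂.card)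
              (max R₃.card R₄.card)) := by
        by_cases b1 : size x ≤ 81 * R₁.card
        · right
          refine ⟨reg2 hμ hν hD hpμ hpν hz hq1 b1 (by omega) hGM, ?_⟩
          omega
        by_cases b2 : size x ≤ 81 * R₂.card
        · right
          refine ⟨reg2 hμ hνr hD hpμ hpνr (by rw [rt_rv]; exact hz) hq2 b2 (by omega)
            (by rw [rt_rv]; exact hGM), ?_⟩
          omega
        by_cases b3 : size x ≤ 81 * R₃.card
        · right
          have h1 := reg2 hμr hν hD hpμr hpν (by rw [rt_rv]; exact hz) hq3 b3 (by omega)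
            (by rw [rt_rv]; exact hGM)
          rw [Bm_rv] at h1
          refine ⟨h1, ?_⟩
          omega
        by_cases b4 : size x ≤ 81 * R₄.card
        · right
          have h1 := reg2 hμr hνr hD hpμr hpνr (by rw [rt_rv, rt_rv]; exact hz) hq4 b4 (by omega)
            (by rw [rt_rv, rt_rv]; exact hGM)
          rw [Bm_rv] at h1
          refine ⟨h1, ?_⟩
          omega
        · left
          omega
      rcases key with ⟨a1, a2, a3, a4⟩ | ⟨a1, a2⟩
      · omega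
      · generalize Nat.log 2 (size x) = L at a1 hlg
        generalize sz (Bm μ D) = b at a1 hsd
        have e1 : 2 * size x ≤ 3 * card M₀ + 11 := by
          clear hN hc1 hc2 hc3 hc4 k1 k2 k3 k4 hsd a1 a2 hlg hsq hsmall
          omega
        have e2 : card M₀ ≤ 6 + card M + (R₁.card + R₂.card + R₃.card + R₄.card) + 20 * q := by
          clear k1 k2 k3 k4 hsd a1 a2 hlg hsq hsmall e1 hcon
          omega
        have e3 : 7 * (R₁.card + R₂.card + R₃.card + R₄.card) ≤ 4 * (r + l) + 56 := by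
          clear hN hc1 hc2 hc3 hc4 hsd a1 a2 hlg hsq hsmall e1 hcon e2
          omega
        have e4 : 7 * max (max R₁.card R₂.card) (max R₃.card R₄.card) ≤ 2 * (r + l) + 14 := by
          clear hN hc1 hc2 hc3 hc4 hsd a1 a2 hlg hsq hsmall e1 hcon e2 e3
          omega
        generalize max (max R₁.card R₂.card) (max R₃.card R₄.card) = Rm at e4 a2
        clear hN hc1 hc2 hc3 hc4 k1 k2 k3 k4 hcon hsmall
        linarith

end

end TRD
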