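import Pool.Agent.Lib.TRD.HtRt
import Pool.Agent.Lib.TRD.DeckWord
import Pool.Agent.Lib.TRD.MatchA
import Pool.Agent.Lib.TRD.MatchB
import Pool.Agent.Lib.TRD.PDefs

/-! # TRD.EqSplit (MP_2e3d39_co)

Equal diameters: a matching of the decks splits into good pairs of entries and four sets of bad pairs of path vertices.

z = rt μ (D+1) D, z' = rt ν (D+1) D. `deck_word` for x and y: deck x = Rx + (dl z).map (cardc D), card Rx ≤ 1, same for y. Split M₀ by `mt_split_left`, `mt_split_right`: the parts using Rx or Ry have card ≤ 1 each; the rest is a matching of (dl z).map (cardc D) and (dl z').map (cardc D); `mt_lift`: N with Mt N (dl z) (dl z') (fun e e' => cardc D e = cardc D e').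
M = N.filter (e.1.1 = e.2.1) (classical) satisfies GM (`gr_of_card`; `mt_sub`). Bad part N' = N.filter (e.1.1 ≠ e.2.1). `dl_word`: dl z = R + L + B with R = (Ix D).val.map (pe μ D), L = (Ix D).val.map (pe (rv μ D) D); dl z' = R' + L' + B'. Split N' left and right into nine parts. The parts with B or B' are empty: by `no_bad`
(for a part with B: e.1 = rt μ' (D+1) D, and e' is pe ν D j, pe (rv ν D) D j (j ∈ Ix D; GW ν D, `GW_rv`) or of the form rt ν' (D+1) D; e'.2 is small by `kid_small`, e' ∈ dl z'; for a part with B' exchange the roles). The part R-R': `mt_lift` through pe μ D, pe ν D, then `mt_finset`: Q₁ with i, j ∈ Ix D, cardc D (pe μ D i) = cardc D (pe ν D j)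
(which is the equation PP.hc by `cardc_rt`, as pe μ D i = (rt μ i D, μ i + Vm μ (D+1) (i+1)) and D/2+1 ≤ i) and rt μ i D ≠ rt ν j D. The same for the other three parts with rv.
-/

open Multiset

namespace TRD

noncomputable section

namespace EqSplitAux

theorem form {ν : ℕ → Multiset RT} {D : ℕ} (hν : GW ν D) (hD : 1 ≤ D) {e : RT × Multiset RT}
    (he : e ∈ dl (rt ν (D + 1) D)) : ∃ ν' : ℕ → Multiset RT, GW ν' D ∧ ∃ j, D / 2 + 1 ≤ j ∧
      j ≤ D + 1 ∧ e.1 = rt ν' j D := by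
  obtain ⟨B, hB, hBf⟩ := dl_word hν hD
  rw [hB, Multiset.mem_add, Multiset.mem_add] at he
  rcases he with (he | he) | he
  · obtain ⟨j, hj, rfl⟩ := Multiset.mem_map.1 he
    have hj' : j ∈ Finset.Icc (D / 2 + 1) D := hj
    rw [Finset.mem_Icc] at hj'
    exact ⟨ν, hν, j, hj'.1, by omega, rfl⟩
  · obtain ⟨j, hj, rfl⟩ := Multiset.mem_map.1 he
    have hj' : j ∈ Finset.Icc (D / 2 + 1) D := hj
    rw [Finset.mem_Icc] at hj'
    exact ⟨rv ν D, GW_rv hν, j, hj'.1, by omega, rfl⟩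
  · obtain ⟨ν', h1, h2⟩ := hBf e he
    exact ⟨ν', h1, D + 1, by omega, le_refl _, h2⟩

theorem part {μ ν : ℕ → Multiset RT} {D : ℕ}
    {r : RT × Multiset RT → RT × Multiset RT → Prop}
    (hr : ∀ e e', r e e' → cardc D e = cardc D e' ∧ e.1 ≠ e'.1)
    {N : Multiset ((RT × Multiset RT) × (RT × Multiset RT))}
    (hN : Mt N ((Ix D).val.map (pe μ D)) ((Ix D).val.map (pe ν D)) r) :
    ∃ Q : Finset (ℕ × ℕ), PP μ ν D D Q ∧ Q.card = card N := by
  obtain ⟨N', h1, h2⟩ := mt_lift hN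
  obtain ⟨Q, q1, q2, q3, q4⟩ := mt_finset h1
  refine ⟨Q, ⟨fun e he => ⟨(q2 e he).1, (q2 e he).2.1⟩, q3, q4, ?_, ?_⟩, ?_⟩
  · intro e he
    have h3 := (hr _ _ (q2 e he).2.2).1
    have hi : e.1 ∈ Finset.Icc (D / 2 + 1) D := (q2 e he).1
    have hj : e.2 ∈ Finset.Icc (D / 2 + 1) D := (q2 e he).2.1
    rw [Finset.mem_Icc] at hi hj
    have h4 := cardc_rt μ (D := D) (i := e.1) hi.1 (μ e.1 + Vm μ (D + 1) (e.1 + 1))
    have h5 := cardc_rt ν (D := D) (i := e.2) hj.1 (ν e.2 + Vm ν (D + 1) (e.2 + 1))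
    rw [← h4, ← h5]
    exact h3
  · intro e he
    exact (hr _ _ (q2 e he).2.2).2
  · have h3 : Q.card = card N' := by
      rw [← q1]
      rfl
    rw [h3, ← h2, Multiset.card_map]

end EqSplitAux

open EqSplitAux

theorem eq_split {μ ν : ℕ → Multiset RT} {D : ℕ} (hμ : GW μ D) (hν : GW ν D) (hD : 1 ≤ D)
    {x y : RT} (hx : cls x = cw μ (D + 1)) (hy : cls y = cw ν (D + 1))
    {M₀ : Multiset (Multiset Cls × Multiset Cls)}
    (hM : Mt M₀ (deck x) (deck y) (fun a b => a = b)) :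
    ∃ (M : Multiset ((RT × Multiset RT) × (RT × Multiset RT))) (Q₁ Q₂ Q₃ Q₄ : Finset (ℕ × ℕ)),
      GM M (rt μ (D + 1) D) (rt ν (D + 1) D) ∧ PP μ ν D D Q₁ ∧ PP μ (rv ν D) D D Q₂ ∧
      PP (rv μ D) ν D D Q₃ ∧ PP (rv μ D) (rv ν D) D D Q₄ ∧
      card M₀ ≤ 2 + card M + Q₁.card + Q₂.card + Q₃.card + Q₄.card := by
  classical
  rw [deck_word hD hx, deck_word hD hy] at hM
  obtain ⟨Ma, Mb, hM0, ha, hb⟩ := mt_split_left hM
  obtain ⟨Mc, Md, hMb, hc, hd⟩ := mt_split_right hb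
  have ca : card Ma ≤ 1 := by
    have h1 := Multiset.card_le_card ha.1
    rw [Multiset.card_map] at h1
    refine h1.trans ?_
    split_ifs
    · rw [Multiset.card_singleton]
    · rw [Multiset.card_zero]
      exact Nat.zero_le _
  have cc : card Mc ≤ 1 := by
    have h1 := Multiset.card_le_card hc.2.1
    rw [Multiset.card_map] at h1
    refine h1.trans ?_
    split_ifs
    · rw [Multiset.card_singleton]
    · rw [Multiset.card_zero]
      exact Nat.zero_le _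
  obtain ⟨N, hN, hNd⟩ := mt_lift hd
  have cd : card Md = card N := by rw [← hNd, Multiset.card_map]
  have memN : ∀ e ∈ N, e.1 ∈ dl (rt μ (D + 1) D) ∧ e.2 ∈ dl (rt ν (D + 1) D) := fun e he =>
    ⟨Multiset.mem_of_le hN.1 (Multiset.mem_map_of_mem _ he),
      Multiset.mem_of_le hN.2.1 (Multiset.mem_map_of_mem _ he)⟩
  have cN := Multiset.filter_add_not (fun e : (RT × Multiset RT) × (RT × Multiset RT) =>
    e.1.1 = e.2.1) N
  have cN' := congrArg card cN
  rw [Multiset.card_add] at cN'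
  have hG : GM (N.filter (fun e => e.1.1 = e.2.1)) (rt μ (D + 1) D) (rt ν (D + 1) D) := by
    refine ⟨(mt_sub hN (Multiset.filter_le _ _)).1, (mt_sub hN (Multiset.filter_le _ _)).2.1, ?_⟩
    intro e he
    rw [Multiset.mem_filter] at he
    exact ⟨he.2, gr_of_card (hN.2.2 e he.1) he.2⟩
  set r : RT × Multiset RT → RT × Multiset RT → Prop := fun e e' =>
    (cardc D e = cardc D e' ∧ e.1 ≠ e'.1) ∧ e ∈ dl (rt μ (D + 1) D) ∧ e' ∈ dl (rt ν (D + 1) D)
    with hrdef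
  have hr : ∀ e e', r e e' → cardc D e = cardc D e' ∧ e.1 ≠ e'.1 := fun e e' h => h.1
  have hBad : Mt (N.filter (fun e => ¬ e.1.1 = e.2.1)) (dl (rt μ (D + 1) D))
      (dl (rt ν (D + 1) D)) r := by
    refine ⟨(mt_sub hN (Multiset.filter_le _ _)).1, (mt_sub hN (Multiset.filter_le _ _)).2.1, ?_⟩
    intro e he
    rw [Multiset.mem_filter] at he
    exact ⟨⟨hN.2.2 e he.1, he.2⟩, memN e he.1⟩
  obtain ⟨B, hB, hBf⟩ := dl_word hμ hD
  obtain ⟨B', hB', hBf'⟩ := dl_word hν hD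
  rw [hB, hB'] at hBad
  obtain ⟨N1, N2, e12, h1, h2⟩ := mt_split_left hBad
  obtain ⟨N3, N4, e34, h3, h4⟩ := mt_split_right h1
  obtain ⟨N5, N6, e56, h5, h6⟩ := mt_split_left h3
  obtain ⟨N7, N8, e78, h7, h8⟩ := mt_split_right h5
  obtain ⟨N9, N10, e910, h9, h10⟩ := mt_split_right h6
  have z2 : N2 = 0 := by
    refine Multiset.eq_zero_of_forall_notMem fun e he => ?_
    have hb1 : e.1 ∈ B := Multiset.mem_of_le h2.1 (Multiset.mem_map_of_mem _ he)
    obtain ⟨⟨hcard, hne⟩, hm1, hm2⟩ := h2.2.2 e he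
    obtain ⟨μ', hμ', hμe⟩ := hBf e.1 hb1
    obtain ⟨ν', hν', j, hj, hj2, hje⟩ := form hν hD hm2
    exact hne (no_bad hcard hμ' hμe hν' hj hj2 hje (kid_small hν hD hm2))
  have z4 : N4 = 0 := by
    refine Multiset.eq_zero_of_forall_notMem fun e he => ?_
    have hb1 : e.2 ∈ B' := Multiset.mem_of_le h4.2.1 (Multiset.mem_map_of_mem _ he)
    obtain ⟨⟨hcard, hne⟩, hm1, hm2⟩ := h4.2.2 e he
    obtain ⟨μ', hμ', hμe⟩ := hBf' e.2 hb1
    obtain ⟨ν', hν', j, hj, hj2, hje⟩ := form hμ hD hm1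
    exact hne (no_bad hcard.symm hμ' hμe hν' hj hj2 hje (kid_small hμ hD hm1)).symm
  obtain ⟨Q₁, p1, k1⟩ := part hr h7
  obtain ⟨Q₂, p2, k2⟩ := part hr h8
  obtain ⟨Q₃, p3, k3⟩ := part hr h9
  obtain ⟨Q₄, p4, k4⟩ := part hr h10
  refine ⟨_, Q₁, Q₂, Q₃, Q₄, hG, p1, p2, p3, p4, ?_⟩
  have c0 := congrArg card hM0
  have c1 := congrArg card hMb
  have c2 := congrArg card e12
  have c3 := congrArg card e34
  have c4 := congrArg card e56
  have c5 := congrArg card e78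
  have c6 := congrArg card e910
  rw [Multiset.card_add] at c0 c1 c2 c3 c4 c5 c6
  rw [z2, Multiset.card_zero] at c2
  rw [z4, Multiset.card_zero] at c3
  omega

end

end TRD
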