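import Pool.Agent.Lib.TRD.Basic
import Pool.Agent.Lib.TRD.MatchA

/-! # TRD.FatRoot (MP_2e3d39_co)

Extremal family: the cards of the two central vertices are not common cards, and the main component is determined.

X = node (P₁ ::ₘ P₁ ::ₘ P₂ ::ₘ s), Y = node (P₁ ::ₘ Q₁ ::ₘ Q₂ ::ₘ s), size 3g+2+sz s. deck X = (ch X).map cls ::ₘ (dl X).map card0. All classes in the root card have csize ≤ g+1. For e ∈ dl X: e comes from a branch P ∈ ch X (`dl_eq_ldl`): size e.1 ≥ size X - size P ≥ 2g+1+sz s > g+1 (sz e.2 + 1 ≤ size P, `dl_size`, `dlo_size`) and every y ∈ e.2 has size ≤ sz e.2 < size P ≤ g+1.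
So card0 e contains the class cls e.1 of size > g+1: it is different from the root cards of X and Y. The two root cards are different: map csize: {g+1,g+1,g-1} + sizes of s ≠ {g+1,g,g} + sizes of s (cancel; g-1 ≠ g).
`fat_root`: split M₀ with `mt_split_left` (deck X = {root} + rest) and `mt_split_right`: the parts using a root card are empty; `mt_lift` for the rest.
`fat_main`: card0 e = card0 e': cls e.1 ∈ cls e'.1 ::ₘ e'.2.map cls; csize (cls e.1) > g+1 and the kids of e' have size < g+1, so cls e.1 = cls e'.1; cancel: e.2.map cls = e'.2.map cls.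
-/

open Multiset

namespace TRD

noncomputable section

namespace FatRootAux

theorem big {g : ℕ} {m : Multiset RT} (hm : ∀ y ∈ m, size y ≤ g + 1) (hs : 2 * g + 1 < sz m)
    {e : RT × Multiset RT} (he : e ∈ dl (node m)) : g + 1 < size e.1 ∧ ∀ y ∈ e.2, size y ≤ g := by
  rw [dl_eq_ldl, Multiset.mem_map] at he
  obtain ⟨t, ht, rfl⟩ := he
  rw [mem_ldl] at ht
  obtain ⟨ht1, ht2⟩ := ht
  have h1 := dlo_size ht2
  have h2 := hm _ ht1
  have h3 : sz m = size t.1 + sz (m.erase t.1) := by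
    rw [← sz_cons, Multiset.cons_erase ht1]
  constructor
  · simp only
    rw [size_node, sz_add]
    omega
  · intro y hy
    have h4 := size_le_sz hy
    simp only at h4
    omega

theorem notin {g : ℕ} {m m' : Multiset RT} (hm : ∀ y ∈ m, size y ≤ g + 1)
    (hm' : ∀ y ∈ m', size y ≤ g + 1) (hs : 2 * g + 1 < sz m) :
    m'.map cls ∉ (dl (node m)).map card0 := by
  intro h
  rw [Multiset.mem_map] at h
  obtain ⟨e, he, h⟩ := h
  have h1 := (big hm hs he).1
  have h2 : cls e.1 ∈ m'.map cls := by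
    rw [← h]
    exact Multiset.mem_cons_self _ _
  obtain ⟨y, hy, h3⟩ := Multiset.mem_map.1 h2
  have h4 : size y = size e.1 := by
    rw [← csize_cls, ← csize_cls, h3]
  have h5 := hm' y hy
  omega

theorem ne_root {g : ℕ} {P₁ P₂ Q₁ Q₂ : RT} {s : Multiset RT} (hP1 : size P₁ = g + 1)
    (hP2 : size P₂ + 1 = g) (hQ1 : size Q₁ = g) (hQ2 : size Q₂ = g) :
    (P₁ ::ₘ P₁ ::ₘ P₂ ::ₘ s).map cls ≠ (P₁ ::ₘ Q₁ ::ₘ Q₂ ::ₘ s).map cls := by
  intro h
  have h1 := congrArg (Multiset.map csize) h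
  rw [Multiset.map_map, Multiset.map_map] at h1
  simp only [Multiset.map_cons, Function.comp, csize_cls, hP1, hQ1, hQ2] at h1
  have h2 := congrArg (Multiset.count (g + 1)) h1
  have e1 : g + 1 ≠ size P₂ := by omega
  have e2 : g + 1 ≠ g := by omega
  rw [Multiset.count_cons_self, Multiset.count_cons_self, Multiset.count_cons_of_ne e1,
    Multiset.count_cons_self, Multiset.count_cons_of_ne e2, Multiset.count_cons_of_ne e2] at h2
  omega

theorem split_one {α β : Type} {M : Multiset (α × β)} {A : Multiset α} {B : Multiset β}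
    {r : α → β → Prop} {a : α} (hM : Mt M (a ::ₘ A) B r) (h : ∀ b ∈ B, ¬ r a b) : Mt M A B r := by
  rw [← Multiset.singleton_add] at hM
  obtain ⟨M₁, M₂, h1, h2, h3⟩ := mt_split_left hM
  have h0 : M₁ = 0 := by
    apply Multiset.eq_zero_of_forall_notMem
    intro e he
    have k1 : e.1 ∈ ({a} : Multiset α) :=
      Multiset.mem_of_le h2.1 (Multiset.mem_map_of_mem _ he)
    have k2 : e.2 ∈ B := Multiset.mem_of_le h2.2.1 (Multiset.mem_map_of_mem _ he)
    rw [Multiset.mem_singleton] at k1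
    have k3 := h2.2.2 e he
    rw [k1] at k3
    exact h _ k2 k3
  rw [h1, h0, zero_add]
  exact h3

theorem split_one' {α β : Type} {M : Multiset (α × β)} {A : Multiset α} {B : Multiset β}
    {r : α → β → Prop} {b : β} (hM : Mt M A (b ::ₘ B) r) (h : ∀ a ∈ A, ¬ r a b) : Mt M A B r := by
  have h1 := split_one (mt_swap hM) (by
    intro a ha
    exact h a ha)
  have h2 := mt_swap h1
  have hs : ∀ N : Multiset (α × β), (N.map Prod.swap).map Prod.swap = N := by
    intro N
    rw [Multiset.map_map]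
    simp
  rw [hs] at h2
  exact h2

end FatRootAux

theorem fat_root {P₁ P₂ Q₁ Q₂ : RT} {s : Multiset RT} {g : ℕ} (hP1 : size P₁ = g + 1)
    (hP2 : size P₂ + 1 = g) (hQ1 : size Q₁ = g) (hQ2 : size Q₂ = g) (hs : sz s + 2 ≤ g)
    {M₀ : Multiset (Multiset Cls × Multiset Cls)}
    (hM : Mt M₀ (deck (node (P₁ ::ₘ P₁ ::ₘ P₂ ::ₘ s))) (deck (node (P₁ ::ₘ Q₁ ::ₘ Q₂ ::ₘ s)))
      (fun a b => a = b)) :
    ∃ M, Mt M (dl (node (P₁ ::ₘ P₁ ::ₘ P₂ ::ₘ s))) (dl (node (P₁ ::ₘ Q₁ ::ₘ Q₂ ::ₘ s)))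
      (fun e e' => cls e.1 = cls e'.1 ∧ e.2.map cls = e'.2.map cls) ∧ card M = card M₀ := by
  have hX : ∀ y ∈ P₁ ::ₘ P₁ ::ₘ P₂ ::ₘ s, size y ≤ g + 1 := by
    intro y hy
    simp only [Multiset.mem_cons] at hy
    rcases hy with rfl | rfl | rfl | hy
    · omega
    · omega
    · omega
    · have := size_le_sz hy
      omega
  have hY : ∀ y ∈ P₁ ::ₘ Q₁ ::ₘ Q₂ ::ₘ s, size y ≤ g + 1 := by
    intro y hy
    simp only [Multiset.mem_cons] at hy
    rcases hy with rfl | rfl | rfl | hy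
    · omega
    · omega
    · omega
    · have := size_le_sz hy
      omega
  have hg := size_pos P₂
  have sX : 2 * g + 1 < sz (P₁ ::ₘ P₁ ::ₘ P₂ ::ₘ s) := by
    simp only [sz_cons]
    omega
  have sY : 2 * g + 1 < sz (P₁ ::ₘ Q₁ ::ₘ Q₂ ::ₘ s) := by
    simp only [sz_cons]
    omega
  unfold deck at hM
  rw [ch_node, ch_node] at hM
  have h1 := FatRootAux.split_one hM (by
    intro b hb hab
    rw [← hab, Multiset.mem_cons] at hb
    rcases hb with hb | hb
    · exact FatRootAux.ne_root hP1 hP2 hQ1 hQ2 hb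
    · exact FatRootAux.notin hY hX sY hb)
  have h2 := FatRootAux.split_one' h1 (by
    intro a ha hab
    rw [hab] at ha
    exact FatRootAux.notin hX hY sX ha)
  obtain ⟨M', h3, h4⟩ := mt_lift h2
  refine ⟨M', ⟨h3.1, h3.2.1, ?_⟩, ?_⟩
  · intro e he
    have k1 : e.1 ∈ dl (node (P₁ ::ₘ P₁ ::ₘ P₂ ::ₘ s)) :=
      Multiset.mem_of_le h3.1 (Multiset.mem_map_of_mem _ he)
    have k2 : e.2 ∈ dl (node (P₁ ::ₘ Q₁ ::ₘ Q₂ ::ₘ s)) :=
      Multiset.mem_of_le h3.2.1 (Multiset.mem_map_of_mem _ he)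
    have k3 := h3.2.2 e he
    simp only at k3
    unfold card0 at k3
    have k4 := (FatRootAux.big hX sX k1).1
    have k5 := (FatRootAux.big hY sY k2).2
    have k6 : cls e.1.1 ∈ cls e.2.1 ::ₘ e.2.2.map cls := by
      rw [← k3]
      exact Multiset.mem_cons_self _ _
    have k7 : cls e.1.1 = cls e.2.1 := by
      rcases Multiset.mem_cons.1 k6 with h | h
      · exact h
      · obtain ⟨y, hy, hy2⟩ := Multiset.mem_map.1 h
        have hy3 : size y = size e.1.1 := by
          rw [← csize_cls, ← csize_cls, hy2]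
        have := k5 y hy
        omega
    refine ⟨k7, ?_⟩
    rw [k7] at k3
    exact (Multiset.cons_inj_right _).1 k3
  · rw [← h4, Multiset.card_map]

end

end TRD
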