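import Pool.Agent.Lib.TRD.GReach

/-! # TRD.GRestr (1.5 h): an isomorphism of forests restricts to the first tree and to the rest

Let `C = {x | x = none ∨ ∃ y, x = some (inl y)}` in `VF (cons a b)` and `C'` in `VF (cons a' b')`. By `reach_none`,
`x ∈ C ↔ Reachable none x`. As `θ none ∈ C'` (i.e. `Reachable none (θ none)`), and `θ` preserves reachability
(`SimpleGraph.Iso.reachable_iff` or `Reachable.map`), `θ x ∈ C' ↔ x ∈ C`. So `θ` maps `inr` bijectively to `inr`:
`e_b : VF b ≃ VF b'` with `θ (some (inr x)) = some (inr (e_b x))`, an isomorphism `FG b ≃g FG b'` (`adj_inr_inr`).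
`restr_tree`: the vertices of `cons a nil` are `none`, `some (inl x)` (`some (inr e)`: `Empty`), i.e. `C`; `θ` restricted to
`C` is an isomorphism `FG (cons a nil) ≃g FG (cons a' nil)`.
`restr_root`: if moreover `θ none = none`, then `θ` maps `inl` to `inl`: `e_a : VF a ≃ VF a'`, `FG a ≃g FG a'`
(`adj_inl_inl`); roots: `rtp a x ↔ Adj none (some (inl x)) ↔ Adj none (some (inl (e_a x))) ↔ rtp a' (e_a x)`
(`adj_none_inl`); for `b`: the hypothesis on the roots at `some (inr x)`.
-/

open Multiset

namespace TRD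

private theorem restr {V V' W W' : Type} {G : SimpleGraph V} {G' : SimpleGraph V'}
    {H : SimpleGraph W} {H' : SimpleGraph W'} (θ : G ≃g G') (i : W → V) (i' : W' → V')
    (hi : Function.Injective i) (hi' : Function.Injective i')
    (hA : ∀ x y, H.Adj x y ↔ G.Adj (i x) (i y)) (hA' : ∀ x y, H'.Adj x y ↔ G'.Adj (i' x) (i' y))
    (hr : ∀ v, (∃ x, i x = v) ↔ ∃ y, i' y = θ v) :
    ∃ φ : H ≃g H', ∀ x, i' (φ x) = θ (i x) := by
  choose e he using fun x => (hr (i x)).1 ⟨x, rfl⟩
  have h2 : ∀ y, ∃ x, i x = θ.symm (i' y) := by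
    intro y
    rw [hr]
    exact ⟨y, (θ.apply_symm_apply _).symm⟩
  choose f hf using h2
  refine ⟨⟨⟨e, f, fun x => ?_, fun y => ?_⟩, fun {x y} => ?_⟩, he⟩
  · apply hi
    rw [hf, he, θ.symm_apply_apply]
  · apply hi'
    rw [he, hf, θ.apply_symm_apply]
  · show H'.Adj (e x) (e y) ↔ H.Adj x y
    rw [hA', hA, he, he]
    exact θ.map_adj_iff

private theorem isC_iff {a b a' b' : OF} (θ : FG (.cons a b) ≃g FG (.cons a' b'))
    (h : θ none = none ∨ ∃ y : VF a', θ none = some (Sum.inl y)) (x : VF (.cons a b)) :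
    (x = none ∨ ∃ y : VF a, x = some (Sum.inl y)) ↔
      (θ x = none ∨ ∃ y : VF a', θ x = some (Sum.inl y)) := by
  rw [← reach_none a b x, ← reach_none a' b' (θ x)]
  have h0 : (FG (.cons a' b')).Reachable none (θ none) := (reach_none a' b' (θ none)).2 h
  have h1 : (FG (.cons a' b')).Reachable (θ none) (θ x) ↔ (FG (.cons a b)).Reachable none x :=
    SimpleGraph.Iso.reachable_iff
  rw [← h1]
  exact ⟨fun h2 => h0.trans h2, fun h2 => h0.symm.trans h2⟩

private theorem range_inr {a b : OF} (v : VF (.cons a b)) :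
    (∃ x : VF b, some (Sum.inr x) = v) ↔ ¬ (v = none ∨ ∃ y : VF a, v = some (Sum.inl y)) := by
  rcases v with _ | ⟨y | y⟩
  · simp
  · simp
  · simp

private theorem range_inl {a b : OF} (v : VF (.cons a b)) :
    (∃ x : VF a, some (Sum.inl x) = v) ↔
      (v = none ∨ ∃ y : VF a, v = some (Sum.inl y)) ∧ v ≠ none := by
  rcases v with _ | ⟨y | y⟩
  · simp
  · simp
  · simp

private def inC (a b : OF) : VF (.cons a .nil) → VF (.cons a b)
  | none => none
  | some (Sum.inl x) => some (Sum.inl x)
  | some (Sum.inr e) => e.elim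

private theorem inC_inj (a b : OF) : Function.Injective (inC a b) := by
  intro x y h
  rcases x with _ | ⟨x | x⟩
  · rcases y with _ | ⟨y | y⟩
    · rfl
    · exact absurd h (by simp [inC])
    · exact y.elim
  · rcases y with _ | ⟨y | y⟩
    · exact absurd h (by simp [inC])
    · have h1 : (some (Sum.inl x) : VF (.cons a b)) = some (Sum.inl y) := h
      have h2 : x = y := by simpa using h1
      rw [h2]
    · exact y.elim
  · exact x.elim

private theorem inC_range (a b : OF) (v : VF (.cons a b)) :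
    (∃ x, inC a b x = v) ↔ (v = none ∨ ∃ y : VF a, v = some (Sum.inl y)) := by
  constructor
  · rintro ⟨x, rfl⟩
    rcases x with _ | ⟨x | x⟩
    · exact Or.inl rfl
    · exact Or.inr ⟨x, rfl⟩
    · exact x.elim
  · rintro (rfl | ⟨y, rfl⟩)
    · exact ⟨none, rfl⟩
    · exact ⟨some (Sum.inl y), rfl⟩

private theorem inC_adj (a b : OF) (x y : VF (.cons a .nil)) :
    (FG (.cons a .nil)).Adj x y ↔ (FG (.cons a b)).Adj (inC a b x) (inC a b y) := by
  rcases x with _ | ⟨x | x⟩
  · rcases y with _ | ⟨y | y⟩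
    · exact Iff.rfl
    · exact Iff.rfl
    · exact y.elim
  · rcases y with _ | ⟨y | y⟩
    · exact Iff.rfl
    · exact Iff.rfl
    · exact y.elim
  · exact x.elim

private theorem inr_inj {a b : OF} :
    Function.Injective (fun x : VF b => (some (Sum.inr x) : VF (.cons a b))) := by
  intro x y h
  simpa using h

private theorem inl_inj {a b : OF} :
    Function.Injective (fun x : VF a => (some (Sum.inl x) : VF (.cons a b))) := by
  intro x y h
  simpa using h

private theorem restr_b {a b a' b' : OF} (θ : FG (.cons a b) ≃g FG (.cons a' b'))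
    (h : θ none = none ∨ ∃ y : VF a', θ none = some (Sum.inl y)) :
    ∃ φ : FG b ≃g FG b', ∀ x, (some (Sum.inr (φ x)) : VF (.cons a' b')) =
      θ (some (Sum.inr x)) := by
  refine restr θ (fun x : VF b => (some (Sum.inr x) : VF (.cons a b)))
    (fun x : VF b' => (some (Sum.inr x) : VF (.cons a' b'))) inr_inj inr_inj
    (fun x y => adj_inr_inr.symm) (fun x y => adj_inr_inr.symm) fun v => ?_
  rw [range_inr v, range_inr (θ v)]
  exact not_congr (isC_iff θ h v)

theorem restr_tree {a b a' b' : OF} (θ : FG (.cons a b) ≃g FG (.cons a' b'))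
    (h : θ none = none ∨ ∃ y : VF a', θ none = some (Sum.inl y)) :
    Nonempty (FG (.cons a .nil) ≃g FG (.cons a' .nil)) ∧ Nonempty (FG b ≃g FG b') := by
  constructor
  · obtain ⟨φ, -⟩ := restr θ (inC a b) (inC a' b') (inC_inj a b) (inC_inj a' b')
      (inC_adj a b) (inC_adj a' b') fun v => by
        rw [inC_range, inC_range]
        exact isC_iff θ h v
    exact ⟨φ⟩
  · obtain ⟨φ, -⟩ := restr_b θ h
    exact ⟨φ⟩

theorem restr_root {a b a' b' : OF} (θ : FG (.cons a b) ≃g FG (.cons a' b'))
    (h : θ none = none) (hr : ∀ x, rtp (.cons a' b') (θ x) ↔ rtp (.cons a b) x) :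
    RIso a a' ∧ RIso b b' := by
  have h' : θ none = none ∨ ∃ y : VF a', θ none = some (Sum.inl y) := Or.inl h
  constructor
  · obtain ⟨φ, hφ⟩ := restr θ (fun x : VF a => (some (Sum.inl x) : VF (.cons a b)))
      (fun x : VF a' => (some (Sum.inl x) : VF (.cons a' b'))) inl_inj inl_inj
      (fun x y => adj_inl_inl.symm) (fun x y => adj_inl_inl.symm) fun v => by
        rw [range_inl v, range_inl (θ v), ← isC_iff θ h' v]
        refine and_congr_right fun _ => not_congr ?_
        rw [← θ.injective.eq_iff, h]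
    refine ⟨φ, fun x => ?_⟩
    have h1 : (FG (.cons a' b')).Adj (θ none) (θ (some (Sum.inl x))) ↔
        (FG (.cons a b)).Adj none (some (Sum.inl x)) := θ.map_adj_iff
    rw [h, ← hφ x] at h1
    exact h1
  · obtain ⟨φ, hφ⟩ := restr_b θ h'
    refine ⟨φ, fun x => ?_⟩
    have h1 := hr (some (Sum.inr x))
    rw [← hφ x] at h1
    exact h1

end TRD
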