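import Pool.Agent.Lib.TRD.GReroot
import Pool.Agent.Lib.TRD.GRestr

/-! # TRD.GCls (1.5 h): isomorphic forests have the same codes, resp. classes

`fc_of_riso`: induction on `Fintype.card (VF f)` (or on `sz (fc f)`, `card_VF`). `f = nil`: `VF g` is empty, `g = nil`.
`f = cons a b`: let `φ : FG f ≃g FG g` preserve the roots, `r = φ none` (a root of `g`). `reorder g r` gives `c, d`,
`χ : FG g ≃g FG (cons c d)` root preserving, `fc (cons c d) = fc g`, `χ r = none` (the other case `some (inl x)` is not a
root: `rtp_inl`). `restr_root (φ.trans χ)`: `RIso a c`, `RIso b d`; induction hypothesis: `fc a = fc c`, `fc b = fc d`.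
`cls_of_tiso`: `φ : FG (cons a nil) ≃g FG (cons b nil)`; `reroot b (φ none)` gives `c`, `ψ` with `ψ (φ none) = none`; the
roots of `cons a nil` and `cons c nil` are exactly the vertices `none`, so `φ.trans ψ` shows `RIso (cons a nil) (cons c nil)`,
`fc_of_riso`: `node (fc a) = node (fc c)` (`Multiset.singleton_inj`/`Multiset.cons_inj_left`), and
`cls (node (fc b)) = cls (node (fc c))`.
`cls_of_fiso`: induction on `f` for all `g`. `f = nil`: `g = nil`. `f = cons a b`, `φ : FG f ≃g FG g`: `reorder g (φ none)`
gives `c, d`, `χ`; `restr_tree (φ.trans χ)` gives `FG (cons a nil) ≃g FG (cons c nil)` (`cls_of_tiso`) and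
`FG b ≃g FG d` (induction hypothesis); `fc (cons c d) = fc g`.
-/

open Multiset

namespace TRD

theorem fc_of_riso {f g : OF} (h : RIso f g) : fc f = fc g := by
  induction f generalizing g with
  | nil =>
    obtain ⟨φ, _⟩ := h
    cases g with
    | nil => rfl
    | cons c d => exact (φ.symm none).elim
  | cons a b iha ihb =>
    obtain ⟨φ, hφ⟩ := h
    obtain ⟨c, d, χ, hfc, hrt, _, hv⟩ := reorder g (φ none)
    have hr : rtp (.cons c d) (χ (φ none)) := (hrt _).2 ((hφ none).2 trivial)
    have h0 : χ (φ none) = none := by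
      rcases hv with h | ⟨x, hx⟩
      · exact h
      · rw [hx] at hr
        exact absurd hr rtp_inl
    obtain ⟨h1, h2⟩ := restr_root (φ.trans χ) h0 (fun x => (hrt (φ x)).trans (hφ x))
    rw [fc_cons, iha h1, ihb h2, ← hfc, fc_cons]

theorem cls_of_tiso {a b : OF} (h : Nonempty (FG (.cons a .nil) ≃g FG (.cons b .nil))) :
    cls (node (fc a)) = cls (node (fc b)) := by
  obtain ⟨φ⟩ := h
  obtain ⟨c, ψ, hψ, hcls⟩ := reroot b (φ none)
  have hR : RIso (.cons a .nil) (.cons c .nil) := by
    refine ⟨φ.trans ψ, fun x => ?_⟩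
    have he : (φ.trans ψ) x = ψ (φ x) := rfl
    rw [he]
    rcases x with _ | ⟨x | e⟩
    · rw [hψ]
      exact ⟨fun _ => trivial, fun _ => trivial⟩
    · constructor
      · intro h
        rcases hy : ψ (φ (some (Sum.inl x))) with _ | ⟨y | e⟩
        · have h1 : ψ (φ (some (Sum.inl x))) = ψ (φ none) := by rw [hy, hψ]
          have h2 := φ.injective (ψ.injective h1)
          cases h2
        · rw [hy] at h
          exact absurd h rtp_inl
        · exact e.elim
      · intro h
        exact absurd h rtp_inl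
    · exact e.elim
  have h1 := fc_of_riso hR
  rw [fc_cons, fc_cons, fc_nil] at h1
  have h2 : node (fc a) = node (fc c) := (Multiset.cons_inj_left 0).1 h1
  rw [h2, hcls]

theorem cls_of_fiso {f g : OF} (h : Nonempty (FG f ≃g FG g)) :
    (fc f).map cls = (fc g).map cls := by
  induction f generalizing g with
  | nil =>
    obtain ⟨φ⟩ := h
    cases g with
    | nil => rfl
    | cons c d => exact (φ.symm none).elim
  | cons a b _ ihb =>
    obtain ⟨φ⟩ := h
    obtain ⟨c, d, χ, hfc, _, _, hv⟩ := reorder g (φ none)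
    obtain ⟨h1, h2⟩ := restr_tree (φ.trans χ) hv
    rw [← hfc, fc_cons, fc_cons, Multiset.map_cons, Multiset.map_cons, cls_of_tiso h1, ihb h2]

end TRD
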