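import Pool.Agent.Lib.TRD.GDefs

/-! # TRD.GSum (0.8 h): the graph of a concatenation is a disjoint sum

`consSum`: the equivalence `Option (VF a ⊕ VF b) ≃ Option (VF a ⊕ Empty) ⊕ VF b`
(`none ↦ inl none`, `some (inl x) ↦ inl (some (inl x))`, `some (inr y) ↦ inr y`); `Adj` by cases
(`SimpleGraph.sum_adj_inl`, `SimpleGraph.sum_adj_inr`, the mixed adjacencies of `⊕g` are false).
`appSum`: induction on `f`. `app nil g = g`: `VF g ≃ Empty ⊕ VF g`. `app (cons a b) g = cons a (app b g)`:
`consSum`, induction hypothesis, `SimpleGraph.Iso.sumCongr`, `SimpleGraph.Iso.sumAssoc`, `consSum` again.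
-/

open Multiset

namespace TRD

/-- first tree and the rest, separated -/
def sepFun (a b : OF) : VF (.cons a b) → VF (.cons a .nil) ⊕ VF b
  | none => Sum.inl none
  | some (Sum.inl x) => Sum.inl (some (Sum.inl x))
  | some (Sum.inr y) => Sum.inr y

/-- inverse of `sepFun` -/
def joinFun (a b : OF) : VF (.cons a .nil) ⊕ VF b → VF (.cons a b)
  | Sum.inl none => none
  | Sum.inl (some (Sum.inl x)) => some (Sum.inl x)
  | Sum.inl (some (Sum.inr e)) => e.elim
  | Sum.inr y => some (Sum.inr y)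

theorem consSum (a b : OF) : Nonempty (FG (.cons a b) ≃g (FG (.cons a .nil) ⊕g FG b)) := by
  refine ⟨⟨⟨sepFun a b, joinFun a b, ?_, ?_⟩, ?_⟩⟩
  · intro x
    rcases x with _ | x | x <;> rfl
  · intro x
    rcases x with (_ | x | e) | x
    · rfl
    · rfl
    · exact e.elim
    · rfl
  · intro x y
    rcases x with _ | x | x <;> rcases y with _ | y | y <;>
      simp [sepFun, SimpleGraph.sum, FG, FA]

theorem appSum (f g : OF) : Nonempty (FG (app f g) ≃g (FG f ⊕g FG g)) := by
  induction f with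
  | nil =>
    refine ⟨⟨(Equiv.emptySum Empty (VF g)).symm, ?_⟩⟩
    intro x y
    exact SimpleGraph.sum_adj_inr
  | cons a b _ ihb =>
    obtain ⟨φ⟩ := ihb
    obtain ⟨ψ⟩ := consSum a (app b g)
    obtain ⟨χ⟩ := consSum a b
    exact ⟨((ψ.trans (SimpleGraph.Iso.sumCongr SimpleGraph.Iso.refl φ)).trans
      SimpleGraph.Iso.sumAssoc.symm).trans
      (SimpleGraph.Iso.sumCongr χ.symm SimpleGraph.Iso.refl)⟩

end TRD
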