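import Pool.Agent.Lib.TRD.GTiso
import Pool.Agent.Lib.TRD.GSum

/-! # TRD.GFiso (0.7 h): forests whose trees have the same classes are isomorphic

Induction on `f`, for all `g`. `f = nil`: `(fc g).map cls = 0`, so `g = nil`. `f = cons a b`:
`cls (node (fc a)) ∈ (fc g).map cls`, so `fc g = y ::ₘ m'` with `cls y = cls (node (fc a))`
(`Multiset.mem_map`, `Multiset.exists_cons_of_mem`); choose `c`, `g₀` with `fc c = ch y`, `fc g₀ = m'`
(`fc_surj`), so `fc g = fc (cons c g₀)` (`node_ch`) and `FG g ≃g FG (cons c g₀)` (`riso_of_fc`).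
`(fc b).map cls = (fc g₀).map cls` by `Multiset.cons_inj_right`; induction hypothesis: `FG b ≃g FG g₀`;
`tiso_of_cls`: `FG (cons a nil) ≃g FG (cons c nil)`. Conclude with `consSum` twice and `SimpleGraph.Iso.sumCongr`.
-/

open Multiset

namespace TRD

theorem fiso_of_cls {f g : OF} (h : (fc f).map cls = (fc g).map cls) :
    Nonempty (FG f ≃g FG g) := by
  induction f generalizing g with
  | nil =>
    rw [fc_nil, Multiset.map_zero] at h
    have h0 : fc g = 0 := Multiset.map_eq_zero.1 h.symm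
    rw [fc_eq_zero h0]
    exact ⟨SimpleGraph.Iso.refl⟩
  | cons a b _ ihb =>
    rw [fc_cons, Multiset.map_cons] at h
    have hm : cls (node (fc a)) ∈ (fc g).map cls := by rw [← h]; exact Multiset.mem_cons_self _ _
    obtain ⟨y, hy, hy2⟩ := Multiset.mem_map.1 hm
    obtain ⟨t, ht⟩ := Multiset.exists_cons_of_mem hy
    obtain ⟨c, hc⟩ := fc_surj (ch y)
    obtain ⟨g₀, rfl⟩ := fc_surj t
    have hg : fc g = fc (.cons c g₀) := by rw [fc_cons, hc, node_ch, ht]
    rw [ht, Multiset.map_cons, hy2] at h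
    have h2 := (Multiset.cons_inj_right _).1 h
    obtain ⟨φ⟩ := ihb h2
    have h3 : cls (node (fc a)) = cls (node (fc c)) := by rw [hc, node_ch, hy2]
    obtain ⟨ψ⟩ := tiso_of_cls h3
    obtain ⟨χ, _⟩ := riso_of_fc hg
    obtain ⟨α⟩ := consSum a b
    obtain ⟨β⟩ := consSum c g₀
    exact ⟨((α.trans (SimpleGraph.Iso.sumCongr ψ φ)).trans β.symm).trans χ.symm⟩

end TRD
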