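import Pool.Agent.Lib.TRD.GDel
import Pool.Agent.Lib.TRD.GFiso
import Pool.Agent.Lib.TRD.GCls

/-! # TRD.GCard (0.8 h): cards of graphs = code cards

`gcard_iff_cc`: an isomorphism `ψ : T ≃g FG f` induces `T.induce {v}ᶜ ≃g (FG f).induce {ψ v}ᶜ` (write it down, or
`SimpleGraph.Iso.induce`-type lemma if it exists), and `card_iso f (ψ v)`: `≃g FG (app (up f (ψ v)) (kd f (ψ v)))`. So by
`gcard_eq_iff`, `gcard T v = gcard S w` iff `FG (app (up f _) (kd f _)) ≃g FG (app (up g _) (kd g _))` is nonempty, iff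
(`cls_of_fiso`, `fiso_of_cls`) the `(fc (app ..)).map cls` agree, iff the `ccd` agree (`fc_app`, `Multiset.map_add`).
`map_transfer`: from `s.map f = s'.map g` get `Multiset.Rel (fun a b => f a = g b) s s'`
(`Multiset.rel_eq`, `Multiset.rel_map`/`Multiset.rel_map_left`, `rel_map_right`), `Multiset.Rel.mono`, and back.
`le_map_exists`: `D ≤ s.map f → ∃ t ≤ s, t.map f = D` (`Multiset.le_iff_exists_add` and `Multiset.map_eq_add`, or lists:
`List.Subperm`/`Multiset.exists_le_map_eq..`; induction on `s` also works; check the library first).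
-/

open Multiset

namespace TRD

theorem gcard_ind_iso {V W : Type} {T : SimpleGraph V} {G : SimpleGraph W} (ψ : T ≃g G) (v : V) :
    Nonempty (T.induce {v}ᶜ ≃g G.induce {ψ v}ᶜ) := by
  refine ⟨⟨ψ.toEquiv.subtypeEquiv ?_, ?_⟩⟩
  · intro a
    simp only [Set.mem_compl_iff, Set.mem_singleton_iff]
    exact not_congr ψ.injective.eq_iff.symm
  · intro a b
    exact ψ.map_rel_iff

theorem gcard_iff_cc {V W : Type} {T : SimpleGraph V} {S : SimpleGraph W} {f g : OF}
    (ψ : T ≃g FG f) (χ : S ≃g FG g) (v : V) (w : W) :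
    gcard T v = gcard S w ↔ ccd f (ψ v) = ccd g (χ w) := by
  obtain ⟨a1⟩ := gcard_ind_iso ψ v
  obtain ⟨a2⟩ := card_iso f (ψ v)
  obtain ⟨b1⟩ := gcard_ind_iso χ w
  obtain ⟨b2⟩ := card_iso g (χ w)
  rw [gcard_eq_iff]
  have h1 : ∀ (f : OF) (v : VF f), ccd f v = (fc (app (up f v) (kd f v))).map cls := by
    intro f v
    unfold ccd
    rw [fc_app, Multiset.map_add]
  rw [h1, h1]
  constructor
  · rintro ⟨φ⟩
    exact cls_of_fiso ⟨(a1.trans a2).symm.trans (φ.trans (b1.trans b2))⟩
  · intro h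
    obtain ⟨φ⟩ := fiso_of_cls h
    exact ⟨(a1.trans a2).trans (φ.trans (b1.trans b2).symm)⟩

theorem map_transfer {α β : Type} {γ δ : Type*} (s : Multiset α) (s' : Multiset β) (f : α → γ)
    (g : β → γ) (f' : α → δ) (g' : β → δ) (h : ∀ a b, f a = g b → f' a = g' b)
    (e : s.map f = s'.map g) : s.map f' = s'.map g' := by
  have h1 : Multiset.Rel (fun x y => x = y) (s.map f) (s'.map g) := Multiset.rel_eq.mpr e
  rw [Multiset.rel_map] at h1
  have h2 : Multiset.Rel (fun a b => f' a = g' b) s s' :=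
    h1.mono fun a _ b _ hab => h a b hab
  have h3 : Multiset.Rel (fun x y => x = y) (s.map f') (s'.map g') := Multiset.rel_map.mpr h2
  exact Multiset.rel_eq.mp h3

theorem le_map_exists {α : Type} {γ : Type*} (s : Multiset α) (f : α → γ) (D : Multiset γ)
    (h : D ≤ s.map f) : ∃ t ≤ s, t.map f = D := by
  classical
  revert D
  induction s using Multiset.induction_on with
  | empty =>
    intro C hC
    rw [Multiset.map_zero] at hC
    exact ⟨0, le_rfl, by rw [Multiset.map_zero, Multiset.le_zero.mp hC]⟩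
  | cons a A ih =>
    intro C hC
    rw [Multiset.map_cons] at hC
    by_cases ha : f a ∈ C
    · obtain ⟨C', rfl⟩ := Multiset.exists_cons_of_mem ha
      obtain ⟨A', hA', hA'C⟩ := ih C' ((Multiset.cons_le_cons_iff _).mp hC)
      exact ⟨a ::ₘ A', Multiset.cons_le_cons _ hA', by rw [Multiset.map_cons, hA'C]⟩
    · obtain ⟨A', hA', hA'C⟩ := ih C ((Multiset.le_cons_of_notMem ha).mp hC)
      exact ⟨A', hA'.trans (Multiset.le_cons_self _ _), hA'C⟩

end TRD
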