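import Pool.Agent.Lib.TRD.GDefs

/-! # TRD.GDeckF (1.5 h): the deck of a code, vertex by vertex

`ent_eq`: induction on `f`. For `f = cons a b`, with `m = fc f = node (fc a) ::ₘ fc b`:
the left side is (sum over `none`, `inl x`, `inr x`; `Finset.univ` of `Option (VF a ⊕ VF b)`:
`Finset.univ_option`/`Fintype.univ_option`, `Finset.univ_disjSum_univ`, `Multiset.map_disjSum`, or use
`Fintype.sum_option`, `Fintype.sum_sum_type` after writing the multiset as a sum of singletons)
`(fc b, fc a) ::ₘ (L a).map (fun e => (node e.1 ::ₘ fc b, e.2)) + (L b).map (fun e => (node (fc a) ::ₘ e.1, e.2))`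
with `L f` = left side for `f`. Right side: `m.bind` splits (`Multiset.cons_bind`): the summand `y = node (fc a)` has
`m.erase y = fc b`, `dlo y = (0, fc a) ::ₘ (dl y).map (fun e => ({e.1}, e.2))` (`ch_node`) and
`dl y = (L a).map (fun e => (node e.1, e.2))` by `dl_node'` and the induction hypothesis for `a`; for `y ∈ fc b`:
`m.erase y = node (fc a) ::ₘ (fc b).erase y` (if `y = node (fc a)`: `Multiset.erase_cons_head` and
`Multiset.cons_erase`; else `Multiset.erase_cons_tail`), so these summands give the third term (induction
hypothesis for `b`, `Multiset.bind_congr`, `Multiset.map_bind`).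
`deck_eq`: apply `ent_eq` to `a`: `dl (node (fc a)) = (L a).map (fun e => (node e.1, e.2))`; the vertex `none` of
`cons a nil` has `ccd = (fc nil).map cls + (fc a).map cls`, the vertex `some (inl x)` has
`up = cons (up a x) nil`, `kd = kd a x`, so `ccd = cls (node (fc (up a x))) ::ₘ (fc (kd a x)).map cls` = `card0`.
-/

open Multiset

namespace TRD

namespace GDeckFAux

theorem map_univ_option {α β : Type*} [Fintype α] (g : Option α → β) :
    (Finset.univ : Finset (Option α)).val.map g =
      g none ::ₘ (Finset.univ : Finset α).val.map (fun x => g (some x)) := by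
  have h : (Finset.univ : Finset (Option α)).val =
      none ::ₘ (Finset.univ : Finset α).val.map some := rfl
  rw [h, Multiset.map_cons, Multiset.map_map]
  rfl

theorem map_univ_sum {α β γ : Type*} [Fintype α] [Fintype β] (g : α ⊕ β → γ) :
    (Finset.univ : Finset (α ⊕ β)).val.map g =
      (Finset.univ : Finset α).val.map (fun x => g (Sum.inl x)) +
      (Finset.univ : Finset β).val.map (fun x => g (Sum.inr x)) := by
  rw [← Finset.univ_disjSum_univ, Finset.val_disjSum, Multiset.disjSum, Multiset.map_add,
    Multiset.map_map, Multiset.map_map]
  rfl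

theorem map_univ_cons {γ : Type*} (a b : OF) (g : VF (.cons a b) → γ) :
    (Finset.univ : Finset (VF (.cons a b))).val.map g =
      g none ::ₘ ((Finset.univ : Finset (VF a)).val.map (fun x => g (some (Sum.inl x))) +
      (Finset.univ : Finset (VF b)).val.map (fun x => g (some (Sum.inr x)))) := by
  have h1 := map_univ_option (α := VF a ⊕ VF b) g
  rw [map_univ_sum (fun x => g (some x))] at h1
  exact h1

end GDeckFAux

theorem ent_eq (f : OF) :
    (Finset.univ : Finset (VF f)).val.map (fun v => (fc (up f v), fc (kd f v))) =
      (fc f).bind (fun y => (dlo y).map (fun e => (e.1 + (fc f).erase y, e.2))) := by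
  induction f with
  | nil => rfl
  | cons a b iha ihb =>
    rw [GDeckFAux.map_univ_cons, fc_cons, Multiset.cons_bind]
    have h1 : (fc b).bind (fun y => (dlo y).map
        (fun e => (e.1 + (node (fc a) ::ₘ fc b).erase y, e.2))) =
        (Finset.univ : Finset (VF b)).val.map
          (fun x => (fc (up (.cons a b) (some (Sum.inr x))), fc (kd (.cons a b) (some (Sum.inr x))))) := by
      have h2 : (Finset.univ : Finset (VF b)).val.map
          (fun x => (fc (up (.cons a b) (some (Sum.inr x))), fc (kd (.cons a b) (some (Sum.inr x))))) =
          ((Finset.univ : Finset (VF b)).val.map (fun v => (fc (up b v), fc (kd b v)))).map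
            (fun e => (node (fc a) ::ₘ e.1, e.2)) := by
        rw [Multiset.map_map]
        rfl
      rw [h2, ihb, Multiset.map_bind]
      apply Multiset.bind_congr
      intro y hy
      rw [Multiset.map_map]
      apply Multiset.map_congr rfl
      intro e _
      have h3 : (node (fc a) ::ₘ fc b).erase y = node (fc a) ::ₘ (fc b).erase y := by
        by_cases hya : y = node (fc a)
        · subst hya
          rw [Multiset.erase_cons_head, Multiset.cons_erase hy]
        · exact Multiset.erase_cons_tail _ (fun h => hya h.symm)
      rw [h3]
      simp only [Function.comp, Multiset.add_cons]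
    have h4 : (dlo (node (fc a))).map
        (fun e => (e.1 + (node (fc a) ::ₘ fc b).erase (node (fc a)), e.2)) =
        (fc (up (.cons a b) none), fc (kd (.cons a b) none)) ::ₘ
          (Finset.univ : Finset (VF a)).val.map
          (fun x => (fc (up (.cons a b) (some (Sum.inl x))), fc (kd (.cons a b) (some (Sum.inl x))))) := by
      rw [Multiset.erase_cons_head]
      unfold dlo
      rw [Multiset.map_cons, ch_node, zero_add, Multiset.map_map]
      have h5 : (Finset.univ : Finset (VF a)).val.map
          (fun x => (fc (up (.cons a b) (some (Sum.inl x))), fc (kd (.cons a b) (some (Sum.inl x))))) =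
          ((Finset.univ : Finset (VF a)).val.map (fun v => (fc (up a v), fc (kd a v)))).map
            (fun e => (node e.1 ::ₘ fc b, e.2)) := by
        rw [Multiset.map_map]
        rfl
      rw [h5, iha, Multiset.map_bind, dl_node', Multiset.map_bind]
      congr 1
      apply Multiset.bind_congr
      intro y _
      rw [Multiset.map_map, Multiset.map_map]
      apply Multiset.map_congr rfl
      intro e _
      simp only [Function.comp, Multiset.singleton_add]
    rw [h1, h4, Multiset.cons_add]

theorem deck_eq (a : OF) :
    deck (node (fc a)) = (Finset.univ : Finset (VF (.cons a .nil))).val.map (ccd (.cons a .nil)) := by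
  rw [GDeckFAux.map_univ_cons]
  unfold deck
  rw [ch_node]
  have h0 : ccd (.cons a .nil) none = (fc a).map cls := by
    show (fc .nil).map cls + (fc a).map cls = (fc a).map cls
    rw [fc_nil, Multiset.map_zero, zero_add]
  have h1 : (Finset.univ : Finset (VF OF.nil)).val.map
      (fun x => ccd (.cons a .nil) (some (Sum.inr x))) = 0 := rfl
  have h2 : dl (node (fc a)) = ((Finset.univ : Finset (VF a)).val.map
      (fun v => (fc (up a v), fc (kd a v)))).map (fun e => (node e.1, e.2)) := by
    rw [ent_eq, dl_node', Multiset.map_bind]
    apply Multiset.bind_congr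
    intro y _
    rw [Multiset.map_map]
    rfl
  rw [h0, h1, add_zero, h2, Multiset.map_map, Multiset.map_map]
  apply congrArg
  apply Multiset.map_congr rfl
  intro x _
  show cls (node (fc (up a x))) ::ₘ (fc (kd a x)).map cls =
    (node (fc (up a x)) ::ₘ (0 : Multiset RT)).map cls + (fc (kd a x)).map cls
  rw [Multiset.map_cons, Multiset.map_zero, Multiset.cons_add, zero_add]

end TRD
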