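import Mathlib

/-! # Decks of graphs and reconstruction of trees from a part of the deck (MP_2e3d39_co)

The definitions used in the statement of the main theorem.
-/

namespace TRD

noncomputable section

/-- a graph together with its vertex type -/
structure Gph : Type 1 where
  /-- vertices -/
  V : Type
  /-- the graph -/
  G : SimpleGraph V

/-- isomorphism of graphs -/
def gphSetoid : Setoid Gph where
  r A B := Nonempty (A.G ≃g B.G)
  iseqv := ⟨fun _ => ⟨SimpleGraph.Iso.refl⟩, fun ⟨φ⟩ => ⟨φ.symm⟩, fun ⟨φ⟩ ⟨ψ⟩ => ⟨φ.trans ψ⟩⟩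

/-- isomorphism classes of graphs -/
def GCls : Type 1 := Quotient gphSetoid

/-- the card of `v`: isomorphism class of the graph with the point `v` deleted -/
def gcard {V : Type} (G : SimpleGraph V) (v : V) : GCls :=
  Quotient.mk gphSetoid ⟨_, G.induce {v}ᶜ⟩

/-- the deck of a graph -/
def gdeck {V : Type} [Fintype V] (G : SimpleGraph V) : Multiset GCls :=
  Finset.univ.val.map (gcard G)

/-- `D` is a `k`-subdeck of the graph `G` on `p` points -/
def IsSubdeck {p : ℕ} (k : ℕ) (D : Multiset GCls) (G : SimpleGraph (Fin p)) : Prop :=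
  D ≤ gdeck G ∧ Multiset.card D = p - k

/-- the tree `T` is reconstructible (among the trees) after `k` discards -/
def Recon {p : ℕ} (k : ℕ) (T : SimpleGraph (Fin p)) : Prop :=
  ∀ D : Multiset GCls, IsSubdeck k D T → ∀ S : SimpleGraph (Fin p), S.IsTree → IsSubdeck k D S →
    Nonempty (S ≃g T)

end

end TRD
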