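import Pool.Agent.Lib.TRD.Basic
import Pool.Agent.Lib.TRD.GStm

/-! # Graph side of TRD (MP_2e3d39_co): ordered forests, their graphs and codes; decks of graphs

`OF` = finite ordered forests: `nil` is empty, `cons a b` = a tree whose root has the forest `a`
below it, followed by the forest `b`. `VF f` = vertices, `FG f` = graph, `rtp f` = being a root,
`fc f` = multiset of the codes (`RT`) of the trees of `f`. `up f v` = forest `f` with the subtree at
`v` removed, `kd f v` = forest below `v`, `dep f v` = depth, `ins f v` = `f` with a new leaf below `v`.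
-/

open Multiset

namespace TRD

/-- finite ordered forests -/
inductive OF : Type
  | nil : OF
  | cons (a b : OF) : OF

/-- vertices of an ordered forest -/
@[reducible] def VF : OF → Type
  | .nil => Empty
  | .cons a b => Option (VF a ⊕ VF b)

instance instFintypeVF : (f : OF) → Fintype (VF f)
  | .nil => (inferInstance : Fintype Empty)
  | .cons a b =>
    letI := instFintypeVF a
    letI := instFintypeVF b
    (inferInstance : Fintype (Option (VF a ⊕ VF b)))

instance instDecidableEqVF : (f : OF) → DecidableEq (VF f)
  | .nil => (inferInstance : DecidableEq Empty)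
  | .cons a b =>
    letI := instDecidableEqVF a
    letI := instDecidableEqVF b
    (inferInstance : DecidableEq (Option (VF a ⊕ VF b)))

/-- roots -/
def rtp : (f : OF) → VF f → Prop
  | .nil, v => v.elim
  | .cons _ _, none => True
  | .cons _ _, some (Sum.inl _) => False
  | .cons _ b, some (Sum.inr x) => rtp b x

/-- adjacency -/
def FA : (f : OF) → VF f → VF f → Prop
  | .nil, v, _ => v.elim
  | .cons _ _, none, none => False
  | .cons a _, none, some (Sum.inl x) => rtp a x
  | .cons _ _, none, some (Sum.inr _) => False
  | .cons a _, some (Sum.inl x), none => rtp a x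
  | .cons _ _, some (Sum.inr _), none => False
  | .cons a _, some (Sum.inl x), some (Sum.inl y) => FA a x y
  | .cons _ _, some (Sum.inl _), some (Sum.inr _) => False
  | .cons _ _, some (Sum.inr _), some (Sum.inl _) => False
  | .cons _ b, some (Sum.inr x), some (Sum.inr y) => FA b x y

theorem FA_symm : (f : OF) → (v w : VF f) → FA f v w → FA f w v
  | .nil, v, _ => v.elim
  | .cons _ _, none, none => fun h => h
  | .cons _ _, none, some (Sum.inl _) => fun h => h
  | .cons _ _, none, some (Sum.inr _) => fun h => h
  | .cons _ _, some (Sum.inl _), none => fun h => h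
  | .cons _ _, some (Sum.inr _), none => fun h => h
  | .cons a _, some (Sum.inl x), some (Sum.inl y) => fun h => FA_symm a x y h
  | .cons _ _, some (Sum.inl _), some (Sum.inr _) => fun h => h
  | .cons _ _, some (Sum.inr _), some (Sum.inl _) => fun h => h
  | .cons _ b, some (Sum.inr x), some (Sum.inr y) => fun h => FA_symm b x y h

theorem FA_irrefl : (f : OF) → (v : VF f) → ¬ FA f v v
  | .nil, v => v.elim
  | .cons _ _, none => fun h => h
  | .cons a _, some (Sum.inl x) => fun h => FA_irrefl a x h
  | .cons _ b, some (Sum.inr x) => fun h => FA_irrefl b x h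

/-- the graph of an ordered forest -/
def FG (f : OF) : SimpleGraph (VF f) where
  Adj := FA f
  symm := ⟨fun v w h => FA_symm f v w h⟩
  loopless := ⟨fun v h => FA_irrefl f v h⟩

/-- depth of a vertex -/
def dep : (f : OF) → VF f → ℕ
  | .nil, v => v.elim
  | .cons _ _, none => 0
  | .cons a _, some (Sum.inl x) => dep a x + 1
  | .cons _ b, some (Sum.inr x) => dep b x

/-- the forest without the subtree at `v` -/
def up : (f : OF) → VF f → OF
  | .nil, v => v.elim
  | .cons _ b, none => b
  | .cons a b, some (Sum.inl x) => .cons (up a x) b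
  | .cons a b, some (Sum.inr x) => .cons a (up b x)

/-- the forest below `v` -/
def kd : (f : OF) → VF f → OF
  | .nil, v => v.elim
  | .cons a _, none => a
  | .cons a _, some (Sum.inl x) => kd a x
  | .cons _ b, some (Sum.inr x) => kd b x

/-- the forest with a new leaf below `v` -/
def ins : (f : OF) → VF f → OF
  | .nil, v => v.elim
  | .cons a b, none => .cons (.cons .nil a) b
  | .cons a b, some (Sum.inl x) => .cons (ins a x) b
  | .cons a b, some (Sum.inr x) => .cons a (ins b x)

/-- concatenation -/
def app : OF → OF → OF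
  | .nil, g => g
  | .cons a b, g => .cons a (app b g)

noncomputable section

/-- codes of the trees of a forest -/
def fc : OF → Multiset RT
  | .nil => 0
  | .cons a b => node (fc a) ::ₘ fc b

/-- isomorphism of forests preserving the roots -/
def RIso (f g : OF) : Prop := ∃ φ : FG f ≃g FG g, ∀ x, rtp g (φ x) ↔ rtp f x

/-- code card of the vertex `v` -/
def ccd (f : OF) (v : VF f) : Multiset Cls := (fc (up f v)).map cls + (fc (kd f v)).map cls

/-- graph with a new vertex `none` joined to `u` -/
def leafAdd {V : Type} (G : SimpleGraph V) (u : V) : SimpleGraph (Option V) where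
  Adj := fun x y => match x, y with
    | none, none => False
    | none, some y => y = u
    | some x, none => x = u
    | some x, some y => G.Adj x y
  symm := ⟨fun x y h => by cases x <;> cases y <;> first | exact h | exact SimpleGraph.Adj.symm h⟩
  loopless := ⟨fun x h => by cases x with
    | none => exact h
    | some x => exact G.loopless.irrefl x h⟩

theorem gcard_eq_iff {V W : Type} (G : SimpleGraph V) (H : SimpleGraph W) (v : V) (w : W) :
    gcard G v = gcard H w ↔ Nonempty (G.induce {v}ᶜ ≃g H.induce {w}ᶜ) := by
  unfold gcard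
  constructor
  · intro h; exact Quotient.exact h
  · intro h; exact Quotient.sound h

/-! ## basic facts on forests -/

theorem fc_nil : fc .nil = 0 := rfl
theorem fc_cons (a b : OF) : fc (.cons a b) = node (fc a) ::ₘ fc b := rfl

theorem fc_app (f g : OF) : fc (app f g) = fc f + fc g := by
  induction f with
  | nil => simp [app, fc]
  | cons a b _ ihb => simp [app, fc, ihb]

theorem card_VF (f : OF) : Fintype.card (VF f) = sz (fc f) := by
  induction f with
  | nil => rfl
  | cons a b iha ihb =>
    have h : Fintype.card (VF (.cons a b)) = Fintype.card (VF a) + Fintype.card (VF b) + 1 := by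
      rw [← Fintype.card_sum, ← Fintype.card_option]
    rw [h, iha, ihb, fc_cons, sz_cons, size_node]
    omega

theorem adj_none_inl {a b : OF} {x : VF a} :
    (FG (.cons a b)).Adj none (some (Sum.inl x)) ↔ rtp a x := Iff.rfl
theorem adj_inl_none {a b : OF} {x : VF a} :
    (FG (.cons a b)).Adj (some (Sum.inl x)) none ↔ rtp a x := Iff.rfl
theorem adj_none_inr {a b : OF} {x : VF b} :
    ¬ (FG (.cons a b)).Adj none (some (Sum.inr x)) := fun h => h
theorem adj_inr_none {a b : OF} {x : VF b} :
    ¬ (FG (.cons a b)).Adj (some (Sum.inr x)) none := fun h => h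
theorem adj_inl_inl {a b : OF} {x y : VF a} :
    (FG (.cons a b)).Adj (some (Sum.inl x)) (some (Sum.inl y)) ↔ (FG a).Adj x y := Iff.rfl
theorem adj_inr_inr {a b : OF} {x y : VF b} :
    (FG (.cons a b)).Adj (some (Sum.inr x)) (some (Sum.inr y)) ↔ (FG b).Adj x y := Iff.rfl
theorem adj_inl_inr {a b : OF} {x : VF a} {y : VF b} :
    ¬ (FG (.cons a b)).Adj (some (Sum.inl x)) (some (Sum.inr y)) := fun h => h
theorem adj_inr_inl {a b : OF} {x : VF a} {y : VF b} :
    ¬ (FG (.cons a b)).Adj (some (Sum.inr y)) (some (Sum.inl x)) := fun h => h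

theorem rtp_none {a b : OF} : rtp (.cons a b) none := trivial
theorem rtp_inl {a b : OF} {x : VF a} : ¬ rtp (.cons a b) (some (Sum.inl x)) := fun h => h
theorem rtp_inr {a b : OF} {x : VF b} : rtp (.cons a b) (some (Sum.inr x)) ↔ rtp b x := Iff.rfl

theorem RIso.refl (f : OF) : RIso f f := ⟨SimpleGraph.Iso.refl, fun _ => Iff.rfl⟩

theorem RIso.symm {f g : OF} (h : RIso f g) : RIso g f := by
  obtain ⟨φ, hφ⟩ := h
  refine ⟨φ.symm, fun x => ?_⟩
  have := hφ (φ.symm x)
  rw [← this]
  have h2 : φ (φ.symm x) = x := φ.apply_symm_apply x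
  rw [h2]

theorem RIso.trans {f g h : OF} (h1 : RIso f g) (h2 : RIso g h) : RIso f h := by
  obtain ⟨φ, hφ⟩ := h1
  obtain ⟨ψ, hψ⟩ := h2
  refine ⟨φ.trans ψ, fun x => ?_⟩
  have : (φ.trans ψ) x = ψ (φ x) := rfl
  rw [this, hψ, hφ]

end

end TRD
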