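import Pool.Agent.Lib.TRD.GSum

/-! # TRD.GDel (2 h): deleting a vertex of a forest

`del_iso`: induction on `f`. For `f = cons a b`:
* `v = none`: `{none}ᶜ ≃ VF b ⊕ VF a` (`up = b`, `kd = a`): `some (inr y) ↦ inl y`, `some (inl x) ↦ inr x`.
* `v = some (inl x)`: `up = cons (up a x) b`, `kd = kd a x`. Let `φ` be the isomorphism for `a, x`. The vertex
  `none ↦ inl none`; `some (inr y) ↦ inl (some (inr y))`; `some (inl z)` with `z ≠ x`: if `φ z = inl w` then
  `inl (some (inl w))`, if `φ z = inr w` then `inr w`. Adjacency `none - some (inl z)` is `rtp a z`, i.e.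
  `φ z = inl w` with `rtp (up a x) w` (the second part of the statement for `a`).
* `v = some (inr x)`: `up = cons a (up b x)`, `kd = kd b x`: `none ↦ inl none`, `some (inl y) ↦ inl (some (inl y))`,
  `some (inr z)`, `z ≠ x`: `inl (some (inr w))` if `φ z = inl w`, `inr w` if `φ z = inr w`.
It may be convenient to prove first the same statement with an injective map: a bijection
`e : {y // y ≠ v} ≃ VF (up f v) ⊕ VF (kd f v)` with the adjacency condition, all by structural recursion.
`card_iso`: `del_iso` followed by `(appSum _ _).symm`.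
-/

open Multiset

namespace TRD

namespace GDelAux

/-- adjacency of the disjoint sum -/
def SA (u k : OF) : VF u ⊕ VF k → VF u ⊕ VF k → Prop
  | Sum.inl x, Sum.inl y => FA u x y
  | Sum.inr x, Sum.inr y => FA k x y
  | Sum.inl _, Sum.inr _ => False
  | Sum.inr _, Sum.inl _ => False

theorem SA_iff (u k : OF) (x y : VF u ⊕ VF k) : (FG u ⊕g FG k).Adj x y ↔ SA u k x y := by
  rcases x with x | x <;> rcases y with y | y
  · rw [SimpleGraph.sum_adj_inl]; exact Iff.rfl
  · simp [SA]
  · simp [SA]
  · rw [SimpleGraph.sum_adj_inr]; exact Iff.rfl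

/-- deleting the first root -/
def E0 (a b : OF) : VF b ⊕ VF a → Option (VF a ⊕ VF b)
  | Sum.inl y => some (Sum.inr y)
  | Sum.inr x => some (Sum.inl x)

/-- deleting a vertex below the first root -/
def E1 {a b u k : OF} (e : VF u ⊕ VF k → VF a) :
    Option (VF u ⊕ VF b) ⊕ VF k → Option (VF a ⊕ VF b)
  | Sum.inl none => none
  | Sum.inl (some (Sum.inl w)) => some (Sum.inl (e (Sum.inl w)))
  | Sum.inl (some (Sum.inr y)) => some (Sum.inr y)
  | Sum.inr w => some (Sum.inl (e (Sum.inr w)))

/-- deleting a vertex of the rest -/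
def E2 {a b u k : OF} (e : VF u ⊕ VF k → VF b) :
    Option (VF a ⊕ VF u) ⊕ VF k → Option (VF a ⊕ VF b)
  | Sum.inl none => none
  | Sum.inl (some (Sum.inl y)) => some (Sum.inl y)
  | Sum.inl (some (Sum.inr w)) => some (Sum.inr (e (Sum.inl w)))
  | Sum.inr w => some (Sum.inr (e (Sum.inr w)))

/-- the properties of the map -/
structure Good (f u k : OF) (v : VF f) (e : VF u ⊕ VF k → VF f) : Prop where
  inj : ∀ x y, e x = e y → x = y
  ne : ∀ x, e x ≠ v
  surj : ∀ y, y ≠ v → ∃ x, e x = y
  adj : ∀ x y, FA f (e x) (e y) ↔ SA u k x y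
  rt : ∀ x, rtp f (e x) ↔ ∃ z, x = Sum.inl z ∧ rtp u z

theorem rt_inl {u k : OF} (z : VF u) :
    (∃ z', (Sum.inl z : VF u ⊕ VF k) = Sum.inl z' ∧ rtp u z') ↔ rtp u z := by
  constructor
  · rintro ⟨z', h1, h2⟩
    rw [Sum.inl.inj h1]
    exact h2
  · intro h
    exact ⟨z, rfl, h⟩

theorem rt_inr {u k : OF} (z : VF k) :
    ¬ ∃ z', (Sum.inr z : VF u ⊕ VF k) = Sum.inl z' ∧ rtp u z' := by
  rintro ⟨z', h1, _⟩
  exact Sum.inr_ne_inl h1

theorem good0 (a b : OF) : Good (.cons a b) b a none (E0 a b) where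
  inj := by
    rintro (x | x) (y | y) h
    · have := Sum.inr.inj (Option.some.inj h); rw [this]
    · exact absurd (Option.some.inj h) Sum.inr_ne_inl
    · exact absurd (Option.some.inj h) Sum.inl_ne_inr
    · have := Sum.inl.inj (Option.some.inj h); rw [this]
  ne := by
    rintro (x | x) h
    · exact Option.some_ne_none _ h
    · exact Option.some_ne_none _ h
  surj := by
    rintro (_ | (y | y)) h
    · exact absurd rfl h
    · exact ⟨Sum.inr y, rfl⟩
    · exact ⟨Sum.inl y, rfl⟩
  adj := by
    rintro (x | x) (y | y) <;> exact Iff.rfl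
  rt := by
    rintro (x | x)
    · rw [rt_inl]; exact Iff.rfl
    · constructor
      · intro h; exact absurd h (fun h => h)
      · intro h; exact absurd h (rt_inr x)

theorem good1 {a b u k : OF} {v : VF a} {e : VF u ⊕ VF k → VF a} (h : Good a u k v e) :
    Good (.cons a b) (.cons u b) k (some (Sum.inl v)) (E1 (b := b) e) where
  inj := by
    rintro ((_ | (x | x)) | x) ((_ | (y | y)) | y) hxy
    · rfl
    · exact absurd hxy.symm (Option.some_ne_none _)
    · exact absurd hxy.symm (Option.some_ne_none _)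
    · exact absurd hxy.symm (Option.some_ne_none _)
    · exact absurd hxy (Option.some_ne_none _)
    · have := h.inj _ _ (Sum.inl.inj (Option.some.inj hxy))
      rw [Sum.inl.inj this]
    · exact absurd (Option.some.inj hxy) Sum.inl_ne_inr
    · have := h.inj _ _ (Sum.inl.inj (Option.some.inj hxy))
      exact absurd this Sum.inl_ne_inr
    · exact absurd hxy (Option.some_ne_none _)
    · exact absurd (Option.some.inj hxy) Sum.inr_ne_inl
    · rw [Sum.inr.inj (Option.some.inj hxy)]
    · exact absurd (Option.some.inj hxy) Sum.inr_ne_inl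
    · exact absurd hxy (Option.some_ne_none _)
    · have := h.inj _ _ (Sum.inl.inj (Option.some.inj hxy))
      exact absurd this Sum.inr_ne_inl
    · exact absurd (Option.some.inj hxy) Sum.inl_ne_inr
    · have := h.inj _ _ (Sum.inl.inj (Option.some.inj hxy))
      rw [Sum.inr.inj this]
  ne := by
    rintro ((_ | (x | x)) | x) hx
    · exact absurd hx.symm (Option.some_ne_none _)
    · exact h.ne _ (Sum.inl.inj (Option.some.inj hx))
    · exact absurd (Option.some.inj hx) Sum.inr_ne_inl
    · exact h.ne _ (Sum.inl.inj (Option.some.inj hx))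
  surj := by
    rintro (_ | (y | y)) hy
    · exact ⟨Sum.inl none, rfl⟩
    · obtain ⟨x, hx⟩ := h.surj y (fun h1 => hy (by rw [h1]))
      rcases x with x | x
      · exact ⟨Sum.inl (some (Sum.inl x)), by show some (Sum.inl _) = _; rw [hx]⟩
      · exact ⟨Sum.inr x, by show some (Sum.inl _) = _; rw [hx]⟩
    · exact ⟨Sum.inl (some (Sum.inr y)), rfl⟩
  adj := by
    rintro ((_ | (x | x)) | x) ((_ | (y | y)) | y)
    · exact Iff.rfl
    · exact (h.rt (Sum.inl y)).trans (rt_inl y)
    · exact Iff.rfl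
    · constructor
      · intro h1; exact absurd ((h.rt (Sum.inr y)).1 h1) (rt_inr y)
      · intro h1; exact h1.elim
    · exact (h.rt (Sum.inl x)).trans (rt_inl x)
    · exact h.adj (Sum.inl x) (Sum.inl y)
    · exact Iff.rfl
    · exact h.adj (Sum.inl x) (Sum.inr y)
    · exact Iff.rfl
    · exact Iff.rfl
    · exact Iff.rfl
    · exact Iff.rfl
    · constructor
      · intro h1; exact absurd ((h.rt (Sum.inr x)).1 h1) (rt_inr x)
      · intro h1; exact h1.elim
    · exact h.adj (Sum.inr x) (Sum.inl y)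
    · exact Iff.rfl
    · exact h.adj (Sum.inr x) (Sum.inr y)
  rt := by
    rintro ((_ | (x | x)) | x)
    · rw [rt_inl]; exact Iff.rfl
    · rw [rt_inl]; exact Iff.rfl
    · rw [rt_inl]; exact Iff.rfl
    · constructor
      · intro h1; exact absurd h1 (fun h1 => h1)
      · intro h1; exact absurd h1 (rt_inr x)

theorem good2 {a b u k : OF} {v : VF b} {e : VF u ⊕ VF k → VF b} (h : Good b u k v e) :
    Good (.cons a b) (.cons a u) k (some (Sum.inr v)) (E2 (a := a) e) where
  inj := by
    rintro ((_ | (x | x)) | x) ((_ | (y | y)) | y) hxy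
    · rfl
    · exact absurd hxy.symm (Option.some_ne_none _)
    · exact absurd hxy.symm (Option.some_ne_none _)
    · exact absurd hxy.symm (Option.some_ne_none _)
    · exact absurd hxy (Option.some_ne_none _)
    · rw [Sum.inl.inj (Option.some.inj hxy)]
    · exact absurd (Option.some.inj hxy) Sum.inl_ne_inr
    · exact absurd (Option.some.inj hxy) Sum.inl_ne_inr
    · exact absurd hxy (Option.some_ne_none _)
    · exact absurd (Option.some.inj hxy) Sum.inr_ne_inl
    · have := h.inj _ _ (Sum.inr.inj (Option.some.inj hxy))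
      rw [Sum.inl.inj this]
    · have := h.inj _ _ (Sum.inr.inj (Option.some.inj hxy))
      exact absurd this Sum.inl_ne_inr
    · exact absurd hxy (Option.some_ne_none _)
    · exact absurd (Option.some.inj hxy) Sum.inr_ne_inl
    · have := h.inj _ _ (Sum.inr.inj (Option.some.inj hxy))
      exact absurd this Sum.inr_ne_inl
    · have := h.inj _ _ (Sum.inr.inj (Option.some.inj hxy))
      rw [Sum.inr.inj this]
  ne := by
    rintro ((_ | (x | x)) | x) hx
    · exact absurd hx.symm (Option.some_ne_none _)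
    · exact absurd (Option.some.inj hx) Sum.inl_ne_inr
    · exact h.ne _ (Sum.inr.inj (Option.some.inj hx))
    · exact h.ne _ (Sum.inr.inj (Option.some.inj hx))
  surj := by
    rintro (_ | (y | y)) hy
    · exact ⟨Sum.inl none, rfl⟩
    · exact ⟨Sum.inl (some (Sum.inl y)), rfl⟩
    · obtain ⟨x, hx⟩ := h.surj y (fun h1 => hy (by rw [h1]))
      rcases x with x | x
      · exact ⟨Sum.inl (some (Sum.inr x)), by show some (Sum.inr _) = _; rw [hx]⟩
      · exact ⟨Sum.inr x, by show some (Sum.inr _) = _; rw [hx]⟩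
  adj := by
    rintro ((_ | (x | x)) | x) ((_ | (y | y)) | y)
    · exact Iff.rfl
    · exact Iff.rfl
    · exact Iff.rfl
    · exact Iff.rfl
    · exact Iff.rfl
    · exact Iff.rfl
    · exact Iff.rfl
    · exact Iff.rfl
    · exact Iff.rfl
    · exact Iff.rfl
    · exact h.adj (Sum.inl x) (Sum.inl y)
    · exact h.adj (Sum.inl x) (Sum.inr y)
    · exact Iff.rfl
    · exact Iff.rfl
    · exact h.adj (Sum.inr x) (Sum.inl y)
    · exact h.adj (Sum.inr x) (Sum.inr y)
  rt := by
    rintro ((_ | (x | x)) | x)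
    · rw [rt_inl]; exact Iff.rfl
    · rw [rt_inl]; exact Iff.rfl
    · rw [rt_inl]
      exact (h.rt (Sum.inl x)).trans (rt_inl x)
    · constructor
      · intro h1; exact absurd ((h.rt (Sum.inr x)).1 h1) (rt_inr x)
      · intro h1; exact absurd h1 (rt_inr x)

theorem exists_good (f : OF) : ∀ v : VF f, ∃ e : VF (up f v) ⊕ VF (kd f v) → VF f,
    Good f (up f v) (kd f v) v e := by
  induction f with
  | nil => intro v; exact v.elim
  | cons a b iha ihb =>
    intro v
    rcases v with _ | (x | x)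
    · exact ⟨E0 a b, good0 a b⟩
    · obtain ⟨e, he⟩ := iha x
      exact ⟨E1 e, good1 he⟩
    · obtain ⟨e, he⟩ := ihb x
      exact ⟨E2 e, good2 he⟩

end GDelAux

open GDelAux

theorem del_iso (f : OF) (v : VF f) :
    ∃ φ : (FG f).induce {v}ᶜ ≃g (FG (up f v) ⊕g FG (kd f v)),
      ∀ x, rtp f x.1 ↔ ∃ z, φ x = Sum.inl z ∧ rtp (up f v) z := by
  obtain ⟨e, he⟩ := exists_good f v
  have hb : Function.Bijective (fun x : VF (up f v) ⊕ VF (kd f v) =>
      (⟨e x, he.ne x⟩ : ({v}ᶜ : Set (VF f)))) := by
    constructor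
    · intro x y hxy
      exact he.inj x y (congrArg Subtype.val hxy)
    · rintro ⟨y, hy⟩
      obtain ⟨x, hx⟩ := he.surj y hy
      exact ⟨x, Subtype.ext hx⟩
  let ψ : (FG (up f v) ⊕g FG (kd f v)) ≃g (FG f).induce {v}ᶜ :=
    ⟨Equiv.ofBijective _ hb, by
      intro x y
      rw [SA_iff]
      exact he.adj x y⟩
  refine ⟨ψ.symm, fun x => ?_⟩
  have h1 : ψ (ψ.symm x) = x := ψ.apply_symm_apply x
  have h2 : e (ψ.symm x) = x.1 := congrArg Subtype.val h1
  rw [← h2]
  exact he.rt (ψ.symm x)

theorem card_iso (f : OF) (v : VF f) :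
    Nonempty ((FG f).induce {v}ᶜ ≃g FG (app (up f v) (kd f v))) := by
  obtain ⟨φ, _⟩ := del_iso f v
  obtain ⟨ψ⟩ := appSum (up f v) (kd f v)
  exact ⟨φ.trans ψ.symm⟩

end TRD
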