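import Pool.Agent.Lib.TRD.GExDefs

/-! # TRD.GExCls (0.7 h): the extremal pair: sizes, not isomorphic

`dsum_flip`: `x = node (node B ::ₘ A)`, `y = node (node A ::ₘ B)`: both sums are
`(card A + 1)^2 + (card B + 1)^2 + (A.map dsq).sum + (B.map dsq).sum` (`ch_node`, `dsq_node`). `dsum_cls`: `dsum` factors
through `Quot` (`Quot.lift` of `dsum`, or `Quot.eqvGen_exact` and induction).
`exX_ne_exY`: `dsq (node 0) = 1`, `dsq (star n) = (n+1)^2 + n`; `dsum (exX r c) = (c+3)^2 + 2 ((r+3)^2 + r + 2) + ((r+1)^2 + r) + c`,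
`dsum (exY r c) = (c+3)^2 + ((r+3)^2 + r + 2) + 2 ((r+2)^2 + r + 1) + c`; they differ by
`(r+3)^2 + (r+1)^2 - 2 (r+2)^2 = 2`.
Sizes: `size (star n) = n + 1`, `size (node 0) = 1`.
-/

open Multiset

namespace TRD

theorem dsum_flip {x y : RT} (h : Flip x y) : dsum x = dsum y := by
  obtain ⟨A, B, rfl, rfl⟩ := h
  unfold dsum
  rw [ch_node, ch_node, Multiset.card_cons, Multiset.card_cons, Multiset.map_cons,
    Multiset.map_cons, Multiset.sum_cons, Multiset.sum_cons, dsq_node, dsq_node]
  ring

theorem dsum_cls {x y : RT} (h : cls x = cls y) : dsum x = dsum y := by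
  have h2 : Quot.lift dsum (fun _ _ h => dsum_flip h) (cls x) =
      Quot.lift dsum (fun _ _ h => dsum_flip h) (cls y) := by rw [h]
  exact h2

theorem dsq_leaf : dsq (node 0) = 1 := by
  rw [dsq_node]; simp

theorem dsq_star (n : ℕ) : dsq (star n) = (n + 1) ^ 2 + n := by
  unfold star
  rw [dsq_node, Multiset.card_replicate, Multiset.map_replicate, Multiset.sum_replicate, dsq_leaf]
  simp

theorem exX_ne_exY (r c : ℕ) : cls (exX r c) ≠ cls (exY r c) := by
  intro h
  have h1 := dsum_cls h
  unfold dsum exX exY at h1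
  rw [ch_node, ch_node] at h1
  simp only [Multiset.card_cons, Multiset.card_replicate, Multiset.map_cons, Multiset.sum_cons,
    Multiset.map_replicate, Multiset.sum_replicate, dsq_leaf, dsq_star, smul_eq_mul, mul_one] at h1
  nlinarith [h1]

theorem size_leaf : size (node 0) = 1 := by
  rw [size_node, sz_zero]

theorem size_star (n : ℕ) : size (star n) = n + 1 := by
  unfold star
  rw [size_node]
  unfold sz
  rw [Multiset.map_replicate, Multiset.sum_replicate, size_leaf, smul_eq_mul, mul_one]
  omega

theorem sz_replicate_leaf (c : ℕ) : sz (Multiset.replicate c (node 0)) = c := by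
  unfold sz
  rw [Multiset.map_replicate, Multiset.sum_replicate, size_leaf, smul_eq_mul, mul_one]

theorem size_exX (r c : ℕ) : size (exX r c) = 3 * r + 8 + c := by
  unfold exX
  rw [size_node, sz_cons, sz_cons, sz_cons, size_star, size_star, sz_replicate_leaf]
  omega

theorem size_exY (r c : ℕ) : size (exY r c) = 3 * r + 8 + c := by
  unfold exY
  rw [size_node, sz_cons, sz_cons, sz_cons, size_star, size_star, sz_replicate_leaf]
  omega

end TRD
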