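import Pool.Agent.Lib.TRD.GExDefs

/-! # TRD.GExDeck (1.2 h): the extremal pair: common cards

`dl_star`: `dl (star (n+1)) = replicate (n+1) (star n, 0)` (`dl_node`, `ch_node 0`, `dl (node 0) = 0`,
`(replicate (n+1) y).erase y = replicate n y`; `Multiset.bind` of a constant on `replicate`).
For a child `P = star (n+1)` of `x = node m`, `P ∈ m`: the summand of `P` in `dl_node` contains
`(dl P).map (fun e => (node (e.1 ::ₘ m.erase P), e.2)) = replicate (n+1) (node (star n ::ₘ m.erase P), 0)`, and
`card0 (z, 0) = {cls z}`.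
`exX`: `m` has two copies of `star (r+2)`, each gives `replicate (r+2) {cls (exZ r c)}`
(`star (r+1) ::ₘ star (r+2) ::ₘ star r ::ₘ _`, `Multiset.cons_swap`), and `2 (r+1) ≤ 2 (r+2)`.
`exY`: two copies of `star (r+1)`, each gives `replicate (r+1) {cls (exZ r c)}` (`star r ::ₘ star (r+2) ::ₘ star (r+1) ::ₘ _`).
`deck x = _ ::ₘ (dl x).map card0`; the `bind` over `m` of `exX` is a sum over the listed elements
(`Multiset.cons_bind`), so it is `≥` the sum of the summands of the two copies (`Multiset.le_add_right`, ...;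
`Multiset.replicate_add`, `Multiset.map_replicate`).
-/

open Multiset

namespace TRD

theorem gex_bind_replicate {α β : Type} (f : α → Multiset β) (a : α) : ∀ k : ℕ,
    (Multiset.replicate k a).bind f = k • f a
  | 0 => by rw [Multiset.replicate_zero, Multiset.zero_bind, zero_nsmul]
  | k + 1 => by
    rw [Multiset.replicate_succ, Multiset.cons_bind, gex_bind_replicate f a k, succ_nsmul,
      add_comm]

theorem gex_dl_zero : dl (node 0) = 0 := by
  rw [dl_node, Multiset.zero_bind]

theorem dl_star (n : ℕ) : dl (star (n + 1)) = Multiset.replicate (n + 1) (star n, 0) := by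
  unfold star
  rw [dl_node, gex_bind_replicate, gex_dl_zero, Multiset.map_zero, ch_node,
    Multiset.replicate_succ, Multiset.erase_cons_head,
    ← Multiset.nsmul_singleton (node (Multiset.replicate n (node 0)), (0 : Multiset RT))]
  rfl

theorem gex_two (k : ℕ) (s : Multiset RT) :
    Multiset.replicate (2 * (k + 1)) {cls (node (star k ::ₘ star (k + 1) ::ₘ s))} ≤
      deck (node (star (k + 1) ::ₘ star (k + 1) ::ₘ s)) := by
  have h1 : Multiset.replicate (k + 1)
      (node (star k ::ₘ star (k + 1) ::ₘ s), (0 : Multiset RT)) ≤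
      (fun y => (node ((star (k + 1) ::ₘ star (k + 1) ::ₘ s).erase y), ch y) ::ₘ
        (dl y).map (fun e => (node (e.1 ::ₘ (star (k + 1) ::ₘ star (k + 1) ::ₘ s).erase y), e.2)))
        (star (k + 1)) := by
    show _ ≤ (node ((star (k + 1) ::ₘ star (k + 1) ::ₘ s).erase (star (k + 1))),
      ch (star (k + 1))) ::ₘ (dl (star (k + 1))).map
      (fun e => (node (e.1 ::ₘ (star (k + 1) ::ₘ star (k + 1) ::ₘ s).erase (star (k + 1))), e.2))
    rw [dl_star, Multiset.map_replicate, Multiset.erase_cons_head]
    exact Multiset.le_cons_self _ _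
  have h2 : Multiset.replicate (2 * (k + 1))
      (node (star k ::ₘ star (k + 1) ::ₘ s), (0 : Multiset RT)) ≤
      dl (node (star (k + 1) ::ₘ star (k + 1) ::ₘ s)) := by
    rw [dl_node, Multiset.cons_bind, Multiset.cons_bind, ← add_assoc, two_mul,
      Multiset.replicate_add]
    exact (add_le_add h1 h1).trans (Multiset.le_add_right _ _)
  have h3 := Multiset.map_le_map (f := card0) h2
  rw [Multiset.map_replicate] at h3
  have h4 : card0 (node (star k ::ₘ star (k + 1) ::ₘ s), (0 : Multiset RT)) =
      {cls (node (star k ::ₘ star (k + 1) ::ₘ s))} := rfl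
  rw [h4] at h3
  unfold deck
  exact h3.trans (Multiset.le_cons_self _ _)

theorem exX_deck (r c : ℕ) :
    Multiset.replicate (2 * (r + 1)) {cls (exZ r c)} ≤ deck (exX r c) := by
  have h := gex_two (r + 1) (star r ::ₘ Multiset.replicate c (node 0))
  rw [Multiset.cons_swap (star (r + 1)) (star (r + 1 + 1))] at h
  refine le_trans ?_ h
  exact (Multiset.replicate_le_replicate _).2 (by omega)

theorem exY_deck (r c : ℕ) :
    Multiset.replicate (2 * (r + 1)) {cls (exZ r c)} ≤ deck (exY r c) := by
  have h := gex_two r (star (r + 2) ::ₘ Multiset.replicate c (node 0))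
  have e1 : star r ::ₘ star (r + 1) ::ₘ star (r + 2) ::ₘ Multiset.replicate c (node 0) =
      star (r + 2) ::ₘ star (r + 1) ::ₘ star r ::ₘ Multiset.replicate c (node 0) := by
    rw [Multiset.cons_swap (star (r + 1)) (star (r + 2)), Multiset.cons_swap (star r) (star (r + 2)),
      Multiset.cons_swap (star r) (star (r + 1))]
  have e2 : star (r + 1) ::ₘ star (r + 1) ::ₘ star (r + 2) ::ₘ Multiset.replicate c (node 0) =
      star (r + 2) ::ₘ star (r + 1) ::ₘ star (r + 1) ::ₘ Multiset.replicate c (node 0) := by
    rw [Multiset.cons_swap (star (r + 1)) (star (r + 2)),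
      Multiset.cons_swap (star (r + 1)) (star (r + 2))]
  rw [e1, e2] at h
  exact h

end TRD
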