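import Pool.Agent.Lib.TRD.Basic

/-! # The extremal pair, on codes -/

open Multiset

namespace TRD

noncomputable section

/-- rooted star with `n` leaves -/
def star (n : ℕ) : RT := node (Multiset.replicate n (node 0))

/-- stars with `r+2, r+2, r` leaves and `c` leaves at a common vertex -/
def exX (r c : ℕ) : RT :=
  node (star (r + 2) ::ₘ star (r + 2) ::ₘ star r ::ₘ Multiset.replicate c (node 0))

/-- stars with `r+2, r+1, r+1` leaves and `c` leaves at a common vertex -/
def exY (r c : ℕ) : RT :=
  node (star (r + 2) ::ₘ star (r + 1) ::ₘ star (r + 1) ::ₘ Multiset.replicate c (node 0))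

/-- stars with `r+2, r+1, r` leaves and `c` leaves at a common vertex -/
def exZ (r c : ℕ) : RT :=
  node (star (r + 2) ::ₘ star (r + 1) ::ₘ star r ::ₘ Multiset.replicate c (node 0))

/-- sum of the squares of the degrees of the non-root vertices, seen from above -/
def dsq : RT → ℕ := para (fun s => (card s + 1) ^ 2 + (s.map Prod.snd).sum)

theorem dsq_node (m : Multiset RT) : dsq (node m) = (card m + 1) ^ 2 + (m.map dsq).sum := by
  unfold dsq
  rw [para_node, Multiset.map_map, Multiset.card_map]
  rfl

/-- sum of the squares of the degrees -/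
def dsum (x : RT) : ℕ := (card (ch x)) ^ 2 + ((ch x).map dsq).sum

end

end TRD
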