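import Pool.Agent.Lib.TRD.GDefs

/-! # The flip of the root along the first edge -/

open Multiset

namespace TRD

/-- vertices of the re-rooted tree: the root becomes the first child, the first child the root -/
def flipFun (a b : OF) : VF (.cons (.cons b a) .nil) → VF (.cons (.cons a b) .nil)
  | none => some (Sum.inl none)
  | some (Sum.inl none) => none
  | some (Sum.inl (some (Sum.inl x))) => some (Sum.inl (some (Sum.inr x)))
  | some (Sum.inl (some (Sum.inr x))) => some (Sum.inl (some (Sum.inl x)))
  | some (Sum.inr e) => e.elim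

theorem flipFun_flipFun (a b : OF) (x : VF (.cons (.cons b a) .nil)) :
    flipFun b a (flipFun a b x) = x := by
  rcases x with _ | ⟨⟨_ | ⟨x | x⟩⟩ | e⟩
  · rfl
  · rfl
  · rfl
  · rfl
  · exact e.elim

/-- the flip as an isomorphism of graphs -/
def flipIso (a b : OF) : FG (.cons (.cons b a) .nil) ≃g FG (.cons (.cons a b) .nil) where
  toFun := flipFun a b
  invFun := flipFun b a
  left_inv := flipFun_flipFun a b
  right_inv := flipFun_flipFun b a
  map_rel_iff' := by
    intro x y
    rcases x with _ | ⟨⟨_ | ⟨x | x⟩⟩ | e⟩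
    · rcases y with _ | ⟨⟨_ | ⟨y | y⟩⟩ | e⟩
      · exact Iff.rfl
      · exact Iff.rfl
      · exact Iff.rfl
      · exact Iff.rfl
      · exact e.elim
    · rcases y with _ | ⟨⟨_ | ⟨y | y⟩⟩ | e⟩
      · exact Iff.rfl
      · exact Iff.rfl
      · exact Iff.rfl
      · exact Iff.rfl
      · exact e.elim
    · rcases y with _ | ⟨⟨_ | ⟨y | y⟩⟩ | e⟩
      · exact Iff.rfl
      · exact Iff.rfl
      · exact Iff.rfl
      · exact Iff.rfl
      · exact e.elim
    · rcases y with _ | ⟨⟨_ | ⟨y | y⟩⟩ | e⟩
      · exact Iff.rfl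
      · exact Iff.rfl
      · exact Iff.rfl
      · exact Iff.rfl
      · exact e.elim
    · exact e.elim

end TRD
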