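import Pool.Agent.Lib.TRD.GDefs

/-! # TRD.GIns (1.2 h): adding a leaf below a vertex

Induction on `f`. `cons a b`:
* `v = none`: `ins = cons (cons nil a) b`. Vertices: `none ↦ some none`; `some (inl none) ↦ none` (the new leaf);
  `some (inl (some (inl e)))`: `e.elim`; `some (inl (some (inr x))) ↦ some (some (inl x))`;
  `some (inr y) ↦ some (some (inr y))`.
* `v = some (inl x)`: `ins = cons (ins a x) b`; `φ` for `a, x`. `none ↦ some none`; `some (inl z)`: `none` if
  `φ z = none`, `some (some (inl w))` if `φ z = some w`; `some (inr y) ↦ some (some (inr y))`. Adjacency of `none` with
  `some (inl z)`: `rtp (ins a x) z ↔ ∃ w, φ z = some w ∧ rtp a w`.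
* `v = some (inr x)`: `ins = cons a (ins b x)`: analogous.
The inverse maps by the same cases (or show bijectivity). The adjacency of `leafAdd G u`: `none - some y` iff `y = u`.
-/

open Multiset

namespace TRD

namespace GInsAux

/-- case of the first root -/
def e0 (a b : OF) : VF (ins (.cons a b) none) ≃ Option (VF (.cons a b)) where
  toFun := fun z => match z with
    | none => some none
    | some (Sum.inl none) => none
    | some (Sum.inl (some (Sum.inl e))) => e.elim
    | some (Sum.inl (some (Sum.inr x))) => some (some (Sum.inl x))
    | some (Sum.inr y) => some (some (Sum.inr y))
  invFun := fun z => match z with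
    | none => some (Sum.inl none)
    | some none => none
    | some (some (Sum.inl x)) => some (Sum.inl (some (Sum.inr x)))
    | some (some (Sum.inr y)) => some (Sum.inr y)
  left_inv := by
    rintro (_ | ((_ | (e | x)) | y))
    · rfl
    · rfl
    · exact e.elim
    · rfl
    · rfl
  right_inv := by
    rintro (_ | (_ | (x | y))) <;> rfl

/-- case of a vertex below the first root -/
def e1 (a b : OF) (x : VF a) (φ : VF (ins a x) ≃ Option (VF a)) :
    VF (ins (.cons a b) (some (Sum.inl x))) ≃ Option (VF (.cons a b)) where
  toFun := fun z => match z with
    | none => some none
    | some (Sum.inl z) => (φ z).map (fun w => some (Sum.inl w))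
    | some (Sum.inr y) => some (some (Sum.inr y))
  invFun := fun z => match z with
    | none => some (Sum.inl (φ.symm none))
    | some none => none
    | some (some (Sum.inl x)) => some (Sum.inl (φ.symm (some x)))
    | some (some (Sum.inr y)) => some (Sum.inr y)
  left_inv := by
    rintro (_ | (z | y))
    · rfl
    · cases h : φ z with
      | none =>
        simp only [h, Option.map_none]
        rw [← h, φ.symm_apply_apply]
      | some w =>
        simp only [h, Option.map_some]
        rw [← h, φ.symm_apply_apply]
    · rfl
  right_inv := by
    rintro (_ | (_ | (x | y)))
    · simp
    · rfl
    · simp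
    · rfl

/-- case of a vertex of the rest -/
def e2 (a b : OF) (x : VF b) (φ : VF (ins b x) ≃ Option (VF b)) :
    VF (ins (.cons a b) (some (Sum.inr x))) ≃ Option (VF (.cons a b)) where
  toFun := fun z => match z with
    | none => some none
    | some (Sum.inr z) => (φ z).map (fun w => some (Sum.inr w))
    | some (Sum.inl y) => some (some (Sum.inl y))
  invFun := fun z => match z with
    | none => some (Sum.inr (φ.symm none))
    | some none => none
    | some (some (Sum.inr x)) => some (Sum.inr (φ.symm (some x)))
    | some (some (Sum.inl y)) => some (Sum.inl y)
  left_inv := by
    rintro (_ | (y | z))
    · rfl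
    · rfl
    · cases h : φ z with
      | none =>
        simp only [h, Option.map_none]
        rw [← h, φ.symm_apply_apply]
      | some w =>
        simp only [h, Option.map_some]
        rw [← h, φ.symm_apply_apply]
  right_inv := by
    rintro (_ | (_ | (x | y)))
    · simp
    · rfl
    · rfl
    · simp

end GInsAux

open GInsAux

theorem ins_iso (f : OF) (v : VF f) : ∃ φ : FG (ins f v) ≃g leafAdd (FG f) v,
    ∀ z, rtp (ins f v) z ↔ ∃ x, φ z = some x ∧ rtp f x := by
  induction f with
  | nil => exact v.elim
  | cons a b iha ihb =>
    rcases v with _ | (x | x)
    · refine ⟨⟨e0 a b, ?_⟩, ?_⟩
      · rintro (_ | ((_ | (e | x)) | y)) (_ | ((_ | (e' | x')) | y'))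
        all_goals first
          | exact e.elim
          | exact e'.elim
          | exact Iff.rfl
          | (constructor
             · intro h
               first | exact (Option.some_ne_none _ h).elim | exact (Option.some_ne_none _ h.symm).elim | exact h.elim | trivial
             · intro h
               first | exact h.elim | rfl | trivial)
      · rintro (_ | ((_ | (e | x)) | y))
        · exact ⟨fun _ => ⟨none, rfl, trivial⟩, fun _ => trivial⟩
        · refine ⟨fun h => h.elim, ?_⟩
          rintro ⟨x, h1, h2⟩
          exact (Option.some_ne_none _ h1.symm).elim
        · exact e.elim
        · refine ⟨fun h => h.elim, ?_⟩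
          rintro ⟨x', h1, h2⟩
          have h3 : some (Sum.inl x) = x' := Option.some.inj h1
          rw [← h3] at h2
          exact h2
        · constructor
          · intro h
            exact ⟨some (Sum.inr y), rfl, h⟩
          · rintro ⟨x', h1, h2⟩
            have h3 : some (Sum.inr y) = x' := Option.some.inj h1
            rw [← h3] at h2
            exact h2
    · obtain ⟨φ, hφ⟩ := iha x
      have hA : ∀ z z', (leafAdd (FG a) x).Adj (φ z) (φ z') ↔ FA (ins a x) z z' :=
        fun z z' => φ.map_rel_iff
      have hE : ∀ z, e1 a b x φ.toEquiv (some (Sum.inl z)) = (φ z).map (fun w => some (Sum.inl w)) :=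
        fun _ => rfl
      refine ⟨⟨e1 a b x φ.toEquiv, ?_⟩, ?_⟩
      · rintro (_ | (z | y)) (_ | (z' | y'))
        · exact Iff.rfl
        · rw [hE]
          show _ ↔ rtp (ins a x) z'
          rw [hφ z']
          cases h : φ z' with
          | none =>
            constructor
            · intro h2
              have h2' : (none : Option (VF a ⊕ VF b)) = some (Sum.inl x) := h2
              exact (Option.some_ne_none _ h2'.symm).elim
            · rintro ⟨w, h2, _⟩
              exact (Option.some_ne_none _ h2.symm).elim
          | some w =>
            constructor
            · intro h2
              exact ⟨w, rfl, h2⟩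
            · rintro ⟨w', h2, h3⟩
              rw [← Option.some.inj h2] at h3
              exact h3
        · exact Iff.rfl
        · rw [hE]
          show _ ↔ rtp (ins a x) z
          rw [hφ z]
          cases h : φ z with
          | none =>
            constructor
            · intro h2
              have h2' : (none : Option (VF a ⊕ VF b)) = some (Sum.inl x) := h2
              exact (Option.some_ne_none _ h2'.symm).elim
            · rintro ⟨w, h2, _⟩
              exact (Option.some_ne_none _ h2.symm).elim
          | some w =>
            constructor
            · intro h2
              exact ⟨w, rfl, h2⟩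
            · rintro ⟨w', h2, h3⟩
              rw [← Option.some.inj h2] at h3
              exact h3
        · rw [hE, hE]
          show _ ↔ FA (ins a x) z z'
          rw [← hA z z']
          cases h : φ z with
          | none =>
            cases h' : φ z' with
            | none => exact Iff.rfl
            | some w' =>
              show some (Sum.inl w') = some (Sum.inl x) ↔ w' = x
              simp
          | some w =>
            cases h' : φ z' with
            | none =>
              show some (Sum.inl w) = some (Sum.inl x) ↔ w = x
              simp
            | some w' => exact Iff.rfl
        · rw [hE]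
          show _ ↔ False
          cases h : φ z with
          | none =>
            show some (Sum.inr y') = some (Sum.inl x) ↔ False
            simp
          | some w => exact Iff.rfl
        · exact Iff.rfl
        · rw [hE]
          show _ ↔ False
          cases h : φ z' with
          | none =>
            show some (Sum.inr y) = some (Sum.inl x) ↔ False
            simp
          | some w => exact Iff.rfl
        · exact Iff.rfl
      · rintro (_ | (z | y))
        · exact ⟨fun _ => ⟨none, rfl, trivial⟩, fun _ => trivial⟩
        · refine ⟨fun h => h.elim, ?_⟩
          rintro ⟨x', h1, h2⟩
          have h1' : (φ z).map (fun w => (some (Sum.inl w) : VF (.cons a b))) = some x' := h1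
          cases h : φ z with
          | none =>
            rw [h] at h1'
            exact (Option.some_ne_none _ h1'.symm).elim
          | some w =>
            rw [h] at h1'
            have h3 : some (Sum.inl w) = x' := Option.some.inj h1'
            rw [← h3] at h2
            exact h2
        · constructor
          · intro h
            exact ⟨some (Sum.inr y), rfl, h⟩
          · rintro ⟨x', h1, h2⟩
            have h3 : some (Sum.inr y) = x' := Option.some.inj h1
            rw [← h3] at h2
            exact h2
    · obtain ⟨φ, hφ⟩ := ihb x
      have hA : ∀ z z', (leafAdd (FG b) x).Adj (φ z) (φ z') ↔ FA (ins b x) z z' :=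
        fun z z' => φ.map_rel_iff
      have hE : ∀ z, e2 a b x φ.toEquiv (some (Sum.inr z)) = (φ z).map (fun w => some (Sum.inr w)) :=
        fun _ => rfl
      refine ⟨⟨e2 a b x φ.toEquiv, ?_⟩, ?_⟩
      · rintro (_ | (y | z)) (_ | (y' | z'))
        · exact Iff.rfl
        · exact Iff.rfl
        · rw [hE]
          show _ ↔ False
          cases h : φ z' with
          | none =>
            show none = some (Sum.inr x) ↔ False
            simp
          | some w => exact Iff.rfl
        · exact Iff.rfl
        · exact Iff.rfl
        · rw [hE]
          show _ ↔ False
          cases h : φ z' with
          | none =>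
            show some (Sum.inl y) = some (Sum.inr x) ↔ False
            simp
          | some w => exact Iff.rfl
        · rw [hE]
          show _ ↔ False
          cases h : φ z with
          | none =>
            show none = some (Sum.inr x) ↔ False
            simp
          | some w => exact Iff.rfl
        · rw [hE]
          show _ ↔ False
          cases h : φ z with
          | none =>
            show some (Sum.inl y') = some (Sum.inr x) ↔ False
            simp
          | some w => exact Iff.rfl
        · rw [hE, hE]
          show _ ↔ FA (ins b x) z z'
          rw [← hA z z']
          cases h : φ z with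
          | none =>
            cases h' : φ z' with
            | none => exact Iff.rfl
            | some w' =>
              show some (Sum.inr w') = some (Sum.inr x) ↔ w' = x
              simp
          | some w =>
            cases h' : φ z' with
            | none =>
              show some (Sum.inr w) = some (Sum.inr x) ↔ w = x
              simp
            | some w' => exact Iff.rfl
      · rintro (_ | (y | z))
        · exact ⟨fun _ => ⟨none, rfl, trivial⟩, fun _ => trivial⟩
        · refine ⟨fun h => h.elim, ?_⟩
          rintro ⟨x', h1, h2⟩
          have h3 : some (Sum.inl y) = x' := Option.some.inj h1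
          rw [← h3] at h2
          exact h2
        · show rtp (ins b x) z ↔ _
          rw [hφ z]
          constructor
          · rintro ⟨w, h1, h2⟩
            refine ⟨some (Sum.inr w), ?_, h2⟩
            show (φ z).map (fun w => (some (Sum.inr w) : VF (.cons a b))) = _
            rw [h1]
            rfl
          · rintro ⟨x', h1, h2⟩
            have h1' : (φ z).map (fun w => (some (Sum.inr w) : VF (.cons a b))) = some x' := h1
            cases h : φ z with
            | none =>
              rw [h] at h1'
              exact (Option.some_ne_none _ h1'.symm).elim
            | some w =>
              rw [h] at h1'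
              have h3 : some (Sum.inr w) = x' := Option.some.inj h1'
              rw [← h3] at h2
              exact ⟨w, rfl, h2⟩

end TRD
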