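import Pool.Agent.Lib.TRD.GReach

/-! # TRD.GTree (1.5 h): the graph of an ordered tree is a tree

`acyclic_of_height`: let `c` be a cycle at `v₀`. Choose a vertex `v` of `c.support` with `h v` maximal, rotate `c` to `v`
(`SimpleGraph.Walk.IsCycle.rotate`, `SimpleGraph.Walk.mem_support_rotate_iff` or similar). `c.snd` and `c.penultimate` are
neighbours of `v` in the support, so `h` is `≤ h v` and `≠ h v` there (`h1`), hence equal by `h2`, contradiction to
`SimpleGraph.Walk.IsCycle.snd_ne_penultimate`.
`dep_adj`: in `FG f` adjacent vertices have depths differing by one; `dep_root`: `dep f x = 0 ↔ rtp f x`; `dep_parent`: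
two neighbours of `v` of smaller depth are equal. All three by induction on `f` and cases on the vertices.
`isTree_FG`: connected by `reach_none a nil` (all vertices are reachable from `none`), acyclic by `acyclic_of_height`
with `h = dep _`.
-/

open Multiset

namespace TRD

theorem acyclic_of_height {V : Type} (G : SimpleGraph V) (h : V → ℕ)
    (h1 : ∀ u v, G.Adj u v → h u ≠ h v)
    (h2 : ∀ v u w, G.Adj v u → G.Adj v w → h u < h v → h w < h v → u = w) : G.IsAcyclic := by
  classical
  intro v₀ c hc
  obtain ⟨v, hv, hmax⟩ := c.support.toFinset.exists_max_image h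
    ⟨v₀, List.mem_toFinset.2 c.start_mem_support⟩
  have hv' : v ∈ c.support := List.mem_toFinset.1 hv
  have hmax' : ∀ u ∈ c.support, h u ≤ h v := fun u hu => hmax u (List.mem_toFinset.2 hu)
  have hcc : (c.rotate v hv').IsCycle := hc.rotate hv'
  have hn : ¬ (c.rotate v hv').Nil := hcc.not_nil
  have a1 := SimpleGraph.Walk.adj_snd hn
  have a2 := (SimpleGraph.Walk.adj_penultimate hn).symm
  have m1 : (c.rotate v hv').snd ∈ c.support := by
    have := (c.rotate v hv').getVert_mem_support 1
    rwa [SimpleGraph.Walk.mem_support_rotate_iff] at this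
  have m2 : (c.rotate v hv').penultimate ∈ c.support := by
    have := (c.rotate v hv').getVert_mem_support ((c.rotate v hv').length - 1)
    rwa [SimpleGraph.Walk.mem_support_rotate_iff] at this
  have b1 : h (c.rotate v hv').snd < h v :=
    lt_of_le_of_ne (hmax' _ m1) (fun e => h1 _ _ a1 e.symm)
  have b2 : h (c.rotate v hv').penultimate < h v :=
    lt_of_le_of_ne (hmax' _ m2) (fun e => h1 _ _ a2 e.symm)
  exact hcc.snd_ne_penultimate (h2 v _ _ a1 a2 b1 b2)

theorem dep_root (f : OF) (x : VF f) : dep f x = 0 ↔ rtp f x := by
  induction f with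
  | nil => exact x.elim
  | cons a b iha ihb =>
    rcases x with _ | x | x
    · exact ⟨fun _ => trivial, fun _ => rfl⟩
    · exact ⟨fun h => absurd h (Nat.succ_ne_zero _), fun h => h.elim⟩
    · exact ihb x

theorem dep_adj (f : OF) (x y : VF f) (h : (FG f).Adj x y) : dep f x = dep f y + 1 ∨
    dep f y = dep f x + 1 := by
  induction f with
  | nil => exact x.elim
  | cons a b iha ihb =>
    rcases x with _ | x | x <;> rcases y with _ | y | y
    · exact h.elim
    · right
      have h' : dep a y = 0 := (dep_root a y).2 h
      show dep a y + 1 = 0 + 1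
      rw [h']
    · exact h.elim
    · left
      have h' : dep a x = 0 := (dep_root a x).2 h
      show dep a x + 1 = 0 + 1
      rw [h']
    · rcases iha x y h with h' | h'
      · left
        show dep a x + 1 = dep a y + 1 + 1
        rw [h']
      · right
        show dep a y + 1 = dep a x + 1 + 1
        rw [h']
    · exact h.elim
    · exact h.elim
    · exact h.elim
    · exact ihb x y h

theorem dep_parent (f : OF) (v u w : VF f) (hu : (FG f).Adj v u) (hw : (FG f).Adj v w)
    (h1 : dep f u < dep f v) (h2 : dep f w < dep f v) : u = w := by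
  induction f with
  | nil => exact v.elim
  | cons a b iha ihb =>
    rcases v with _ | v | v
    · exact absurd h1 (Nat.not_lt_zero _)
    · have hz : ∀ y : VF a, rtp a v → ¬ dep a y + 1 < dep a v + 1 := by
        intro y hr hlt
        have : dep a v = 0 := (dep_root a v).2 hr
        omega
      rcases u with _ | u | u
      · rcases w with _ | w | w
        · rfl
        · exact absurd h2 (hz w hu)
        · exact hw.elim
      · rcases w with _ | w | w
        · exact absurd h1 (hz u hw)
        · rw [iha v u w hu hw (Nat.lt_of_succ_lt_succ h1) (Nat.lt_of_succ_lt_succ h2)]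
        · exact hw.elim
      · exact hu.elim
    · rcases u with _ | u | u
      · exact hu.elim
      · exact hu.elim
      · rcases w with _ | w | w
        · exact hw.elim
        · exact hw.elim
        · rw [ihb v u w hu hw h1 h2]

theorem isTree_FG (a : OF) : (FG (.cons a .nil)).IsTree := by
  have hr : ∀ x : VF (.cons a .nil), (FG (.cons a .nil)).Reachable none x := by
    intro x
    rw [reach_none]
    rcases x with _ | x | x
    · exact Or.inl rfl
    · exact Or.inr ⟨x, rfl⟩
    · exact x.elim
  refine ⟨?_, acyclic_of_height _ (dep _) ?_ (dep_parent _)⟩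
  · rw [SimpleGraph.connected_iff_exists_forall_reachable]
    exact ⟨none, hr⟩
  · intro u v huv e
    rcases dep_adj _ u v huv with h | h <;> omega

end TRD
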