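import Pool.Agent.Lib.TRD.GCard
import Pool.Agent.Lib.TRD.GDeckF
import Pool.Agent.Lib.TRD.GTree
import Pool.Agent.Lib.TRD.GExCls
import Pool.Agent.Lib.TRD.GExDeck

/-! # TRD.GLower (1.2 h): two nonisomorphic trees with `2 ⌊(p-5)/3⌋` common cards

`exists_graph`: for a code `x` of size `p` choose `a` with `fc a = ch x` (`fc_surj`), so `node (fc a) = x`;
`Fintype.card (VF (cons a nil)) = p` (`card_VF`), an equivalence `e : Fin p ≃ VF (cons a nil)` (`Fintype.equivFinOfCardEq`),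
`T := (FG (cons a nil)).comap e`, `SimpleGraph.Iso.comap e _ : T ≃g FG (cons a nil)`; `T.IsTree` by `isTree_FG` and
`SimpleGraph.Iso.isTree_iff`.
`graph_lower`: `r = (p-8)/3`, `c = (p-8)%3`, so `3 * r + 8 + c = p` and `(p-5)/3 = r + 1`. Let `T, ψ, a` for `exX r c` and
`S, χ, b` for `exY r c`. An isomorphism `S ≃g T` would give `FG (cons b nil) ≃g FG (cons a nil)`, `cls_of_tiso`, contradiction to
`exX_ne_exY`. Let `E = replicate (2 (r+1)) {cls (exZ r c)}`. `E ≤ deck (exX r c) = univ.val.map (ccd (cons a nil)) =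
univ.val.map (fun v => ccd (cons a nil) (ψ v))` (`deck_eq`, reindexing by `ψ.toEquiv`), `le_map_exists`: `s ≤ univ.val` with
`s.map (fun v => ccd _ (ψ v)) = E`; the same with `s'` for `S`. `D := s.map (gcard T)`; `s.map (gcard T) = s'.map (gcard S)`
by `map_transfer` and `gcard_iff_cc`; `D ≤ gdeck T`, `D ≤ gdeck S` (`Multiset.map_le_map`), `card D = card s = card E`.
-/

open Multiset

namespace TRD

theorem exists_graph (p : ℕ) (x : RT) (hx : size x = p) :
    ∃ (a : OF) (T : SimpleGraph (Fin p)), node (fc a) = x ∧ T.IsTree ∧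
      Nonempty (T ≃g FG (.cons a .nil)) := by
  obtain ⟨a, ha⟩ := fc_surj (ch x)
  have hax : node (fc a) = x := by rw [ha, node_ch]
  have hcard : Fintype.card (VF (.cons a .nil)) = p := by
    rw [card_VF, fc_cons, sz_cons, hax, hx, fc_nil, sz_zero, Nat.add_zero]
  let e : Fin p ≃ VF (.cons a .nil) := (Fintype.equivFinOfCardEq hcard).symm
  refine ⟨a, (FG (.cons a .nil)).comap e, hax, ?_, ⟨SimpleGraph.Iso.comap e _⟩⟩
  exact (SimpleGraph.Iso.comap e (FG (.cons a .nil))).isTree_iff.mpr (isTree_FG a)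

theorem univ_map_iso {V : Type} [Fintype V] {T : SimpleGraph V} {f : OF} (ψ : T ≃g FG f) :
    (Finset.univ : Finset (VF f)).val.map (ccd f) =
      (Finset.univ : Finset V).val.map (fun v => ccd f (ψ v)) := by
  have h := Finset.map_univ_equiv ψ.toEquiv
  have h2 : (Finset.univ : Finset (VF f)).val = (Finset.univ : Finset V).val.map ψ := by
    rw [← h]
    rfl
  rw [h2, Multiset.map_map]
  rfl

theorem sub_of_deck {p : ℕ} {T : SimpleGraph (Fin p)} {a : OF} (ψ : T ≃g FG (.cons a .nil))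
    (E : Multiset (Multiset Cls)) (hE : E ≤ deck (node (fc a))) :
    ∃ s ≤ (Finset.univ : Finset (Fin p)).val, s.map (fun v => ccd (.cons a .nil) (ψ v)) = E := by
  rw [deck_eq, univ_map_iso ψ] at hE
  exact le_map_exists _ _ _ hE

theorem graph_lower (p : ℕ) (hp : 8 ≤ p) : ∃ T S : SimpleGraph (Fin p), T.IsTree ∧ S.IsTree ∧
    ¬ Nonempty (S ≃g T) ∧
    ∃ D : Multiset GCls, D ≤ gdeck T ∧ D ≤ gdeck S ∧ Multiset.card D = 2 * ((p - 5) / 3) := by
  obtain ⟨r, c, h1, h2⟩ : ∃ r c : ℕ, 3 * r + 8 + c = p ∧ (p - 5) / 3 = r + 1 :=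
    ⟨(p - 8) / 3, (p - 8) % 3, by omega, by omega⟩
  obtain ⟨a, T, ha, hT, ⟨ψ⟩⟩ := exists_graph p (exX r c) ((size_exX r c).trans h1)
  obtain ⟨b, S, hb, hS, ⟨χ⟩⟩ := exists_graph p (exY r c) ((size_exY r c).trans h1)
  refine ⟨T, S, hT, hS, ?_, ?_⟩
  · rintro ⟨θ⟩
    have h3 := cls_of_tiso (a := a) (b := b) ⟨(ψ.symm.trans θ.symm).trans χ⟩
    rw [ha, hb] at h3
    exact exX_ne_exY r c h3
  · obtain ⟨s, hs1, hs2⟩ := sub_of_deck ψ (Multiset.replicate (2 * (r + 1)) {cls (exZ r c)})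
      (by rw [ha]; exact exX_deck r c)
    obtain ⟨s', hs1', hs2'⟩ := sub_of_deck χ (Multiset.replicate (2 * (r + 1)) {cls (exZ r c)})
      (by rw [hb]; exact exY_deck r c)
    have h4 : s.map (gcard T) = s'.map (gcard S) :=
      map_transfer s s' (fun v => ccd (.cons a .nil) (ψ v)) (fun v => ccd (.cons b .nil) (χ v))
        (gcard T) (gcard S) (fun v w h => (gcard_iff_cc ψ χ v w).mpr h) (hs2.trans hs2'.symm)
    refine ⟨s.map (gcard T), Multiset.map_le_map hs1, ?_, ?_⟩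
    · rw [h4]
      exact Multiset.map_le_map hs1'
    · have h5 := congrArg Multiset.card hs2
      rw [Multiset.card_map, Multiset.card_replicate] at h5
      rw [Multiset.card_map, h5, h2]

end TRD
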