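import Pool.Agent.Lib.TRD.GUpper
import Pool.Agent.Lib.TRD.GLower

/-! # Assembly of the graph side -/

open Multiset

namespace TRD

/-- `d(p)` from the bound for codes -/
theorem graph_main (p : ℕ) (hp : 8 ≤ p)
    (hcode : ∀ x y : RT, size x = p → size y = p → cls x ≠ cls y →
      ∀ D : Multiset (Multiset Cls), D ≤ deck x → D ≤ deck y →
        Multiset.card D ≤ 2 * ((p - 5) / 3)) :
    IsGreatest {k : ℕ | k ≤ p - 1 ∧ ∀ T : SimpleGraph (Fin p), T.IsTree → Recon k T}
      (p - 1 - 2 * ((p - 5) / 3)) := by
  constructor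
  · refine ⟨by omega, ?_⟩
    intro T hT D hD S hS hD'
    by_contra hn
    have h := graph_upper p _ hcode T S hT hS hn D hD.1 hD'.1
    have h2 := hD.2
    omega
  · intro k hk
    obtain ⟨hk1, hk2⟩ := hk
    by_contra hlt
    obtain ⟨T, S, hT, hS, hn, D, hD, hD', hc⟩ := graph_lower p hp
    have hex : ∃ D' ≤ D, Multiset.card D' = p - k := by
      induction D using Quotient.inductionOn with
      | h l =>
        refine ⟨((l.take (p - k) : List GCls) : Multiset GCls), ?_, ?_⟩
        · exact (List.take_sublist _ _).subperm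
        · have hc' : l.length = 2 * ((p - 5) / 3) := hc
          rw [Multiset.coe_card, List.length_take, hc']
          omega
    obtain ⟨D', hle, hcard⟩ := hex
    exact hn (hk2 T hT D' ⟨hle.trans hD, hcard⟩ S hS ⟨hle.trans hD', hcard⟩)

end TRD
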