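import Pool.Agent.Lib.TRD.GDefs

/-! # TRD.GPerm (1.5 h): forests with equal codes are isomorphic (roots preserved)

`RIso.cons`: given `φ : FG a ≃g FG a'`, `ψ : FG b ≃g FG b'` preserving the roots, use the equivalence
`Option (VF a ⊕ VF b) ≃ Option (VF a' ⊕ VF b')` = `Equiv.optionCongr (Equiv.sumCongr φ.toEquiv ψ.toEquiv)`;
check `Adj` by cases on both vertices (`none`, `some (inl _)`, `some (inr _)`): `adj_none_inl`, `adj_inl_inl`, ...
`RIso.swap`: the map `none ↦ some (inr none)`, `some (inl x) ↦ some (inr (some (inl x)))`,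
`some (inr none) ↦ none`, `some (inr (some (inl y))) ↦ some (inl y)`,
`some (inr (some (inr z))) ↦ some (inr (some (inr z)))`; its inverse is the same map for `(b, a, c)`.
`fc_surj`: induction on `sz m` (`sz_cons`, `size_eq`, `size_pos`): `m = 0` is `nil`; `m = y ::ₘ m'`:
take `f₁` with `fc f₁ = ch y` and `f₂` with `fc f₂ = m'`, `cons f₁ f₂` (`node_ch`).
`riso_of_fc`: induction on `sz (fc f)`. If `f = nil`, then `fc g = 0` and `g = nil`. If `f = cons a b`,
`g = cons a' b'` (`fc g ≠ 0`), use `Multiset.cons_eq_cons`: either `node (fc a) = node (fc a')`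
(`node_inj`) and `fc b = fc b'`: induction hypothesis twice and `RIso.cons`; or
`fc b = node (fc a') ::ₘ t`, `fc b' = node (fc a) ::ₘ t`: choose `c` with `fc c = t`; then
`RIso b (cons a' c)`, `RIso b' (cons a c)` by induction, so `cons a b ~ cons a (cons a' c) ~
cons a' (cons a c) ~ cons a' b'` (`RIso.cons`, `RIso.swap`, `RIso.trans`, `RIso.symm`).
-/

open Multiset

namespace TRD

theorem RIso.cons {a a' b b' : OF} (ha : RIso a a') (hb : RIso b b') :
    RIso (.cons a b) (.cons a' b') := by
  obtain ⟨φ, hφ⟩ := ha
  obtain ⟨ψ, hψ⟩ := hb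
  let e : VF (.cons a b) ≃ VF (.cons a' b') :=
    Equiv.optionCongr (Equiv.sumCongr φ.toEquiv ψ.toEquiv)
  refine ⟨⟨e, ?_⟩, ?_⟩
  · intro x y
    rcases x with _ | x | x
    · rcases y with _ | y | y
      · exact Iff.rfl
      · exact hφ y
      · exact Iff.rfl
    · rcases y with _ | y | y
      · exact hφ x
      · exact φ.map_rel_iff'
      · exact Iff.rfl
    · rcases y with _ | y | y
      · exact Iff.rfl
      · exact Iff.rfl
      · exact ψ.map_rel_iff'
  · intro x
    rcases x with _ | x | x
    · exact Iff.rfl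
    · exact Iff.rfl
    · exact hψ x

/-- swapping the first two trees -/
def gpSwap (a b c : OF) : VF (.cons a (.cons b c)) → VF (.cons b (.cons a c))
  | none => some (Sum.inr none)
  | some (Sum.inl x) => some (Sum.inr (some (Sum.inl x)))
  | some (Sum.inr none) => none
  | some (Sum.inr (some (Sum.inl y))) => some (Sum.inl y)
  | some (Sum.inr (some (Sum.inr z))) => some (Sum.inr (some (Sum.inr z)))

theorem gpSwap_gpSwap (a b c : OF) (x : VF (.cons a (.cons b c))) :
    gpSwap b a c (gpSwap a b c x) = x := by
  rcases x with _ | x | _ | x | x <;> rfl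

theorem RIso.swap (a b c : OF) : RIso (.cons a (.cons b c)) (.cons b (.cons a c)) := by
  refine ⟨⟨⟨gpSwap a b c, gpSwap b a c, gpSwap_gpSwap a b c, gpSwap_gpSwap b a c⟩, ?_⟩, ?_⟩
  · intro x y
    rcases x with _ | x | _ | x | x <;> rcases y with _ | y | _ | y | y <;> exact Iff.rfl
  · intro x
    rcases x with _ | x | _ | x | x <;> exact Iff.rfl

theorem fc_surj (m : Multiset RT) : ∃ f : OF, fc f = m := by
  have key : ∀ n : ℕ, ∀ m : Multiset RT, sz m = n → ∃ f : OF, fc f = m := by
    intro n
    induction n using Nat.strong_induction_on with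
    | _ n ih =>
      intro m hm
      by_cases h0 : m = 0
      · exact ⟨.nil, by rw [h0]; rfl⟩
      · obtain ⟨y, hy⟩ := Multiset.exists_mem_of_ne_zero h0
        obtain ⟨t, rfl⟩ := Multiset.exists_cons_of_mem hy
        rw [sz_cons] at hm
        have h1 := size_eq y
        have h2 := size_pos y
        obtain ⟨f₁, hf₁⟩ := ih (sz (ch y)) (by omega) (ch y) rfl
        obtain ⟨f₂, hf₂⟩ := ih (sz t) (by omega) t rfl
        exact ⟨.cons f₁ f₂, by rw [fc_cons, hf₁, hf₂, node_ch]⟩
  exact key _ m rfl

theorem fc_eq_zero {f : OF} (h : fc f = 0) : f = .nil := by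
  cases f with
  | nil => rfl
  | cons a b => rw [fc_cons] at h; exact absurd h (Multiset.cons_ne_zero)

theorem riso_of_fc {f g : OF} (h : fc f = fc g) : RIso f g := by
  have key : ∀ n : ℕ, ∀ f g : OF, sz (fc f) = n → fc f = fc g → RIso f g := by
    intro n
    induction n using Nat.strong_induction_on with
    | _ n ih =>
      intro f g hn hfg
      cases f with
      | nil =>
        rw [fc_nil] at hfg
        rw [fc_eq_zero hfg.symm]
        exact RIso.refl _
      | cons a b =>
        cases g with
        | nil => rw [fc_nil] at hfg; rw [fc_eq_zero hfg]; exact RIso.refl _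
        | cons a' b' =>
          rw [fc_cons] at hn
          rw [sz_cons, size_node] at hn
          have hfg' := hfg
          rw [fc_cons, fc_cons] at hfg
          rcases Multiset.cons_eq_cons.1 hfg with ⟨h1, h2⟩ | ⟨_, t, h1, h2⟩
          · exact RIso.cons (ih _ (by omega) a a' rfl (node_inj h1))
              (ih _ (by omega) b b' rfl h2)
          · obtain ⟨c, rfl⟩ := fc_surj t
            have hs : sz (fc a') + sz (fc b') = sz (fc a) + sz (fc b) := by
              have := congrArg sz hfg
              rw [sz_cons, sz_cons, size_node, size_node] at this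
              omega
            have r1 : RIso b (.cons a' c) := ih _ (by omega) b _ rfl h1
            have r2 : RIso b' (.cons a c) := ih _ (by omega) b' _ rfl h2
            exact ((RIso.cons (RIso.refl a) r1).trans (RIso.swap a a' c)).trans
              (RIso.cons (RIso.refl a') r2.symm)
  exact key _ f g rfl h

end TRD
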