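import Pool.Agent.Lib.TRD.GDefs

/-! # TRD.GReach (1 h): reachability in forests

`reach_root`: induction on `f`. `cons a b`: `x = none`: itself. `x = some (inl y)`: `reach_root a y` gives a root
`r` of `a` with `(FG a).Reachable r y`; map the walk by the homomorphism `y ↦ some (inl y)`
(`SimpleGraph.Reachable.map`, or `Reachable.elim` and `Walk.map`) and `none` is adjacent to `some (inl r)`.
`x = some (inr y)`: map the walk by `y ↦ some (inr y)`.
`reach_none`: `←` from the argument above. `→`: the set `{none} ∪ range (some ∘ inl)` is closed under adjacency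
(cases), induction on the walk.
-/

open Multiset

namespace TRD

namespace GReachAux

def homL (a b : OF) : FG a →g FG (.cons a b) where
  toFun := fun y => some (Sum.inl y)
  map_rel' := fun h => h

def homR (a b : OF) : FG b →g FG (.cons a b) where
  toFun := fun y => some (Sum.inr y)
  map_rel' := fun h => h

theorem reachL {a b : OF} {x y : VF a} (h : (FG a).Reachable x y) :
    (FG (.cons a b)).Reachable (some (Sum.inl x)) (some (Sum.inl y)) :=
  h.map (homL a b)

theorem reachR {a b : OF} {x y : VF b} (h : (FG b).Reachable x y) :
    (FG (.cons a b)).Reachable (some (Sum.inr x)) (some (Sum.inr y)) :=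
  h.map (homR a b)

theorem closed {a b : OF} {x y : VF (.cons a b)} (w : (FG (.cons a b)).Walk x y)
    (hx : x = none ∨ ∃ z : VF a, x = some (Sum.inl z)) :
    y = none ∨ ∃ z : VF a, y = some (Sum.inl z) := by
  induction w with
  | nil => exact hx
  | @cons u v t h p ih =>
    apply ih
    rcases v with _ | (v | v)
    · exact Or.inl rfl
    · exact Or.inr ⟨v, rfl⟩
    · exfalso
      rcases hx with rfl | ⟨z, rfl⟩
      · exact h
      · exact h

end GReachAux

open GReachAux

theorem reach_root (f : OF) (x : VF f) : ∃ r, rtp f r ∧ (FG f).Reachable r x := by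
  induction f with
  | nil => exact x.elim
  | cons a b iha ihb =>
    rcases x with _ | (y | y)
    · exact ⟨none, trivial, SimpleGraph.Reachable.refl _⟩
    · obtain ⟨r, hr, hw⟩ := iha y
      refine ⟨none, trivial, ?_⟩
      have h1 : (FG (.cons a b)).Adj none (some (Sum.inl r)) := hr
      exact h1.reachable.trans (reachL hw)
    · obtain ⟨r, hr, hw⟩ := ihb y
      exact ⟨some (Sum.inr r), hr, reachR hw⟩

theorem reach_none (a b : OF) (x : VF (.cons a b)) :
    (FG (.cons a b)).Reachable none x ↔ (x = none ∨ ∃ y : VF a, x = some (Sum.inl y)) := by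
  constructor
  · rintro ⟨w⟩
    exact closed w (Or.inl rfl)
  · rintro (rfl | ⟨y, rfl⟩)
    · exact SimpleGraph.Reachable.refl _
    · obtain ⟨r, hr, hw⟩ := reach_root a y
      have h1 : (FG (.cons a b)).Adj none (some (Sum.inl r)) := hr
      exact h1.reachable.trans (reachL hw)

end TRD
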