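import Pool.Agent.Lib.TRD.GDefs

/-! # TRD.GReord (1.5 h): bringing the tree of a vertex to the front

Induction on `f`. `f = nil`: `v.elim`. `f = cons a b`: if `v = none` or `v = some (inl x)` take `a, b` and the
identity. If `v = some (inr x)`: the induction hypothesis for `b, x` gives `a', b'`, `χ : FG b ≃g FG (cons a' b')`.
Take the forest `cons a' (cons a b')` and the map
`none ↦ some (inr none)`, `some (inl y) ↦ some (inr (some (inl y)))`,
`some (inr z)`: `none` if `χ z = none`, `some (inl w)` if `χ z = some (inl w)`,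
`some (inr (some (inr w)))` if `χ z = some (inr w)`.
(= the identity on `a` and `χ` on `b`, followed by the swap of the first two trees.) Codes:
`fc (cons a' (cons a b')) = node (fc a') ::ₘ node (fc a) ::ₘ fc b'` and `fc b = node (fc a') ::ₘ fc b'`
(`Multiset.cons_swap`). Roots and depths are preserved (`rtp`, `dep` by cases).
-/

open Multiset

namespace TRD

/-- the swap of the first two trees, on vertices -/
def reSwapFun (a c d : OF) : VF (.cons a (.cons c d)) → VF (.cons c (.cons a d))
  | none => some (Sum.inr none)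
  | some (Sum.inl x) => some (Sum.inr (some (Sum.inl x)))
  | some (Sum.inr none) => none
  | some (Sum.inr (some (Sum.inl y))) => some (Sum.inl y)
  | some (Sum.inr (some (Sum.inr z))) => some (Sum.inr (some (Sum.inr z)))

theorem reSwapFun_swapFun (a c d : OF) (x : VF (.cons a (.cons c d))) :
    reSwapFun c a d (reSwapFun a c d x) = x := by
  rcases x with _ | ⟨x | ⟨_ | ⟨x | x⟩⟩⟩
  · rfl
  · rfl
  · rfl
  · rfl
  · rfl

/-- the swap of the first two trees -/
def reSwapIso (a c d : OF) : FG (.cons a (.cons c d)) ≃g FG (.cons c (.cons a d)) where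
  toFun := reSwapFun a c d
  invFun := reSwapFun c a d
  left_inv := reSwapFun_swapFun a c d
  right_inv := reSwapFun_swapFun c a d
  map_rel_iff' := by
    intro x y
    rcases x with _ | ⟨x | ⟨_ | ⟨x | x⟩⟩⟩ <;> rcases y with _ | ⟨y | ⟨_ | ⟨y | y⟩⟩⟩ <;> exact Iff.rfl

/-- lift of an isomorphism of the tail -/
def reTailFun (a : OF) {b b' : OF} (g : VF b → VF b') : VF (.cons a b) → VF (.cons a b')
  | none => none
  | some (Sum.inl x) => some (Sum.inl x)
  | some (Sum.inr z) => some (Sum.inr (g z))

/-- lift of an isomorphism of the tail -/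
def reTailIso (a : OF) {b b' : OF} (χ : FG b ≃g FG b') : FG (.cons a b) ≃g FG (.cons a b') where
  toFun := reTailFun a χ
  invFun := reTailFun a χ.symm
  left_inv := by
    intro x
    rcases x with _ | ⟨x | x⟩
    · rfl
    · rfl
    · change some (Sum.inr (χ.symm (χ x))) = some (Sum.inr x)
      rw [show χ.symm (χ x) = x from χ.symm_apply_apply x]
  right_inv := by
    intro x
    rcases x with _ | ⟨x | x⟩
    · rfl
    · rfl
    · change some (Sum.inr (χ (χ.symm x))) = some (Sum.inr x)
      rw [show χ (χ.symm x) = x from χ.apply_symm_apply x]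
  map_rel_iff' := by
    intro x y
    rcases x with _ | ⟨x | x⟩ <;> rcases y with _ | ⟨y | y⟩
    · exact Iff.rfl
    · exact Iff.rfl
    · exact Iff.rfl
    · exact Iff.rfl
    · exact Iff.rfl
    · exact Iff.rfl
    · exact Iff.rfl
    · exact Iff.rfl
    · exact χ.map_rel_iff'

theorem reorder (f : OF) (v : VF f) : ∃ (a b : OF) (φ : FG f ≃g FG (.cons a b)),
    fc (.cons a b) = fc f ∧ (∀ x, rtp (.cons a b) (φ x) ↔ rtp f x) ∧
    (∀ x, dep (.cons a b) (φ x) = dep f x) ∧
    (φ v = none ∨ ∃ x : VF a, φ v = some (Sum.inl x)) := by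
  induction f with
  | nil => exact v.elim
  | cons a b _ ihb =>
    rcases v with _ | ⟨x | x⟩
    · exact ⟨a, b, SimpleGraph.Iso.refl, rfl, fun _ => Iff.rfl, fun _ => rfl, Or.inl rfl⟩
    · exact ⟨a, b, SimpleGraph.Iso.refl, rfl, fun _ => Iff.rfl, fun _ => rfl, Or.inr ⟨x, rfl⟩⟩
    · obtain ⟨a', b', χ, h1, h2, h3, h4⟩ := ihb x
      have hval : ∀ y : VF (.cons a b), (reSwapIso a a' b') (reTailIso a χ y) =
          reSwapFun a a' b' (reTailFun a χ y) := fun _ => rfl
      refine ⟨a', .cons a b', (reTailIso a χ).trans (reSwapIso a a' b'), ?_, ?_, ?_, ?_⟩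
      · rw [fc_cons, fc_cons, fc_cons, Multiset.cons_swap, ← h1, fc_cons]
      · intro y
        rcases y with _ | ⟨y | y⟩
        · exact Iff.rfl
        · exact Iff.rfl
        · change rtp (.cons a' (.cons a b')) (reSwapFun a a' b' (some (Sum.inr (χ y)))) ↔ rtp b y
          rw [← h2 y]
          rcases χ y with _ | ⟨w | w⟩
          · exact Iff.rfl
          · exact Iff.rfl
          · exact Iff.rfl
      · intro y
        rcases y with _ | ⟨y | y⟩
        · rfl
        · rfl
        · change dep (.cons a' (.cons a b')) (reSwapFun a a' b' (some (Sum.inr (χ y)))) = dep b y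
          rw [← h3 y]
          rcases χ y with _ | ⟨w | w⟩
          · rfl
          · rfl
          · rfl
      · rcases h4 with h | ⟨w, h⟩
        · left
          change reSwapFun a a' b' (some (Sum.inr (χ x))) = none
          rw [h]; rfl
        · right
          refine ⟨w, ?_⟩
          change reSwapFun a a' b' (some (Sum.inr (χ x))) = some (Sum.inl w)
          rw [h]; rfl

end TRD
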