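import Pool.Agent.Lib.TRD.GIns

/-! # TRD.GRep (1.2 h): every finite tree is the graph of an ordered tree

`leaf_iso`: for a vertex `v` of degree one with neighbour `u`: the map `V → Option {x // x ∈ {v}ᶜ}`, `v ↦ none`,
`x ↦ some x`, is an isomorphism `T ≃g leafAdd (T.induce {v}ᶜ) ⟨u, _⟩`.
`leafAdd_congr`: `ψ : G ≃g H` gives `leafAdd G u ≃g leafAdd H (ψ u)` (`Equiv.optionCongr`).
`rep_tree`: induction on `Fintype.card V`. If `V` is a subsingleton (`T.IsTree` gives `Nonempty V`): `a = nil`, the graph
`FG (cons nil nil)` has the single vertex `none` (`Option (Empty ⊕ Empty)`). Otherwise (`Nontrivial V`)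
`SimpleGraph.IsTree.exists_vert_degree_one_of_nontrivial` gives `v` with degree 1, neighbour `u`
(`SimpleGraph.degree_eq_one_iff_existsUnique_adj`); `T.induce {v}ᶜ` is a tree: connected by
`SimpleGraph.Connected.induce_compl_singleton_of_degree_eq_one`, acyclic by `SimpleGraph.IsAcyclic.induce`. The induction
hypothesis gives `ψ : T.induce {v}ᶜ ≃g FG (cons a nil)`; with `w = ψ ⟨u, _⟩`:
`T ≃g leafAdd (FG (cons a nil)) w ≃g FG (ins (cons a nil) w)` (`ins_iso`), and `ins (cons a nil) w = cons a' nil` by cases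
on `w`.
-/

open Multiset

namespace TRD

open Classical in
/-- the map of `leaf_iso` -/
noncomputable def repLeafFun {V : Type} (v : V) (x : V) : Option {x : V // x ∈ ({v} : Set V)ᶜ} :=
  if h : x = v then none else some ⟨x, h⟩

theorem repLeafFun_self {V : Type} (v : V) : repLeafFun v v = none := by
  unfold repLeafFun
  rw [dif_pos rfl]

theorem repLeafFun_ne {V : Type} (v x : V) (h : x ≠ v) : repLeafFun v x = some ⟨x, h⟩ := by
  unfold repLeafFun
  rw [dif_neg h]

/-- the equivalence of `leaf_iso` -/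
noncomputable def repLeafEquiv {V : Type} (v : V) : V ≃ Option {x : V // x ∈ ({v} : Set V)ᶜ} where
  toFun := repLeafFun v
  invFun := fun o => match o with
    | none => v
    | some x => x.1
  left_inv := by
    intro x
    by_cases h : x = v
    · rw [h, repLeafFun_self]
    · rw [repLeafFun_ne v x h]
  right_inv := by
    intro o
    rcases o with _ | ⟨x, hx⟩
    · exact repLeafFun_self v
    · exact repLeafFun_ne v x hx

theorem leaf_iso {V : Type} (T : SimpleGraph V) (v u : V) (huv : T.Adj v u)
    (hu : ∀ w, T.Adj v w → w = u) :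
    Nonempty (T ≃g leafAdd (T.induce {v}ᶜ) ⟨u, fun h => T.ne_of_adj huv (by simpa using h.symm)⟩) := by
  refine ⟨⟨repLeafEquiv v, ?_⟩⟩
  intro x y
  change (leafAdd (T.induce {v}ᶜ) _).Adj (repLeafFun v x) (repLeafFun v y) ↔ T.Adj x y
  by_cases hx : x = v
  · subst hx
    by_cases hy : y = x
    · subst hy
      rw [repLeafFun_self]
      exact ⟨fun h => h.elim, fun h => (T.loopless.irrefl _ h).elim⟩
    · rw [repLeafFun_self, repLeafFun_ne x y hy]
      change (⟨y, _⟩ : {z : V // z ∈ ({x} : Set V)ᶜ}) = ⟨u, _⟩ ↔ T.Adj x y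
      constructor
      · intro h
        have h2 : y = u := congrArg Subtype.val h
        rw [h2]; exact huv
      · intro h
        exact Subtype.ext (hu y h)
  · by_cases hy : y = v
    · subst hy
      rw [repLeafFun_self, repLeafFun_ne y x hx]
      change (⟨x, _⟩ : {z : V // z ∈ ({y} : Set V)ᶜ}) = ⟨u, _⟩ ↔ T.Adj x y
      constructor
      · intro h
        have h2 : x = u := congrArg Subtype.val h
        rw [h2]; exact huv.symm
      · intro h
        exact Subtype.ext (hu x h.symm)
    · rw [repLeafFun_ne v x hx, repLeafFun_ne v y hy]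
      exact Iff.rfl

theorem leafAdd_congr {V W : Type} {G : SimpleGraph V} {H : SimpleGraph W} (ψ : G ≃g H) (u : V) :
    Nonempty (leafAdd G u ≃g leafAdd H (ψ u)) := by
  refine ⟨⟨Equiv.optionCongr ψ.toEquiv, ?_⟩⟩
  intro x y
  rcases x with _ | x <;> rcases y with _ | y
  · exact Iff.rfl
  · change ψ y = ψ u ↔ y = u
    exact ψ.injective.eq_iff
  · change ψ x = ψ u ↔ x = u
    exact ψ.injective.eq_iff
  · exact ψ.map_rel_iff'

theorem rep_tree_aux (n : ℕ) : ∀ {V : Type} [Fintype V] (T : SimpleGraph V), T.IsTree →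
    Fintype.card V = n → ∃ a : OF, Nonempty (T ≃g FG (.cons a .nil)) := by
  induction n with
  | zero =>
    intro V _ T hT h0
    have := hT.connected.nonempty
    exact absurd h0 Fintype.card_ne_zero
  | succ n ih =>
    intro V _ T hT hn
    classical
    by_cases hV : Nontrivial V
    · obtain ⟨v, hv⟩ := hT.exists_vert_degree_one_of_nontrivial
      obtain ⟨u, hu1, hu2⟩ := SimpleGraph.degree_eq_one_iff_existsUnique_adj.mp hv
      have htree : (T.induce ({v}ᶜ : Set V)).IsTree :=
        ⟨hT.connected.induce_compl_singleton_of_degree_eq_one hv, hT.isAcyclic.induce _⟩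
      have hcard : Fintype.card {x : V // x ∈ ({v} : Set V)ᶜ} = n := by
        have h1 : Fintype.card V = Fintype.card (Option {x : V // x ∈ ({v} : Set V)ᶜ}) :=
          Fintype.card_congr (repLeafEquiv v)
        rw [Fintype.card_option] at h1
        omega
      obtain ⟨a, ⟨ψ⟩⟩ := ih (T.induce ({v}ᶜ : Set V)) htree hcard
      obtain ⟨α⟩ := leaf_iso T v u hu1 hu2
      obtain ⟨β⟩ := leafAdd_congr ψ ⟨u, fun h => T.ne_of_adj hu1 (by simpa using h.symm)⟩
      generalize hw : ψ ⟨u, fun h => T.ne_of_adj hu1 (by simpa using h.symm)⟩ = w at β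
      obtain ⟨γ, -⟩ := ins_iso (.cons a .nil) w
      have δ : T ≃g FG (ins (.cons a .nil) w) := (α.trans β).trans γ.symm
      rcases w with _ | ⟨x | e⟩
      · exact ⟨.cons .nil a, ⟨δ⟩⟩
      · exact ⟨ins a x, ⟨δ⟩⟩
      · exact e.elim
    · rw [not_nontrivial_iff_subsingleton] at hV
      obtain ⟨r⟩ := hT.connected.nonempty
      refine ⟨.nil, ⟨⟨⟨fun _ => none, fun _ => r, fun x => Subsingleton.elim _ _, ?_⟩, ?_⟩⟩⟩
      · intro x
        rcases x with _ | ⟨e | e⟩
        · rfl
        · exact e.elim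
        · exact e.elim
      · intro x y
        have : x = y := Subsingleton.elim _ _
        subst this
        exact ⟨fun h => (FA_irrefl _ _ h).elim, fun h => (T.loopless.irrefl _ h).elim⟩

theorem rep_tree {V : Type} [Fintype V] (T : SimpleGraph V) (hT : T.IsTree) :
    ∃ a : OF, Nonempty (T ≃g FG (.cons a .nil)) :=
  rep_tree_aux _ T hT rfl

end TRD
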