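import Pool.Agent.Lib.TRD.GReord
import Pool.Agent.Lib.TRD.GFlip

/-! # TRD.GReroot (1.5 h): re-rooting a tree at an arbitrary vertex

Induction on `n = dep (cons a nil) v` (for all `a, v`). `v = none`: take `b = a` and the identity.
`v = some (inl x)` (`some (inr e)`: `e.elim`): `reorder a x` gives `c, d`, `φ : FG a ≃g FG (cons c d)`, roots and depths
preserved, `fc (cons c d) = fc a`, `φ x = none` or `φ x = some (inl y)`. Lift `φ` to
`Φ : FG (cons a nil) ≃g FG (cons (cons c d) nil)` (`none ↦ none`, `some (inl z) ↦ some (inl (φ z))`; needs only that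
`φ` preserves the roots). Compose with `flipIso d c : FG (cons (cons c d) nil) ≃g FG (cons (cons d c) nil)`.
If `φ x = none`: `v ↦ some (inl none) ↦ none`, take `b = cons d c`. If `φ x = some (inl y)`:
`v ↦ some (inl (some (inl y))) ↦ some (inl (some (inr y)))`, whose depth in `cons (cons d c) nil` is
`dep c y + 1`, while `dep (cons a nil) v = dep a x + 1 = dep (cons c d) (some (inl y)) + 1 = dep c y + 2`: induction
hypothesis for `cons d c`. Classes: `fc (cons c d) = fc a`,
`cls (node (node (fc c) ::ₘ fc d)) = cls (node (node (fc d) ::ₘ fc c))` (`cls_flip (fc d) (fc c)`).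
-/

open Multiset

namespace TRD

/-- lift of an isomorphism of the forest below the root -/
def reHeadFun {a a' : OF} (b : OF) (g : VF a → VF a') : VF (.cons a b) → VF (.cons a' b)
  | none => none
  | some (Sum.inl x) => some (Sum.inl (g x))
  | some (Sum.inr z) => some (Sum.inr z)

/-- lift of an isomorphism of the forest below the root -/
def reHeadIso {a a' : OF} (b : OF) (φ : FG a ≃g FG a') (hφ : ∀ x, rtp a' (φ x) ↔ rtp a x) :
    FG (.cons a b) ≃g FG (.cons a' b) where
  toFun := reHeadFun b φ
  invFun := reHeadFun b φ.symm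
  left_inv := by
    intro x
    rcases x with _ | ⟨x | x⟩
    · rfl
    · change some (Sum.inl (φ.symm (φ x))) = some (Sum.inl x)
      rw [show φ.symm (φ x) = x from φ.symm_apply_apply x]
    · rfl
  right_inv := by
    intro x
    rcases x with _ | ⟨x | x⟩
    · rfl
    · change some (Sum.inl (φ (φ.symm x))) = some (Sum.inl x)
      rw [show φ (φ.symm x) = x from φ.apply_symm_apply x]
    · rfl
  map_rel_iff' := by
    intro x y
    rcases x with _ | ⟨x | x⟩ <;> rcases y with _ | ⟨y | y⟩
    · exact Iff.rfl
    · exact hφ y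
    · exact Iff.rfl
    · exact hφ x
    · exact φ.map_rel_iff'
    · exact Iff.rfl
    · exact Iff.rfl
    · exact Iff.rfl
    · exact Iff.rfl

theorem reroot_aux (n : ℕ) : ∀ (a : OF) (v : VF (.cons a .nil)), dep (.cons a .nil) v = n →
    ∃ (b : OF) (ψ : FG (.cons a .nil) ≃g FG (.cons b .nil)),
      ψ v = none ∧ cls (node (fc a)) = cls (node (fc b)) := by
  induction n with
  | zero =>
    intro a v hv
    rcases v with _ | ⟨x | e⟩
    · exact ⟨a, SimpleGraph.Iso.refl, rfl, rfl⟩
    · change dep a x + 1 = 0 at hv
      omega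
    · exact e.elim
  | succ n ih =>
    intro a v hv
    rcases v with _ | ⟨x | e⟩
    · exact ⟨a, SimpleGraph.Iso.refl, rfl, rfl⟩
    · obtain ⟨c, d, φ, h1, h2, h3, h4⟩ := reorder a x
      have hc : cls (node (fc a)) = cls (node (fc (.cons d c))) := by
        rw [← h1, fc_cons, fc_cons]
        exact cls_flip (fc d) (fc c)
      rcases h4 with h | ⟨y, h⟩
      · refine ⟨.cons d c, (reHeadIso .nil φ h2).trans (flipIso d c), ?_, hc⟩
        change flipFun d c (some (Sum.inl (φ x))) = none
        rw [h]; rfl
      · have hd : dep (.cons (.cons d c) .nil) (some (Sum.inl (some (Sum.inr y)))) = n := by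
          change dep c y + 1 = n
          have h5 := h3 x
          rw [h] at h5
          change dep c y + 1 = dep a x at h5
          change dep a x + 1 = n + 1 at hv
          omega
        obtain ⟨b, ψ, h6, h7⟩ := ih (.cons d c) (some (Sum.inl (some (Sum.inr y)))) hd
        refine ⟨b, ((reHeadIso .nil φ h2).trans (flipIso d c)).trans ψ, ?_, hc.trans h7⟩
        change ψ (flipFun d c (some (Sum.inl (φ x)))) = none
        rw [h]
        exact h6
    · exact e.elim

theorem reroot (a : OF) (v : VF (.cons a .nil)) :
    ∃ (b : OF) (ψ : FG (.cons a .nil) ≃g FG (.cons b .nil)),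
      ψ v = none ∧ cls (node (fc a)) = cls (node (fc b)) :=
  reroot_aux _ a v rfl

end TRD
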