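import Pool.Agent.Lib.TRD.GPerm
import Pool.Agent.Lib.TRD.GFlip

/-! # TRD.GTiso (0.8 h): codes with equal class give isomorphic trees

`tiso_of_cls`: `cls x = cls y` gives `Relation.EqvGen Flip x y` (`Quot.eqvGen_exact`). Prove by induction on
`Relation.EqvGen` the statement `R x y := ∀ a b, node (fc a) = x → node (fc b) = y → Nonempty (FG (cons a nil) ≃g
FG (cons b nil))`. `rel`: `Flip x y` gives `A B` with `x = node (node B ::ₘ A)`, `y = node (node A ::ₘ B)`;
choose `a' b'` with `fc a' = A`, `fc b' = B` (`fc_surj`); `fc a = node B ::ₘ A = fc (cons b' a')` (`node_inj`), so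
`RIso a (cons b' a')` (`riso_of_fc`), `RIso (cons a nil) (cons (cons b' a') nil)` (`RIso.cons`, `RIso.refl`); the
same for `b` and `cons a' b'`; in the middle `flipIso a' b'`. `refl`: `riso_of_fc`. `symm`: `Iso.symm`.
`trans`: choose `c` with `fc c = ch y` (`node_ch`).
-/

open Multiset

namespace TRD

theorem tiso_of_riso {a b : OF} (h : RIso a b) :
    Nonempty (FG (.cons a .nil) ≃g FG (.cons b .nil)) := by
  obtain ⟨φ, _⟩ := RIso.cons h (RIso.refl .nil)
  exact ⟨φ⟩

theorem tiso_of_cls {a b : OF} (h : cls (node (fc a)) = cls (node (fc b))) :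
    Nonempty (FG (.cons a .nil) ≃g FG (.cons b .nil)) := by
  have key : ∀ x y : RT, Relation.EqvGen Flip x y → ∀ a b : OF, node (fc a) = x →
      node (fc b) = y → Nonempty (FG (.cons a .nil) ≃g FG (.cons b .nil)) := by
    intro x y hxy
    induction hxy with
    | rel x y hf =>
      intro a b ha hb
      obtain ⟨A, B, hx, hy⟩ := hf
      obtain ⟨a', rfl⟩ := fc_surj A
      obtain ⟨b', rfl⟩ := fc_surj B
      have h1 : fc a = fc (.cons b' a') := node_inj (ha.trans hx)
      have h2 : fc b = fc (.cons a' b') := node_inj (hb.trans hy)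
      obtain ⟨φ⟩ := tiso_of_riso (riso_of_fc h1)
      obtain ⟨ψ⟩ := tiso_of_riso (riso_of_fc h2)
      exact ⟨(φ.trans (flipIso a' b')).trans ψ.symm⟩
    | refl x =>
      intro a b ha hb
      exact tiso_of_riso (riso_of_fc (node_inj (ha.trans hb.symm)))
    | symm x y _ ih =>
      intro a b ha hb
      obtain ⟨φ⟩ := ih b a hb ha
      exact ⟨φ.symm⟩
    | trans x y z _ _ ih1 ih2 =>
      intro a b ha hb
      obtain ⟨c, hc⟩ := fc_surj (ch y)
      have hc' : node (fc c) = y := by rw [hc, node_ch]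
      obtain ⟨φ⟩ := ih1 a c ha hc'
      obtain ⟨ψ⟩ := ih2 c b hc' hb
      exact ⟨φ.trans ψ⟩
  exact key _ _ (Quot.eqvGen_exact h) a b rfl rfl

end TRD
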