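import Pool.Agent.Lib.TRD.GCard
import Pool.Agent.Lib.TRD.GRep
import Pool.Agent.Lib.TRD.GDeckF

/-! # TRD.GUpper (1 h): the bound for codes gives the bound for trees

`rep_tree T`: `ψ : T ≃g FG (cons a nil)`, `rep_tree S`: `χ : S ≃g FG (cons b nil)`. `x = node (fc a)`, `y = node (fc b)`:
`size x = p` (`card_VF (cons a nil)`, `sz_singleton`-type, `Fintype.card_congr ψ.toEquiv`, `Fintype.card_fin`). If
`cls x = cls y` then `tiso_of_cls` gives `T ≃g S`, contradiction. `le_map_exists` on `D ≤ univ.val.map (gcard T)` gives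
`s ≤ univ.val`, `s.map (gcard T) = D`, and `s'` for `S`. `map_transfer` with `gcard_iff_cc`:
`E := s.map (fun v => ccd _ (ψ v)) = s'.map (fun w => ccd _ (χ w))`. `E ≤ deck x`: `deck_eq a` and
`univ.val.map (fun v => ccd _ (ψ v)) = univ.val.map (ccd _)` (reindexing by `ψ.toEquiv`: `Finset.map_univ_equiv` or
`Multiset.map_univ_val_equiv`), `Multiset.map_le_map`; the same for `y`. `card D = card s = card E ≤ m`.
-/

open Multiset

namespace TRD

theorem size_of_iso {p : ℕ} {T : SimpleGraph (Fin p)} {a : OF} (ψ : T ≃g FG (.cons a .nil)) :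
    size (node (fc a)) = p := by
  have h1 := Fintype.card_congr ψ.toEquiv
  rw [Fintype.card_fin, card_VF, fc_cons, fc_nil, sz_cons, sz_zero, add_zero] at h1
  exact h1.symm

theorem deck_eq_map {p : ℕ} {T : SimpleGraph (Fin p)} {a : OF} (ψ : T ≃g FG (.cons a .nil)) :
    deck (node (fc a)) = (Finset.univ : Finset (Fin p)).val.map
      (fun v => ccd (.cons a .nil) (ψ v)) := by
  rw [deck_eq]
  have h : (Finset.univ : Finset (VF (.cons a .nil))).val =
      (Finset.univ : Finset (Fin p)).val.map ψ := by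
    have h1 := Finset.map_univ_equiv ψ.toEquiv
    rw [← h1, Finset.map_val]
    rfl
  rw [h, Multiset.map_map]
  rfl

theorem graph_upper (p m : ℕ)
    (hcode : ∀ x y : RT, size x = p → size y = p → cls x ≠ cls y →
      ∀ D : Multiset (Multiset Cls), D ≤ deck x → D ≤ deck y → Multiset.card D ≤ m)
    (T S : SimpleGraph (Fin p)) (hT : T.IsTree) (hS : S.IsTree) (hn : ¬ Nonempty (S ≃g T))
    (D : Multiset GCls) (hD : D ≤ gdeck T) (hD' : D ≤ gdeck S) : Multiset.card D ≤ m := by
  obtain ⟨a, ⟨ψ⟩⟩ := rep_tree T hT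
  obtain ⟨b, ⟨χ⟩⟩ := rep_tree S hS
  have hne : cls (node (fc a)) ≠ cls (node (fc b)) := by
    intro h
    obtain ⟨θ⟩ := tiso_of_cls h
    exact hn ⟨(χ.trans θ.symm).trans ψ.symm⟩
  obtain ⟨s, hs, hsD⟩ := le_map_exists _ _ D hD
  obtain ⟨s', hs', hsD'⟩ := le_map_exists _ _ D hD'
  have htr : s.map (fun v => ccd (.cons a .nil) (ψ v)) = s'.map (fun v => ccd (.cons b .nil) (χ v)) :=
    map_transfer s s' (gcard T) (gcard S) _ _ (fun v w h => (gcard_iff_cc ψ χ v w).1 h)
      (hsD.trans hsD'.symm)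
  have h1 : s.map (fun v => ccd (.cons a .nil) (ψ v)) ≤ deck (node (fc a)) := by
    rw [deck_eq_map ψ]
    exact Multiset.map_le_map hs
  have h2 : s.map (fun v => ccd (.cons a .nil) (ψ v)) ≤ deck (node (fc b)) := by
    rw [deck_eq_map χ, htr]
    exact Multiset.map_le_map hs'
  have h3 := hcode _ _ (size_of_iso ψ) (size_of_iso χ) hne _ h1 h2
  rw [Multiset.card_map] at h3
  rw [← hsD, Multiset.card_map]
  exact h3

end TRD
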