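import Pool.Agent.Lib.TRD.WordA
import Pool.Agent.Lib.TRD.WordC

/-! # TRD.LLpal (MP_2e3d39_co)

From the counting identity to the palindrome (pure combinatorics of words).

Notation: w = Sz σ (k+1), n = w + size X; a q := sz (Lm σ q) = Sz σ q, b q := sz (Vm σ (k+1) q) = w - Sz σ q for 1 ≤ q ≤ k (strictly increasing resp. decreasing in q);
α q, β q the elements of Lm σ q, Vm σ (k+1) q; α^X q (X added at position 0) has size a q + size X, β^X q (X added at position k) has size b q + size X.
Call s admissible if s < w and s + size y < n for all m ≤ k, y ∈ σ m (a condition which is inherited by smaller s). The hypothesis hc is the identity (*) for all R of admissible size.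

Claim (strong induction on s): if s is admissible then for every q ∈ [1,k]: a q = s implies b (k+1-q) = s, b (k+1-q) = s implies a q = s, and in this case Lm σ q = Vm σ (k+1) (k+1-q) and σ (q-1) = σ (k+1-q).
 Proof: let s be admissible, assume the claim for smaller sizes. For all q with a q < s or b (k+1-q) < s the claim holds for all the positions below as well (a is increasing and b (k+1-q) is increasing in q),
 hence σ l = σ (k - l) for l < q and Lm (σ with X at 0) q = Vm (σ with X at k) (k+1) (k+1-q) [both are built from the same letters: use Lm/Vm reversed words, `Vm_eq_Lm_rv`-style congruence].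
 Let R have size s. The q with α^X_q = R have a q = s - size X < s; the q' with β^X_{q'} = R have b q' = s - size X < s; these two sets are in bijection q ↔ k+1-q' by the induction hypothesis; so the two X-terms of (*)
 are equal and #{q : α q = R} = #{q : β q = R}. Both are 0 or 1 (sizes strictly monotone). So if α q₁ has size s then (R := α q₁) there is q₂ with β q₂ = α q₁, and conversely. By the induction hypothesis the number of α's smaller than s equals the number
 of β's smaller than s; therefore q₂ = k+1-q₁. From Lm σ q₁ = {node (σ (q₁-1) + Lm σ (q₁-1))} = Vm σ (k+1) (k+1-q₁) = {node (σ (k+1-q₁) + Vm σ (k+1) (k+2-q₁))} and Lm σ (q₁-1) = Vm σ (k+1) (k+2-q₁) (induction hypothesis, or both empty if q₁ = 1)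
 we get σ (q₁-1) = σ (k+1-q₁) by cancellation.

Let r be the number of q ∈ [1,k] with a q admissible (they are q = 1..r); by the claim the β's of admissible size are β k, ..., β (k+1-r). Claim 2r ≥ k. Suppose 2r < k, i.e. r+1 ≤ k-r. Then a (r+1) and b (k-r) are not admissible
 (r+1 ≤ k, k-r ≥ 1; b (k-r) = b (k+1-(r+1)); if it were admissible then a (r+1) would be admissible by the claim). a (r+1) + b (k-r) ≤ w (disjoint positions 0..r and k-r..k, as r < k-r), both ≥ 1, so both are < w. Hence there are m, y ∈ σ m with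
 a (r+1) + size y ≥ n and m', y' ∈ σ m' with b (k-r) + size y' ≥ n. So size y ≥ n - a (r+1) > w - a(r+1): y is bigger than everything outside the positions 0..r, so m ≤ r (if m ≥ r+1 then size y < sum over positions ≥ r+1 = w - a (r+1)); then y is inside
 positions 0..r so size y < a (r+1). Similarly m' ≥ k-r, size y' < b (k-r). Then n ≤ a(r+1) + size y < 2 a (r+1), n ≤ b(k-r)+ size y' < 2 b (k-r), so 2n < 2 (a (r+1) + b (k-r)) ≤ 2w: contradiction.
So σ l = σ (k-l) for all l < r, and 2r ≥ k; for l ≤ k: if l < r or k - l < r we are done by symmetry; otherwise r ≤ l and r ≤ k-l, so 2r ≤ k, k = 2r = 2l, l = k - l.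
-/

open Multiset

namespace TRD

noncomputable section

namespace LLpalAux

/-- count of positions -/
def cn (f : ℕ → Multiset RT) (k : ℕ) (R : RT) : ℕ :=
  ((Finset.Icc 1 k).filter (fun q => f q = {R})).card

/-- adding `X` at position `0` -/
def ax (X : RT) (σ : ℕ → Multiset RT) : ℕ → Multiset RT := Function.update σ 0 (X ::ₘ σ 0)

theorem cn_rev (f : ℕ → Multiset RT) (k : ℕ) (R : RT) :
    cn f k R = cn (fun q => f (k + 1 - q)) k R := by
  unfold cn
  refine Finset.card_nbij' (fun q => k + 1 - q) (fun q => k + 1 - q) ?_ ?_ ?_ ?_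
  · intro q hq
    simp only [Finset.coe_filter, Finset.mem_Icc, Set.mem_setOf_eq] at hq ⊢
    refine ⟨by omega, ?_⟩
    rw [show k + 1 - (k + 1 - q) = q by omega]
    exact hq.2
  · intro q hq
    simp only [Finset.coe_filter, Finset.mem_Icc, Set.mem_setOf_eq] at hq ⊢
    exact ⟨by omega, hq.2⟩
  · intro q hq
    simp only [Finset.coe_filter, Finset.mem_Icc, Set.mem_setOf_eq] at hq
    show k + 1 - (k + 1 - q) = q
    omega
  · intro q hq
    simp only [Finset.coe_filter, Finset.mem_Icc, Set.mem_setOf_eq] at hq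
    show k + 1 - (k + 1 - q) = q
    omega

theorem cn_congr {f g : ℕ → Multiset RT} {k : ℕ} (h : ∀ q, 1 ≤ q → q ≤ k → f q = g q) (R : RT) :
    cn f k R = cn g k R := by
  unfold cn
  congr 1
  refine Finset.filter_congr fun q hq => ?_
  rw [Finset.mem_Icc] at hq
  rw [h q hq.1 hq.2]

theorem Sz_ax (X : RT) (σ : ℕ → Multiset RT) (j : ℕ) :
    Sz (ax X σ) (j + 1) = Sz σ (j + 1) + size X := by
  induction j with
  | zero =>
    have h0 : Sz (ax X σ) 0 = Sz σ 0 := by simp [Sz]
    rw [Sz_succ, Sz_succ σ, h0]
    have : ax X σ 0 = X ::ₘ σ 0 := by simp [ax]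
    rw [this, sz_cons]
    omega
  | succ j ih =>
    rw [Sz_succ, ih, Sz_succ σ (j + 1)]
    have : ax X σ (j + 1) = σ (j + 1) := by
      unfold ax
      rw [Function.update_of_ne (by omega)]
    rw [this]
    omega

theorem size_of_Lm {μ : ℕ → Multiset RT} {h : ℕ} {R : RT} (e : Lm μ h = {R}) :
    size R = Sz μ h := by
  have := sz_Lm μ h
  rw [e, sz_singleton] at this
  exact this

theorem size_X {X : RT} {σ : ℕ → Multiset RT} {h : ℕ} {R : RT} (h1 : 1 ≤ h)
    (e : Lm (ax X σ) h = {R}) : size R = Sz σ h + size X := by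
  obtain ⟨j, rfl⟩ : ∃ j, h = j + 1 := ⟨h - 1, by omega⟩
  rw [size_of_Lm e, Sz_ax]

theorem Sz_lt {σ : ℕ → Multiset RT} {i j : ℕ} (h : i < j) : Sz σ i < Sz σ j := by
  have := Sz_mono σ h.le
  omega

theorem Sz_congr {σ τ : ℕ → Multiset RT} {q : ℕ} (h : ∀ l < q, σ l = τ l) : Sz σ q = Sz τ q := by
  unfold Sz
  refine Finset.sum_congr rfl fun m hm => ?_
  rw [h m (Finset.mem_range.mp hm)]

/-- one step of the induction -/
theorem step {σ τ : ℕ → Multiset RT} {k : ℕ} {X : RT} {q : ℕ} (hq : q + 1 ≤ k)
    (hst : ∀ R : RT, size R = Sz σ (q + 1) →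
      cn (Lm (ax X σ)) k R + cn (Lm τ) k R = cn (Lm σ) k R + cn (Lm (ax X τ)) k R)
    (hle : Sz σ (q + 1) ≤ Sz τ (q + 1)) (he : ∀ l < q, σ l = τ l) : σ q = τ q := by
  set R := node (σ q + Lm σ q) with hR
  have hLR : Lm σ (q + 1) = {R} := by
    rw [Lm_single σ (by omega)]
    rfl
  have hsz : size R = Sz σ (q + 1) := size_of_Lm hLR
  have hX : cn (Lm (ax X σ)) k R = cn (Lm (ax X τ)) k R := by
    unfold cn
    congr 1
    refine Finset.filter_congr fun j hj => ?_
    rw [Finset.mem_Icc] at hj
    have hp := size_pos X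
    by_cases hjq : j ≤ q
    · have : Lm (ax X σ) j = Lm (ax X τ) j := by
        refine Lm_congr fun m hm => ?_
        unfold ax
        by_cases hm0 : m = 0
        · subst hm0
          rw [Function.update_self, Function.update_self, he 0 (by omega)]
        · rw [Function.update_of_ne hm0, Function.update_of_ne hm0, he m (by omega)]
      rw [this]
    · constructor
      · intro h
        exfalso
        have h1 := size_X hj.1 h
        have h2 : Sz σ (q + 1) ≤ Sz σ j := by
          have := Sz_mono σ (show q + 1 ≤ j by omega)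
          omega
        omega
      · intro h
        exfalso
        have h1 := size_X hj.1 h
        have h2 : Sz τ (q + 1) ≤ Sz τ j := by
          have := Sz_mono τ (show q + 1 ≤ j by omega)
          omega
        omega
  have h1 := hst R hsz
  have h2 : 0 < cn (Lm σ) k R := by
    unfold cn
    refine Finset.card_pos.mpr ⟨q + 1, ?_⟩
    rw [Finset.mem_filter, Finset.mem_Icc]
    exact ⟨⟨by omega, hq⟩, hLR⟩
  have h3 : 0 < cn (Lm τ) k R := by omega
  unfold cn at h3
  obtain ⟨j, hj⟩ := Finset.card_pos.mp h3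
  rw [Finset.mem_filter, Finset.mem_Icc] at hj
  obtain ⟨⟨hj1, hj2⟩, hjR⟩ := hj
  have h4 := size_of_Lm hjR
  have h5 : q + 1 ≤ j := by
    by_contra hcon
    have h6 : Sz σ j = Sz τ j := Sz_congr fun l hl => he l (by omega)
    have h7 : Sz σ j < Sz σ (q + 1) := Sz_lt (by omega)
    omega
  have h8 : j = q + 1 := by
    by_contra hcon
    have h7 : Sz τ (q + 1) < Sz τ j := Sz_lt (by omega)
    omega
  subst h8
  rw [Lm_single τ (by omega)] at hjR
  have h9 := node_inj (Multiset.singleton_inj.mp hjR)
  have h10 : Lm σ q = Lm τ q := Lm_congr he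
  rw [show q + 1 - 1 = q by omega, h10] at h9
  exact (add_right_cancel h9).symm

/-- admissible sizes -/
def Adm (σ : ℕ → Multiset RT) (k : ℕ) (X : RT) (s : ℕ) : Prop :=
  s < Sz σ (k + 1) ∧ ∀ m ≤ k, ∀ y ∈ σ m, s + size y < Sz σ (k + 1) + size X

theorem Adm.mono {σ : ℕ → Multiset RT} {k : ℕ} {X : RT} {s t : ℕ} (h : Adm σ k X t)
    (hs : s ≤ t) : Adm σ k X s :=
  ⟨lt_of_le_of_lt hs h.1, fun m hm y hy => by
    have := h.2 m hm y hy
    omega⟩

theorem claim {σ τ : ℕ → Multiset RT} {k : ℕ} {X : RT}
    (hst : ∀ R : RT, Adm σ k X (size R) →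
      cn (Lm (ax X σ)) k R + cn (Lm τ) k R = cn (Lm σ) k R + cn (Lm (ax X τ)) k R)
    (q : ℕ) : q ≤ k → (Adm σ k X (Sz σ q) ∨ Adm σ k X (Sz τ q)) → ∀ l < q, σ l = τ l := by
  induction q with
  | zero => intro _ _ l hl; omega
  | succ q ih =>
    intro hq had
    have ha : Sz σ q < Sz σ (q + 1) := Sz_lt (by omega)
    have hb : Sz τ q < Sz τ (q + 1) := Sz_lt (by omega)
    have he : ∀ l < q, σ l = τ l := by
      refine ih (by omega) ?_
      rcases had with h | h
      · exact Or.inl (h.mono ha.le)
      · exact Or.inr (h.mono hb.le)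
    have key : σ q = τ q := by
      rcases le_total (Sz σ (q + 1)) (Sz τ (q + 1)) with hle | hle
      · have hA : Adm σ k X (Sz σ (q + 1)) := by
          rcases had with h | h
          · exact h
          · exact h.mono hle
        exact step hq (fun R hR => hst R (by rw [hR]; exact hA)) hle he
      · have hA : Adm σ k X (Sz τ (q + 1)) := by
          rcases had with h | h
          · exact h.mono hle
          · exact h
        refine (step (σ := τ) (τ := σ) (X := X) hq (fun R hR => ?_) hle
          (fun l hl => (he l hl).symm)).symm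
        have := hst R (by rw [hR]; exact hA)
        omega
    intro l hl
    rcases Nat.lt_succ_iff_lt_or_eq.mp hl with h | h
    · exact he l h
    · rw [h]; exact key

/-- a large bush is in the front part and smaller than it -/
theorem front {σ : ℕ → Multiset RT} {k r n : ℕ} (hr : r ≤ k) (hn : Sz σ (k + 1) ≤ n)
    (hX : Sz σ (k + 1) < n) {m : ℕ} (hm : m ≤ k)
    {y : RT} (hy : y ∈ σ m) (h : n ≤ Sz σ (r + 1) + size y) : size y < Sz σ (r + 1) := by
  have h1 := size_le_sz hy
  have h2 := Sz_succ σ m
  by_cases hmr : m ≤ r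
  · have h3 : Sz σ (m + 1) ≤ Sz σ (r + 1) := by
      have := Sz_mono σ (show m + 1 ≤ r + 1 by omega)
      omega
    omega
  · exfalso
    have h3 : Sz σ (m + 1) ≤ Sz σ (k + 1) := by
      have := Sz_mono σ (show m + 1 ≤ k + 1 by omega)
      omega
    have h4 : Sz σ (r + 1) ≤ Sz σ m := by
      have := Sz_mono σ (show r + 1 ≤ m by omega)
      omega
    omega

theorem Sz_rev (σ : ℕ → Multiset RT) (k : ℕ) : ∀ r, r ≤ k + 1 →
    Sz (rv σ k) r + Sz σ (k + 1 - r) = Sz σ (k + 1) := by
  intro r
  induction r with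
  | zero => intro _; simp [Sz]
  | succ r ih =>
    intro hr
    have h1 := ih (by omega)
    rw [Sz_succ]
    have h2 := Sz_succ σ (k - r)
    rw [show k + 1 - (r + 1) = k - r by omega]
    rw [show k + 1 - r = k - r + 1 by omega] at h1
    have h3 : rv σ k r = σ (k - r) := rfl
    rw [h3]
    omega

end LLpalAux

open LLpalAux in
theorem ll_comb (σ : ℕ → Multiset RT) (k : ℕ) (X : RT)
    (hc : ∀ R : RT, size R < Sz σ (k + 1) →
      (∀ m ≤ k, ∀ y ∈ σ m, size R + size y < Sz σ (k + 1) + size X) →
      ((Finset.Icc 1 k).filter (fun q => Lm (Function.update σ 0 (X ::ₘ σ 0)) q = {R})).card +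
        ((Finset.Icc 1 k).filter (fun q => Vm σ (k + 1) q = {R})).card =
      ((Finset.Icc 1 k).filter (fun q => Lm σ q = {R})).card +
        ((Finset.Icc 1 k).filter
          (fun q => Vm (Function.update σ k (X ::ₘ σ k)) (k + 1) q = {R})).card) :
    ∀ l ≤ k, σ l = σ (k - l) := by
  have hst : ∀ R : RT, Adm σ k X (size R) →
      cn (Lm (ax X σ)) k R + cn (Lm (rv σ k)) k R =
        cn (Lm σ) k R + cn (Lm (ax X (rv σ k))) k R := by
    intro R hR
    have h1 := hc R hR.1 hR.2
    have e1 : cn (Lm (rv σ k)) k R = cn (fun q => Vm σ (k + 1) q) k R := by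
      rw [cn_rev (fun q => Vm σ (k + 1) q)]
      refine cn_congr (fun q h1 h2 => ?_) R
      show Lm (rv σ k) q = Vm σ (k + 1) (k + 1 - q)
      rw [Vm_eq_Lm_rv σ (by omega), show k + 1 - (k + 1 - q) = q by omega]
    have e2 : cn (Lm (ax X (rv σ k))) k R =
        cn (fun q => Vm (Function.update σ k (X ::ₘ σ k)) (k + 1) q) k R := by
      rw [cn_rev (fun q => Vm (Function.update σ k (X ::ₘ σ k)) (k + 1) q)]
      refine cn_congr (fun q h1 h2 => ?_) R
      show Lm (ax X (rv σ k)) q = Vm (Function.update σ k (X ::ₘ σ k)) (k + 1) (k + 1 - q)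
      rw [Vm_eq_Lm_rv _ (by omega), show k + 1 - (k + 1 - q) = q by omega]
      refine Lm_congr fun m hm => ?_
      unfold ax rv
      by_cases hm0 : m = 0
      · subst hm0
        rw [Function.update_self, Nat.sub_zero, Function.update_self]
      · rw [Function.update_of_ne hm0, Function.update_of_ne (by omega)]
    rw [e1, e2]
    exact h1
  have hX := size_pos X
  -- the number of admissible positions
  classical
  have hadm0 : Adm σ k X (Sz σ 0) := by
    have h0 : Sz σ 0 = 0 := by simp [Sz]
    have hlt : ∀ m ≤ k, ∀ y ∈ σ m, size y < Sz σ (k + 1) := by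
      intro m hm y hy
      have h1 := size_le_sz hy
      have h2 := Sz_succ σ m
      have h3 := Sz_mono σ (show m + 1 ≤ k + 1 by omega)
      omega
    refine ⟨?_, ?_⟩
    · have := le_Sz σ (k + 1)
      omega
    · intro m hm y hy
      have := hlt m hm y hy
      omega
  set r := Nat.findGreatest (fun q => Adm σ k X (Sz σ q)) k with hr
  have hrk : r ≤ k := Nat.findGreatest_le k
  have hadr : Adm σ k X (Sz σ r) :=
    Nat.findGreatest_spec (P := fun q => Adm σ k X (Sz σ q)) (Nat.zero_le k) hadm0
  have hpal := claim hst r hrk (Or.inl hadr)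
  have h2r : k ≤ 2 * r := by
    by_contra hcon
    have hr1 : r + 1 ≤ k := by omega
    have hna : ¬ Adm σ k X (Sz σ (r + 1)) :=
      Nat.findGreatest_is_greatest (P := fun q => Adm σ k X (Sz σ q)) (by omega) hr1
    have hnb : ¬ Adm σ k X (Sz (rv σ k) (r + 1)) := by
      intro h
      have := claim hst (r + 1) hr1 (Or.inr h)
      apply hna
      rw [Sz_congr this]
      exact h
    have hsum : Sz (rv σ k) (r + 1) + Sz σ (r + 1) ≤ Sz σ (k + 1) := by
      have h1 := Sz_rev σ k (r + 1) (by omega)
      have h2 := Sz_mono σ (show r + 1 ≤ k + 1 - (r + 1) by omega)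
      omega
    have hpa := le_Sz σ (r + 1)
    have hpb := le_Sz (rv σ k) (r + 1)
    have hrw : Sz (rv σ k) (k + 1) = Sz σ (k + 1) := Sz_rv σ k
    have h1 : ∃ m ≤ k, ∃ y ∈ σ m, Sz σ (k + 1) + size X ≤ Sz σ (r + 1) + size y := by
      by_contra hcon2
      push Not at hcon2
      exact hna ⟨by omega, hcon2⟩
    have h2 : ∃ m ≤ k, ∃ y ∈ rv σ k m,
        Sz σ (k + 1) + size X ≤ Sz (rv σ k) (r + 1) + size y := by
      by_contra hcon2
      push Not at hcon2
      refine hnb ⟨by omega, fun m hm y hy => ?_⟩
      refine hcon2 (k - m) (by omega) y ?_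
      rw [show rv σ k (k - m) = σ (k - (k - m)) from rfl, show k - (k - m) = m by omega]
      exact hy
    obtain ⟨m, hm, y, hy, hy2⟩ := h1
    obtain ⟨m', hm', y', hy', hy2'⟩ := h2
    have h3 := front (σ := σ) (k := k) (r := r) hrk (by omega)
      (show Sz σ (k + 1) < Sz σ (k + 1) + size X by omega) hm hy hy2
    have h4 := front (σ := rv σ k) (k := k) (r := r) (n := Sz σ (k + 1) + size X) hrk (by omega)
      (by omega) hm' hy' hy2'
    omega
  intro l hl
  by_cases h1 : l < r
  · exact hpal l h1
  · by_cases h2 : k - l < r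
    · have h3 := hpal (k - l) h2
      rw [show rv σ k (k - l) = σ (k - (k - l)) from rfl, show k - (k - l) = l by omega] at h3
      exact h3.symm
    · rw [show k - l = l by omega]

end

end TRD
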