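import Pool.Agent.Lib.TRD.LLcount
import Pool.Agent.Lib.TRD.LLpal
import Pool.Agent.Lib.TRD.ClsWord

/-! # TRD.LL (MP_2e3d39_co)

The limb lemma.

* `ll_pal` = `ll_count` + `ll_comb`.
* `ll`: `cls_word h1` gives k, σ with W = node (σ 0 + Vm σ (k+1) 1), W' = node (σ k + Lm σ k). h2 is the hypothesis of `ll_pal` (ch_node). So σ l = σ (k-l). Then Vm σ (k+1) q = Lm σ (k+1-q) for 1 ≤ q ≤ k+1:
  `Vm_eq_Lm_rv` (D = k) and `Lm_congr` (rv σ k m = σ (k-m) = σ m). At q = 1: Vm σ (k+1) 1 = Lm σ k, and σ 0 = σ k, so W = W'.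
-/

open Multiset

namespace TRD

noncomputable section

theorem ll_pal (σ : ℕ → Multiset RT) (k : ℕ) (X : RT)
    (h : cls (node (X ::ₘ (σ 0 + Vm σ (k + 1) 1))) = cls (node (X ::ₘ (σ k + Lm σ k)))) :
    ∀ l ≤ k, σ l = σ (k - l) :=
  ll_comb σ k X (fun R h1 h2 => ll_count σ k X h R h1 h2)

theorem ll {X W W' : RT} (h1 : cls W = cls W')
    (h2 : cls (node (X ::ₘ ch W)) = cls (node (X ::ₘ ch W'))) : W = W' := by
  obtain ⟨k, σ, hW, hW'⟩ := cls_word h1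
  rw [hW, hW', ch_node, ch_node] at h2
  have hp := ll_pal σ k X h2
  have hV : Vm σ (k + 1) 1 = Lm σ k := by
    rw [Vm_eq_Lm_rv σ (by omega : 1 ≤ k + 1), Nat.add_sub_cancel]
    apply Lm_congr
    intro m hm
    unfold rv
    exact (hp m (le_of_lt hm)).symm
  have h0 : σ 0 = σ k := by
    have := hp 0 (Nat.zero_le k)
    rwa [Nat.sub_zero] at this
  rw [hW, hW', hV, h0]

end

end TRD
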