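import Pool.Agent.Lib.TRD.Unroll
import Pool.Agent.Lib.TRD.LL
import Pool.Agent.Lib.TRD.CwEq

/-! # TRD.GapA (MP_2e3d39_co)

Two type R pairs: the two truncated limbs A (element of Vm μ i' i) and A' (element of Vm ν j' j) are different if they have at most 3 vertices.

`two_r`. Vm μ i' i = Lm ν (d'+1-i) = {A}, Vm ν j' j = Lm μ (d'+1-j) = {A'}, ht A = d' - i, ht A' = d' - j (`hb_Lm`; d'+1-i ≤ (d'+1)/2 ≤ D.. by GW; i ≤ d' because i ≤ dm μ i + 1 ≤ d').
Suppose A = A'. Then i = j. κ = d' - i = ht A ≤ size A - 1 ≤ 2 (`ht_lt_size`). Lm ν (κ+1) = {A} = Lm μ (κ+1). Letters: μ m = ν (d'-m) for κ < m < i (d' < m + i iff κ < m), d' = i + κ.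
Put k = i - κ - 2 (i ≥ E/2+1 ≥ 6), σ l = μ (κ+1+l). For l ≤ k: ν (κ+1+l) = μ (i-1-l) = σ (k - l) (apply the letter relation at m = i-1-l: d' - m = κ+1+l).
cw μ i = cls (node (Lm μ (κ+1) + μ (κ+1) + Vm μ i (κ+2))) (`cw_eq`) = cls (node (A ::ₘ (σ 0 + Vm σ (k+1) 1))): Vm μ i (κ+2) = Vm σ (k+1) 1 (shift of the word: general lemma Vk μ n (a+b) = Vk (fun l => μ (a+l)) n b by induction).
cw ν i = cls (node (A ::ₘ (ν (κ+1) + Vm ν i (κ+2)))) = cls (node (A ::ₘ (σ k + Lm σ k))): ν (κ+1) = σ k and Vm ν i (κ+2) = Vm τ (k+1) 1 with τ l = σ (k-l) for l ≤ k, and Vm (rv σ k) (k+1) 1 = Lm σ k (`Lm_eq_Vm_rv` with D = k, h = k: Lm σ k = Vm (rv σ k) (k+1) 1).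
hc: cw μ i = cw ν j = cw ν i. `ll_pal`: σ l = σ (k-l) for l ≤ k. So ν m = μ m for κ < m < i. By induction Lm μ t = Lm ν t for κ+1 ≤ t ≤ i. t = (d+1)/2: d + 1 ≥ i ≥ 6 so t ≥ 3 ≥ κ+1, and t ≤ i (d < E, (d+1)/2 ≤ E/2 < i). Contradiction to hne.
-/

open Multiset

namespace TRD

noncomputable section

namespace GapAAux

theorem Vk_shift (μ : ℕ → Multiset RT) (a : ℕ) : ∀ (n b : ℕ),
    Vk μ n (a + b) = Vk (fun l => μ (a + l)) n b := by
  intro n
  induction n with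
  | zero =>
    intro b
    rfl
  | succ n ih =>
    intro b
    show ({node (μ (a + b) + Vk μ n (a + b + 1))} : Multiset RT) =
      {node (μ (a + b) + Vk (fun l => μ (a + l)) n (b + 1))}
    rw [add_assoc a b 1, ih (b + 1)]

end GapAAux

theorem gap_a {μ ν : ℕ → Multiset RT} {D E i j d i' j' d' : ℕ} (hμ : GW μ D) (hν : GW ν E)
    (hE : 10 ≤ E) (h : TyR μ ν D E i j d) (h' : TyR μ ν D E i' j' d') (hii : i < i') {A : RT}
    (hA : Vm μ i' i = {A}) (hA' : Vm ν j' j = {A}) : 4 ≤ size A := by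
  by_contra hcon
  obtain ⟨hjj, hdd, _, _, hlet, hV1, hV2⟩ := two_r hμ hν h h' hii
  have a1 := h.hi
  have a2 := h.hj
  have a3 := h.hiD
  have a4 := h.hjE
  have a5 := h.hdE
  have a6 := h'.hdE
  have a7 := h'.hiD
  have a8 := h'.hjE
  have b1 := le_dm_self μ (i := i) (by omega)
  have b2 := le_dm_self ν (i := j) (by omega)
  rw [h.hd] at b1
  rw [h.hd'] at b2
  have hLν : Lm ν (d' + 1 - i) = {A} := hV1.symm.trans hA
  have hLμ : Lm μ (d' + 1 - j) = {A} := hV2.symm.trans hA'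
  have c1 : hb (Lm ν (d' + 1 - i)) = d' + 1 - i := hb_Lm ν (fun l hl => (hν l (by omega)).1)
  have c2 : hb (Lm μ (d' + 1 - j)) = d' + 1 - j := hb_Lm μ (fun l hl => (hμ l (by omega)).1)
  rw [hLν, hb_singleton] at c1
  rw [hLμ, hb_singleton] at c2
  have hij : i = j := by omega
  subst hij
  have c3 := ht_lt_size A
  obtain ⟨κ, hκ⟩ : ∃ κ, ht A = κ := ⟨_, rfl⟩
  rw [hκ] at c1 c2 c3
  have hκ2 : κ ≤ 2 := by omega
  have hd' : d' = κ + i := by omega
  have e1 : d' + 1 - i = κ + 1 := by omega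
  rw [e1] at hLν hLμ
  obtain ⟨k, hk⟩ : ∃ k, i = κ + 2 + k := ⟨i - (κ + 2), by omega⟩
  set σ : ℕ → Multiset RT := fun l => μ (κ + 1 + l) with hσ
  have hrel : ∀ l ≤ k, ν (κ + 1 + l) = σ (k - l) := by
    intro l hl
    have h1 := hlet (i - 1 - l) (by omega) (by omega)
    have h2 : d' - (i - 1 - l) = κ + 1 + l := by omega
    rw [h2] at h1
    rw [← h1]
    show μ (i - 1 - l) = μ (κ + 1 + (k - l))
    congr 1
    omega
  have hcμ := cw_eq μ (h := κ + 1) (i := i) (by omega)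
  have hcν := cw_eq ν (h := κ + 1) (i := i) (by omega)
  have hik : i - (κ + 1 + 1) = k := by omega
  have hVμ : Vm μ i (κ + 1 + 1) = Vm σ (k + 1) 1 := by
    unfold Vm
    rw [hik, Nat.add_sub_cancel]
    exact GapAAux.Vk_shift μ (κ + 1) k 1
  have hVν : Vm ν i (κ + 1 + 1) = Lm σ k := by
    rw [Lm_eq_Vm_rv σ (D := k) (h := k) (by omega)]
    have e2 : k + 1 - k = 1 := by omega
    rw [e2]
    have h3 : Vm ν i (κ + 1 + 1) = Vm (fun l => ν (κ + 1 + l)) (k + 1) 1 := by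
      unfold Vm
      rw [hik, Nat.add_sub_cancel]
      exact GapAAux.Vk_shift ν (κ + 1) k 1
    rw [h3]
    apply Vm_congr
    intro m hm1 hm2
    exact hrel m (by omega)
  rw [hLμ, hVμ] at hcμ
  rw [hLν, hVν] at hcν
  have hν0 : ν (κ + 1) = σ k := by
    have h3 := hrel 0 (Nat.zero_le k)
    rw [Nat.sub_zero, add_zero] at h3
    exact h3
  have hμ0 : μ (κ + 1) = σ 0 := rfl
  rw [hμ0, add_assoc, Multiset.singleton_add] at hcμ
  rw [hν0, add_assoc, Multiset.singleton_add] at hcν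
  have hp := ll_pal σ k A (hcμ.trans (h.hc.trans hcν.symm))
  have hsame : ∀ l ≤ k, ν (κ + 1 + l) = μ (κ + 1 + l) := by
    intro l hl
    rw [hrel l hl, ← hp l hl]
  have hLL : ∀ t, κ + 1 ≤ t → t ≤ i → Lm μ t = Lm ν t := by
    intro t ht
    induction t, ht using Nat.le_induction with
    | base =>
      intro _
      rw [hLμ, hLν]
    | succ t ht ih =>
      intro hti
      have h3 := ih (by omega)
      show ({node (μ t + Lm μ t)} : Multiset RT) = {node (ν t + Lm ν t)}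
      have h4 := hsame (t - (κ + 1)) (by omega)
      have e3 : κ + 1 + (t - (κ + 1)) = t := by omega
      rw [e3] at h4
      rw [h3, h4]
  exact h.hne (hLL ((d + 1) / 2) (by omega) (by omega))

end

end TRD
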