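import Pool.Agent.Lib.TRD.GapA

/-! # TRD.GapThree (MP_2e3d39_co)

Gaps between type R pairs are at least 3; gap 3 forces the indices.

ω = Sz μ i' - Sz μ i ≥ 1. Vm μ i' i = {A}, Vm ν j' j = {A'} (i < i', j < j' by `two_r`), size A = ω = size A' (`sz_Vm`; Sz μ i = Sz ν j, Sz μ i' = Sz ν j').
A tree of size 1 is node 0, of size 2 is node {node 0}, of size 3 is node {node {node 0}} (height 2) or node {node 0, node 0} (height 1) (`size_node`; a multiset of trees with sz 0, 1, 2). So if ω ≤ 2 then A = A', contradiction to `gap_a`. So ω ≥ 3. If ω = 3, A ≠ A' by `gap_a`, so {A, A'} = {node {node {node 0}}, node {node 0, node 0}}.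
ht A + 1 = d' + 1 - i, ht A' + 1 = d' + 1 - j (`hb_Lm` for Lm ν (d'+1-i), Lm μ (d'+1-j)).
Case A = node {node {node 0}}, A' = node {node 0, node 0}: d' - i = 2, d' - j = 1, so j = i+1. `Vm_of_lt`: μ i + Vm μ i' (i+1) = {node {node 0}} has card 1, ν j + Vm ν j' (j+1) = {node 0, node 0} has card 2, card (Vm ..) ≤ 1. hdeg (i < i' ≤ D, j < j' ≤ E): card (μ i) = card (ν j), so both are 1, Vm μ i' (i+1) = 0 (i' ≤ i+1, so i' = i+1),
 and Vm ν j' (j+1) = {node 0} = {node (ν (j+1) + Vm ν j' (j+2))}, so Vm ν j' (j+2) = 0, j' = j+2. So j' = i+3 = i'+2.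
Case A = node {node 0, node 0}, A' = node {node {node 0}}: symmetric: i = j+1, j' = j+1, i' = i+2 = j'+2.
-/

open Multiset

namespace TRD

noncomputable section

private theorem sz_eq_zero {m : Multiset RT} (h : sz m = 0) : m = 0 := by
  have h1 := card_le_sz m
  exact Multiset.card_eq_zero.1 (by omega)

private theorem sz_eq_one {m : Multiset RT} (h : sz m = 1) : m = {node 0} := by
  induction m using Multiset.induction_on with
  | empty => simp [sz_zero] at h
  | cons a s _ =>
    rw [sz_cons] at h
    have h1 := size_pos a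
    have h2 := size_eq a
    have h3 : s = 0 := sz_eq_zero (by omega)
    have h4 : ch a = 0 := sz_eq_zero (by omega)
    rw [h3, ← node_ch a, h4]
    rfl

private theorem sz_eq_two {m : Multiset RT} (h : sz m = 2) :
    m = {node {node 0}} ∨ m = {node 0, node 0} := by
  induction m using Multiset.induction_on with
  | empty => simp [sz_zero] at h
  | cons a s _ =>
    rw [sz_cons] at h
    have h1 := size_pos a
    have h2 := size_eq a
    by_cases h5 : size a = 1
    · right
      have h3 : s = {node 0} := sz_eq_one (by omega)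
      have h4 : ch a = 0 := sz_eq_zero (by omega)
      rw [h3, ← node_ch a, h4]
      rfl
    · left
      have h3 : s = 0 := sz_eq_zero (by omega)
      have h4 : ch a = {node 0} := sz_eq_one (by omega)
      rw [h3, ← node_ch a, h4]
      rfl

private theorem ht_long : ht (node {node {node 0}}) = 2 := by
  rw [ht_node, hb_singleton, ht_node, hb_singleton, ht_node, hb_zero]

private theorem ht_wide : ht (node {node 0, node 0}) = 1 := by
  rw [ht_node, show ({node 0, node 0} : Multiset RT) = node 0 ::ₘ {node 0} from rfl, hb_cons,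
    hb_singleton, ht_node, hb_zero]
  rfl

private theorem case_three {μ ν : ℕ → Multiset RT} {i i' j j' : ℕ} (hii : i < i') (hjj : j < j')
    (hA : μ i + Vm μ i' (i + 1) = {node {node 0}})
    (hA' : ν j + Vm ν j' (j + 1) = {node 0, node 0}) (hdeg : card (μ i) = card (ν j)) :
    i' = i + 1 ∧ j' = j + 2 := by
  have h1 := congrArg card hA
  have h2 := congrArg card hA'
  rw [card_add, card_singleton] at h1
  rw [card_add, show card ({node 0, node 0} : Multiset RT) = 2 from rfl] at h2
  have h4 := card_Vm_le ν j' (j + 1)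
  constructor
  · by_contra hne
    have h5 := Vm_of_lt μ (i := i') (h := i + 1) (by omega)
    rw [h5, card_singleton] at h1
    omega
  · have h6 : j + 1 < j' := by
      by_contra hle
      rw [Vm_of_le ν (i := j') (h := j + 1) (by omega), card_zero] at h2
      omega
    have h7 := Vm_of_lt ν h6
    have h8 : node (ν (j + 1) + Vm ν j' (j + 1 + 1)) ∈ ({node 0, node 0} : Multiset RT) := by
      rw [← hA', h7]
      exact Multiset.mem_add.2 (Or.inr (Multiset.mem_singleton_self _))
    have h9 : node (ν (j + 1) + Vm ν j' (j + 1 + 1)) = node 0 := by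
      simpa using h8
    have h10 := node_inj h9
    have h11 : card (ν (j + 1)) + card (Vm ν j' (j + 1 + 1)) = 0 := by
      rw [← card_add, h10, card_zero]
    by_contra hne
    rw [Vm_of_lt ν (i := j') (h := j + 1 + 1) (by omega), card_singleton] at h11
    omega

theorem gap_three {μ ν : ℕ → Multiset RT} {D E i j d i' j' d' : ℕ} (hμ : GW μ D) (hν : GW ν E)
    (hE : 10 ≤ E) (h : TyR μ ν D E i j d) (h' : TyR μ ν D E i' j' d') (hii : i < i') :
    Sz μ i + 3 ≤ Sz μ i' ∧ (Sz μ i' = Sz μ i + 3 →
      (j = i + 1 ∧ j' = i' + 2) ∨ (i = j + 1 ∧ i' = j' + 2)) := by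
  obtain ⟨hjj, hdd, hs, hs', _, hVA, hVA'⟩ := two_r hμ hν h h' hii
  have hA := Vm_of_lt μ hii
  have hA' := Vm_of_lt ν hjj
  have hsA := sz_Vm μ hii.le
  have hsA' := sz_Vm ν hjj.le
  rw [hA, sz_singleton, size_node] at hsA
  rw [hA', sz_singleton, size_node] at hsA'
  have hg : node (μ i + Vm μ i' (i + 1)) = node (ν j + Vm ν j' (j + 1)) →
      4 ≤ 1 + sz (μ i + Vm μ i' (i + 1)) := by
    intro he
    rw [← size_node]
    exact gap_a hμ hν hE h h' hii hA (by rw [hA', he])
  have hszeq : sz (ν j + Vm ν j' (j + 1)) = sz (μ i + Vm μ i' (i + 1)) := by omega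
  have h3 : 2 ≤ sz (μ i + Vm μ i' (i + 1)) := by
    by_contra hlt
    have hne : 4 ≤ 1 + sz (μ i + Vm μ i' (i + 1)) := by
      apply hg
      congr 1
      by_cases h0 : sz (μ i + Vm μ i' (i + 1)) = 0
      · rw [sz_eq_zero h0, sz_eq_zero (hszeq.trans h0)]
      · have h1 : sz (μ i + Vm μ i' (i + 1)) = 1 := by omega
        rw [sz_eq_one h1, sz_eq_one (hszeq.trans h1)]
    omega
  refine ⟨by omega, fun heq => ?_⟩
  have h4 : sz (μ i + Vm μ i' (i + 1)) = 2 := by omega
  have h4' : sz (ν j + Vm ν j' (j + 1)) = 2 := hszeq.trans h4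
  have hd'D : d' ≤ D := by
    have := dm_GW hμ (i := i') (by have := h'.hiD; omega)
    rw [h'.hd] at this
    exact this
  have hiE := h.hi
  have hjE := h.hj
  have hdE := h'.hdE
  have hhA : ht (node (μ i + Vm μ i' (i + 1))) + 1 = d' + 1 - i := by
    rw [← hb_singleton, ← hA, hVA]
    exact hb_Lm ν fun m hm => (hν m (by omega)).1
  have hhA' : ht (node (ν j + Vm ν j' (j + 1))) + 1 = d' + 1 - j := by
    rw [← hb_singleton, ← hA', hVA']
    exact hb_Lm μ fun m hm => (hμ m (by omega)).1
  have hdeg : card (μ i) = card (ν j) :=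
    h.hdeg (by have := h'.hiD; omega) (by have := h'.hjE; omega)
  rcases sz_eq_two h4 with hc | hc <;> rcases sz_eq_two h4' with hc' | hc'
  · exfalso
    have := hg (by rw [hc, hc'])
    omega
  · left
    rw [hc, ht_long] at hhA
    rw [hc', ht_wide] at hhA'
    obtain ⟨e1, e2⟩ := case_three hii hjj hc hc' hdeg
    omega
  · right
    rw [hc, ht_wide] at hhA
    rw [hc', ht_long] at hhA'
    obtain ⟨e1, e2⟩ := case_three hjj hii hc' hc hdeg.symm
    omega
  · exfalso
    have := hg (by rw [hc, hc'])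
    omega

end

end TRD
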