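import Pool.Agent.Lib.TRD.Classify
import Pool.Agent.Lib.TRD.LLctx

/-! # TRD.KCount (MP_2e3d39_co)

Number of different results K = x - v = y - w, if the nodes of x have at most C children.

Induction on size x. x = node m, y = node m'. If S is empty: r = 0. Otherwise take K ∈ S, lift e, e' to labelled entries (`dl_eq_ldl`, mem_map): t ∈ ldl m, t' ∈ ldl m' with Rl m m' t t'. `classify`.
Case β for one pair: m = P ::ₘ (o' + s), m' = Q ::ₘ (o + s), P ≠ Q, o ≠ o'. Then (as in OneSplit/TwoPairs) for every other pair the multisets m - m' and m' - m are the same; (α) and (A) are impossible for other pairs: they would give card (m - m') = 1 = card (m' - m), while here m - m' = P ::ₘ o', m' - m = Q ::ₘ o are disjoint [P ≠ Q, P ∉ o, Q ∉ o' by size, o ≠ o'], and o, o' not both empty.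
  So for every pair (label P₂, Q₂, remainders o₂, o₂'): P₂ ::ₘ o₂' = m - m', Q₂ ::ₘ o₂ = m' - m. K = node (o₂ + m.erase P₂) is determined by P₂ ∈ m - m' (≤ 2 choices) and o₂ = (m' - m).erase Q₂ (≤ 2 choices): S.card ≤ 4, r = 0.
Case α or A: m = U ::ₘ s, m' = U' ::ₘ s, U ≠ U', size U = size U'. All pairs are α with labels U, U' or A (see the header of OneSplit).
  α: K = node (o + s) with o = 0 or o = {K'}. o = 0: then t.2.2 = ch U, t'.2.2 = ch U', (ch U).map cls = (ch U').map cls: a root level. o = {K'}: K' = e₁.1 with e₁ ∈ dl U, e₁' ∈ dl U', Gr e₁ e₁'. So these K are in bijection with a finite set S' satisfying the hypothesis for (U, U'): induction (Deg C U): S'.card ≤ r' + C log₂ (size U) + 4.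
  A: K = node ({U'} + m.erase A) with A ∈ s, size A > size U: determined by A, at most card s ≤ C different A (s ≤ m, card m ≤ C); if there is one then size x ≥ 1 + size U + size A ≥ 2 size U + 2, so log₂ (size x) ≥ log₂ (size U) + 1 (`Nat.log_mul_base`/monotonicity).
  r = r' + 1 if the root level occurs (RL.root), r = r' otherwise (RL.step).
-/

open Multiset

namespace TRD

noncomputable section

namespace KCountAux

private theorem deg_inv {C : ℕ} {x : RT} (h : Deg C x) : card (ch x) ≤ C ∧ ∀ y ∈ ch x, Deg C y := by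
  cases h with
  | mk m h1 h2 =>
    rw [ch_node]
    exact ⟨h1, h2⟩

private theorem diff_one {P Q : RT} (hPQ : P ≠ Q) (s : Multiset RT) :
    (P ::ₘ s) - (Q ::ₘ s) = {P} := by
  have h1 : P ::ₘ s = {P} + s := (Multiset.singleton_add P s).symm
  have h2 : Q ::ₘ s = {Q} + s := (Multiset.singleton_add Q s).symm
  rw [h1, h2, add_tsub_add_eq_tsub_right, Multiset.sub_singleton]
  apply Multiset.erase_of_notMem
  intro h
  exact hPQ (Multiset.mem_singleton.1 h).symm

private theorem sub_disj {A B : Multiset RT} (h : ∀ a ∈ A, a ∉ B) : A - B = A := by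
  rw [Multiset.ext]
  intro a
  rw [Multiset.count_sub]
  by_cases ha : a ∈ A
  · rw [Multiset.count_eq_zero_of_notMem (h a ha)]
    omega
  · rw [Multiset.count_eq_zero_of_notMem ha]
    omega

private theorem not_mem_small {P : RT} {o : Multiset RT × Multiset RT} (ho : o ∈ dlo P) :
    P ∉ o.1 := by
  intro h
  have h1 := dlo_size ho
  have h2 := size_le_sz h
  omega

private theorem disj_one {o o' : Multiset RT} (h1 : card o ≤ 1) (h2 : card o' ≤ 1) (hne : o ≠ o')
    {a : RT} (ha : a ∈ o) : a ∉ o' := by
  intro ha'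
  apply hne
  obtain ⟨t, rfl⟩ := Multiset.exists_cons_of_mem ha
  obtain ⟨t', rfl⟩ := Multiset.exists_cons_of_mem ha'
  rw [Multiset.card_cons] at h1 h2
  have e1 : t = 0 := Multiset.card_eq_zero.1 (by omega)
  have e2 : t' = 0 := Multiset.card_eq_zero.1 (by omega)
  rw [e1, e2]

private theorem diff_two {P Q : RT} {o o' : Multiset RT × Multiset RT} (ho : o ∈ dlo P)
    (ho' : o' ∈ dlo Q) (hPQ : P ≠ Q) (hoo : o.1 ≠ o'.1) (s : Multiset RT) :
    (P ::ₘ (o'.1 + s)) - (Q ::ₘ (o.1 + s)) = P ::ₘ o'.1 := by
  have h1 : P ::ₘ (o'.1 + s) = (P ::ₘ o'.1) + s := by rw [Multiset.cons_add]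
  have h2 : Q ::ₘ (o.1 + s) = (Q ::ₘ o.1) + s := by rw [Multiset.cons_add]
  rw [h1, h2, add_tsub_add_eq_tsub_right]
  apply sub_disj
  intro a ha hb
  rcases Multiset.mem_cons.1 ha with h3 | h3
  · subst h3
    rcases Multiset.mem_cons.1 hb with h4 | h4
    · exact hPQ h4
    · exact not_mem_small ho h4
  · rcases Multiset.mem_cons.1 hb with h4 | h4
    · subst h4
      exact not_mem_small ho' h3
    · exact disj_one (dlo_card ho) (dlo_card ho') hoo h4 h3

/-- the witness of an element of `S` -/
private theorem wit {m m' : Multiset RT} {K : RT}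
    (h : ∃ e ∈ dl (node m), ∃ e' ∈ dl (node m'), e.1 = K ∧ Gr e e') :
    ∃ t ∈ ldl m, ∃ t' ∈ ldl m', Rl m m' t t' ∧ K = node (t.2.1 + m.erase t.1) := by
  obtain ⟨e, he, e', he', h1, h2, h3⟩ := h
  rw [dl_eq_ldl, Multiset.mem_map] at he he'
  obtain ⟨t, ht, rfl⟩ := he
  obtain ⟨t', ht', rfl⟩ := he'
  exact ⟨t, ht, t', ht', ⟨node_inj h2, h3⟩, h1.symm⟩

private theorem toFinset_le (s : Multiset RT) [DecidableEq RT] : s.toFinset.card ≤ card s :=
  Multiset.toFinset_card_le s

end KCountAux

open KCountAux in
theorem k_count {C : ℕ} {x y : RT} (hne : x ≠ y) (hsz : size x = size y) (hdeg : Deg C x)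
    (S : Finset RT) (hS : ∀ K ∈ S, ∃ e ∈ dl x, ∃ e' ∈ dl y, e.1 = K ∧ Gr e e') :
    ∃ r, RL r x y ∧ S.card ≤ r + C * Nat.log 2 (size x) + 4 := by
  classical
  obtain ⟨n, hn⟩ : ∃ n, size x = n := ⟨_, rfl⟩
  induction n using Nat.strong_induction_on generalizing x y S with
  | _ n ih =>
  obtain ⟨m, rfl⟩ : ∃ m, x = node m := ⟨ch x, (node_ch x).symm⟩
  obtain ⟨m', rfl⟩ : ∃ m', y = node m' := ⟨ch y, (node_ch y).symm⟩
  have hmm : m ≠ m' := fun h => hne (by rw [h])
  have hszm : sz m = sz m' := by
    rw [size_node, size_node] at hsz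
    omega
  have hW : ∀ K ∈ S, ∃ t ∈ ldl m, ∃ t' ∈ ldl m', Rl m m' t t' ∧
      K = node (t.2.1 + m.erase t.1) := fun K hK => wit (hS K hK)
  rcases S.eq_empty_or_nonempty with hSe | ⟨K0, hK0⟩
  · refine ⟨0, RL.zero _ _, ?_⟩
    rw [hSe, Finset.card_empty]
    exact Nat.zero_le _
  -- a description of the case of one difference
  by_cases hD : card (m - m') = 1 ∧ card (m' - m) = 1
  · -- one tree differs
    have hone : ∃ U U' s, U ≠ U' ∧ size U = size U' ∧ m = U ::ₘ s ∧ m' = U' ::ₘ s := by
      obtain ⟨t, ht, t', ht', hR, _⟩ := hW K0 hK0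
      rcases classify hmm hszm ht ht' hR with ⟨_, hPQ, hs, s, e1, e2⟩ |
        ⟨_, U, U', s, hU, hUs, _, e1, e2, _⟩ | ⟨hPQ, ho, s, e1, e2⟩
      · exact ⟨t.1, t'.1, s, hPQ, hs, e1, e2⟩
      · exact ⟨U, U', s, hU, hUs, e1, e2⟩
      · exfalso
        have d1 := (mem_ldl.1 ht).2
        have d2 := (mem_ldl.1 ht').2
        have h1 : m - m' = t.1 ::ₘ t'.2.1 := by
          rw [e1, e2]
          exact diff_two d1 d2 hPQ ho s
        have h2 : m' - m = t'.1 ::ₘ t.2.1 := by
          rw [e1, e2]
          exact diff_two d2 d1 hPQ.symm ho.symm s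
        rw [h1, h2, Multiset.card_cons, Multiset.card_cons] at hD
        apply ho
        rw [Multiset.card_eq_zero.1 (by omega : card t.2.1 = 0),
          Multiset.card_eq_zero.1 (by omega : card t'.2.1 = 0)]
    obtain ⟨U, U', s, hU, hUs, hm, hm'⟩ := hone
    have hdm : m - m' = {U} := by rw [hm, hm']; exact diff_one hU s
    have hdm' : m' - m = {U'} := by rw [hm, hm']; exact diff_one hU.symm s
    have huniq : ∀ (P Q : RT) (s₁ : Multiset RT), P ≠ Q → m = P ::ₘ s₁ → m' = Q ::ₘ s₁ →
        P = U ∧ Q = U' ∧ s₁ = s := by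
      intro P Q s₁ hPQ e1 e2
      have h1 : m - m' = {P} := by rw [e1, e2]; exact diff_one hPQ s₁
      have h2 : m' - m = {Q} := by rw [e1, e2]; exact diff_one hPQ.symm s₁
      rw [hdm] at h1
      rw [hdm'] at h2
      have h3 : U = P := Multiset.singleton_inj.1 h1
      have h4 : U' = Q := Multiset.singleton_inj.1 h2
      subst h3
      refine ⟨rfl, h4.symm, ?_⟩
      rw [hm] at e1
      exact ((Multiset.cons_inj_right U).1 e1).symm
    set S' : Finset RT := (((dl U).map Prod.fst).toFinset).filter (fun K' =>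
      ∃ e ∈ dl U, ∃ e' ∈ dl U', e.1 = K' ∧ Gr e e') with hS'
    set FA : Finset RT := s.toFinset.filter (fun A => size U < size A) with hFA
    set ε : ℕ := if (ch U).map cls = (ch U').map cls then 1 else 0 with hε
    set R0 : Finset RT := if (ch U).map cls = (ch U').map cls then {node s} else ∅ with hR0
    have hR0c : R0.card ≤ ε := by
      rw [hR0, hε]
      split_ifs
      · simp
      · simp
    have hsub : S ⊆ (S'.image (fun K' => node (K' ::ₘ s)) ∪ R0) ∪
        FA.image (fun A => node ({U'} + m.erase A)) := by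
      intro K hK
      obtain ⟨t, ht, t', ht', hR, hKe⟩ := hW K hK
      have d1 := mem_ldl.1 ht
      have d2 := mem_ldl.1 ht'
      rcases classify hmm hszm ht ht' hR with ⟨hoo, hPQ, _, s₁, e1, e2⟩ |
        ⟨htt, U₁, U₁', s₁, hU₁, _, hlt, e1, e2, hmem, ho1, _⟩ | ⟨hPQ, ho, s₁, e1, e2⟩
      · obtain ⟨h1, h2, h3⟩ := huniq _ _ _ hPQ e1 e2
        have hme : m.erase t.1 = s := by
          rw [e1, Multiset.erase_cons_head, h3]
        rw [hme] at hKe
        have c1 := d1.2
        have c2 := d2.2
        rw [h1] at c1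
        rw [h2] at c2
        rw [Finset.mem_union, Finset.mem_union]
        left
        rcases mem_dlo.1 c1 with f1 | ⟨e₁, he₁, f1⟩
        · rcases mem_dlo.1 c2 with f2 | ⟨e₁', he₁', f2⟩
          · right
            have h5 : (ch U).map cls = (ch U').map cls := by
              have h6 := hR.2
              rw [f1, f2] at h6
              exact h6
            rw [hR0, if_pos h5, Finset.mem_singleton, hKe, f1, zero_add]
          · exfalso
            rw [f1, f2] at hoo
            exact absurd hoo.symm (Multiset.singleton_ne_zero _)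
        · rcases mem_dlo.1 c2 with f2 | ⟨e₁', he₁', f2⟩
          · exfalso
            rw [f1, f2] at hoo
            exact absurd hoo (Multiset.singleton_ne_zero _)
          · left
            rw [f1, f2] at hoo
            have h5 : e₁.1 = e₁'.1 := Multiset.singleton_inj.1 hoo
            have h6 := hR.2
            rw [f1, f2] at h6
            rw [Finset.mem_image]
            refine ⟨e₁.1, ?_, ?_⟩
            · rw [hS', Finset.mem_filter, Multiset.mem_toFinset]
              exact ⟨Multiset.mem_map_of_mem _ he₁, e₁, he₁, e₁', he₁', rfl, h5, h6⟩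
            · rw [hKe, f1, Multiset.singleton_add]
      · obtain ⟨h1, h2, h3⟩ := huniq _ _ _ hU₁ e1 e2
        rw [Finset.mem_union]
        right
        rw [Finset.mem_image]
        refine ⟨t.1, ?_, ?_⟩
        · rw [hFA, Finset.mem_filter, Multiset.mem_toFinset]
          rw [h3] at hmem
          rw [h1] at hlt
          exact ⟨hmem, hlt⟩
        · rw [hKe, ho1, h2]
      · exfalso
        have h1 : m - m' = t.1 ::ₘ t'.2.1 := by
          rw [e1, e2]
          exact diff_two d1.2 d2.2 hPQ ho s₁
        have h2 : m' - m = t'.1 ::ₘ t.2.1 := by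
          rw [e1, e2]
          exact diff_two d2.2 d1.2 hPQ.symm ho.symm s₁
        rw [h1, h2, Multiset.card_cons, Multiset.card_cons] at hD
        apply ho
        rw [Multiset.card_eq_zero.1 (by omega : card t.2.1 = 0),
          Multiset.card_eq_zero.1 (by omega : card t'.2.1 = 0)]
    have hcard : S.card ≤ S'.card + ε + FA.card := by
      have h1 := Finset.card_le_card hsub
      have h2 := Finset.card_union_le (S'.image (fun K' => node (K' ::ₘ s)) ∪ R0)
        (FA.image (fun A => node ({U'} + m.erase A)))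
      have h3 := Finset.card_union_le (S'.image (fun K' => node (K' ::ₘ s))) R0
      have h4 : (S'.image (fun K' => node (K' ::ₘ s))).card ≤ S'.card := Finset.card_image_le
      have h5 : (FA.image (fun A => node ({U'} + m.erase A))).card ≤ FA.card :=
        Finset.card_image_le
      omega
    obtain ⟨hdc, hdy⟩ := deg_inv hdeg
    rw [ch_node] at hdc hdy
    have hUm : U ∈ m := by
      rw [hm]
      exact Multiset.mem_cons_self U s
    have hsx : size (node m) = 1 + (size U + sz s) := by
      rw [size_node, hm, sz_cons]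
    obtain ⟨r', hr', hc'⟩ := ih (size U) (by omega) hU hUs (hdy U hUm) S' (by
      intro K hK
      rw [hS', Finset.mem_filter] at hK
      exact hK.2) rfl
    have hRL : RL (r' + ε) (node m) (node m') := by
      rw [hm, hm', hε]
      split_ifs with h
      · exact RL.root r' U U' s hr' h
      · exact RL.step r' U U' s hr'
    refine ⟨r' + ε, hRL, ?_⟩
    have hFs : FA.card ≤ C := by
      have h1 : FA.card ≤ s.toFinset.card := Finset.card_filter_le _ _
      have h2 := toFinset_le s
      have h3 : card m = card s + 1 := by rw [hm, Multiset.card_cons]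
      omega
    have hmono : Nat.log 2 (size U) ≤ Nat.log 2 (size (node m)) :=
      Nat.log_mono_right (by omega)
    rcases Nat.eq_zero_or_pos FA.card with h0 | h0
    · have h1 : C * Nat.log 2 (size U) ≤ C * Nat.log 2 (size (node m)) :=
        Nat.mul_le_mul_left C hmono
      omega
    · obtain ⟨A, hA⟩ := Finset.card_pos.1 h0
      rw [hFA, Finset.mem_filter, Multiset.mem_toFinset] at hA
      have h1 := size_le_sz hA.1
      have h2 : size U * 2 ≤ size (node m) := by omega
      have h3 : Nat.log 2 (size U) + 1 ≤ Nat.log 2 (size (node m)) := by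
        have h4 := Nat.log_mul_base (b := 2) (n := size U) (by norm_num)
          (by have := size_pos U; omega)
        rw [← h4]
        exact Nat.log_mono_right h2
      have h5 : C * (Nat.log 2 (size U) + 1) ≤ C * Nat.log 2 (size (node m)) :=
        Nat.mul_le_mul_left C h3
      rw [Nat.mul_add, Nat.mul_one] at h5
      omega
  · -- two trees differ
    refine ⟨0, RL.zero _ _, ?_⟩
    have hbeta : ∀ K ∈ S, ∃ P ∈ m - m', ∃ Q ∈ m' - m, card (m - m') ≤ 2 ∧ card (m' - m) ≤ 2 ∧
        K = node ((m' - m).erase Q + m.erase P) := by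
      intro K hK
      obtain ⟨t, ht, t', ht', hR, hKe⟩ := hW K hK
      have d1 := mem_ldl.1 ht
      have d2 := mem_ldl.1 ht'
      rcases classify hmm hszm ht ht' hR with ⟨_, hPQ, _, s₁, e1, e2⟩ |
        ⟨_, U₁, U₁', s₁, hU₁, _, _, e1, e2, _⟩ | ⟨hPQ, ho, s₁, e1, e2⟩
      · exfalso
        apply hD
        have h1 : m - m' = {t.1} := by rw [e1, e2]; exact diff_one hPQ s₁
        have h2 : m' - m = {t'.1} := by rw [e1, e2]; exact diff_one hPQ.symm s₁
        rw [h1, h2]
        exact ⟨Multiset.card_singleton _, Multiset.card_singleton _⟩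
      · exfalso
        apply hD
        have h1 : m - m' = {U₁} := by rw [e1, e2]; exact diff_one hU₁ s₁
        have h2 : m' - m = {U₁'} := by rw [e1, e2]; exact diff_one hU₁.symm s₁
        rw [h1, h2]
        exact ⟨Multiset.card_singleton _, Multiset.card_singleton _⟩
      · have h1 : m - m' = t.1 ::ₘ t'.2.1 := by
          rw [e1, e2]
          exact diff_two d1.2 d2.2 hPQ ho s₁
        have h2 : m' - m = t'.1 ::ₘ t.2.1 := by
          rw [e1, e2]
          exact diff_two d2.2 d1.2 hPQ.symm ho.symm s₁
        have c1 := dlo_card d1.2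
        have c2 := dlo_card d2.2
        refine ⟨t.1, ?_, t'.1, ?_, ?_, ?_, ?_⟩
        · rw [h1]
          exact Multiset.mem_cons_self _ _
        · rw [h2]
          exact Multiset.mem_cons_self _ _
        · rw [h1, Multiset.card_cons]
          omega
        · rw [h2, Multiset.card_cons]
          omega
        · rw [hKe, h2, Multiset.erase_cons_head]
    have hsub : S ⊆ ((m - m').toFinset ×ˢ (m' - m).toFinset).image
        (fun p => node ((m' - m).erase p.2 + m.erase p.1)) := by
      intro K hK
      obtain ⟨P, hP, Q, hQ, _, _, hKe⟩ := hbeta K hK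
      rw [Finset.mem_image]
      refine ⟨(P, Q), ?_, hKe.symm⟩
      rw [Finset.mem_product, Multiset.mem_toFinset, Multiset.mem_toFinset]
      exact ⟨hP, hQ⟩
    obtain ⟨_, _, _, _, c1, c2, _⟩ := hbeta K0 hK0
    have h1 := Finset.card_le_card hsub
    have h2 : (((m - m').toFinset ×ˢ (m' - m).toFinset).image
        (fun p => node ((m' - m).erase p.2 + m.erase p.1))).card ≤
        ((m - m').toFinset ×ˢ (m' - m).toFinset).card := Finset.card_image_le
    rw [Finset.card_product] at h2
    have h3 := toFinset_le (m - m')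
    have h4 := toFinset_le (m' - m)
    have h5 : (m - m').toFinset.card * (m' - m).toFinset.card ≤ 2 * 2 :=
      Nat.mul_le_mul (by omega) (by omega)
    omega

end

end TRD
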