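import Pool.Agent.Lib.TRD.BrWord
import Pool.Agent.Lib.TRD.CwEq

/-! # TRD.LLcount (MP_2e3d39_co)

The counting identity of the limb lemma.

σa = σ with X added at position 0, σb = σ with X added at position k. Hypothesis: the two trees are isomorphic as unrooted trees; both have
n = Sz σ (k+1) + size X vertices. Conclusion: for every code R such that size R < Sz σ (k+1) and size R + size y < n for all bushes y of σ:
  #{q : α^X_q = R} + #{q : β_q = R} = #{q : α_q = R} + #{q : β^X_q = R}.

Proof. `br_cls` gives Br (tree a) = Br (tree b). Tree b = node (X ::ₘ (σ k + Lm σ k)) has the same class as node (σb 0 + Vm σb (k+1) 1)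
(`cw_eq` for σb at h = k and h = 0, with Lm σb k = Lm σ k by Lm_congr). Apply `br_word` to σa and σb and count R (`Multiset.count R`) on both sides.
The bind-sums differ from that of σ only by the term of X at position 0 resp. k: the same (X ::ₘ Dn X). The rest multisets do not contain R: an element c of the rest has
Sz σa (k+1) ≤ size c + size y with y ∈ σa m, i.e. y ∈ σ m or y = X, so size c ≥ n - size y resp. size c ≥ n - size X = Sz σ (k+1).
`Multiset.count_sum'`: count R (∑ q, (Lm σa q + Vm σa (k+1) q)) = ∑ q, (count R (Lm σa q) + count R (Vm ..)), and for a multiset which is a singleton {z}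
count R {z} = if {z} = {R} then 1 else 0; sum of indicators = card of the filter (`Finset.card_filter`). For q in Icc 1 k: Vm σa (k+1) q = Vm σ (k+1) q, Lm σb q = Lm σ q by congr
(`Function.update` at 0 resp. k). The multisets Lm _ q, Vm _ (k+1) q (1 ≤ q ≤ k) are singletons (`Lm_single`, `Vm_of_lt`).
-/

open Multiset

namespace TRD

noncomputable section

namespace LLcountAux

theorem bind_upd (σ : ℕ → Multiset RT) (k j : ℕ) (hj : j ≤ k) (X : RT)
    (f : RT → Multiset RT) :
    (∑ m ∈ Finset.range (k + 1), (Function.update σ j (X ::ₘ σ j) m).bind f) =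
      (∑ m ∈ Finset.range (k + 1), (σ m).bind f) + f X := by
  have h1 : ∀ m ∈ Finset.range (k + 1), (Function.update σ j (X ::ₘ σ j) m).bind f =
      (σ m).bind f + (if m = j then f X else 0) := by
    intro m _
    by_cases hm : m = j
    · subst hm
      rw [Function.update_self, Multiset.cons_bind, if_pos rfl, add_comm]
    · rw [Function.update_of_ne hm, if_neg hm, add_zero]
  rw [Finset.sum_congr rfl h1, Finset.sum_add_distrib, Finset.sum_ite_eq',
    if_pos (Finset.mem_range.2 (Nat.lt_succ_of_le hj))]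

theorem Sz_upd (σ : ℕ → Multiset RT) (k j : ℕ) (hj : j ≤ k) (X : RT) :
    Sz (Function.update σ j (X ::ₘ σ j)) (k + 1) = Sz σ (k + 1) + size X := by
  unfold Sz
  have h1 : ∀ m ∈ Finset.range (k + 1), 1 + sz (Function.update σ j (X ::ₘ σ j) m) =
      (1 + sz (σ m)) + (if m = j then size X else 0) := by
    intro m _
    by_cases hm : m = j
    · subst hm
      rw [Function.update_self, sz_cons, if_pos rfl]
      omega
    · rw [Function.update_of_ne hm, if_neg hm, add_zero]
  rw [Finset.sum_congr rfl h1, Finset.sum_add_distrib, Finset.sum_ite_eq',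
    if_pos (Finset.mem_range.2 (Nat.lt_succ_of_le hj))]

theorem mem_upd {σ : ℕ → Multiset RT} {j m : ℕ} {X y : RT}
    (h : y ∈ Function.update σ j (X ::ₘ σ j) m) : y = X ∨ y ∈ σ m := by
  by_cases hm : m = j
  · subst hm
    rw [Function.update_self, Multiset.mem_cons] at h
    exact h
  · rw [Function.update_of_ne hm] at h
    exact Or.inr h

theorem count_rest {σ : ℕ → Multiset RT} {k j : ℕ} (hj : j ≤ k) {X R : RT}
    (hR : size R < Sz σ (k + 1))
    (hR2 : ∀ m ≤ k, ∀ y ∈ σ m, size R + size y < Sz σ (k + 1) + size X) {S : Multiset RT}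
    (hS : ∀ c ∈ S, ∃ m ≤ k, ∃ y ∈ Function.update σ j (X ::ₘ σ j) m,
      Sz (Function.update σ j (X ::ₘ σ j)) (k + 1) ≤ size c + size y) :
    Multiset.count R S = 0 := by
  rw [Multiset.count_eq_zero]
  intro hmem
  obtain ⟨m, hm, y, hy, hle⟩ := hS R hmem
  rw [Sz_upd σ k j hj X] at hle
  rcases mem_upd hy with rfl | hy
  · omega
  · have := hR2 m hm y hy
    omega

theorem count_single {m : Multiset RT} (R : RT) (h : ∃ z, m = {z}) :
    Multiset.count R m = if m = {R} then 1 else 0 := by
  obtain ⟨z, rfl⟩ := h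
  rw [Multiset.count_singleton]
  by_cases hz : R = z
  · subst hz
    simp
  · rw [if_neg hz, if_neg]
    intro h
    exact hz (Multiset.singleton_inj.1 h).symm

theorem count_main {μ : ℕ → Multiset RT} (k : ℕ) (R : RT) :
    Multiset.count R (∑ q ∈ Finset.Icc 1 k, (Lm μ q + Vm μ (k + 1) q)) =
      ((Finset.Icc 1 k).filter (fun q => Lm μ q = {R})).card +
      ((Finset.Icc 1 k).filter (fun q => Vm μ (k + 1) q = {R})).card := by
  rw [Multiset.count_sum', Finset.card_filter, Finset.card_filter, ← Finset.sum_add_distrib]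
  apply Finset.sum_congr rfl
  intro q hq
  rw [Finset.mem_Icc] at hq
  rw [Multiset.count_add, count_single R ⟨_, Lm_single μ hq.1⟩,
    count_single R ⟨_, Vm_of_lt μ (Nat.lt_succ_of_le hq.2)⟩]

end LLcountAux

open LLcountAux

theorem ll_count (σ : ℕ → Multiset RT) (k : ℕ) (X : RT)
    (h : cls (node (X ::ₘ (σ 0 + Vm σ (k + 1) 1))) = cls (node (X ::ₘ (σ k + Lm σ k))))
    (R : RT) (hR : size R < Sz σ (k + 1))
    (hR2 : ∀ m ≤ k, ∀ y ∈ σ m, size R + size y < Sz σ (k + 1) + size X) :
    ((Finset.Icc 1 k).filter (fun q => Lm (Function.update σ 0 (X ::ₘ σ 0)) q = {R})).card +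
      ((Finset.Icc 1 k).filter (fun q => Vm σ (k + 1) q = {R})).card =
    ((Finset.Icc 1 k).filter (fun q => Lm σ q = {R})).card +
      ((Finset.Icc 1 k).filter
        (fun q => Vm (Function.update σ k (X ::ₘ σ k)) (k + 1) q = {R})).card := by
  rcases Nat.eq_zero_or_pos k with rfl | hk
  · simp
  have hk0 : k ≠ 0 := by omega
  obtain ⟨Ra, ha, hRa⟩ := br_word (Function.update σ 0 (X ::ₘ σ 0)) k
  obtain ⟨Rb, hb, hRb⟩ := br_word (Function.update σ k (X ::ₘ σ k)) k
  have hVa : ∀ q, 1 ≤ q → Vm (Function.update σ 0 (X ::ₘ σ 0)) (k + 1) q = Vm σ (k + 1) q := by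
    intro q hq
    apply Vm_congr
    intro m hm _
    exact Function.update_of_ne (by omega) _ _
  have hLb : ∀ q, q ≤ k → Lm (Function.update σ k (X ::ₘ σ k)) q = Lm σ q := by
    intro q hq
    apply Lm_congr
    intro m hm
    exact Function.update_of_ne (by omega) _ _
  have e1 : cls (node (Function.update σ 0 (X ::ₘ σ 0) 0 +
      Vm (Function.update σ 0 (X ::ₘ σ 0)) (k + 1) 1)) =
      cls (node (Function.update σ k (X ::ₘ σ k) 0 +
      Vm (Function.update σ k (X ::ₘ σ k)) (k + 1) 1)) := by
    have h1 := cw_eq (Function.update σ k (X ::ₘ σ k)) (h := k) (i := k + 1) (Nat.lt_succ_self k)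
    rw [hLb k le_rfl, Function.update_self, Vm_of_le _ le_rfl, add_zero] at h1
    have h2 : cw (Function.update σ k (X ::ₘ σ k)) (k + 1) =
      cls (node (Function.update σ k (X ::ₘ σ k) 0 +
      Vm (Function.update σ k (X ::ₘ σ k)) (k + 1) 1)) := rfl
    rw [← h2, ← h1, Function.update_self, hVa 1 le_rfl, Multiset.cons_add, h,
      add_comm (Lm σ k), Multiset.cons_add]
  have e2 := br_cls e1
  rw [ha, hb, bind_upd σ k 0 (Nat.zero_le k) X, bind_upd σ k k le_rfl X] at e2
  have e3 := congrArg (Multiset.count R) e2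
  simp only [Multiset.count_add] at e3
  rw [count_rest (Nat.zero_le k) hR hR2 hRa, count_rest le_rfl hR hR2 hRb, count_main,
    count_main] at e3
  have f1 : (Finset.Icc 1 k).filter
      (fun q => Vm (Function.update σ 0 (X ::ₘ σ 0)) (k + 1) q = {R}) =
      (Finset.Icc 1 k).filter (fun q => Vm σ (k + 1) q = {R}) := by
    apply Finset.filter_congr
    intro q hq
    rw [Finset.mem_Icc] at hq
    rw [hVa q hq.1]
  have f2 : (Finset.Icc 1 k).filter
      (fun q => Lm (Function.update σ k (X ::ₘ σ k)) q = {R}) =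
      (Finset.Icc 1 k).filter (fun q => Lm σ q = {R}) := by
    apply Finset.filter_congr
    intro q hq
    rw [Finset.mem_Icc] at hq
    rw [hLb q hq.2]
  rw [f1, f2] at e3
  omega

end

end TRD
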