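import Pool.Agent.Lib.TRD.ThinA
import Pool.Agent.Lib.TRD.KCount
import Pool.Agent.Lib.TRD.MatchB
import Pool.Agent.Lib.TRD.Classify

/-! # TRD.LabelCount (MP_2e3d39_co)

Number of pairs whose left label is a thin branch La.

Let S₁ = set of remainders t.2.1 occurring in the left components of M (a Finset (Multiset RT), image). For each value v the number of elements of M with remainder v is at most the number of elements t of ldl m with t.1 = La, t.2.1 = v (`mt_card_left`), which is (count La m) * card ((dlo La).filter (·.1 = v)) ≤ 2 (C+1): for v = 0 there is one entry in dlo La, for v = {K} it is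
card ((dl La).filter (e.1 = K)) ≤ C + 1 (`thin_entries'`), otherwise 0. So card M ≤ 2 (C+1) * card S₁. Claim card S₁ ≤ C log₂ (size La) + 10.
If M is empty fine. Consider (t,t') ∈ M and `classify`.
(I) Some pair is of type α: m = La ::ₘ s, m' = Q ::ₘ s, La ≠ Q, size La = size Q. Then every pair is of type α with labels La, Q or of type A (as in OneSplit; β impossible): α: remainder o = o'; o = 0 or o = {K} with K = e₁.1 = e₁'.1, e₁ ∈ dl La, e₁' ∈ dl Q, Gr e₁ e₁'. These K form a finite set to which `k_count` applies (Deg C La by `deg_of_lev`): number ≤ r + C log₂ (size La) + 4,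
   r ≤ 2 (`rl_le_two`). A: remainder {U'} with U' = Q (U ::ₘ s₁ = m, U' ::ₘ s₁ = m' force U = La, U' = Q). Total ≤ 1 + (C log₂ + 6) + 1.
(II) no pair is of type α. Type A: m = U ::ₘ s, m' = U' ::ₘ s, remainder {U'}; (U, U') is determined by (m, m'). Type β: m = La ::ₘ (o' + s), m' = Q ::ₘ (o + s): La ::ₘ o' = m - m', Q ::ₘ o = m' - m (as La ≠ Q, La ∉ o, Q ∉ o' by `dlo_size`, o ≠ o'), so o ≤ m' - m which has card ≤ 2: o ∈ {0} ∪ {{c} : c ∈ m' - m}: at most 3 values. Total ≤ 4.
The mirrored statement (label on the right) by `mt_swap`.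
-/

open Multiset

namespace TRD

noncomputable section

namespace LabelCountAux

private theorem diff_one {P Q : RT} (hPQ : P ≠ Q) (s : Multiset RT) :
    (P ::ₘ s) - (Q ::ₘ s) = {P} := by
  have h1 : P ::ₘ s = {P} + s := (Multiset.singleton_add P s).symm
  have h2 : Q ::ₘ s = {Q} + s := (Multiset.singleton_add Q s).symm
  rw [h1, h2, add_tsub_add_eq_tsub_right, Multiset.sub_singleton]
  apply Multiset.erase_of_notMem
  intro h
  exact hPQ (Multiset.mem_singleton.1 h).symm

private theorem sub_disj {A B : Multiset RT} (h : ∀ a ∈ A, a ∉ B) : A - B = A := by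
  rw [Multiset.ext]
  intro a
  rw [Multiset.count_sub]
  by_cases ha : a ∈ A
  · rw [Multiset.count_eq_zero_of_notMem (h a ha)]
    omega
  · rw [Multiset.count_eq_zero_of_notMem ha]
    omega

private theorem not_mem_small {P : RT} {o : Multiset RT × Multiset RT} (ho : o ∈ dlo P) :
    P ∉ o.1 := by
  intro h
  have h1 := dlo_size ho
  have h2 := size_le_sz h
  omega

private theorem disj_one {o o' : Multiset RT} (h1 : card o ≤ 1) (h2 : card o' ≤ 1) (hne : o ≠ o')
    {a : RT} (ha : a ∈ o) : a ∉ o' := by
  intro ha'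
  apply hne
  obtain ⟨t, rfl⟩ := Multiset.exists_cons_of_mem ha
  obtain ⟨t', rfl⟩ := Multiset.exists_cons_of_mem ha'
  rw [Multiset.card_cons] at h1 h2
  have e1 : t = 0 := Multiset.card_eq_zero.1 (by omega)
  have e2 : t' = 0 := Multiset.card_eq_zero.1 (by omega)
  rw [e1, e2]

private theorem diff_two {P Q : RT} {o o' : Multiset RT × Multiset RT} (ho : o ∈ dlo P)
    (ho' : o' ∈ dlo Q) (hPQ : P ≠ Q) (hoo : o.1 ≠ o'.1) (s : Multiset RT) :
    (P ::ₘ (o'.1 + s)) - (Q ::ₘ (o.1 + s)) = P ::ₘ o'.1 := by
  have h1 : P ::ₘ (o'.1 + s) = (P ::ₘ o'.1) + s := by rw [Multiset.cons_add]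
  have h2 : Q ::ₘ (o.1 + s) = (Q ::ₘ o.1) + s := by rw [Multiset.cons_add]
  rw [h1, h2, add_tsub_add_eq_tsub_right]
  apply sub_disj
  intro a ha hb
  rcases Multiset.mem_cons.1 ha with h3 | h3
  · subst h3
    rcases Multiset.mem_cons.1 hb with h4 | h4
    · exact hPQ h4
    · exact not_mem_small ho h4
  · rcases Multiset.mem_cons.1 hb with h4 | h4
    · subst h4
      exact not_mem_small ho' h3
    · exact disj_one (dlo_card ho) (dlo_card ho') hoo h4 h3

open Classical in
/-- number of labelled entries with given label and remainder -/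
private theorem lab_card (m : Multiset RT) (La : RT) (v : Multiset RT) :
    card ((ldl m).filter (fun t => t.1 = La ∧ t.2.1 = v)) =
      count La m * card ((dlo La).filter (fun o => o.1 = v)) := by
  induction m using Multiset.induction_on with
  | empty => simp [ldl]
  | cons y m ih =>
    rw [ldl_cons, Multiset.filter_add, card_add, ih, Multiset.filter_map, card_map]
    by_cases hy : y = La
    · subst hy
      rw [Multiset.count_cons_self, Nat.add_mul, Nat.one_mul, add_comm]
      congr 2
      apply Multiset.filter_congr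
      intro o _
      simp
    · rw [Multiset.count_cons_of_ne (fun h => hy h.symm)]
      have : (dlo y).filter ((fun t : RT × Multiset RT × Multiset RT => t.1 = La ∧ t.2.1 = v) ∘
          fun o => (y, o)) = 0 := by
        rw [Multiset.filter_eq_nil]
        intro o _ h
        exact hy h.1
      rw [this]
      simp

open Classical in
private theorem dlo_card_le {La : RT} {C : ℕ} (hC : ∀ k, lev k La ≤ C) (v : Multiset RT) :
    card ((dlo La).filter (fun o => o.1 = v)) ≤ C + 1 := by
  unfold dlo
  by_cases hv : v = 0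
  · subst hv
    rw [Multiset.filter_cons_of_pos (p := fun o : Multiset RT × Multiset RT => o.1 = 0)
      (a := (0, ch La)) _ rfl, card_cons, Multiset.filter_map, card_map]
    have : (dl La).filter ((fun o : Multiset RT × Multiset RT => o.1 = 0) ∘
        fun e => (({e.1} : Multiset RT), e.2)) = 0 := by
      rw [Multiset.filter_eq_nil]
      intro o _ h
      exact absurd h (Multiset.singleton_ne_zero _)
    rw [this, card_zero]
    omega
  · rw [Multiset.filter_cons_of_neg (p := fun o : Multiset RT × Multiset RT => o.1 = v)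
      (a := (0, ch La)) _ (fun h => hv h.symm), Multiset.filter_map, card_map]
    by_cases hK : ∃ K : RT, v = {K}
    · obtain ⟨K, rfl⟩ := hK
      have : (dl La).filter ((fun o : Multiset RT × Multiset RT => o.1 = {K}) ∘
        fun e => (({e.1} : Multiset RT), e.2)) = (dl La).filter (fun e => e.1 = K) := by
        apply Multiset.filter_congr
        intro e _
        exact Multiset.singleton_inj
      rw [this]
      convert thin_entries' hC
    · have : (dl La).filter ((fun o : Multiset RT × Multiset RT => o.1 = v) ∘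
        fun e => (({e.1} : Multiset RT), e.2)) = 0 := by
        rw [Multiset.filter_eq_nil]
        intro o _ h
        exact hK ⟨o.1, h.symm⟩
      rw [this, card_zero]
      omega

/-- the remainders -/
private theorem rem_count {m m' : Multiset RT} (hne : m ≠ m') (hsz : sz m = sz m') {La : RT}
    {C : ℕ} (hC : ∀ k, lev k La ≤ C) (S : Finset (Multiset RT))
    (hS : ∀ v ∈ S, ∃ t ∈ ldl m, ∃ t' ∈ ldl m', Rl m m' t t' ∧ t.1 = La ∧ t.2.1 = v) :
    S.card ≤ C * Nat.log 2 (size La) + 10 := by
  classical
  by_cases hA : ∃ Q s, La ≠ Q ∧ size La = size Q ∧ m = La ::ₘ s ∧ m' = Q ::ₘ s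
  · obtain ⟨Q, s, hLQ, hLs, hm, hm'⟩ := hA
    have hdm : m - m' = {La} := by rw [hm, hm']; exact diff_one hLQ s
    have hdm' : m' - m = {Q} := by rw [hm, hm']; exact diff_one hLQ.symm s
    set S' : Finset RT := (((dl La).map Prod.fst).toFinset).filter (fun K' =>
      ∃ e ∈ dl La, ∃ e' ∈ dl Q, e.1 = K' ∧ Gr e e') with hS'
    obtain ⟨r, hr, hrc⟩ := k_count hLQ hLs (deg_of_lev hC) S' (by
      intro K hK
      rw [hS', Finset.mem_filter] at hK
      exact hK.2)
    have hr2 := rl_le_two hLQ hr
    have hsub : S ⊆ ({0, {Q}} : Finset (Multiset RT)) ∪ S'.image (fun K => ({K} : Multiset RT)) := by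
      intro v hv
      obtain ⟨t, ht, t', ht', hR, htL, htv⟩ := hS v hv
      have d1 := (mem_ldl.1 ht).2
      have d2 := (mem_ldl.1 ht').2
      rw [Finset.mem_union]
      rcases classify hne hsz ht ht' hR with ⟨hoo, hPQ, _, s₁, e1, e2⟩ |
        ⟨_, U₁, U₁', s₁, hU₁, _, _, e1, e2, _, ho1, _⟩ | ⟨hPQ, ho, s₁, e1, e2⟩
      · have h2 : m' - m = {t'.1} := by rw [e1, e2]; exact diff_one hPQ.symm s₁
        rw [hdm'] at h2
        have hQ : Q = t'.1 := Multiset.singleton_inj.1 h2
        rw [htL] at d1
        rw [← hQ] at d2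
        rcases mem_dlo.1 d1 with f1 | ⟨e₁, he₁, f1⟩
        · left
          rw [← htv, f1]
          simp
        · rcases mem_dlo.1 d2 with f2 | ⟨e₁', he₁', f2⟩
          · exfalso
            rw [f1, f2] at hoo
            exact absurd hoo (Multiset.singleton_ne_zero _)
          · right
            rw [f1, f2] at hoo
            have h5 : e₁.1 = e₁'.1 := Multiset.singleton_inj.1 hoo
            have h6 := hR.2
            rw [f1, f2] at h6
            rw [Finset.mem_image]
            refine ⟨e₁.1, ?_, ?_⟩
            · rw [hS', Finset.mem_filter, Multiset.mem_toFinset]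
              exact ⟨Multiset.mem_map_of_mem _ he₁, e₁, he₁, e₁', he₁', rfl, h5, h6⟩
            · rw [← htv, f1]
      · left
        have h2 : m' - m = {U₁'} := by rw [e1, e2]; exact diff_one hU₁.symm s₁
        rw [hdm'] at h2
        rw [← htv, ho1, ← h2]
        simp
      · exfalso
        have h1 : m - m' = t.1 ::ₘ t'.2.1 := by
          rw [e1, e2]
          exact diff_two d1 d2 hPQ ho s₁
        have h2 : m' - m = t'.1 ::ₘ t.2.1 := by
          rw [e1, e2]
          exact diff_two d2 d1 hPQ.symm ho.symm s₁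
        have c1 := congrArg card h1
        have c2 := congrArg card h2
        rw [hdm, card_singleton, card_cons] at c1
        rw [hdm', card_singleton, card_cons] at c2
        apply ho
        rw [Multiset.card_eq_zero.1 (by omega : card t.2.1 = 0),
          Multiset.card_eq_zero.1 (by omega : card t'.2.1 = 0)]
    have h1 := Finset.card_le_card hsub
    have h2 := Finset.card_union_le ({0, {Q}} : Finset (Multiset RT))
      (S'.image (fun K => ({K} : Multiset RT)))
    have h3 : (S'.image (fun K => ({K} : Multiset RT))).card ≤ S'.card := Finset.card_image_le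
    have h4 : ({0, {Q}} : Finset (Multiset RT)).card ≤ 2 := Finset.card_le_two
    omega
  · have key : ∀ v ∈ S, card (m' - m) ≤ 2 ∧ (v = 0 ∨ ∃ c ∈ m' - m, v = {c}) := by
      intro v hv
      obtain ⟨t, ht, t', ht', hR, htL, htv⟩ := hS v hv
      have d1 := (mem_ldl.1 ht).2
      have d2 := (mem_ldl.1 ht').2
      rcases classify hne hsz ht ht' hR with ⟨hoo, hPQ, hs, s₁, e1, e2⟩ |
        ⟨_, U₁, U₁', s₁, hU₁, _, _, e1, e2, _, ho1, _⟩ | ⟨hPQ, ho, s₁, e1, e2⟩
      · exfalso
        rw [htL] at hPQ hs e1
        exact hA ⟨t'.1, s₁, hPQ, hs, e1, e2⟩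
      · have h2 : m' - m = {U₁'} := by rw [e1, e2]; exact diff_one hU₁.symm s₁
        rw [h2]
        refine ⟨by simp, Or.inr ⟨U₁', Multiset.mem_singleton_self _, ?_⟩⟩
        rw [← htv, ho1]
      · have h2 : m' - m = t'.1 ::ₘ t.2.1 := by
          rw [e1, e2]
          exact diff_two d2 d1 hPQ.symm ho.symm s₁
        have c1 := dlo_card d1
        rw [h2]
        refine ⟨by rw [card_cons]; omega, ?_⟩
        rcases mem_dlo.1 d1 with f1 | ⟨e₁, he₁, f1⟩
        · left
          rw [← htv, f1]
        · right
          refine ⟨e₁.1, ?_, ?_⟩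
          · rw [f1]
            simp
          · rw [← htv, f1]
    rcases S.eq_empty_or_nonempty with h0 | ⟨v0, hv0⟩
    · rw [h0]
      simp
    · have hc := (key v0 hv0).1
      have hsub : S ⊆ ({0} : Finset (Multiset RT)) ∪
          (m' - m).toFinset.image (fun c => ({c} : Multiset RT)) := by
        intro v hv
        rw [Finset.mem_union]
        rcases (key v hv).2 with h | ⟨c, hc, h⟩
        · left
          simp [h]
        · right
          rw [Finset.mem_image]
          exact ⟨c, Multiset.mem_toFinset.2 hc, h.symm⟩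
      have h1 := Finset.card_le_card hsub
      have h2 := Finset.card_union_le ({0} : Finset (Multiset RT))
        ((m' - m).toFinset.image (fun c => ({c} : Multiset RT)))
      have h3 : ((m' - m).toFinset.image (fun c => ({c} : Multiset RT))).card ≤
        (m' - m).toFinset.card := Finset.card_image_le
      have h4 := Multiset.toFinset_card_le (m' - m)
      rw [Finset.card_singleton] at h2
      omega

end LabelCountAux

open LabelCountAux in
theorem label_count {m m' : Multiset RT} (hne : m ≠ m') (hsz : sz m = sz m') {La : RT} {C : ℕ}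
    (hC : ∀ k, lev k La ≤ C) (hmult : count La m ≤ 2)
    {M : Multiset ((RT × Multiset RT × Multiset RT) × (RT × Multiset RT × Multiset RT))}
    (hM : Mt M (ldl m) (ldl m') (Rl m m')) (hl : ∀ e ∈ M, e.1.1 = La) :
    card M ≤ 2 * (C + 1) * (C * Nat.log 2 (size La) + 10) := by
  classical
  set g : ((RT × Multiset RT × Multiset RT) × (RT × Multiset RT × Multiset RT)) → Multiset RT :=
    fun e => e.1.2.1 with hg
  have hS := rem_count hne hsz hC (M.map g).toFinset (by
    intro v hv
    rw [Multiset.mem_toFinset, Multiset.mem_map] at hv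
    obtain ⟨e, he, hev⟩ := hv
    exact ⟨e.1, Multiset.mem_of_le hM.1 (Multiset.mem_map_of_mem _ he), e.2,
      Multiset.mem_of_le hM.2.1 (Multiset.mem_map_of_mem _ he), hM.2.2 e he, hl e he, hev⟩)
  have hv : ∀ v, count v (M.map g) ≤ 2 * (C + 1) := by
    intro v
    rw [Multiset.count_map]
    have h1 := mt_card_left hM (Multiset.filter_le (fun e => v = g e) M)
      (fun t => t.1 = La ∧ t.2.1 = v) (by
        intro e he
        rw [Multiset.mem_filter] at he
        exact ⟨hl e he.1, he.2.symm⟩)
    rw [lab_card] at h1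
    exact h1.trans (Nat.mul_le_mul hmult (dlo_card_le hC v))
  have h1 : ∑ v ∈ (M.map g).toFinset, count v (M.map g) = card (M.map g) :=
    Multiset.toFinset_sum_count_eq _
  rw [card_map] at h1
  rw [← h1]
  calc ∑ v ∈ (M.map g).toFinset, count v (M.map g)
      ≤ ∑ _v ∈ (M.map g).toFinset, 2 * (C + 1) := Finset.sum_le_sum fun v _ => hv v
    _ = (M.map g).toFinset.card * (2 * (C + 1)) := by rw [Finset.sum_const, smul_eq_mul]
    _ ≤ (C * Nat.log 2 (size La) + 10) * (2 * (C + 1)) := Nat.mul_le_mul_right _ hS
    _ = 2 * (C + 1) * (C * Nat.log 2 (size La) + 10) := Nat.mul_comm _ _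

theorem label_count' {m m' : Multiset RT} (hne : m ≠ m') (hsz : sz m = sz m') {La : RT} {C : ℕ}
    (hC : ∀ k, lev k La ≤ C) (hmult : count La m' ≤ 2)
    {M : Multiset ((RT × Multiset RT × Multiset RT) × (RT × Multiset RT × Multiset RT))}
    (hM : Mt M (ldl m) (ldl m') (Rl m m')) (hl : ∀ e ∈ M, e.2.1 = La) :
    card M ≤ 2 * (C + 1) * (C * Nat.log 2 (size La) + 10) := by
  have h := mt_swap hM
  have h' : Mt (M.map Prod.swap) (ldl m') (ldl m) (Rl m' m) :=
    ⟨h.1, h.2.1, fun e he => ⟨(h.2.2 e he).1.symm, (h.2.2 e he).2.symm⟩⟩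
  have h2 := label_count hne.symm hsz.symm hC hmult h' (by
    intro e he
    rw [Multiset.mem_map] at he
    obtain ⟨f, hf, rfl⟩ := he
    exact hl f hf)
  rwa [card_map] at h2

end

end TRD
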