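import Pool.Agent.Lib.TRD.WordA

/-! # TRD.LimbDl (MP_2e3d39_co)

Entries of a word limb: path vertices and bush vertices.

Downward induction on h (write n = h + k, induction on k). h = n: Vm = 0, Ico empty, B = 0. Step h < n: Vm μ n h = {v}, v = node (μ h + Vm μ n (h+1)) (`Vm_of_lt`); dlo v = (0, ch v) ::ₘ (dl v).map (fun e => ({e.1}, e.2)); the first entry is the entry of the path vertex i = h
(Vm μ h h = 0). By `dl_node'`, dl v = (μ h + Vm μ n (h+1)).bind (fun y => (dlo y).map (fun o => (node (o.1 + (μ h + Vm μ n (h+1)).erase y), o.2))). Split the bind over the sum.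
For the element v' of Vm μ n (h+1): (μ h + {v'}).erase v' = μ h; use the induction hypothesis for (Vm μ n (h+1)).bind dlo = dlo v': an entry (Vm μ i (h+1), F) becomes ({node (Vm μ i (h+1) + μ h)}, F) = (Vm μ i h, F), a bush entry with the word μ^ := update μ m _ (m ≥ h+1) becomes (Vm μ^ n h, F).
For y ∈ μ h: (μ h + Vm).erase y = (μ h).erase y + Vm, the entry is ({node (o1.1 + (μ h).erase y + Vm μ n (h+1))}, o1.2) = (Vm (update μ h (o1.1 + (μ h).erase y)) n h, o1.2) (Vm_congr above h).
-/

open Multiset

namespace TRD

noncomputable section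

theorem limb_dl (μ : ℕ → Multiset RT) {n h : ℕ} (hh : h ≤ n) :
    ∃ B : Multiset (Multiset RT × Multiset RT),
      (Vm μ n h).bind dlo = (Finset.Ico h n).val.map (fun i => (Vm μ i h, μ i + Vm μ n (i + 1))) + B ∧
      ∀ o ∈ B, ∃ m, h ≤ m ∧ m < n ∧ ∃ y ∈ μ m, ∃ o1 ∈ dlo y,
        o = (Vm (Function.update μ m (o1.1 + (μ m).erase y)) n h, o1.2) := by
  obtain ⟨k, rfl⟩ : ∃ k, n = h + k := ⟨n - h, by omega⟩
  clear hh
  induction k generalizing h with
  | zero =>
    refine ⟨0, ?_, ?_⟩
    · rw [Vm_of_le μ (by omega : h + 0 ≤ h)]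
      simp
    · intro o ho
      exact absurd ho (Multiset.notMem_zero o)
  | succ k ih =>
    obtain ⟨B', hB1, hB2⟩ := ih (h := h + 1)
    have hn : h + 1 + k = h + (k + 1) := by omega
    rw [hn] at hB1 hB2
    set n := h + (k + 1) with hndef
    have hlt : h < n := by omega
    set V' := Vm μ n (h + 1) with hV'
    have hV : Vm μ n h = {node (μ h + V')} := Vm_of_lt μ hlt
    -- the part of the path
    have hA : V'.bind (fun y => (dlo y).map (fun e => (node (e.1 + (μ h + V').erase y), e.2)))
        = (V'.bind dlo).map (fun e => (node (e.1 + μ h), e.2)) := by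
      have hc := card_Vm_le μ n (h + 1)
      rw [← hV'] at hc
      rcases Nat.le_one_iff_eq_zero_or_eq_one.1 hc with h0 | h1
      · rw [Multiset.card_eq_zero.1 h0]
        simp
      · obtain ⟨v', hv'⟩ := Multiset.card_eq_one.1 h1
        rw [hv', Multiset.singleton_bind, Multiset.singleton_bind]
        have : (μ h + {v'}).erase v' = μ h := by
          rw [add_comm, Multiset.singleton_add, Multiset.erase_cons_head]
        rw [this]
    have hIco : (Finset.Ico h n).val = h ::ₘ (Finset.Ico (h + 1) n).val := by
      have h1 : Finset.Ico h n = insert h (Finset.Ico (h + 1) n) := by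
        ext x
        simp only [Finset.mem_Ico, Finset.mem_insert]
        omega
      rw [h1, Finset.insert_val_of_notMem]
      simp
    refine ⟨B'.map (fun e => ({node (e.1 + μ h)}, e.2)) +
      (μ h).bind (fun y => (dlo y).map
        (fun e => ({node (e.1 + (μ h + V').erase y)}, e.2))), ?_, ?_⟩
    · rw [hV, Multiset.singleton_bind, dlo, dl_node', Multiset.add_bind, hA, hB1, ch_node, hIco,
        Multiset.map_cons, Vm_of_le μ (le_refl h)]
      simp only [Multiset.map_add, Multiset.map_map, Multiset.map_bind, Function.comp_def]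
      rw [Multiset.cons_add]
      congr 1
      have hmap : (Finset.Ico (h + 1) n).val.map
          (fun i => (({node (Vm μ i (h + 1) + μ h)} : Multiset RT), μ i + Vm μ n (i + 1)))
          = (Finset.Ico (h + 1) n).val.map (fun i => (Vm μ i h, μ i + Vm μ n (i + 1))) := by
        apply Multiset.map_congr rfl
        intro i hi
        have hi' : h < i := by
          rw [Finset.mem_val, Finset.mem_Ico] at hi
          omega
        rw [Vm_of_lt μ hi', add_comm]
      rw [hmap]
      rw [add_comm ((μ h).bind _), add_assoc]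
    · intro o ho
      rw [Multiset.mem_add] at ho
      rcases ho with ho | ho
      · obtain ⟨e, he, rfl⟩ := Multiset.mem_map.1 ho
        obtain ⟨m, hm1, hm2, y, hy, o1, ho1, rfl⟩ := hB2 e he
        refine ⟨m, by omega, hm2, y, hy, o1, ho1, ?_⟩
        rw [Vm_of_lt (Function.update μ m (o1.1 + (μ m).erase y)) hlt,
          Function.update_of_ne (by omega : h ≠ m), add_comm]
      · obtain ⟨y, hy, ho⟩ := Multiset.mem_bind.1 ho
        obtain ⟨o1, ho1, rfl⟩ := Multiset.mem_map.1 ho
        refine ⟨h, le_rfl, hlt, y, hy, o1, ho1, ?_⟩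
        rw [Vm_of_lt (Function.update μ h (o1.1 + (μ h).erase y)) hlt, Function.update_self,
          Vm_congr (ν := μ) (i := n) (h := h + 1) (fun m h1 _ => Function.update_of_ne
            (by omega : m ≠ h) _ _), Multiset.erase_add_left_pos _ hy, add_assoc]

end

end TRD
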