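import Pool.Agent.Lib.TRD.HtRt
import Pool.Agent.Lib.TRD.DeckWord
import Pool.Agent.Lib.TRD.MatchA
import Pool.Agent.Lib.TRD.PDefs

/-! # TRD.UnSplit (MP_2e3d39_co)

Different diameters E < D: every matched vertex of T is a path vertex (or the centre).

z = rt μ (D+1) D, z' = rt ν (E+1) E. As in `eq_split`: `deck_word`, split off the (at most one) root cards on both sides, lift: N with Mt N (dl z) (dl z') (cardc D e = cardc E e'), card M₀ ≤ 2 + card N. `dl_word` for μ, D: dl z = R + L + B. The part of N over B is empty: e.1 = rt μ' (D+1) D, `cardc_rt`: cw μ' (D+1) ∈ cardc D e = cardc E e', and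
(cc (cw μ' (D+1))).2 = D (`cc_word`, `dm_full`), but all elements of cardc E e' have (cc ..).2 ≤ E (e' ∈ dl z', `dl_word` for ν, E: e'.1 = rt ν' j E with GW ν' E and E/2+1 ≤ j ≤ E+1, `cardc_rt`, `cc_word`, `dm_GW`; kids: `cc_le`, `kid_small`). The parts over R and L: lift the left side through pe μ D resp. pe (rv μ D) D (`mt_lift` with h = id).
-/

open Multiset

namespace TRD

noncomputable section

namespace UnSplitAux

theorem card_le_left {α β : Type} {M : Multiset (α × β)} {A : Multiset α} {B : Multiset β}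
    {r : α → β → Prop} (hM : Mt M A B r) : card M ≤ card A := by
  have h := Multiset.card_le_card hM.1
  rwa [card_map] at h

theorem card_le_right {α β : Type} {M : Multiset (α × β)} {A : Multiset α} {B : Multiset β}
    {r : α → β → Prop} (hM : Mt M A B r) : card M ≤ card B := by
  have h := Multiset.card_le_card hM.2.1
  rwa [card_map] at h

theorem drop {α β : Type} {M : Multiset (α × β)} {A₀ A : Multiset α} {B₀ B : Multiset β}
    {r : α → β → Prop} (hM : Mt M (A₀ + A) (B₀ + B) r) (hA : card A₀ ≤ 1) (hB : card B₀ ≤ 1) :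
    ∃ N, Mt N A B r ∧ card M ≤ 2 + card N := by
  obtain ⟨M₁, M₂, h12, h1, h2⟩ := mt_split_left hM
  obtain ⟨M₃, M₄, h34, h3, h4⟩ := mt_split_right h2
  refine ⟨M₄, h4, ?_⟩
  have k1 := card_le_left h1
  have k3 := card_le_right h3
  rw [h12, h34, card_add, card_add]
  omega

theorem form {ν : ℕ → Multiset RT} {E : ℕ} (hν : GW ν E) (hE : 1 ≤ E) {e' : RT × Multiset RT}
    (he : e' ∈ dl (rt ν (E + 1) E)) : ∃ (ν' : ℕ → Multiset RT) (j : ℕ), GW ν' E ∧
      E / 2 + 1 ≤ j ∧ j ≤ E + 1 ∧ e'.1 = rt ν' j E := by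
  obtain ⟨B, hB, hB2⟩ := dl_word hν hE
  rw [hB, Multiset.mem_add, Multiset.mem_add] at he
  have hI : ∀ j, j ∈ (Ix E).val → E / 2 + 1 ≤ j ∧ j ≤ E := by
    intro j hj
    have : j ∈ Finset.Icc (E / 2 + 1) E := hj
    exact Finset.mem_Icc.1 this
  rcases he with (he | he) | he
  · rw [Multiset.mem_map] at he
    obtain ⟨j, hj, rfl⟩ := he
    have := hI j hj
    exact ⟨ν, j, hν, this.1, by omega, rfl⟩
  · rw [Multiset.mem_map] at he
    obtain ⟨j, hj, rfl⟩ := he
    have := hI j hj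
    exact ⟨rv ν E, j, GW_rv hν, this.1, by omega, rfl⟩
  · obtain ⟨μ', h1, h2⟩ := hB2 e' he
    exact ⟨μ', E + 1, h1, by omega, le_refl _, h2⟩

theorem absurd_bad {ν μ' : ℕ → Multiset RT} {D E : ℕ} (hν : GW ν E) (hE : E < D) (hE1 : 1 ≤ E)
    (hμ' : GW μ' D) {e e' : RT × Multiset RT} (h1 : e.1 = rt μ' (D + 1) D)
    (he : e' ∈ dl (rt ν (E + 1) E)) (h : cardc D e = cardc E e') : False := by
  obtain ⟨ν', j, hν', hj, hj2, h2⟩ := form hν hE1 he
  have e1 : cardc D e = cw μ' (D + 1) ::ₘ e.2.map cls := by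
    have := cardc_rt μ' (D := D) (i := D + 1) (by omega) e.2
    rw [← this, ← h1]
  have e2 : cardc E e' = cw ν' j ::ₘ e'.2.map cls := by
    have := cardc_rt ν' (D := E) (i := j) hj e'.2
    rw [← this, ← h2]
  have hc : (cc (cw μ' (D + 1))).2 = D := by
    rw [cc_word μ' (by omega) (fun m hm => (hμ' m (by omega)).1)]
    exact dm_full hμ'
  have hmem : cw μ' (D + 1) ∈ cardc E e' := by
    rw [← h, e1]
    exact Multiset.mem_cons_self _ _
  rw [e2, Multiset.mem_cons, Multiset.mem_map] at hmem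
  rcases hmem with hm | ⟨y, hy, hm⟩
  · rw [hm, cc_word ν' (by omega) (fun m hm => (hν' m (by omega)).1)] at hc
    have h3 := dm_GW hν' hj2
    have h4 : dm ν' j = D := hc
    omega
  · rw [← hm] at hc
    have h3 := cc_le y
    have h4 := kid_small hν hE1 he y hy
    omega

end UnSplitAux

theorem un_split {μ ν : ℕ → Multiset RT} {D E : ℕ} (hμ : GW μ D) (hν : GW ν E) (hE : E < D)
    (hE1 : 1 ≤ E) {x y : RT} (hx : cls x = cw μ (D + 1)) (hy : cls y = cw ν (E + 1))
    {M₀ : Multiset (Multiset Cls × Multiset Cls)}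
    (hM : Mt M₀ (deck x) (deck y) (fun a b => a = b)) :
    ∃ M M' : Multiset (ℕ × (RT × Multiset RT)),
      Mt M (Ix D).val (dl (rt ν (E + 1) E)) (fun i e' => cardc D (pe μ D i) = cardc E e') ∧
      Mt M' (Ix D).val (dl (rt ν (E + 1) E))
        (fun i e' => cardc D (pe (rv μ D) D i) = cardc E e') ∧
      card M₀ ≤ 2 + card M + card M' := by
  have hD : 1 ≤ D := by omega
  rw [deck_word hD hx, deck_word hE1 hy] at hM
  obtain ⟨N, hN, hcN⟩ := UnSplitAux.drop hM (by split_ifs <;> simp) (by split_ifs <;> simp)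
  obtain ⟨N', hN', hmap⟩ := mt_lift hN
  have hcard : card N' = card N := by rw [← hmap, card_map]
  obtain ⟨B, hB, hB2⟩ := dl_word hμ hD
  rw [hB] at hN'
  obtain ⟨N₁, N₂, h12, hN₁, hN₂⟩ := mt_split_left hN'
  obtain ⟨N₃, N₄, h34, hN₃, hN₄⟩ := mt_split_left hN₁
  have hz : N₂ = 0 := by
    rw [Multiset.eq_zero_iff_forall_notMem]
    intro f hf
    have m1 : f.1 ∈ B := Multiset.mem_of_le hN₂.1 (Multiset.mem_map_of_mem _ hf)
    have m2 : f.2 ∈ dl (rt ν (E + 1) E) :=
      Multiset.mem_of_le hN₂.2.1 (Multiset.mem_map_of_mem _ hf)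
    obtain ⟨μ', g1, g2⟩ := hB2 f.1 m1
    exact UnSplitAux.absurd_bad hν hE hE1 g1 g2 m2 (hN₂.2.2 f hf)
  have lift : ∀ (κ : ℕ → RT × Multiset RT) (K : Multiset ((RT × Multiset RT) × (RT × Multiset RT))),
      Mt K ((Ix D).val.map κ) (dl (rt ν (E + 1) E)) (fun e e' => cardc D e = cardc E e') →
      ∃ M, Mt M (Ix D).val (dl (rt ν (E + 1) E)) (fun i e' => cardc D (κ i) = cardc E e') ∧
        card M = card K := by
    intro κ K hK
    have hK' : Mt K ((Ix D).val.map κ) ((dl (rt ν (E + 1) E)).map id)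
        (fun e e' => cardc D e = cardc E e') := by
      rw [Multiset.map_id]
      exact hK
    obtain ⟨M, hM1, hM2⟩ := mt_lift hK'
    exact ⟨M, hM1, by rw [← hM2, card_map]⟩
  obtain ⟨M, hM1, hM2⟩ := lift _ _ hN₃
  obtain ⟨M', hM1', hM2'⟩ := lift _ _ hN₄
  refine ⟨M, M', hM1, hM1', ?_⟩
  rw [h12, h34, hz, add_zero, card_add] at hcard
  omega

end

end TRD
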