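import Pool.Agent.Lib.TRD.UnHalf
import Pool.Agent.Lib.TRD.UnSplit
import Pool.Agent.Lib.TRD.PathPairs
import Pool.Agent.Lib.TRD.RCount
import Pool.Agent.Lib.TRD.WordC

/-! # TRD.UnFinal (MP_2e3d39_co)

Different diameters: few common cards (numerics).

Let N = card M₀ and suppose N ≥ 2((p-5)/3) + 1, where p = size x = size y = Sz μ (D+1) = Sz ν (E+1) (`csize_cw`), p ≥ 10^10. `un_split`, then `un_half` for μ and for rv μ D (`GW_rv`). c, c' = cards of the two parts.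
 N ≤ 2 + c + c' and c, c' ≤ E + 1 - D/2: N ≤ 4 + 2E - 2(D/2), D/2 ≥ E/2 (as D ≥ E+1), so N ≤ 4 + 2E - 2(E/2) ≤ 5 + E, hence E ≥ N - 5 ≥ 10 and D/2 ≥ (N-6)/2. If c = 0 or c' = 0 then N ≤ 3 + E - D/2 ≤ 4 + E/2.. fine as well (still E ≥ N-5). W ≤ p - D/2 - E - 2 ≤ p - (N-6)/2 - (N-5) - 2 + 1 ≤ 20 because 3N ≥ 2p - 11.
 For each of the four sets Q: `path_pairs`: Q.card ≤ R.card + 5 s + 1, s = Nat.sqrt (2p), RQ; for (μ, ν), (μ, rv ν E): `r_count`: 7 R.card ≤ 2 (p - Sz μ (D/2+1)) + 14 (first coordinates are in Ix D as R ⊆ Q, PP.hI); for rv μ D: 7 R.card ≤ 2 (p - Sz (rv μ D) (D/2+1)) + 14 (`Sz_rv`). Moreover (p - Sz μ (D/2+1)) + (p - Sz (rv μ D) (D/2+1)) ≤ p: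
 i.e. Sz μ (D/2+1) + Sz (rv μ D) (D/2+1) ≥ p: Sz (rv μ D) (D/2+1) counts the positions D - D/2, ..., D and D - D/2 ≤ D/2+1 (`Vm_eq_Lm_rv`: Vm μ (D+1) (D - D/2) = Lm (rv μ D) (D/2+1), sz_Vm, sz_Lm: Sz (rv μ D) (D/2+1) + Sz μ (D - D/2) = p, and Sz μ (D-D/2) ≤ Sz μ (D/2+1)).
 Total: 7 N ≤ 14 + 56 + 14·20 + 28 (5s+1) + 4p + 56. With s ≤ Nat.sqrt (2p), s*s ≤ 2p, p ≥ 10^10: 140 s ≤ p/100 (as (14000 s)^2 ≤ 196·10^6·2p ≤ p^2 because p ≥ 4·10^8). So 7N ≤ 4p + p/100 + 500, contradiction to 21 N ≥ 14 p - 77.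
-/

open Multiset

namespace TRD

noncomputable section

namespace UnFinalAux

theorem q_bound {μ ν : ℕ → Multiset RT} {D E p : ℕ} (hμ : GW μ D) (hν : GW ν E) (hE : E ≤ D)
    (hE10 : 10 ≤ E) (hp : Sz ν (E + 1) = p) {Q : Finset (ℕ × ℕ)} (hQ : PP μ ν D E Q) :
    7 * Q.card ≤ 2 * (Sz μ (D + 1) - Sz μ (D / 2 + 1)) + 21 + 35 * Nat.sqrt (2 * p) := by
  obtain ⟨Q₁, hsub, hR, hc⟩ := path_pairs hμ hν hE hp hQ
  have h1 := r_count hμ hν hE10 hR (by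
    intro e he
    have h2 := (hQ.hI e (hsub he)).1
    exact (Finset.mem_Icc.1 h2).1)
  omega

theorem halves (μ : ℕ → Multiset RT) (D : ℕ) :
    Sz μ (D + 1) ≤ Sz μ (D / 2 + 1) + Sz (rv μ D) (D / 2 + 1) := by
  have h1 := Vm_eq_Lm_rv μ (D := D) (h := D - D / 2) (by omega)
  have e : D + 1 - (D - D / 2) = D / 2 + 1 := by omega
  rw [e] at h1
  have h2 := sz_Vm μ (i := D + 1) (h := D - D / 2) (by omega)
  rw [h1, sz_Lm] at h2
  have h3 := Sz_mono μ (i := D - D / 2) (j := D / 2 + 1) (by omega)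
  omega

theorem num {p s : ℕ} (hs : s * s ≤ 2 * p) (h : 2 * p ≤ 1400 + 420 * s) (hp : 10 ^ 10 ≤ p) :
    False := by
  have h1 : s ≤ 500 := by
    by_contra hc
    have h2 : 501 ≤ s := by omega
    have h3 : 501 * s ≤ s * s := Nat.mul_le_mul_right s h2
    omega
  omega

end UnFinalAux

theorem un_final {μ ν : ℕ → Multiset RT} {D E : ℕ} (hμ : GW μ D) (hν : GW ν E) (hE : E < D)
    (hE1 : 1 ≤ E) {x y : RT} (hx : cls x = cw μ (D + 1)) (hy : cls y = cw ν (E + 1))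
    (hsz : size x = size y) (hp : 10 ^ 10 ≤ size x)
    {M₀ : Multiset (Multiset Cls × Multiset Cls)}
    (hM : Mt M₀ (deck x) (deck y) (fun a b => a = b)) :
    card M₀ ≤ 2 * ((size x - 5) / 3) := by
  have hpx : Sz μ (D + 1) = size x := by
    have h := csize_cw μ (i := D + 1) (by omega)
    rw [← hx, csize_cls] at h
    exact h.symm
  have hpy : Sz ν (E + 1) = size x := by
    have h := csize_cw ν (i := E + 1) (by omega)
    rw [← hy, csize_cls] at h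
    rw [hsz]
    exact h.symm
  have hpy' : Sz (rv ν E) (E + 1) = size x := by
    rw [Sz_rv]
    exact hpy
  have hpx' : Sz (rv μ D) (D + 1) = size x := by
    rw [Sz_rv]
    exact hpx
  obtain ⟨M, M', h1, h2, h3⟩ := un_split hμ hν hE hE1 hx hy hM
  obtain ⟨a1, Q1, Q2, W, q1, q2, w1, b1⟩ := un_half hμ hν hE hE1 hpy h1
  obtain ⟨a2, Q3, Q4, W', q3, q4, w2, b2⟩ := un_half (GW_rv hμ) hν hE hE1 hpy h2
  generalize hpdef : size x = p at *
  by_contra hcon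
  have hN : 2 * ((p - 5) / 3) + 1 ≤ card M₀ := by omega
  have hE10 : 10 ≤ E := by omega
  have c1 := UnFinalAux.q_bound hμ hν hE.le hE10 hpy q1
  have c2 := UnFinalAux.q_bound hμ (GW_rv hν) hE.le hE10 hpy' q2
  have c3 := UnFinalAux.q_bound (GW_rv hμ) hν hE.le hE10 hpy q3
  have c4 := UnFinalAux.q_bound (GW_rv hμ) (GW_rv hν) hE.le hE10 hpy' q4
  have hh := UnFinalAux.halves μ D
  have hW : W ≤ 20 := by omega
  have hW' : W' ≤ 20 := by omega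
  have hs := Nat.sqrt_le (2 * p)
  rw [hpx] at c1 c2 hh
  rw [hpx'] at c3 c4
  apply UnFinalAux.num hs _ hp
  generalize Nat.sqrt (2 * p) = s at *
  have m1 := Sz_mono μ (i := D / 2 + 1) (j := D + 1) (by omega)
  have m2 := Sz_mono (rv μ D) (i := D / 2 + 1) (j := D + 1) (by omega)
  omega

end

end TRD
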