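import Pool.Agent.Lib.TRD.CcEx
import Pool.Agent.Lib.TRD.CwEq
import Pool.Agent.Lib.TRD.WordC

/-! # TRD.WordEx (MP_2e3d39_co)

Every tree is the unrooted tree of a good word.

(A) For every code y there are letters l with Lm l (ht y + 1) = {y} and hb (l m) ≤ m for m ≤ ht y. RT.ind / induction on ht y: if ch y = 0: l = 0. Otherwise choose z ∈ ch y with ht z + 1 = hb (ch y) = ht y, l' for z; put l = l' on positions ≤ ht z, l (ht y) = (ch y).erase z
    (Lm_congr); Lm l (ht y + 1) = {node (l (ht y) + {z})} = {y}.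
(B) For every x there is x' with cls x' = cls x and one of: x' = node 0; x' = node (y₁ ::ₘ y₂ ::ₘ m), ht y₁ = ht y₂, all w ∈ m have ht w ≤ ht y₁; x' = node (y ::ₘ A), ht y = hb A. Strong induction on ht x: highest child y, A the rest; if hb A = ht y + 1 second form; if hb A = ht y third form;
    if hb A < ht y flip to node (node A ::ₘ ch y), which has smaller height.
(C) x' = node 0: D = 0, μ = fun _ => 0. Second form with H = ht y₁ + 1, D = 2H: l₁ for y₁, l₂ for y₂: μ k = l₁ k for k < H, μ H = m, μ k = l₂ (D - k) for k > H. Lm μ H = {y₁}, Vm μ (D+1) (H+1) = Lm (rv μ D) H = {y₂} (`Vm_eq_Lm_rv`), and cls (node (Lm μ H + μ H + Vm μ (D+1) (H+1))) = cw μ (D+1) by `cw_eq`.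
    Third form with h = ht y, D = 2h+1: l₁ for node A (height h), l₂ for y: μ k = l₁ k for k ≤ h, μ k = l₂ (D - k) for k > h. Lm μ (h+1) = {node A} = {node (μ h + Lm μ h)}, so A = μ h + Lm μ h (node_inj), Vm μ (D+1) (h+1) = {y}, `cw_eq` at h.
    GW: for k ≤ D/2 hb (μ k) ≤ k and k + k ≤ D; symmetric for k > D/2; in the second form hb m ≤ H.
`Sz μ (D+1) = size x`: `csize_cw` and csize_cls.
-/

open Multiset

namespace TRD

noncomputable section

namespace WordExAux

theorem spine (n : ℕ) : ∀ y : RT, ht y = n →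
    ∃ l : ℕ → Multiset RT, Lm l (n + 1) = {y} ∧ ∀ m ≤ n, hb (l m) ≤ m := by
  induction n using Nat.strong_induction_on with
  | _ n ih =>
    intro y hy
    by_cases h0 : ch y = 0
    · have hn : n = 0 := by
        rw [← hy, ht_eq, h0, hb_zero]
      subst hn
      refine ⟨fun _ => 0, ?_, fun m _ => by rw [hb_zero]; omega⟩
      rw [Lm_single _ (by omega)]
      have h1 : Lm (fun _ => (0 : Multiset RT)) (0 + 1 - 1) = 0 := rfl
      rw [h1, add_zero, ← h0, node_ch]
    · obtain ⟨z, hz, hz2⟩ := hb_attained h0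
      have hyz : ht z + 1 = n := by rw [hz2, ← ht_eq, hy]
      obtain ⟨l, hl, hb1⟩ := ih (ht z) (by omega) z rfl
      refine ⟨fun m => if m ≤ ht z then l m else (ch y).erase z, ?_, ?_⟩
      · rw [Lm_single _ (by omega)]
        have h1 : Lm (fun m => if m ≤ ht z then l m else (ch y).erase z) (n + 1 - 1) = {z} := by
          rw [show n + 1 - 1 = ht z + 1 by omega, ← hl]
          refine Lm_congr fun m hm => ?_
          rw [if_pos (by omega)]
        rw [h1]
        rw [if_neg (by omega)]
        have h2 : (ch y).erase z + {z} = ch y := by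
          rw [add_comm, Multiset.singleton_add, Multiset.cons_erase hz]
        rw [h2, node_ch]
      · intro m hm
        simp only
        split_ifs with hc
        · exact hb1 m hc
        · have h3 := ccx_hb_erase hz
          omega

theorem form2 (y₁ y₂ : RT) (m : Multiset RT) (h12 : ht y₁ = ht y₂) (hm : ∀ w ∈ m, ht w ≤ ht y₁) :
    ∃ (D : ℕ) (μ : ℕ → Multiset RT), GW μ D ∧ cls (node (y₁ ::ₘ y₂ ::ₘ m)) = cw μ (D + 1) := by
  obtain ⟨l₁, hl1, hb1⟩ := spine (ht y₁) y₁ rfl
  obtain ⟨l₂, hl2, hb2⟩ := spine (ht y₁) y₂ h12.symm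
  set h := ht y₁ with hh
  set μ : ℕ → Multiset RT := fun k => if k < h + 1 then l₁ k else if k = h + 1 then m
    else l₂ (2 * (h + 1) - k) with hμ
  have hmh : hb m ≤ h + 1 := by
    by_cases h0 : m = 0
    · rw [h0, hb_zero]; omega
    · obtain ⟨w, hw, hw2⟩ := hb_attained h0
      have := hm w hw
      omega
  refine ⟨2 * (h + 1), μ, ?_, ?_⟩
  · intro k hk
    simp only [hμ]
    split_ifs with h1 h2
    · have := hb1 k (by omega)
      omega
    · omega
    · have := hb2 (2 * (h + 1) - k) (by omega)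
      omega
  · have e1 : Lm μ (h + 1) = {y₁} := by
      rw [← hl1]
      refine Lm_congr fun j hj => ?_
      simp only [hμ]
      rw [if_pos hj]
    have e2 : μ (h + 1) = m := by
      simp only [hμ]
      rw [if_neg (by omega)]
      simp
    have e3 : Vm μ (2 * (h + 1) + 1) (h + 1 + 1) = {y₂} := by
      rw [Vm_eq_Lm_rv μ (by omega), show 2 * (h + 1) + 1 - (h + 1 + 1) = h + 1 by omega, ← hl2]
      refine Lm_congr fun j hj => ?_
      show μ (2 * (h + 1) - j) = l₂ j
      simp only [hμ]
      rw [if_neg (by omega), if_neg (by omega)]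
      congr 1
      omega
    have h3 := cw_eq μ (h := h + 1) (i := 2 * (h + 1) + 1) (by omega)
    rw [e1, e2, e3] at h3
    rw [← h3]
    congr 2
    rw [Multiset.singleton_add, Multiset.cons_add, add_comm m, Multiset.singleton_add]

theorem form3 (y : RT) (A : Multiset RT) (hy : ht y = hb A) :
    ∃ (D : ℕ) (μ : ℕ → Multiset RT), GW μ D ∧ cls (node (y ::ₘ A)) = cw μ (D + 1) := by
  obtain ⟨l₁, hl1, hb1⟩ := spine (ht y) (node A) (by rw [ht_node, hy])
  obtain ⟨l₂, hl2, hb2⟩ := spine (ht y) y rfl
  set h := ht y with hh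
  set μ : ℕ → Multiset RT := fun k => if k ≤ h then l₁ k else l₂ (2 * h + 1 - k) with hμ
  refine ⟨2 * h + 1, μ, ?_, ?_⟩
  · intro k hk
    simp only [hμ]
    split_ifs with h1
    · have := hb1 k (by omega)
      omega
    · have := hb2 (2 * h + 1 - k) (by omega)
      omega
  · have e1 : Lm μ (h + 1) = {node A} := by
      rw [← hl1]
      refine Lm_congr fun j hj => ?_
      simp only [hμ]
      rw [if_pos (by omega)]
    have e3 : Vm μ (2 * h + 1 + 1) (h + 1) = {y} := by
      rw [Vm_eq_Lm_rv μ (by omega), show 2 * h + 1 + 1 - (h + 1) = h + 1 by omega, ← hl2]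
      refine Lm_congr fun j hj => ?_
      show μ (2 * h + 1 - j) = l₂ j
      simp only [hμ]
      rw [if_neg (by omega)]
      congr 1
      omega
    rw [Lm_single μ (by omega)] at e1
    have e4 := node_inj (Multiset.singleton_inj.mp e1)
    rw [show h + 1 - 1 = h by omega] at e4
    have h3 := cw_eq μ (h := h) (i := 2 * h + 1 + 1) (by omega)
    rw [e3, add_comm (Lm μ h), e4] at h3
    rw [← h3]
    congr 2
    rw [add_comm, Multiset.singleton_add]

theorem main (n : ℕ) : ∀ x : RT, ht x = n →
    ∃ (D : ℕ) (μ : ℕ → Multiset RT), GW μ D ∧ cls x = cw μ (D + 1) := by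
  induction n using Nat.strong_induction_on with
  | _ n ih =>
    intro x hx
    by_cases h0 : ch x = 0
    · refine ⟨0, fun _ => 0, ?_, ?_⟩
      · intro m _
        simp only
        rw [hb_zero]
        omega
      · unfold cw
        rw [Vm_of_le _ (by omega), add_zero, ← h0, node_ch]
    · obtain ⟨y, hy, hy2⟩ := hb_attained h0
      have hxy : y ::ₘ (ch x).erase y = ch x := Multiset.cons_erase hy
      have he := ccx_hb_erase hy
      have hxn : n = ht y + 1 := by rw [hy2, ← ht_eq, hx]
      set A := (ch x).erase y with hA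
      have hxe : x = node (y ::ₘ A) := by rw [hxy, node_ch]
      rcases lt_trichotomy (hb A) (ht y) with h1 | h1 | h1
      · have h2 := cls_flip A (ch y)
        rw [node_ch] at h2
        obtain ⟨D, μ, h3, h4⟩ := ih (ht (node (node A ::ₘ ch y))) (by
          rw [ht_node, hb_cons, ht_node, ← ht_eq]
          omega) _ rfl
        exact ⟨D, μ, h3, by rw [hxe, h2, h4]⟩
      · rw [hxe]
        exact form3 y A h1.symm
      · have hA0 : A ≠ 0 := by
          intro h
          rw [h, hb_zero] at h1
          omega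
        obtain ⟨y₂, hy₂, hy₂2⟩ := hb_attained hA0
        have hAe : y₂ ::ₘ A.erase y₂ = A := Multiset.cons_erase hy₂
        rw [hxe, ← hAe]
        refine form2 y y₂ _ (by omega) ?_
        intro w hw
        have h3 : w ∈ A := Multiset.mem_of_mem_erase hw
        have := ht_lt_hb h3
        omega

end WordExAux

theorem word_ex (x : RT) : ∃ (D : ℕ) (μ : ℕ → Multiset RT), GW μ D ∧ cls x = cw μ (D + 1) ∧
    Sz μ (D + 1) = size x := by
  obtain ⟨D, μ, h1, h2⟩ := WordExAux.main (ht x) x rfl
  refine ⟨D, μ, h1, h2, ?_⟩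
  rw [← csize_cw μ (by omega), ← h2, csize_cls]

end

end TRD
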