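import Pool.Agent.Lib.TRD.EqFinal
import Pool.Agent.Lib.TRD.UnFinal
import Pool.Agent.Lib.TRD.WordEx

/-! # TRD.MainCode (MP_2e3d39_co)

Main theorem on codes.

`word_ex` for x and y: (D, μ), (E, ν). D ≥ 1 and E ≥ 1, because for D = 0: Sz μ 1 = 1 + sz (μ 0) with hb (μ 0) ≤ 0, so μ 0 = 0 (a nonempty multiset has hb ≥ 1) and size x = 1. If D = E: `eq_final`. If E < D: `un_final`. If D < E: `un_final` for the swapped matching (`mt_swap`; the relation a = b is symmetric) with x and y exchanged.
-/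

open Multiset

namespace TRD

noncomputable section

theorem main_pos {x : RT} {μ : ℕ → Multiset RT} {D : ℕ} (hμ : GW μ D)
    (hS : Sz μ (D + 1) = size x) (hx : 2 ≤ size x) : 1 ≤ D := by
  rcases Nat.eq_zero_or_pos D with h0 | h0
  · exfalso
    subst h0
    have h1 : hb (μ 0) ≤ 0 := (hμ 0 (le_refl 0)).1
    have h2 : μ 0 = 0 := by
      by_contra hne
      obtain ⟨y, _, hy⟩ := hb_attained hne
      omega
    have h3 : Sz μ (0 + 1) = 1 := by
      unfold Sz
      rw [Finset.sum_range_one, h2, sz_zero]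
    omega
  · exact h0

theorem main_code {x y : RT} (hne : cls x ≠ cls y) (hsz : size x = size y)
    (hp : 10 ^ 10 ≤ size x) {M₀ : Multiset (Multiset Cls × Multiset Cls)}
    (hM : Mt M₀ (deck x) (deck y) (fun a b => a = b)) :
    card M₀ ≤ 2 * ((size x - 5) / 3) := by
  obtain ⟨D, μ, hμ, hx, hSx⟩ := word_ex x
  obtain ⟨E, ν, hν, hy, hSy⟩ := word_ex y
  have hD : 1 ≤ D := main_pos hμ hSx (by omega)
  have hE : 1 ≤ E := main_pos hν hSy (by omega)
  rcases lt_trichotomy D E with h | h | h
  · have hM' : Mt (M₀.map Prod.swap) (deck y) (deck x) (fun a b => a = b) := by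
      have h1 := mt_swap hM
      exact ⟨h1.1, h1.2.1, fun e he => (h1.2.2 e he).symm⟩
    have h2 := un_final hν hμ h hD hy hx hsz.symm (by omega) hM'
    rw [Multiset.card_map] at h2
    rw [hsz]
    exact h2
  · subst h
    exact eq_final hμ hν hD hx hy hne hsz hp hM
  · exact un_final hμ hν h hE hx hy hsz hp hM

end

end TRD
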