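import Pool.Agent.Lib.TRD.Classify
import Pool.Agent.Lib.TRD.MatchB

/-! # TRD.OneSplit (MP_2e3d39_co)

Both multisets differ in one tree: m = U ::ₘ s, m' = U' ::ₘ s, U ≠ U', size U = size U'. Every pair is of type α (labels U, U', same remainder) or of type A (common label A ∈ s bigger than U, remainders {U'}, {U}).

For t, t' in the pair apply `classify` (m ≠ m' because U ≠ U').
 (α) m = P ::ₘ s₂, m' = Q ::ₘ s₂, P ≠ Q. Then P = U and Q = U' : from U ::ₘ s = P ::ₘ s₂ and U' ::ₘ s = Q ::ₘ s₂: U' ::ₘ P ::ₘ s₂ = U' ::ₘ U ::ₘ s = U ::ₘ Q ::ₘ s₂, so {U', P} = {U, Q}; since P ≠ Q and U ≠ U': P = U, Q = U'.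
 (A) m = U₁ ::ₘ s₁, m' = U₁' ::ₘ s₁ in the same way U₁ = U, U₁' = U', s₁ = s.
 (β) m = P ::ₘ (o' + s₁), m' = Q ::ₘ (o + s₁), P ≠ Q, o ≠ o'. From U ::ₘ s = P ::ₘ (o' + s₁), U' ::ₘ s = Q ::ₘ (o + s₁): {U} + {Q} + o = {U'} + {P} + o'. P ∉ o (size o < size P by `dlo_size`), P ≠ Q so P = U; in the same way Q = U'; then o = o'. Contradiction.
So M splits (filter by t.1 = U ∧ t'.1 = U' ∧ same remainder). For MA: first components are elements (A, {U'}, F) of ldl (s.filter (size U < size ·)) (`mem_ldl`; A ≠ U as size A > size U), with MA.map fst ≤ (ldl (s.filter ..)).filter (o = {U'}): MA.map fst ≤ (ldl (U ::ₘ s)).filter (fun t => size U < size t.1 ∧ t.2.1 = {U'}), and filtering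
ldl (U ::ₘ s) by the label condition size U < size t.1 gives ldl (s.filter ..). Same for the second components with {U} (U' ::ₘ s, size U' = size U). The two filters of ldl (s.filter ..) are disjoint as {U'} ≠ {U}, so 2 card MA ≤ card (ldl (s.filter ..)) = sz (s.filter ..) (`card_ldl`).
-/

open Multiset

namespace TRD

noncomputable section

namespace OneSplitAux

theorem filter_ldl (n : ℕ) (s : Multiset RT) :
    (ldl s).filter (fun t => n < size t.1) = ldl (s.filter (fun A => n < size A)) := by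
  induction s using Multiset.induction_on with
  | empty => simp [ldl]
  | cons a s ih =>
    rw [ldl_cons, Multiset.filter_add, ih]
    by_cases ha : n < size a
    · rw [Multiset.filter_cons_of_pos (p := fun A => n < size A) s ha, ldl_cons]
      congr 1
      rw [Multiset.filter_eq_self]
      intro t ht
      rw [Multiset.mem_map] at ht
      obtain ⟨o, _, rfl⟩ := ht
      exact ha
    · rw [Multiset.filter_cons_of_neg (p := fun A => n < size A) s ha]
      have h1 : ((dlo a).map (fun o => (a, o))).filter (fun t => n < size t.1) = 0 := by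
        rw [Multiset.filter_eq_nil]
        intro t ht
        rw [Multiset.mem_map] at ht
        obtain ⟨o, _, rfl⟩ := ht
        exact ha
      rw [h1, zero_add]

theorem filter_big (n : ℕ) (U : RT) (s : Multiset RT) (h : size U = n) :
    (ldl (U ::ₘ s)).filter (fun t => n < size t.1) = ldl (s.filter (fun A => n < size A)) := by
  rw [filter_ldl, Multiset.filter_cons_of_neg (p := fun A => n < size A) s
    (fun h' => absurd (show n < size U from h') (by omega))]

theorem card_two (L : Multiset (RT × Multiset RT × Multiset RT)) {U U' : RT} (hne : U ≠ U') :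
    card (L.filter (fun t => t.2.1 = {U'})) + card (L.filter (fun t => t.2.1 = {U})) ≤
      card L := by
  have h1 : L.filter (fun t => t.2.1 = {U}) ≤ L.filter (fun t => ¬ t.2.1 = {U'}) := by
    apply Multiset.monotone_filter_right
    intro t ht ht'
    rw [ht] at ht'
    exact hne (Multiset.singleton_inj.1 ht')
  have h2 := Multiset.card_le_card h1
  have h3 := congrArg card (Multiset.filter_add_not (fun t => t.2.1 = {U'}) L)
  rw [card_add] at h3
  omega

theorem not_mem_of_size {P : RT} {o : Multiset RT × Multiset RT} (ho : o ∈ dlo P) {x : RT}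
    (hx : x ∈ o.1) : size x < size P := by
  have h1 := dlo_size ho
  have h2 := size_le_sz hx
  omega

theorem pair_eq {U U' P Q : RT} {o o' : Multiset RT} (hPQ : P ≠ Q) (hP : P ∉ o)
    (hQ : Q ∉ o') (h : U' ::ₘ P ::ₘ o' = U ::ₘ Q ::ₘ o) : P = U ∧ Q = U' := by
  constructor
  · have h1 : P ∈ U ::ₘ Q ::ₘ o := by
      rw [← h]
      exact Multiset.mem_cons_of_mem (Multiset.mem_cons_self _ _)
    rcases Multiset.mem_cons.1 h1 with h2 | h2
    · exact h2
    · rcases Multiset.mem_cons.1 h2 with h3 | h3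
      · exact absurd h3 hPQ
      · exact absurd h3 hP
  · have h1 : Q ∈ U' ::ₘ P ::ₘ o' := by
      rw [h]
      exact Multiset.mem_cons_of_mem (Multiset.mem_cons_self _ _)
    rcases Multiset.mem_cons.1 h1 with h2 | h2
    · exact h2
    · rcases Multiset.mem_cons.1 h2 with h3 | h3
      · exact absurd h3.symm hPQ
      · exact absurd h3 hQ

theorem cons_both {U U' : RT} {s a b : Multiset RT} (h1 : U ::ₘ s = a) (h2 : U' ::ₘ s = b) :
    U' ::ₘ a = U ::ₘ b := by
  rw [← h1, ← h2, Multiset.cons_swap]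

end OneSplitAux

open OneSplitAux

theorem one_split {U U' : RT} {s : Multiset RT} (hne : U ≠ U') (hsz : size U = size U')
    {M : Multiset ((RT × Multiset RT × Multiset RT) × (RT × Multiset RT × Multiset RT))}
    (hM : Mt M (ldl (U ::ₘ s)) (ldl (U' ::ₘ s)) (Rl (U ::ₘ s) (U' ::ₘ s))) :
    ∃ Ma MA, M = Ma + MA ∧
      (∀ e ∈ Ma, e.1.1 = U ∧ e.2.1 = U' ∧ e.1.2.1 = e.2.2.1) ∧
      (∀ e ∈ MA, e.1.1 = e.2.1 ∧ e.1.1 ∈ s ∧ size U < size e.1.1 ∧ e.1.2.1 = {U'} ∧
        e.2.2.1 = {U}) ∧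
      2 * card MA ≤ sz (s.filter (fun A => size U < size A)) := by
  classical
  obtain ⟨hM1, hM2, hMr⟩ := hM
  have hms : U ::ₘ s ≠ U' ::ₘ s := fun h => hne ((Multiset.cons_inj_left s).1 h)
  have hsz' : sz (U ::ₘ s) = sz (U' ::ₘ s) := by rw [sz_cons, sz_cons, hsz]
  have key : ∀ e ∈ M, (e.1.1 = U ∧ e.2.1 = U' ∧ e.1.2.1 = e.2.2.1) ∨
      (e.1.1 = e.2.1 ∧ e.1.1 ∈ s ∧ size U < size e.1.1 ∧ e.1.2.1 = {U'} ∧ e.2.2.1 = {U}) := by
    intro e he
    have h1 : e.1 ∈ ldl (U ::ₘ s) := Multiset.mem_of_le hM1 (Multiset.mem_map_of_mem _ he)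
    have h2 : e.2 ∈ ldl (U' ::ₘ s) := Multiset.mem_of_le hM2 (Multiset.mem_map_of_mem _ he)
    have d1 := (mem_ldl.1 h1).2
    have d2 := (mem_ldl.1 h2).2
    rcases classify hms hsz' h1 h2 (hMr e he) with ⟨ho, hPQ, _, s₂, e1, e2⟩ |
      ⟨hP, U₁, U₁', s₁, hU, hUs, hlt, e1, e2, hmem, ho1, ho2⟩ | ⟨hPQ, ho, s₁, e1, e2⟩
    · left
      have h3 := cons_both e1 e2
      have h4 : U' ::ₘ e.1.1 ::ₘ (0 : Multiset RT) = U ::ₘ e.2.1 ::ₘ 0 := by
        have h5 : (U' ::ₘ e.1.1 ::ₘ (0 : Multiset RT)) + s₂ = (U ::ₘ e.2.1 ::ₘ 0) + s₂ := by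
          simp only [Multiset.cons_add, zero_add]
          exact h3
        exact add_right_cancel h5
      obtain ⟨h5, h6⟩ := pair_eq hPQ (Multiset.notMem_zero _) (Multiset.notMem_zero _) h4
      exact ⟨h5, h6, ho⟩
    · right
      have h3 := cons_both e1 e2
      have h4 : U' ::ₘ U₁ ::ₘ (0 : Multiset RT) = U ::ₘ U₁' ::ₘ 0 := by
        have h5 : (U' ::ₘ U₁ ::ₘ (0 : Multiset RT)) + s₁ = (U ::ₘ U₁' ::ₘ 0) + s₁ := by
          simp only [Multiset.cons_add, zero_add]
          exact h3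
        exact add_right_cancel h5
      obtain ⟨h5, h6⟩ := pair_eq hU (Multiset.notMem_zero _) (Multiset.notMem_zero _) h4
      subst h5
      subst h6
      have h7 : s = s₁ := (Multiset.cons_inj_right _).1 e1
      subst h7
      exact ⟨hP, hmem, hlt, ho1, ho2⟩
    · exfalso
      have h3 := cons_both e1 e2
      have h4 : U' ::ₘ e.1.1 ::ₘ e.2.2.1 = U ::ₘ e.2.1 ::ₘ e.1.2.1 := by
        have h5 : (U' ::ₘ e.1.1 ::ₘ e.2.2.1) + s₁ = (U ::ₘ e.2.1 ::ₘ e.1.2.1) + s₁ := by
          simp only [Multiset.cons_add]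
          exact h3
        exact add_right_cancel h5
      have n1 : e.1.1 ∉ e.1.2.1 := fun h => lt_irrefl _ (not_mem_of_size d1 h)
      have n2 : e.2.1 ∉ e.2.2.1 := fun h => lt_irrefl _ (not_mem_of_size d2 h)
      obtain ⟨h5, h6⟩ := pair_eq hPQ n1 n2 h4
      rw [h5, h6, Multiset.cons_swap] at h4
      have h7 := (Multiset.cons_inj_right _).1 ((Multiset.cons_inj_right _).1 h4)
      exact ho h7.symm
  refine ⟨M.filter (fun e => e.1.1 = U ∧ e.2.1 = U' ∧ e.1.2.1 = e.2.2.1),
    M.filter (fun e => ¬ (e.1.1 = U ∧ e.2.1 = U' ∧ e.1.2.1 = e.2.2.1)),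
    (Multiset.filter_add_not _ M).symm, fun e he => (Multiset.mem_filter.1 he).2, ?_, ?_⟩
  · intro e he
    obtain ⟨h1, h2⟩ := Multiset.mem_filter.1 he
    rcases key e h1 with h3 | h3
    · exact absurd h3 h2
    · exact h3
  · have kA : ∀ e ∈ M.filter (fun e => ¬ (e.1.1 = U ∧ e.2.1 = U' ∧ e.1.2.1 = e.2.2.1)),
        (e.1.1 = e.2.1 ∧ e.1.1 ∈ s ∧ size U < size e.1.1 ∧ e.1.2.1 = {U'} ∧ e.2.2.1 = {U}) := by
      intro e he
      obtain ⟨h1, h2⟩ := Multiset.mem_filter.1 he
      rcases key e h1 with h3 | h3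
      · exact absurd h3 h2
      · exact h3
    generalize hMA : M.filter (fun e => ¬ (e.1.1 = U ∧ e.2.1 = U' ∧ e.1.2.1 = e.2.2.1)) = MA at *
    have hle : MA ≤ M := by rw [← hMA]; exact Multiset.filter_le _ _
    have l1 : MA.map Prod.fst ≤ ldl (U ::ₘ s) := (Multiset.map_le_map hle).trans hM1
    have l2 : MA.map Prod.snd ≤ ldl (U' ::ₘ s) := (Multiset.map_le_map hle).trans hM2
    have c1 : card MA ≤ card ((ldl (s.filter (fun A => size U < size A))).filter
        (fun t => t.2.1 = {U'})) := by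
      rw [← filter_big (size U) U s rfl, Multiset.filter_filter]
      rw [← Multiset.card_map Prod.fst MA]
      apply Multiset.card_le_card
      rw [Multiset.le_filter]
      refine ⟨l1, fun t ht => ?_⟩
      obtain ⟨e, he, rfl⟩ := Multiset.mem_map.1 ht
      obtain ⟨_, _, h3, h4, _⟩ := kA e he
      exact ⟨h4, h3⟩
    have c2 : card MA ≤ card ((ldl (s.filter (fun A => size U < size A))).filter
        (fun t => t.2.1 = {U})) := by
      rw [← filter_big (size U) U' s hsz.symm, Multiset.filter_filter]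
      rw [← Multiset.card_map Prod.snd MA]
      apply Multiset.card_le_card
      rw [Multiset.le_filter]
      refine ⟨l2, fun t ht => ?_⟩
      obtain ⟨e, he, rfl⟩ := Multiset.mem_map.1 ht
      obtain ⟨h0, _, h3, _, h5⟩ := kA e he
      exact ⟨h5, h0 ▸ h3⟩
    have c3 := card_two (ldl (s.filter (fun A => size U < size A))) hne
    rw [card_ldl] at c3
    omega

end

end TRD
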