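import Pool.Agent.Lib.TRD.LevSum
import Pool.Agent.Lib.TRD.Basic

/-! # TRD.ThinA (MP_2e3d39_co)

Thin trees.

* `deg_of_lev`: RT.ind: x = node m. card m = lev 1 x ≤ C (lev 1 x = ∑ over ch x of lev 0 = card). For y ∈ m: lev k y ≤ lev (k+1) x ≤ C.
* `lev_dl`: for e ∈ dl x there is a depth k₀ ≥ 1 (the depth of the deleted vertex) with lev k e.1 = lev k x for k < k₀ and lev k₀ e.1 + 1 = lev k₀ x. RT.ind with `dl_node`: for the child root: k₀ = 1: lev 1 (node (m.erase y)) = card m - 1; for (node (f.1 ::ₘ m.erase y)), f ∈ dl y with depth k₁: k₀ = k₁ + 1. Moreover the number of entries of dl x with depth k₀ is lev k₀ x: formulate as: there is a function: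
  dl x = ∑ k ∈ Icc 1 (ht x), (E k) with card (E k) = lev k x and every e ∈ E k has the property P(k): (∀ j < k, lev j e.1 = lev j x) ∧ lev k e.1 + 1 = lev k x. (Induction; or: prove ∀ n, card ((dl x).filter (P n)) ≤ lev n x by RT.ind, together with: every e ∈ dl x satisfies P n for some n ≥ 1.)
* `thin_entries`: all e ∈ dl x with e.1 = K satisfy P(n) for the same n = n(K) = the first index with lev n K ≠ lev n x; so their number is ≤ lev n x = lev n K + 1 ≤ C + 1; if lev n x ≤ C for all n then ≤ C. (If there is no such e the number is 0.)
-/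

open Multiset

namespace TRD

noncomputable section

namespace ThinAAux

theorem levm_cons (k : ℕ) (y : RT) (m : Multiset RT) :
    levm k (y ::ₘ m) = lev k y + levm k m := by
  simp [levm]

theorem lev_zero (x : RT) : lev 0 x = 1 := by simp [lev]

theorem lev_one (m : Multiset RT) : lev 1 (node m) = card m := by
  rw [lev_node]
  unfold levm
  have : m.map (lev 0) = m.map (fun _ => 1) := Multiset.map_congr rfl (fun y _ => lev_zero y)
  rw [this, Multiset.map_const', Multiset.sum_replicate]
  simp

/-- the first level at which `K` and `x` differ is `n`, and there `K` has one vertex less -/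
def PP (n : ℕ) (x K : RT) : Prop := (∀ j < n, lev j K = lev j x) ∧ lev n K + 1 = lev n x

theorem exists_PP (x : RT) : ∀ e ∈ dl x, ∃ n, PP n x e.1 := by
  revert x
  apply RT.ind
  intro m ih e he
  rw [dl_node, Multiset.mem_bind] at he
  obtain ⟨y, hy, he⟩ := he
  rw [Multiset.mem_cons, Multiset.mem_map] at he
  rcases he with rfl | ⟨f, hf, rfl⟩
  · refine ⟨1, ?_, ?_⟩
    · intro j hj
      have : j = 0 := by omega
      subst this
      rw [lev_zero, lev_zero]
    · rw [lev_one, lev_one, Multiset.card_erase_add_one hy]
  · obtain ⟨n, hn1, hn2⟩ := ih y hy f hf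
    have hm : y ::ₘ m.erase y = m := Multiset.cons_erase hy
    refine ⟨n + 1, ?_, ?_⟩
    · intro j hj
      cases j with
      | zero => rw [lev_zero, lev_zero]
      | succ j =>
        rw [lev_node, lev_node, levm_cons, hn1 j (by omega), ← levm_cons, hm]
    · rw [lev_node, lev_node, levm_cons]
      conv_rhs => rw [← hm]
      rw [levm_cons]
      omega

open Classical in
theorem card_PP (x : RT) : ∀ n, card ((dl x).filter (fun e => PP n x e.1)) ≤ lev n x := by
  revert x
  apply RT.ind
  intro m ih n
  cases n with
  | zero =>
    have h0 : (dl (node m)).filter (fun e => PP 0 (node m) e.1) = 0 := by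
      rw [Multiset.filter_eq_nil]
      intro e _ hP
      have := hP.2
      rw [lev_zero, lev_zero] at this
      omega
    rw [h0]
    simp
  | succ n =>
    rw [lev_node, dl_node, Multiset.filter_bind, Multiset.card_bind]
    unfold levm
    apply Multiset.sum_map_le_sum_map
    intro y hy
    have hm : y ::ₘ m.erase y = m := Multiset.cons_erase hy
    simp only [Function.comp]
    have hA : card (((dl y).map (fun e => (node (e.1 ::ₘ m.erase y), e.2))).filter
        (fun e => PP (n + 1) (node m) e.1)) ≤ card ((dl y).filter (fun e => PP n y e.1)) := by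
      rw [Multiset.filter_map, Multiset.card_map]
      apply Multiset.card_le_card
      apply Multiset.monotone_filter_right
      intro e he
      simp only [Function.comp] at he
      obtain ⟨h1, h2⟩ := he
      refine ⟨?_, ?_⟩
      · intro j hj
        have h3 := h1 (j + 1) (by omega)
        rw [lev_node, lev_node, levm_cons] at h3
        conv_rhs at h3 => rw [← hm]
        rw [levm_cons] at h3
        omega
      · rw [lev_node, lev_node, levm_cons] at h2
        conv_rhs at h2 => rw [← hm]
        rw [levm_cons] at h2
        omega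
    rw [Multiset.filter_cons, Multiset.card_add]
    cases n with
    | zero =>
      have h0 : (dl y).filter (fun e => PP 0 y e.1) = 0 := by
        rw [Multiset.filter_eq_nil]
        intro e _ hP
        have := hP.2
        rw [lev_zero, lev_zero] at this
        omega
      rw [h0] at hA
      rw [lev_zero]
      have h1 : card (if PP (0 + 1) (node m) (node (m.erase y), ch y).1 then
          ({(node (m.erase y), ch y)} : Multiset (RT × Multiset RT)) else 0) ≤ 1 := by
        split_ifs <;> simp
      have h2 := Multiset.card_zero (α := RT × Multiset RT)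
      omega
    | succ n =>
      have hn : ¬ PP (n + 1 + 1) (node m) (node (m.erase y), ch y).1 := by
        intro hP
        have h3 := hP.1 1 (by omega)
        rw [lev_one, lev_one] at h3
        have := Multiset.card_erase_add_one hy
        omega
      rw [if_neg hn, Multiset.card_zero, zero_add]
      exact hA.trans (ih y hy (n + 1))

theorem bound {x K : RT} : card ((dl x).filter (fun e => e.1 = K)) = 0 ∨
    ∃ n, card ((dl x).filter (fun e => e.1 = K)) ≤ lev n x ∧ lev n K + 1 = lev n x := by
  classical
  by_cases h0 : (dl x).filter (fun e => e.1 = K) = 0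
  · left
    rw [h0]
    exact Multiset.card_zero
  · right
    obtain ⟨e0, he0⟩ := Multiset.exists_mem_of_ne_zero h0
    rw [Multiset.mem_filter] at he0
    obtain ⟨n, hn⟩ := exists_PP x e0 he0.1
    rw [he0.2] at hn
    refine ⟨n, ?_, hn.2⟩
    refine le_trans ?_ (card_PP x n)
    apply Multiset.card_le_card
    apply Multiset.monotone_filter_right
    intro e he
    show PP n x e.1
    rw [he]
    exact hn

end ThinAAux

theorem deg_of_lev {C : ℕ} {x : RT} (h : ∀ k, lev k x ≤ C) : Deg C x := by
  revert x
  apply RT.ind
  intro m ih h
  refine Deg.mk m ?_ ?_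
  · have := h 1
    rwa [ThinAAux.lev_one] at this
  · intro y hy
    apply ih y hy
    intro k
    have h1 := h (k + 1)
    have hm : y ::ₘ m.erase y = m := Multiset.cons_erase hy
    rw [lev_node, ← hm, ThinAAux.levm_cons] at h1
    omega

theorem thin_entries {C : ℕ} {x K : RT} (h : ∀ k, lev k K ≤ C) :
    card ((dl x).filter (fun e => e.1 = K)) ≤ C + 1 := by
  rcases ThinAAux.bound (x := x) (K := K) with h0 | ⟨n, h1, h2⟩
  · omega
  · have := h n
    omega

theorem thin_entries' {C : ℕ} {x K : RT} (h : ∀ k, lev k x ≤ C) :
    card ((dl x).filter (fun e => e.1 = K)) ≤ C + 1 := by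
  rcases ThinAAux.bound (x := x) (K := K) with h0 | ⟨n, h1, h2⟩
  · omega
  · have := h n
    omega

end

end TRD
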