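import Pool.Agent.Lib.TRD.PDefs
import Pool.Agent.Lib.TRD.WordB

/-! # TRD.Unroll (MP_2e3d39_co)

Unrolling an equality of a right part with a left limb.

By induction on m ≥ d'/2 + 1: Vm μ i' m = Lm ν (d'+1-m) for m ≤ i, and μ m = ν (d'-m) if moreover m < i.
m = d'/2+1: hypothesis hV (d' + 1 - (d'/2+1) = (d'+1)/2). Let the equality hold at m < i. `le_dm_self`: i ≤ dm μ i + 1 ≤ d', so m < d'. Vm μ i' m = {node (μ m + Vm μ i' (m+1))} (m < i'), Lm ν (d'+1-m) = {node (ν (d'-m) + Lm ν (d'-m))}; so μ m + Vm μ i' (m+1) = ν (d'-m) + Lm ν (d'-m).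
Lm ν (d'-m) = {x} (d'-m ≥ 1) with ht x + 1 = d' - m (`hb_Lm`, hypothesis hν). Every y ∈ μ m has ht y + 1 ≤ hb (μ m) ≤ dm μ i - m < d' - m (`le_dm`), so x ∉ μ m, x ∈ Vm μ i' (m+1), which has at most one element: Vm μ i' (m+1) = {x} = Lm ν (d'-m). Cancel: μ m = ν (d'-m).
`two_r`: hb (μ m) ≤ m for m < i etc. from GW. d/2+1 ≤ E/2+1 ≤ i, j (d < E). d < d': d ≤ d' (`dm_mono`), and d = d' gives Vm μ i (d/2+1) = Vm μ i' (d/2+1), so i = i' (`Vm_inj`). Sizes: csize of hc: Sz μ i = Sz ν j, Sz μ i' = Sz ν j' (`csize_cw`), so j < j' (`Sz_mono`: otherwise Sz ν j' ≤ Sz ν j).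
 Unroll for (μ,ν,i,i',d') and for (ν,μ,j,j',d') (dm ν j = d < d'). d'/2 < i and d'/2 < j (d' < E). Letters: let d' < m + j, m < i. If d'/2 < m: first unrolling. If d' = 2m: hm of the second pair. Otherwise m' = d' - m satisfies d'/2 < m' < j and the second unrolling gives ν m' = μ (d' - m') = μ m (m ≤ d').
-/

open Multiset

namespace TRD

noncomputable section

namespace UnrollAux

theorem csz (μ : ℕ → Multiset RT) {i : ℕ} (hi : 1 ≤ i) : csize (cw μ i) = Sz μ i := by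
  unfold cw
  rw [csize_cls, size_node, sz_add]
  have h1 := sz_Vm μ hi
  have h2 := Sz_succ μ 0
  have h3 : Sz μ 0 = 0 := by simp [Sz]
  rw [zero_add] at h2
  omega

theorem step {μ ν : ℕ → Multiset RT} {i i' d' m : ℕ} (h1 : 1 ≤ i) (hi : i < i')
    (hd : dm μ i < d') (hν : ∀ l < (d' + 1) / 2, hb (ν l) ≤ l)
    (hm1 : d' / 2 < m) (hm2 : m < i) (hV : Vm μ i' m = Lm ν (d' + 1 - m)) :
    μ m = ν (d' - m) ∧ Vm μ i' (m + 1) = Lm ν (d' - m) := by
  have hle := le_dm_self μ h1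
  have hmd : m < d' := by omega
  rw [Vm_of_lt μ (by omega : m < i')] at hV
  have e1 : d' + 1 - m = (d' - m) + 1 := by omega
  rw [e1] at hV
  have e2 : Lm ν ((d' - m) + 1) = {node (ν (d' - m) + Lm ν (d' - m))} := rfl
  rw [e2, Multiset.singleton_inj] at hV
  have e3 := node_inj hV
  have e4 := Lm_single ν (by omega : 1 ≤ d' - m)
  have e5 : hb (Lm ν (d' - m)) = d' - m := hb_Lm ν (fun l hl => hν l (by omega))
  obtain ⟨x, hx⟩ : ∃ x, Lm ν (d' - m) = {x} := ⟨_, e4⟩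
  rw [hx] at e3 e5
  rw [hb_singleton] at e5
  have hmem : x ∈ μ m + Vm μ i' (m + 1) := by
    rw [e3]
    simp
  have hx2 : x ∈ Vm μ i' (m + 1) := by
    rcases Multiset.mem_add.1 hmem with h | h
    · exfalso
      have h3 := ht_lt_hb h
      have h4 := le_dm μ hm2
      omega
    · exact h
  have hc := card_Vm_le μ i' (m + 1)
  obtain ⟨t, ht⟩ := Multiset.exists_cons_of_mem hx2
  have hc2 : card t = 0 := by
    rw [ht, card_cons] at hc
    omega
  have ht0 : t = 0 := Multiset.card_eq_zero.1 hc2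
  have hV2 : Vm μ i' (m + 1) = {x} := by
    rw [ht, ht0]
    rfl
  refine ⟨?_, ?_⟩
  · rw [hV2] at e3
    exact add_right_cancel e3
  · rw [hV2, hx]

end UnrollAux

theorem unroll {μ ν : ℕ → Multiset RT} {i i' d' : ℕ} (h1 : 1 ≤ i) (hi : i < i')
    (hd : dm μ i < d') (hV : Vm μ i' (d' / 2 + 1) = Lm ν ((d' + 1) / 2))
    (hν : ∀ l < (d' + 1) / 2, hb (ν l) ≤ l) :
    (∀ m, d' / 2 < m → m ≤ i → Vm μ i' m = Lm ν (d' + 1 - m)) ∧
    (∀ m, d' / 2 < m → m < i → μ m = ν (d' - m)) := by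
  have key : ∀ m, d' / 2 < m → m ≤ i → Vm μ i' m = Lm ν (d' + 1 - m) := by
    intro m hm
    induction m, (show d' / 2 + 1 ≤ m from hm) using Nat.le_induction with
    | base =>
      intro _
      rw [hV]
      congr 1
      omega
    | succ m hm' ih =>
      intro hmi
      have h2 := ih (by omega) (by omega)
      have h3 := (UnrollAux.step h1 hi hd hν (by omega) (by omega) h2).2
      rw [h3]
      congr 1
      omega
  refine ⟨key, ?_⟩
  intro m hm hmi
  exact (UnrollAux.step h1 hi hd hν hm hmi (key m hm hmi.le)).1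

theorem two_r {μ ν : ℕ → Multiset RT} {D E i j d i' j' d' : ℕ} (hμ : GW μ D) (hν : GW ν E)
    (h : TyR μ ν D E i j d) (h' : TyR μ ν D E i' j' d') (hii : i < i') :
    j < j' ∧ d < d' ∧ Sz μ i = Sz ν j ∧ Sz μ i' = Sz ν j' ∧
    (∀ m, d' < m + j → m < i → μ m = ν (d' - m)) ∧
    Vm μ i' i = Lm ν (d' + 1 - i) ∧ Vm ν j' j = Lm μ (d' + 1 - j) := by
  have a1 := h.hi
  have a2 := h.hj
  have a3 := h'.hi
  have a4 := h'.hj
  have a5 := h.hdE
  have a6 := h'.hdE
  have a7 := h.hiD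
  have a8 := h.hjE
  have s1 : Sz μ i = Sz ν j := by
    rw [← UnrollAux.csz μ (by omega : 1 ≤ i), ← UnrollAux.csz ν (by omega : 1 ≤ j), h.hc]
  have s2 : Sz μ i' = Sz ν j' := by
    rw [← UnrollAux.csz μ (by omega : 1 ≤ i'), ← UnrollAux.csz ν (by omega : 1 ≤ j'), h'.hc]
  have hjj : j < j' := by
    by_contra hcon
    have h3 := Sz_mono ν (not_lt.1 hcon)
    have h4 := Sz_mono μ hii.le
    omega
  have hdd : d ≤ d' := by
    have h3 := dm_mono μ hii.le
    rw [h.hd, h'.hd] at h3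
    exact h3
  have hne : d ≠ d' := by
    intro e
    have h3 := h.hV
    have h4 := h'.hV
    rw [← e] at h4
    have h5 := Vm_inj μ (by omega : d / 2 + 1 ≤ i) (by omega : d / 2 + 1 ≤ i') (h3.trans h4.symm)
    omega
  have hlt : d < d' := lt_of_le_of_ne hdd hne
  obtain ⟨u1, u2⟩ := unroll (μ := μ) (ν := ν) (by omega : 1 ≤ i) hii
    (by rw [h.hd]; exact hlt) h'.hV (fun l hl => (hν l (by omega)).1)
  obtain ⟨w1, w2⟩ := unroll (μ := ν) (ν := μ) (by omega : 1 ≤ j) hjj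
    (by rw [h.hd']; exact hlt) h'.hV' (fun l hl => (hμ l (by omega)).1)
  refine ⟨hjj, hlt, s1, s2, ?_, u1 i (by omega) le_rfl, w1 j (by omega) le_rfl⟩
  intro m hm1 hm2
  by_cases c1 : d' / 2 < m
  · exact u2 m c1 hm2
  · by_cases c2 : d' = 2 * m
    · have h3 := h'.hm (by omega)
      have e1 : d' / 2 = m := by omega
      have e2 : d' - m = m := by omega
      rw [e1] at h3
      rw [e2]
      exact h3
    · have h3 := w2 (d' - m) (by omega) (by omega)
      have e1 : d' - (d' - m) = m := by omega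
      rw [e1] at h3
      exact h3.symm

end

end TRD
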